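import Mathlib

/-!
Countable choice for projective sets without uniformity: basic definitions.

* `Fm`, `Sat`: first order formulas with named variables and their satisfaction in a structure
  given by an interpretation `I` and a universe `D`;
* `code`: a coding of triples `(l, s, i)`, `s < l`, `i < omega`, by all ordinals;
* `EE A`: the ordinal coded constructible membership relation relative to the arithmetical
  relations `A`, `II A` the interpretation of all symbols;
* `Good A κ`: the ground models;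
* `val`, `NN`: evaluation of symmetrised names and the symmetric extension.
-/

set_option autoImplicit false

namespace Pool.Agent.CC

open Ordinal Set

/-- symbols -/
inductive Sy : Type
  | lt | om | E | code | F | K | mem
  | nat (n : ℕ)
  | ar (j : ℕ)
  deriving DecidableEq, Countable

/-- formulas with named variables -/
inductive Fm : Type
  | bot
  | eq (i j : ℕ)
  | rel (R : Sy) (xs : List ℕ)
  | imp (φ ψ : Fm)
  | all (i : ℕ) (φ : Fm)
  deriving Countable

/-- satisfaction in the structure with universe `D` and interpretation `I` -/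
def Sat {M : Type*} (I : Sy → List M → Prop) (D : Set M) : (ℕ → M) → Fm → Prop
  | _, .bot => False
  | v, .eq i j => v i = v j
  | v, .rel R xs => I R (xs.map v)
  | v, .imp φ ψ => Sat I D v φ → Sat I D v ψ
  | v, .all i φ => ∀ a ∈ D, Sat I D (Function.update v i a) φ

/-- `P` is definable without parameters, uniformly in the structures `(I s, D s)`;
parameters are just further variables -/
def Df {S M : Type*} (I : S → Sy → List M → Prop) (D : S → Set M) (P : S → (ℕ → M) → Prop) :
    Prop :=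
  ∃ φ : Fm, ∀ (s : S) (v : ℕ → M), (∀ k, v k ∈ D s) → (Sat (I s) (D s) v φ ↔ P s v)

/-! ### syntax -/

namespace Fm

def neg (φ : Fm) : Fm := imp φ bot
def and (φ ψ : Fm) : Fm := neg (imp φ (neg ψ))
def or (φ ψ : Fm) : Fm := imp (neg φ) ψ
def iff (φ ψ : Fm) : Fm := and (imp φ ψ) (imp ψ φ)
def ex (i : ℕ) (φ : Fm) : Fm := neg (all i (neg φ))
def lt (i j : ℕ) : Fm := rel .lt [i, j]
def le (i j : ℕ) : Fm := or (lt i j) (eq i j)
/-- bounded quantifiers -/
def ball (i j : ℕ) (φ : Fm) : Fm := all i (imp (lt i j) φ)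
def bex (i j : ℕ) (φ : Fm) : Fm := neg (ball i j (neg φ))
def balle (i j : ℕ) (φ : Fm) : Fm := all i (imp (le i j) φ)
def bexle (i j : ℕ) (φ : Fm) : Fm := neg (balle i j (neg φ))
def om (i : ℕ) : Fm := rel .om [i]
def E (i j : ℕ) : Fm := rel .E [i, j]
def ar (j : ℕ) (xs : List ℕ) : Fm := rel (.ar j) xs
def nat (n i : ℕ) : Fm := rel (.nat n) [i]

end Fm

open Fm

/-- `l` is the successor of `a` (bound variable `n`) -/
def fSucc (a l n : ℕ) : Fm := and (lt a l) (ball n l (le n a))

/-- `x` is the constant for the ordinal `a` (bound variables `n, ..., n+3`) -/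
def fCst (x a n : ℕ) : Fm :=
  bexle n x (and (fSucc a n (n+3)) (bexle (n+1) x (and (nat 0 (n+1))
    (bexle (n+2) x (and (nat 1 (n+2)) (rel .code [n, n+1, n+2, x]))))))

/-- `t` codes the triple `(e, d, q)`; natural numbers bounded by `mu`; bound `n, ..., n+2` -/
def fTr (e d q t mu n : ℕ) : Fm :=
  and (neg (om t)) (or
    (bexle n t (and (fSucc e n (n+2)) (bex (n+1) mu (and (ar 5 [q, n+1])
      (rel .code [n, d, n+1, t])))))
    (bexle n t (and (fSucc d n (n+2)) (bex (n+1) mu (and (ar 6 [q, n+1])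
      (rel .code [n, e, n+1, t]))))))

/-- `m` is the support of the name `x` -/
def fSupp (x m mu n : ℕ) : Fm :=
  and (om m) (or (and (E m x) (ball n m (neg (E n x))))
    (and (nat 0 m) (ball n mu (imp (om n) (neg (E n x))))))

/-- the real coded by `c` vanishes on the first `m` columns -/
def fInG (m c mu n : ℕ) : Fm := ball n mu (imp (om n) (imp (ar 2 [m, n]) (neg (E n c))))

/-- the real coded by `c` is the sum of the reals coded by `a` and `b` -/
def fSum (a b c mu n : ℕ) : Fm :=
  ball n mu (imp (om n) (iff (E n c) (iff (E n a) (neg (E n b)))))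

/-- the condition `r` extends the condition `p` -/
def fLe (r p mu n : ℕ) : Fm :=
  ball n mu (imp (om n) (and (imp (ar 0 [p, n]) (ar 0 [r, n])) (imp (ar 1 [p, n]) (ar 1 [r, n]))))

/-- the condition `s` extends the translate of the condition `q` by the real coded by `a` -/
def fLeSh (s q a mu n : ℕ) : Fm :=
  ball n mu (imp (om n) (and
    (imp (ar 0 [q, n]) (and (imp (E n a) (ar 1 [s, n])) (imp (neg (E n a)) (ar 0 [s, n]))))
    (imp (ar 1 [q, n]) (and (imp (E n a) (ar 0 [s, n])) (imp (neg (E n a)) (ar 1 [s, n]))))))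

/-- `(e, b)` is a potential element of the name `(x, z)`, as soon as `q` is contained in the
generic real translated by (the real coded by) `a` -/
def fElt (mu x z e b q a n : ℕ) : Fm :=
  or (bex n x (and (fCst x n (n+2)) (bex (n+1) n (fCst e (n+1) (n+2)))))
    (and (ball n x (neg (fCst x n (n+2))))
      (bex n mu (bex (n+1) mu (bex (n+2) mu (bex (n+3) x
        (and (fSupp x n mu (n+4)) (and (fInG n (n+1) mu (n+4)) (and (fSum z (n+1) a mu (n+4))
        (and (fSum a (n+2) b mu (n+4)) (and (E (n+3) x) (fTr e (n+2) q (n+3) mu (n+4)))))))))))) 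

/-- the recursion clause of the forcing relation for equality:
variables `0` = bound for the codes of reals, `(4, 1)` and `(5, 2)` = the two names,
`3` = the condition -/
def chiF : Fm :=
  and (neg (om 0)) (and (om 3) (and
    (ball 6 4 (ball 7 0 (ball 8 0 (ball 9 0 (imp (om 8) (imp (fElt 0 4 1 6 7 8 9 20)
      (ball 10 0 (imp (om 10) (imp (fLe 10 3 0 20) (imp (fLeSh 10 8 9 0 20)
        (bex 11 0 (and (om 11) (and (fLe 11 10 0 20)
          (bex 12 5 (bex 13 0 (bex 14 0 (bex 15 0 (and (om 14) (and (fElt 0 5 2 12 13 14 15 20)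
            (and (fLeSh 11 14 15 0 20)
              (and (lt 6 4) (rel .F [0, 7, 13, 11, 6, 12]))))))))))))))))))))))
    (ball 12 5 (ball 13 0 (ball 14 0 (ball 15 0 (imp (om 14) (imp (fElt 0 5 2 12 13 14 15 20)
      (ball 10 0 (imp (om 10) (imp (fLe 10 3 0 20) (imp (fLeSh 10 14 15 0 20)
        (bex 11 0 (and (om 11) (and (fLe 11 10 0 20)
          (bex 6 4 (bex 7 0 (bex 8 0 (bex 9 0 (and (om 8) (and (fElt 0 4 1 6 7 8 9 20)
            (and (fLeSh 11 8 9 0 20)
              (and (lt 6 4) (rel .F [0, 7, 13, 11, 6, 12]))))))))))))))))))))))))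

/-- the recursion clause of the inductive definitions: variables `0` = code of the operator,
`1` = stage, `2` = natural number -/
def chiK : Fm :=
  and (neg (om 0)) (and (om 2) (ball 3 0 (imp (om 3) (bex 4 0 (and (om 4) (or
    (bex 5 0 (and (om 5) (and (ar 3 [2, 3, 4, 5]) (E 5 0))))
    (bex 5 0 (and (om 5) (and (ar 4 [2, 3, 4, 5]) (and (E 5 0)
      (bex 6 1 (and (lt 6 1) (rel .K [0, 6, 4])))))))))))))

/-! ### coding of triples by ordinals -/

/-- `tri l` is the sum of all ordinals below `l` -/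
noncomputable def tri (l : Ordinal.{0}) : Ordinal.{0} := ⨆ m : Set.Iio l, (tri m.1 + m.1)
termination_by l
decreasing_by exact m.2

/-- code of the triple `(l, s, i)`, to be used for `s < l` -/
noncomputable def code (l s : Ordinal.{0}) (i : ℕ) : Ordinal.{0} := ω * (tri l + s) + i

/-- every ordinal codes exactly one triple `(l, s, i)` with `s < l` -/
noncomputable def dcd (x : Ordinal.{0}) : Ordinal.{0} × Ordinal.{0} × ℕ :=
  open Classical in
  if h : ∃ t : Ordinal.{0} × Ordinal.{0} × ℕ, t.2.1 < t.1 ∧ x = code t.1 t.2.1 t.2.2 then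
    Classical.choose h else (0, 0, 0)

/-- the constants -/
noncomputable def cst (a : Ordinal.{0}) : Ordinal.{0} := code (a + 1) 0 1

/-! ### interpretations -/

/-- interpretation of all symbols, given the relations `E`, `F`, `K` -/
def base (A : ℕ → List ℕ → Prop) (E : Ordinal.{0} → Ordinal.{0} → Prop)
    (F K : List Ordinal.{0} → Prop) : Sy → List Ordinal.{0} → Prop
  | .lt, [a, b] => a < b
  | .om, [a] => a < ω
  | .E, [a, b] => E a b
  | .code, [l, s, i, x] => s < l ∧ ∃ n : ℕ, i = n ∧ x = code l s n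
  | .nat n, [a] => a = n
  | .ar j, l => ∃ l' : List ℕ, l = l'.map (fun n : ℕ => (n : Ordinal.{0})) ∧ A j l'
  | .F, l => F l
  | .K, l => K l
  | _, _ => False

/-- valuation given by a list -/
def lv (l : List Ordinal.{0}) (k : ℕ) : Ordinal.{0} := l.getD k 0

/-- rows of the forcing relation -/
noncomputable def Frow (A : ℕ → List ℕ → Prop) (E : Ordinal.{0} → Ordinal.{0} → Prop) :
    Ordinal.{0} → Ordinal.{0} → Ordinal.{0} → Ordinal.{0} → Ordinal.{0} → Ordinal.{0} → Prop :=
  WellFoundedLT.fix fun x rec m a b p y =>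
    Sat (base A E (fun l => ∃ m a b p x' y, l = [m, a, b, p, x', y] ∧
      ∃ h : x' < x, rec x' h m a b p y) (fun _ => False)) Set.univ (lv [m, a, b, p, x, y]) chiF

/-- the forcing relation `[m, a, b, p, x, y]`: the condition `p` forces that the names `x`
and `y`, translated by the reals coded by `a` and `b`, are equal -/
def Frel (A : ℕ → List ℕ → Prop) (E : Ordinal.{0} → Ordinal.{0} → Prop)
    (l : List Ordinal.{0}) : Prop :=
  ∃ m a b p x y, l = [m, a, b, p, x, y] ∧ Frow A E x m a b p y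

/-- rows of the stages of inductive definitions -/
noncomputable def Krow (A : ℕ → List ℕ → Prop) (E : Ordinal.{0} → Ordinal.{0} → Prop) :
    Ordinal.{0} → Ordinal.{0} → Ordinal.{0} → Prop :=
  WellFoundedLT.fix fun a rec t n =>
    Sat (base A E (fun _ => False) (fun l => ∃ t a' n, l = [t, a', n] ∧
      ∃ h : a' < a, rec a' h t n)) Set.univ (lv [t, a, n]) chiK

/-- stages `[t, a, n]`: `n` belongs to stage `a` of the inductive definition coded by `t` -/
def Krel (A : ℕ → List ℕ → Prop) (E : Ordinal.{0} → Ordinal.{0} → Prop)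
    (l : List Ordinal.{0}) : Prop :=
  ∃ t a n, l = [t, a, n] ∧ Krow A E a t n

/-- the interpretation determined by `A` and `E` -/
def IE (A : ℕ → List ℕ → Prop) (E : Ordinal.{0} → Ordinal.{0} → Prop) :
    Sy → List Ordinal.{0} → Prop := base A E (Frel A E) (Krel A E)

/-- an enumeration of all formulas -/
noncomputable def fmS : ℕ → Fm :=
  Classical.choose (@exists_surjective_nat Fm ⟨Fm.bot⟩ inferInstance)

/-- an enumeration of all formulas with two reserved indices -/
noncomputable def fm (n : ℕ) : Fm := if n < 2 then Fm.bot else fmS (n - 2)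

/-- variable `0` is `e`, all the others are `s` -/
def vv (e s : Ordinal.{0}) (k : ℕ) : Ordinal.{0} := if k = 0 then e else s

/-- rows of the membership relation -/
noncomputable def Erow (A : ℕ → List ℕ → Prop) : Ordinal.{0} → Set Ordinal.{0} :=
  WellFoundedLT.fix fun x rec =>
    {e | e < (dcd x).1 ∧ (dcd x).1 ≤ x ∧
      Sat (IE A (fun a b => ∃ h : b < x, a ∈ rec b h)) (Set.Iio (dcd x).1)
        (vv e (dcd x).2.1) (fm (dcd x).2.2)}

/-- the membership relation -/
def EE (A : ℕ → List ℕ → Prop) (e x : Ordinal.{0}) : Prop := e ∈ Erow A x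

/-- the interpretation of all symbols on the ordinals -/
def II (A : ℕ → List ℕ → Prop) : Sy → List Ordinal.{0} → Prop := IE A (EE A)

/-- ground models: `κ` is a countable ordinal such that every formula valid for all ordinals
is valid below `κ` -/
structure Good (A : ℕ → List ℕ → Prop) (κ : Ordinal.{0}) : Prop where
  countable : (Set.Iio κ).Countable
  pos : 0 < κ
  valid : ∀ φ : Fm, (∀ v, Sat (II A) Set.univ v φ) →
    ∀ v, (∀ k, v k < κ) → Sat (II A) (Set.Iio κ) v φ

/-! ### arithmetic -/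

/-- conditions are finite binary strings: the string coded by `p` -/
def cond (p : ℕ) : List Bool := (Encodable.decode p).getD []

/-- the `i`-th bit of the condition `p` -/
def bit (p i : ℕ) : Option Bool := (cond p)[i]?

/-- the intended meaning of the arithmetical relations -/
structure Arith (A : ℕ → List ℕ → Prop) : Prop where
  a0 : ∀ l, A 0 l ↔ ∃ p i, l = [p, i] ∧ bit p i = some true
  a1 : ∀ l, A 1 l ↔ ∃ p i, l = [p, i] ∧ bit p i = some false
  a2 : ∀ l, A 2 l ↔ ∃ m i, l = [m, i] ∧ i.unpair.1 < m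
  a3 : ∀ l, A 3 l ↔ ∃ n a b, l = [n, a, b, 2 * Nat.pair (Nat.pair n a) b]
  a4 : ∀ l, A 4 l ↔ ∃ n a b, l = [n, a, b, 2 * Nat.pair (Nat.pair n a) b + 1]
  a5 : ∀ l, A 5 l ↔ ∃ q, l = [q, 2 * q]
  a6 : ∀ l, A 6 l ↔ ∃ q, l = [q, 2 * q + 1]
  a7 : ∀ l, A 7 l ↔ ∃ a b, l = [a, b, Nat.pair a b]
  a8 : ∀ l, A 8 l ↔ ∃ c i a, l = [c, i, a] ∧ (Denumerable.ofNat (List ℕ) c)[i]? = some a
  a9 : ∀ l, A 9 l ↔ ∃ c, l = [c, (Denumerable.ofNat (List ℕ) c).length]

/-- the condition `q` extends the condition `p` -/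
def leC (q p : ℕ) : Prop := ∀ i b, bit p i = some b → bit q i = some b

/-- the condition `p` is contained in the real `g` -/
def inC (p : ℕ) (g : Set ℕ) : Prop :=
  ∀ i, (bit p i = some true → i ∈ g) ∧ (bit p i = some false → i ∉ g)

/-- the real coded by an ordinal -/
def zR (A : ℕ → List ℕ → Prop) (z : Ordinal.{0}) : Set ℕ := {n | EE A n z}

/-- reals vanishing on the first `m` columns -/
def inG (m : ℕ) (z : Set ℕ) : Prop := ∀ i, i.unpair.1 < m → i ∉ z

/-- the real `g` meets all dense sets of conditions coded below `κ` -/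
def Gen (A : ℕ → List ℕ → Prop) (κ : Ordinal.{0}) (g : Set ℕ) : Prop :=
  ∀ x < κ, (∀ p, ∃ q ∈ zR A x, leC q p) → ∃ q ∈ zR A x, inC q g

/-! ### names -/

/-- the support of a name -/
noncomputable def supp (A : ℕ → List ℕ → Prop) (x : Ordinal.{0}) : ℕ :=
  sInf (zR A x)

/-- `t` codes the triple `(e, d, q)` -/
def Tr (e d : Ordinal.{0}) (q : ℕ) (t : Ordinal.{0}) : Prop :=
  ω ≤ t ∧ ((d < e + 1 ∧ t = code (e + 1) d (2 * q)) ∨ (e < d + 1 ∧ t = code (d + 1) e (2 * q + 1)))

/-- `(e, d, q)` belongs to the content of the name `x` -/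
def Ct (A : ℕ → List ℕ → Prop) (x e d : Ordinal.{0}) (q : ℕ) : Prop :=
  (¬ ∃ a, x = cst a) ∧ ∃ t, EE A t x ∧ Tr e d q t

/-- evaluation of the name `x` at the real `h`; codes of reals are bounded by `μ` -/
noncomputable def val (A : ℕ → List ℕ → Prop) (μ : Ordinal.{0}) :
    Ordinal.{0} → Set ℕ → ZFSet.{0} :=
  WellFoundedLT.fix fun x rec h =>
    open Classical in
    if hx : ∃ a, x = cst a then (Classical.choose hx).toZFSet
    else ZFSet.range (fun t : {t : Set.Iio x × Set.Iio μ × Set.Iio μ × ℕ //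
        inG (supp A x) (zR A t.2.1.1) ∧ Ct A x t.1.1 t.2.2.1.1 t.2.2.2 ∧
          inC t.2.2.2 (symmDiff h (zR A t.2.1.1))} =>
      rec t.1.1.1 t.1.1.2 (symmDiff (symmDiff h (zR A t.1.2.1.1)) (zR A t.1.2.2.1.1)))

/-- the symmetric extension -/
def NN (A : ℕ → List ℕ → Prop) (κ μ : Ordinal.{0}) (g : Set ℕ) : Set ZFSet.{0} :=
  {y | ∃ x < κ, ∃ z < μ, y = val A μ x (symmDiff g (zR A z))}

/-- interpretation of the symbols on sets: membership, and the ground relations on the
von Neumann ordinals below `κ` -/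
def NI (A : ℕ → List ℕ → Prop) (κ : Ordinal.{0}) : Sy → List ZFSet.{0} → Prop
  | .mem, l => ∃ x y, l = [x, y] ∧ x ∈ y
  | R, l => ∃ l' : List Ordinal.{0}, (∀ a ∈ l', a < κ) ∧ l = l'.map toZFSet ∧ II A R l'

/-! ### forcing -/

/-- the condition `s` extends the translate of `q` by the real `z` -/
def leSh (s q : ℕ) (z : Set ℕ) : Prop :=
  ∀ i, (bit q i = some true → (i ∈ z → bit s i = some false) ∧ (i ∉ z → bit s i = some true)) ∧
    (bit q i = some false → (i ∈ z → bit s i = some true) ∧ (i ∉ z → bit s i = some false))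

/-- `(e, b)` is a potential element of the name `x` translated by (the real coded by) `z`,
as soon as `q` is contained in the translate of the generic real by `a` -/
def Elt (A : ℕ → List ℕ → Prop) (μ x z e b : Ordinal.{0}) (q : ℕ) (a : Ordinal.{0}) : Prop :=
  (∃ i j, x = cst i ∧ e = cst j ∧ j < i) ∨
    ∃ c < μ, ∃ d < μ, inG (supp A x) (zR A c) ∧ zR A a = symmDiff (zR A z) (zR A c) ∧
      zR A b = symmDiff (zR A a) (zR A d) ∧ Ct A x e d q

/-- `p` forces that the name `x.1` translated by `x.2` equals `y.1` translated by `y.2` -/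
def Feq (A : ℕ → List ℕ → Prop) (μ : Ordinal.{0}) (p : ℕ) (x y : Ordinal.{0} × Ordinal.{0}) :
    Prop := II A .F [μ, x.2, y.2, p, x.1, y.1]

/-- `p` forces that `x` is a member of `y` -/
def Fmem (A : ℕ → List ℕ → Prop) (μ : Ordinal.{0}) (p : ℕ) (x y : Ordinal.{0} × Ordinal.{0}) :
    Prop :=
  ∀ r, leC r p → ∃ s, leC s r ∧ ∃ e < y.1, ∃ b < μ, ∃ q, ∃ a < μ, Elt A μ y.1 y.2 e b q a ∧
    leSh s q (zR A a) ∧ Feq A μ s x (e, b)

/-- the forcing relation for formulas -/
def Fc (A : ℕ → List ℕ → Prop) (κ μ : Ordinal.{0}) :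
    Fm → ℕ → (ℕ → Ordinal.{0} × Ordinal.{0}) → Prop
  | .bot, _, _ => False
  | .eq i j, p, u => Feq A μ p (u i) (u j)
  | .rel .mem xs, p, u => ∃ i j, xs = [i, j] ∧ Fmem A μ p (u i) (u j)
  | .rel R xs, p, u => ∀ r, leC r p → ∃ s, leC s r ∧ ∃ l : List Ordinal.{0}, (∀ a ∈ l, a < κ) ∧
      List.Forall₂ (fun i a => Feq A μ s (u i) (cst a, 0)) xs l ∧ II A R l
  | .imp φ ψ, p, u => ∀ q, leC q p → Fc A κ μ φ q u → Fc A κ μ ψ q u
  | .all i φ, p, u => ∀ x < κ, ∀ a < μ, Fc A κ μ φ p (Function.update u i (x, a))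

/-! ### what is used about the ground model -/

/-- definable without parameters over the ground model -/
def D0 (A : ℕ → List ℕ → Prop) (κ : Ordinal.{0}) (P : (ℕ → Ordinal.{0}) → Prop) : Prop :=
  Df (fun _ : Unit => II A) (fun _ => Set.Iio κ) (fun _ => P)

/-- closure properties of the ground model below `κ`; all reals are coded below `μ` -/
structure Grd (A : ℕ → List ℕ → Prop) (κ μ : Ordinal.{0}) : Prop where
  countable : (Set.Iio κ).Countable
  om_le : ω ≤ μ
  mu_lt : μ < κ
  code_lt : ∀ l < κ, ∀ s < l, ∀ i, code l s i < κ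
  succ_lt : ∀ a < κ, a + 1 < κ
  real : ∀ x < κ, ∃ y < μ, 2 ≤ y ∧ zR A y = zR A x
  mu_def : D0 A κ (fun v => v 0 = μ)
  comp : ∀ P, D0 A κ P → ∀ v, (∀ k, v k < κ) → ∀ l < κ, ∃ x < κ, (¬ ∃ a, x = cst a) ∧
    ∀ e, EE A e x ↔ e < l ∧ P (Function.update v 0 e)
  coll : ∀ P, D0 A κ P → ∀ v, (∀ k, v k < κ) → ∀ l < κ,
    (∀ e < l, ∃ x < κ, P (Function.update (Function.update v 0 e) 1 x)) →
    ∃ m < κ, ∀ e < l, ∃ x < m, P (Function.update (Function.update v 0 e) 1 x)
  pow : ∀ l < κ, ∃ m < κ, ∀ x < κ, ∃ y < m, (¬ ∃ a, y = cst a) ∧ ∀ e, EE A e y ↔ e < l ∧ EE A e x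
  stage : ∀ t < κ, ∃ a < κ, ∀ b < κ, ∀ n : ℕ, II A .K [t, b, n] → II A .K [t, a, n]

/-- the sentences valid in all the constructible universes -/
def Sig : Set Fm := {φ | ∀ A v, Sat (II A) Set.univ v φ}

end Pool.Agent.CC
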