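import Mathlib
import Pool.Agent.Lib.MP_bf67b0_lc.Defs

/-!
Satisfaction depends only on finitely many variables, renaming of variables, and the closure
properties of (uniform) definability.
-/

set_option autoImplicit false

namespace Pool.Agent.CC

open Ordinal Set

namespace Fm

/-- all variables of the formula are below the bound -/
def bnd : Fm → ℕ
  | bot => 0
  | eq i j => max (i + 1) (j + 1)
  | rel _ xs => (xs.map (· + 1)).foldr max 0
  | imp φ ψ => max φ.bnd ψ.bnd
  | all i φ => max (i + 1) φ.bnd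

/-- renaming of variables, bound variables are chosen fresh -/
def ren : Fm → (ℕ → ℕ) → Fm
  | bot, _ => bot
  | eq i j, ρ => eq (ρ i) (ρ j)
  | rel R xs, ρ => rel R (xs.map ρ)
  | imp φ ψ, ρ => imp (φ.ren ρ) (ψ.ren ρ)
  | all i φ, ρ => all ((Finset.range φ.bnd).sup (fun k => ρ k + 1))
      (φ.ren (Function.update ρ i ((Finset.range φ.bnd).sup (fun k => ρ k + 1))))

end Fm

theorem lt_bnd_of_mem {xs : List ℕ} {k : ℕ} (h : k ∈ xs) :
    k < (xs.map (· + 1)).foldr max 0 := by
  induction xs with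
  | nil => simp at h
  | cons a l ih =>
    simp only [List.map_cons, List.foldr_cons]
    rcases List.mem_cons.1 h with h | h
    · subst h; exact lt_of_lt_of_le (Nat.lt_succ_self _) (le_max_left _ _)
    · exact lt_of_lt_of_le (ih h) (le_max_right _ _)

section
variable {M : Type*} {I : Sy → List M → Prop} {D : Set M} {v w : ℕ → M} {φ ψ : Fm}

theorem Sat_bot : Sat I D v .bot ↔ False := Iff.rfl
theorem Sat_eq {i j : ℕ} : Sat I D v (.eq i j) ↔ v i = v j := Iff.rfl
theorem Sat_rel {R : Sy} {xs : List ℕ} : Sat I D v (.rel R xs) ↔ I R (xs.map v) := Iff.rfl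
theorem Sat_imp : Sat I D v (.imp φ ψ) ↔ (Sat I D v φ → Sat I D v ψ) := Iff.rfl
theorem Sat_all {i : ℕ} : Sat I D v (.all i φ) ↔ ∀ a ∈ D, Sat I D (Function.update v i a) φ :=
  Iff.rfl
theorem Sat_neg : Sat I D v φ.neg ↔ ¬ Sat I D v φ := Iff.rfl
theorem Sat_and : Sat I D v (φ.and ψ) ↔ Sat I D v φ ∧ Sat I D v ψ := by
  simp only [Fm.and, Sat_neg, Sat_imp]; tauto
theorem Sat_or : Sat I D v (φ.or ψ) ↔ Sat I D v φ ∨ Sat I D v ψ := by
  simp only [Fm.or, Sat_neg, Sat_imp]; tauto
theorem Sat_iff : Sat I D v (φ.iff ψ) ↔ (Sat I D v φ ↔ Sat I D v ψ) := by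
  simp only [Fm.iff, Sat_and, Sat_imp]; tauto
theorem Sat_ex {i : ℕ} : Sat I D v (.ex i φ) ↔ ∃ a ∈ D, Sat I D (Function.update v i a) φ := by
  simp only [Fm.ex, Sat_neg, Sat_all]; push Not; rfl
theorem Sat_lt {i j : ℕ} : Sat I D v (.lt i j) ↔ I .lt [v i, v j] := Iff.rfl
theorem Sat_le {i j : ℕ} : Sat I D v (.le i j) ↔ I .lt [v i, v j] ∨ v i = v j := by
  simp only [Fm.le, Sat_or, Sat_lt, Sat_eq]
theorem Sat_ball {i j : ℕ} : Sat I D v (.ball i j φ) ↔ ∀ a ∈ D,
    I .lt [a, Function.update v i a j] → Sat I D (Function.update v i a) φ := by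
  simp only [Fm.ball, Sat_all, Sat_imp, Sat_lt, Function.update_self]
theorem Sat_bex {i j : ℕ} : Sat I D v (.bex i j φ) ↔ ∃ a ∈ D,
    I .lt [a, Function.update v i a j] ∧ Sat I D (Function.update v i a) φ := by
  simp only [Fm.bex, Sat_neg, Sat_ball]; push Not; rfl
theorem Sat_balle {i j : ℕ} : Sat I D v (.balle i j φ) ↔ ∀ a ∈ D,
    (I .lt [a, Function.update v i a j] ∨ a = Function.update v i a j) →
      Sat I D (Function.update v i a) φ := by
  simp only [Fm.balle, Sat_all, Sat_imp, Sat_le, Function.update_self]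
theorem Sat_bexle {i j : ℕ} : Sat I D v (.bexle i j φ) ↔ ∃ a ∈ D,
    (I .lt [a, Function.update v i a j] ∨ a = Function.update v i a j) ∧
      Sat I D (Function.update v i a) φ := by
  simp only [Fm.bexle, Sat_neg, Sat_balle]; push Not; rfl

theorem Sat_congr (h : ∀ k < φ.bnd, v k = w k) : Sat I D v φ ↔ Sat I D w φ := by
  induction φ generalizing v w with
  | bot => rfl
  | eq i j =>
    have h1 : v i = w i := h i (lt_of_lt_of_le (Nat.lt_succ_self _) (le_max_left _ _))
    have h2 : v j = w j := h j (lt_of_lt_of_le (Nat.lt_succ_self _) (le_max_right _ _))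
    simp only [Sat_eq, h1, h2]
  | rel R xs =>
    have : xs.map v = xs.map w := List.map_congr_left fun k hk => h k (lt_bnd_of_mem hk)
    simp only [Sat_rel, this]
  | imp φ ψ h1 h2 =>
    simp only [Sat_imp]
    rw [h1 (fun k hk => h k (lt_of_lt_of_le hk (le_max_left _ _))),
      h2 (fun k hk => h k (lt_of_lt_of_le hk (le_max_right _ _)))]
  | all i φ ih =>
    simp only [Sat_all]
    refine forall₂_congr fun a _ => ih fun k hk => ?_
    by_cases hki : k = i
    · subst hki; simp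
    · simp only [Function.update_of_ne hki]
      exact h k (lt_of_lt_of_le hk (le_max_right _ _))

theorem Sat_ren (ρ : ℕ → ℕ) : Sat I D v (φ.ren ρ) ↔ Sat I D (fun k => v (ρ k)) φ := by
  induction φ generalizing v ρ with
  | bot => rfl
  | eq i j => rfl
  | rel R xs =>
    simp only [Fm.ren, Sat_rel, List.map_map]; rfl
  | imp φ ψ h1 h2 => simp only [Fm.ren, Sat_imp, h1, h2]
  | all i φ ih =>
    simp only [Fm.ren, Sat_all, ih]
    refine forall₂_congr fun a _ => Sat_congr fun k hk => ?_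
    by_cases hki : k = i
    · subst hki; simp
    · simp only [Function.update_of_ne hki]
      have : ρ k < (Finset.range φ.bnd).sup (fun k => ρ k + 1) :=
        lt_of_lt_of_le (Nat.lt_succ_self _)
          (Finset.le_sup (f := fun k => ρ k + 1) (Finset.mem_range.2 hk))
      rw [Function.update_of_ne this.ne]

end

section
variable {S M : Type*} {I : S → Sy → List M → Prop} {D : S → Set M}

theorem Df.congr {P Q : S → (ℕ → M) → Prop} (h : Df I D P)
    (hPQ : ∀ s v, (∀ k, v k ∈ D s) → (P s v ↔ Q s v)) : Df I D Q := by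
  obtain ⟨φ, hφ⟩ := h
  exact ⟨φ, fun s v hv => (hφ s v hv).trans (hPQ s v hv)⟩

theorem Df.bot : Df I D (fun _ _ => False) := ⟨.bot, fun _ _ _ => Iff.rfl⟩

theorem Df.eq (i j : ℕ) : Df I D (fun _ v => v i = v j) := ⟨.eq i j, fun _ _ _ => Iff.rfl⟩

theorem Df.rel (R : Sy) (xs : List ℕ) : Df I D (fun s v => I s R (xs.map v)) :=
  ⟨.rel R xs, fun _ _ _ => Iff.rfl⟩

theorem Df.imp {P Q : S → (ℕ → M) → Prop} (h : Df I D P) (h' : Df I D Q) :
    Df I D (fun s v => P s v → Q s v) := by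
  obtain ⟨φ, hφ⟩ := h
  obtain ⟨ψ, hψ⟩ := h'
  exact ⟨.imp φ ψ, fun s v hv => by rw [Sat_imp, hφ s v hv, hψ s v hv]⟩

theorem Df.not {P : S → (ℕ → M) → Prop} (h : Df I D P) : Df I D (fun s v => ¬ P s v) :=
  h.imp Df.bot

theorem Df.and {P Q : S → (ℕ → M) → Prop} (h : Df I D P) (h' : Df I D Q) :
    Df I D (fun s v => P s v ∧ Q s v) := by
  obtain ⟨φ, hφ⟩ := h
  obtain ⟨ψ, hψ⟩ := h'
  exact ⟨φ.and ψ, fun s v hv => by rw [Sat_and, hφ s v hv, hψ s v hv]⟩

theorem Df.or {P Q : S → (ℕ → M) → Prop} (h : Df I D P) (h' : Df I D Q) :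
    Df I D (fun s v => P s v ∨ Q s v) := by
  obtain ⟨φ, hφ⟩ := h
  obtain ⟨ψ, hψ⟩ := h'
  exact ⟨φ.or ψ, fun s v hv => by rw [Sat_or, hφ s v hv, hψ s v hv]⟩

theorem Df.iff {P Q : S → (ℕ → M) → Prop} (h : Df I D P) (h' : Df I D Q) :
    Df I D (fun s v => (P s v ↔ Q s v)) := by
  obtain ⟨φ, hφ⟩ := h
  obtain ⟨ψ, hψ⟩ := h'
  exact ⟨φ.iff ψ, fun s v hv => by rw [Sat_iff, hφ s v hv, hψ s v hv]⟩

/-- substitution of variables -/
theorem Df.subst {P : S → (ℕ → M) → Prop} (h : Df I D P) (ρ : ℕ → ℕ) :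
    Df I D (fun s v => P s (fun k => v (ρ k))) := by
  obtain ⟨φ, hφ⟩ := h
  exact ⟨φ.ren ρ, fun s v hv => by rw [Sat_ren, hφ s _ (fun k => hv (ρ k))]⟩

/-- quantifiers, de Bruijn style: the new variable is `0`, the old ones are shifted -/
theorem Df.all {Q : S → M → (ℕ → M) → Prop}
    (h : Df I D (fun s v => Q s (v 0) (fun k => v (k + 1)))) :
    Df I D (fun s v => ∀ a ∈ D s, Q s a v) := by
  obtain ⟨φ, hφ⟩ := h
  refine ⟨.all φ.bnd (φ.ren (fun k => if k = 0 then φ.bnd else k - 1)), fun s v hv => ?_⟩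
  rw [Sat_all]
  refine forall₂_congr fun a ha => ?_
  rw [Sat_ren]
  have h1 := hφ s (fun k => if k = 0 then a else v (k - 1))
    (fun k => by split_ifs; exacts [ha, hv _])
  simp only [if_true, Nat.add_eq_zero_iff, one_ne_zero, and_false, if_false,
    Nat.add_sub_cancel] at h1
  rw [← h1]
  refine Sat_congr fun k hk => ?_
  by_cases hk0 : k = 0
  · simp [hk0]
  · simp only [hk0, if_false]
    rw [Function.update_of_ne]
    omega

theorem Df.ex {Q : S → M → (ℕ → M) → Prop}
    (h : Df I D (fun s v => Q s (v 0) (fun k => v (k + 1)))) :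
    Df I D (fun s v => ∃ a ∈ D s, Q s a v) := by
  have h1 := (Df.all (Q := fun s a v => ¬ Q s a v) h.not).not
  refine h1.congr fun s v _ => ?_
  push Not
  rfl

theorem Df.true : Df I D (fun _ _ => True) := Df.bot.not.congr fun _ _ _ => by simp

theorem Df.const (p : Prop) : Df I D (fun _ _ => p) := by
  by_cases hp : p
  · exact Df.true.congr fun _ _ _ => by simp [hp]
  · exact Df.bot.congr fun _ _ _ => by simp [hp]

/-- restriction of the family of structures -/
theorem Df.restrict {T : Type*} (f : T → S) {P : S → (ℕ → M) → Prop} (h : Df I D P) :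
    Df (fun t => I (f t)) (fun t => D (f t)) (fun t => P (f t)) := by
  obtain ⟨φ, hφ⟩ := h
  exact ⟨φ, fun t v hv => hφ (f t) v hv⟩

end

end Pool.Agent.CC
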