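import Mathlib

/-!
Countable choice for the projective classes in transitive models of ZF: the statement.

`N` is a set of (well-founded) sets, the universe of a transitive model.  The reals of `N` are the
functions `ℕ → ℕ` whose graph is an element of `N`; trees on `ℕ` are coded by subsets of `ℕ`.
-/

set_option autoImplicit false

namespace Pool.Agent.CC

/-- formulas of the language of set theory, with named variables -/
inductive SFm : Type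
  | bot
  | eq (i j : ℕ)
  | mem (i j : ℕ)
  | imp (φ ψ : SFm)
  | all (i : ℕ) (φ : SFm)

/-- satisfaction in the structure `(N, ∈)` -/
def SFm.Holds (N : Set ZFSet.{0}) : (ℕ → ZFSet.{0}) → SFm → Prop
  | _, .bot => False
  | v, .eq i j => v i = v j
  | v, .mem i j => v i ∈ v j
  | v, .imp φ ψ => SFm.Holds N v φ → SFm.Holds N v ψ
  | v, .all i φ => ∀ a ∈ N, SFm.Holds N (Function.update v i a) φ

/-- all axioms of ZF hold in the structure `(N, ∈)` -/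
structure ModelZF (N : Set ZFSet.{0}) : Prop where
  nonempty : N.Nonempty
  extensionality : ∀ x ∈ N, ∀ y ∈ N, (∀ z ∈ N, z ∈ x ↔ z ∈ y) → x = y
  foundation : ∀ x ∈ N, (∃ y ∈ N, y ∈ x) → ∃ y ∈ N, y ∈ x ∧ ∀ z ∈ N, ¬ (z ∈ x ∧ z ∈ y)
  pairing : ∀ x ∈ N, ∀ y ∈ N, ∃ z ∈ N, ∀ w ∈ N, w ∈ z ↔ w = x ∨ w = y
  union : ∀ x ∈ N, ∃ z ∈ N, ∀ w ∈ N, w ∈ z ↔ ∃ y ∈ N, y ∈ x ∧ w ∈ y
  power : ∀ x ∈ N, ∃ z ∈ N, ∀ w ∈ N, w ∈ z ↔ ∀ y ∈ N, y ∈ w → y ∈ x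
  infinity : ∃ x ∈ N, (∃ e ∈ N, e ∈ x ∧ ∀ w ∈ N, w ∉ e) ∧
    ∀ y ∈ N, y ∈ x → ∃ s ∈ N, s ∈ x ∧ ∀ w ∈ N, w ∈ s ↔ w ∈ y ∨ w = y
  separation : ∀ (φ : SFm) (v : ℕ → ZFSet.{0}), (∀ k, v k ∈ N) → ∀ x ∈ N, ∃ z ∈ N, ∀ w ∈ N,
    w ∈ z ↔ w ∈ x ∧ φ.Holds N (Function.update v 0 w)
  replacement : ∀ (φ : SFm) (v : ℕ → ZFSet.{0}), (∀ k, v k ∈ N) → ∀ x ∈ N,
    (∀ a ∈ N, a ∈ x → ∃ b ∈ N, ∀ c ∈ N,
      φ.Holds N (Function.update (Function.update v 0 a) 1 c) ↔ c = b) →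
    ∃ z ∈ N, ∀ b ∈ N, b ∈ z ↔ ∃ a ∈ N, a ∈ x ∧
      φ.Holds N (Function.update (Function.update v 0 a) 1 b)

/-- von Neumann numerals -/
noncomputable def nz : ℕ → ZFSet.{0}
  | 0 => ∅
  | n + 1 => insert (nz n) (nz n)

/-- the graph of a function from the natural numbers to sets -/
noncomputable def seqZ (f : ℕ → ZFSet.{0}) : ZFSet.{0} :=
  ZFSet.range (fun n : ℕ => ZFSet.pair (nz n) (f n))

/-- a real as a set -/
noncomputable def rz (x : ℕ → ℕ) : ZFSet.{0} := seqZ (fun n => nz (x n))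

/-- the reals of `N` -/
def Rl (N : Set ZFSet.{0}) : Set (ℕ → ℕ) := {x | rz x ∈ N}

/-- a set of natural numbers as a set -/
noncomputable def sz (S : Set ℕ) : ZFSet.{0} := ZFSet.range (fun n : S => nz n.1)

/-- a set of reals as a set -/
noncomputable def setZ (X : Set (ℕ → ℕ)) : ZFSet.{0} := ZFSet.range (fun x : X => rz x.1)

/-- the initial segment of length `n` of the real `x` -/
def rs (x : ℕ → ℕ) (n : ℕ) : List ℕ := (List.range n).map x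

/-- the pairing of reals -/
def pr (x y : ℕ → ℕ) (n : ℕ) : ℕ := if n % 2 = 0 then x (n / 2) else y (n / 2)

/-- trees of finite sequences of natural numbers -/
def IsTree (T : Set (List ℕ)) : Prop := ∀ s t : List ℕ, s <+: t → t ∈ T → s ∈ T

/-- the boldface class `Π¹ₙ` of `N` -/
def PiC (N : Set ZFSet.{0}) : ℕ → Set (Set (ℕ → ℕ))
  | 0 => {X | ∃ T, IsTree T ∧ sz (Encodable.encode '' T) ∈ N ∧ X = {x | x ∈ Rl N ∧ ∀ n, rs x n ∈ T}}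
  | n + 1 => {X | ∃ Y ∈ PiC N n, X = {x | x ∈ Rl N ∧ ¬ ∃ y ∈ Rl N, pr x y ∈ Y}}

/-- the boldface class `Σ¹ₙ₊₁` of `N` -/
def SigmaC (N : Set ZFSet.{0}) (n : ℕ) : Set (Set (ℕ → ℕ)) :=
  {X | ∃ Y ∈ PiC N n, X = {x | x ∈ Rl N ∧ ∃ y ∈ Rl N, pr x y ∈ Y}}

/-- countable choice for the class `Γ` of sets of reals holds in `N` -/
def ACw (N : Set ZFSet.{0}) (Γ : Set (Set (ℕ → ℕ))) : Prop :=
  ∀ X : ℕ → Set (ℕ → ℕ), (∀ n, X n ∈ Γ) → (∀ n, (X n).Nonempty) →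
    seqZ (fun n => setZ (X n)) ∈ N →
    ∃ f : ℕ → ℕ → ℕ, (∀ n, f n ∈ X n) ∧ seqZ (fun n => rz (f n)) ∈ N

end Pool.Agent.CC
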