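import Mathlib
import Pool.Agent.Lib.MP_bf67b0_lc.Basics
import Pool.Agent.Lib.MP_bf67b0_lc.Stmt

/-!
Second part of the definitions: the final choice of the arithmetical relations, the reals of the
ground model and of the symmetric extension, codes of reals `Ev`, pairs of conditions, and the
clauses of a satisfaction class.
-/

set_option autoImplicit false

namespace Pool.Agent.CC

open Ordinal Set

/-! ### the arithmetical relations -/

/-- the arithmetical relations determined by a sequence of sets of natural numbers -/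
structure Ar (𝓕 : ℕ → Set ℕ) (A : ℕ → List ℕ → Prop) : Prop extends Arith A where
  join : ∀ l, A 10 l ↔ ∃ j c, l = [j, c] ∧ j ≠ 10 ∧ A j (Denumerable.ofNat (List ℕ) c)
  sig : ∀ l, A 11 l ↔ ∃ i, l = [i] ∧ 2 ≤ i ∧ fm i ∈ Sig
  fam : ∀ i l, A (12 + i) l ↔ ∃ n, l = [n] ∧ n ∈ 𝓕 i

/-- the sequence contains all graphs of primitive recursive functions -/
def PrimF (𝓕 : ℕ → Set ℕ) : Prop :=
  ∀ f : ℕ → ℕ, Nat.Primrec f → ∃ i, 𝓕 i = {n | ∃ x, n = Nat.pair x (f x)}

/-- the standing assumptions -/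
structure Ctx (𝓕 : ℕ → Set ℕ) (A : ℕ → List ℕ → Prop) (κ μ : Ordinal.{0}) : Prop where
  prim : PrimF 𝓕
  ar : Ar 𝓕 A
  good : Good A κ
  grd : Grd A κ μ

/-! ### reals -/

/-- the reals of the ground model -/
def R0 (A : ℕ → List ℕ → Prop) (κ : Ordinal.{0}) : Set (Set ℕ) := {S | ∃ x < κ, zR A x = S}

/-- the reals of the symmetric extension with a name of support at most `m` -/
def Rm (A : ℕ → List ℕ → Prop) (κ μ : Ordinal.{0}) (g : Set ℕ) (m : ℕ) : Set (Set ℕ) :=
  {S | ∃ y < κ, supp A y ≤ m ∧ val A μ y g = sz S}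

/-- the reals of the symmetric extension -/
def RR (A : ℕ → List ℕ → Prop) (κ μ : Ordinal.{0}) (g : Set ℕ) : Set (Set ℕ) :=
  {S | sz S ∈ NN A κ μ g}

/-- collections of sets of natural numbers closed under arithmetical comprehension -/
structure ACA (𝓡 : Set (Set ℕ)) : Prop where
  univ : Set.univ ∈ 𝓡
  zero : ({0} : Set ℕ) ∈ 𝓡
  compl : ∀ S ∈ 𝓡, Sᶜ ∈ 𝓡
  inter : ∀ S ∈ 𝓡, ∀ T ∈ 𝓡, S ∩ T ∈ 𝓡
  proj : ∀ S ∈ 𝓡, {a | ∃ b, Nat.pair a b ∈ S} ∈ 𝓡
  pre : ∀ S ∈ 𝓡, ∀ f : ℕ → ℕ, Nat.Primrec f → {a | f a ∈ S} ∈ 𝓡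

/-- the predicate `P` belongs to the collection `𝓡` -/
def AD (𝓡 : Set (Set ℕ)) {α : Type} [Primcodable α] (P : α → Prop) : Prop :=
  {n | ∃ a : α, Encodable.decode n = some a ∧ P a} ∈ 𝓡

/-- the graph of a real as a set of natural numbers -/
def gr (x : ℕ → ℕ) : Set ℕ := {c | ∃ n, c = Nat.pair n (x n)}

/-- the value of the code `X` at the generic real `g` -/
def Ev (X g : Set ℕ) : Set ℕ := {n | ∃ s, inC s g ∧ Nat.pair n s ∈ X}

/-- the code `X` uses only the first `m` columns of the generic real -/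
def Inv (m : ℕ) (X : Set ℕ) : Prop :=
  ∀ n p q, Nat.pair n p ∈ X → (cond p).length = (cond q).length →
    (∀ i, i.unpair.1 < m → bit p i = bit q i) → Nat.pair n q ∈ X

/-- the first `m` columns of `g` -/
def cut (m : ℕ) (g : Set ℕ) : Set ℕ := {i | i ∈ g ∧ i.unpair.1 < m}

/-- uniformly definable in all the symmetric extensions -/
def DfN (A : ℕ → List ℕ → Prop) (κ μ : Ordinal.{0})
    (P : {h : Set ℕ // Gen A κ h} → (ℕ → ZFSet.{0}) → Prop) : Prop :=
  Df (fun _ : {h : Set ℕ // Gen A κ h} => NI A κ) (fun h => NN A κ μ h.1) P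

/-- hereditarily of finite type over the natural numbers -/
def PN : ℕ → ZFSet.{0} → Prop
  | 0, y => ∃ k : ℕ, y = nz k
  | n + 1, y => ∀ x ∈ y, PN n x

/-- the sets of reals without a choice function -/
def AA (A : ℕ → List ℕ → Prop) (κ : Ordinal.{0}) (g : Set ℕ) (k : ℕ) : Set (ℕ → ℕ) :=
  {x | (∀ n, x n ≤ 1) ∧ ∃ w ∈ R0 A κ, ∀ n, x n = 1 ↔ Nat.pair k n ∈ symmDiff g w}

/-! ### pairs of conditions -/

/-- pairs of strings of equal length, equal on the first `m` columns, and vanishing beyond the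
first `m'` columns -/
def C2 (m m' : ℕ) (p : List Bool × List Bool) : Prop :=
  p.1.length = p.2.length ∧ ∀ i < p.1.length, (i.unpair.1 < m → p.1[i]? = p.2[i]?) ∧
    (m' ≤ i.unpair.1 → p.1[i]? = some false ∧ p.2[i]? = some false)

/-- `q` extends `p` -/
def le2 (q p : List Bool × List Bool) : Prop := p.1 <+: q.1 ∧ p.2 <+: q.2

/-- the string `s` is an initial segment of the real `g` -/
def Pre (s : List Bool) (g : Set ℕ) : Prop := ∀ i b, s[i]? = some b → (b = true ↔ i ∈ g)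

/-- the second real: equal to `g` on the first `m` columns, and to `z` (if `c` is false) or
`g + z` (if `c` is true) on the columns between `m` and `m'` -/
def op (m m' : ℕ) (c : Bool) (g z : Set ℕ) : Set ℕ :=
  {i | (i.unpair.1 < m ∧ i ∈ g) ∨
    (m ≤ i.unpair.1 ∧ i.unpair.1 < m' ∧ ((c = true ∧ i ∈ g) ↔ ¬ i ∈ z))}

/-- the filter determined by two reals -/
def Fil (m m' : ℕ) (g g' : Set ℕ) (p : List Bool × List Bool) : Prop :=
  C2 m m' p ∧ Pre p.1 g ∧ Pre p.2 g'

/-! ### satisfaction classes -/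

/-- codes of formulas -/
noncomputable def eF : Fm → ℕ := @Encodable.encode Fm (Encodable.ofCountable Fm)

/-- change of the value of a variable -/
def upd (a : List ℕ) (i b : ℕ) : List ℕ :=
  (List.range (max a.length (i + 1))).map (fun k => if k = i then b else a.getD k 0)

/-- the `e`-th element of the hull of the element `ξ` in the level `m` -/
noncomputable def hull (A : ℕ → List ℕ → Prop) (m ξ : Ordinal.{0}) (e : ℕ) : Ordinal.{0} :=
  sInf {η | η < m ∧ Sat (II A) (Set.Iio m) (vv η ξ) (fm e)}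

/-- the satisfaction class of the hull -/
def STrue (A : ℕ → List ℕ → Prop) (m ξ : Ordinal.{0}) (φ : Fm) (a : List ℕ) : Prop :=
  Sat (II A) (Set.Iio m) (fun k => hull A m ξ (a.getD k 0)) φ

/-- Skolem functions: `(i, φ, a) ↦` index of the least counterexample to `φ` -/
def IsWit (w : ℕ → Fm → List ℕ → ℕ) : Prop :=
  ∀ i φ a, ∀ (A : ℕ → List ℕ → Prop) (m ξ : Ordinal.{0}), ξ < m → ∀ η < m,
    (Sat (II A) (Set.Iio m) (vv η ξ) (fm (w i φ a)) ↔
      ¬ Sat (II A) (Set.Iio m) (Function.update (fun k => hull A m ξ (a.getD k 0)) i η) φ)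

/-- translation of the satisfaction class into sentences with the parameter `ξ` -/
def IsTra (J : Fm → List ℕ → ℕ) : Prop :=
  ∀ φ a, 2 ≤ J φ a ∧ ∀ (A : ℕ → List ℕ → Prop) (m ξ : Ordinal.{0}), ξ < m →
    (Sat (II A) (Set.Iio m) (vv 0 ξ) (fm (J φ a)) ↔ STrue A m ξ φ a)

/-- the clauses of a satisfaction class -/
structure Clauses (w : ℕ → Fm → List ℕ → ℕ) (A : ℕ → List ℕ → Prop) (S : Fm → List ℕ → Prop) :
    Prop where
  bot : ∀ a, ¬ S .bot a
  imp : ∀ φ ψ a, S (.imp φ ψ) a ↔ (S φ a → S ψ a)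
  all1 : ∀ i φ a b, S (.all i φ) a → S φ (upd a i b)
  all2 : ∀ i φ a, ¬ S (.all i φ) a → ¬ S φ (upd a i (w i φ a))
  sig : ∀ φ ∈ Sig, ∀ a, S φ a
  cong : ∀ φ a b, (∀ k < φ.bnd, S (.eq 0 1) [a.getD k 0, b.getD k 0]) → S φ a → S φ b
  eqc : ∀ i j a, S (.eq i j) a ↔ S (.eq 0 1) [a.getD i 0, a.getD j 0]
  relc : ∀ R xs a, S (.rel R xs) a ↔
    S (.rel R (List.range xs.length)) (xs.map (fun k => a.getD k 0))
  lit : ∀ j l a, l.length = a.length →
    (∀ i < l.length, S (.rel (.nat (l.getD i 0)) [0]) [a.getD i 0]) →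
      (S (.rel (.ar j) (List.range l.length)) a ↔ A j l)

/-- the formula `n ∈ v 0` -/
def inF (n : ℕ) : Fm := .ex 1 (.and (.nat n 1) (.E 1 0))

/-- the real `x` is the characteristic function of the real coded by the element `e` -/
def Link (S : Fm → List ℕ → Prop) (e : ℕ) (x : ℕ → ℕ) : Prop :=
  ∀ n, x n ≤ 1 ∧ (x n = 1 ↔ S (inF n) [e])

/-- the satisfaction class coded by a real -/
def SU (u : ℕ → ℕ) (φ : Fm) (a : List ℕ) : Prop := u (Nat.pair (eF φ) (Encodable.encode a)) = 1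

end Pool.Agent.CC
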