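import Mathlib
import Pool.Agent.Lib.MP_bf67b0_lc.Defs2

/-!
Closure properties of collections of sets of natural numbers closed under arithmetical
comprehension.
-/

set_option autoImplicit false

namespace Pool.Agent.CC

open Ordinal Set

section
variable {𝓡 : Set (Set ℕ)} (h𝓡 : ACA 𝓡)
include h𝓡
variable {α β γ : Type} [Primcodable α] [Primcodable β] [Primcodable γ]

omit h𝓡 in
theorem AD_nat {P : ℕ → Prop} : AD 𝓡 P ↔ {n | P n} ∈ 𝓡 := by
  have : {n | ∃ a : ℕ, Encodable.decode n = some a ∧ P a} = {n | P n} := by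
    ext n; simp
  unfold AD
  rw [this]

/-- the codes of elements -/
private theorem ACA.nat_prim {P : ℕ → Prop} (hP : PrimrecPred P) : {n | P n} ∈ 𝓡 := by
  classical
  have h1 : Primrec (fun n : ℕ => if P n then 0 else 1) :=
    Primrec.ite hP (Primrec.const 0) (Primrec.const 1)
  have h2 := h𝓡.pre {0} h𝓡.zero _ (Primrec.nat_iff.1 h1)
  have h3 : {a | (fun n : ℕ => if P n then 0 else 1) a ∈ ({0} : Set ℕ)} = {n | P n} := by
    ext n
    by_cases h : P n <;> simp [h]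
  rwa [h3] at h2

private theorem ACA.dom (α : Type) [Primcodable α] :
    {n : ℕ | ∃ a : α, Encodable.decode n = some a} ∈ 𝓡 := by
  have h1 : PrimrecPred (fun n : ℕ => (Encodable.decode n : Option α).isSome = true) := by
    have : PrimrecPred (fun n : ℕ => ¬ (Encodable.decode n : Option α) = none) :=
      PrimrecPred.not (PrimrecRel.comp Primrec.eq Primrec.decode (Primrec.const none))
    refine this.of_eq (fun n => ?_)
    cases (Encodable.decode n : Option α) <;> simp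
  have h2 := ACA.nat_prim h𝓡 h1
  have h3 : {n : ℕ | (Encodable.decode n : Option α).isSome = true} =
      {n : ℕ | ∃ a : α, Encodable.decode n = some a} := by
    ext n
    simp [Option.isSome_iff_exists]
  rwa [h3] at h2

theorem AD.not {P : α → Prop} (hP : AD 𝓡 P) : AD 𝓡 (fun a => ¬ P a) := by
  have h := h𝓡.inter _ (ACA.dom h𝓡 α) _ (h𝓡.compl _ hP)
  have h3 : {n : ℕ | ∃ a : α, Encodable.decode n = some a} ∩
      {n | ∃ a : α, Encodable.decode n = some a ∧ P a}ᶜ =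
      {n | ∃ a : α, Encodable.decode n = some a ∧ ¬ P a} := by
    ext n
    constructor
    · rintro ⟨⟨a, ha⟩, h2⟩
      exact ⟨a, ha, fun h => h2 ⟨a, ha, h⟩⟩
    · rintro ⟨a, ha, h⟩
      refine ⟨⟨a, ha⟩, ?_⟩
      rintro ⟨b, hb, h'⟩
      rw [ha] at hb
      cases hb
      exact h h'
  unfold AD
  rwa [h3] at h

theorem AD.and {P Q : α → Prop} (hP : AD 𝓡 P) (hQ : AD 𝓡 Q) : AD 𝓡 (fun a => P a ∧ Q a) := by
  have h := h𝓡.inter _ hP _ hQ
  have h3 : {n | ∃ a : α, Encodable.decode n = some a ∧ P a} ∩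
      {n | ∃ a : α, Encodable.decode n = some a ∧ Q a} =
      {n | ∃ a : α, Encodable.decode n = some a ∧ P a ∧ Q a} := by
    ext n
    constructor
    · rintro ⟨⟨a, ha, h1⟩, ⟨b, hb, h2⟩⟩
      rw [ha] at hb
      cases hb
      exact ⟨a, ha, h1, h2⟩
    · rintro ⟨a, ha, h1, h2⟩
      exact ⟨⟨a, ha, h1⟩, ⟨a, ha, h2⟩⟩
  unfold AD
  rwa [h3] at h

theorem AD.or {P Q : α → Prop} (hP : AD 𝓡 P) (hQ : AD 𝓡 Q) : AD 𝓡 (fun a => P a ∨ Q a) := by
  have h := AD.not h𝓡 (AD.and h𝓡 (AD.not h𝓡 hP) (AD.not h𝓡 hQ))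
  refine (congrArg (fun R : α → Prop => AD 𝓡 R) ?_).mp h
  funext a
  simp only [eq_iff_iff]
  tauto

theorem AD.imp {P Q : α → Prop} (hP : AD 𝓡 P) (hQ : AD 𝓡 Q) : AD 𝓡 (fun a => P a → Q a) := by
  have h := AD.or h𝓡 (AD.not h𝓡 hP) hQ
  refine (congrArg (fun R : α → Prop => AD 𝓡 R) ?_).mp h
  funext a
  simp only [eq_iff_iff]
  tauto

theorem AD.iff {P Q : α → Prop} (hP : AD 𝓡 P) (hQ : AD 𝓡 Q) :
    AD 𝓡 (fun a => (P a ↔ Q a)) := by
  have h := AD.and h𝓡 (AD.imp h𝓡 hP hQ) (AD.imp h𝓡 hQ hP)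
  refine (congrArg (fun R : α → Prop => AD 𝓡 R) ?_).mp h
  funext a
  simp only [eq_iff_iff]
  tauto

theorem AD.comp {P : β → Prop} (hP : AD 𝓡 P) {f : α → β} (hf : Primrec f) :
    AD 𝓡 (fun a => P (f a)) := by
  have h1 : Primrec (fun n : ℕ => (Encodable.decode n : Option α).elim 0
      (fun a => Encodable.encode (f a))) :=
    Primrec.option_casesOn (o := fun n : ℕ => (Encodable.decode n : Option α))
      (f := fun _ => 0) (g := fun _ a => Encodable.encode (f a))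
      Primrec.decode (Primrec.const 0) ((Primrec.encode.comp (hf.comp Primrec.snd)).to₂) |>.of_eq
      (fun n => by cases (Encodable.decode n : Option α) <;> rfl)
  have h2 := h𝓡.inter _ (ACA.dom h𝓡 α) _ (h𝓡.pre _ hP _ (Primrec.nat_iff.1 h1))
  refine (congrArg (fun S : Set ℕ => S ∈ 𝓡) ?_).mp h2
  ext n
  constructor
  · rintro ⟨⟨a, ha⟩, h3⟩
    obtain ⟨b, hb, h4⟩ := h3
    rw [ha] at hb
    simp only [Option.elim, Encodable.encodek, Option.some.injEq] at hb
    refine ⟨a, ha, ?_⟩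
    show P (f a)
    rw [hb]
    exact h4
  · rintro ⟨a, ha, h3⟩
    refine ⟨⟨a, ha⟩, ⟨f a, ?_, h3⟩⟩
    rw [ha]
    simp

theorem AD.of_prim {P : α → Prop} (hP : PrimrecPred P) : AD 𝓡 P := by
  classical
  have h1 : AD 𝓡 (fun n : ℕ => n = 0) := by
    rw [AD_nat]
    exact h𝓡.zero
  have h2 : Primrec (fun a : α => if P a then 0 else 1) :=
    Primrec.ite hP (Primrec.const 0) (Primrec.const 1)
  have h := AD.comp h𝓡 h1 h2
  refine (congrArg (fun R : α → Prop => AD 𝓡 R) ?_).mp h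
  funext a
  by_cases h : P a <;> simp [h]

theorem AD.const (P : Prop) : AD 𝓡 (fun _ : α => P) := by
  classical
  refine AD.of_prim h𝓡 ?_
  by_cases h : P
  · refine PrimrecPred.of_eq (p := fun _ : α => (0 : ℕ) = 0)
      (PrimrecRel.comp Primrec.eq (Primrec.const 0) (Primrec.const 0)) (fun a => by simp [h])
  · refine PrimrecPred.of_eq (p := fun _ : α => (0 : ℕ) = 1)
      (PrimrecRel.comp Primrec.eq (Primrec.const 0) (Primrec.const 1)) (fun a => by simp [h])

theorem AD.ex {P : α → β → Prop} (hP : AD 𝓡 (fun x : α × β => P x.1 x.2)) :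
    AD 𝓡 (fun a => ∃ b, P a b) := by
  have h := h𝓡.proj _ hP
  refine (congrArg (fun S : Set ℕ => S ∈ 𝓡) ?_).mp h
  ext n
  constructor
  · rintro ⟨m, ⟨a, b⟩, h1, h2⟩
    rw [Encodable.decode_prod_val, Nat.unpair_pair] at h1
    simp only [Option.bind_eq_some_iff, Option.map_eq_some_iff, Prod.mk.injEq] at h1
    obtain ⟨a', h3, b', h4, h5, h6⟩ := h1
    subst h5 h6
    exact ⟨a', h3, b', h2⟩
  · rintro ⟨a, h1, b, h2⟩
    refine ⟨Encodable.encode b, (a, b), ?_, h2⟩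
    rw [Encodable.decode_prod_val, Nat.unpair_pair]
    simp [h1]

theorem AD.all {P : α → β → Prop} (hP : AD 𝓡 (fun x : α × β => P x.1 x.2)) :
    AD 𝓡 (fun a => ∀ b, P a b) := by
  have h := AD.not h𝓡 (AD.ex h𝓡 (P := fun a b => ¬ P a b) (AD.not h𝓡 hP))
  refine (congrArg (fun R : α → Prop => AD 𝓡 R) ?_).mp h
  funext a
  simp

/-- composition with functions whose graph belongs to the collection -/
theorem AD.compfn {P : α → β → Prop} (hP : AD 𝓡 (fun x : α × β => P x.1 x.2)) {f : α → β}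
    (hf : AD 𝓡 (fun x : α × β => f x.1 = x.2)) : AD 𝓡 (fun a => P a (f a)) := by
  have h := AD.ex h𝓡 (P := fun a b => f a = b ∧ P a b) (AD.and h𝓡 hf hP)
  refine (congrArg (fun R : α → Prop => AD 𝓡 R) ?_).mp h
  funext a
  simp

/-- recursion: the graph of the function defined by recursion belongs to the collection -/
theorem AD.natRec {G : ℕ → β → β} (hG : AD 𝓡 (fun x : (ℕ × β) × β => G x.1.1 x.1.2 = x.2)) (b : β) :
    AD 𝓡 (fun x : ℕ × β => (Nat.rec b (fun n y => G n y) x.1 : β) = x.2) := by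
  -- the successor condition
  have e1 : AD 𝓡 (fun x : ((List β × ℕ) × β) × β =>
      x.1.1.1[x.1.1.2]? = some x.1.2 ∧ x.1.1.1[x.1.1.2 + 1]? = some x.2 ∧
        G x.1.1.2 x.1.2 = x.2) := by
    have p1 : Primrec (fun x : ((List β × ℕ) × β) × β => x.1.1.1) :=
      Primrec.fst.comp (Primrec.fst.comp Primrec.fst)
    have p2 : Primrec (fun x : ((List β × ℕ) × β) × β => x.1.1.2) :=
      Primrec.snd.comp (Primrec.fst.comp Primrec.fst)
    have p3 : Primrec (fun x : ((List β × ℕ) × β) × β => x.1.2) :=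
      Primrec.snd.comp Primrec.fst
    have p4 : Primrec (fun x : ((List β × ℕ) × β) × β => x.2) := Primrec.snd
    refine AD.and h𝓡 (AD.of_prim h𝓡 ?_) (AD.and h𝓡 (AD.of_prim h𝓡 ?_) ?_)
    · exact PrimrecRel.comp Primrec.eq (Primrec.list_getElem?.comp p1 p2)
        (Primrec.option_some.comp p3)
    · exact PrimrecRel.comp Primrec.eq (Primrec.list_getElem?.comp p1 (Primrec.succ.comp p2))
        (Primrec.option_some.comp p4)
    · exact AD.comp h𝓡 hG (f := fun x : ((List β × ℕ) × β) × β => ((x.1.1.2, x.1.2), x.2))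
        ((p2.pair p3).pair p4)
  have e2 : AD 𝓡 (fun x : List β × ℕ => ∃ y z : β,
      x.1[x.2]? = some y ∧ x.1[x.2 + 1]? = some z ∧ G x.2 y = z) :=
    AD.ex h𝓡 (P := fun (x : List β × ℕ) (y : β) => ∃ z : β,
      x.1[x.2]? = some y ∧ x.1[x.2 + 1]? = some z ∧ G x.2 y = z)
      (AD.ex h𝓡 (P := fun (x : (List β × ℕ) × β) (z : β) =>
        x.1.1[x.1.2]? = some x.2 ∧ x.1.1[x.1.2 + 1]? = some z ∧ G x.1.2 x.2 = z) e1)
  have e3 : AD 𝓡 (fun x : List β × ℕ => ∀ i : ℕ, i < x.2 → ∃ y z : β,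
      x.1[i]? = some y ∧ x.1[i + 1]? = some z ∧ G i y = z) := by
    refine AD.all h𝓡 (P := fun (x : List β × ℕ) (i : ℕ) => i < x.2 → ∃ y z : β,
      x.1[i]? = some y ∧ x.1[i + 1]? = some z ∧ G i y = z) ?_
    refine AD.imp h𝓡 (AD.of_prim h𝓡 ?_) ?_
    · exact PrimrecRel.comp Primrec.nat_lt Primrec.snd (Primrec.snd.comp Primrec.fst)
    · exact AD.comp h𝓡 e2 (f := fun x : (List β × ℕ) × ℕ => (x.1.1, x.2))
        ((Primrec.fst.comp Primrec.fst).pair Primrec.snd)
  have e4 : AD 𝓡 (fun x : (ℕ × β) × List β => x.2[0]? = some b ∧ x.2[x.1.1]? = some x.1.2 ∧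
      ∀ i : ℕ, i < x.1.1 → ∃ y z : β,
      x.2[i]? = some y ∧ x.2[i + 1]? = some z ∧ G i y = z) := by
    have p1 : Primrec (fun x : (ℕ × β) × List β => x.1.1) := Primrec.fst.comp Primrec.fst
    have p2 : Primrec (fun x : (ℕ × β) × List β => x.1.2) := Primrec.snd.comp Primrec.fst
    have p3 : Primrec (fun x : (ℕ × β) × List β => x.2) := Primrec.snd
    refine AD.and h𝓡 (AD.of_prim h𝓡 ?_) (AD.and h𝓡 (AD.of_prim h𝓡 ?_) ?_)
    · exact PrimrecRel.comp Primrec.eq (Primrec.list_getElem?.comp p3 (Primrec.const 0))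
        (Primrec.const (some b))
    · exact PrimrecRel.comp Primrec.eq (Primrec.list_getElem?.comp p3 p1)
        (Primrec.option_some.comp p2)
    · exact AD.comp h𝓡 e3 (f := fun x : (ℕ × β) × List β => (x.2, x.1.1)) (p3.pair p1)
  have e5 := AD.ex h𝓡 (P := fun (x : ℕ × β) (l : List β) => l[0]? = some b ∧ l[x.1]? = some x.2 ∧
      ∀ i : ℕ, i < x.1 → ∃ y z : β,
      l[i]? = some y ∧ l[i + 1]? = some z ∧ G i y = z) e4
  refine (congrArg (fun R : ℕ × β → Prop => AD 𝓡 R) ?_).mp e5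
  funext x
  obtain ⟨n, x⟩ := x
  simp only [eq_iff_iff]
  constructor
  · rintro ⟨l, h0, h1, h2⟩
    have h3 : ∀ i : ℕ, i ≤ n → l[i]? = some (Nat.rec b (fun n y => G n y) i : β) := by
      intro i
      induction i with
      | zero => intro _; exact h0
      | succ i ih =>
        intro hi
        obtain ⟨y, z, hy, hz, hG'⟩ := h2 i hi
        rw [ih (by omega)] at hy
        simp only [Option.some.injEq] at hy
        subst hy
        rw [hz, ← hG']
    have h4 := h3 n le_rfl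
    rw [h1] at h4
    exact (Option.some.inj h4).symm
  · intro h
    refine ⟨(List.range (n + 1)).map (fun i => (Nat.rec b (fun n y => G n y) i : β)), ?_, ?_, ?_⟩
    · simp
    · simp [h]
    · intro i hi
      refine ⟨(Nat.rec b (fun n y => G n y) i : β), _, ?_, ?_, rfl⟩
      · simp only [List.getElem?_map, List.getElem?_range (show i < n + 1 by omega), Option.map_some]
      · simp only [List.getElem?_map, List.getElem?_range (show i + 1 < n + 1 by omega),
          Option.map_some]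

/-- choice of least witnesses -/
theorem AD.choose {P : α → ℕ → Prop} (hP : AD 𝓡 (fun x : α × ℕ => P x.1 x.2))
    (h : ∀ a, ∃ n, P a n) : ∃ f : α → ℕ, (∀ a, P a (f a)) ∧
      AD 𝓡 (fun x : α × ℕ => f x.1 = x.2) := by
  classical
  refine ⟨fun a => Nat.find (h a), fun a => Nat.find_spec (h a), ?_⟩
  have e1 : AD 𝓡 (fun x : α × ℕ => ∀ m : ℕ, m < x.2 → ¬ P x.1 m) := by
    refine AD.all h𝓡 (P := fun (x : α × ℕ) (m : ℕ) => m < x.2 → ¬ P x.1 m) ?_
    refine AD.imp h𝓡 (AD.of_prim h𝓡 ?_) (AD.not h𝓡 ?_)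
    · exact PrimrecRel.comp Primrec.nat_lt Primrec.snd (Primrec.snd.comp Primrec.fst)
    · exact AD.comp h𝓡 hP (f := fun x : (α × ℕ) × ℕ => (x.1.1, x.2))
        ((Primrec.fst.comp Primrec.fst).pair Primrec.snd)
  have e2 := AD.and h𝓡 hP e1
  refine (congrArg (fun R : α × ℕ → Prop => AD 𝓡 R) ?_).mp e2
  funext x
  obtain ⟨a, n⟩ := x
  simp only [eq_iff_iff]
  rw [Nat.find_eq_iff]

theorem AD.choose' [Inhabited β] {P : α → β → Prop} (hP : AD 𝓡 (fun x : α × β => P x.1 x.2))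
    (h : ∀ a, ∃ b, P a b) : ∃ f : α → β, (∀ a, P a (f a)) ∧
      AD 𝓡 (fun x : α × β => f x.1 = x.2) := by
  classical
  have e1 : AD 𝓡 (fun x : α × ℕ => ∃ b : β, Encodable.encode b = x.2 ∧ P x.1 b) := by
    refine AD.ex h𝓡 (P := fun (x : α × ℕ) (b : β) => Encodable.encode b = x.2 ∧ P x.1 b) ?_
    refine AD.and h𝓡 (AD.of_prim h𝓡 ?_) ?_
    · exact PrimrecRel.comp Primrec.eq (Primrec.encode.comp Primrec.snd)
        (Primrec.snd.comp Primrec.fst)
    · exact AD.comp h𝓡 hP (f := fun x : (α × ℕ) × β => (x.1.1, x.2))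
        ((Primrec.fst.comp Primrec.fst).pair Primrec.snd)
  obtain ⟨g, hg1, hg2⟩ := AD.choose h𝓡
    (P := fun (a : α) (n : ℕ) => ∃ b : β, Encodable.encode b = n ∧ P a b) e1
    (fun a => by obtain ⟨b, hb⟩ := h a; exact ⟨_, b, rfl, hb⟩)
  choose f hf1 hf2 using hg1
  refine ⟨f, hf2, ?_⟩
  have e2 := AD.comp h𝓡 hg2 (f := fun x : α × β => (x.1, Encodable.encode x.2))
    (Primrec.fst.pair (Primrec.encode.comp Primrec.snd))
  refine (congrArg (fun R : α × β → Prop => AD 𝓡 R) ?_).mp e2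
  funext x
  obtain ⟨a, b⟩ := x
  simp only [eq_iff_iff]
  rw [← hf1 a]
  exact Encodable.encode_inj

/-- a function built by least choices along its initial segments -/
theorem AD.path {P : List ℕ → Prop} (hP : AD 𝓡 P) (h0 : P [])
    (hs : ∀ s, P s → ∃ i, P (s ++ [i])) : ∃ f : ℕ → ℕ, gr f ∈ 𝓡 ∧ ∀ n, P (rs f n) := by
  have papp : Primrec (fun x : List ℕ × ℕ => x.1 ++ [x.2]) :=
    Primrec.list_append.comp Primrec.fst
      (Primrec.list_cons.comp Primrec.snd (Primrec.const []))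
  have e1 : AD 𝓡 (fun x : List ℕ × ℕ => P x.1 → P (x.1 ++ [x.2])) :=
    AD.imp h𝓡 (AD.comp h𝓡 hP Primrec.fst) (AD.comp h𝓡 hP papp)
  obtain ⟨c, hc1, hc2⟩ := AD.choose h𝓡 (P := fun (s : List ℕ) (i : ℕ) => P s → P (s ++ [i])) e1
    (fun s => by
      by_cases h : P s
      · obtain ⟨i, hi⟩ := hs s h
        exact ⟨i, fun _ => hi⟩
      · exact ⟨0, fun h' => absurd h' h⟩)
  have e2 : AD 𝓡 (fun x : (ℕ × List ℕ) × List ℕ => x.1.2 ++ [c x.1.2] = x.2) := by
    have e3 : AD 𝓡 (fun x : ((ℕ × List ℕ) × List ℕ) × ℕ => c x.1.1.2 = x.2 ∧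
        x.1.1.2 ++ [x.2] = x.1.2) := by
      refine AD.and h𝓡 ?_ (AD.of_prim h𝓡 ?_)
      · exact AD.comp h𝓡 hc2 (f := fun x : ((ℕ × List ℕ) × List ℕ) × ℕ => (x.1.1.2, x.2))
          ((Primrec.snd.comp (Primrec.fst.comp Primrec.fst)).pair Primrec.snd)
      · exact PrimrecRel.comp Primrec.eq
          (papp.comp ((Primrec.snd.comp (Primrec.fst.comp Primrec.fst)).pair Primrec.snd))
          (Primrec.snd.comp Primrec.fst)
    have e4 := AD.ex h𝓡 (P := fun (x : (ℕ × List ℕ) × List ℕ) (i : ℕ) => c x.1.2 = i ∧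
        x.1.2 ++ [i] = x.2) e3
    refine (congrArg (fun R : (ℕ × List ℕ) × List ℕ → Prop => AD 𝓡 R) ?_).mp e4
    funext x
    simp
  have e5 := AD.natRec h𝓡 (G := fun (_ : ℕ) (s : List ℕ) => s ++ [c s]) e2 []
  set S : ℕ → List ℕ := fun n => (Nat.rec [] (fun _ s => s ++ [c s]) n : List ℕ) with hS
  have hSs : ∀ n, S (n + 1) = S n ++ [c (S n)] := fun n => rfl
  have hrs : ∀ n, rs (fun n => c (S n)) n = S n := by
    intro n
    induction n with
    | zero => rfl
    | succ n ih =>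
      rw [hSs]
      unfold rs at ih ⊢
      rw [List.range_succ, List.map_append, ih]
      rfl
  have hPS : ∀ n, P (S n) := by
    intro n
    induction n with
    | zero => exact h0
    | succ n ih => rw [hSs]; exact hc1 _ ih
  refine ⟨fun n => c (S n), ?_, fun n => by rw [hrs]; exact hPS n⟩
  have e6 : AD 𝓡 (fun x : (ℕ × ℕ) × List ℕ => S x.1.1 = x.2 ∧ c x.2 = x.1.2) := by
    refine AD.and h𝓡 ?_ ?_
    · exact AD.comp h𝓡 e5 (f := fun x : (ℕ × ℕ) × List ℕ => (x.1.1, x.2))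
        ((Primrec.fst.comp Primrec.fst).pair Primrec.snd)
    · exact AD.comp h𝓡 hc2 (f := fun x : (ℕ × ℕ) × List ℕ => (x.2, x.1.2))
        (Primrec.snd.pair (Primrec.snd.comp Primrec.fst))
  have e7 := AD.ex h𝓡 (P := fun (x : ℕ × ℕ) (s : List ℕ) => S x.1 = s ∧ c s = x.2) e6
  refine (congrArg (fun R : Set ℕ => R ∈ 𝓡) ?_).mp e7
  ext n
  constructor
  · rintro ⟨⟨a, b⟩, h1, s, h2, h3⟩
    rw [Encodable.decode_prod_val] at h1
    simp only [Encodable.decode_nat, Option.bind_some, Option.map_some, Option.some.injEq,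
      Prod.mk.injEq] at h1
    refine ⟨a, ?_⟩
    simp only at h2 h3
    show n = Nat.pair a (c (S a))
    rw [h2, h3, ← h1.1, ← h1.2, Nat.pair_unpair]
  · rintro ⟨a, ha⟩
    refine ⟨(a, c (S a)), ?_, S a, rfl, rfl⟩
    rw [Encodable.decode_prod_val, ha, Nat.unpair_pair]
    simp
end

end Pool.Agent.CC
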