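import Pool.Agent.Lib.MP_bf67b0_lc.Defs

set_option autoImplicit false

namespace Pool.Agent.CC

open Ordinal Set

theorem add_one_le_iff' {a b : Ordinal.{0}} : a + 1 ≤ b + 1 ↔ a ≤ b :=
  ⟨fun h => Order.lt_add_one_iff.1 (lt_of_lt_of_le (Order.lt_add_one_iff.2 le_rfl) h),
    fun h => Order.add_one_le_of_lt (Order.lt_add_one_iff.2 h)⟩

theorem add_one_lt_iff' {a b : Ordinal.{0}} : a + 1 < b + 1 ↔ a < b := by
  rw [← not_le, ← not_le, add_one_le_iff']

/-! ### the function `tri` -/

theorem tri_bdd (l : Ordinal.{0}) : BddAbove (Set.range fun m : Set.Iio l => tri m.1 + m.1) :=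
  Ordinal.bddAbove_of_small

theorem tri_add_le {m l : Ordinal.{0}} (h : m < l) : tri m + m ≤ tri l := by
  rw [tri.eq_1 l]
  exact le_ciSup (tri_bdd l) (⟨m, h⟩ : Set.Iio l)

theorem tri_mono {m l : Ordinal.{0}} (h : m ≤ l) : tri m ≤ tri l := by
  rcases h.eq_or_lt with rfl | h
  · exact le_refl _
  · exact (le_self_add).trans (tri_add_le h)

theorem tri_le {l a : Ordinal.{0}} (h : ∀ m < l, tri m + m ≤ a) : tri l ≤ a := by
  rw [tri.eq_1 l]
  exact ciSup_le' fun m => h m.1 m.2

theorem tri_zero : tri 0 = 0 := by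
  apply le_antisymm (tri_le fun m hm => (not_lt_zero hm).elim) (zero_le)

theorem tri_succ (l : Ordinal.{0}) : tri (l + 1) = tri l + l := by
  apply le_antisymm
  · apply tri_le
    intro m hm
    rcases (Order.lt_add_one_iff.1 hm).eq_or_lt with rfl | h
    · exact le_refl _
    · exact (tri_add_le h).trans le_self_add
  · exact tri_add_le (Order.lt_add_one_iff.2 le_rfl)

theorem tri_one : tri 1 = 0 := by
  have := tri_succ 0
  simpa [tri_zero] using this

theorem tri_two : tri 2 = 1 := by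
  have := tri_succ 1
  rw [tri_one, zero_add, one_add_one_eq_two] at this
  exact this

theorem le_tri {l : Ordinal.{0}} (h : 3 ≤ l) : l ≤ tri l := by
  induction l using WellFoundedLT.induction with
  | ind l ih =>
  by_contra hlt
  rw [not_le] at hlt
  -- m = tri l < l
  have key : ∀ m < l, m < tri l := by
    intro m hm
    rcases (Order.add_one_le_of_lt hm).eq_or_lt with h1 | h1
    · -- l = m + 1
      rw [← h1, tri_succ]
      have hm2 : 2 ≤ m := by
        have : (2 : Ordinal.{0}) + 1 ≤ m + 1 := by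
          rw [h1]; convert h using 1; norm_num
        exact (add_one_le_iff'.1 this)
      rcases hm2.eq_or_lt with h2 | h2
      · rw [← h2, tri_two]
        have : (1 : Ordinal.{0}) + 2 = ((3 : ℕ) : Ordinal.{0}) := by norm_num
        rw [this]
        exact_mod_cast (by norm_num : (2 : ℕ) < 3)
      · have hm3 : 3 ≤ m := by
          have := Order.add_one_le_of_lt h2
          convert this using 1; norm_num
        have h3 := ih m hm hm3
        have hm0 : 0 < m := lt_of_lt_of_le (by exact_mod_cast (by norm_num : (0 : ℕ) < 3)) hm3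
        calc m = m + 0 := (add_zero _).symm
          _ < m + m := by gcongr
          _ ≤ tri m + m := by gcongr
    · exact lt_of_lt_of_le (Order.lt_add_one_iff.2 le_rfl)
        ((le_add_self).trans (tri_add_le h1))
  exact lt_irrefl _ (key _ hlt)

theorem tri_add_lt_iff {l s l' s' : Ordinal.{0}} (h : s < l) (h' : s' < l') :
    tri l + s < tri l' + s' ↔ l < l' ∨ (l = l' ∧ s < s') := by
  have key : ∀ {l s l' s' : Ordinal.{0}}, s < l → l < l' → tri l + s < tri l' + s' := by
    intro l s l' s' h hl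
    calc tri l + s < tri l + l := by gcongr
      _ ≤ tri l' := tri_add_le hl
      _ ≤ tri l' + s' := le_self_add
  constructor
  · intro hlt
    rcases lt_trichotomy l l' with h1 | h1 | h1
    · exact Or.inl h1
    · subst h1
      exact Or.inr ⟨rfl, lt_of_add_lt_add_left hlt⟩
    · exact absurd hlt (not_lt.2 (key h' h1).le)
  · rintro (h1 | ⟨rfl, h1⟩)
    · exact key h h1
    · gcongr

theorem omega_mul_add_lt_iff {y y' : Ordinal.{0}} {i i' : ℕ} :
    ω * y + i < ω * y' + i' ↔ y < y' ∨ (y = y' ∧ i < i') := by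
  have key : ∀ {y y' : Ordinal.{0}} {i i' : ℕ}, y < y' → ω * y + i < ω * y' + i' := by
    intro y y' i i' hy
    calc ω * y + i < ω * y + ω := by gcongr; exact natCast_lt_omega0 i
      _ = ω * (y + 1) := by rw [mul_add_one]
      _ ≤ ω * y' := by gcongr; exact Order.add_one_le_of_lt hy
      _ ≤ ω * y' + i' := le_self_add
  constructor
  · intro hlt
    rcases lt_trichotomy y y' with h1 | h1 | h1
    · exact Or.inl h1
    · subst h1
      refine Or.inr ⟨rfl, ?_⟩
      exact_mod_cast lt_of_add_lt_add_left hlt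
    · exact absurd hlt (not_lt.2 (key h1).le)
  · rintro (h1 | ⟨rfl, h1⟩)
    · exact key h1
    · gcongr

/-! ### codes of triples -/

theorem code_lt_iff {l s l' s' : Ordinal.{0}} {i i' : ℕ} (h : s < l) (h' : s' < l') :
    code l s i < code l' s' i' ↔ l < l' ∨ (l = l' ∧ (s < s' ∨ (s = s' ∧ i < i'))) := by
  have hne : tri l + s = tri l' + s' ↔ l = l' ∧ s = s' := by
    constructor
    · intro he
      have h1 := mt (tri_add_lt_iff h h').2 (by rw [he]; exact lt_irrefl _)
      have h2 := mt (tri_add_lt_iff h' h).2 (by rw [he]; exact lt_irrefl _)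
      rw [not_or] at h1 h2
      have hl : l = l' := le_antisymm (not_lt.1 h2.1) (not_lt.1 h1.1)
      refine ⟨hl, le_antisymm ?_ ?_⟩
      · exact not_lt.1 fun hs => h2.2 ⟨hl.symm, hs⟩
      · exact not_lt.1 fun hs => h1.2 ⟨hl, hs⟩
    · rintro ⟨rfl, rfl⟩; rfl
  unfold code
  rw [omega_mul_add_lt_iff, tri_add_lt_iff h h', hne]
  tauto

theorem code_inj {l s l' s' : Ordinal.{0}} {i i' : ℕ} (h : s < l) (h' : s' < l') :
    code l s i = code l' s' i' ↔ l = l' ∧ s = s' ∧ i = i' := by
  constructor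
  · intro he
    have h1 := mt (code_lt_iff h h').2 (by rw [he]; exact lt_irrefl _)
    have h2 := mt (code_lt_iff h' h).2 (by rw [he]; exact lt_irrefl _)
    rcases lt_trichotomy l l' with hl | hl | hl
    · exact absurd (Or.inl hl) h1
    · rcases lt_trichotomy s s' with hs | hs | hs
      · exact absurd (Or.inr ⟨hl, Or.inl hs⟩) h1
      · rcases lt_trichotomy i i' with hi | hi | hi
        · exact absurd (Or.inr ⟨hl, Or.inr ⟨hs, hi⟩⟩) h1
        · exact ⟨hl, hs, hi⟩
        · exact absurd (Or.inr ⟨hl.symm, Or.inr ⟨hs.symm, hi⟩⟩) h2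
      · exact absurd (Or.inr ⟨hl.symm, Or.inl hs⟩) h2
    · exact absurd (Or.inl hl) h2
  · rintro ⟨rfl, rfl, rfl⟩; rfl

theorem exists_code (x : Ordinal.{0}) : ∃ l s i, s < l ∧ x = code l s i := by
  obtain ⟨i, hi⟩ := lt_omega0.1 (mod_lt x omega0_ne_zero)
  obtain ⟨l, s, hs, hy⟩ : ∃ l s, s < l ∧ x / ω = tri l + s := by
    set y := x / ω
    have hne : ∃ l, y < tri l := ⟨y + 1 + 1, by
      rw [tri_succ]
      exact lt_of_lt_of_le (Order.lt_add_one_iff.2 le_rfl) le_add_self⟩
    classical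
    set m := sInf {l | y < tri l} with hm
    have hmem : y < tri m := csInf_mem (s := {l | y < tri l}) hne
    have hmin : ∀ k < m, tri k ≤ y := fun k hk =>
      not_lt.1 (notMem_of_lt_csInf' (s := {l | y < tri l}) hk)
    obtain ⟨k, hk, hk2⟩ : ∃ k < m, y < tri k + k := by
      by_contra hcon
      push Not at hcon
      exact absurd hmem (not_lt.2 (tri_le hcon))
    refine ⟨k, y - tri k, ?_, (Ordinal.add_sub_cancel_of_le (hmin k hk)).symm⟩
    have : tri k + (y - tri k) < tri k + k := by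
      rwa [Ordinal.add_sub_cancel_of_le (hmin k hk)]
    exact lt_of_add_lt_add_left this
  refine ⟨l, s, i, hs, ?_⟩
  unfold code
  rw [← hy, ← hi, div_add_mod]

theorem dcd_spec (x : Ordinal.{0}) :
    (dcd x).2.1 < (dcd x).1 ∧ x = code (dcd x).1 (dcd x).2.1 (dcd x).2.2 := by
  obtain ⟨l, s, i, h1, h2⟩ := exists_code x
  have h : ∃ t : Ordinal.{0} × Ordinal.{0} × ℕ, t.2.1 < t.1 ∧ x = code t.1 t.2.1 t.2.2 :=
    ⟨(l, s, i), h1, h2⟩
  unfold dcd
  rw [dif_pos h]
  exact Classical.choose_spec h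

theorem dcd_code {l s : Ordinal.{0}} (h : s < l) (i : ℕ) : dcd (code l s i) = (l, s, i) := by
  obtain ⟨h1, h2⟩ := dcd_spec (code l s i)
  obtain ⟨a, b, c⟩ := (code_inj h h1).1 h2
  exact Prod.ext a.symm (Prod.ext b.symm c.symm)

theorem code_one (i : ℕ) : code 1 0 i = i := by
  simp [code, tri_one]

theorem one_le_tri {l : Ordinal.{0}} (h : 2 ≤ l) : 1 ≤ tri l := by
  rw [← tri_two]; exact tri_mono h

theorem om_le_code {l s : Ordinal.{0}} (h : 2 ≤ l) (hs : s < l) (i : ℕ) : ω ≤ code l s i := by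
  have _ := hs
  unfold code
  calc ω = ω * 1 := (mul_one _).symm
    _ ≤ ω * (tri l + s) := by
      gcongr
      exact (one_le_tri h).trans le_self_add
    _ ≤ _ := le_self_add

theorem le_code {l s : Ordinal.{0}} (h : s < l) (i : ℕ) (hi : l = 1 → i ≠ 0) :
    l ≤ code l s i := by
  have hpos : 0 < l := lt_of_le_of_lt zero_le h
  rcases (Order.one_le_iff_pos.2 hpos).eq_or_lt with h1 | h1
  · subst h1
    have hs : s = 0 := by simpa using h
    subst hs
    rw [code_one]
    exact_mod_cast Nat.one_le_iff_ne_zero.2 (hi rfl)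
  · have h2 : 2 ≤ l := by
      have := Order.add_one_le_of_lt h1
      rwa [one_add_one_eq_two] at this
    rcases h2.eq_or_lt with h3 | h3
    · rw [← h3]
      refine le_trans ?_ (om_le_code le_rfl (h3 ▸ h) i)
      exact_mod_cast (natCast_lt_omega0 2).le
    · have h3' : 3 ≤ l := by
        have := Order.add_one_le_of_lt h3
        convert this using 1; norm_num
      calc l ≤ tri l := le_tri h3'
        _ ≤ tri l + s := le_self_add
        _ ≤ ω * (tri l + s) := le_mul_of_one_le_left zero_le (one_lt_omega0.le)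
        _ ≤ code l s i := le_self_add

theorem cst_inj {a b : Ordinal.{0}} : cst a = cst b ↔ a = b := by
  unfold cst
  have pa : 0 < a + 1 := Order.lt_add_one_iff.2 zero_le
  have pb : 0 < b + 1 := Order.lt_add_one_iff.2 zero_le
  rw [code_inj pa pb]
  constructor
  · rintro ⟨h, -, -⟩
    exact Order.add_one_inj.1 h
  · rintro rfl
    exact ⟨rfl, rfl, rfl⟩

theorem cst_lt {a b : Ordinal.{0}} : cst a < cst b ↔ a < b := by
  unfold cst
  have pa : 0 < a + 1 := Order.lt_add_one_iff.2 zero_le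
  have pb : 0 < b + 1 := Order.lt_add_one_iff.2 zero_le
  rw [code_lt_iff pa pb]
  constructor
  · rintro (h | ⟨-, h | ⟨-, h⟩⟩)
    · exact add_one_lt_iff'.1 h
    · exact absurd h (lt_irrefl _)
    · exact absurd h (lt_irrefl _)
  · intro h
    exact Or.inl (add_one_lt_iff'.2 h)

theorem lt_cst (a : Ordinal.{0}) : a < cst a := by
  have pa : 0 < a + 1 := Order.lt_add_one_iff.2 zero_le
  exact lt_of_lt_of_le (Order.lt_add_one_iff.2 le_rfl) (le_code pa 1 fun _ => one_ne_zero)

theorem add_one_eq_one {e : Ordinal.{0}} (h : e + 1 = 1) : e = 0 := by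
  have : e + 1 = 0 + 1 := by rw [h, zero_add]
  exact Order.add_one_inj.1 this

theorem Tr_lt {e d : Ordinal.{0}} {q : ℕ} {t : Ordinal.{0}} (h : Tr e d q t) :
    e < t ∧ d < t := by
  have key : ∀ {e d : Ordinal.{0}} {i : ℕ}, d < e + 1 → ω ≤ code (e + 1) d i →
      e < code (e + 1) d i := by
    intro e d i hd ho
    refine lt_of_lt_of_le (Order.lt_add_one_iff.2 le_rfl) (le_code hd i ?_)
    rintro h1 rfl
    rw [h1] at ho hd
    have hd0 : d = 0 := by simpa using hd
    rw [hd0, code_one] at ho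
    exact absurd ho (not_le.2 (natCast_lt_omega0 0))
  obtain ⟨ho, ⟨hd, rfl⟩ | ⟨he, rfl⟩⟩ := h
  · have := key hd ho
    exact ⟨this, lt_of_le_of_lt (Order.lt_add_one_iff.1 hd) this⟩
  · have := key he ho
    exact ⟨lt_of_le_of_lt (Order.lt_add_one_iff.1 he) this, this⟩

theorem Tr_inj {e d e' d' : Ordinal.{0}} {q q' : ℕ} {t : Ordinal.{0}} (h : Tr e d q t)
    (h' : Tr e' d' q' t) : e = e' ∧ d = d' ∧ q = q' := by
  obtain ⟨-, ⟨h1, h2⟩ | ⟨h1, h2⟩⟩ := h <;> obtain ⟨-, ⟨h3, h4⟩ | ⟨h3, h4⟩⟩ := h' <;>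
    obtain ⟨a, b, c⟩ := (code_inj h1 h3).1 (h2.symm.trans h4)
  · exact ⟨Order.add_one_inj.1 a, b, by omega⟩
  · omega
  · omega
  · exact ⟨b, Order.add_one_inj.1 a, by omega⟩

theorem exists_Tr {e d : Ordinal.{0}} (q : ℕ) (h : e ≠ 0 ∨ d ≠ 0) : ∃ t, Tr e d q t ∧
    ∃ l s i, t = code l s i ∧ s < l ∧ (l = e + 1 ∨ l = d + 1) := by
  have two : ∀ {x : Ordinal.{0}}, x ≠ 0 → 2 ≤ x + 1 := by
    intro x hx
    rw [← one_add_one_eq_two]
    exact add_one_le_iff'.2 (Order.one_le_iff_pos.2 (pos_iff_ne_zero.2 hx))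
  rcases le_or_gt d e with hde | hde
  · have he : e ≠ 0 := by
      rintro rfl
      have : d = 0 := le_antisymm hde zero_le
      rcases h with h | h <;> exact h (by first | rfl | exact this)
    have hd : d < e + 1 := Order.lt_add_one_iff.2 hde
    exact ⟨code (e + 1) d (2 * q), ⟨om_le_code (two he) hd _, Or.inl ⟨hd, rfl⟩⟩,
      e + 1, d, 2 * q, rfl, hd, Or.inl rfl⟩
  · have hd : d ≠ 0 := fun h0 => by
      rw [h0] at hde
      exact not_lt_zero hde
    have he : e < d + 1 := Order.lt_add_one_iff.2 hde.le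
    exact ⟨code (d + 1) e (2 * q + 1), ⟨om_le_code (two hd) he _, Or.inr ⟨he, rfl⟩⟩,
      d + 1, e, 2 * q + 1, rfl, he, Or.inr rfl⟩

end Pool.Agent.CC
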