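import Mathlib
import Pool.Agent.Lib.MP_bf67b0_lc.Basics
import Pool.Agent.Lib.MP_bf67b0_lc.Coding

/-!
Locality of the recursively defined relations.

`Ag I I' D D' l j x φ`: the formula `φ` has the same meaning in the structures `(I, D)` and
`(I', D')` for all valuations below `l` with value `x` at the variable `j`. This is closed under
propositional connectives and bounded quantifiers (not binding `j`).
-/

set_option autoImplicit false
set_option linter.unusedTactic false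
set_option linter.unreachableTactic false

namespace Pool.Agent.CC

open Ordinal Set Fm

/-! ### agreement of interpretations -/

/-- if two interpretations agree on the lists from `D`, they satisfy the same formulas -/
theorem Sat_congr_interp {M : Type*} {I I' : Sy → List M → Prop} {D : Set M}
    (h : ∀ R xs, (∀ a ∈ xs, a ∈ D) → (I R xs ↔ I' R xs)) {φ : Fm} {v : ℕ → M}
    (hv : ∀ k, v k ∈ D) : Sat I D v φ ↔ Sat I' D v φ := by
  induction φ generalizing v with
  | bot => rfl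
  | eq i j => rfl
  | rel R xs =>
    refine h R _ fun a ha => ?_
    obtain ⟨k, -, rfl⟩ := List.mem_map.1 ha
    exact hv k
  | imp φ ψ h1 h2 => rw [Sat_imp, Sat_imp, h1 hv, h2 hv]
  | all i φ ih =>
    rw [Sat_all, Sat_all]
    refine forall₂_congr fun a ha => ih fun k => ?_
    by_cases hk : k = i
    · subst hk; simpa using ha
    · simpa [Function.update_of_ne hk] using hv k

/-- agreement of two structures on a formula, below `l`, for valuations with value `x` at `j` -/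
def Ag (I I' : Sy → List Ordinal.{0} → Prop) (D D' : Set Ordinal.{0}) (l : Ordinal.{0})
    (j : ℕ) (x : Ordinal.{0}) (φ : Fm) : Prop :=
  ∀ v : ℕ → Ordinal.{0}, (∀ k, v k < l) → v j = x → (Sat I D v φ ↔ Sat I' D' v φ)

/-- the order relation has its intended meaning -/
def LtOk (I : Sy → List Ordinal.{0} → Prop) (D : Set Ordinal.{0}) : Prop :=
  ∀ a ∈ D, ∀ b ∈ D, (I .lt [a, b] ↔ a < b)

section
variable {I I' : Sy → List Ordinal.{0} → Prop} {D D' : Set Ordinal.{0}} {l : Ordinal.{0}}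
  {j : ℕ} {x : Ordinal.{0}} {φ ψ : Fm}

theorem Ag.bot : Ag I I' D D' l j x .bot := fun _ _ _ => Iff.rfl

theorem Ag.eq (i k : ℕ) : Ag I I' D D' l j x (.eq i k) := fun _ _ _ => Iff.rfl

theorem Ag.rel {R : Sy} {xs : List ℕ}
    (h : ∀ xs, (∀ a ∈ xs, a < l) → (I R xs ↔ I' R xs)) : Ag I I' D D' l j x (.rel R xs) := by
  intro v hv _
  refine h _ fun a ha => ?_
  obtain ⟨k, -, rfl⟩ := List.mem_map.1 ha
  exact hv k

theorem Ag.imp (h : Ag I I' D D' l j x φ) (h' : Ag I I' D D' l j x ψ) :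
    Ag I I' D D' l j x (.imp φ ψ) := by
  intro v hv hx
  rw [Sat_imp, Sat_imp, h v hv hx, h' v hv hx]

theorem Ag.neg (h : Ag I I' D D' l j x φ) : Ag I I' D D' l j x φ.neg := h.imp .bot

theorem Ag.and (h : Ag I I' D D' l j x φ) (h' : Ag I I' D D' l j x ψ) :
    Ag I I' D D' l j x (φ.and ψ) := (h.imp h'.neg).neg

theorem Ag.or (h : Ag I I' D D' l j x φ) (h' : Ag I I' D D' l j x ψ) :
    Ag I I' D D' l j x (φ.or ψ) := h.neg.imp h'

theorem Ag.iff (h : Ag I I' D D' l j x φ) (h' : Ag I I' D D' l j x ψ) :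
    Ag I I' D D' l j x (φ.iff ψ) := (h.imp h').and (h'.imp h)

theorem Ag.all_aux {i : ℕ} (P : Ordinal.{0} → (ℕ → Ordinal.{0}) → Prop)
    (hD : Iio l ⊆ D) (hD' : Iio l ⊆ D')
    (hP : ∀ v : ℕ → Ordinal.{0}, (∀ k, v k < l) → ∀ a ∈ D,
      (Sat I D (Function.update v i a) ψ ↔ P a v))
    (hP' : ∀ v : ℕ → Ordinal.{0}, (∀ k, v k < l) → ∀ a ∈ D',
      (Sat I' D' (Function.update v i a) ψ ↔ P a v))
    (hPl : ∀ v : ℕ → Ordinal.{0}, (∀ k, v k < l) → ∀ a, P a v → a < l)
    (h : Ag I I' D D' l j x φ) (hij : i ≠ j) :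
    Ag I I' D D' l j x (.all i (.imp ψ φ)) := by
  intro v hv hx
  rw [Sat_all, Sat_all]
  have key : ∀ a < l, (Sat I D (Function.update v i a) φ ↔
      Sat I' D' (Function.update v i a) φ) := by
    intro a ha
    refine h _ (fun k => ?_) ?_
    · by_cases hk : k = i
      · subst hk; simpa using ha
      · simpa [Function.update_of_ne hk] using hv k
    · rw [Function.update_of_ne hij.symm, hx]
  constructor
  · intro H a ha
    rw [Sat_imp, hP' v hv a ha]
    intro hpa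
    have hal := hPl v hv a hpa
    refine (key a hal).1 ?_
    exact H a (hD hal) ((hP v hv a (hD hal)).2 hpa)
  · intro H a ha
    rw [Sat_imp, hP v hv a ha]
    intro hpa
    have hal := hPl v hv a hpa
    refine (key a hal).2 ?_
    exact H a (hD' hal) ((hP' v hv a (hD' hal)).2 hpa)

theorem Ag.ball (hD : Iio l ⊆ D) (hD' : Iio l ⊆ D') (hlt : LtOk I D) (hlt' : LtOk I' D')
    {i k : ℕ} (h : Ag I I' D D' l j x φ) (hik : i ≠ k) (hij : i ≠ j) :
    Ag I I' D D' l j x (.ball i k φ) := by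
  refine Ag.all_aux (P := fun a v => a < v k) hD hD' ?_ ?_ ?_ h hij
  · intro v hv a ha
    rw [Sat_lt, Function.update_self, Function.update_of_ne hik.symm]
    exact hlt a ha _ (hD (hv k))
  · intro v hv a ha
    rw [Sat_lt, Function.update_self, Function.update_of_ne hik.symm]
    exact hlt' a ha _ (hD' (hv k))
  · intro v hv a ha
    exact lt_trans ha (hv k)

theorem Ag.balle (hD : Iio l ⊆ D) (hD' : Iio l ⊆ D') (hlt : LtOk I D) (hlt' : LtOk I' D')
    {i k : ℕ} (h : Ag I I' D D' l j x φ) (hik : i ≠ k) (hij : i ≠ j) :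
    Ag I I' D D' l j x (.balle i k φ) := by
  refine Ag.all_aux (P := fun a v => a ≤ v k) hD hD' ?_ ?_ ?_ h hij
  · intro v hv a ha
    rw [Sat_le, Function.update_self, Function.update_of_ne hik.symm, hlt a ha _ (hD (hv k)),
      le_iff_lt_or_eq]
  · intro v hv a ha
    rw [Sat_le, Function.update_self, Function.update_of_ne hik.symm, hlt' a ha _ (hD' (hv k)),
      le_iff_lt_or_eq]
  · intro v hv a ha
    exact lt_of_le_of_lt ha (hv k)

theorem Ag.bex (hD : Iio l ⊆ D) (hD' : Iio l ⊆ D') (hlt : LtOk I D) (hlt' : LtOk I' D')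
    {i k : ℕ} (h : Ag I I' D D' l j x φ) (hik : i ≠ k) (hij : i ≠ j) :
    Ag I I' D D' l j x (.bex i k φ) := (h.neg.ball hD hD' hlt hlt' hik hij).neg

theorem Ag.bexle (hD : Iio l ⊆ D) (hD' : Iio l ⊆ D') (hlt : LtOk I D) (hlt' : LtOk I' D')
    {i k : ℕ} (h : Ag I I' D D' l j x φ) (hik : i ≠ k) (hij : i ≠ j) :
    Ag I I' D D' l j x (.bexle i k φ) := (h.neg.balle hD hD' hlt hlt' hik hij).neg

/-- the structures agree on `chiF` as soon as the relation `F` agrees on the rows below `v 4` -/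
theorem Sat_chiF_congr (hD : Iio l ⊆ D) (hD' : Iio l ⊆ D') (hlt : LtOk I D) (hlt' : LtOk I' D')
    (hI : ∀ R, R ≠ .F → R ≠ .K → ∀ xs, (∀ a ∈ xs, a < l) → (I R xs ↔ I' R xs))
    {v : ℕ → Ordinal.{0}} (hv : ∀ k, v k < l)
    (hF : ∀ m < l, ∀ a < l, ∀ b < l, ∀ p < l, ∀ x < v 4, ∀ y < l,
      (I .F [m, a, b, p, x, y] ↔ I' .F [m, a, b, p, x, y])) :
    Sat I D v chiF ↔ Sat I' D' v chiF := by
  have hg : Ag I I' D D' l 4 (v 4) (and (lt 6 4) (.rel .F [0, 7, 13, 11, 6, 12])) := by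
    intro w hw hx
    rw [Sat_and, Sat_and, Sat_lt, Sat_lt, hlt _ (hD (hw 6)) _ (hD (hw 4)),
      hlt' _ (hD' (hw 6)) _ (hD' (hw 4)), Sat_rel, Sat_rel]
    refine and_congr_right fun h64 => ?_
    exact hF _ (hw 0) _ (hw 7) _ (hw 13) _ (hw 11) _ (hx ▸ h64) _ (hw 12)
  suffices h : Ag I I' D D' l 4 (v 4) chiF from h v hv rfl
  have ho : ∀ R, R ≠ .F → R ≠ .K → ∀ xs, Ag I I' D D' l 4 (v 4) (.rel R xs) :=
    fun R h h' xs => Ag.rel (hI R h h')
  unfold chiF fElt fCst fSupp fInG fSum fLe fLeSh fTr fSucc om E ar nat le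
  repeat' first
    | exact hg
    | exact Ag.eq _ _
    | exact Ag.bot
    | exact ho _ (by decide) (by decide) _
    | with_reducible refine Ag.and ?_ ?_
    | with_reducible refine Ag.or ?_ ?_
    | with_reducible refine Ag.iff ?_ ?_
    | with_reducible refine Ag.neg ?_
    | with_reducible refine Ag.ball hD hD' hlt hlt' ?_ (by decide) (by decide)
    | with_reducible refine Ag.bex hD hD' hlt hlt' ?_ (by decide) (by decide)
    | with_reducible refine Ag.balle hD hD' hlt hlt' ?_ (by decide) (by decide)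
    | with_reducible refine Ag.bexle hD hD' hlt hlt' ?_ (by decide) (by decide)
    | with_reducible refine Ag.imp ?_ ?_

/-- the structures agree on `chiK` as soon as the relation `K` agrees on the rows below `v 1` -/
theorem Sat_chiK_congr (hD : Iio l ⊆ D) (hD' : Iio l ⊆ D') (hlt : LtOk I D) (hlt' : LtOk I' D')
    (hI : ∀ R, R ≠ .F → R ≠ .K → ∀ xs, (∀ a ∈ xs, a < l) → (I R xs ↔ I' R xs))
    {v : ℕ → Ordinal.{0}} (hv : ∀ k, v k < l)
    (hK : ∀ t < l, ∀ a < v 1, ∀ n < l, (I .K [t, a, n] ↔ I' .K [t, a, n])) :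
    Sat I D v chiK ↔ Sat I' D' v chiK := by
  have hg : Ag I I' D D' l 1 (v 1) (and (lt 6 1) (.rel .K [0, 6, 4])) := by
    intro w hw hx
    rw [Sat_and, Sat_and, Sat_lt, Sat_lt, hlt _ (hD (hw 6)) _ (hD (hw 1)),
      hlt' _ (hD' (hw 6)) _ (hD' (hw 1)), Sat_rel, Sat_rel]
    refine and_congr_right fun h61 => ?_
    exact hK _ (hw 0) _ (hx ▸ h61) _ (hw 4)
  suffices h : Ag I I' D D' l 1 (v 1) chiK from h v hv rfl
  have ho : ∀ R, R ≠ .F → R ≠ .K → ∀ xs, Ag I I' D D' l 1 (v 1) (.rel R xs) :=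
    fun R h h' xs => Ag.rel (hI R h h')
  unfold chiK om E ar
  repeat' first
    | exact hg
    | exact Ag.eq _ _
    | exact Ag.bot
    | exact ho _ (by decide) (by decide) _
    | with_reducible refine Ag.and ?_ ?_
    | with_reducible refine Ag.or ?_ ?_
    | with_reducible refine Ag.iff ?_ ?_
    | with_reducible refine Ag.neg ?_
    | with_reducible refine Ag.ball hD hD' hlt hlt' ?_ (by decide) (by decide)
    | with_reducible refine Ag.bex hD hD' hlt hlt' ?_ (by decide) (by decide)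
    | with_reducible refine Ag.balle hD hD' hlt hlt' ?_ (by decide) (by decide)
    | with_reducible refine Ag.bexle hD hD' hlt hlt' ?_ (by decide) (by decide)
    | with_reducible refine Ag.imp ?_ ?_

end

/-! ### free variables -/

/-- all free variables of the formula are in the list `S` -/
def Fm.fvIn : Fm → List ℕ → Bool
  | .bot, _ => true
  | .eq i j, S => S.contains i && S.contains j
  | .rel _ xs, S => xs.all (fun k => S.contains k)
  | .imp φ ψ, S => φ.fvIn S && ψ.fvIn S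
  | .all i φ, S => φ.fvIn (i :: S)

theorem Sat_congr_fv {M : Type*} {I : Sy → List M → Prop} {D : Set M} {φ : Fm} {S : List ℕ}
    (h : φ.fvIn S = true) {v w : ℕ → M} (hvw : ∀ k ∈ S, v k = w k) :
    Sat I D v φ ↔ Sat I D w φ := by
  induction φ generalizing S v w with
  | bot => rfl
  | eq i j =>
    simp only [Fm.fvIn, Bool.and_eq_true, List.contains_iff_mem] at h
    rw [Sat_eq, Sat_eq, hvw i h.1, hvw j h.2]
  | rel R xs =>
    simp only [Fm.fvIn, List.all_eq_true, List.contains_iff_mem] at h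
    rw [Sat_rel, Sat_rel, List.map_congr_left fun k hk => hvw k (h k hk)]
  | imp φ ψ h1 h2 =>
    simp only [Fm.fvIn, Bool.and_eq_true] at h
    rw [Sat_imp, Sat_imp, h1 h.1 hvw, h2 h.2 hvw]
  | all i φ ih =>
    simp only [Fm.fvIn] at h
    rw [Sat_all, Sat_all]
    refine forall₂_congr fun a _ => ih h fun k hk => ?_
    by_cases hki : k = i
    · subst hki; simp
    · rw [Function.update_of_ne hki, Function.update_of_ne hki]
      exact hvw k ((List.mem_cons.1 hk).resolve_left hki)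

theorem chiF_fv : chiF.fvIn [0, 1, 2, 3, 4, 5] = true := by decide +kernel

theorem chiK_fv : chiK.fvIn [0, 1, 2] = true := by decide +kernel

/-! ### rows -/

theorem Frow_iff (A : ℕ → List ℕ → Prop) (E : Ordinal.{0} → Ordinal.{0} → Prop)
    (x m a b p y : Ordinal.{0}) : Frow A E x m a b p y ↔
    Sat (base A E (fun l => ∃ m a b p x' y, l = [m, a, b, p, x', y] ∧
      ∃ _ : x' < x, Frow A E x' m a b p y) (fun _ => False)) Set.univ
      (lv [m, a, b, p, x, y]) chiF := by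
  conv_lhs => rw [Frow, WellFoundedLT.fix_eq]
  rfl

theorem Krow_iff (A : ℕ → List ℕ → Prop) (E : Ordinal.{0} → Ordinal.{0} → Prop)
    (a t n : Ordinal.{0}) : Krow A E a t n ↔
    Sat (base A E (fun _ => False) (fun l => ∃ t a' n, l = [t, a', n] ∧
      ∃ _ : a' < a, Krow A E a' t n)) Set.univ (lv [t, a, n]) chiK := by
  conv_lhs => rw [Krow, WellFoundedLT.fix_eq]
  rfl

theorem mem_Erow (A : ℕ → List ℕ → Prop) (e x : Ordinal.{0}) : e ∈ Erow A x ↔
    e < (dcd x).1 ∧ (dcd x).1 ≤ x ∧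
      Sat (IE A (fun a b => ∃ _ : b < x, a ∈ Erow A b)) (Set.Iio (dcd x).1)
        (vv e (dcd x).2.1) (fm (dcd x).2.2) := by
  conv_lhs => rw [Erow, WellFoundedLT.fix_eq]
  rfl

theorem Frel_iff {A : ℕ → List ℕ → Prop} {E : Ordinal.{0} → Ordinal.{0} → Prop}
    {m a b p x y : Ordinal.{0}} : Frel A E [m, a, b, p, x, y] ↔ Frow A E x m a b p y := by
  constructor
  · rintro ⟨m', a', b', p', x', y', h, h'⟩
    simp only [List.cons.injEq, and_true] at h
    obtain ⟨rfl, rfl, rfl, rfl, rfl, rfl⟩ := h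
    exact h'
  · intro h
    exact ⟨m, a, b, p, x, y, rfl, h⟩

theorem Krel_iff {A : ℕ → List ℕ → Prop} {E : Ordinal.{0} → Ordinal.{0} → Prop}
    {t a n : Ordinal.{0}} : Krel A E [t, a, n] ↔ Krow A E a t n := by
  constructor
  · rintro ⟨t', a', n', h, h'⟩
    simp only [List.cons.injEq, and_true] at h
    obtain ⟨rfl, rfl, rfl⟩ := h
    exact h'
  · intro h
    exact ⟨t, a, n, rfl, h⟩

/-! ### the interpretations `base` -/

theorem base_ltOk (A : ℕ → List ℕ → Prop) (E : Ordinal.{0} → Ordinal.{0} → Prop)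
    (F K : List Ordinal.{0} → Prop) (D : Set Ordinal.{0}) : LtOk (base A E F K) D :=
  fun _ _ _ _ => Iff.rfl

/-- the interpretations of the symbols other than `F` and `K` below `l` depend only on the rows
of `E` below `l` -/
theorem base_congr {A : ℕ → List ℕ → Prop} {E E' : Ordinal.{0} → Ordinal.{0} → Prop}
    {l : Ordinal.{0}} (hE : ∀ a b, b < l → (E a b ↔ E' a b)) (F F' K K' : List Ordinal.{0} → Prop)
    (R : Sy) (hR : R ≠ .F) (hR' : R ≠ .K) (xs : List Ordinal.{0}) (hxs : ∀ a ∈ xs, a < l) :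
    base A E F K R xs ↔ base A E' F' K' R xs := by
  cases R with
  | F => exact absurd rfl hR
  | K => exact absurd rfl hR'
  | E =>
    match xs, hxs with
    | [], _ => exact Iff.rfl
    | [a], _ => exact Iff.rfl
    | [a, b], h => exact hE a b (h b (by simp))
    | _ :: _ :: _ :: _, _ => exact Iff.rfl
  | lt =>
    match xs with
    | [] => exact Iff.rfl
    | [_] => exact Iff.rfl
    | [_, _] => exact Iff.rfl
    | _ :: _ :: _ :: _ => exact Iff.rfl
  | om =>
    match xs with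
    | [] => exact Iff.rfl
    | [_] => exact Iff.rfl
    | _ :: _ :: _ => exact Iff.rfl
  | code =>
    match xs with
    | [] => exact Iff.rfl
    | [_] => exact Iff.rfl
    | [_, _] => exact Iff.rfl
    | [_, _, _] => exact Iff.rfl
    | [_, _, _, _] => exact Iff.rfl
    | _ :: _ :: _ :: _ :: _ :: _ => exact Iff.rfl
  | nat n =>
    match xs with
    | [] => exact Iff.rfl
    | [_] => exact Iff.rfl
    | _ :: _ :: _ => exact Iff.rfl
  | ar j => exact Iff.rfl
  | mem => exact Iff.rfl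

theorem lv_lt {xs : List Ordinal.{0}} {l : Ordinal.{0}} (hl : 0 < l) (h : ∀ a ∈ xs, a < l)
    (k : ℕ) : lv xs k < l := by
  unfold lv
  by_cases hk : k < xs.length
  · rw [List.getD_eq_getElem _ _ hk]
    exact h _ (List.getElem_mem hk)
  · rw [List.getD_eq_default _ _ (not_lt.1 hk)]
    exact hl

theorem Frow_congr {A : ℕ → List ℕ → Prop} {E E' : Ordinal.{0} → Ordinal.{0} → Prop}
    {l : Ordinal.{0}} (hE : ∀ a b, b < l → (E a b ↔ E' a b)) (x : Ordinal.{0}) (hx : x < l) :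
    ∀ m < l, ∀ a < l, ∀ b < l, ∀ p < l, ∀ y < l,
      (Frow A E x m a b p y ↔ Frow A E' x m a b p y) := by
  induction x using WellFoundedLT.induction with
  | ind x ih =>
  intro m hm a ha b hb p hp y hy
  rw [Frow_iff, Frow_iff]
  refine Sat_chiF_congr (l := l) (subset_univ _) (subset_univ _) (base_ltOk _ _ _ _ _)
    (base_ltOk _ _ _ _ _) (base_congr hE _ _ _ _)
    (lv_lt (lt_of_le_of_lt zero_le hx) (by simp [hm, ha, hb, hp, hx, hy])) ?_
  intro m' hm' a' ha' b' hb' p' hp' x' hx' y' hy'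
  have hxx : x' < x := hx'
  constructor
  · rintro ⟨m₁, a₁, b₁, p₁, x₁, y₁, h, h1, h2⟩
    simp only [List.cons.injEq, and_true] at h
    obtain ⟨rfl, rfl, rfl, rfl, rfl, rfl⟩ := h
    exact ⟨_, _, _, _, _, _, rfl, h1,
      (ih _ h1 (h1.trans hx) _ hm' _ ha' _ hb' _ hp' _ hy').1 h2⟩
  · rintro ⟨m₁, a₁, b₁, p₁, x₁, y₁, h, h1, h2⟩
    simp only [List.cons.injEq, and_true] at h
    obtain ⟨rfl, rfl, rfl, rfl, rfl, rfl⟩ := h
    exact ⟨_, _, _, _, _, _, rfl, h1,
      (ih _ h1 (h1.trans hx) _ hm' _ ha' _ hb' _ hp' _ hy').2 h2⟩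

theorem Krow_congr {A : ℕ → List ℕ → Prop} {E E' : Ordinal.{0} → Ordinal.{0} → Prop}
    {l : Ordinal.{0}} (hE : ∀ a b, b < l → (E a b ↔ E' a b)) (a : Ordinal.{0}) (ha : a < l) :
    ∀ t < l, ∀ n < l, (Krow A E a t n ↔ Krow A E' a t n) := by
  induction a using WellFoundedLT.induction with
  | ind a ih =>
  intro t ht n hn
  rw [Krow_iff, Krow_iff]
  refine Sat_chiK_congr (l := l) (subset_univ _) (subset_univ _) (base_ltOk _ _ _ _ _)
    (base_ltOk _ _ _ _ _) (base_congr hE _ _ _ _)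
    (lv_lt (lt_of_le_of_lt zero_le ha) (by simp [ha, ht, hn])) ?_
  intro t' ht' a' ha' n' hn'
  have haa : a' < a := ha'
  constructor
  · rintro ⟨t₁, a₁, n₁, h, h1, h2⟩
    simp only [List.cons.injEq, and_true] at h
    obtain ⟨rfl, rfl, rfl⟩ := h
    exact ⟨_, _, _, rfl, h1, (ih _ h1 (h1.trans ha) _ ht' _ hn').1 h2⟩
  · rintro ⟨t₁, a₁, n₁, h, h1, h2⟩
    simp only [List.cons.injEq, and_true] at h
    obtain ⟨rfl, rfl, rfl⟩ := h
    exact ⟨_, _, _, rfl, h1, (ih _ h1 (h1.trans ha) _ ht' _ hn').2 h2⟩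

/-- locality: relations below `l` depend only on the rows below `l` -/
theorem IE_congr {A : ℕ → List ℕ → Prop} {E E' : Ordinal.{0} → Ordinal.{0} → Prop}
    {l : Ordinal.{0}} (hE : ∀ a b, b < l → (E a b ↔ E' a b)) (R : Sy) (xs : List Ordinal.{0})
    (hxs : ∀ a ∈ xs, a < l) : IE A E R xs ↔ IE A E' R xs := by
  by_cases hF : R = .F
  · subst hF
    change Frel A E xs ↔ Frel A E' xs
    constructor
    · rintro ⟨m, a, b, p, x, y, rfl, h⟩
      simp only [List.mem_cons, List.not_mem_nil, or_false, forall_eq_or_imp, forall_eq] at hxs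
      obtain ⟨hm, ha, hb, hp, hx, hy⟩ := hxs
      exact ⟨m, a, b, p, x, y, rfl, (Frow_congr hE x hx m hm a ha b hb p hp y hy).1 h⟩
    · rintro ⟨m, a, b, p, x, y, rfl, h⟩
      simp only [List.mem_cons, List.not_mem_nil, or_false, forall_eq_or_imp, forall_eq] at hxs
      obtain ⟨hm, ha, hb, hp, hx, hy⟩ := hxs
      exact ⟨m, a, b, p, x, y, rfl, (Frow_congr hE x hx m hm a ha b hb p hp y hy).2 h⟩
  by_cases hK : R = .K
  · subst hK
    change Krel A E xs ↔ Krel A E' xs
    constructor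
    · rintro ⟨t, a, n, rfl, h⟩
      simp only [List.mem_cons, List.not_mem_nil, or_false, forall_eq_or_imp, forall_eq] at hxs
      obtain ⟨ht, ha, hn⟩ := hxs
      exact ⟨t, a, n, rfl, (Krow_congr hE a ha t ht n hn).1 h⟩
    · rintro ⟨t, a, n, rfl, h⟩
      simp only [List.mem_cons, List.not_mem_nil, or_false, forall_eq_or_imp, forall_eq] at hxs
      obtain ⟨ht, ha, hn⟩ := hxs
      exact ⟨t, a, n, rfl, (Krow_congr hE a ha t ht n hn).2 h⟩
  exact base_congr hE _ _ _ _ R hF hK xs hxs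

/-- the membership relation -/
theorem EE_iff (A : ℕ → List ℕ → Prop) {e l s : Ordinal.{0}} {i : ℕ} (h : s < l) :
    EE A e (code l s i) ↔ e < l ∧ l ≤ code l s i ∧
      Sat (II A) (Set.Iio l) (vv e s) (fm i) := by
  unfold EE
  rw [mem_Erow, dcd_code h]
  dsimp only
  refine and_congr_right fun hel => and_congr_right fun hl => ?_
  refine Sat_congr_interp (fun R xs hxs => ?_) (fun k => ?_)
  · refine IE_congr (l := l) (fun a b hb => ?_) R xs hxs
    exact ⟨fun h' => h'.2, fun h' => ⟨lt_of_lt_of_le hb hl, h'⟩⟩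
  · unfold vv
    split_ifs
    exacts [hel, h]

theorem EE_lt {A : ℕ → List ℕ → Prop} {e x : Ordinal.{0}} (h : EE A e x) : e < x := by
  obtain ⟨l, s, i, hs, rfl⟩ := exists_code x
  obtain ⟨h1, h2, -⟩ := (EE_iff A hs).1 h
  exact lt_of_lt_of_le h1 h2

theorem II_F (A : ℕ → List ℕ → Prop) {m a b p x y : Ordinal.{0}} :
    II A .F [m, a, b, p, x, y] ↔ Frow A (EE A) x m a b p y := Frel_iff

theorem II_K (A : ℕ → List ℕ → Prop) {t a n : Ordinal.{0}} :
    II A .K [t, a, n] ↔ Krow A (EE A) a t n := Krel_iff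

/-- the recursion clause of `F` holds in every universe containing the initial segment of some
ordinal above the arguments -/
theorem F_chi_gen (A : ℕ → List ℕ → Prop) {l : Ordinal.{0}} {D : Set Ordinal.{0}}
    (hD : Iio l ⊆ D) (v : ℕ → Ordinal.{0}) (hv : ∀ k, v k < l) :
    II A .F [v 0, v 1, v 2, v 3, v 4, v 5] ↔ Sat (II A) D v chiF := by
  rw [II_F, Frow_iff]
  have hv' : ∀ k, lv [v 0, v 1, v 2, v 3, v 4, v 5] k < l :=
    lv_lt (lt_of_le_of_lt zero_le (hv 0)) (by simp [hv])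
  rw [Sat_congr_fv (I := II A) (v := v) (w := lv [v 0, v 1, v 2, v 3, v 4, v 5]) chiF_fv
    (by simp [lv])]
  refine Sat_chiF_congr (l := l) (subset_univ _) hD (base_ltOk _ _ _ _ _)
    (base_ltOk _ _ _ _ _) (base_congr (fun _ _ _ => Iff.rfl) _ _ _ _) hv' ?_
  intro m' hm' a' ha' b' hb' p' hp' x' hx' y' hy'
  have hxx : x' < v 4 := hx'
  refine Iff.trans ?_ (II_F A).symm
  constructor
  · rintro ⟨m₁, a₁, b₁, p₁, x₁, y₁, h, h1, h2⟩
    simp only [List.cons.injEq, and_true] at h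
    obtain ⟨rfl, rfl, rfl, rfl, rfl, rfl⟩ := h
    exact h2
  · intro h
    exact ⟨_, _, _, _, _, _, rfl, hxx, h⟩

theorem K_chi_gen (A : ℕ → List ℕ → Prop) {l : Ordinal.{0}} {D : Set Ordinal.{0}}
    (hD : Iio l ⊆ D) (v : ℕ → Ordinal.{0}) (hv : ∀ k, v k < l) :
    II A .K [v 0, v 1, v 2] ↔ Sat (II A) D v chiK := by
  rw [II_K, Krow_iff]
  have hv' : ∀ k, lv [v 0, v 1, v 2] k < l :=
    lv_lt (lt_of_le_of_lt zero_le (hv 0)) (by simp [hv])
  rw [Sat_congr_fv (I := II A) (v := v) (w := lv [v 0, v 1, v 2]) chiK_fv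
    (by simp [lv])]
  refine Sat_chiK_congr (l := l) (subset_univ _) hD (base_ltOk _ _ _ _ _)
    (base_ltOk _ _ _ _ _) (base_congr (fun _ _ _ => Iff.rfl) _ _ _ _) hv' ?_
  intro t' ht' a' ha' n' hn'
  have haa : a' < v 1 := ha'
  refine Iff.trans ?_ (II_K A).symm
  constructor
  · rintro ⟨t₁, a₁, n₁, h, h1, h2⟩
    simp only [List.cons.injEq, and_true] at h
    obtain ⟨rfl, rfl, rfl⟩ := h
    exact h2
  · intro h
    exact ⟨_, _, _, rfl, haa, h⟩

theorem exists_val_lt (v : ℕ → Ordinal.{0}) : ∃ l : Ordinal.{0}, ∀ k, v k < l :=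
  ⟨⨆ k, (v k + 1), fun k => lt_of_lt_of_le (lt_add_of_pos_right _ zero_lt_one)
    (Ordinal.le_iSup (fun k => v k + 1) k)⟩

/-- the recursion clauses hold, in all universes containing the arguments -/
theorem F_chi (A : ℕ → List ℕ → Prop) (l : Ordinal.{0}) (v : ℕ → Ordinal.{0})
    (hv : ∀ k, v k < l) : II A .F [v 0, v 1, v 2, v 3, v 4, v 5] ↔
      Sat (II A) (Set.Iio l) v chiF := F_chi_gen A (subset_refl _) v hv

theorem F_chi' (A : ℕ → List ℕ → Prop) (v : ℕ → Ordinal.{0}) :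
    II A .F [v 0, v 1, v 2, v 3, v 4, v 5] ↔ Sat (II A) Set.univ v chiF := by
  obtain ⟨l, hl⟩ := exists_val_lt v
  exact F_chi_gen A (subset_univ (Iio l)) v hl

theorem K_chi (A : ℕ → List ℕ → Prop) (l : Ordinal.{0}) (v : ℕ → Ordinal.{0})
    (hv : ∀ k, v k < l) : II A .K [v 0, v 1, v 2] ↔ Sat (II A) (Set.Iio l) v chiK :=
  K_chi_gen A (subset_refl _) v hv

theorem K_chi' (A : ℕ → List ℕ → Prop) (v : ℕ → Ordinal.{0}) :
    II A .K [v 0, v 1, v 2] ↔ Sat (II A) Set.univ v chiK := by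
  obtain ⟨l, hl⟩ := exists_val_lt v
  exact K_chi_gen A (subset_univ (Iio l)) v hl

end Pool.Agent.CC
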