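import Mathlib
import Pool.Agent.Lib.MP_bf67b0_lc.Basics
import Pool.Agent.Lib.MP_bf67b0_lc.Coding
import Pool.Agent.Lib.MP_bf67b0_lc.Recur

/-!
Readable recursion clauses for the forcing relation `F` and the stages `K`.
-/

set_option autoImplicit false
set_option linter.unusedSimpArgs false

namespace Pool.Agent.CC

open Ordinal Set

section
variable {A : ℕ → List ℕ → Prop} {v : ℕ → Ordinal.{0}}

theorem II_lt {a b : Ordinal.{0}} : II A .lt [a, b] ↔ a < b := Iff.rfl
theorem II_om {a : Ordinal.{0}} : II A .om [a] ↔ a < ω := Iff.rfl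
theorem II_E {a b : Ordinal.{0}} : II A .E [a, b] ↔ EE A a b := Iff.rfl
theorem II_nat {n : ℕ} {a : Ordinal.{0}} : II A (.nat n) [a] ↔ a = n := Iff.rfl
theorem II_code {l s i x : Ordinal.{0}} :
    II A .code [l, s, i, x] ↔ s < l ∧ ∃ n : ℕ, i = n ∧ x = code l s n := Iff.rfl
theorem II_ar {j : ℕ} {l : List Ordinal.{0}} :
    II A (.ar j) l ↔ ∃ l' : List ℕ, l = l'.map (fun n : ℕ => (n : Ordinal.{0})) ∧ A j l' := by
  cases l <;> exact Iff.rfl

theorem Sat_om {D : Set Ordinal.{0}} {i : ℕ} : Sat (II A) D v (Fm.om i) ↔ v i < ω := Iff.rfl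
theorem Sat_E {D : Set Ordinal.{0}} {i j : ℕ} : Sat (II A) D v (Fm.E i j) ↔ EE A (v i) (v j) :=
  Iff.rfl
theorem Sat_nat {D : Set Ordinal.{0}} {n i : ℕ} : Sat (II A) D v (Fm.nat n i) ↔ v i = n := Iff.rfl

/-- quantifiers bounded by ordinals, universe `univ` -/
theorem Sat_ball' {i j : ℕ} {φ : Fm} (h : j ≠ i) : Sat (II A) univ v (.ball i j φ) ↔
    ∀ a < v j, Sat (II A) univ (Function.update v i a) φ := by
  rw [Sat_ball]
  simp only [mem_univ, forall_true_left, Function.update_of_ne h, II_lt]

theorem Sat_bex' {i j : ℕ} {φ : Fm} (h : j ≠ i) : Sat (II A) univ v (.bex i j φ) ↔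
    ∃ a < v j, Sat (II A) univ (Function.update v i a) φ := by
  rw [Sat_bex]
  simp only [mem_univ, true_and, Function.update_of_ne h, II_lt]

theorem Sat_bexle' {i j : ℕ} {φ : Fm} (h : j ≠ i) : Sat (II A) univ v (.bexle i j φ) ↔
    ∃ a ≤ v j, Sat (II A) univ (Function.update v i a) φ := by
  rw [Sat_bexle]
  simp only [mem_univ, true_and, Function.update_of_ne h, II_lt, le_iff_lt_or_eq]

theorem ex_nat_iff {μ : Ordinal.{0}} (hμ : ω ≤ μ) {P : Ordinal.{0} → Prop} :
    (∃ a < μ, a < ω ∧ P a) ↔ ∃ n : ℕ, P n := by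
  constructor
  · rintro ⟨a, -, h, h'⟩
    obtain ⟨n, rfl⟩ := lt_omega0.1 h
    exact ⟨n, h'⟩
  · rintro ⟨n, h⟩
    exact ⟨n, lt_of_lt_of_le (natCast_lt_omega0 n) hμ, natCast_lt_omega0 n, h⟩

theorem all_nat_iff {μ : Ordinal.{0}} (hμ : ω ≤ μ) {P : Ordinal.{0} → Prop} :
    (∀ a < μ, a < ω → P a) ↔ ∀ n : ℕ, P n := by
  constructor
  · intro h n
    exact h n (lt_of_lt_of_le (natCast_lt_omega0 n) hμ) (natCast_lt_omega0 n)
  · rintro h a - h'
    obtain ⟨n, rfl⟩ := lt_omega0.1 h'
    exact h n

theorem Sat_fSucc {a l n : ℕ} (h1 : a ≠ n) (h2 : l ≠ n) :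
    Sat (II A) univ v (fSucc a l n) ↔ v l = v a + 1 := by
  unfold fSucc
  rw [Sat_and, Sat_lt, Sat_ball' h2]
  simp only [Sat_le, II_lt, Function.update_self, Function.update_of_ne h1]
  constructor
  · rintro ⟨h, h'⟩
    refine le_antisymm ?_ (by rw [← Order.succ_eq_add_one, Order.succ_le_iff]; exact h)
    by_contra hc
    push Not at hc
    have := h' _ hc
    rw [← le_iff_lt_or_eq] at this
    exact absurd this (not_le.2 (by
      rw [← Order.succ_eq_add_one]; exact Order.lt_succ _))
  · intro h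
    rw [h]
    refine ⟨by rw [← Order.succ_eq_add_one]; exact Order.lt_succ _, fun c hc => ?_⟩
    rw [← le_iff_lt_or_eq]
    rwa [← Order.succ_eq_add_one, Order.lt_succ_iff] at hc

theorem Sat_fCst {x a n : ℕ} (h1 : x < n) (h2 : a < n) :
    Sat (II A) univ v (fCst x a n) ↔ v x = cst (v a) := by
  unfold fCst
  rw [Sat_bexle' (by omega)]
  simp (disch := omega) only [Sat_and, Sat_fSucc, Sat_bexle', Sat_nat, Sat_rel, List.map_cons,
    List.map_nil, Function.update_self, Function.update_of_ne, II_code]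
  constructor
  · rintro ⟨l, -, rfl, z, -, rfl, o, -, rfl, -, m, hm, h⟩
    have : (1 : ℕ) = m := by exact_mod_cast hm
    subst this
    exact_mod_cast h
  · intro h
    have h0 : (0 : Ordinal.{0}) < v a + 1 := by
      rw [← Order.succ_eq_add_one]; exact lt_of_le_of_lt zero_le (Order.lt_succ _)
    have h3 : v a + 1 ≤ v x := by
      rw [h]; exact le_code h0 1 (fun _ => one_ne_zero)
    refine ⟨v a + 1, h3, rfl, 0, zero_le, by simp, 1, ?_, by simp, h0, 1, by simp, h⟩
    exact le_trans (by simp) h3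

theorem list3 {a b : Ordinal.{0}} {l' : List ℕ}
    (h : [a, b] = l'.map (fun n : ℕ => (n : Ordinal.{0}))) : ∃ m n : ℕ, l' = [m, n] ∧ a = m ∧
      b = n := by
  match l' with
  | [] => simp at h
  | [m] => simp at h
  | [m, n] => simp at h; exact ⟨m, n, rfl, h.1, h.2⟩
  | m :: n :: k :: l => simp at h

theorem list4 {a b c d : Ordinal.{0}} {l' : List ℕ}
    (h : [a, b, c, d] = l'.map (fun n : ℕ => (n : Ordinal.{0}))) :
    ∃ m n k l : ℕ, l' = [m, n, k, l] ∧ a = m ∧ b = n ∧ c = k ∧ d = l := by
  match l' with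
  | [] => simp at h
  | [m] => simp at h
  | [m, n] => simp at h
  | [m, n, k] => simp at h
  | [m, n, k, l] => simp at h; exact ⟨m, n, k, l, rfl, h.1, h.2.1, h.2.2.1, h.2.2.2⟩
  | m :: n :: k :: l :: r :: t => simp at h

/-- arithmetical relations with two arguments -/
theorem ar_iff2 {j : ℕ} (m n : ℕ) :
    II A (.ar j) [(m : Ordinal.{0}), (n : Ordinal.{0})] ↔ A j [m, n] := by
  rw [II_ar]
  constructor
  · rintro ⟨l', h, hA⟩
    obtain ⟨m', n', rfl, h1, h2⟩ := list3 h
    rw [Nat.cast_inj] at h1 h2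
    subst h1; subst h2
    exact hA
  · intro h
    exact ⟨[m, n], rfl, h⟩

theorem ar_iff4 {j : ℕ} (m n k l : ℕ) :
    II A (.ar j) [(m : Ordinal.{0}), (n : Ordinal.{0}), (k : Ordinal.{0}), (l : Ordinal.{0})] ↔
      A j [m, n, k, l] := by
  rw [II_ar]
  constructor
  · rintro ⟨l', h, hA⟩
    obtain ⟨m', n', k', l'', rfl, h1, h2, h3, h4⟩ := list4 h
    rw [Nat.cast_inj] at h1 h2 h3 h4
    subst h1; subst h2; subst h3; subst h4
    exact hA
  · intro h
    exact ⟨[m, n, k, l], rfl, h⟩

theorem Sat_ar2 {D : Set Ordinal.{0}} {j a b : ℕ} :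
    Sat (II A) D v (Fm.ar j [a, b]) ↔ II A (.ar j) [v a, v b] := Iff.rfl
theorem Sat_ar4 {D : Set Ordinal.{0}} {j a b c d : ℕ} :
    Sat (II A) D v (Fm.ar j [a, b, c, d]) ↔ II A (.ar j) [v a, v b, v c, v d] := Iff.rfl

/-- second argument of a binary arithmetical relation which is the graph of a function -/
theorem ar_graph {j : ℕ} {f : ℕ → ℕ} (hj : ∀ l, A j l ↔ ∃ q, l = [q, f q]) (q : ℕ)
    (b : Ordinal.{0}) : II A (.ar j) [(q : Ordinal.{0}), b] ↔ b = (f q : ℕ) := by
  rw [II_ar]
  constructor
  · rintro ⟨l', h, hA⟩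
    obtain ⟨m', n', rfl, h1, h2⟩ := list3 h
    rw [hj] at hA
    obtain ⟨q', h3⟩ := hA
    rw [Nat.cast_inj] at h1
    subst h1
    simp only [List.cons.injEq, and_true] at h3
    rw [h2, h3.2, h3.1]
  · rintro rfl
    exact ⟨[q, f q], rfl, (hj _).2 ⟨q, rfl⟩⟩

theorem Sat_fTr (hA : Arith A) {e d q t mu n : ℕ} (hμ : ω ≤ v mu) {q' : ℕ} (hq : v q = q')
    (h1 : e < n) (h2 : d < n) (h3 : q < n) (h4 : t < n) (h5 : mu < n) :
    Sat (II A) univ v (fTr e d q t mu n) ↔ Tr (v e) (v d) q' (v t) := by
  unfold fTr Tr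
  simp (disch := omega) only [Sat_and, Sat_neg, Sat_or, Sat_om, Sat_bexle', Sat_bex', Sat_fSucc,
    Sat_ar2, Sat_rel, List.map_cons, List.map_nil, Function.update_self, Function.update_of_ne,
    II_code, hq, ar_graph hA.a5, ar_graph hA.a6, not_lt]
  refine and_congr_right fun ht => ?_
  have key : ∀ (e d : Ordinal.{0}) (m : ℕ), (∃ a ≤ v t, a = e + 1 ∧ ∃ a_1 < v mu,
      a_1 = (m : Ordinal.{0}) ∧ d < a ∧ ∃ n : ℕ, a_1 = n ∧ v t = code a d n) ↔
      d < e + 1 ∧ v t = code (e + 1) d m := by
    intro e d m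
    constructor
    · rintro ⟨a, -, rfl, b, -, rfl, h, n, hn, h'⟩
      rw [Nat.cast_inj] at hn
      subst hn
      exact ⟨h, h'⟩
    · rintro ⟨h, h'⟩
      refine ⟨e + 1, ?_, rfl, m, lt_of_lt_of_le (natCast_lt_omega0 m) hμ, rfl, h, m, rfl, h'⟩
      rw [h']
      refine le_code h m fun h6 h7 => ?_
      subst h7
      have h8 : d = 0 := by
        rw [h6] at h
        simpa using h
      rw [h6, h8, code_one] at h'
      rw [h'] at ht
      exact absurd ht (not_le.2 (natCast_lt_omega0 0))
  rw [key, key]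

theorem mem_zR {n : ℕ} {z : Ordinal.{0}} : n ∈ zR A z ↔ EE A n z := Iff.rfl

theorem Sat_fSupp {x m mu n : ℕ} (hμ : ω ≤ v mu) (h1 : x < n) (h2 : m < n) (h3 : mu < n) :
    Sat (II A) univ v (fSupp x m mu n) ↔ v m = supp A (v x) := by
  unfold fSupp supp
  simp (disch := omega) only [Sat_and, Sat_neg, Sat_or, Sat_om, Sat_ball', Sat_imp,
    Sat_E, Sat_nat, Function.update_self, Function.update_of_ne, all_nat_iff hμ]
  constructor
  · rintro ⟨hm, h⟩
    obtain ⟨m', hm'⟩ := lt_omega0.1 hm
    rw [hm'] at h ⊢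
    rw [Nat.cast_inj]
    rcases h with ⟨h, h'⟩ | ⟨h, h'⟩
    · refine le_antisymm ?_ (Nat.sInf_le h)
      refine le_csInf ⟨m', h⟩ fun k hk => ?_
      by_contra hc
      push Not at hc
      exact h' k (by exact_mod_cast hc) hk
    · rw [Nat.cast_inj] at h
      rw [h]
      have : zR A (v x) = ∅ := by
        ext k
        simp only [mem_empty_iff_false, iff_false]
        exact h' k
      rw [this]
      simp
  · intro h
    rw [h]
    refine ⟨natCast_lt_omega0 _, ?_⟩
    rcases (zR A (v x)).eq_empty_or_nonempty with h0 | h0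
    · right
      rw [h0]
      simp only [Nat.sInf_empty, true_and]
      intro k hk
      have : k ∈ zR A (v x) := hk
      rw [h0] at this
      exact this
    · left
      refine ⟨Nat.sInf_mem h0, fun a ha ha' => ?_⟩
      obtain ⟨k, rfl⟩ := lt_omega0.1 (lt_trans ha (natCast_lt_omega0 _))
      rw [Nat.cast_lt] at ha
      exact Nat.notMem_of_lt_sInf ha ha'

theorem ar_a2 (hA : Arith A) (m i : ℕ) :
    II A (.ar 2) [(m : Ordinal.{0}), (i : Ordinal.{0})] ↔ i.unpair.1 < m := by
  rw [ar_iff2, hA.a2]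
  constructor
  · rintro ⟨m', i', h, h'⟩
    simp only [List.cons.injEq, and_true] at h
    rw [h.1, h.2]; exact h'
  · intro h
    exact ⟨m, i, rfl, h⟩

theorem ar_a0 (hA : Arith A) (p i : ℕ) :
    II A (.ar 0) [(p : Ordinal.{0}), (i : Ordinal.{0})] ↔ bit p i = some true := by
  rw [ar_iff2, hA.a0]
  constructor
  · rintro ⟨m', i', h, h'⟩
    simp only [List.cons.injEq, and_true] at h
    rw [h.1, h.2]; exact h'
  · intro h
    exact ⟨p, i, rfl, h⟩

theorem ar_a1 (hA : Arith A) (p i : ℕ) :
    II A (.ar 1) [(p : Ordinal.{0}), (i : Ordinal.{0})] ↔ bit p i = some false := by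
  rw [ar_iff2, hA.a1]
  constructor
  · rintro ⟨m', i', h, h'⟩
    simp only [List.cons.injEq, and_true] at h
    rw [h.1, h.2]; exact h'
  · intro h
    exact ⟨p, i, rfl, h⟩

theorem Sat_fInG (hA : Arith A) {m c mu n : ℕ} (hμ : ω ≤ v mu) {m' : ℕ} (hm : v m = m')
    (h1 : m < n) (h2 : c < n) (h3 : mu < n) :
    Sat (II A) univ v (fInG m c mu n) ↔ inG m' (zR A (v c)) := by
  unfold fInG inG
  simp (disch := omega) only [Sat_neg, Sat_om, Sat_ball', Sat_imp, Sat_ar2,
    Sat_E, Function.update_self, Function.update_of_ne, all_nat_iff hμ, hm, ar_a2 hA]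
  rfl

theorem Sat_fSum {a b c mu n : ℕ} (hμ : ω ≤ v mu) (h1 : a < n) (h2 : b < n) (h3 : c < n)
    (h4 : mu < n) : Sat (II A) univ v (fSum a b c mu n) ↔
      zR A (v c) = symmDiff (zR A (v a)) (zR A (v b)) := by
  unfold fSum
  simp (disch := omega) only [Sat_neg, Sat_om, Sat_ball', Sat_imp, Sat_iff,
    Sat_E, Function.update_self, Function.update_of_ne, all_nat_iff hμ]
  rw [Set.ext_iff]
  refine forall_congr' fun k => ?_
  rw [Set.mem_symmDiff]
  simp only [mem_zR]
  tauto

theorem Sat_fLe (hA : Arith A) {r p mu n : ℕ} (hμ : ω ≤ v mu) {r' p' : ℕ} (hr : v r = r')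
    (hp : v p = p') (h1 : r < n) (h2 : p < n) (h3 : mu < n) :
    Sat (II A) univ v (fLe r p mu n) ↔ leC r' p' := by
  unfold fLe leC
  simp (disch := omega) only [Sat_and, Sat_om, Sat_ball', Sat_imp, Sat_ar2,
    Function.update_self, Function.update_of_ne, all_nat_iff hμ, hr, hp, ar_a0 hA, ar_a1 hA]
  refine forall_congr' fun k => ?_
  constructor
  · rintro ⟨h, h'⟩ b hb
    cases b
    · exact h' hb
    · exact h hb
  · intro h
    exact ⟨h true, h false⟩

theorem Sat_fLeSh (hA : Arith A) {s q a mu n : ℕ} (hμ : ω ≤ v mu) {s' q' : ℕ} (hs : v s = s')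
    (hq : v q = q') (h1 : s < n) (h2 : q < n) (h3 : a < n) (h4 : mu < n) :
    Sat (II A) univ v (fLeSh s q a mu n) ↔ leSh s' q' (zR A (v a)) := by
  unfold fLeSh leSh
  simp (disch := omega) only [Sat_and, Sat_om, Sat_ball', Sat_imp, Sat_ar2, Sat_E, Sat_neg,
    Function.update_self, Function.update_of_ne, all_nat_iff hμ, hs, hq, ar_a0 hA, ar_a1 hA]
  rfl

theorem Sat_fElt (hA : Arith A) {mu x z e b q a n : ℕ} (hμ : ω ≤ v mu) {q' : ℕ} (hq : v q = q')
    (h1 : mu < n) (h2 : x < n) (h3 : z < n) (h4 : e < n) (h5 : b < n) (h6 : q < n)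
    (h7 : a < n) : Sat (II A) univ v (fElt mu x z e b q a n) ↔
      Elt A (v mu) (v x) (v z) (v e) (v b) q' (v a) := by
  have key : ∀ m c d t : Ordinal.{0},
      Sat (II A) univ (Function.update (Function.update (Function.update (Function.update v n m)
        (n + 1) c) (n + 2) d) (n + 3) t) (.and (fSupp x n mu (n+4)) (.and (fInG n (n+1) mu (n+4))
        (.and (fSum z (n+1) a mu (n+4)) (.and (fSum a (n+2) b mu (n+4)) (.and (.E (n+3) x)
        (fTr e (n+2) q (n+3) mu (n+4))))))) ↔ m = supp A (v x) ∧ inG (supp A (v x)) (zR A c) ∧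
        zR A (v a) = symmDiff (zR A (v z)) (zR A c) ∧
        zR A (v b) = symmDiff (zR A (v a)) (zR A d) ∧ EE A t (v x) ∧ Tr (v e) d q' t := by
    intro m c d t
    set w := Function.update (Function.update (Function.update (Function.update v n m)
        (n + 1) c) (n + 2) d) (n + 3) t with hw
    have w0 : ∀ k < n, w k = v k := fun k hk => by
      rw [hw]; simp (disch := omega) only [Function.update_of_ne]
    have w1 : w n = m := by
      rw [hw]; simp (disch := omega) only [Function.update_of_ne, Function.update_self]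
    have w2 : w (n + 1) = c := by
      rw [hw]; simp (disch := omega) only [Function.update_of_ne, Function.update_self]
    have w3 : w (n + 2) = d := by
      rw [hw]; simp (disch := omega) only [Function.update_of_ne, Function.update_self]
    have w4 : w (n + 3) = t := by
      rw [hw]; simp (disch := omega) only [Function.update_self]
    have hμ' : ω ≤ w mu := by rw [w0 _ h1]; exact hμ
    have hq' : w q = q' := by rw [w0 _ h6]; exact hq
    simp only [Sat_and]
    rw [Sat_fSupp hμ' (by omega) (by omega) (by omega),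
      Sat_fSum hμ' (by omega) (by omega) (by omega) (by omega),
      Sat_fSum hμ' (by omega) (by omega) (by omega) (by omega), Sat_E,
      Sat_fTr hA hμ' hq' (by omega) (by omega) (by omega) (by omega) (by omega), w1, w2, w3, w4,
      w0 _ h2, w0 _ h3, w0 _ h4, w0 _ h5, w0 _ h7]
    refine and_congr_right fun hm => and_congr_left fun _ => ?_
    rw [Sat_fInG hA hμ' (m' := supp A (v x)) (by rw [w1]; exact hm) (by omega) (by omega)
      (by omega), w2]
  unfold fElt Elt Ct
  simp (disch := omega) only [Sat_or, Sat_and (φ := (Fm.ball n x (Fm.neg (fCst x n (n+2)))))]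
  refine or_congr ?_ ?_
  · simp (disch := omega) only [Sat_and, Sat_bex', Sat_fCst,
      Function.update_self, Function.update_of_ne]
    constructor
    · rintro ⟨i, -, h, j, hj, h'⟩
      exact ⟨i, j, h, h', hj⟩
    · rintro ⟨i, j, h, h', hj⟩
      exact ⟨i, by rw [h]; exact lt_cst i, h, j, hj, h'⟩
  · have h8 : Sat (II A) univ v (.ball n x (.neg (fCst x n (n + 2)))) ↔ ¬ ∃ a, v x = cst a := by
      simp (disch := omega) only [Sat_neg, Sat_ball', Sat_fCst,
        Function.update_self, Function.update_of_ne]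
      push Not
      constructor
      · intro h a ha
        exact h a (by rw [ha]; exact lt_cst a) ha
      · intro h a _
        exact h a
    rw [h8]
    rw [Sat_bex' (by omega)]
    simp only [Sat_bex' (show mu ≠ n + 1 by omega), Sat_bex' (show mu ≠ n + 2 by omega),
      Sat_bex' (show x ≠ n + 3 by omega), key]
    simp (disch := omega) only [Function.update_of_ne]
    constructor
    · rintro ⟨h, m, -, c, hc, d, hd, t, -, -, h9, h10, h11, h12, h13⟩
      exact ⟨c, hc, d, hd, h9, h10, h11, h, t, h12, h13⟩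
    · rintro ⟨c, hc, d, hd, h9, h10, h11, h, t, h12, h13⟩
      exact ⟨h, _, lt_of_lt_of_le (natCast_lt_omega0 _) hμ, c, hc, d, hd, t, EE_lt h12, rfl, h9,
        h10, h11, h12, h13⟩

end

theorem all_nat_iff2 {μ : Ordinal.{0}} (hμ : ω ≤ μ) {P : Ordinal.{0} → Ordinal.{0} → Prop} :
    (∀ c < μ, ∀ a < μ, c < ω → P c a) ↔ ∀ n : ℕ, ∀ a < μ, P n a := by
  constructor
  · intro h n a ha
    exact h n (lt_of_lt_of_le (natCast_lt_omega0 n) hμ) a ha (natCast_lt_omega0 n)
  · rintro h c - a ha h'
    obtain ⟨n, rfl⟩ := lt_omega0.1 h'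
    exact h n a ha

theorem ex_nat_iff2 {μ : Ordinal.{0}} (hμ : ω ≤ μ) {P : Ordinal.{0} → Ordinal.{0} → Prop} :
    (∃ c < μ, ∃ a < μ, c < ω ∧ P c a) ↔ ∃ n : ℕ, ∃ a < μ, P n a := by
  constructor
  · rintro ⟨c, -, a, ha, h, h'⟩
    obtain ⟨n, rfl⟩ := lt_omega0.1 h
    exact ⟨n, a, ha, h'⟩
  · rintro ⟨n, a, ha, h⟩
    exact ⟨n, lt_of_lt_of_le (natCast_lt_omega0 n) hμ, a, ha, natCast_lt_omega0 n, h⟩

/-- readable form of the clause of the forcing relation -/
theorem F_iff {A : ℕ → List ℕ → Prop} (hA : Arith A) {μ : Ordinal.{0}} (hμ : ω ≤ μ) (p : ℕ)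
    {a b : Ordinal.{0}} (x y : Ordinal.{0}) : II A .F [μ, a, b, p, x, y] ↔
    (∀ e < x, ∀ b₁ < μ, ∀ q : ℕ, ∀ a₁ < μ, Elt A μ x a e b₁ q a₁ → ∀ r, leC r p →
      leSh r q (zR A a₁) → ∃ s, leC s r ∧ ∃ e' < y, ∃ b₂ < μ, ∃ q' : ℕ, ∃ a₂ < μ,
        Elt A μ y b e' b₂ q' a₂ ∧ leSh s q' (zR A a₂) ∧ II A .F [μ, b₁, b₂, s, e, e']) ∧
    (∀ e' < y, ∀ b₂ < μ, ∀ q' : ℕ, ∀ a₂ < μ, Elt A μ y b e' b₂ q' a₂ → ∀ r, leC r p →
      leSh r q' (zR A a₂) → ∃ s, leC s r ∧ ∃ e < x, ∃ b₁ < μ, ∃ q : ℕ, ∃ a₁ < μ,
        Elt A μ x a e b₁ q a₁ ∧ leSh s q (zR A a₁) ∧ II A .F [μ, b₁, b₂, s, e, e']) := by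
  have h0 := F_chi' A (lv [μ, a, b, p, x, y])
  have h1 : [lv [μ, a, b, p, x, y] 0, lv [μ, a, b, p, x, y] 1, lv [μ, a, b, p, x, y] 2,
    lv [μ, a, b, p, x, y] 3, lv [μ, a, b, p, x, y] 4, lv [μ, a, b, p, x, y] 5] =
    [μ, a, b, (p : Ordinal.{0}), x, y] := rfl
  rw [h1] at h0
  rw [h0]
  generalize hv : lv [μ, a, b, (p : Ordinal.{0}), x, y] = v
  have v0 : v 0 = μ := by rw [← hv]; rfl
  have v1 : v 1 = a := by rw [← hv]; rfl
  have v2 : v 2 = b := by rw [← hv]; rfl
  have v3 : v 3 = p := by rw [← hv]; rfl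
  have v4 : v 4 = x := by rw [← hv]; rfl
  have v5 : v 5 = y := by rw [← hv]; rfl
  clear hv h0 h1
  unfold chiF
  simp (disch := omega) only [Sat_and, Sat_neg, Sat_om, Sat_imp, Sat_ball', Sat_bex', Sat_lt,
    Sat_rel, II_lt, List.map_cons, List.map_nil, Function.update_self, Function.update_of_ne,
    v0, v3, v4, v5]
  rw [and_iff_right (not_lt.2 hμ), and_iff_right (natCast_lt_omega0 p)]
  refine and_congr ?_ ?_
  · refine forall₂_congr fun e he => forall₂_congr fun b₁ hb₁ => ?_
    rw [all_nat_iff2 hμ]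
    refine forall_congr' fun q => forall₂_congr fun a₁ ha₁ => ?_
    rw [Sat_fElt hA
        (by simp (disch := omega) only [Function.update_self, Function.update_of_ne, v0, v3, hμ]) (q' := q)
        (by simp (disch := omega) only [Function.update_self, Function.update_of_ne, v0, v3, hμ]) (by omega)
        (by omega) (by omega) (by omega) (by omega) (by omega) (by omega)]
    simp (disch := omega) only [Function.update_self, Function.update_of_ne, v0, v1, v2, v4, v5]
    refine imp_congr_right fun _ => ?_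
    rw [all_nat_iff hμ]
    refine forall_congr' fun r => ?_
    rw [Sat_fLe hA (by simp (disch := omega) only [Function.update_self, Function.update_of_ne, v0, v3, hμ])
      (r' := r) (p' := p)
      (by simp (disch := omega) only [Function.update_self, Function.update_of_ne, v0, v3, hμ])
      (by simp (disch := omega) only [Function.update_self, Function.update_of_ne, v0, v3, hμ])
      (by omega) (by omega) (by omega),
      Sat_fLeSh hA
      (by simp (disch := omega) only [Function.update_self, Function.update_of_ne, v0, v3, hμ])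
      (s' := r) (q' := q)
      (by simp (disch := omega) only [Function.update_self, Function.update_of_ne, v0, v3, hμ])
      (by simp (disch := omega) only [Function.update_self, Function.update_of_ne, v0, v3, hμ])
      (by omega) (by omega) (by omega) (by omega)]
    simp (disch := omega) only [Function.update_self, Function.update_of_ne, v0, v1, v2, v4, v5]
    refine imp_congr_right fun _ => imp_congr_right fun _ => ?_
    rw [ex_nat_iff hμ]
    refine exists_congr fun s => ?_
    rw [Sat_fLe hA (by simp (disch := omega) only [Function.update_self, Function.update_of_ne, v0, v3, hμ])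
      (r' := s) (p' := r)
      (by simp (disch := omega) only [Function.update_self, Function.update_of_ne, v0, v3, hμ])
      (by simp (disch := omega) only [Function.update_self, Function.update_of_ne, v0, v3, hμ])
      (by omega) (by omega) (by omega)]
    refine and_congr_right fun _ => ?_
    refine exists_congr fun e₁ => and_congr_right fun he₁ => ?_
    refine exists_congr fun b₃ => and_congr_right fun hb₃ => ?_
    rw [ex_nat_iff2 hμ]
    refine exists_congr fun q₁ => exists_congr fun a₃ => and_congr_right fun ha₃ => ?_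
    rw [Sat_fElt hA
        (by simp (disch := omega) only [Function.update_self, Function.update_of_ne, v0, v3, hμ]) (q' := q₁)
        (by simp (disch := omega) only [Function.update_self, Function.update_of_ne, v0, v3, hμ]) (by omega)
        (by omega) (by omega) (by omega) (by omega) (by omega) (by omega),
      Sat_fLeSh hA
      (by simp (disch := omega) only [Function.update_self, Function.update_of_ne, v0, v3, hμ])
      (s' := s) (q' := q₁)
      (by simp (disch := omega) only [Function.update_self, Function.update_of_ne, v0, v3, hμ])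
      (by simp (disch := omega) only [Function.update_self, Function.update_of_ne, v0, v3, hμ])
      (by omega) (by omega) (by omega) (by omega)]
    simp (disch := omega) only [Function.update_self, Function.update_of_ne, v0, v1, v2, v4, v5]
    rw [and_iff_right he]
  · refine forall₂_congr fun e' he' => forall₂_congr fun b₂ hb₂ => ?_
    rw [all_nat_iff2 hμ]
    refine forall_congr' fun q => forall₂_congr fun a₁ ha₁ => ?_
    rw [Sat_fElt hA
        (by simp (disch := omega) only [Function.update_self, Function.update_of_ne, v0, v3, hμ]) (q' := q)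
        (by simp (disch := omega) only [Function.update_self, Function.update_of_ne, v0, v3, hμ]) (by omega)
        (by omega) (by omega) (by omega) (by omega) (by omega) (by omega)]
    simp (disch := omega) only [Function.update_self, Function.update_of_ne, v0, v1, v2, v4, v5]
    refine imp_congr_right fun _ => ?_
    rw [all_nat_iff hμ]
    refine forall_congr' fun r => ?_
    rw [Sat_fLe hA (by simp (disch := omega) only [Function.update_self, Function.update_of_ne, v0, v3, hμ])
      (r' := r) (p' := p)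
      (by simp (disch := omega) only [Function.update_self, Function.update_of_ne, v0, v3, hμ])
      (by simp (disch := omega) only [Function.update_self, Function.update_of_ne, v0, v3, hμ])
      (by omega) (by omega) (by omega),
      Sat_fLeSh hA
      (by simp (disch := omega) only [Function.update_self, Function.update_of_ne, v0, v3, hμ])
      (s' := r) (q' := q)
      (by simp (disch := omega) only [Function.update_self, Function.update_of_ne, v0, v3, hμ])
      (by simp (disch := omega) only [Function.update_self, Function.update_of_ne, v0, v3, hμ])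
      (by omega) (by omega) (by omega) (by omega)]
    simp (disch := omega) only [Function.update_self, Function.update_of_ne, v0, v1, v2, v4, v5]
    refine imp_congr_right fun _ => imp_congr_right fun _ => ?_
    rw [ex_nat_iff hμ]
    refine exists_congr fun s => ?_
    rw [Sat_fLe hA (by simp (disch := omega) only [Function.update_self, Function.update_of_ne, v0, v3, hμ])
      (r' := s) (p' := r)
      (by simp (disch := omega) only [Function.update_self, Function.update_of_ne, v0, v3, hμ])
      (by simp (disch := omega) only [Function.update_self, Function.update_of_ne, v0, v3, hμ])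
      (by omega) (by omega) (by omega)]
    refine and_congr_right fun _ => ?_
    refine exists_congr fun e₁ => and_congr_right fun he₁ => ?_
    refine exists_congr fun b₃ => and_congr_right fun hb₃ => ?_
    rw [ex_nat_iff2 hμ]
    refine exists_congr fun q₁ => exists_congr fun a₃ => and_congr_right fun ha₃ => ?_
    rw [Sat_fElt hA
        (by simp (disch := omega) only [Function.update_self, Function.update_of_ne, v0, v3, hμ]) (q' := q₁)
        (by simp (disch := omega) only [Function.update_self, Function.update_of_ne, v0, v3, hμ]) (by omega)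
        (by omega) (by omega) (by omega) (by omega) (by omega) (by omega),
      Sat_fLeSh hA
      (by simp (disch := omega) only [Function.update_self, Function.update_of_ne, v0, v3, hμ])
      (s' := s) (q' := q₁)
      (by simp (disch := omega) only [Function.update_self, Function.update_of_ne, v0, v3, hμ])
      (by simp (disch := omega) only [Function.update_self, Function.update_of_ne, v0, v3, hμ])
      (by omega) (by omega) (by omega) (by omega)]
    simp (disch := omega) only [Function.update_self, Function.update_of_ne, v0, v1, v2, v4, v5]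
    rw [and_iff_right he₁]

/-- readable form of the clause of the inductive definitions -/
theorem K_iff {A : ℕ → List ℕ → Prop} (hA : Arith A) {t a : Ordinal.{0}} (ht : ω ≤ t) (n : ℕ) :
    II A .K [t, a, n] ↔ ∀ i : ℕ, ∃ j : ℕ, 2 * Nat.pair (Nat.pair n i) j ∈ zR A t ∨
      (2 * Nat.pair (Nat.pair n i) j + 1 ∈ zR A t ∧ ∃ b < a, II A .K [t, b, j]) := by
  have h0 := K_chi' A (lv [t, a, n])
  have h1 : [lv [t, a, n] 0, lv [t, a, n] 1, lv [t, a, n] 2] = [t, a, (n : Ordinal.{0})] := rfl
  rw [h1] at h0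
  rw [h0]
  generalize hv : lv [t, a, (n : Ordinal.{0})] = v
  have v0 : v 0 = t := by rw [← hv]; rfl
  have v1 : v 1 = a := by rw [← hv]; rfl
  have v2 : v 2 = n := by rw [← hv]; rfl
  clear hv h0 h1
  have h3 : ∀ i j k : ℕ, II A (.ar 3) [(n : Ordinal.{0}), (i : Ordinal.{0}), (j : Ordinal.{0}),
      (k : Ordinal.{0})] ↔ k = 2 * Nat.pair (Nat.pair n i) j := by
    intro i j k
    rw [ar_iff4, hA.a3]
    constructor
    · rintro ⟨n', i', j', h⟩
      simp only [List.cons.injEq, and_true] at h
      obtain ⟨rfl, rfl, rfl, h⟩ := h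
      exact h
    · rintro rfl
      exact ⟨n, i, j, rfl⟩
  have h4 : ∀ i j k : ℕ, II A (.ar 4) [(n : Ordinal.{0}), (i : Ordinal.{0}), (j : Ordinal.{0}),
      (k : Ordinal.{0})] ↔ k = 2 * Nat.pair (Nat.pair n i) j + 1 := by
    intro i j k
    rw [ar_iff4, hA.a4]
    constructor
    · rintro ⟨n', i', j', h⟩
      simp only [List.cons.injEq, and_true] at h
      obtain ⟨rfl, rfl, rfl, h⟩ := h
      exact h
    · rintro rfl
      exact ⟨n, i, j, rfl⟩
  unfold chiK
  simp (disch := omega) only [Sat_and, Sat_or, Sat_neg, Sat_om, Sat_imp, Sat_ball', Sat_bex',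
    Sat_lt, Sat_rel, Sat_ar4, Sat_E, II_lt, List.map_cons, List.map_nil, Function.update_self,
    Function.update_of_ne, v0, v1, v2, all_nat_iff ht, ex_nat_iff ht, h3, h4]
  rw [and_iff_right (not_lt.2 ht), and_iff_right (natCast_lt_omega0 n)]
  refine forall_congr' fun i => exists_congr fun j => or_congr ?_ ?_
  · constructor
    · rintro ⟨k, rfl, h⟩
      exact h
    · intro h
      exact ⟨_, rfl, h⟩
  · constructor
    · rintro ⟨k, rfl, h, b, hb, -, h'⟩
      exact ⟨h, b, hb, h'⟩
    · rintro ⟨h, b, hb, h'⟩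
      exact ⟨_, rfl, h, b, hb, hb, h'⟩

end Pool.Agent.CC
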