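import Mathlib
import Pool.Agent.Lib.MP_bf67b0_lc.Basics
import Pool.Agent.Lib.MP_bf67b0_lc.Coding
import Pool.Agent.Lib.MP_bf67b0_lc.Recur

/-!
P4a: reflection. There are arbitrarily large elementary initial segments of the ordinals, and
every ground model contains arbitrarily large levels satisfying all of `Sig`.
-/

set_option autoImplicit false

namespace Pool.Agent.CC

open Ordinal Set

/-- a witness for the failure of `all i φ` -/
private noncomputable def elemW (A : ℕ → List ℕ → Prop) (φ : Fm) (i : ℕ)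
    (v : ℕ → Ordinal.{0}) : Ordinal.{0} :=
  open Classical in
  if h : ∃ a, ¬ Sat (II A) Set.univ (Function.update v i a) φ then Classical.choose h else 0

/-- closing an ordinal under witnesses -/
private noncomputable def elemG (A : ℕ → List ℕ → Prop) (m : Ordinal.{0}) : Ordinal.{0} :=
  max (m + 1) (⨆ t : Fm × ℕ × (ℕ → Set.Iio m), (elemW A t.1 t.2.1 (fun k => (t.2.2 k).1) + 1))

private lemma elemG_gt (A : ℕ → List ℕ → Prop) (m : Ordinal.{0}) : m < elemG A m :=
  lt_of_lt_of_le (lt_add_one m) (le_max_left _ _)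

private lemma elemW_lt (A : ℕ → List ℕ → Prop) (m : Ordinal.{0}) (φ : Fm) (i : ℕ)
    (v : ℕ → Ordinal.{0}) (hv : ∀ k, v k < m) : elemW A φ i v < elemG A m := by
  have h1 := Ordinal.le_iSup (fun t : Fm × ℕ × (ℕ → Set.Iio m) =>
    (elemW A t.1 t.2.1 (fun k => (t.2.2 k).1) + 1)) (φ, i, fun k => ⟨v k, hv k⟩)
  have h2 : elemW A φ i v < elemW A φ i v + 1 := lt_add_one _
  exact lt_of_lt_of_le h2 (le_trans h1 (le_max_right _ _))

private lemma elem_tarski (A : ℕ → List ℕ → Prop) (m : Ordinal.{0})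
    (hm : ∀ (φ : Fm) (i : ℕ) (v : ℕ → Ordinal.{0}), (∀ k, v k < m) →
      (∃ a, ¬ Sat (II A) Set.univ (Function.update v i a) φ) →
      ∃ a < m, ¬ Sat (II A) Set.univ (Function.update v i a) φ) :
    ∀ (φ : Fm) (v : ℕ → Ordinal.{0}), (∀ k, v k < m) →
      (Sat (II A) (Set.Iio m) v φ ↔ Sat (II A) Set.univ v φ) := by
  intro φ
  induction φ with
  | bot => intro v _; rfl
  | eq i j => intro v _; rfl
  | rel R xs => intro v _; rfl
  | imp φ ψ ih1 ih2 =>
    intro v hv
    show (Sat _ _ v φ → Sat _ _ v ψ) ↔ (Sat _ _ v φ → Sat _ _ v ψ)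
    rw [ih1 v hv, ih2 v hv]
  | all i φ ih =>
    intro v hv
    have hup : ∀ a < m, ∀ k, Function.update v i a k < m := by
      intro a ha k
      by_cases hk : k = i
      · subst hk; simpa using ha
      · simpa [Function.update_of_ne hk] using hv k
    constructor
    · intro h a _
      by_contra hna
      obtain ⟨b, hb, hnb⟩ := hm φ i v hv ⟨a, hna⟩
      exact hnb ((ih _ (hup b hb)).1 (h b hb))
    · intro h a ha
      exact (ih _ (hup a ha)).2 (h a (Set.mem_univ a))

/-- reflection: there are arbitrarily large elementary initial segments -/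
theorem exists_elem (A : ℕ → List ℕ → Prop) (a : Ordinal.{0}) : ∃ m > a, ∀ φ v,
    (∀ k, v k < m) → (Sat (II A) (Set.Iio m) v φ ↔ Sat (II A) Set.univ v φ) := by
  set s : ℕ → Ordinal.{0} := fun n => (elemG A)^[n] (a + 1) with hs
  have hstep : ∀ n, s (n + 1) = elemG A (s n) := fun n => by
    simp only [hs, Function.iterate_succ_apply']
  have hmono : StrictMono s := strictMono_nat_of_lt_succ fun n => by
    rw [hstep]; exact elemG_gt A _
  have hle : ∀ n, s n ≤ ⨆ n, s n := fun n => Ordinal.le_iSup s n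
  have h0 : a < s 0 := lt_add_one a
  refine ⟨⨆ n, s n, lt_of_lt_of_le h0 (hle 0), ?_⟩
  apply elem_tarski
  intro φ i v hv hex
  -- finitely many variables
  have hfin : ∀ N : ℕ, ∃ n, ∀ k < N, v k < s n := by
    intro N
    induction N with
    | zero => exact ⟨0, fun k hk => absurd hk (Nat.not_lt_zero k)⟩
    | succ N ih =>
      obtain ⟨n, hn⟩ := ih
      obtain ⟨n', hn'⟩ := (Ordinal.lt_iSup_iff).1 (hv N)
      refine ⟨max n n', fun k hk => ?_⟩
      rcases Nat.lt_succ_iff_lt_or_eq.1 hk with h | h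
      · exact lt_of_lt_of_le (hn k h) (hmono.monotone (le_max_left _ _))
      · subst h
        exact lt_of_lt_of_le hn' (hmono.monotone (le_max_right _ _))
  obtain ⟨n, hn⟩ := hfin φ.bnd
  set v' : ℕ → Ordinal.{0} := fun k => if k < φ.bnd then v k else 0 with hv'
  have hv'n : ∀ k, v' k < s n := by
    intro k
    by_cases hk : k < φ.bnd
    · simp only [hv', if_pos hk]; exact hn k hk
    · simp only [hv', if_neg hk]
      exact lt_of_le_of_lt zero_le (lt_of_lt_of_le h0 (hmono.monotone (Nat.zero_le n)))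
  have hcongr : ∀ b, Sat (II A) Set.univ (Function.update v' i b) φ ↔
      Sat (II A) Set.univ (Function.update v i b) φ := by
    intro b
    apply Sat_congr
    intro k hk
    by_cases hki : k = i
    · subst hki; simp
    · rw [Function.update_of_ne hki, Function.update_of_ne hki]
      simp only [hv', if_pos hk]
  have hex' : ∃ b, ¬ Sat (II A) Set.univ (Function.update v' i b) φ := by
    obtain ⟨b, hb⟩ := hex
    exact ⟨b, fun h => hb ((hcongr b).1 h)⟩
  refine ⟨elemW A φ i v', ?_, ?_⟩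
  · refine lt_of_lt_of_le ?_ (hle (n + 1))
    rw [hstep]
    exact elemW_lt A (s n) φ i v' hv'n
  · intro h
    rw [← hcongr] at h
    unfold elemW at h
    rw [dif_pos hex'] at h
    exact Classical.choose_spec hex' h

/-! ### universal closures -/

/-- universal closure in the variables below `n` -/
private def elemClo : ℕ → Fm → Fm
  | 0, φ => φ
  | n + 1, φ => elemClo n (Fm.all n φ)

private lemma elemClo_mem_Sig (n : ℕ) : ∀ φ ∈ Sig, elemClo n φ ∈ Sig := by
  induction n with
  | zero => intro φ h; exact h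
  | succ n ih =>
    intro φ h
    apply ih
    intro A v a _
    exact h A _

private lemma elemClo_sat {M : Type*} {I : Sy → List M → Prop} {D : Set M} (n : ℕ) :
    ∀ (φ : Fm) (w v : ℕ → M), Sat I D w (elemClo n φ) → (∀ k < n, v k ∈ D) →
      (∀ k, n ≤ k → v k = w k) → Sat I D v φ := by
  induction n with
  | zero =>
    intro φ w v h _ h2
    have : v = w := funext fun k => h2 k (Nat.zero_le k)
    rw [this]
    exact h
  | succ n ih =>
    intro φ w v h h1 h2
    have h3 := ih (Fm.all n φ) w (Function.update v n (w n)) h (by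
      intro k hk
      rw [Function.update_of_ne (by omega)]
      exact h1 k (by omega)) (by
      intro k hk
      by_cases hkn : k = n
      · subst hkn; simp
      · rw [Function.update_of_ne hkn]
        exact h2 k (by omega))
    have h4 := h3 (v n) (h1 n (by omega))
    rwa [Function.update_idem, Function.update_eq_self] at h4

private lemma elem_fm_surj (φ : Fm) : ∃ i, 2 ≤ i ∧ fm i = φ := by
  obtain ⟨n, hn⟩ := Classical.choose_spec (@exists_surjective_nat Fm ⟨Fm.bot⟩ inferInstance) φ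
  refine ⟨n + 2, by omega, ?_⟩
  unfold fm
  rw [if_neg (by omega)]
  exact hn

/-! ### satisfaction of compound formulas -/

section
variable {M : Type*} {I : Sy → List M → Prop} {D : Set M} {v : ℕ → M} {φ ψ : Fm}

private lemma elemS_neg : Sat I D v (Fm.neg φ) ↔ ¬ Sat I D v φ := Iff.rfl
private lemma elemS_imp : Sat I D v (Fm.imp φ ψ) ↔ (Sat I D v φ → Sat I D v ψ) := Iff.rfl
private lemma elemS_and : Sat I D v (Fm.and φ ψ) ↔ (Sat I D v φ ∧ Sat I D v ψ) := by
  show ¬ (Sat I D v φ → ¬ Sat I D v ψ) ↔ _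
  tauto
private lemma elemS_all {i : ℕ} : Sat I D v (Fm.all i φ) ↔
    ∀ a ∈ D, Sat I D (Function.update v i a) φ := Iff.rfl
private lemma elemS_ex {i : ℕ} : Sat I D v (Fm.ex i φ) ↔
    ∃ a ∈ D, Sat I D (Function.update v i a) φ := by
  show ¬ (∀ a ∈ D, ¬ Sat I D (Function.update v i a) φ) ↔ _
  push Not
  rfl
end

/-- the sentence: there are arbitrarily large levels satisfying all formulas with index in
the `j`-th relation -/
private def elemTheta (j : ℕ) : Fm :=
  Fm.ex 1 (Fm.and (Fm.lt 0 1) (Fm.all 2 (Fm.imp (Fm.and (Fm.om 2) (Fm.ar j [2]))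
    (Fm.all 3 (Fm.imp (Fm.nat 0 3)
      (Fm.ex 4 (Fm.and (Fm.rel .code [1, 3, 2, 4]) (Fm.E 3 4))))))))

private lemma elemTheta_sat (A : ℕ → List ℕ → Prop) (j : ℕ) (D : Set Ordinal.{0})
    (v : ℕ → Ordinal.{0}) : Sat (II A) D v (elemTheta j) ↔
    ∃ m ∈ D, v 0 < m ∧ ∀ i ∈ D, (i < ω ∧ (∃ l' : List ℕ,
      [i] = l'.map (fun n : ℕ => (n : Ordinal.{0})) ∧ A j l')) → ∀ z ∈ D, z = ((0 : ℕ) : Ordinal.{0}) →
      ∃ c ∈ D, (z < m ∧ ∃ n : ℕ, i = n ∧ c = code m z n) ∧ EE A z c := by
  unfold elemTheta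
  simp only [elemS_ex, elemS_and, elemS_all, elemS_imp]
  simp only [Fm.lt, Fm.om, Fm.ar, Fm.nat, Fm.E, Sat, List.map, Function.update_apply]
  simp only [II, IE, base]
  simp

/-- every ground model contains, above each of its elements, a level satisfying all of `Sig`
(if `Sig` is one of the arithmetical relations) -/
theorem Good.theta {A : ℕ → List ℕ → Prop} {κ : Ordinal.{0}} (h : Good A κ) {j : ℕ}
    (hj : ∀ l, A j l ↔ ∃ i, l = [i] ∧ fm i ∈ Sig ∧ 2 ≤ i) : ∀ x < κ, ∃ m < κ, x < m ∧
    ∀ φ ∈ Sig, ∀ v, (∀ k, v k < m) → Sat (II A) (Set.Iio m) v φ := by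
  -- all natural numbers are below `κ`
  have hsucc : ∀ x < κ, ∃ y < κ, x < y := by
    intro x hx
    have := h.valid (Fm.ex 1 (Fm.lt 0 1)) (by
      intro v
      rw [elemS_ex]
      exact ⟨v 0 + 1, Set.mem_univ _, by
        show (Function.update v 1 (v 0 + 1)) 0 < (Function.update v 1 (v 0 + 1)) 1
        simp⟩) (fun _ => x) (fun _ => hx)
    rw [elemS_ex] at this
    obtain ⟨y, hy, hxy⟩ := this
    refine ⟨y, hy, ?_⟩
    have h2 : (Function.update (fun _ => x) 1 y : ℕ → Ordinal.{0}) 0 <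
      (Function.update (fun _ => x) 1 y : ℕ → Ordinal.{0}) 1 := hxy
    simpa using h2
  have hnat : ∀ n : ℕ, (n : Ordinal.{0}) < κ := by
    intro n
    induction n with
    | zero => simpa using h.pos
    | succ n ih =>
      obtain ⟨y, hy, hny⟩ := hsucc _ ih
      refine lt_of_le_of_lt ?_ hy
      have := Order.succ_le_of_lt hny
      simpa [Order.succ_eq_add_one] using this
  -- the sentence holds in the universe
  have hval : ∀ v, Sat (II A) Set.univ v (elemTheta j) := by
    intro v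
    rw [elemTheta_sat]
    obtain ⟨m, hm, hel⟩ := exists_elem A (v 0)
    have hm0 : (0 : Ordinal.{0}) < m := lt_of_le_of_lt zero_le hm
    refine ⟨m, Set.mem_univ _, hm, ?_⟩
    rintro i - ⟨hi, l', hl', hA⟩ z - hz
    obtain ⟨i', rfl, hsig, h2⟩ := (hj l').1 hA
    have hi' : i = (i' : Ordinal.{0}) := by simpa using hl'
    have hz0 : z = 0 := by simpa using hz
    subst hz0
    refine ⟨code m 0 i', Set.mem_univ _, ⟨hm0, i', hi', rfl⟩, ?_⟩
    rw [EE_iff A hm0]
    refine ⟨hm0, le_code hm0 i' (fun _ => by omega), ?_⟩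
    rw [hel (fm i') _ (fun k => by unfold vv; split_ifs <;> exact hm0)]
    exact hsig A _
  intro x hx
  have := h.valid (elemTheta j) hval (fun _ => x) (fun _ => hx)
  rw [elemTheta_sat] at this
  obtain ⟨m, hmκ, hxm, hall⟩ := this
  refine ⟨m, hmκ, hxm, ?_⟩
  intro φ hφ v hv
  obtain ⟨i, hi2, hi⟩ := elem_fm_surj (elemClo φ.bnd φ)
  have hsig : fm i ∈ Sig := by rw [hi]; exact elemClo_mem_Sig _ φ hφ
  have hAj : A j [i] := (hj [i]).2 ⟨i, rfl, hsig, hi2⟩
  obtain ⟨c, -, ⟨hz, n, hn, hc⟩, hE⟩ := hall (i : Ordinal.{0}) (hnat i)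
    ⟨Ordinal.natCast_lt_omega0 i, [i], by simp, hAj⟩ 0 h.pos (by simp)
  have hn' : i = n := by exact_mod_cast hn
  subst hn'
  rw [hc, EE_iff A hz] at hE
  have hsat := hE.2.2
  rw [hi] at hsat
  -- truncate the valuation
  set v' : ℕ → Ordinal.{0} := fun k => if k < φ.bnd then v k else vv 0 0 k with hv'
  have h1 : Sat (II A) (Set.Iio m) v' φ := by
    refine elemClo_sat φ.bnd φ (vv 0 0) v' hsat ?_ ?_
    · intro k hk
      simp only [hv', if_pos hk]
      exact hv k
    · intro k hk
      simp only [hv', if_neg (not_lt.2 hk)]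
  refine (Sat_congr ?_).1 h1
  intro k hk
  simp only [hv', if_pos hk]

end Pool.Agent.CC
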