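import Mathlib
import Pool.Agent.Lib.MP_bf67b0_lc.Defs
import Pool.Agent.Lib.MP_bf67b0_lc.Basics
import Pool.Agent.Lib.MP_bf67b0_lc.Coding
import Pool.Agent.Lib.MP_bf67b0_lc.Recur
import Pool.Agent.Lib.MP_bf67b0_lc.Elem

/-!
# Comprehension for all ordinals; definability of constants and codes
-/

set_option autoImplicit false

namespace Pool.Agent.CC

open Ordinal Set

section lower

variable (A : ℕ → List ℕ → Prop)

/-- change of the index family -/
theorem Df.pull {S S' M : Type*} {I : S → Sy → List M → Prop} {D : S → Set M}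
    {P : S → (ℕ → M) → Prop} (h : Df I D P) (f : S' → S) :
    Df (fun s => I (f s)) (fun s => D (f s)) (fun s => P (f s)) := by
  obtain ⟨φ, hφ⟩ := h
  exact ⟨φ, fun s v hv => hφ (f s) v hv⟩

theorem Df_lt' (i j : ℕ) :
    Df (fun _ : {D : Set Ordinal.{0} // IsLowerSet D} => II A) (fun s => s.1)
      (fun _ v => v i < v j) :=
  Df.rel (I := fun _ : {D : Set Ordinal.{0} // IsLowerSet D} => II A) .lt [i, j]

theorem Df_nat' (n i : ℕ) :
    Df (fun _ : {D : Set Ordinal.{0} // IsLowerSet D} => II A) (fun s => s.1)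
      (fun _ v => v i = n) :=
  Df.rel (I := fun _ : {D : Set Ordinal.{0} // IsLowerSet D} => II A) (.nat n) [i]

/-- successor: `v 0 = v 1 + 1` -/
theorem Df_succ' :
    Df (fun _ : {D : Set Ordinal.{0} // IsLowerSet D} => II A) (fun s => s.1)
      (fun _ v => v 0 = v 1 + 1) := by
  have h1 : Df (fun _ : {D : Set Ordinal.{0} // IsLowerSet D} => II A) (fun s => s.1)
      (fun s v => v 1 < v 0 ∧ ∀ a ∈ s.1, (a < v 0 → ¬ v 1 < a)) :=
    (Df_lt' A 1 0).and (Df.all (Q := fun s a v => (a < v 0 → ¬ v 1 < a))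
      ((Df_lt' A 0 1).imp (Df_lt' A 2 0).not))
  refine h1.congr fun s v hv => ⟨fun h => ?_, fun h => ?_⟩
  · refine le_antisymm ?_ (Order.add_one_le_of_lt h.1)
    by_contra hlt
    push Not at hlt
    exact h.2 (v 1 + 1) (s.2 hlt.le (hv 0)) hlt (Order.lt_add_one_iff.2 le_rfl)
  · rw [h]
    refine ⟨Order.lt_add_one_iff.2 le_rfl, fun a _ ha => ?_⟩
    exact not_lt.2 (Order.lt_add_one_iff.1 ha)

theorem nat_le_code (l s : Ordinal.{0}) (i : ℕ) : (i : Ordinal.{0}) ≤ code l s i := by
  unfold code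
  exact le_add_self

theorem Df_code (i : ℕ) :
    Df (fun _ : {D : Set Ordinal.{0} // IsLowerSet D} => II A) (fun s => s.1)
      (fun _ v => v 1 < v 0 ∧ v 2 = code (v 0) (v 1) i) := by
  have h0 : Df (fun _ : {D : Set Ordinal.{0} // IsLowerSet D} => II A) (fun s => s.1)
      (fun s v => II A .code [v 1, v 2, v 0, v 3]) :=
    Df.rel (I := fun _ : {D : Set Ordinal.{0} // IsLowerSet D} => II A) .code [1, 2, 0, 3]
  have h1 : Df (fun _ : {D : Set Ordinal.{0} // IsLowerSet D} => II A) (fun s => s.1)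
      (fun s v => ∃ a ∈ s.1, (a = i ∧ II A .code [v 0, v 1, a, v 2])) :=
    Df.ex (Q := fun (_ : {D : Set Ordinal.{0} // IsLowerSet D}) (a : Ordinal.{0})
      (v : ℕ → Ordinal.{0}) => (a = i ∧ II A .code [v 0, v 1, a, v 2])) ((Df_nat' A i 0).and h0)
  refine h1.congr fun s v hv => ⟨?_, fun h => ?_⟩
  · rintro ⟨a, -, rfl, h, n, hn, h2⟩
    have : i = n := by exact_mod_cast hn
    subst this
    exact ⟨h, h2⟩
  · refine ⟨i, s.2 ?_ (hv 2), rfl, h.1, i, rfl, h.2⟩
    rw [h.2]
    exact nat_le_code _ _ _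

theorem Df_cst :
    Df (fun _ : {D : Set Ordinal.{0} // IsLowerSet D} => II A) (fun s => s.1)
      (fun _ v => v 0 = cst (v 1)) := by
  have h1 : Df (fun _ : {D : Set Ordinal.{0} // IsLowerSet D} => II A) (fun s => s.1)
      (fun s v => ∃ l ∈ s.1, ∃ o ∈ s.1, (l = v 1 + 1 ∧ (o = (0 : ℕ) ∧
        (o < l ∧ v 0 = code l o 1)))) := by
    refine Df.ex (Q := fun (s : {D : Set Ordinal.{0} // IsLowerSet D}) (l : Ordinal.{0})
        (v : ℕ → Ordinal.{0}) => ∃ o ∈ s.1, (l = v 1 + 1 ∧ (o = (0 : ℕ) ∧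
        (o < l ∧ v 0 = code l o 1)))) ?_
    refine Df.ex (Q := fun (s : {D : Set Ordinal.{0} // IsLowerSet D}) (o : Ordinal.{0})
        (v : ℕ → Ordinal.{0}) => (v 0 = v 2 + 1 ∧ (o = (0 : ℕ) ∧
        (o < v 0 ∧ v 1 = code (v 0) o 1)))) ?_
    refine Df.and ?_ (Df.and (Df_nat' A 0 0) ?_)
    · exact (Df_succ' A).subst (fun k => if k = 0 then 1 else 3)
    · exact (Df_code A 1).subst (fun k => if k = 0 then 1 else if k = 1 then 0 else 2)
  refine h1.congr fun s v hv => ⟨?_, fun h => ?_⟩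
  · rintro ⟨l, -, o, -, rfl, rfl, -, h⟩
    rw [h, cst]
    norm_num
  · have hl : v 1 + 1 ≤ v 0 := by
      rw [h]; exact Order.add_one_le_of_lt (lt_cst _)
    refine ⟨v 1 + 1, s.2 hl (hv 0), 0, s.2 zero_le (hv 0), rfl, by norm_num,
      lt_of_le_of_lt zero_le (Order.lt_add_one_iff.2 (le_refl (v 1))), ?_⟩
    rw [h, cst]

end lower

/-! ### merging finitely many parameters -/

/-- definable over all ordinals -/
def DfU (A : ℕ → List ℕ → Prop) (P : (ℕ → Ordinal.{0}) → Prop) : Prop :=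
  Df (fun _ : Unit => II A) (fun _ => Set.univ) (fun _ => P)

/-- the valuation `e, s, r 0, r 1, ...` -/
def vals (e s : Ordinal.{0}) (r : ℕ → Ordinal.{0}) : ℕ → Ordinal.{0}
  | 0 => e
  | 1 => s
  | k + 2 => r k

/-- prepend `q` -/
def vcons (q : Ordinal.{0}) (r : ℕ → Ordinal.{0}) : ℕ → Ordinal.{0}
  | 0 => q
  | k + 1 => r k

/-- prepend `p 0, ..., p (j - 1)` -/
def vapp (p : ℕ → Ordinal.{0}) (j : ℕ) (r : ℕ → Ordinal.{0}) (k : ℕ) : Ordinal.{0} :=
  if k < j then p k else r (k - j)

/-- variable `1` is a pair, which is decoded to the variables `1, 2` -/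
def plusR (R : (ℕ → Ordinal.{0}) → Prop) (v : ℕ → Ordinal.{0}) : Prop :=
  ∃ s' q : Ordinal.{0}, (q < s' + 1 ∧ v 1 = code (s' + 1) q (0 : ℕ)) ∧
    R (vals (v 0) s' (vcons q (fun k => v (k + 2))))

theorem DfU.plus {A : ℕ → List ℕ → Prop} {R : (ℕ → Ordinal.{0}) → Prop} (h : DfU A R) :
    DfU A (plusR R) := by
  have hU : IsLowerSet (Set.univ : Set Ordinal.{0}) := fun _ _ _ _ => trivial
  have hs : DfU A (fun v => v 0 = v 1 + 1) := (Df_succ' A).pull (fun _ : Unit => ⟨Set.univ, hU⟩)
  have hc : DfU A (fun v => v 1 < v 0 ∧ v 2 = code (v 0) (v 1) 0) :=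
    (Df_code A 0).pull (fun _ : Unit => ⟨Set.univ, hU⟩)
  have h1 : DfU A (fun v => ∃ s' ∈ Set.univ, ∃ q ∈ Set.univ, ∃ l' ∈ Set.univ,
      (l' = s' + 1 ∧ ((q < l' ∧ v 1 = code l' q (0 : ℕ)) ∧
        R (vals (v 0) s' (vcons q (fun k => v (k + 2))))))) := by
    refine Df.ex (Q := fun (_ : Unit) (s' : Ordinal.{0}) (v : ℕ → Ordinal.{0}) =>
      ∃ q ∈ Set.univ, ∃ l' ∈ Set.univ,
      (l' = s' + 1 ∧ ((q < l' ∧ v 1 = code l' q (0 : ℕ)) ∧
        R (vals (v 0) s' (vcons q (fun k => v (k + 2))))))) ?_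
    refine Df.ex (Q := fun (_ : Unit) (q : Ordinal.{0}) (v : ℕ → Ordinal.{0}) =>
      ∃ l' ∈ Set.univ, (l' = v 0 + 1 ∧ ((q < l' ∧ v 2 = code l' q (0 : ℕ)) ∧
        R (vals (v 1) (v 0) (vcons q (fun k => v (k + 3))))))) ?_
    refine Df.ex (Q := fun (_ : Unit) (l' : Ordinal.{0}) (v : ℕ → Ordinal.{0}) =>
      (l' = v 1 + 1 ∧ ((v 0 < l' ∧ v 3 = code l' (v 0) (0 : ℕ)) ∧
        R (vals (v 2) (v 1) (vcons (v 0) (fun k => v (k + 4))))))) ?_
    refine Df.and ?_ (Df.and ?_ ?_)
    · exact hs.subst (fun k => if k = 0 then 0 else 2)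
    · exact hc.subst (fun k => if k = 0 then 0 else if k = 1 then 1 else 4)
    · refine (h.subst (fun k => if k = 0 then 3 else if k = 1 then 2 else if k = 2 then 1
        else k + 2)).congr fun _ v _ => ?_
      refine iff_of_eq (congrArg R ?_)
      funext k
      match k with
      | 0 => rfl
      | 1 => rfl
      | 2 => rfl
      | k + 3 => rfl
  refine h1.congr fun _ v _ => ⟨?_, ?_⟩
  · rintro ⟨s', -, q, -, l', -, rfl, h2, h3⟩
    exact ⟨s', q, h2, h3⟩
  · rintro ⟨s', q, h2, h3⟩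
    exact ⟨s', trivial, q, trivial, s' + 1, trivial, rfl, h2, h3⟩

/-- the code of the base `B` and of `p 0, ..., p (j - 1)` -/
noncomputable def encP (B : Ordinal.{0}) (p : ℕ → Ordinal.{0}) : ℕ → Ordinal.{0}
  | 0 => B
  | j + 1 => code (encP B p j + 1) (p j) 0

theorem le_encP {B : Ordinal.{0}} {p : ℕ → Ordinal.{0}} {n : ℕ} (hp : ∀ j < n, p j < B) :
    ∀ j ≤ n, B ≤ encP B p j := by
  intro j
  induction j with
  | zero => intro _; exact le_rfl
  | succ j ih =>
    intro hj
    have h1 := ih (by omega)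
    have h2 := hp j (by omega)
    have h3 : p j < encP B p j + 1 := lt_of_lt_of_le (h2.trans_le h1) le_self_add
    have hB : 0 < B := lt_of_le_of_lt zero_le h2
    refine le_trans (h1.trans le_self_add) (le_code h3 0 fun h => ?_)
    have h4 : encP B p j = 0 := by
      have : encP B p j + 1 = 0 + 1 := by rw [h, zero_add]
      exact Order.add_one_inj.1 this
    exact absurd (hB.trans_le h1) (by rw [h4]; exact lt_irrefl _)

theorem iter_plusR {B : Ordinal.{0}} {p : ℕ → Ordinal.{0}} {n : ℕ} (hp : ∀ j < n, p j < B)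
    (R : (ℕ → Ordinal.{0}) → Prop) (e : Ordinal.{0}) : ∀ j ≤ n, ∀ r : ℕ → Ordinal.{0},
    ((plusR^[j] R) (vals e (encP B p j) r) ↔ R (vals e B (vapp p j r))) := by
  intro j
  induction j with
  | zero =>
    intro _ r
    have : vapp p 0 r = r := by funext k; simp [vapp]
    rw [this]; rfl
  | succ j ih =>
    intro hj r
    have hj' : j < n := by omega
    have h3 : p j < encP B p j + 1 :=
      lt_of_lt_of_le ((hp j hj').trans_le (le_encP hp j hj'.le)) le_self_add
    rw [Function.iterate_succ_apply']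
    have key : plusR (plusR^[j] R) (vals e (encP B p (j + 1)) r) ↔
        (plusR^[j] R) (vals e (encP B p j) (vcons (p j) r)) := by
      constructor
      · rintro ⟨s', q, ⟨h1, h2⟩, h4⟩
        have h2' : code (encP B p j + 1) (p j) 0 = code (s' + 1) q 0 := h2
        obtain ⟨h5, h6, -⟩ := (code_inj h3 h1).1 h2'
        have h7 : encP B p j = s' := Order.add_one_inj.1 h5
        subst h7
        subst h6
        exact h4
      · intro h
        exact ⟨encP B p j, p j, ⟨h3, rfl⟩, h⟩
    rw [key, ih (by omega)]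
    have : vapp p j (vcons (p j) r) = vapp p (j + 1) r := by
      funext k
      unfold vapp
      by_cases h : k < j
      · rw [if_pos h, if_pos (by omega)]
      · rw [if_neg h]
        by_cases h' : k = j
        · subst h'
          rw [if_pos (by omega), Nat.sub_self]; rfl
        · rw [if_neg (by omega)]
          obtain ⟨d, rfl⟩ : ∃ d, k = j + 1 + d := ⟨k - (j + 1), by omega⟩
          have e1 : j + 1 + d - j = d + 1 := by omega
          have e2 : j + 1 + d - (j + 1) = d := by omega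
          rw [e1, e2]; rfl
    rw [this]

theorem DfU.iter {A : ℕ → List ℕ → Prop} {R : (ℕ → Ordinal.{0}) → Prop} (h : DfU A R) (n : ℕ) :
    DfU A (plusR^[n] R) := by
  induction n with
  | zero => exact h
  | succ n ih => rw [Function.iterate_succ_apply']; exact ih.plus

/-- comprehension for all ordinals -/
theorem comp_univ (A : ℕ → List ℕ → Prop) (φ : Fm) (v : ℕ → Ordinal.{0}) (l : Ordinal.{0}) :
    ∃ x, (¬ ∃ a, x = cst a) ∧
      ∀ e, EE A e x ↔ e < l ∧ Sat (II A) Set.univ (Function.update v 0 e) φ := by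
  classical
  set n : ℕ := φ.bnd + 1 with hn
  set p : ℕ → Ordinal.{0} := fun j => if j = 0 then l else v j with hp
  set B : Ordinal.{0} := (Finset.range n).sup p + 1 with hB
  have hpB : ∀ j < n, p j < B := fun j hj =>
    Order.lt_add_one_iff.2 (Finset.le_sup (f := p) (Finset.mem_range.2 hj))
  set R : (ℕ → Ordinal.{0}) → Prop := fun w => w 0 < w 2 ∧
    Sat (II A) Set.univ (fun k => w (if k = 0 then 0 else k + 2)) φ with hR
  have hRdf : DfU A R := by
    refine Df.and (Df.rel (I := fun _ : Unit => II A) .lt [0, 2]) ?_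
    have h1 : DfU A (fun w => Sat (II A) Set.univ w φ) := ⟨φ, fun _ _ _ => Iff.rfl⟩
    exact h1.subst (fun k => if k = 0 then 0 else k + 2)
  obtain ⟨ψ, hψ⟩ := hRdf.iter n
  obtain ⟨m, hm, helem⟩ := exists_elem A (encP B p n)
  obtain ⟨i0, hi0⟩ := Classical.choose_spec (@exists_surjective_nat Fm ⟨Fm.bot⟩ inferInstance) ψ
  have hfm : fm (i0 + 2) = ψ := by
    unfold fm
    rw [if_neg (by omega), Nat.add_sub_cancel]
    exact hi0
  refine ⟨code m (encP B p n) (i0 + 2), ?_, fun e => ?_⟩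
  · rintro ⟨a, ha⟩
    have h0 : (0 : Ordinal.{0}) < a + 1 := lt_of_le_of_lt zero_le (Order.lt_add_one_iff.2 le_rfl)
    have := ((code_inj hm h0).1 ha).2.2
    omega
  · rw [EE_iff A hm, hfm]
    have hle : m ≤ code m (encP B p n) (i0 + 2) := le_code hm _ fun _ => by omega
    have hlm : l < m := by
      have h1 := hpB 0 (by omega)
      rw [hp] at h1
      simp only [if_true] at h1
      exact (h1.trans_le (le_encP hpB n le_rfl)).trans hm
    have hkey : ∀ e < m, (Sat (II A) (Set.Iio m) (vv e (encP B p n)) ψ ↔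
        e < l ∧ Sat (II A) Set.univ (Function.update v 0 e) φ) := by
      intro e he
      rw [helem ψ (vv e (encP B p n)) (fun k => by
        unfold vv
        split_ifs
        · exact he
        · exact hm)]
      rw [hψ () _ (fun _ => trivial)]
      have e1 : vv e (encP B p n) = vals e (encP B p n) (fun _ => encP B p n) := by
        funext k
        match k with
        | 0 => rfl
        | 1 => rfl
        | k + 2 => rfl
      rw [e1]
      refine (iter_plusR hpB R e n le_rfl _).trans (and_congr ?_ ?_)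
      · show e < vapp p n (fun _ => encP B p n) 0 ↔ e < l
        have : vapp p n (fun _ => encP B p n) 0 = l := by
          unfold vapp
          rw [if_pos (by omega), hp]; rfl
        rw [this]
      · refine Sat_congr fun k hk => ?_
        by_cases h0 : k = 0
        · subst h0
          simp only [if_true, Function.update_self]
          rfl
        · rw [if_neg h0, Function.update_of_ne h0]
          show vapp p n (fun _ => encP B p n) k = v k
          unfold vapp
          rw [if_pos (by omega), hp]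
          exact if_neg h0
    constructor
    · rintro ⟨h1, -, h2⟩
      exact (hkey e h1).1 h2
    · rintro ⟨h1, h2⟩
      exact ⟨h1.trans hlm, hle, (hkey e (h1.trans hlm)).2 ⟨h1, h2⟩⟩

end Pool.Agent.CC
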