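import Mathlib
import Pool.Agent.Lib.MP_bf67b0_lc.Defs
import Pool.Agent.Lib.MP_bf67b0_lc.Basics
import Pool.Agent.Lib.MP_bf67b0_lc.Coding
import Pool.Agent.Lib.MP_bf67b0_lc.Compr

/-!
# Definability below `κ` with parameters

`DP A κ C P`: the predicate `P` of valuations is definable over the ground model `κ` with
parameters from `C`; `DT A κ C T`: the same for a function `T` of valuations with values below `κ`.
-/

set_option autoImplicit false

namespace Pool.Agent.CC

open Ordinal Set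

/-- valuations -/
abbrev Ov := ℕ → Ordinal.{0}

/-- the tail of a valuation -/
def ts (v : Ov) : Ov := fun k => v (k + 1)

@[simp] theorem ts_apply (v : Ov) (k : ℕ) : ts v k = v (k + 1) := rfl

/-- interleaving -/
def mix (v c : Ov) : Ov := fun k => if k % 2 = 0 then v (k / 2) else c (k / 2)

theorem mix_even (v c : Ov) (k : ℕ) : mix v c (2 * k) = v k := by simp [mix]
theorem mix_odd (v c : Ov) (k : ℕ) : mix v c (2 * k + 1) = c k := by
  have h1 : (2 * k + 1) % 2 = 1 := by omega
  have h2 : (2 * k + 1) / 2 = k := by omega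
  simp [mix, h1, h2]

theorem mix_lt {κ : Ordinal.{0}} {v c : Ov} (hv : ∀ k, v k < κ) (hc : ∀ k, c k < κ) (k : ℕ) :
    mix v c k < κ := by
  unfold mix; split_ifs; exacts [hv _, hc _]

variable {A : ℕ → List ℕ → Prop} {κ μ : Ordinal.{0}}

/-! ### definability without parameters -/

theorem D0.congr {P Q : Ov → Prop} (h : D0 A κ P) (hPQ : ∀ v, (∀ k, v k < κ) → (P v ↔ Q v)) :
    D0 A κ Q := Df.congr h fun _ v hv => hPQ v hv

theorem D0.and {P Q : Ov → Prop} (h : D0 A κ P) (h' : D0 A κ Q) :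
    D0 A κ (fun v => P v ∧ Q v) := Df.and h h'
theorem D0.or {P Q : Ov → Prop} (h : D0 A κ P) (h' : D0 A κ Q) :
    D0 A κ (fun v => P v ∨ Q v) := Df.or h h'
theorem D0.imp {P Q : Ov → Prop} (h : D0 A κ P) (h' : D0 A κ Q) :
    D0 A κ (fun v => P v → Q v) := Df.imp h h'
theorem D0.not {P : Ov → Prop} (h : D0 A κ P) : D0 A κ (fun v => ¬ P v) := Df.not h
theorem D0.const (p : Prop) : D0 A κ (fun _ => p) := Df.const p
theorem D0.subst {P : Ov → Prop} (h : D0 A κ P) (ρ : ℕ → ℕ) :
    D0 A κ (fun v => P (fun k => v (ρ k))) := Df.subst h ρ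
theorem D0.all {Q : Ordinal.{0} → Ov → Prop} (h : D0 A κ (fun v => Q (v 0) (ts v))) :
    D0 A κ (fun v => ∀ a < κ, Q a v) := Df.all (Q := fun _ => Q) h
theorem D0.ex {Q : Ordinal.{0} → Ov → Prop} (h : D0 A κ (fun v => Q (v 0) (ts v))) :
    D0 A κ (fun v => ∃ a < κ, Q a v) := Df.ex (Q := fun _ => Q) h
theorem D0.rel (R : Sy) (xs : List ℕ) : D0 A κ (fun v => II A R (xs.map v)) :=
  Df.rel (I := fun _ : Unit => II A) R xs

/-- definitions uniform in all initial segments -/
theorem D0.ofLower {P : Ov → Prop}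
    (h : Df (fun _ : {D : Set Ordinal.{0} // IsLowerSet D} => II A) (fun s => s.1)
      (fun _ => P)) : D0 A κ P :=
  Df.pull h (fun _ : Unit => ⟨Set.Iio κ, isLowerSet_Iio κ⟩)

/-! ### definability with parameters -/

/-- `P` is definable with parameters from `C` -/
def DP (A : ℕ → List ℕ → Prop) (κ : Ordinal.{0}) (C : Set Ordinal.{0}) (P : Ov → Prop) : Prop :=
  ∃ Q, D0 A κ Q ∧ ∃ c : Ov, (∀ k, c k ∈ C) ∧ ∀ v, (∀ k, v k < κ) → (P v ↔ Q (mix v c))

/-- the function `T` is definable with parameters from `C`, with values below `κ` -/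
def DT (A : ℕ → List ℕ → Prop) (κ : Ordinal.{0}) (C : Set Ordinal.{0}) (T : Ov → Ordinal.{0}) :
    Prop :=
  DP A κ C (fun v => v 0 = T (ts v)) ∧ ∀ v, (∀ k, v k < κ) → T v < κ

/-- sets of parameters -/
structure PC (κ : Ordinal.{0}) (C : Set Ordinal.{0}) : Prop where
  zero : 0 ∈ C
  lt : ∀ a ∈ C, a < κ
  om : ω < κ

variable {C : Set Ordinal.{0}}

theorem DP.congr {P Q : Ov → Prop} (h : DP A κ C P)
    (hPQ : ∀ v, (∀ k, v k < κ) → (P v ↔ Q v)) : DP A κ C Q := by
  obtain ⟨R, hR, c, hc, h1⟩ := h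
  exact ⟨R, hR, c, hc, fun v hv => (hPQ v hv).symm.trans (h1 v hv)⟩

theorem DP.mono {C' : Set Ordinal.{0}} {P : Ov → Prop} (h : DP A κ C P) (hC : C ⊆ C') :
    DP A κ C' P := by
  obtain ⟨R, hR, c, hc, h1⟩ := h
  exact ⟨R, hR, c, fun k => hC (hc k), h1⟩

theorem D0.dp {P : Ov → Prop} (h : D0 A κ P) (hC : PC κ C) : DP A κ C P := by
  refine ⟨fun w => P (fun k => w (2 * k)), h.subst _, fun _ => 0, fun _ => hC.zero,
    fun v _ => ?_⟩
  simp only [mix_even]

theorem DP.not {P : Ov → Prop} (h : DP A κ C P) : DP A κ C (fun v => ¬ P v) := by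
  obtain ⟨R, hR, c, hc, h1⟩ := h
  exact ⟨_, hR.not, c, hc, fun v hv => not_congr (h1 v hv)⟩

theorem DP.imp {P Q : Ov → Prop} (h : DP A κ C P) (h' : DP A κ C Q) :
    DP A κ C (fun v => P v → Q v) := by
  obtain ⟨R, hR, c, hc, h1⟩ := h
  obtain ⟨R', hR', c', hc', h1'⟩ := h'
  have h2 := (hR.subst (fun k => if k % 2 = 0 then k else 4 * (k / 2) + 1)).imp
    (hR'.subst (fun k => if k % 2 = 0 then k else 4 * (k / 2) + 3))
  refine ⟨_, h2, mix c c', fun k => ?_, fun v hv => ?_⟩
  · unfold mix; split_ifs; exacts [hc _, hc' _]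
  · show (P v → Q v) ↔ _
    rw [h1 v hv, h1' v hv]
    have e1 : mix v c = fun k => mix v (mix c c') (if k % 2 = 0 then k else 4 * (k / 2) + 1) := by
      funext k
      by_cases hk : k % 2 = 0
      · simp [mix, hk]
      · have h3 : (4 * (k / 2) + 1) % 2 = 1 := by omega
        have h4 : (4 * (k / 2) + 1) / 2 = 2 * (k / 2) := by omega
        simp only [hk, if_false]
        rw [mix, if_neg hk, mix, if_neg (by omega), h4, mix_even]
    have e2 : mix v c' = fun k => mix v (mix c c') (if k % 2 = 0 then k else 4 * (k / 2) + 3) := by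
      funext k
      by_cases hk : k % 2 = 0
      · simp [mix, hk]
      · have h3 : (4 * (k / 2) + 3) % 2 = 1 := by omega
        have h4 : (4 * (k / 2) + 3) / 2 = 2 * (k / 2) + 1 := by omega
        simp only [hk, if_false]
        rw [mix, if_neg hk, mix, if_neg (by omega), h4, mix_odd]
    rw [← e1, ← e2]

theorem DP.and {P Q : Ov → Prop} (h : DP A κ C P) (h' : DP A κ C Q) :
    DP A κ C (fun v => P v ∧ Q v) :=
  ((h.imp h'.not).not).congr fun v _ => by tauto

theorem DP.or {P Q : Ov → Prop} (h : DP A κ C P) (h' : DP A κ C Q) :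
    DP A κ C (fun v => P v ∨ Q v) :=
  (h.not.imp h').congr fun v _ => by tauto

theorem DP.iff {P Q : Ov → Prop} (h : DP A κ C P) (h' : DP A κ C Q) :
    DP A κ C (fun v => (P v ↔ Q v)) :=
  ((h.imp h').and (h'.imp h)).congr fun v _ => by tauto

theorem DP.const (hC : PC κ C) (p : Prop) : DP A κ C (fun _ => p) := (D0.const p).dp hC

theorem DP.subst {P : Ov → Prop} (h : DP A κ C P) (ρ : ℕ → ℕ) :
    DP A κ C (fun v => P (fun k => v (ρ k))) := by
  obtain ⟨R, hR, c, hc, h1⟩ := h
  refine ⟨_, hR.subst (fun k => if k % 2 = 0 then 2 * ρ (k / 2) else k), c, hc, fun v hv => ?_⟩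
  refine (h1 _ (fun k => hv (ρ k))).trans ?_
  refine iff_of_eq (congrArg R ?_)
  funext k
  by_cases hk : k % 2 = 0
  · simp only [hk, if_true, mix_even]
    rw [mix, if_pos hk]
  · simp only [hk, if_false]
    rw [mix, if_neg hk, mix, if_neg hk]

theorem DP.all {Q : Ordinal.{0} → Ov → Prop}
    (h : DP A κ C (fun v => Q (v 0) (ts v))) : DP A κ C (fun v => ∀ a < κ, Q a v) := by
  obtain ⟨R, hR, c, hc, h1⟩ := h
  have h2 : D0 A κ (fun w => R (fun k => w (if k = 0 then 0 else if k % 2 = 0 then k - 1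
    else k + 1))) := hR.subst _
  have h3 := D0.all (Q := fun a w => R (fun k => if k = 0 then a else w (if k % 2 = 0 then k - 2
    else k))) (h2.congr fun v _ => iff_of_eq (congrArg R (by
      funext k
      rcases Nat.eq_zero_or_pos k with rfl | hk
      · simp
      · by_cases hk2 : k % 2 = 0
        · simp only [hk.ne', if_false, hk2, if_true, ts_apply]
          congr 1; omega
        · simp only [hk.ne', if_false, hk2, ts_apply])))
  refine ⟨_, h3, c, hc, fun v hv => ?_⟩
  refine forall₂_congr fun a ha => ?_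
  have h4 := h1 (fun k => if k = 0 then a else v (k - 1)) (fun k => by
    split_ifs; exacts [ha, hv _])
  have e : ts (fun k => if k = 0 then a else v (k - 1)) = v := by funext k; simp
  simp only [if_true] at h4
  rw [e] at h4
  rw [h4]
  refine iff_of_eq (congrArg R ?_)
  funext k
  rcases Nat.eq_zero_or_pos k with rfl | hk
  · simp [mix]
  · by_cases hk2 : k % 2 = 0
    · simp only [hk.ne', if_false, hk2, if_true]
      rw [mix, if_pos hk2, if_neg (by omega), mix, if_pos (by omega)]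
      congr 1; omega
    · simp only [hk.ne', if_false, hk2]
      rw [mix, if_neg hk2, mix, if_neg hk2]

theorem DP.ex {Q : Ordinal.{0} → Ov → Prop}
    (h : DP A κ C (fun v => Q (v 0) (ts v))) : DP A κ C (fun v => ∃ a < κ, Q a v) := by
  refine ((DP.all (Q := fun a v => ¬ Q a v) h.not).not).congr fun v _ => ?_
  push Not
  rfl

/-- a definition which uses only definable parameters -/
theorem DP.d0 {P : Ov → Prop} (h : DP A κ C P) (hC : C ⊆ {0}) (h0 : 0 < κ) : D0 A κ P := by
  obtain ⟨R, hR, c, hc, h1⟩ := h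
  have hz : D0 A κ (fun v => v 0 = 0) := (D0.rel (.nat 0) [0]).congr fun v _ => by
    show v 0 = ((0 : ℕ) : Ordinal.{0}) ↔ _
    rw [Nat.cast_zero]
  have h2 : D0 A κ (fun w => R (fun k => w (if k % 2 = 0 then k / 2 + 1 else 0))) := hR.subst _
  have h3 := D0.ex (Q := fun a w => a = 0 ∧ R (fun k => if k % 2 = 0 then w (k / 2) else a))
    (hz.and (h2.congr fun v _ => iff_of_eq (congrArg R (by
      funext k
      by_cases hk2 : k % 2 = 0
      · simp only [hk2, if_true, ts_apply]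
      · simp only [hk2, if_false]))))
  refine h3.congr fun v hv => ?_
  rw [h1 v hv]
  have e : mix v c = fun k => if k % 2 = 0 then v (k / 2) else 0 := by
    funext k
    have := hC (hc (k / 2))
    simp only [mem_singleton_iff] at this
    simp [mix, this]
  rw [e]
  constructor
  · rintro ⟨a, -, rfl, h⟩; exact h
  · intro h; exact ⟨0, h0, rfl, h⟩

/-! ### terms -/

theorem DP.app {Q : Ordinal.{0} → Ov → Prop} {T : Ov → Ordinal.{0}}
    (h : DP A κ C (fun v => Q (v 0) (ts v))) (hT : DT A κ C T) :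
    DP A κ C (fun v => Q (T v) v) := by
  refine (DP.ex (Q := fun a v => a = T v ∧ Q a v) (hT.1.and h)).congr fun v hv => ?_
  constructor
  · rintro ⟨a, -, rfl, h⟩; exact h
  · intro h; exact ⟨_, hT.2 v hv, rfl, h⟩

theorem DT.subst {T : Ov → Ordinal.{0}} (h : DT A κ C T) (ρ : ℕ → ℕ) :
    DT A κ C (fun v => T (fun k => v (ρ k))) := by
  refine ⟨?_, fun v hv => h.2 _ fun k => hv _⟩
  have := h.1.subst (fun k => if k = 0 then 0 else ρ (k - 1) + 1)
  exact this.congr fun v _ => by rfl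

theorem DT.shift {T : Ov → Ordinal.{0}} (h : DT A κ C T) : DT A κ C (fun v => T (ts v)) :=
  h.subst (fun k => k + 1)

theorem DP.shift {P : Ov → Prop} (h : DP A κ C P) : DP A κ C (fun v => P (ts v)) :=
  h.subst (fun k => k + 1)

theorem DT.var (hC : PC κ C) (i : ℕ) : DT A κ C (fun v => v i) := by
  refine ⟨?_, fun v hv => hv i⟩
  have h : D0 A κ (fun v => v 0 = v (i + 1)) := Df.eq 0 (i + 1)
  exact h.dp hC

theorem DT.const (hC : PC κ C) {a : Ordinal.{0}} (ha : a ∈ C) : DT A κ C (fun _ => a) := by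
  refine ⟨?_, fun v _ => hC.lt a ha⟩
  exact ⟨fun w => w 0 = w 1, Df.eq 0 1, fun _ => a, fun _ => ha, fun v _ => Iff.rfl⟩

theorem DT.nat (hC : PC κ C) (n : ℕ) : DT A κ C (fun _ => (n : Ordinal.{0})) := by
  refine ⟨?_, fun v _ => (natCast_lt_omega0 n).trans hC.om⟩
  exact (D0.rel (A := A) (κ := κ) (.nat n) [0]).dp hC

theorem DT.mu (hC : PC κ C) (hμ : D0 A κ (fun v => v 0 = μ)) (hlt : μ < κ) :
    DT A κ C (fun _ => μ) := ⟨hμ.dp hC, fun _ _ => hlt⟩

/-- relation symbols applied to terms -/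
theorem DP.rel (hC : PC κ C) (R : Sy) (Ts : List (Ov → Ordinal.{0})) (h : ∀ T ∈ Ts, DT A κ C T) :
    DP A κ C (fun v => II A R (Ts.map fun T => T v)) := by
  have key : ∀ (n : ℕ) (Ts : List (Ov → Ordinal.{0})) (ys : List ℕ), Ts.length = n →
      (∀ T ∈ Ts, DT A κ C T) → DP A κ C (fun v => II A R (ys.map v ++ Ts.map fun T => T v)) := by
    intro n
    induction n with
    | zero =>
      intro Ts ys hn _
      rw [List.length_eq_zero_iff] at hn
      subst hn
      refine ((D0.rel (A := A) (κ := κ) R ys).dp hC).congr fun v _ => ?_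
      simp
    | succ n ih =>
      intro Ts ys hn hT
      match Ts, hn, hT with
      | T :: Ts, hn, hT =>
      have hTs : ∀ T' ∈ Ts.map (fun T v => T (ts v)), DT A κ C T' := by
        intro T' hT'
        obtain ⟨T'', h2, rfl⟩ := List.mem_map.1 hT'
        exact (hT T'' (List.mem_cons_of_mem _ h2)).shift
      have h1 := ih (Ts.map (fun T v => T (ts v))) (ys.map (· + 1) ++ [0])
        (by simpa using hn) hTs
      have h2 := DP.app (Q := fun a v => II A R (ys.map v ++ a :: Ts.map fun T => T v))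
        (T := T) (h1.congr fun v _ => ?_) (hT T List.mem_cons_self)
      · simpa using h2
      · refine iff_of_eq (congrArg (II A R) ?_)
        simp only [List.map_append, List.map_map, List.append_assoc, List.map_cons, List.map_nil,
          List.singleton_append]
        rfl
  simpa using key _ Ts [] rfl h

/-! ### atomic formulas -/

section
variable (hC : PC κ C) {s t : Ov → Ordinal.{0}}
include hC

theorem DP.lt (hs : DT A κ C s) (ht : DT A κ C t) : DP A κ C (fun v => s v < t v) :=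
  DP.rel hC .lt [s, t] (by simp [hs, ht])

theorem DP.eq (hs : DT A κ C s) (ht : DT A κ C t) : DP A κ C (fun v => s v = t v) := by
  have h0 : DP A κ C (fun v => v 0 = v 1) := (show D0 A κ (fun v => v 0 = v 1) from
    Df.eq 0 1).dp hC
  have h1 : DP A κ C (fun v => v 0 = t (ts v)) :=
    DP.app (Q := fun a v => v 0 = a) (T := fun v => t (ts v))
      (show DP A κ C (fun v => v 1 = v 0) from h0.congr fun v _ => eq_comm) ht.shift
  exact DP.app (Q := fun a v => a = t v) h1 hs

theorem DP.le (hs : DT A κ C s) (ht : DT A κ C t) : DP A κ C (fun v => s v ≤ t v) :=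
  (DP.lt hC ht hs).not.congr fun v _ => not_lt

theorem DP.om (hs : DT A κ C s) : DP A κ C (fun v => s v < ω) :=
  DP.rel hC .om [s] (by simp [hs])

theorem DP.E (hs : DT A κ C s) (ht : DT A κ C t) : DP A κ C (fun v => EE A (s v) (t v)) :=
  DP.rel hC .E [s, t] (by simp [hs, ht])

theorem DP.exlt {Q : Ordinal.{0} → Ov → Prop} (ht : DT A κ C t)
    (h : DP A κ C (fun v => Q (v 0) (ts v))) : DP A κ C (fun v => ∃ a < t v, Q a v) := by
  refine (DP.ex (Q := fun a v => a < t v ∧ Q a v)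
    ((DP.lt hC (DT.var hC 0) ht.shift).and h)).congr fun v hv => ?_
  constructor
  · rintro ⟨a, -, h⟩; exact ⟨a, h⟩
  · rintro ⟨a, h1, h2⟩; exact ⟨a, h1.trans (ht.2 v hv), h1, h2⟩

theorem DP.alllt {Q : Ordinal.{0} → Ov → Prop} (ht : DT A κ C t)
    (h : DP A κ C (fun v => Q (v 0) (ts v))) : DP A κ C (fun v => ∀ a < t v, Q a v) := by
  refine ((DP.exlt hC (Q := fun a v => ¬ Q a v) ht h.not).not).congr fun v _ => ?_
  push Not
  rfl

theorem DP.exle {Q : Ordinal.{0} → Ov → Prop} (ht : DT A κ C t)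
    (h : DP A κ C (fun v => Q (v 0) (ts v))) : DP A κ C (fun v => ∃ a ≤ t v, Q a v) := by
  refine (DP.ex (Q := fun a v => a ≤ t v ∧ Q a v)
    ((DP.le hC (DT.var hC 0) ht.shift).and h)).congr fun v hv => ?_
  constructor
  · rintro ⟨a, -, h⟩; exact ⟨a, h⟩
  · rintro ⟨a, h1, h2⟩; exact ⟨a, h1.trans_lt (ht.2 v hv), h1, h2⟩

end

/-! ### natural numbers -/

/-- the natural number which equals the ordinal `a` (`0` if there is none) -/
noncomputable def nt (a : Ordinal.{0}) : ℕ := sInf {n : ℕ | a = n}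

@[simp] theorem nt_cast (n : ℕ) : nt (n : Ordinal.{0}) = n := by
  have : {m : ℕ | (n : Ordinal.{0}) = m} = {n} := by
    ext m
    simp only [mem_ofPred_eq, mem_singleton_iff, Nat.cast_inj]
    exact eq_comm
  rw [nt, this, csInf_singleton]

theorem nt_of_lt {a : Ordinal.{0}} (h : a < ω) : ((nt a : ℕ) : Ordinal.{0}) = a := by
  obtain ⟨n, rfl⟩ := lt_omega0.1 h
  rw [nt_cast]

theorem nt_of_not_lt {a : Ordinal.{0}} (h : ¬ a < ω) : nt a = 0 := by
  have : {m : ℕ | a = m} = ∅ := by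
    ext m
    simp only [mem_ofPred_eq, mem_empty_iff_false, iff_false]
    rintro rfl
    exact h (natCast_lt_omega0 m)
  rw [nt, this, Nat.sInf_empty]

/-- definable functions with values in the natural numbers -/
def DN (A : ℕ → List ℕ → Prop) (κ : Ordinal.{0}) (C : Set Ordinal.{0}) (N : Ov → ℕ) : Prop :=
  DT A κ C (fun v => (N v : Ordinal.{0}))

theorem DT.ofDP {T : Ov → Ordinal.{0}}
    (h : DP A κ C (fun v => v 0 = T (ts v))) (hT : ∀ v, (∀ k, v k < κ) → T v < κ) :
    DT A κ C T := ⟨h, hT⟩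

theorem DN.ofDP (hC : PC κ C) {N : Ov → ℕ}
    (h : DP A κ C (fun v => v 0 < ω ∧ nt (v 0) = N (ts v))) : DN A κ C N := by
  refine ⟨h.congr fun v _ => ?_, fun v _ => (natCast_lt_omega0 _).trans hC.om⟩
  show _ ↔ v 0 = (N (ts v) : Ordinal.{0})
  constructor
  · rintro ⟨h1, h2⟩
    rw [← h2, nt_of_lt h1]
  · intro h
    rw [h]
    exact ⟨natCast_lt_omega0 _, nt_cast _⟩

theorem DN.ofnt (hC : PC κ C) {t : Ov → Ordinal.{0}} (ht : DT A κ C t) :
    DN A κ C (fun v => nt (t v)) := by
  refine ⟨?_, fun v _ => (natCast_lt_omega0 _).trans hC.om⟩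
  have h1 : DP A κ C (fun v => (t (ts v) < ω ∧ v 0 = t (ts v)) ∨
      (¬ t (ts v) < ω ∧ v 0 = ((0 : ℕ) : Ordinal.{0}))) :=
    ((DP.om hC ht.shift).and (DP.eq hC (DT.var hC 0) ht.shift)).or
      ((DP.om hC ht.shift).not.and (DP.eq hC (DT.var hC 0) (DT.nat hC 0)))
  refine h1.congr fun v _ => ?_
  by_cases h : t (ts v) < ω
  · simp only [h, true_and, not_true, false_and, or_false, nt_of_lt h]
  · simp only [h, false_and, not_false_iff, true_and, false_or, nt_of_not_lt h]

theorem DN.var (hC : PC κ C) (i : ℕ) : DN A κ C (fun v => nt (v i)) := DN.ofnt hC (DT.var hC i)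

theorem DN.const (hC : PC κ C) (n : ℕ) : DN A κ C (fun _ => n) := DT.nat hC n

theorem DN.shift {N : Ov → ℕ} (h : DN A κ C N) : DN A κ C (fun v => N (ts v)) := DT.shift h

theorem DN.dt {N : Ov → ℕ} (h : DN A κ C N) : DT A κ C (fun v => (N v : Ordinal.{0})) := h

theorem DP.appN {Q : ℕ → Ov → Prop} {N : Ov → ℕ}
    (h : DP A κ C (fun v => Q (nt (v 0)) (ts v))) (hN : DN A κ C N) :
    DP A κ C (fun v => Q (N v) v) :=
  (DP.app (Q := fun a v => Q (nt a) v) h hN.dt).congr fun v _ => by simp only [nt_cast]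

theorem DP.exN (hC : PC κ C) {Q : ℕ → Ov → Prop} (h : DP A κ C (fun v => Q (nt (v 0)) (ts v))) :
    DP A κ C (fun v => ∃ n : ℕ, Q n v) := by
  refine (DP.ex (Q := fun a v => Q (nt a) v) h).congr fun v _ => ?_
  constructor
  · rintro ⟨a, -, h⟩; exact ⟨_, h⟩
  · rintro ⟨n, h⟩
    exact ⟨n, (natCast_lt_omega0 _).trans hC.om, by simpa using h⟩

theorem DP.allN (hC : PC κ C) {Q : ℕ → Ov → Prop} (h : DP A κ C (fun v => Q (nt (v 0)) (ts v))) :
    DP A κ C (fun v => ∀ n : ℕ, Q n v) := by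
  refine ((DP.exN hC (Q := fun a v => ¬ Q a v) h.not).not).congr fun v _ => ?_
  push Not
  rfl

section
variable (hC : PC κ C)
include hC

/-- arithmetical relations -/
theorem DP.ar (j : ℕ) (Ns : List (Ov → ℕ)) (h : ∀ N ∈ Ns, DN A κ C N) :
    DP A κ C (fun v => A j (Ns.map fun N => N v)) := by
  refine (DP.rel (A := A) (C := C) hC (.ar j)
    (Ns.map (fun N v => (N v : Ordinal.{0}))) ?_).congr fun v _ => ?_
  · intro T hT
    obtain ⟨N, h1, rfl⟩ := List.mem_map.1 hT
    exact h N h1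
  · have inj : Function.Injective (List.map (fun n : ℕ => (n : Ordinal.{0}))) :=
      List.map_injective_iff.2 Nat.cast_injective
    constructor
    · rintro ⟨l', h1, h2⟩
      have : l' = Ns.map fun N => N v := by
        apply inj
        rw [← h1, List.map_map, List.map_map]
        rfl
      rwa [← this]
    · intro h2
      refine ⟨_, ?_, h2⟩
      rw [List.map_map, List.map_map]
      rfl

variable {m n : Ov → ℕ} {s t : Ov → Ordinal.{0}}

theorem DP.nlt (hm : DN A κ C m) (hn : DN A κ C n) : DP A κ C (fun v => m v < n v) :=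
  (DP.lt hC hm.dt hn.dt).congr fun _ _ => Nat.cast_lt

theorem DP.neq (hm : DN A κ C m) (hn : DN A κ C n) : DP A κ C (fun v => m v = n v) :=
  (DP.eq hC hm.dt hn.dt).congr fun _ _ => Nat.cast_inj

theorem DP.nle (hm : DN A κ C m) (hn : DN A κ C n) : DP A κ C (fun v => m v ≤ n v) :=
  (DP.nlt hC hn hm).not.congr fun v _ => not_lt

theorem DP.fzR (hn : DN A κ C n) (ht : DT A κ C t) : DP A κ C (fun v => n v ∈ zR A (t v)) :=
  DP.E hC hn.dt ht

theorem DP.fbit (hA : Arith A) (hm : DN A κ C m) (hn : DN A κ C n) (b : Bool) :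
    DP A κ C (fun v => bit (m v) (n v) = some b) := by
  cases b
  · refine (DP.ar (A := A) hC 1 [m, n] (by simp [hm, hn])).congr fun v _ => ?_
    rw [hA.a1]
    simp only [List.map_cons, List.map_nil, List.cons.injEq, and_true]
    constructor
    · rintro ⟨p, i, ⟨rfl, rfl⟩, h⟩; exact h
    · intro h; exact ⟨_, _, ⟨rfl, rfl⟩, h⟩
  · refine (DP.ar (A := A) hC 0 [m, n] (by simp [hm, hn])).congr fun v _ => ?_
    rw [hA.a0]
    simp only [List.map_cons, List.map_nil, List.cons.injEq, and_true]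
    constructor
    · rintro ⟨p, i, ⟨rfl, rfl⟩, h⟩; exact h
    · intro h; exact ⟨_, _, ⟨rfl, rfl⟩, h⟩

theorem DP.fleC (hA : Arith A) (hm : DN A κ C m) (hn : DN A κ C n) :
    DP A κ C (fun v => leC (m v) (n v)) := by
  refine (DP.allN (A := A) hC (Q := fun i v => (bit (n v) i = some true →
      bit (m v) i = some true) ∧ (bit (n v) i = some false →
      bit (m v) i = some false)) ?_).congr fun v _ => ?_
  · exact ((DP.fbit hC hA hn.shift (DN.var hC 0) true).imp
      (DP.fbit hC hA hm.shift (DN.var hC 0) true)).and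
      ((DP.fbit hC hA hn.shift (DN.var hC 0) false).imp
      (DP.fbit hC hA hm.shift (DN.var hC 0) false))
  · constructor
    · intro h i b
      cases b
      exacts [(h i).2, (h i).1]
    · intro h i
      exact ⟨h i true, h i false⟩

theorem DP.fleSh (hA : Arith A) (hm : DN A κ C m) (hn : DN A κ C n) (ht : DT A κ C t) :
    DP A κ C (fun v => leSh (m v) (n v) (zR A (t v))) := by
  have e0 : DN A κ C (fun v => nt (v 0)) := DN.var hC 0
  refine DP.allN (A := A) hC (Q := fun i v =>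
    (bit (n v) i = some true → (i ∈ zR A (t v) → bit (m v) i = some false) ∧
      (i ∉ zR A (t v) → bit (m v) i = some true)) ∧
    (bit (n v) i = some false → (i ∈ zR A (t v) → bit (m v) i = some true) ∧
      (i ∉ zR A (t v) → bit (m v) i = some false))) ?_
  exact (((DP.fbit hC hA hn.shift e0 true).imp
    (((DP.fzR hC e0 ht.shift).imp (DP.fbit hC hA hm.shift e0 false)).and
      ((DP.fzR hC e0 ht.shift).not.imp (DP.fbit hC hA hm.shift e0 true)))).and
    ((DP.fbit hC hA hn.shift e0 false).imp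
    (((DP.fzR hC e0 ht.shift).imp (DP.fbit hC hA hm.shift e0 true)).and
      ((DP.fzR hC e0 ht.shift).not.imp (DP.fbit hC hA hm.shift e0 false)))))

theorem DP.finG (hA : Arith A) (hm : DN A κ C m) (ht : DT A κ C t) :
    DP A κ C (fun v => inG (m v) (zR A (t v))) := by
  have e0 : DN A κ C (fun v => nt (v 0)) := DN.var hC 0
  refine (DP.allN (A := A) hC (Q := fun i v => A 2 [m v, i] → i ∉ zR A (t v)) ?_).congr
    fun v _ => ?_
  · exact (DP.ar (A := A) hC 2 [fun v => m (ts v), fun v => nt (v 0)]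
      (by simp [hm.shift, e0])).imp (DP.fzR hC e0 ht.shift).not
  · refine forall_congr' fun i => ?_
    rw [hA.a2]
    constructor
    · intro h h1; exact h ⟨_, _, rfl, h1⟩
    · rintro h ⟨a, b, h1, h2⟩
      simp only [List.cons.injEq, and_true] at h1
      obtain ⟨rfl, rfl⟩ := h1
      exact h h2

/-- `a = b Δ c` for coded reals -/
theorem DP.symm {r : Ov → Ordinal.{0}} (hr : DT A κ C r) (hs : DT A κ C s) (ht : DT A κ C t) :
    DP A κ C (fun v => zR A (r v) = symmDiff (zR A (s v)) (zR A (t v))) := by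
  have e0 : DN A κ C (fun v => nt (v 0)) := DN.var hC 0
  refine (DP.allN (A := A) hC (Q := fun i v => (i ∈ zR A (r v) ↔ (i ∈ zR A (s v) ↔
    i ∉ zR A (t v)))) ?_).congr fun v _ => ?_
  · exact (DP.fzR hC e0 hr.shift).iff ((DP.fzR hC e0 hs.shift).iff (DP.fzR hC e0 ht.shift).not)
  · rw [Set.ext_iff]
    refine forall_congr' fun i => ?_
    rw [Set.mem_symmDiff]
    tauto

theorem DN.fsupp (ht : DT A κ C t) : DN A κ C (fun v => supp A (t v)) := by
  have e0 : DN A κ C (fun v => nt (v 0)) := DN.var hC 0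
  refine DN.ofDP hC ?_
  have h1 : DP A κ C (fun v => v 0 < ω ∧ ((nt (v 0) ∈ zR A (t (ts v)) ∧
      ∀ k : ℕ, k < nt (v 0) → k ∉ zR A (t (ts v))) ∨
      (nt (v 0) = 0 ∧ ∀ k : ℕ, k ∉ zR A (t (ts v))))) := by
    refine (DP.om hC (DT.var hC 0)).and (((DP.fzR hC e0 ht.shift).and ?_).or
      ((DP.neq hC e0 (DN.const hC 0)).and ?_))
    · exact DP.allN hC (Q := fun k v => k < nt (v 0) → k ∉ zR A (t (ts v)))
        ((DP.nlt hC (DN.var hC 0) (DN.var hC 1)).imp
          (DP.fzR hC (DN.var hC 0) ht.shift.shift).not)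
    · exact DP.allN hC (Q := fun k v => k ∉ zR A (t (ts v)))
          (DP.fzR hC (DN.var hC 0) ht.shift.shift).not
  refine h1.congr fun v _ => ?_
  refine and_congr_right fun _ => ?_
  show _ ↔ nt (v 0) = sInf (zR A (t (ts v)))
  constructor
  · rintro (⟨h2, h3⟩ | ⟨h2, h3⟩)
    · refine le_antisymm ?_ (Nat.sInf_le h2)
      by_contra hlt
      push Not at hlt
      exact h3 _ hlt (Nat.sInf_mem ⟨_, h2⟩)
    · have : zR A (t (ts v)) = ∅ := Set.eq_empty_iff_forall_notMem.2 h3
      rw [this, h2, Nat.sInf_empty]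
  · intro h2
    rcases (zR A (t (ts v))).eq_empty_or_nonempty with h3 | h3
    · right
      refine ⟨by rw [h2, h3, Nat.sInf_empty], fun k => by rw [h3]; simp⟩
    · left
      rw [h2]
      exact ⟨Nat.sInf_mem h3, fun k hk => Nat.notMem_of_lt_sInf hk⟩

/-! ### codes -/

theorem DP.fcst (hs : DT A κ C s) (ht : DT A κ C t) : DP A κ C (fun v => s v = cst (t v)) := by
  have h0 : DP A κ C (fun v => v 0 = cst (v 1)) := (D0.ofLower (Df_cst A)).dp hC
  have h1 : DP A κ C (fun v => v 0 = cst (t (ts v))) :=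
    DP.app (Q := fun a v => v 0 = cst a) (T := fun v => t (ts v))
      (show DP A κ C (fun v => v 1 = cst (v 0)) from
        h0.subst (fun k => if k = 0 then 1 else 0)) ht.shift
  exact DP.app (Q := fun a v => a = cst (t v)) h1 hs

theorem DP.isCst (hs : DT A κ C s) : DP A κ C (fun v => ∃ a, s v = cst a) := by
  refine (DP.ex (Q := fun a v => s v = cst a) (DP.fcst hC hs.shift (DT.var hC 0))).congr
    fun v hv => ?_
  constructor
  · rintro ⟨a, -, h⟩; exact ⟨a, h⟩
  · rintro ⟨a, h⟩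
    exact ⟨a, (lt_cst a).trans_le (h ▸ (hs.2 v hv).le), h⟩

/-- `s < l ∧ x = code l s i` for terms -/
theorem DP.fcode {l x : Ov → Ordinal.{0}} {i : Ov → ℕ} (hl : DT A κ C l) (hs : DT A κ C s)
    (hi : DN A κ C i) (hx : DT A κ C x) :
    DP A κ C (fun v => s v < l v ∧ x v = code (l v) (s v) (i v)) := by
  refine (DP.rel (A := A) hC .code [l, s, fun v => (i v : Ordinal.{0}), x] (by
    simp only [List.mem_cons, List.not_mem_nil, or_false, forall_eq_or_imp, forall_eq]
    exact ⟨hl, hs, hi, hx⟩)).congr fun v _ => ?_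
  refine and_congr_right fun _ => ?_
  show (∃ n : ℕ, (i v : Ordinal.{0}) = n ∧ x v = code (l v) (s v) n) ↔ _
  constructor
  · rintro ⟨n, h1, h2⟩
    rw [Nat.cast_inj] at h1
    rw [h1, h2]
  · intro h; exact ⟨i v, rfl, h⟩

theorem DP.succ (hs : DT A κ C s) (ht : DT A κ C t) : DP A κ C (fun v => s v = t v + 1) := by
  have h0 : DP A κ C (fun v => v 0 = v 1 + 1) := (D0.ofLower (Df_succ' A)).dp hC
  have h1 : DP A κ C (fun v => v 0 = t (ts v) + 1) :=
    DP.app (Q := fun a v => v 0 = a + 1) (T := fun v => t (ts v))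
      (show DP A κ C (fun v => v 1 = v 0 + 1) from
        h0.subst (fun k => if k = 0 then 1 else 0)) ht.shift
  exact DP.app (Q := fun a v => a = t v + 1) h1 hs

/-- closure of naturals under a definable operation given by its graph -/
theorem DN.fn {f : ℕ → ℕ} {j : ℕ} (hj : ∀ l, A j l ↔ ∃ q, l = [q, f q]) (hm : DN A κ C m) :
    DN A κ C (fun v => f (m v)) := by
  refine DN.ofDP hC ?_
  have h1 : DP A κ C (fun v => v 0 < ω ∧ A j [m (ts v), nt (v 0)]) :=
    (DP.om hC (DT.var hC 0)).and (DP.ar (A := A) hC j [fun v => m (ts v), fun v => nt (v 0)]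
      (by simp [hm.shift, DN.var hC 0]))
  refine h1.congr fun v _ => and_congr_right fun _ => ?_
  rw [hj]
  constructor
  · rintro ⟨q, h⟩
    simp only [List.cons.injEq, and_true] at h
    obtain ⟨h1, h2⟩ := h
    rw [h2, h1]
  · intro h
    exact ⟨m (ts v), by rw [h]⟩

theorem DP.fTr (hA : Arith A) {e d x : Ov → Ordinal.{0}} {q : Ov → ℕ} (he : DT A κ C e)
    (hd : DT A κ C d) (hq : DN A κ C q) (hx : DT A κ C x) :
    DP A κ C (fun v => Tr (e v) (d v) (q v) (x v)) := by
  have q2 : DN A κ C (fun v => 2 * q v) := DN.fn hC (f := fun q => 2 * q) hA.a5 hq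
  have q21 : DN A κ C (fun v => 2 * q v + 1) := DN.fn hC (f := fun q => 2 * q + 1) hA.a6 hq
  have h1 : DP A κ C (fun v => ∃ l < κ, l = e v + 1 ∧ (d v < l ∧ x v = code l (d v)
      (2 * q v))) :=
    DP.ex (Q := fun l v => l = e v + 1 ∧ (d v < l ∧ x v = code l (d v) (2 * q v)))
      ((DP.succ hC (DT.var hC 0) he.shift).and
        (DP.fcode hC (DT.var hC 0) hd.shift q2.shift hx.shift))
  have h2 : DP A κ C (fun v => ∃ l < κ, l = d v + 1 ∧ (e v < l ∧ x v = code l (e v)
      (2 * q v + 1))) :=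
    DP.ex (Q := fun l v => l = d v + 1 ∧ (e v < l ∧ x v = code l (e v) (2 * q v + 1)))
      ((DP.succ hC (DT.var hC 0) hd.shift).and
        (DP.fcode hC (DT.var hC 0) he.shift q21.shift hx.shift))
  refine (((DP.om hC hx).not).and (h1.or h2)).congr fun v hv => ?_
  show _ ↔ ω ≤ x v ∧ _
  rw [not_lt]
  refine and_congr_right fun ho => or_congr ?_ ?_
  · constructor
    · rintro ⟨l, -, rfl, h⟩; exact h
    · intro h
      refine ⟨_, ?_, rfl, h⟩
      have h3 := h.2
      refine lt_of_le_of_lt (le_code h.1 (2 * q v) ?_) (h3 ▸ hx.2 v hv)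
      rintro h4 h5
      rw [h5, h4] at h3
      have h6 := h.1
      rw [h4] at h6
      have h7 : d v = 0 := by simpa using h6
      rw [h7, code_one] at h3
      rw [h3] at ho
      exact absurd ho (not_le.2 (natCast_lt_omega0 _))
  · constructor
    · rintro ⟨l, -, rfl, h⟩; exact h
    · intro h
      refine ⟨_, ?_, rfl, h⟩
      have h3 := h.2
      exact lt_of_le_of_lt (le_code h.1 (2 * q v + 1) fun _ => Nat.succ_ne_zero _)
        (h3 ▸ hx.2 v hv)

theorem DP.fCt (hA : Arith A) {x e d : Ov → Ordinal.{0}} {q : Ov → ℕ} (hx : DT A κ C x)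
    (he : DT A κ C e) (hd : DT A κ C d) (hq : DN A κ C q) :
    DP A κ C (fun v => Ct A (x v) (e v) (d v) (q v)) := by
  refine ((DP.isCst hC hx).not).and ?_
  refine (DP.ex (Q := fun t v => EE A t (x v) ∧ Tr (e v) (d v) (q v) t)
    ((DP.E hC (DT.var hC 0) hx.shift).and
      (DP.fTr hC hA he.shift hd.shift hq.shift (DT.var hC 0)))).congr fun v hv => ?_
  constructor
  · rintro ⟨a, -, h⟩; exact ⟨a, h⟩
  · rintro ⟨a, h⟩; exact ⟨a, (EE_lt h.1).trans (hx.2 v hv), h⟩

/-- definability of the elements of names -/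
theorem DP.fElt (hA : Arith A) (hμ : DT A κ C (fun _ => μ)) {x z e b a : Ov → Ordinal.{0}}
    {q : Ov → ℕ} (hx : DT A κ C x) (hz : DT A κ C z) (he : DT A κ C e) (hb : DT A κ C b)
    (hq : DN A κ C q) (ha : DT A κ C a) :
    DP A κ C (fun v => Elt A μ (x v) (z v) (e v) (b v) (q v) (a v)) := by
  refine DP.or ?_ ?_
  · have h1 : DP A κ C (fun v => ∃ i < κ, ∃ j < κ, x v = cst i ∧ e v = cst j ∧ j < i) := by
      refine DP.ex (Q := fun i v => ∃ j < κ, x v = cst i ∧ e v = cst j ∧ j < i) ?_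
      refine DP.ex (Q := fun j v => x (ts v) = cst (v 0) ∧ e (ts v) = cst j ∧ j < v 0) ?_
      exact (DP.fcst hC hx.shift.shift (DT.var hC 1)).and
        ((DP.fcst hC he.shift.shift (DT.var hC 0)).and (DP.lt hC (DT.var hC 0) (DT.var hC 1)))
    refine h1.congr fun v hv => ?_
    constructor
    · rintro ⟨i, -, j, -, h⟩; exact ⟨i, j, h⟩
    · rintro ⟨i, j, h2, h3, h4⟩
      exact ⟨i, (lt_cst i).trans_le (h2 ▸ (hx.2 v hv).le), j,
        (lt_cst j).trans_le (h3 ▸ (he.2 v hv).le), h2, h3, h4⟩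
  · refine DP.exlt hC (Q := fun c v => ∃ d < μ, inG (supp A (x v)) (zR A c) ∧
      zR A (a v) = symmDiff (zR A (z v)) (zR A c) ∧
      zR A (b v) = symmDiff (zR A (a v)) (zR A d) ∧ Ct A (x v) (e v) d (q v)) hμ ?_
    refine DP.exlt hC (Q := fun d v => inG (supp A (x (ts v))) (zR A (v 0)) ∧
      zR A (a (ts v)) = symmDiff (zR A (z (ts v))) (zR A (v 0)) ∧
      zR A (b (ts v)) = symmDiff (zR A (a (ts v))) (zR A d) ∧
      Ct A (x (ts v)) (e (ts v)) d (q (ts v))) hμ.shift ?_
    exact (DP.finG hC hA (DN.fsupp hC hx.shift.shift) (DT.var hC 1)).and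
      ((DP.symm hC ha.shift.shift hz.shift.shift (DT.var hC 1)).and
      ((DP.symm hC hb.shift.shift ha.shift.shift (DT.var hC 0)).and
      (DP.fCt hC hA hx.shift.shift he.shift.shift (DT.var hC 0) hq.shift.shift)))

/-- definability of the forcing relation for equality -/
theorem DP.Fr {μ a b p x y : Ov → Ordinal.{0}} (hμ : DT A κ C μ) (ha : DT A κ C a)
    (hb : DT A κ C b) (hp : DT A κ C p) (hx : DT A κ C x) (hy : DT A κ C y) :
    DP A κ C (fun v => II A .F [μ v, a v, b v, p v, x v, y v]) :=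
  DP.rel hC .F [μ, a, b, p, x, y] (by
    simp only [List.mem_cons, List.not_mem_nil, or_false, forall_eq_or_imp, forall_eq]
    exact ⟨hμ, ha, hb, hp, hx, hy⟩)

end

end Pool.Agent.CC
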