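import Mathlib
import Pool.Agent.Lib.MP_bf67b0_lc.FCalc

/-!
# Definability of the forcing relation; comprehension and collection with parameters
-/

set_option autoImplicit false

namespace Pool.Agent.CC

open Ordinal Set

variable {A : ℕ → List ℕ → Prop} {κ μ : Ordinal.{0}} {C : Set Ordinal.{0}}

theorem Grd.pos (h : Grd A κ μ) : 0 < κ := lt_of_le_of_lt zero_le h.mu_lt

theorem Grd.om (h : Grd A κ μ) : ω < κ := h.om_le.trans_lt h.mu_lt

theorem Grd.pc (h : Grd A κ μ) : PC κ (Set.Iio κ) := ⟨h.pos, fun _ ha => ha, h.om⟩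

theorem Grd.pc0 (h : Grd A κ μ) : PC κ ({0} : Set Ordinal.{0}) :=
  ⟨rfl, fun _ ha => by rw [mem_singleton_iff.1 ha]; exact h.pos, h.om⟩

theorem Grd.cst_lt (h : Grd A κ μ) {a : Ordinal.{0}} (ha : a < κ) : cst a < κ :=
  h.code_lt _ (h.succ_lt _ ha) _ (lt_of_le_of_lt zero_le (Order.lt_add_one_iff.2 le_rfl)) _

theorem Grd.dmu (h : Grd A κ μ) (hC : PC κ C) : DT A κ C (fun _ => μ) :=
  DT.mu hC h.mu_def h.mu_lt

theorem DT.fcst (h : Grd A κ μ) (hC : PC κ C) {t : Ov → Ordinal.{0}} (ht : DT A κ C t) :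
    DT A κ C (fun v => cst (t v)) :=
  ⟨DP.fcst hC (DT.var hC 0) ht.shift, fun v hv => h.cst_lt (ht.2 v hv)⟩

/-! ### comprehension and collection -/

theorem mix_update (v c : Ov) (e : Ordinal.{0}) :
    Function.update (mix v c) 0 e = mix (Function.update v 0 e) c := by
  funext k
  by_cases hk : k = 0
  · subst hk; simp [mix]
  · rw [Function.update_of_ne hk]
    unfold mix
    split_ifs with h
    · rw [Function.update_of_ne (by omega)]
    · rfl

/-- comprehension with parameters -/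
theorem Grd.cmp (h : Grd A κ μ) {P : Ordinal.{0} → Prop}
    (hP : DP A κ (Set.Iio κ) (fun v => P (v 0))) {l : Ordinal.{0}} (hl : l < κ) :
    ∃ x < κ, (¬ ∃ a, x = cst a) ∧ ∀ e, EE A e x ↔ e < l ∧ P e := by
  obtain ⟨R, hR, c, hc, h1⟩ := hP
  obtain ⟨x, hx, h2, h3⟩ := h.comp R hR (mix (fun _ => 0) c)
    (mix_lt (fun _ => h.pos) hc) l hl
  refine ⟨x, hx, h2, fun e => ?_⟩
  rw [h3]
  refine and_congr_right fun he => ?_
  rw [mix_update, ← h1]
  · simp
  · intro k
    by_cases hk : k = 0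
    · subst hk; simpa using he.trans hl
    · rw [Function.update_of_ne hk]; exact h.pos

/-- sets of natural numbers -/
theorem Grd.cmpN (h : Grd A κ μ) {P : ℕ → Prop}
    (hP : DP A κ (Set.Iio κ) (fun v => P (nt (v 0)))) : ∃ x < κ, zR A x = {n | P n} := by
  obtain ⟨x, hx, -, h3⟩ := h.cmp (P := fun a => P (nt a)) hP h.om
  refine ⟨x, hx, ?_⟩
  ext n
  show EE A n x ↔ P n
  rw [h3, nt_cast]
  exact and_iff_right (natCast_lt_omega0 n)

/-- collection with parameters -/
theorem Grd.cll (h : Grd A κ μ) {P : Ordinal.{0} → Ordinal.{0} → Prop}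
    (hP : DP A κ (Set.Iio κ) (fun v => P (v 0) (v 1))) {l : Ordinal.{0}} (hl : l < κ)
    (hex : ∀ e < l, ∃ x < κ, P e x) : ∃ m < κ, ∀ e < l, ∃ x < m, P e x := by
  obtain ⟨R, hR, c, hc, h1⟩ := hP
  have key : ∀ e < κ, ∀ x < κ, (P e x ↔ (fun w : Ov => R (fun k => w (if k % 2 = 0 then
      (if k = 0 then 0 else if k = 2 then 1 else 4) else k + 2)))
      (Function.update (Function.update (fun k => if k % 2 = 0 then (0 : Ordinal.{0})
        else c ((k - 2) / 2)) 0 e) 1 x)) := by
    intro e he x hx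
    have h2 := h1 (fun k => if k = 0 then e else if k = 1 then x else 0) (fun k => by
      show (if k = 0 then e else if k = 1 then x else 0) < κ
      split_ifs; exacts [he, hx, h.pos])
    have h3 : P e x ↔ _ := h2
    rw [h3]
    refine iff_of_eq (congrArg R ?_)
    funext k
    unfold mix
    by_cases hk : k % 2 = 0
    · simp only [hk, if_true]
      by_cases hk0 : k = 0
      · subst hk0; simp
      · by_cases hk2 : k = 2
        · subst hk2; simp
        · rw [if_neg (by omega), if_neg (by omega), if_neg hk0, if_neg hk2,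
            Function.update_of_ne (by omega), Function.update_of_ne (by omega)]
          simp
    · simp only [hk, if_false]
      rw [Function.update_of_ne (by omega), Function.update_of_ne (by omega), if_neg (by omega)]
      congr 1
  obtain ⟨m, hm, h4⟩ := h.coll _ (hR.subst (fun k => if k % 2 = 0 then
      (if k = 0 then 0 else if k = 2 then 1 else 4) else k + 2))
      (fun k => if k % 2 = 0 then (0 : Ordinal.{0}) else c ((k - 2) / 2))
      (fun k => by
        show (if k % 2 = 0 then (0 : Ordinal.{0}) else c ((k - 2) / 2)) < κ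
        split_ifs; exacts [h.pos, hc _]) l hl (fun e he => by
          obtain ⟨x, hx, h5⟩ := hex e he
          exact ⟨x, hx, (key e (he.trans hl) x hx).1 h5⟩)
  refine ⟨m, hm, fun e he => ?_⟩
  obtain ⟨x, hx, h5⟩ := h4 e he
  exact ⟨x, hx, (key e (he.trans hl) x (hx.trans hm)).2 h5⟩

/-! ### the forcing relation -/

section
variable (hA : Arith A) (h : Grd A κ μ) (hC : PC κ C)
include h hC

theorem DP.fFeq {p : Ov → ℕ} {x y : Ov → Ordinal.{0} × Ordinal.{0}} (hp : DN A κ C p)
    (hx1 : DT A κ C (fun v => (x v).1)) (hx2 : DT A κ C (fun v => (x v).2))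
    (hy1 : DT A κ C (fun v => (y v).1)) (hy2 : DT A κ C (fun v => (y v).2)) :
    DP A κ C (fun v => Feq A μ (p v) (x v) (y v)) :=
  DP.Fr hC (h.dmu hC) hx2 hy2 hp.dt hx1 hy1

include hA

theorem DP.fFmem {p : Ov → ℕ} {x y : Ov → Ordinal.{0} × Ordinal.{0}} (hp : DN A κ C p)
    (hx1 : DT A κ C (fun v => (x v).1)) (hx2 : DT A κ C (fun v => (x v).2))
    (hy1 : DT A κ C (fun v => (y v).1)) (hy2 : DT A κ C (fun v => (y v).2)) :
    DP A κ C (fun v => Fmem A μ (p v) (x v) (y v)) := by
  have hμ := h.dmu (A := A) (C := C) hC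
  refine DP.allN hC (Q := fun r v => leC r (p v) → ∃ s, leC s r ∧ ∃ e < (y v).1, ∃ b < μ,
    ∃ q, ∃ a < μ, Elt A μ (y v).1 (y v).2 e b q a ∧ leSh s q (zR A a) ∧
    Feq A μ s (x v) (e, b)) ?_
  refine (DP.fleC hC hA (DN.var hC 0) hp.shift).imp ?_
  refine DP.exN hC (Q := fun s v => leC s (nt (v 0)) ∧ ∃ e < (y (ts v)).1, ∃ b < μ,
    ∃ q, ∃ a < μ, Elt A μ (y (ts v)).1 (y (ts v)).2 e b q a ∧ leSh s q (zR A a) ∧
    Feq A μ s (x (ts v)) (e, b)) ?_
  refine (DP.fleC hC hA (DN.var hC 0) (DN.var hC 1)).and ?_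
  refine DP.exlt hC (Q := fun e v => ∃ b < μ,
    ∃ q, ∃ a < μ, Elt A μ (y (ts (ts v))).1 (y (ts (ts v))).2 e b q a ∧
    leSh (nt (v 0)) q (zR A a) ∧ Feq A μ (nt (v 0)) (x (ts (ts v))) (e, b))
    hy1.shift.shift ?_
  refine DP.exlt hC (Q := fun b v =>
    ∃ q, ∃ a < μ, Elt A μ (y (ts (ts (ts v)))).1 (y (ts (ts (ts v)))).2 (v 0) b q a ∧
    leSh (nt (v 1)) q (zR A a) ∧ Feq A μ (nt (v 1)) (x (ts (ts (ts v)))) (v 0, b))
    hμ.shift ?_
  refine DP.exN hC (Q := fun q v => ∃ a < μ, Elt A μ (y (ts (ts (ts (ts v))))).1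
    (y (ts (ts (ts (ts v))))).2 (v 1) (v 0) q a ∧
    leSh (nt (v 2)) q (zR A a) ∧ Feq A μ (nt (v 2)) (x (ts (ts (ts (ts v))))) (v 1, v 0)) ?_
  refine DP.exlt hC (Q := fun a v => Elt A μ (y (ts (ts (ts (ts (ts v)))))).1
    (y (ts (ts (ts (ts (ts v)))))).2 (v 2) (v 1) (nt (v 0)) a ∧
    leSh (nt (v 3)) (nt (v 0)) (zR A a) ∧
    Feq A μ (nt (v 3)) (x (ts (ts (ts (ts (ts v)))))) (v 2, v 1)) hμ.shift ?_
  refine DP.and ?_ (DP.and ?_ ?_)
  · exact DP.fElt hC hA hμ hy1.shift.shift.shift.shift.shift.shift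
      hy2.shift.shift.shift.shift.shift.shift (DT.var hC 3) (DT.var hC 2) (DN.var hC 1)
      (DT.var hC 0)
  · exact DP.fleSh hC hA (DN.var hC 4) (DN.var hC 1) (DT.var hC 0)
  · exact DP.fFeq h hC (x := fun v => x (ts (ts (ts (ts (ts (ts v)))))))
      (y := fun v => (v 3, v 2)) (DN.var hC 4) hx1.shift.shift.shift.shift.shift.shift
      hx2.shift.shift.shift.shift.shift.shift (DT.var hC 3) (DT.var hC 2)

theorem DP.fFrel (R : Sy) (xs : List ℕ) : ∀ (Ts : List (Ov → Ordinal.{0})) (p : Ov → ℕ)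
    (u : Ov → ℕ → Ordinal.{0} × Ordinal.{0}), (∀ T ∈ Ts, DT A κ C T) → DN A κ C p →
    (∀ k, DT A κ C (fun v => (u v k).1)) → (∀ k, DT A κ C (fun v => (u v k).2)) →
    DP A κ C (fun v => ∃ l : List Ordinal.{0}, (∀ a ∈ l, a < κ) ∧
      List.Forall₂ (fun i a => Feq A μ (p v) (u v i) (cst a, 0)) xs l ∧
      II A R (Ts.map (fun T => T v) ++ l)) := by
  induction xs with
  | nil =>
    intro Ts p u hT hp h1 h2
    refine (DP.rel hC R Ts hT).congr fun v _ => ?_
    constructor
    · intro h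
      exact ⟨[], by simp, List.Forall₂.nil, by simpa using h⟩
    · rintro ⟨l, -, h1, h2⟩
      rw [List.forall₂_nil_left_iff] at h1
      subst h1
      simpa using h2
  | cons i xs ih =>
    intro Ts p u hT hp h1 h2
    have h3 : DP A κ C (fun v => ∃ a < κ, Feq A μ (p v) (u v i) (cst a, 0) ∧
        ∃ l : List Ordinal.{0}, (∀ a ∈ l, a < κ) ∧
        List.Forall₂ (fun i a => Feq A μ (p v) (u v i) (cst a, 0)) xs l ∧
        II A R (Ts.map (fun T => T v) ++ a :: l)) := by
      refine DP.ex (Q := fun a v => Feq A μ (p v) (u v i) (cst a, 0) ∧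
        ∃ l : List Ordinal.{0}, (∀ a ∈ l, a < κ) ∧
        List.Forall₂ (fun i a => Feq A μ (p v) (u v i) (cst a, 0)) xs l ∧
        II A R (Ts.map (fun T => T v) ++ a :: l)) ?_
      refine DP.and ?_ ?_
      · exact DP.fFeq h hC (x := fun v => u (ts v) i) (y := fun v => (cst (v 0), 0)) hp.shift
          (h1 i).shift (h2 i).shift (DT.fcst h hC (DT.var hC 0)) (DT.const hC hC.zero)
      · refine (ih (Ts.map (fun T v => T (ts v)) ++ [fun v => v 0]) (fun v => p (ts v))
          (fun v => u (ts v)) ?_ hp.shift (fun k => (h1 k).shift)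
          (fun k => (h2 k).shift)).congr fun v _ => ?_
        · intro T hT'
          rcases List.mem_append.1 hT' with h4 | h4
          · obtain ⟨T', h5, rfl⟩ := List.mem_map.1 h4
            exact (hT T' h5).shift
          · rw [List.mem_singleton.1 h4]
            exact DT.var hC 0
        · refine exists_congr fun l => and_congr_right fun _ => and_congr_right fun _ => ?_
          refine iff_of_eq (congrArg (II A R) ?_)
          simp only [List.map_append, List.map_map, List.append_assoc, List.map_cons,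
            List.map_nil, List.singleton_append]
          rfl
    refine h3.congr fun v _ => ?_
    constructor
    · rintro ⟨a, ha, h4, l, hl, h5, h6⟩
      refine ⟨a :: l, ?_, List.Forall₂.cons h4 h5, h6⟩
      intro b hb
      rcases List.mem_cons.1 hb with rfl | hb
      exacts [ha, hl b hb]
    · rintro ⟨l, hl, h5, h6⟩
      rw [List.forall₂_cons_left_iff] at h5
      obtain ⟨a, l', h7, h8, rfl⟩ := h5
      exact ⟨a, hl a List.mem_cons_self, h7, l', fun b hb => hl b (List.mem_cons_of_mem _ hb),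
        h8, h6⟩

/-- the clause of the forcing relation for the symbols other than membership -/
def FcR (A : ℕ → List ℕ → Prop) (κ μ : Ordinal.{0}) (R : Sy) (xs : List ℕ) (p : ℕ)
    (u : ℕ → Ordinal.{0} × Ordinal.{0}) : Prop :=
  ∀ r, leC r p → ∃ s, leC s r ∧ ∃ l : List Ordinal.{0}, (∀ a ∈ l, a < κ) ∧
      List.Forall₂ (fun i a => Feq A μ s (u i) (cst a, 0)) xs l ∧ II A R l

theorem DP.fFcR (R : Sy) (xs : List ℕ) {p : Ov → ℕ} {u : Ov → ℕ → Ordinal.{0} × Ordinal.{0}}
    (hp : DN A κ C p) (hu1 : ∀ k, DT A κ C (fun v => (u v k).1))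
    (hu2 : ∀ k, DT A κ C (fun v => (u v k).2)) :
    DP A κ C (fun v => FcR A κ μ R xs (p v) (u v)) := by
  refine DP.allN hC (Q := fun r v => leC r (p v) → ∃ s, leC s r ∧
    ∃ l : List Ordinal.{0}, (∀ a ∈ l, a < κ) ∧
      List.Forall₂ (fun i a => Feq A μ s (u v i) (cst a, 0)) xs l ∧ II A R l) ?_
  refine (DP.fleC hC hA (DN.var hC 0) hp.shift).imp ?_
  refine DP.exN hC (Q := fun s v => leC s (nt (v 0)) ∧
    ∃ l : List Ordinal.{0}, (∀ a ∈ l, a < κ) ∧
      List.Forall₂ (fun i a => Feq A μ s (u (ts v) i) (cst a, 0)) xs l ∧ II A R l) ?_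
  refine (DP.fleC hC hA (DN.var hC 0) (DN.var hC 1)).and ?_
  exact (DP.fFrel hA h hC R xs [] (fun v => nt (v 0)) (fun v => u (ts (ts v))) (by simp)
    (DN.var hC 0) (fun k => (hu1 k).shift.shift) (fun k => (hu2 k).shift.shift)).congr
    fun v _ => by simp

end

theorem Fc_rel {R : Sy} (hR : R ≠ .mem) (xs : List ℕ) (p : ℕ)
    (u : ℕ → Ordinal.{0} × Ordinal.{0}) : Fc A κ μ (.rel R xs) p u ↔ FcR A κ μ R xs p u := by
  cases R <;> first | exact absurd rfl hR | rfl

/-- definability of the forcing relation -/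
theorem DP.fFc (hA : Arith A) (h : Grd A κ μ) (hC : PC κ C) (φ : Fm) :
    ∀ {p : Ov → ℕ} {u : Ov → ℕ → Ordinal.{0} × Ordinal.{0}}, DN A κ C p →
    (∀ k, DT A κ C (fun v => (u v k).1)) → (∀ k, DT A κ C (fun v => (u v k).2)) →
    DP A κ C (fun v => Fc A κ μ φ (p v) (u v)) := by
  induction φ with
  | bot =>
    intro p u _ _ _
    exact DP.const hC False
  | eq i j =>
    intro p u hp h1 h2
    exact DP.fFeq h hC hp (h1 i) (h2 i) (h1 j) (h2 j)
  | rel R xs =>
    intro p u hp h1 h2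
    by_cases hR : R = .mem
    · subst hR
      by_cases hx : ∃ i j, xs = [i, j]
      · obtain ⟨i, j, rfl⟩ := hx
        refine (DP.fFmem hA h hC hp (h1 i) (h2 i) (h1 j) (h2 j)).congr fun v _ => ?_
        constructor
        · intro h; exact ⟨i, j, rfl, h⟩
        · rintro ⟨i', j', h3, h4⟩
          simp only [List.cons.injEq, and_true] at h3
          obtain ⟨rfl, rfl⟩ := h3
          exact h4
      · refine (DP.const hC False).congr fun v _ => ?_
        constructor
        · exact False.elim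
        · rintro ⟨i, j, h3, -⟩; exact hx ⟨i, j, h3⟩
    · exact (DP.fFcR hA h hC R xs hp h1 h2).congr fun v _ => (Fc_rel hR xs _ _).symm
  | imp φ ψ ih1 ih2 =>
    intro p u hp h1 h2
    refine DP.allN hC (Q := fun q v => leC q (p v) → Fc A κ μ φ q (u v) →
      Fc A κ μ ψ q (u v)) ?_
    refine (DP.fleC hC hA (DN.var hC 0) hp.shift).imp ?_
    exact (ih1 (u := fun v => u (ts v)) (DN.var hC 0) (fun k => (h1 k).shift)
      (fun k => (h2 k).shift)).imp (ih2 (u := fun v => u (ts v)) (DN.var hC 0)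
      (fun k => (h1 k).shift) (fun k => (h2 k).shift))
  | all i φ ih =>
    intro p u hp h1 h2
    refine DP.all (Q := fun x v => ∀ a < μ, Fc A κ μ φ (p v) (Function.update (u v) i (x, a))) ?_
    refine DP.alllt hC (Q := fun a v => Fc A κ μ φ (p (ts v))
      (Function.update (u (ts v)) i (v 0, a))) (h.dmu hC) ?_
    refine ih (u := fun v => Function.update (u (ts (ts v))) i (v 1, v 0)) hp.shift.shift
      (fun k => ?_) (fun k => ?_)
    · by_cases hk : k = i
      · subst hk
        simp only [Function.update_self]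
        exact DT.var hC 1
      · simp only [Function.update_of_ne hk]
        exact (h1 k).shift.shift
    · by_cases hk : k = i
      · subst hk
        simp only [Function.update_self]
        exact DT.var hC 0
      · simp only [Function.update_of_ne hk]
        exact (h2 k).shift.shift

theorem Fc_def (hA : Arith A) (h : Grd A κ μ)
    (φ : Fm) : D0 A κ (fun v => ∃ n : ℕ, v 0 = n ∧
      Fc A κ μ φ n (fun k => (v (2 * k + 1), v (2 * k + 2)))) := by
  have hC := h.pc0
  refine (((DP.om hC (DT.var hC 0)).and (DP.fFc hA h hC φ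
    (u := fun v k => (v (2 * k + 1), v (2 * k + 2))) (DN.var hC 0) (fun k => DT.var hC _)
    (fun k => DT.var hC _))).d0 le_rfl h.pos).congr fun v _ => ?_
  constructor
  · rintro ⟨h1, h2⟩
    exact ⟨_, (nt_of_lt h1).symm, h2⟩
  · rintro ⟨n, h1, h2⟩
    rw [h1]
    exact ⟨natCast_lt_omega0 n, by rw [nt_cast]; exact h2⟩

end Pool.Agent.CC
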