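import Mathlib
import Pool.Agent.Lib.MP_bf67b0_lc.FDefin

/-!
# Conditions and generic reals
-/

set_option autoImplicit false

namespace Pool.Agent.CC

open Ordinal Set

/-! ### conditions -/

theorem leC_refl (p : ℕ) : leC p p := fun _ _ h => h

theorem leC_trans {p q r : ℕ} (h : leC r q) (h' : leC q p) : leC r p := fun i b hb =>
  h i b (h' i b hb)

theorem exists_cond (l : List Bool) : ∃ p, cond p = l :=
  ⟨Encodable.encode l, by simp [cond]⟩

theorem exists_empty : ∃ p, ∀ i, bit p i = none := by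
  obtain ⟨p, hp⟩ := exists_cond []
  exact ⟨p, fun i => by simp [bit, hp]⟩

/-- the initial segment of length `n` of the real `g` -/
theorem exists_seg (g : Set ℕ) (n : ℕ) : ∃ p, ∀ i b, bit p i = some b ↔
    i < n ∧ (b = true ↔ i ∈ g) := by
  classical
  obtain ⟨p, hp⟩ := exists_cond ((List.range n).map (fun i => decide (i ∈ g)))
  refine ⟨p, fun i b => ?_⟩
  unfold bit
  rw [hp, List.getElem?_map]
  by_cases hi : i < n
  · rw [List.getElem?_range hi]
    simp only [Option.map_some, Option.some.injEq, hi, true_and]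
    cases b <;> simp
  · have : (List.range n)[i]? = none := by
      rw [List.getElem?_eq_none_iff]; simpa using hi
    simp [this, hi]

theorem bit_lt {p i : ℕ} {b : Bool} (h : bit p i = some b) : i < (cond p).length := by
  unfold bit at h
  by_contra hlt
  rw [List.getElem?_eq_none_iff.2 (not_lt.1 hlt)] at h
  exact absurd h (by simp)

theorem bit_isSome {p i j : ℕ} {b : Bool} (h : bit p i = some b) (hj : j ≤ i) :
    ∃ b', bit p j = some b' := by
  have := bit_lt h
  unfold bit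
  exact ⟨_, List.getElem?_eq_getElem (lt_of_le_of_lt hj this)⟩

theorem inC_mono {p q : ℕ} {g : Set ℕ} (h : inC q g) (hle : leC q p) : inC p g := fun i =>
  ⟨fun h1 => (h i).1 (hle i _ h1), fun h1 => (h i).2 (hle i _ h1)⟩

theorem inC_seg {g : Set ℕ} {n p : ℕ}
    (hp : ∀ i b, bit p i = some b ↔ i < n ∧ (b = true ↔ i ∈ g)) : inC p g := fun i =>
  ⟨fun h1 => by simpa using ((hp i _).1 h1).2, fun h1 => by simpa using ((hp i _).1 h1).2⟩

theorem leC_seg {g : Set ℕ} {n p q : ℕ}
    (hp : ∀ i b, bit p i = some b ↔ i < n ∧ (b = true ↔ i ∈ g)) (hq : inC q g)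
    (hn : (cond q).length ≤ n) : leC p q := by
  intro i b hb
  rw [hp]
  refine ⟨(bit_lt hb).trans_le hn, ?_⟩
  cases b
  · simpa using (hq i).2 hb
  · simpa using (hq i).1 hb

/-- two conditions contained in the same real have a common extension in it -/
theorem inC_dir {p q : ℕ} {g : Set ℕ} (hp : inC p g) (hq : inC q g) :
    ∃ r, inC r g ∧ leC r p ∧ leC r q := by
  obtain ⟨r, hr⟩ := exists_seg g (max (cond p).length (cond q).length)
  exact ⟨r, inC_seg hr, leC_seg hr hp (le_max_left _ _), leC_seg hr hq (le_max_right _ _)⟩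

/-- two conditions without conflict have a common extension -/
theorem exists_common {p q : ℕ} (h : ∀ i b, bit p i = some b → bit q i ≠ some (!b)) :
    ∃ r, leC r p ∧ leC r q := by
  have h' : ∀ i b b', bit p i = some b → bit q i = some b' → b = b' := by
    intro i b b' h1 h2
    have h3 := h i b h1
    rw [h2] at h3
    cases b <;> cases b' <;> simp_all
  rcases le_total (cond p).length (cond q).length with hl | hl
  · refine ⟨q, ?_, leC_refl q⟩
    intro i b hb
    have h1 := (bit_lt hb).trans_le hl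
    have h2 : bit q i = some ((cond q)[i]) := List.getElem?_eq_getElem h1
    rw [h2, h' i b _ hb h2]
  · refine ⟨p, leC_refl p, ?_⟩
    intro i b hb
    have h1 := (bit_lt hb).trans_le hl
    have h2 : bit p i = some ((cond p)[i]) := List.getElem?_eq_getElem h1
    rw [h2, h' i _ b h2 hb]

theorem leSh_mono {s s' q : ℕ} {z : Set ℕ} (h : leSh s q z) (h' : leC s' s) : leSh s' q z := by
  intro i
  refine ⟨fun h1 => ⟨fun h2 => h' _ _ (((h i).1 h1).1 h2), fun h2 => h' _ _ (((h i).1 h1).2 h2)⟩,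
    fun h1 => ⟨fun h2 => h' _ _ (((h i).2 h1).1 h2), fun h2 => h' _ _ (((h i).2 h1).2 h2)⟩⟩

theorem leSh_inC {s q : ℕ} {z g : Set ℕ} (h : leSh s q z) (hs : inC s g) :
    inC q (symmDiff g z) := by
  intro i
  have h1 := hs i
  have h2 := h i
  rw [Set.mem_symmDiff]
  constructor
  · intro h3
    have h4 := h2.1 h3
    by_cases hz : i ∈ z
    · exact Or.inr ⟨hz, h1.2 (h4.1 hz)⟩
    · exact Or.inl ⟨h1.1 (h4.2 hz), hz⟩
  · intro h3
    have h4 := h2.2 h3
    by_cases hz : i ∈ z
    · have := h1.1 (h4.1 hz)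
      tauto
    · have := h1.2 (h4.2 hz)
      tauto

/-- a condition contained in the translated real: long initial segments of the real itself are
below the translate -/
theorem leSh_of_inC {q : ℕ} {z g : Set ℕ} (hq : inC q (symmDiff g z)) {p : ℕ} (hp : inC p g) :
    ∃ s, inC s g ∧ leC s p ∧ leSh s q z := by
  obtain ⟨s, hs⟩ := exists_seg g (max (cond p).length (cond q).length)
  refine ⟨s, inC_seg hs, leC_seg hs hp (le_max_left _ _), fun i => ?_⟩
  have h1 := hq i
  rw [Set.mem_symmDiff] at h1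
  refine ⟨fun h2 => ⟨fun h3 => ?_, fun h3 => ?_⟩, fun h2 => ⟨fun h3 => ?_, fun h3 => ?_⟩⟩
  · rw [hs]
    refine ⟨(bit_lt h2).trans_le (le_max_right _ _), ?_⟩
    have := h1.1 h2
    simp only [Bool.false_eq_true, false_iff]
    tauto
  · rw [hs]
    refine ⟨(bit_lt h2).trans_le (le_max_right _ _), ?_⟩
    have := h1.1 h2
    simp only [true_iff]
    tauto
  · rw [hs]
    refine ⟨(bit_lt h2).trans_le (le_max_right _ _), ?_⟩
    have := h1.2 h2
    simp only [true_iff]
    tauto
  · rw [hs]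
    refine ⟨(bit_lt h2).trans_le (le_max_right _ _), ?_⟩
    have := h1.2 h2
    simp only [Bool.false_eq_true, false_iff]
    tauto

/-- the translate of a condition -/
theorem exists_tr (q : ℕ) (z : Set ℕ) : ∃ s, leSh s q z ∧ (∀ i b, bit s i = some b ↔
    ∃ b', bit q i = some b' ∧ ((i ∈ z ∧ b = !b') ∨ (i ∉ z ∧ b = b'))) := by
  classical
  obtain ⟨s, hs⟩ := exists_cond ((cond q).mapIdx (fun i b => if i ∈ z then !b else b))
  have h1 : ∀ i b, bit s i = some b ↔
    ∃ b', bit q i = some b' ∧ ((i ∈ z ∧ b = !b') ∨ (i ∉ z ∧ b = b')) := by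
    intro i b
    unfold bit
    rw [hs, List.getElem?_mapIdx]
    cases h2 : (cond q)[i]? with
    | none => simp
    | some b' =>
      simp only [Option.map_some, Option.some.injEq, exists_eq_left']
      by_cases hz : i ∈ z
      · simp only [hz, if_true, true_and, not_true, false_and, or_false]
        exact eq_comm
      · simp only [hz, if_false, false_and, not_false_iff, true_and, false_or]
        exact eq_comm
  refine ⟨s, fun i => ?_, h1⟩
  refine ⟨fun h2 => ⟨fun h3 => ?_, fun h3 => ?_⟩, fun h2 => ⟨fun h3 => ?_, fun h3 => ?_⟩⟩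
  · exact (h1 i _).2 ⟨_, h2, Or.inl ⟨h3, rfl⟩⟩
  · exact (h1 i _).2 ⟨_, h2, Or.inr ⟨h3, rfl⟩⟩
  · exact (h1 i _).2 ⟨_, h2, Or.inl ⟨h3, rfl⟩⟩
  · exact (h1 i _).2 ⟨_, h2, Or.inr ⟨h3, rfl⟩⟩

variable {A : ℕ → List ℕ → Prop} {κ μ : Ordinal.{0}} {g : Set ℕ}

/-! ### generic reals -/

/-- generic reals meet the definable sets which are dense below one of their conditions -/
theorem Gen.meet (hA : Arith A) (h : Grd A κ μ) (hg : Gen A κ g) {P : ℕ → Prop}
    (hP : DP A κ (Set.Iio κ) (fun v => P (nt (v 0)))) {p : ℕ} (hp : inC p g)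
    (hd : ∀ r, leC r p → ∃ s, leC s r ∧ P s) : ∃ s, inC s g ∧ leC s p ∧ P s := by
  have hC := h.pc
  have hbit : ∀ (b : Bool), DP A κ (Set.Iio κ) (fun v => ∃ i : ℕ, bit p i = some b ∧
      bit (nt (v 0)) i = some (!b)) := fun b =>
    DP.exN hC (Q := fun i v => bit p i = some b ∧ bit (nt (v 0)) i = some (!b))
      ((DP.fbit hC hA (DN.const hC p) (DN.var hC 0) b).and
        (DP.fbit hC hA (DN.var hC 1) (DN.var hC 0) (!b)))
  obtain ⟨x, hx, h1⟩ := h.cmpN (P := fun s => (leC s p ∧ P s) ∨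
      ((∃ i : ℕ, bit p i = some true ∧ bit s i = some (!true)) ∨
      (∃ i : ℕ, bit p i = some false ∧ bit s i = some (!false))))
    (((DP.fleC hC hA (DN.var hC 0) (DN.const hC p)).and hP).or ((hbit true).or (hbit false)))
  obtain ⟨s, hs, h2⟩ := hg x hx (fun r => by
    rw [h1]
    by_cases hr : ∀ i b, bit p i = some b → bit r i ≠ some (!b)
    · obtain ⟨t, h3, h4⟩ := exists_common hr
      obtain ⟨s, h5, h6⟩ := hd t h3
      exact ⟨s, Or.inl ⟨leC_trans h5 h3, h6⟩, leC_trans h5 h4⟩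
    · push Not at hr
      obtain ⟨i, b, h3, h4⟩ := hr
      refine ⟨r, Or.inr ?_, leC_refl r⟩
      cases b
      · exact Or.inr ⟨i, h3, h4⟩
      · exact Or.inl ⟨i, h3, h4⟩)
  rw [h1] at hs
  rcases hs with hs | ⟨i, h3, h4⟩ | ⟨i, h3, h4⟩
  · exact ⟨s, h2, hs⟩
  · exact absurd ((hp i).1 h3) ((h2 i).2 h4)
  · exact absurd ((h2 i).1 h4) ((hp i).2 h3)

theorem exists_gen (hA : Arith A) (h : Grd A κ μ)
    (p : ℕ) : ∃ g, Gen A κ g ∧ inC p g := by
  have _ := hA
  classical
  -- enumeration of the ground model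
  haveI : Countable (Set.Iio κ) := h.countable.to_subtype
  haveI : Nonempty (Set.Iio κ) := ⟨⟨0, h.pos⟩⟩
  obtain ⟨f, hf⟩ := exists_surjective_nat (Set.Iio κ)
  -- the sequence of conditions
  let step : ℕ → ℕ → ℕ := fun n p =>
    if hd : ∃ q ∈ zR A (f n).1, leC q p then Classical.choose hd else p
  let s : ℕ → ℕ := fun n => Nat.rec p (fun n p => step n p) n
  have hs0 : s 0 = p := rfl
  have hs1 : ∀ n, s (n + 1) = step n (s n) := fun n => rfl
  have hle : ∀ n, leC (s (n + 1)) (s n) := by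
    intro n
    rw [hs1]
    by_cases hd : ∃ q ∈ zR A (f n).1, leC q (s n)
    · show leC (if hd : ∃ q ∈ zR A (f n).1, leC q (s n) then Classical.choose hd else (s n)) _
      rw [dif_pos hd]
      exact (Classical.choose_spec hd).2
    · show leC (if hd : ∃ q ∈ zR A (f n).1, leC q (s n) then Classical.choose hd else (s n)) _
      rw [dif_neg hd]
      exact leC_refl _
  have hmono : ∀ m n, m ≤ n → leC (s n) (s m) := by
    intro m n hmn
    induction n, hmn using Nat.le_induction with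
    | base => exact leC_refl _
    | succ n _ ih => exact leC_trans (hle n) ih
  let g : Set ℕ := {i | ∃ n, bit (s n) i = some true}
  have hin : ∀ n, inC (s n) g := by
    intro n i
    refine ⟨fun h1 => ⟨n, h1⟩, ?_⟩
    rintro h1 ⟨m, hm⟩
    have h2 := hmono n (max n m) (le_max_left _ _) i _ h1
    have h3 := hmono m (max n m) (le_max_right _ _) i _ hm
    rw [h2] at h3
    exact absurd h3 (by simp)
  refine ⟨g, fun x hx hd => ?_, by have := hin 0; rwa [hs0] at this⟩
  obtain ⟨n, hn⟩ := hf ⟨x, hx⟩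
  have hd' : ∃ q ∈ zR A (f n).1, leC q (s n) := by
    rw [hn]; exact hd (s n)
  refine ⟨s (n + 1), ?_, hin (n + 1)⟩
  rw [hs1]
  show (if hd : ∃ q ∈ zR A (f n).1, leC q (s n) then Classical.choose hd else (s n)) ∈ zR A x
  rw [dif_pos hd']
  have h1 : ∀ k, k ∈ zR A (f n).1 → k ∈ zR A x := by
    rw [hn]; exact fun _ hk => hk
  exact h1 _ (Classical.choose_spec hd').1

theorem Gen.add (hA : Arith A) (h : Grd A κ μ)
    (hg : Gen A κ g) {z : Ordinal.{0}} (hz : z < κ) :
    Gen A κ (symmDiff g (zR A z)) := by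
  have hC := h.pc
  intro x hx hd
  obtain ⟨p0, hp0⟩ := exists_seg g 0
  obtain ⟨s, h1, -, q, hq, h2⟩ := hg.meet hA h (P := fun s => ∃ q : ℕ, q ∈ zR A x ∧
      leSh s q (zR A z)) (p := p0) (DP.exN hC (Q := fun q v => q ∈ zR A x ∧
      leSh (nt (v 0)) q (zR A z)) ((DP.fzR hC (DN.var hC 0) (DT.const hC hx)).and
      (DP.fleSh hC hA (DN.var hC 1) (DN.var hC 0) (DT.const hC hz)))) (inC_seg hp0)
      (fun r _ => by
        obtain ⟨r', h2, h3⟩ := exists_tr r (zR A z)
        obtain ⟨q, hq, h4⟩ := hd r'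
        obtain ⟨s, h5, h6⟩ := exists_tr q (zR A z)
        refine ⟨s, fun i b hb => ?_, q, hq, h5⟩
        rw [h6]
        by_cases hi : i ∈ zR A z
        · exact ⟨!b, h4 i _ ((h3 i _).2 ⟨b, hb, Or.inl ⟨hi, rfl⟩⟩),
            Or.inl ⟨hi, by simp⟩⟩
        · exact ⟨b, h4 i _ ((h3 i _).2 ⟨b, hb, Or.inr ⟨hi, rfl⟩⟩),
            Or.inr ⟨hi, rfl⟩⟩)
  exact ⟨q, hq, leSh_inC h2 h1⟩

end Pool.Agent.CC
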