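import Mathlib
import Pool.Agent.Lib.MP_bf67b0_lc.Force1
import Pool.Agent.Lib.MP_bf67b0_lc.Clauses

/-!
# Evaluation of names, and the truth lemma for equality
-/

set_option autoImplicit false

namespace Pool.Agent.CC

open Ordinal Set

variable {A : ℕ → List ℕ → Prop} {κ μ : Ordinal.{0}} {g : Set ℕ}

/-! ### reals of the ground model -/

/-- the sum of two reals -/
theorem Grd.sum (h : Grd A κ μ) {a b : Ordinal.{0}} (ha : a < κ) (hb : b < κ) :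
    ∃ c < μ, 2 ≤ c ∧ zR A c = symmDiff (zR A a) (zR A b) := by
  have hC := h.pc
  have e0 : DN A κ (Set.Iio κ) (fun v => nt (v 0)) := DN.var hC 0
  obtain ⟨x, hx, h1⟩ := h.cmpN (P := fun n => (n ∈ zR A a ∧ n ∉ zR A b) ∨
    (n ∈ zR A b ∧ n ∉ zR A a))
    (((DP.fzR hC e0 (DT.const hC ha)).and (DP.fzR hC e0 (DT.const hC hb)).not).or
      ((DP.fzR hC e0 (DT.const hC hb)).and (DP.fzR hC e0 (DT.const hC ha)).not))
  obtain ⟨c, hc, h2, h3⟩ := h.real x hx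
  refine ⟨c, hc, h2, ?_⟩
  rw [h3, h1]
  ext n
  rw [Set.mem_symmDiff]
  exact Iff.rfl

/-- a code of the empty real -/
theorem Grd.zero (h : Grd A κ μ) : ∃ c < μ, 2 ≤ c ∧ zR A c = ∅ := by
  obtain ⟨c, h1, h2, h3⟩ := h.sum h.pos h.pos
  exact ⟨c, h1, h2, by rw [h3, symmDiff_self]; rfl⟩

theorem inG_symm {m : ℕ} {a b : Set ℕ} (ha : inG m a) (hb : inG m b) : inG m (symmDiff a b) := by
  intro i hi h
  rw [Set.mem_symmDiff] at h
  rcases h with h | h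
  exacts [ha i hi h.1, hb i hi h.1]

theorem inG_mono {m n : ℕ} {a : Set ℕ} (h : inG n a) (hmn : m ≤ n) : inG m a :=
  fun i hi => h i (hi.trans_le hmn)

theorem inG_empty {m : ℕ} : inG m ∅ := fun _ _ h => h

/-! ### evaluation -/

theorem Ct_not_cst {x e d : Ordinal.{0}} {q : ℕ} (h : Ct A x e d q) : ¬ ∃ a, x = cst a := h.1

theorem Ct_lt {x e d : Ordinal.{0}} {q : ℕ} (h : Ct A x e d q) : e < x ∧ d < x := by
  obtain ⟨-, t, h1, h2⟩ := h
  have h3 := Tr_lt h2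
  have h4 := EE_lt h1
  exact ⟨h3.1.trans h4, h3.2.trans h4⟩

theorem val_cst (a : Ordinal.{0}) (k : Set ℕ) : val A μ (cst a) k = a.toZFSet := by
  have hx : ∃ b, cst a = cst b := ⟨a, rfl⟩
  unfold val
  rw [WellFoundedLT.fix_eq]
  rw [dif_pos hx]
  congr 1
  exact (cst_inj.1 (Classical.choose_spec hx)).symm

theorem mem_val_of_not {x : Ordinal.{0}} (hx : ¬ ∃ a, x = cst a) (k : Set ℕ) (w : ZFSet.{0}) :
    w ∈ val A μ x k ↔ ∃ e, ∃ c < μ, ∃ d < μ, ∃ q, inG (supp A x) (zR A c) ∧ Ct A x e d q ∧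
      inC q (symmDiff k (zR A c)) ∧
      w = val A μ e (symmDiff (symmDiff k (zR A c)) (zR A d)) := by
  conv_lhs => unfold val
  rw [WellFoundedLT.fix_eq, dif_neg hx, ZFSet.mem_range]
  constructor
  · rintro ⟨⟨⟨e, c, d, q⟩, h1, h2, h3⟩, h4⟩
    exact ⟨e.1, c.1, c.2, d.1, d.2, q, h1, h2, h3, h4.symm⟩
  · rintro ⟨e, c, hc, d, hd, q, h1, h2, h3, h4⟩
    exact ⟨⟨⟨⟨e, (Ct_lt h2).1⟩, ⟨c, hc⟩, ⟨d, hd⟩, q⟩, h1, h2, h3⟩, h4.symm⟩

theorem symm_assoc (a b c : Set ℕ) : symmDiff (symmDiff a b) c = symmDiff a (symmDiff b c) :=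
  symmDiff_assoc a b c

/-- invariance of names under their support group -/
theorem val_inv (hA : Arith A) (h : Grd A κ μ)
    {x z : Ordinal.{0}} (hx : x < κ) (hz : z < κ) (hg : inG (supp A x) (zR A z)) (k : Set ℕ) :
    val A μ x (symmDiff k (zR A z)) = val A μ x k := by
  have _ := hA
  have _ := hx
  by_cases hc : ∃ a, x = cst a
  · obtain ⟨a, rfl⟩ := hc
    rw [val_cst, val_cst]
  · have key : ∀ k : Set ℕ, ∀ w, w ∈ val A μ x (symmDiff k (zR A z)) → w ∈ val A μ x k := by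
      intro k w
      rw [mem_val_of_not hc, mem_val_of_not hc]
      rintro ⟨e, c, hc', d, hd, q, h1, h2, h3, h4⟩
      obtain ⟨c', h5, -, h6⟩ := h.sum hz (hc'.trans h.mu_lt)
      refine ⟨e, c', h5, d, hd, q, by rw [h6]; exact inG_symm hg h1, h2, ?_, ?_⟩
      · rw [h6, ← symm_assoc]; exact h3
      · rw [h6, ← symm_assoc]; exact h4
    ext w
    refine ⟨key k w, fun hw => ?_⟩
    refine key (symmDiff k (zR A z)) w ?_
    have : symmDiff (symmDiff k (zR A z)) (zR A z) = k := by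
      rw [symm_assoc, symmDiff_self]; exact symmDiff_bot k
    rw [this]
    exact hw

theorem NN_add (hA : Arith A) (h : Grd A κ μ)
    {z : Ordinal.{0}} (hz : z < κ) (g : Set ℕ) :
    NN A κ μ (symmDiff g (zR A z)) = NN A κ μ g := by
  have _ := hA
  ext y
  constructor
  · rintro ⟨x, hx, c, hc, h1⟩
    obtain ⟨c', h5, -, h6⟩ := h.sum hz (hc.trans h.mu_lt)
    exact ⟨x, hx, c', h5, by rw [h1, h6, ← symm_assoc]⟩
  · rintro ⟨x, hx, c, hc, h1⟩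
    obtain ⟨c', h5, -, h6⟩ := h.sum hz (hc.trans h.mu_lt)
    refine ⟨x, hx, c', h5, ?_⟩
    have e : symmDiff (symmDiff g (zR A z)) (zR A c') = symmDiff g (zR A c) := by
      rw [h6, symm_assoc, ← symm_assoc (zR A z), symmDiff_self]
      congr 1
      exact bot_symmDiff _
    rw [h1, e]

/-- the elements of the value of a translated name -/
theorem mem_val (h : Grd A κ μ) (x : Ordinal.{0}) {z : Ordinal.{0}} (hz : z < κ) (g : Set ℕ)
    (w : ZFSet.{0}) : w ∈ val A μ x (symmDiff g (zR A z)) ↔ ∃ e < x, ∃ b < μ, ∃ q, ∃ a < μ,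
      Elt A μ x z e b q a ∧ inC q (symmDiff g (zR A a)) ∧
      w = val A μ e (symmDiff g (zR A b)) := by
  by_cases hc : ∃ a, x = cst a
  · obtain ⟨i, rfl⟩ := hc
    rw [val_cst, mem_toZFSet_iff]
    have hμ : 0 < μ := lt_of_lt_of_le omega0_pos h.om_le
    constructor
    · rintro ⟨j, hj, rfl⟩
      obtain ⟨q, hq⟩ := exists_empty
      refine ⟨cst j, cst_lt.2 hj, 0, hμ, q, 0, hμ, Or.inl ⟨i, j, rfl, rfl, hj⟩, ?_,
        (val_cst j _).symm⟩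
      intro i
      rw [hq]; simp
    · rintro ⟨e, -, b, -, q, a, -, h1 | ⟨c, -, d, -, -, -, -, h1⟩, -, h2⟩
      · obtain ⟨i', j, h3, rfl, h4⟩ := h1
        rw [cst_inj.1 h3]
        exact ⟨j, h4, by rw [h2, val_cst]⟩
      · exact absurd ⟨i, rfl⟩ h1.1
  · rw [mem_val_of_not hc]
    constructor
    · rintro ⟨e, c, hc', d, hd, q, h1, h2, h3, h4⟩
      obtain ⟨a, ha, -, h5⟩ := h.sum hz (hc'.trans h.mu_lt)
      obtain ⟨b, hb, -, h6⟩ := h.sum (ha.trans h.mu_lt) (hd.trans h.mu_lt)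
      refine ⟨e, (Ct_lt h2).1, b, hb, q, a, ha, Or.inr ⟨c, hc', d, hd, h1, h5, h6, h2⟩, ?_, ?_⟩
      · rw [h5, ← symm_assoc]; exact h3
      · rw [h6, h5, h4]
        simp only [symm_assoc]
    · rintro ⟨e, -, b, -, q, a, -, h1 | ⟨c, hc', d, hd, h1, h5, h6, h2⟩, h3, h4⟩
      · obtain ⟨i', j, h3, -⟩ := h1
        exact absurd ⟨i', h3⟩ hc
      · refine ⟨e, c, hc', d, hd, q, h1, h2, ?_, ?_⟩
        · rw [symm_assoc, ← h5]; exact h3
        · rw [h4, h6, h5]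
          simp only [symm_assoc]

/-! ### the forcing relation for equality -/

theorem Elt_lt {x z e b a : Ordinal.{0}} {q : ℕ} (h : Elt A μ x z e b q a) : e < x := by
  rcases h with ⟨i, j, rfl, rfl, h⟩ | ⟨c, -, d, -, -, -, -, h⟩
  · exact cst_lt.2 h
  · exact (Ct_lt h).1

section
variable (hA : Arith A) (h : Grd A κ μ)
include hA h

theorem Feq_mono {p p' : ℕ} {x y : Ordinal.{0} × Ordinal.{0}} (hp : Feq A μ p x y)
    (hle : leC p' p) : Feq A μ p' x y := by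
  unfold Feq at *
  rw [F_iff hA h.om_le] at hp ⊢
  exact ⟨fun e he b hb q a ha h1 r hr => hp.1 e he b hb q a ha h1 r (leC_trans hr hle),
    fun e he b hb q a ha h1 r hr => hp.2 e he b hb q a ha h1 r (leC_trans hr hle)⟩

/-- the obstruction to forcing equality -/
def Obs (A : ℕ → List ℕ → Prop) (μ : Ordinal.{0}) (p : ℕ) (x y : Ordinal.{0} × Ordinal.{0}) :
    Prop :=
  ∃ e < x.1, ∃ b₁ < μ, ∃ q : ℕ, ∃ a₁ < μ, Elt A μ x.1 x.2 e b₁ q a₁ ∧ leSh p q (zR A a₁) ∧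
    ∀ s, leC s p → ∀ e' < y.1, ∀ b₂ < μ, ∀ q' : ℕ, ∀ a₂ < μ, Elt A μ y.1 y.2 e' b₂ q' a₂ →
      leSh s q' (zR A a₂) → ¬ Feq A μ s (e, b₁) (e', b₂)

theorem exists_obs {p : ℕ} {x y : Ordinal.{0} × Ordinal.{0}} (hp : ¬ Feq A μ p x y) :
    ∃ r, leC r p ∧ (Obs A μ r x y ∨
      ∃ e' < y.1, ∃ b₂ < μ, ∃ q : ℕ, ∃ a₂ < μ, Elt A μ y.1 y.2 e' b₂ q a₂ ∧
        leSh r q (zR A a₂) ∧
        ∀ s, leC s r → ∀ e < x.1, ∀ b₁ < μ, ∀ q' : ℕ, ∀ a₁ < μ, Elt A μ x.1 x.2 e b₁ q' a₁ →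
          leSh s q' (zR A a₁) → ¬ Feq A μ s (e, b₁) (e', b₂)) := by
  unfold Feq at hp
  rw [F_iff hA h.om_le, not_and_or] at hp
  rcases hp with hp | hp
  · push Not at hp
    obtain ⟨e, he, b₁, hb, q, a, ha, h1, r, hr, h2, h3⟩ := hp
    refine ⟨r, hr, Or.inl ⟨e, he, b₁, hb, q, a, ha, h1, h2, ?_⟩⟩
    intro s hs e' he' b₂ hb₂ q' a₂ ha₂ h4 h5
    exact h3 s hs e' he' b₂ hb₂ q' a₂ ha₂ h4 h5
  · push Not at hp
    obtain ⟨e, he, b₁, hb, q, a, ha, h1, r, hr, h2, h3⟩ := hp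
    refine ⟨r, hr, Or.inr ⟨e, he, b₁, hb, q, a, ha, h1, h2, ?_⟩⟩
    intro s hs e' he' b₂ hb₂ q' a₂ ha₂ h4 h5
    exact h3 s hs e' he' b₂ hb₂ q' a₂ ha₂ h4 h5

theorem Feq_dense {p : ℕ} {x y : Ordinal.{0} × Ordinal.{0}}
    (hp : ∀ r, leC r p → ∃ s, leC s r ∧ Feq A μ s x y) : Feq A μ p x y := by
  have key : ∀ r, leC r p → ∀ s, leC s r → Feq A μ s x y → ∀ (Q : ℕ → Prop),
      (Feq A μ s x y → ∃ t, leC t s ∧ Q t) → ∃ t, leC t r ∧ Q t := by
    intro r _ s hs h1 Q h2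
    obtain ⟨t, h3, h4⟩ := h2 h1
    exact ⟨t, leC_trans h3 hs, h4⟩
  unfold Feq
  rw [F_iff hA h.om_le]
  constructor
  · intro e he b₁ hb q a ha h1 r hr h2
    obtain ⟨s, hs, h3⟩ := hp r hr
    refine key r hr s hs h3 _ fun h4 => ?_
    unfold Feq at h4
    rw [F_iff hA h.om_le] at h4
    exact h4.1 e he b₁ hb q a ha h1 s (leC_refl s) (leSh_mono h2 hs)
  · intro e he b₁ hb q a ha h1 r hr h2
    obtain ⟨s, hs, h3⟩ := hp r hr
    refine key r hr s hs h3 _ fun h4 => ?_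
    unfold Feq at h4
    rw [F_iff hA h.om_le] at h4
    exact h4.2 e he b₁ hb q a ha h1 s (leC_refl s) (leSh_mono h2 hs)

end

end Pool.Agent.CC
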