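import Mathlib
import Pool.Agent.Lib.MP_bf67b0_lc.Force2

/-!
# The truth lemma
-/

set_option autoImplicit false

namespace Pool.Agent.CC

open Ordinal Set

variable {A : ℕ → List ℕ → Prop} {κ μ : Ordinal.{0}} {g : Set ℕ} {C : Set Ordinal.{0}}

section
variable (hA : Arith A) (h : Grd A κ μ) (hC : PC κ C)
include hA h hC

/-- one element of `y` is forced to be equal to `x` -/
def Hit (A : ℕ → List ℕ → Prop) (μ : Ordinal.{0}) (s : ℕ) (x y : Ordinal.{0} × Ordinal.{0}) :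
    Prop :=
  ∃ e < y.1, ∃ b < μ, ∃ q : ℕ, ∃ a < μ, Elt A μ y.1 y.2 e b q a ∧ leSh s q (zR A a) ∧
    Feq A μ s x (e, b)

theorem DP.fHit {p : Ov → ℕ} {x y : Ov → Ordinal.{0} × Ordinal.{0}} (hp : DN A κ C p)
    (hx1 : DT A κ C (fun v => (x v).1)) (hx2 : DT A κ C (fun v => (x v).2))
    (hy1 : DT A κ C (fun v => (y v).1)) (hy2 : DT A κ C (fun v => (y v).2)) :
    DP A κ C (fun v => Hit A μ (p v) (x v) (y v)) := by
  have hμ := h.dmu (A := A) (C := C) hC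
  refine DP.exlt hC (Q := fun e v => ∃ b < μ,
    ∃ q, ∃ a < μ, Elt A μ (y v).1 (y v).2 e b q a ∧
    leSh (p v) q (zR A a) ∧ Feq A μ (p v) (x v) (e, b)) hy1 ?_
  refine DP.exlt hC (Q := fun b v =>
    ∃ q, ∃ a < μ, Elt A μ (y (ts v)).1 (y (ts v)).2 (v 0) b q a ∧
    leSh (p (ts v)) q (zR A a) ∧ Feq A μ (p (ts v)) (x (ts v)) (v 0, b)) hμ.shift ?_
  refine DP.exN hC (Q := fun q v => ∃ a < μ, Elt A μ (y (ts (ts v))).1
    (y (ts (ts v))).2 (v 1) (v 0) q a ∧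
    leSh (p (ts (ts v))) q (zR A a) ∧ Feq A μ (p (ts (ts v))) (x (ts (ts v))) (v 1, v 0)) ?_
  refine DP.exlt hC (Q := fun a v => Elt A μ (y (ts (ts (ts v)))).1
    (y (ts (ts (ts v)))).2 (v 2) (v 1) (nt (v 0)) a ∧
    leSh (p (ts (ts (ts v)))) (nt (v 0)) (zR A a) ∧
    Feq A μ (p (ts (ts (ts v)))) (x (ts (ts (ts v)))) (v 2, v 1)) hμ.shift ?_
  refine DP.and ?_ (DP.and ?_ ?_)
  · exact DP.fElt hC hA hμ hy1.shift.shift.shift.shift
      hy2.shift.shift.shift.shift (DT.var hC 3) (DT.var hC 2) (DN.var hC 1)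
      (DT.var hC 0)
  · exact DP.fleSh hC hA hp.shift.shift.shift.shift (DN.var hC 1) (DT.var hC 0)
  · exact DP.fFeq h hC (x := fun v => x (ts (ts (ts (ts v)))))
      (y := fun v => (v 3, v 2)) hp.shift.shift.shift.shift hx1.shift.shift.shift.shift
      hx2.shift.shift.shift.shift (DT.var hC 3) (DT.var hC 2)

/-- an element of `x` is forced not to be an element of `y` -/
theorem DP.fObs {p : Ov → ℕ} {x y : Ov → Ordinal.{0} × Ordinal.{0}} (hp : DN A κ C p)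
    (hx1 : DT A κ C (fun v => (x v).1)) (hx2 : DT A κ C (fun v => (x v).2))
    (hy1 : DT A κ C (fun v => (y v).1)) (hy2 : DT A κ C (fun v => (y v).2)) :
    DP A κ C (fun v => ∃ e < (x v).1, ∃ b < μ, ∃ q : ℕ, ∃ a < μ,
      Elt A μ (x v).1 (x v).2 e b q a ∧ leSh (p v) q (zR A a) ∧
      ∀ s, leC s (p v) → ¬ Hit A μ s (e, b) (y v)) := by
  have hμ := h.dmu (A := A) (C := C) hC
  refine DP.exlt hC (Q := fun e v => ∃ b < μ, ∃ q : ℕ, ∃ a < μ,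
      Elt A μ (x v).1 (x v).2 e b q a ∧ leSh (p v) q (zR A a) ∧
      ∀ s, leC s (p v) → ¬ Hit A μ s (e, b) (y v)) hx1 ?_
  refine DP.exlt hC (Q := fun b v => ∃ q : ℕ, ∃ a < μ,
      Elt A μ (x (ts v)).1 (x (ts v)).2 (v 0) b q a ∧ leSh (p (ts v)) q (zR A a) ∧
      ∀ s, leC s (p (ts v)) → ¬ Hit A μ s (v 0, b) (y (ts v))) hμ.shift ?_
  refine DP.exN hC (Q := fun q v => ∃ a < μ,
      Elt A μ (x (ts (ts v))).1 (x (ts (ts v))).2 (v 1) (v 0) q a ∧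
      leSh (p (ts (ts v))) q (zR A a) ∧
      ∀ s, leC s (p (ts (ts v))) → ¬ Hit A μ s (v 1, v 0) (y (ts (ts v)))) ?_
  refine DP.exlt hC (Q := fun a v =>
      Elt A μ (x (ts (ts (ts v)))).1 (x (ts (ts (ts v)))).2 (v 2) (v 1) (nt (v 0)) a ∧
      leSh (p (ts (ts (ts v)))) (nt (v 0)) (zR A a) ∧
      ∀ s, leC s (p (ts (ts (ts v)))) → ¬ Hit A μ s (v 2, v 1) (y (ts (ts (ts v)))))
      hμ.shift ?_
  refine DP.and ?_ (DP.and ?_ ?_)
  · exact DP.fElt hC hA hμ hx1.shift.shift.shift.shift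
      hx2.shift.shift.shift.shift (DT.var hC 3) (DT.var hC 2) (DN.var hC 1)
      (DT.var hC 0)
  · exact DP.fleSh hC hA hp.shift.shift.shift.shift (DN.var hC 1) (DT.var hC 0)
  · refine DP.allN hC (Q := fun s v => leC s (p (ts (ts (ts (ts v))))) →
      ¬ Hit A μ s (v 3, v 2) (y (ts (ts (ts (ts v)))))) ?_
    refine (DP.fleC hC hA (DN.var hC 0) hp.shift.shift.shift.shift.shift).imp (DP.not ?_)
    exact DP.fHit hA h hC (x := fun v => (v 4, v 3)) (DN.var hC 0) (DT.var hC 4)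
      (DT.var hC 3) hy1.shift.shift.shift.shift.shift hy2.shift.shift.shift.shift.shift

end

section
variable (hA : Arith A) (h : Grd A κ μ)
include hA h

theorem Feq_iff {p : ℕ} {x y : Ordinal.{0} × Ordinal.{0}} : Feq A μ p x y ↔
    (∀ e < x.1, ∀ b₁ < μ, ∀ q : ℕ, ∀ a₁ < μ, Elt A μ x.1 x.2 e b₁ q a₁ → ∀ r, leC r p →
      leSh r q (zR A a₁) → ∃ s, leC s r ∧ Hit A μ s (e, b₁) y) ∧
    (∀ e' < y.1, ∀ b₂ < μ, ∀ q : ℕ, ∀ a₂ < μ, Elt A μ y.1 y.2 e' b₂ q a₂ → ∀ r, leC r p →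
      leSh r q (zR A a₂) → ∃ s, leC s r ∧ ∃ e < x.1, ∃ b₁ < μ, ∃ q' : ℕ, ∃ a₁ < μ,
        Elt A μ x.1 x.2 e b₁ q' a₁ ∧ leSh s q' (zR A a₁) ∧ Feq A μ s (e, b₁) (e', b₂)) := by
  unfold Feq
  rw [F_iff hA h.om_le]
  rfl

/-- equality is forced symmetrically -/
theorem Feq_symm : ∀ (x y : Ordinal.{0} × Ordinal.{0}) (p : ℕ), Feq A μ p x y →
    Feq A μ p y x := by
  intro x
  obtain ⟨x, z⟩ := x
  induction x using WellFoundedLT.induction generalizing z with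
  | ind x ih =>
  intro y p hp
  rw [Feq_iff hA h] at hp ⊢
  refine ⟨?_, ?_⟩
  · intro e' he' b₂ hb₂ q a₂ ha₂ h1 r hr h2
    obtain ⟨s, hs, e, he, b₁, hb₁, q', a₁, ha₁, h3, h4, h5⟩ := hp.2 e' he' b₂ hb₂ q a₂ ha₂ h1 r
      hr h2
    exact ⟨s, hs, e, he, b₁, hb₁, q', a₁, ha₁, h3, h4, ih e he b₁ _ _ h5⟩
  · intro e he b₁ hb₁ q a₁ ha₁ h1 r hr h2
    obtain ⟨s, hs, e', he', b₂, hb₂, q', a₂, ha₂, h3, h4, h5⟩ := hp.1 e he b₁ hb₁ q a₁ ha₁ h1 r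
      hr h2
    exact ⟨s, hs, e', he', b₂, hb₂, q', a₂, ha₂, h3, h4, ih e he b₁ _ _ h5⟩

theorem Hit_mono {s s' : ℕ} {x y : Ordinal.{0} × Ordinal.{0}} (hs : Hit A μ s x y)
    (hle : leC s' s) : Hit A μ s' x y := by
  obtain ⟨e, he, b, hb, q, a, ha, h1, h2, h3⟩ := hs
  exact ⟨e, he, b, hb, q, a, ha, h1, leSh_mono h2 hle, Feq_mono hA h h3 hle⟩

/-- failure of forced equality, in terms of an obstruction -/
theorem exists_obs' {p : ℕ} {x y : Ordinal.{0} × Ordinal.{0}} (hp : ¬ Feq A μ p x y) :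
    ∃ r, leC r p ∧ ((∃ e < x.1, ∃ b < μ, ∃ q : ℕ, ∃ a < μ,
      Elt A μ x.1 x.2 e b q a ∧ leSh r q (zR A a) ∧ ∀ s, leC s r → ¬ Hit A μ s (e, b) y) ∨
      (∃ e < y.1, ∃ b < μ, ∃ q : ℕ, ∃ a < μ,
      Elt A μ y.1 y.2 e b q a ∧ leSh r q (zR A a) ∧ ∀ s, leC s r → ¬ Hit A μ s (e, b) x)) := by
  rw [Feq_iff hA h, not_and_or] at hp
  rcases hp with hp | hp
  · push Not at hp
    obtain ⟨e, he, b₁, hb, q, a, ha, h1, r, hr, h2, h3⟩ := hp
    exact ⟨r, hr, Or.inl ⟨e, he, b₁, hb, q, a, ha, h1, h2, h3⟩⟩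
  · push Not at hp
    obtain ⟨e, he, b₁, hb, q, a, ha, h1, r, hr, h2, h3⟩ := hp
    refine ⟨r, hr, Or.inr ⟨e, he, b₁, hb, q, a, ha, h1, h2, ?_⟩⟩
    rintro s hs ⟨e', he', b₂, hb₂, q', a₂, ha₂, h4, h5, h6⟩
    exact h3 s hs e' he' b₂ hb₂ q' a₂ ha₂ h4 h5 (Feq_symm hA h _ _ _ h6)

variable (hg : Gen A κ g)
include hg

/-- the truth lemma for equality -/
theorem truth_eq : ∀ x < κ, ∀ y < κ, ∀ a < μ, ∀ b < μ,
    (val A μ x (symmDiff g (zR A a)) = val A μ y (symmDiff g (zR A b)) ↔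
      ∃ p, inC p g ∧ Feq A μ p (x, a) (y, b)) := by
  have hC := h.pc
  have hμ := h.mu_lt
  intro x
  induction x using WellFoundedLT.induction with
  | ind x ih =>
  intro hx y hy a ha b hb
  -- the basic step
  have hit : ∀ e < κ, ∀ b₁ < μ, (∀ e' < κ, ∀ b₂ < μ,
      (∃ p, inC p g ∧ Feq A μ p (e, b₁) (e', b₂)) →
      val A μ e (symmDiff g (zR A b₁)) = val A μ e' (symmDiff g (zR A b₂))) →
      ∀ y' < κ, ∀ b' < μ, ∀ p, inC p g → (∀ r, leC r p → ∃ s, leC s r ∧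
        Hit A μ s (e, b₁) (y', b')) →
      val A μ e (symmDiff g (zR A b₁)) ∈ val A μ y' (symmDiff g (zR A b')) := by
    intro e he b₁ hb₁ hyp y' hy' b' hb' p hp hd
    obtain ⟨s, hs, -, e', he', b₂, hb₂, q', a₂, ha₂, h1, h2, h3⟩ := hg.meet hA h
      (P := fun s => Hit A μ s (e, b₁) (y', b'))
      (DP.fHit hA h hC (x := fun _ => (e, b₁)) (y := fun _ => (y', b')) (DN.var hC 0)
        (DT.const hC he) (DT.const hC (hb₁.trans hμ)) (DT.const hC hy')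
        (DT.const hC (hb'.trans hμ))) hp hd
    rw [mem_val h y' (hb'.trans hμ)]
    exact ⟨e', he', b₂, hb₂, q', a₂, ha₂, h1, leSh_inC h2 hs,
      hyp e' (he'.trans hy') b₂ hb₂ ⟨s, hs, h3⟩⟩
  constructor
  · intro heq
    obtain ⟨p0, hp0⟩ := exists_seg g 0
    obtain ⟨p, hp, -, h1⟩ := hg.meet hA h (P := fun p => Feq A μ p (x, a) (y, b) ∨
      ((∃ e < x, ∃ b₁ < μ, ∃ q : ℕ, ∃ a₁ < μ,
      Elt A μ x a e b₁ q a₁ ∧ leSh p q (zR A a₁) ∧ ∀ s, leC s p → ¬ Hit A μ s (e, b₁) (y, b)) ∨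
      (∃ e < y, ∃ b₁ < μ, ∃ q : ℕ, ∃ a₁ < μ,
      Elt A μ y b e b₁ q a₁ ∧ leSh p q (zR A a₁) ∧ ∀ s, leC s p → ¬ Hit A μ s (e, b₁) (x, a))))
      (p := p0) ((DP.fFeq h hC (x := fun _ => (x, a)) (y := fun _ => (y, b)) (DN.var hC 0)
        (DT.const hC hx) (DT.const hC (ha.trans hμ)) (DT.const hC hy)
        (DT.const hC (hb.trans hμ))).or
        ((DP.fObs hA h hC (x := fun _ => (x, a)) (y := fun _ => (y, b)) (DN.var hC 0)
        (DT.const hC hx) (DT.const hC (ha.trans hμ)) (DT.const hC hy)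
        (DT.const hC (hb.trans hμ))).or
        (DP.fObs hA h hC (x := fun _ => (y, b)) (y := fun _ => (x, a)) (DN.var hC 0)
        (DT.const hC hy) (DT.const hC (hb.trans hμ)) (DT.const hC hx)
        (DT.const hC (ha.trans hμ))))) (inC_seg hp0)
      (fun r _ => by
        by_cases hF : Feq A μ r (x, a) (y, b)
        · exact ⟨r, leC_refl r, Or.inl hF⟩
        · obtain ⟨s, hs, h2⟩ := exists_obs' hA h hF
          exact ⟨s, hs, Or.inr h2⟩)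
    rcases h1 with h1 | ⟨e, he, b₁, hb₁, q, a₁, ha₁, h1, h2, h3⟩ |
      ⟨e', he', b₂, hb₂, q, a₂, ha₂, h1, h2, h3⟩
    · exact ⟨p, hp, h1⟩
    · exfalso
      have hw : val A μ e (symmDiff g (zR A b₁)) ∈ val A μ x (symmDiff g (zR A a)) := by
        rw [mem_val h x (ha.trans hμ)]
        exact ⟨e, he, b₁, hb₁, q, a₁, ha₁, h1, leSh_inC h2 hp, rfl⟩
      rw [heq, mem_val h y (hb.trans hμ)] at hw
      obtain ⟨e', he', b₂, hb₂, q', a₂, ha₂, h4, h5, h6⟩ := hw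
      obtain ⟨p', hp', h7⟩ := (ih e he (he.trans hx) e' (he'.trans hy) b₁ hb₁ b₂ hb₂).1 h6
      obtain ⟨s, hs, h8, h9⟩ := inC_dir hp hp'
      obtain ⟨t, ht, h10, h11⟩ := leSh_of_inC h5 hs
      exact h3 t (leC_trans h10 h8) ⟨e', he', b₂, hb₂, q', a₂, ha₂, h4, h11,
        Feq_mono hA h h7 (leC_trans h10 h9)⟩
    · exfalso
      have hw : val A μ e' (symmDiff g (zR A b₂)) ∈ val A μ y (symmDiff g (zR A b)) := by
        rw [mem_val h y (hb.trans hμ)]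
        exact ⟨e', he', b₂, hb₂, q, a₂, ha₂, h1, leSh_inC h2 hp, rfl⟩
      rw [← heq, mem_val h x (ha.trans hμ)] at hw
      obtain ⟨e, he, b₁, hb₁, q', a₁, ha₁, h4, h5, h6⟩ := hw
      obtain ⟨p', hp', h7⟩ := (ih e he (he.trans hx) e' (he'.trans hy) b₁ hb₁ b₂ hb₂).1 h6.symm
      obtain ⟨s, hs, h8, h9⟩ := inC_dir hp hp'
      obtain ⟨t, ht, h10, h11⟩ := leSh_of_inC h5 hs
      exact h3 t (leC_trans h10 h8) ⟨e, he, b₁, hb₁, q', a₁, ha₁, h4, h11,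
        Feq_symm hA h _ _ _ (Feq_mono hA h h7 (leC_trans h10 h9))⟩
  · rintro ⟨p, hp, hF⟩
    have hF' := hF
    rw [Feq_iff hA h] at hF'
    ext w
    constructor
    · intro hw
      rw [mem_val h x (ha.trans hμ)] at hw
      obtain ⟨e, he, b₁, hb₁, q, a₁, ha₁, h1, h2, rfl⟩ := hw
      obtain ⟨s, hs, h3, h4⟩ := leSh_of_inC h2 hp
      exact hit e (he.trans hx) b₁ hb₁ (fun e' he' b₂ hb₂ h5 =>
        (ih e he (he.trans hx) e' he' b₁ hb₁ b₂ hb₂).2 h5) y hy b hb s hs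
        (fun r hr => hF'.1 e he b₁ hb₁ q a₁ ha₁ h1 r (leC_trans hr h3) (leSh_mono h4 hr))
    · intro hw
      rw [mem_val h y (hb.trans hμ)] at hw
      obtain ⟨e', he', b₂, hb₂, q, a₂, ha₂, h1, h2, rfl⟩ := hw
      obtain ⟨s, hs, h3, h4⟩ := leSh_of_inC h2 hp
      obtain ⟨t, ht, -, e, he, b₁, hb₁, q', a₁, ha₁, h5, h6, h7⟩ := hg.meet hA h
        (P := fun s => Hit A μ s (e', b₂) (x, a))
        (DP.fHit hA h hC (x := fun _ => (e', b₂)) (y := fun _ => (x, a)) (DN.var hC 0)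
          (DT.const hC (he'.trans hy)) (DT.const hC (hb₂.trans hμ)) (DT.const hC hx)
          (DT.const hC (ha.trans hμ))) hs (fun r hr => by
            obtain ⟨t, h5, e, he, b₁, hb₁, q', a₁, ha₁, h6, h7, h8⟩ :=
              hF'.2 e' he' b₂ hb₂ q a₂ ha₂ h1 r (leC_trans hr h3) (leSh_mono h4 hr)
            exact ⟨t, h5, e, he, b₁, hb₁, q', a₁, ha₁, h6, h7, Feq_symm hA h _ _ _ h8⟩)
      rw [mem_val h x (ha.trans hμ)]
      exact ⟨e, he, b₁, hb₁, q', a₁, ha₁, h5, leSh_inC h6 ht,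
        ((ih e he (he.trans hx) e' (he'.trans hy) b₁ hb₁ b₂ hb₂).2
          ⟨t, ht, Feq_symm hA h _ _ _ h7⟩).symm⟩

end

end Pool.Agent.CC
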