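import Mathlib
import Pool.Agent.Lib.MP_bf67b0_lc.Force3

/-!
# The truth lemma for all formulas
-/

set_option autoImplicit false

namespace Pool.Agent.CC

open Ordinal Set

variable {A : ℕ → List ℕ → Prop} {κ μ : Ordinal.{0}} {g : Set ℕ} {C : Set Ordinal.{0}}

section
variable (hA : Arith A) (h : Grd A κ μ)
include hA h

theorem Fc_mono (φ : Fm) : ∀ {p q : ℕ} {u : ℕ → Ordinal.{0} × Ordinal.{0}},
    Fc A κ μ φ p u → leC q p → Fc A κ μ φ q u := by
  induction φ with
  | bot => intro p q u hp _; exact hp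
  | eq i j => intro p q u hp hq; exact Feq_mono hA h hp hq
  | rel R xs =>
    intro p q u hp hq
    by_cases hR : R = .mem
    · subst hR
      obtain ⟨i, j, h1, h2⟩ := hp
      exact ⟨i, j, h1, fun r hr => h2 r (leC_trans hr hq)⟩
    · rw [Fc_rel hR] at hp ⊢
      exact fun r hr => hp r (leC_trans hr hq)
  | imp φ ψ _ _ =>
    intro p q u hp hq
    exact fun r hr => hp r (leC_trans hr hq)
  | all i φ ih =>
    intro p q u hp hq
    exact fun x hx a ha => ih (hp x hx a ha) hq

theorem Fc_dense (φ : Fm) : ∀ {p : ℕ} {u : ℕ → Ordinal.{0} × Ordinal.{0}},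
    (∀ r, leC r p → ∃ s, leC s r ∧ Fc A κ μ φ s u) → Fc A κ μ φ p u := by
  induction φ with
  | bot =>
    intro p u hp
    obtain ⟨s, -, hs⟩ := hp p (leC_refl p)
    exact hs
  | eq i j => intro p u hp; exact Feq_dense hA h hp
  | rel R xs =>
    intro p u hp
    by_cases hR : R = .mem
    · subst hR
      obtain ⟨s, -, i, j, rfl, -⟩ := hp p (leC_refl p)
      refine ⟨i, j, rfl, fun r hr => ?_⟩
      obtain ⟨s, hs, i', j', h1, h2⟩ := hp r hr
      simp only [List.cons.injEq, and_true] at h1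
      obtain ⟨rfl, rfl⟩ := h1
      obtain ⟨t, ht, h3⟩ := h2 s (leC_refl s)
      exact ⟨t, leC_trans ht hs, h3⟩
    · rw [Fc_rel hR]
      intro r hr
      obtain ⟨s, hs, h1⟩ := hp r hr
      rw [Fc_rel hR] at h1
      obtain ⟨t, ht, h3⟩ := h1 s (leC_refl s)
      exact ⟨t, leC_trans ht hs, h3⟩
  | imp φ ψ _ ih2 =>
    intro p u hp q hq h1
    refine ih2 fun r hr => ?_
    obtain ⟨s, hs, h2⟩ := hp r (leC_trans hr hq)
    exact ⟨s, hs, h2 s (leC_refl s) (Fc_mono hA h φ h1 (leC_trans hs hr))⟩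
  | all i φ ih =>
    intro p u hp x hx a ha
    refine ih fun r hr => ?_
    obtain ⟨s, hs, h1⟩ := hp r hr
    exact ⟨s, hs, h1 x hx a ha⟩

theorem exists_not_Fc {φ : Fm} {p : ℕ} {u : ℕ → Ordinal.{0} × Ordinal.{0}}
    (hp : ¬ Fc A κ μ φ p u) : ∃ r, leC r p ∧ ∀ s, leC s r → ¬ Fc A κ μ φ s u := by
  by_contra hcon
  push Not at hcon
  exact hp (Fc_dense hA h φ hcon)

/-- definability of the forcing relation with fixed names -/
theorem DP.fFc' (φ : Fm) {u : ℕ → Ordinal.{0} × Ordinal.{0}}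
    (hu : ∀ k, (u k).1 < κ ∧ (u k).2 < μ) {p : Ov → ℕ} (hp : DN A κ (Set.Iio κ) p) :
    DP A κ (Set.Iio κ) (fun v => Fc A κ μ φ (p v) u) :=
  DP.fFc hA h h.pc φ (u := fun _ => u) hp (fun k => DT.const h.pc (hu k).1)
    (fun k => DT.const h.pc ((hu k).2.trans h.mu_lt))

variable (hg : Gen A κ g)
include hg

/-- the truth lemma for membership -/
theorem truth_mem {x y : Ordinal.{0} × Ordinal.{0}} (hx : x.1 < κ ∧ x.2 < μ)
    (hy : y.1 < κ ∧ y.2 < μ) : val A μ x.1 (symmDiff g (zR A x.2)) ∈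
      val A μ y.1 (symmDiff g (zR A y.2)) ↔ ∃ p, inC p g ∧ Fmem A μ p x y := by
  have hC := h.pc
  have hμ := h.mu_lt
  rw [mem_val h y.1 (hy.2.trans hμ)]
  constructor
  · rintro ⟨e, he, b, hb, q, a, ha, h1, h2, h3⟩
    obtain ⟨p, hp, h4⟩ := (truth_eq hA h hg x.1 hx.1 e (he.trans hy.1) x.2 hx.2 b hb).1 h3
    obtain ⟨s, hs, h5, h6⟩ := leSh_of_inC h2 hp
    exact ⟨s, hs, fun r hr => ⟨r, leC_refl r, e, he, b, hb, q, a, ha, h1, leSh_mono h6 hr,
      Feq_mono hA h h4 (leC_trans hr h5)⟩⟩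
  · rintro ⟨p, hp, h1⟩
    obtain ⟨s, hs, -, e, he, b, hb, q, a, ha, h2, h3, h4⟩ := hg.meet hA h
      (P := fun s => Hit A μ s x y)
      (DP.fHit hA h hC (x := fun _ => x) (y := fun _ => y) (DN.var hC 0)
        (DT.const hC hx.1) (DT.const hC (hx.2.trans hμ)) (DT.const hC hy.1)
        (DT.const hC (hy.2.trans hμ))) hp h1
    exact ⟨e, he, b, hb, q, a, ha, h2, leSh_inC h3 hs,
      (truth_eq hA h hg x.1 hx.1 e (he.trans hy.1) x.2 hx.2 b hb).2 ⟨s, hs, h4⟩⟩

theorem truth_list {u : ℕ → Ordinal.{0} × Ordinal.{0}}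
    (hu : ∀ k, (u k).1 < κ ∧ (u k).2 < μ) : ∀ (xs : List ℕ) (l : List Ordinal.{0}),
    (∀ a ∈ l, a < κ) →
    (xs.map (fun k => val A μ (u k).1 (symmDiff g (zR A (u k).2))) = l.map toZFSet ↔
      ∃ p, inC p g ∧ List.Forall₂ (fun i a => Feq A μ p (u i) (cst a, 0)) xs l) := by
  have hμ0 : 0 < μ := lt_of_lt_of_le omega0_pos h.om_le
  intro xs
  induction xs with
  | nil =>
    intro l _
    constructor
    · intro h1
      have : l = [] := by simpa using h1.symm
      subst this
      obtain ⟨p0, hp0⟩ := exists_seg g 0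
      exact ⟨p0, inC_seg hp0, List.Forall₂.nil⟩
    · rintro ⟨p, -, h1⟩
      rw [List.forall₂_nil_left_iff] at h1
      subst h1; rfl
  | cons i xs ih =>
    intro l hl
    constructor
    · intro h1
      match l, hl, h1 with
      | [], _, h1 => exact absurd h1 (by simp)
      | a :: l, hl, h1 =>
        simp only [List.map_cons, List.cons.injEq] at h1
        obtain ⟨p, hp, h2⟩ := (ih l (fun b hb => hl b (List.mem_cons_of_mem _ hb))).1 h1.2
        have h3 : val A μ (u i).1 (symmDiff g (zR A (u i).2)) =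
            val A μ (cst a) (symmDiff g (zR A 0)) := by rw [h1.1, val_cst]
        obtain ⟨q, hq, h4⟩ := (truth_eq hA h hg _ (hu i).1 _
          (h.cst_lt (hl a List.mem_cons_self)) _ (hu i).2 _ hμ0).1 h3
        obtain ⟨r, hr, h5, h6⟩ := inC_dir hp hq
        exact ⟨r, hr, List.Forall₂.cons (Feq_mono hA h h4 h6)
          (h2.imp fun _ _ h7 => Feq_mono hA h h7 h5)⟩
    · rintro ⟨p, hp, h1⟩
      rw [List.forall₂_cons_left_iff] at h1
      obtain ⟨a, l', h2, h3, rfl⟩ := h1
      simp only [List.map_cons, List.cons.injEq]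
      refine ⟨?_, (ih l' (fun b hb => hl b (List.mem_cons_of_mem _ hb))).2 ⟨p, hp, h3⟩⟩
      rw [(truth_eq hA h hg _ (hu i).1 _ (h.cst_lt (hl a List.mem_cons_self)) _ (hu i).2 _
        hμ0).2 ⟨p, hp, h2⟩, val_cst]

theorem NI_rel {R : Sy} (hR : R ≠ .mem) (l : List ZFSet.{0}) : NI A κ R l ↔
    ∃ l' : List Ordinal.{0}, (∀ a ∈ l', a < κ) ∧ l = l'.map toZFSet ∧ II A R l' := by
  cases R <;> first | exact absurd rfl hR | rfl

/-- the truth lemma -/
theorem truth (φ : Fm) : ∀ (u : ℕ → Ordinal.{0} × Ordinal.{0})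
    (_ : ∀ k, (u k).1 < κ ∧ (u k).2 < μ),
    (Sat (NI A κ) (NN A κ μ g) (fun k => val A μ (u k).1 (symmDiff g (zR A (u k).2))) φ ↔
      ∃ p, inC p g ∧ Fc A κ μ φ p u) := by
  have hC := h.pc
  obtain ⟨p0, hp0⟩ := exists_seg g 0
  have hp0 : inC p0 g := inC_seg hp0
  induction φ with
  | bot =>
    intro u _
    constructor
    · exact fun h => h.elim
    · rintro ⟨p, -, h⟩; exact h
  | eq i j =>
    intro u hu
    exact truth_eq hA h hg _ (hu i).1 _ (hu j).1 _ (hu i).2 _ (hu j).2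
  | rel R xs =>
    intro u hu
    by_cases hR : R = .mem
    · subst hR
      rw [Sat_rel]
      constructor
      · rintro ⟨x, y, h1, h2⟩
        match xs, h1 with
        | [i, j], h1 =>
          simp only [List.map_cons, List.map_nil, List.cons.injEq, and_true] at h1
          obtain ⟨rfl, rfl⟩ := h1
          obtain ⟨p, hp, h3⟩ := (truth_mem hA h hg (hu i) (hu j)).1 h2
          exact ⟨p, hp, i, j, rfl, h3⟩
      · rintro ⟨p, hp, i, j, rfl, h1⟩
        exact ⟨_, _, rfl, (truth_mem hA h hg (hu i) (hu j)).2 ⟨p, hp, h1⟩⟩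
    · rw [Sat_rel, NI_rel hA h hg hR]
      constructor
      · rintro ⟨l, hl, h1, h2⟩
        obtain ⟨p, hp, h3⟩ := (truth_list hA h hg hu xs l hl).1 h1
        refine ⟨p, hp, ?_⟩
        rw [Fc_rel hR]
        exact fun r hr => ⟨r, leC_refl r, l, hl, h3.imp fun _ _ h4 => Feq_mono hA h h4 hr, h2⟩
      · rintro ⟨p, hp, h1⟩
        rw [Fc_rel hR] at h1
        obtain ⟨s, hs, -, l, hl, h2, h3⟩ := hg.meet hA h
          (P := fun s => ∃ l : List Ordinal.{0}, (∀ a ∈ l, a < κ) ∧
            List.Forall₂ (fun i a => Feq A μ s (u i) (cst a, 0)) xs l ∧ II A R l)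
          ((DP.fFrel hA h hC R xs [] (fun v => nt (v 0)) (fun _ => u) (by simp)
            (DN.var hC 0) (fun k => DT.const hC (hu k).1)
            (fun k => DT.const hC ((hu k).2.trans h.mu_lt))).congr fun v _ => by simp) hp h1
        exact ⟨l, hl, (truth_list hA h hg hu xs l hl).2 ⟨s, hs, h2⟩, h3⟩
  | imp φ ψ ih1 ih2 =>
    intro u hu
    rw [Sat_imp, ih1 u hu, ih2 u hu]
    constructor
    · intro himp
      obtain ⟨p, hp, -, h1⟩ := hg.meet hA h (P := fun p => Fc A κ μ (.imp φ ψ) p u ∨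
        (Fc A κ μ φ p u ∧ ∀ q, leC q p → ¬ Fc A κ μ ψ q u))
        ((DP.fFc' hA h (.imp φ ψ) hu (DN.var hC 0)).or
          ((DP.fFc' hA h φ hu (DN.var hC 0)).and
          (DP.allN hC (Q := fun q v => leC q (nt (v 0)) → ¬ Fc A κ μ ψ q u)
            ((DP.fleC hC hA (DN.var hC 0) (DN.var hC 1)).imp
            (DP.fFc' hA h ψ hu (DN.var hC 0)).not)))) hp0
        (fun r _ => by
          by_cases hr : Fc A κ μ (.imp φ ψ) r u
          · exact ⟨r, leC_refl r, Or.inl hr⟩
          · have hr' : ¬ ∀ q, leC q r → Fc A κ μ φ q u → Fc A κ μ ψ q u := hr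
            push Not at hr'
            obtain ⟨q, hq, h2, h3⟩ := hr'
            obtain ⟨s, hs, h4⟩ := exists_not_Fc hA h h3
            exact ⟨s, leC_trans hs hq, Or.inr ⟨Fc_mono hA h φ h2 hs, h4⟩⟩)
      rcases h1 with h1 | ⟨h1, h2⟩
      · exact ⟨p, hp, h1⟩
      · obtain ⟨q, hq, h3⟩ := himp ⟨p, hp, h1⟩
        obtain ⟨r, hr, h4, h5⟩ := inC_dir hp hq
        exact absurd (Fc_mono hA h ψ h3 h5) (h2 r h4)
    · rintro ⟨p, hp, h1⟩ ⟨q, hq, h2⟩
      obtain ⟨r, hr, h4, h5⟩ := inC_dir hp hq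
      exact ⟨r, hr, h1 r h4 (Fc_mono hA h φ h2 h5)⟩
  | all i φ ih =>
    intro u hu
    have hupd : ∀ x < κ, ∀ a < μ, ∀ k, (Function.update u i (x, a) k).1 < κ ∧
        (Function.update u i (x, a) k).2 < μ := by
      intro x hx a ha k
      by_cases hk : k = i
      · subst hk; simp only [Function.update_self]; exact ⟨hx, ha⟩
      · simp only [Function.update_of_ne hk]; exact hu k
    have hval : ∀ x a, (fun k => val A μ (Function.update u i (x, a) k).1
        (symmDiff g (zR A (Function.update u i (x, a) k).2))) =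
        Function.update (fun k => val A μ (u k).1 (symmDiff g (zR A (u k).2))) i
          (val A μ x (symmDiff g (zR A a))) := by
      intro x a
      funext k
      by_cases hk : k = i
      · subst hk; simp only [Function.update_self]
      · simp only [Function.update_of_ne hk]
    have key : Sat (NI A κ) (NN A κ μ g)
        (fun k => val A μ (u k).1 (symmDiff g (zR A (u k).2))) (.all i φ) ↔
        ∀ x < κ, ∀ a < μ, ∃ p, inC p g ∧ Fc A κ μ φ p (Function.update u i (x, a)) := by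
      rw [Sat_all]
      constructor
      · intro h1 x hx a ha
        rw [← ih _ (hupd x hx a ha), hval]
        exact h1 _ ⟨x, hx, a, ha, rfl⟩
      · rintro h1 w ⟨x, hx, a, ha, rfl⟩
        rw [← hval, ih _ (hupd x hx a ha)]
        exact h1 x hx a ha
    rw [key]
    constructor
    · intro hall
      obtain ⟨p, hp, -, h1⟩ := hg.meet hA h (P := fun p => Fc A κ μ (.all i φ) p u ∨
        (∃ x < κ, ∃ a < μ, ∀ q, leC q p → ¬ Fc A κ μ φ q (Function.update u i (x, a))))
        ((DP.fFc' hA h (.all i φ) hu (DN.var hC 0)).or (by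
          refine DP.ex (Q := fun x v => ∃ a < μ, ∀ q, leC q (nt (v 0)) →
            ¬ Fc A κ μ φ q (Function.update u i (x, a))) ?_
          refine DP.exlt hC (Q := fun a v => ∀ q, leC q (nt (v 1)) →
            ¬ Fc A κ μ φ q (Function.update u i (v 0, a))) (h.dmu hC) ?_
          refine DP.allN hC (Q := fun q v => leC q (nt (v 2)) →
            ¬ Fc A κ μ φ q (Function.update u i (v 1, v 0))) ?_
          refine (DP.fleC hC hA (DN.var hC 0) (DN.var hC 3)).imp (DP.not ?_)
          refine DP.fFc hA h hC φ (u := fun v => Function.update u i (v 2, v 1)) (DN.var hC 0)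
            (fun k => ?_) (fun k => ?_)
          · by_cases hk : k = i
            · subst hk
              simp only [Function.update_self]
              exact DT.var hC 2
            · simp only [Function.update_of_ne hk]
              exact DT.const hC (hu k).1
          · by_cases hk : k = i
            · subst hk
              simp only [Function.update_self]
              exact DT.var hC 1
            · simp only [Function.update_of_ne hk]
              exact DT.const hC ((hu k).2.trans h.mu_lt))) hp0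
        (fun r _ => by
          by_cases hr : Fc A κ μ (.all i φ) r u
          · exact ⟨r, leC_refl r, Or.inl hr⟩
          · have hr' : ¬ ∀ x < κ, ∀ a < μ, Fc A κ μ φ r (Function.update u i (x, a)) := hr
            push Not at hr'
            obtain ⟨x, hx, a, ha, h3⟩ := hr'
            obtain ⟨s, hs, h4⟩ := exists_not_Fc hA h h3
            exact ⟨s, hs, Or.inr ⟨x, hx, a, ha, h4⟩⟩)
      rcases h1 with h1 | ⟨x, hx, a, ha, h2⟩
      · exact ⟨p, hp, h1⟩
      · obtain ⟨q, hq, h3⟩ := hall x hx a ha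
        obtain ⟨r, hr, h4, h5⟩ := inC_dir hp hq
        exact absurd (Fc_mono hA h φ h3 h5) (h2 r h4)
    · rintro ⟨p, hp, h1⟩ x hx a ha
      exact ⟨p, hp, h1 x hx a ha⟩

end

end Pool.Agent.CC
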