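import Mathlib
import Pool.Agent.Lib.MP_bf67b0_lc.Force4

/-!
# Construction of names
-/

set_option autoImplicit false

namespace Pool.Agent.CC

open Ordinal Set

variable {A : ℕ → List ℕ → Prop} {κ μ : Ordinal.{0}} {g : Set ℕ} {C : Set Ordinal.{0}}

theorem Tr_bound {e d t L : Ordinal.{0}} {q : ℕ} (h : Tr e d q t) (he : e < L) (hd : d < L) :
    t < code (L + 1) 0 0 := by
  have h0 : (0 : Ordinal.{0}) < L + 1 := lt_of_le_of_lt zero_le (Order.lt_add_one_iff.2 le_rfl)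
  obtain ⟨-, ⟨h1, rfl⟩ | ⟨h1, rfl⟩⟩ := h
  · exact (code_lt_iff h1 h0).2 (Or.inl (add_one_lt_iff'.2 he))
  · exact (code_lt_iff h1 h0).2 (Or.inl (add_one_lt_iff'.2 hd))

/-- a name with a given definable content: `e` ranges over the ordinals below `L`, `d` over the
codes of reals; the pair `(e, d) = (0, 0)` is excluded (it has no code) -/
theorem Grd.mkName (hA : Arith A) (h : Grd A κ μ) {P : Ordinal.{0} → Ordinal.{0} → ℕ → Prop}
    (hP : DP A κ (Set.Iio κ) (fun v => P (v 0) (v 1) (nt (v 2)))) {L : Ordinal.{0}} (hL : L < κ)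
    (m : ℕ) : ∃ y < κ, (¬ ∃ a, y = cst a) ∧ supp A y = m ∧
      ∀ e d q, Ct A y e d q ↔ e < L ∧ d < μ ∧ (e ≠ 0 ∨ d ≠ 0) ∧ P e d q := by
  have hC := h.pc
  set M := max L μ + 1 with hM
  have hMκ : M < κ := h.succ_lt _ (max_lt hL h.mu_lt)
  have hLM : L < M := lt_of_le_of_lt (le_max_left _ _) (Order.lt_add_one_iff.2 le_rfl)
  have hμM : μ < M := lt_of_le_of_lt (le_max_right _ _) (Order.lt_add_one_iff.2 le_rfl)
  have h0 : (0 : Ordinal.{0}) < M + 1 := lt_of_le_of_lt zero_le (Order.lt_add_one_iff.2 le_rfl)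
  set l := code (M + 1) 0 0 with hl
  have hlκ : l < κ := h.code_lt _ (h.succ_lt _ hMκ) _ h0 _
  have h2 : 2 ≤ M + 1 := by
    rw [← one_add_one_eq_two]
    exact add_one_le_iff'.2 (Order.one_le_iff_pos.2 (lt_of_le_of_lt zero_le hLM))
  have hωl : ω ≤ l := om_le_code h2 h0 0
  have hdef : DP A κ (Set.Iio κ) (fun v => v 0 = (m : Ordinal.{0}) ∨
      ∃ e < L, ∃ d < μ, ∃ q : ℕ, P e d q ∧ Tr e d q (v 0)) := by
    refine (DP.eq hC (DT.var hC 0) (DT.nat hC m)).or ?_
    refine DP.exlt hC (Q := fun e v => ∃ d < μ, ∃ q : ℕ, P e d q ∧ Tr e d q (v 0))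
      (DT.const hC hL) ?_
    refine DP.exlt hC (Q := fun d v => ∃ q : ℕ, P (v 0) d q ∧ Tr (v 0) d q (v 1))
      (h.dmu hC) ?_
    refine DP.exN hC (Q := fun q v => P (v 1) (v 0) q ∧ Tr (v 1) (v 0) q (v 2)) ?_
    refine DP.and ?_ (DP.fTr hC hA (DT.var hC 2) (DT.var hC 1) (DN.var hC 0) (DT.var hC 3))
    exact hP.subst (fun k => if k = 0 then 2 else if k = 1 then 1 else 0)
  obtain ⟨y, hy, h3, h4⟩ := h.cmp (P := fun t => t = (m : Ordinal.{0}) ∨
      ∃ e < L, ∃ d < μ, ∃ q : ℕ, P e d q ∧ Tr e d q t) hdef hlκ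
  refine ⟨y, hy, h3, ?_, fun e d q => ?_⟩
  · have : zR A y = {m} := by
      ext n
      show EE A n y ↔ n = m
      rw [h4]
      constructor
      · rintro ⟨-, h5 | ⟨e, -, d, -, q, -, h5, -⟩⟩
        · exact_mod_cast h5
        · exact absurd h5 (not_le.2 (natCast_lt_omega0 n))
      · rintro rfl
        exact ⟨(natCast_lt_omega0 n).trans_le hωl, Or.inl rfl⟩
    rw [supp, this, csInf_singleton]
  · constructor
    · rintro ⟨-, t, h5, h6⟩
      rw [h4] at h5
      rcases h5.2 with h7 | ⟨e', he', d', hd', q', h8, h9⟩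
      · exact absurd h6.1 (by rw [h7]; exact not_le.2 (natCast_lt_omega0 m))
      · obtain ⟨rfl, rfl, rfl⟩ := Tr_inj h9 h6
        refine ⟨he', hd', ?_, h8⟩
        by_contra hcon
        push Not at hcon
        obtain ⟨rfl, rfl⟩ := hcon
        obtain ⟨h10, ⟨h11, h12⟩ | ⟨h11, h12⟩⟩ := h6
        · rw [zero_add, code_one] at h12
          rw [h12] at h10
          exact absurd h10 (not_le.2 (natCast_lt_omega0 _))
        · rw [zero_add, code_one] at h12
          rw [h12] at h10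
          exact absurd h10 (not_le.2 (natCast_lt_omega0 _))
    · rintro ⟨h5, h6, h7, h8⟩
      obtain ⟨t, h9, -⟩ := exists_Tr q h7
      refine ⟨h3, t, ?_, h9⟩
      rw [h4]
      exact ⟨Tr_bound h9 (h5.trans hLM) (h6.trans hμM), Or.inr ⟨e, h5, d, h6, q, h8, h9⟩⟩

/-- every real of the ground model has a code `d` below `μ` such that all the pairs `(e, d)` can
be used in contents of names -/
theorem Grd.rl (h : Grd A κ μ) {x : Ordinal.{0}} (hx : x < κ) :
    ∃ y < μ, y ≠ 0 ∧ zR A y = zR A x := by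
  obtain ⟨y, h1, h2, h3⟩ := h.real x hx
  refine ⟨y, h1, ?_, h3⟩
  rintro rfl
  exact absurd h2 (not_le.2 (by exact_mod_cast (by norm_num : (0 : ℕ) < 2)))

section
variable (hA : Arith A) (h : Grd A κ μ)
include hA h

/-- translation of names -/
theorem exists_trans {x z : Ordinal.{0}} (hx : x < κ) (hz : z < κ) : ∃ y < κ,
    supp A y = supp A x ∧ ∀ k, val A μ y k = val A μ x (symmDiff k (zR A z)) := by
  have hC := h.pc
  by_cases hc : ∃ a, x = cst a
  · obtain ⟨a, rfl⟩ := hc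
    exact ⟨cst a, hx, rfl, fun k => by rw [val_cst, val_cst]⟩
  · obtain ⟨y, hy, h1, h2, h3⟩ := h.mkName hA (P := fun e d' q' => ∃ d < μ, ∃ q : ℕ,
      Ct A x e d q ∧ leSh q' q (zR A z) ∧ zR A d' = symmDiff (zR A z) (zR A d)) (by
        refine DP.exlt hC (Q := fun d v => ∃ q : ℕ,
          Ct A x (v 0) d q ∧ leSh (nt (v 2)) q (zR A z) ∧
            zR A (v 1) = symmDiff (zR A z) (zR A d)) (h.dmu hC) ?_
        refine DP.exN hC (Q := fun q v =>
          Ct A x (v 1) (v 0) q ∧ leSh (nt (v 3)) q (zR A z) ∧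
            zR A (v 2) = symmDiff (zR A z) (zR A (v 0))) ?_
        exact (DP.fCt hC hA (DT.const hC hx) (DT.var hC 2) (DT.var hC 1) (DN.var hC 0)).and
          ((DP.fleSh hC hA (DN.var hC 4) (DN.var hC 0) (DT.const hC hz)).and
          (DP.symm hC (DT.var hC 3) (DT.const hC hz) (DT.var hC 1)))) hx (supp A x)
    refine ⟨y, hy, h2, fun k => ?_⟩
    ext w
    rw [mem_val_of_not h1, mem_val_of_not hc, h2]
    constructor
    · rintro ⟨e, c, hc', d', hd', q', h4, h5, h6, h7⟩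
      rw [h3] at h5
      obtain ⟨-, -, -, d, hd, q, h8, h9, h10⟩ := h5
      refine ⟨e, c, hc', d, hd, q, h4, h8, ?_, ?_⟩
      · have := leSh_inC h9 h6
        rwa [symm_assoc, symmDiff_comm (zR A c), ← symm_assoc] at this
      · rw [h7, h10]
        congr 1
        rw [← symm_assoc, symm_assoc k (zR A c) (zR A z), symmDiff_comm (zR A c) (zR A z),
          ← symm_assoc k (zR A z) (zR A c)]
    · rintro ⟨e, c, hc', d, hd, q, h4, h5, h6, h7⟩
      obtain ⟨d', hd', h8, h9⟩ := h.sum hz (hd.trans h.mu_lt)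
      have e1 : symmDiff (symmDiff k (zR A z)) (zR A c) =
          symmDiff (symmDiff k (zR A c)) (zR A z) := by
        rw [symm_assoc, symmDiff_comm (zR A z), ← symm_assoc]
      rw [e1] at h6 h7
      obtain ⟨p0, hp0⟩ := exists_seg (symmDiff k (zR A c)) 0
      obtain ⟨q', h10, -, h11⟩ := leSh_of_inC h6 (inC_seg hp0)
      refine ⟨e, c, hc', d', hd', q', h4, ?_, h10, ?_⟩
      · rw [h3]
        refine ⟨(Ct_lt h5).1, hd', Or.inr ?_, d, hd, q, h5, h11, h9⟩
        rintro rfl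
        exact absurd h8 (not_le.2 (by exact_mod_cast (by norm_num : (0 : ℕ) < 2)))
      · rw [h7, h9]
        congr 1
        rw [symm_assoc]

theorem NN_iff (g : Set ℕ) (y : ZFSet.{0}) :
    y ∈ NN A κ μ g ↔ ∃ x < κ, y = val A μ x g := by
  constructor
  · rintro ⟨x, hx, z, hz, rfl⟩
    obtain ⟨y, hy, -, h1⟩ := exists_trans hA h hx (hz.trans h.mu_lt)
    exact ⟨y, hy, (h1 g).symm⟩
  · rintro ⟨x, hx, rfl⟩
    obtain ⟨c, hc, -, h1⟩ := h.zero
    exact ⟨x, hx, c, hc, by rw [h1]; congr 1; exact (symmDiff_bot g).symm⟩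

end

end Pool.Agent.CC
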