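import Mathlib
import Pool.Agent.Lib.MP_bf67b0_lc.Force4
import Pool.Agent.Lib.MP_bf67b0_lc.Names
import Pool.Agent.Lib.MP_bf67b0_lc.Defs2

/-!
# The forcing theorem in semantic form
-/

set_option autoImplicit false

namespace Pool.Agent.CC

open Ordinal Set

variable {A : ℕ → List ℕ → Prop} {κ μ : Ordinal.{0}} {g : Set ℕ}

/-- the forcing relation is the semantic one -/
theorem Fc_iff (hA : Arith A) (h : Grd A κ μ) (φ : Fm) (p : ℕ)
    (u : ℕ → Ordinal.{0} × Ordinal.{0})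
    (hu : ∀ k, (u k).1 < κ ∧ (u k).2 < μ) : Fc A κ μ φ p u ↔
    ∀ g, Gen A κ g → inC p g →
      Sat (NI A κ) (NN A κ μ g) (fun k => val A μ (u k).1 (symmDiff g (zR A (u k).2))) φ := by
  constructor
  · intro hp g hg hpg
    exact (truth hA h hg φ u hu).2 ⟨p, hpg, hp⟩
  · intro hs
    by_contra hp
    have h1 : ¬ ∀ r, leC r p → ∃ s, leC s r ∧ Fc A κ μ φ s u :=
      fun h2 => hp (Fc_dense hA h φ h2)
    push Not at h1
    obtain ⟨r, hr, h2⟩ := h1
    obtain ⟨g, hg, hrg⟩ := exists_gen hA h r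
    obtain ⟨q, hq, h3⟩ := (truth hA h hg φ u hu).1 (hs g hg (inC_mono hrg hr))
    obtain ⟨s, hs1, hs2, hs3⟩ := inC_dir hrg hq
    exact h2 s hs2 (Fc_mono hA h φ h3 hs3)

/-! ### the forcing theorem for uniformly definable predicates -/

/-- forcing theorem for uniformly definable predicates -/
theorem force (hA : Arith A) (h : Grd A κ μ)
    {P : {h : Set ℕ // Gen A κ h} → (ℕ → ZFSet.{0}) → Prop} (hP : DfN A κ μ P)
    (x : ℕ → Ordinal.{0}) (hx : ∀ k, x k < κ) {g : Set ℕ} (hg : Gen A κ g)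
    (hPg : P ⟨g, hg⟩ (fun k => val A μ (x k) g)) :
    ∃ p, inC p g ∧ ∀ k (hk : Gen A κ k), inC p k → P ⟨k, hk⟩ (fun i => val A μ (x i) k) := by
  obtain ⟨φ, hφ⟩ := hP
  obtain ⟨c, hc, -, h1⟩ := h.zero
  have e : ∀ k : Set ℕ, symmDiff k (zR A c) = k := fun k => by rw [h1]; exact symmDiff_bot k
  have hu : ∀ k, ((fun k => (x k, c)) k : Ordinal.{0} × Ordinal.{0}).1 < κ ∧
      ((fun k => (x k, c)) k : Ordinal.{0} × Ordinal.{0}).2 < μ := fun k => ⟨hx k, hc⟩
  have hN : ∀ (k : Set ℕ) (i : ℕ), val A μ (x i) k ∈ NN A κ μ k :=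
    fun k i => (NN_iff hA h k _).2 ⟨x i, hx i, rfl⟩
  have h2 := (hφ ⟨g, hg⟩ _ (hN g)).2 hPg
  have h3 := truth hA h hg φ (fun k => (x k, c)) hu
  simp only [e] at h3
  obtain ⟨p, hp, hF⟩ := h3.1 h2
  refine ⟨p, hp, fun k hk hpk => ?_⟩
  have h4 := truth hA h hk φ (fun k => (x k, c)) hu
  simp only [e] at h4
  exact (hφ ⟨k, hk⟩ _ (hN k)).1 (h4.2 ⟨p, hpk, hF⟩)

theorem force_def (hA : Arith A) (h : Grd A κ μ)
    {P : {h : Set ℕ // Gen A κ h} → (ℕ → ZFSet.{0}) → Prop} (hP : DfN A κ μ P)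
    (x : ℕ → Ordinal.{0}) (hx : ∀ k, x k < κ) :
    {n : ℕ | ∀ k (hk : Gen A κ k), inC n.unpair.2 k → P ⟨k, hk⟩
      (Function.update (fun i => val A μ (x i) k) 0 (toZFSet (n.unpair.1 : Ordinal.{0})))} ∈
      R0 A κ := by
  obtain ⟨φ, hφ⟩ := hP
  obtain ⟨c, hc, -, h1⟩ := h.zero
  have hC := h.pc
  have e : ∀ k : Set ℕ, symmDiff k (zR A c) = k := fun k => by rw [h1]; exact symmDiff_bot k
  set u : ℕ → ℕ → Ordinal.{0} × Ordinal.{0} := fun n =>
    Function.update (fun k => (x k, c)) 0 (cst (n : Ordinal.{0}), c) with hu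
  have hu1 : ∀ n k, (u n k).1 < κ ∧ (u n k).2 < μ := by
    intro n k
    by_cases hk : k = 0
    · subst hk
      rw [hu]
      simp only [Function.update_self]
      exact ⟨h.cst_lt ((natCast_lt_omega0 n).trans h.om), hc⟩
    · rw [hu]
      simp only [Function.update_of_ne hk]
      exact ⟨hx k, hc⟩
  have hval : ∀ (n : ℕ) (k : Set ℕ), (fun i => val A μ (u n i).1 (symmDiff k (zR A (u n i).2))) =
      Function.update (fun i => val A μ (x i) k) 0 (toZFSet (n : Ordinal.{0})) := by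
    intro n k
    funext i
    by_cases hi : i = 0
    · subst hi
      rw [hu]
      simp only [Function.update_self, val_cst]
    · rw [hu]
      simp only [Function.update_of_ne hi, e]
  have hN : ∀ (n : ℕ) (k : Set ℕ) (i : ℕ),
      (fun i => val A μ (u n i).1 (symmDiff k (zR A (u n i).2))) i ∈ NN A κ μ k :=
    fun n k i => ⟨_, (hu1 n i).1, _, (hu1 n i).2, rfl⟩
  have key : ∀ n : ℕ, (∀ k (hk : Gen A κ k), inC n.unpair.2 k → P ⟨k, hk⟩
      (Function.update (fun i => val A μ (x i) k) 0 (toZFSet (n.unpair.1 : Ordinal.{0})))) ↔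
      Fc A κ μ φ n.unpair.2 (u n.unpair.1) := by
    intro n
    rw [Fc_iff hA h φ _ _ (hu1 _)]
    refine forall_congr' fun k => forall_congr' fun hk => forall_congr' fun _ => ?_
    rw [← hφ ⟨k, hk⟩ _ (by rw [← hval]; exact hN _ k), ← hval]
  -- definability
  have hD : DP A κ (Set.Iio κ) (fun v => ∃ a b : ℕ, A 7 [a, b, nt (v 0)] ∧
      Fc A κ μ φ b (u a)) := by
    refine DP.exN hC (Q := fun a v => ∃ b : ℕ, A 7 [a, b, nt (v 0)] ∧ Fc A κ μ φ b (u a)) ?_
    refine DP.exN hC (Q := fun b v => A 7 [nt (v 0), b, nt (v 1)] ∧ Fc A κ μ φ b (u (nt (v 0)))) ?_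
    have e0 : DN A κ (Set.Iio κ) (fun v => nt (v 0)) := DN.var hC 0
    have e1 : DN A κ (Set.Iio κ) (fun v => nt (v 1)) := DN.var hC 1
    have e2 : DN A κ (Set.Iio κ) (fun v => nt (v 2)) := DN.var hC 2
    refine (DP.ar (A := A) hC 7 [fun v => nt (v 1), fun v => nt (v 0), fun v => nt (v 2)]
      (by simp [e0, e1, e2])).and ?_
    refine DP.fFc hA h hC φ (p := fun v => nt (v 0)) (u := fun v => u (nt (v 1))) e0 ?_ ?_
    · intro k
      by_cases hk : k = 0
      · subst hk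
        rw [hu]
        simp only [Function.update_self]
        exact DT.fcst h hC e1.dt
      · rw [hu]
        simp only [Function.update_of_ne hk]
        exact DT.const hC (hx k)
    · intro k
      by_cases hk : k = 0
      · subst hk
        rw [hu]
        simp only [Function.update_self]
        exact DT.const hC (hc.trans h.mu_lt)
      · rw [hu]
        simp only [Function.update_of_ne hk]
        exact DT.const hC (hc.trans h.mu_lt)
  obtain ⟨y, hy, h2⟩ := h.cmpN (P := fun n => ∃ a b : ℕ, A 7 [a, b, n] ∧ Fc A κ μ φ b (u a)) hD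
  refine ⟨y, hy, ?_⟩
  rw [h2]
  ext n
  show (∃ a b : ℕ, A 7 [a, b, n] ∧ Fc A κ μ φ b (u a)) ↔ _
  rw [show (n ∈ {n : ℕ | ∀ k (hk : Gen A κ k), inC n.unpair.2 k → P ⟨k, hk⟩
      (Function.update (fun i => val A μ (x i) k) 0 (toZFSet (n.unpair.1 : Ordinal.{0})))}) ↔
      Fc A κ μ φ n.unpair.2 (u n.unpair.1) from key n]
  constructor
  · rintro ⟨a, b, h3, h4⟩
    obtain ⟨a', b', h5⟩ := (hA.a7 _).1 h3
    simp only [List.cons.injEq, and_true] at h5
    obtain ⟨rfl, rfl, rfl⟩ := h5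
    rw [Nat.unpair_pair]
    exact h4
  · intro h3
    exact ⟨_, _, (hA.a7 _).2 ⟨n.unpair.1, n.unpair.2, by rw [Nat.pair_unpair]⟩, h3⟩

end Pool.Agent.CC
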