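import Mathlib
import Pool.Agent.Lib.MP_bf67b0_lc.Defs
import Pool.Agent.Lib.MP_bf67b0_lc.Basics
import Pool.Agent.Lib.MP_bf67b0_lc.Coding
import Pool.Agent.Lib.MP_bf67b0_lc.Recur
import Pool.Agent.Lib.MP_bf67b0_lc.Clauses
import Pool.Agent.Lib.MP_bf67b0_lc.Compr

/-!
# Closure properties of the ground models

Everything is proved for all ordinals and transferred to the ground model with `Good.valid`.
-/

set_option autoImplicit false

namespace Pool.Agent.CC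

open Ordinal Set

/-- lower sets of ordinals -/
abbrev LS := {D : Set Ordinal.{0} // IsLowerSet D}

/-- definable uniformly in all lower sets -/
def DL (A : ℕ → List ℕ → Prop) (P : LS → (ℕ → Ordinal.{0}) → Prop) : Prop :=
  Df (fun _ : LS => II A) (fun s => s.1) P

/-- the lower set of all ordinals -/
def LU : LS := ⟨Set.univ, fun _ _ _ _ => trivial⟩

/-- an initial segment -/
def LI (κ : Ordinal.{0}) : LS := ⟨Set.Iio κ, isLowerSet_Iio κ⟩

section
variable {A : ℕ → List ℕ → Prop} {κ : Ordinal.{0}}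

theorem Good.transfer (h : Good A κ) {P : LS → (ℕ → Ordinal.{0}) → Prop} (hP : DL A P)
    (hu : ∀ v, P LU v) (v : ℕ → Ordinal.{0}) (hv : ∀ k, v k < κ) : P (LI κ) v := by
  obtain ⟨φ, hφ⟩ := hP
  have := h.valid φ (fun v => (hφ LU v (fun _ => trivial)).2 (hu v)) v hv
  exact (hφ (LI κ) v hv).1 this

theorem DL.sat (φ : Fm) : DL A (fun s v => Sat (II A) s.1 v φ) := ⟨φ, fun _ _ _ => Iff.rfl⟩

/-- closure under existential quantification, the new variable is the variable `0` -/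
theorem DL.ex {P : LS → (ℕ → Ordinal.{0}) → Prop} (Q : LS → Ordinal.{0} → (ℕ → Ordinal.{0}) → Prop)
    (h : DL A P) (h' : ∀ s v, P s v ↔ Q s (v 0) (fun k => v (k + 1))) :
    DL A (fun s v => ∃ a ∈ s.1, Q s a v) :=
  Df.ex (Q := Q) (h.congr fun s v _ => h' s v)

theorem DL.all {P : LS → (ℕ → Ordinal.{0}) → Prop}
    (Q : LS → Ordinal.{0} → (ℕ → Ordinal.{0}) → Prop)
    (h : DL A P) (h' : ∀ s v, P s v ↔ Q s (v 0) (fun k => v (k + 1))) :
    DL A (fun s v => ∀ a ∈ s.1, Q s a v) :=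
  Df.all (Q := Q) (h.congr fun s v _ => h' s v)

theorem DL_lt (i j : ℕ) : DL A (fun _ v => v i < v j) := Df_lt' A i j
theorem DL_nat (n i : ℕ) : DL A (fun _ v => v i = n) := Df_nat' A n i
theorem DL_om (i : ℕ) : DL A (fun _ v => v i < ω) :=
  Df.rel (I := fun _ : LS => II A) .om [i]
theorem DL_E (i j : ℕ) : DL A (fun _ v => EE A (v i) (v j)) :=
  Df.rel (I := fun _ : LS => II A) .E [i, j]
theorem DL_K (i j k : ℕ) : DL A (fun _ v => II A .K [v i, v j, v k]) :=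
  Df.rel (I := fun _ : LS => II A) .K [i, j, k]

/-- not a constant -/
theorem DL_nc (i : ℕ) : DL A (fun s v => ¬ ∃ a ∈ s.1, v i = cst a) :=
  Df.not (DL.ex (fun _ a v => v i = cst a)
    ((Df_cst A).subst (fun k => if k = 0 then i + 1 else 0)) (fun _ _ => Iff.rfl))

theorem Good.succ_lt (h : Good A κ) : ∀ a < κ, a + 1 < κ := by
  intro a ha
  have h1 : DL A (fun s v => ∃ b ∈ s.1, b = v 0 + 1) :=
    DL.ex (fun _ b v => b = v 0 + 1) (Df_succ' A) (fun _ _ => Iff.rfl)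
  obtain ⟨b, hb, hb'⟩ := h.transfer h1 (fun v => ⟨v 0 + 1, trivial, rfl⟩) (fun _ => a) (fun _ => ha)
  rw [← hb']
  exact hb

theorem Good.code_lt (h : Good A κ) : ∀ l < κ, ∀ s < l, ∀ i, code l s i < κ := by
  intro l hl s hs i
  have h1 : DL A (fun s v => v 1 < v 0 → ∃ b ∈ s.1, (v 1 < v 0 ∧ b = code (v 0) (v 1) i)) := by
    refine Df.imp (DL_lt 1 0) (DL.ex (fun _ b v => (v 1 < v 0 ∧ b = code (v 0) (v 1) i))
      ((Df_code A i).subst (fun k => if k = 0 then 1 else if k = 1 then 2 else 0))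
      (fun _ _ => Iff.rfl))
  obtain ⟨b, hb, -, hb'⟩ := h.transfer h1 (fun v h => ⟨code (v 0) (v 1) i, trivial, h, rfl⟩)
    (fun k => if k = 0 then l else s) (fun k => by split_ifs; exacts [hl, hs.trans hl]) hs
  simp only [if_true, if_false, one_ne_zero] at hb'
  rw [← hb']
  exact hb

theorem nc_iff {x : Ordinal.{0}} (hx : x < κ) :
    (¬ ∃ a ∈ (LI κ).1, x = cst a) ↔ ¬ ∃ a, x = cst a := by
  refine not_congr ⟨fun ⟨a, _, h⟩ => ⟨a, h⟩, fun ⟨a, h⟩ => ⟨a, ?_, h⟩⟩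
  exact lt_trans (by rw [h]; exact lt_cst a) hx

/-- the formula `φ` with variable `0` replaced -/
def up0 (e : Ordinal.{0}) (v : ℕ → Ordinal.{0}) (k : ℕ) : Ordinal.{0} := if k = 0 then e else v k

theorem update0 (e : Ordinal.{0}) (v : ℕ → Ordinal.{0}) : Function.update v 0 e = up0 e v := by
  ext k
  unfold up0
  by_cases hk : k = 0
  · subst hk; simp
  · simp [hk]

theorem Good.comp (h : Good A κ) (P : (ℕ → Ordinal.{0}) → Prop) (hP : D0 A κ P)
    (v : ℕ → Ordinal.{0}) (hv : ∀ k, v k < κ) (l : Ordinal.{0}) (hl : l < κ) :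
    ∃ x < κ, (¬ ∃ a, x = cst a) ∧ ∀ e, EE A e x ↔ e < l ∧ P (Function.update v 0 e) := by
  obtain ⟨φ, hφ⟩ := hP
  -- variable `0` is `l`, the others are the valuation
  have h1 : DL A (fun s w => ∃ x ∈ s.1, (¬ ∃ a ∈ s.1, x = cst a) ∧ ∀ e ∈ s.1,
      (EE A e x ↔ e < w 0 ∧ Sat (II A) s.1 (up0 e (fun k => w (k + 1))) φ)) := by
    refine DL.ex (fun s x w => (¬ ∃ a ∈ s.1, x = cst a) ∧ ∀ e ∈ s.1,
      (EE A e x ↔ e < w 0 ∧ Sat (II A) s.1 (up0 e (fun k => w (k + 1))) φ))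
      (Df.and (DL_nc 0) ?_) (fun _ _ => Iff.rfl)
    refine DL.all (fun s e w => (EE A e (w 0) ↔ e < w 1 ∧
      Sat (II A) s.1 (up0 e (fun k => w (k + 2))) φ)) (Df.iff (DL_E 0 1) (Df.and (DL_lt 0 2)
      ((DL.sat φ).subst (fun k => if k = 0 then 0 else k + 3)))) (fun s w => ?_)
    have : (fun k => w (if k = 0 then 0 else k + 3)) = up0 (w 0) (fun k => w (k + 2 + 1)) := by
      ext k
      unfold up0
      split_ifs <;> rfl
    simp only [this]
  have h2 := h.transfer h1 (fun w => by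
    obtain ⟨x, hx, hx'⟩ := comp_univ A φ (fun k => w (k + 1)) (w 0)
    refine ⟨x, trivial, fun ⟨a, _, ha⟩ => hx ⟨a, ha⟩, fun e _ => ?_⟩
    rw [hx', update0]
    rfl) (fun k => if k = 0 then l else v (k - 1)) (fun k => by split_ifs; exacts [hl, hv _])
  obtain ⟨x, hx, hx1, hx2⟩ := h2
  refine ⟨x, hx, (nc_iff hx).1 hx1, fun e => ?_⟩
  by_cases he : e < κ
  · rw [hx2 e he, update0]
    simp only [if_true]
    rw [show (fun k : ℕ => if k + 1 = 0 then l else v (k + 1 - 1)) = v by ext k; simp]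
    exact and_congr_right fun _ => hφ () _ (fun k => by
      unfold up0; split_ifs; exacts [he, hv _])
  · constructor
    · intro h4
      exact absurd (lt_trans (EE_lt h4) hx) he
    · intro h4
      exact absurd (lt_trans h4.1 hl) he

/-- suprema of small families -/
theorem exists_bound {ι : Type*} [Small.{0} ι] (f : ι → Ordinal.{0}) : ∃ m, ∀ i, f i < m := by
  obtain ⟨b, hb⟩ := bddAbove_of_small (s := Set.range f)
  refine ⟨b + 1, fun i => ?_⟩
  exact Order.lt_add_one_iff.2 (hb ⟨i, rfl⟩)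

/-- `φ` with variables `0` and `1` replaced -/
def up01 (e x : Ordinal.{0}) (v : ℕ → Ordinal.{0}) (k : ℕ) : Ordinal.{0} :=
  if k = 0 then e else if k = 1 then x else v k

theorem update01 (e x : Ordinal.{0}) (v : ℕ → Ordinal.{0}) :
    Function.update (Function.update v 0 e) 1 x = up01 e x v := by
  ext k
  unfold up01
  by_cases hk : k = 0
  · subst hk; simp
  · by_cases hk1 : k = 1
    · subst hk1; simp
    · simp [hk, hk1]

theorem Good.coll (h : Good A κ) (P : (ℕ → Ordinal.{0}) → Prop) (hP : D0 A κ P)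
    (v : ℕ → Ordinal.{0}) (hv : ∀ k, v k < κ) (l : Ordinal.{0}) (hl : l < κ)
    (hPl : ∀ e < l, ∃ x < κ, P (Function.update (Function.update v 0 e) 1 x)) :
    ∃ m < κ, ∀ e < l, ∃ x < m, P (Function.update (Function.update v 0 e) 1 x) := by
  obtain ⟨φ, hφ⟩ := hP
  have hs : DL A (fun s w => Sat (II A) s.1 (up01 (w 1) (w 0) (fun k => w (k + 4))) φ) := by
    refine ((DL.sat φ).subst (fun k => if k = 0 then 1 else if k = 1 then 0 else k + 4)).congr
      fun s w _ => ?_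
    have : (fun k => w (if k = 0 then 1 else if k = 1 then 0 else k + 4)) =
        up01 (w 1) (w 0) (fun k => w (k + 4)) := by
      ext k
      unfold up01
      split_ifs <;> rfl
    rw [this]
  have hs' : DL A (fun s w => Sat (II A) s.1 (up01 (w 1) (w 0) (fun k => w (k + 3))) φ) := by
    refine ((DL.sat φ).subst (fun k => if k = 0 then 1 else if k = 1 then 0 else k + 3)).congr
      fun s w _ => ?_
    have : (fun k => w (if k = 0 then 1 else if k = 1 then 0 else k + 3)) =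
        up01 (w 1) (w 0) (fun k => w (k + 3)) := by
      ext k
      unfold up01
      split_ifs <;> rfl
    rw [this]
  have h1 : DL A (fun s w =>
      (∀ e ∈ s.1, e < w 0 → ∃ x ∈ s.1, Sat (II A) s.1 (up01 e x (fun k => w (k + 1))) φ) →
      ∃ m ∈ s.1, ∀ e ∈ s.1, e < w 0 → ∃ x ∈ s.1, (x < m ∧
        Sat (II A) s.1 (up01 e x (fun k => w (k + 1))) φ)) := by
    refine Df.imp ?_ ?_
    · refine DL.all (fun s e w => e < w 0 → ∃ x ∈ s.1,
        Sat (II A) s.1 (up01 e x (fun k => w (k + 1))) φ) (Df.imp (DL_lt 0 1)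
        (DL.ex (fun s x w => Sat (II A) s.1 (up01 (w 0) x (fun k => w (k + 2))) φ) hs'
          (fun _ _ => Iff.rfl))) (fun _ _ => Iff.rfl)
    · refine DL.ex (fun s m w => ∀ e ∈ s.1, e < w 0 → ∃ x ∈ s.1, (x < m ∧
        Sat (II A) s.1 (up01 e x (fun k => w (k + 1))) φ)) ?_ (fun _ _ => Iff.rfl)
      refine DL.all (fun s e w => e < w 1 → ∃ x ∈ s.1, (x < w 0 ∧
        Sat (II A) s.1 (up01 e x (fun k => w (k + 2))) φ)) (Df.imp (DL_lt 0 2)
        (DL.ex (fun s x w => (x < w 1 ∧ Sat (II A) s.1 (up01 (w 0) x (fun k => w (k + 3))) φ))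
          (Df.and (DL_lt 0 2) hs) (fun _ _ => Iff.rfl))) (fun _ _ => Iff.rfl)
  have h2 := h.transfer h1 (fun w hw => by
    choose f hf using fun e : Set.Iio (w 0) => hw e.1 trivial e.2
    obtain ⟨m, hm⟩ := exists_bound f
    exact ⟨m, trivial, fun e _ he => ⟨f ⟨e, he⟩, trivial, hm _, (hf ⟨e, he⟩).2⟩⟩)
    (fun k => if k = 0 then l else v (k - 1)) (fun k => by split_ifs; exacts [hl, hv _])
  have h3 : (fun k : ℕ => if k + 1 = 0 then l else v (k + 1 - 1)) = v := by ext k; simp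
  simp only [if_true, h3] at h2
  have h4 : ∀ e x, e < κ → x < κ → (Sat (II A) (LI κ).1 (up01 e x v) φ ↔
      P (Function.update (Function.update v 0 e) 1 x)) := by
    intro e x he hx
    rw [update01]
    exact hφ () _ (fun k => by unfold up01; split_ifs; exacts [he, hx, hv _])
  obtain ⟨m, hm, hm'⟩ := h2 (fun e he hel => by
    obtain ⟨x, hx, hx'⟩ := hPl e hel
    exact ⟨x, hx, (h4 e x he hx).2 hx'⟩)
  refine ⟨m, hm, fun e he => ?_⟩
  obtain ⟨x, hx, hxm, hx'⟩ := hm' e (lt_trans he hl) he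
  exact ⟨x, hxm, (h4 e x (lt_trans he hl) hx).1 hx'⟩

/-- in the universe of all ordinals: every subset of `l` of the form `EE A . x` has a code -/
theorem exists_restr (A : ℕ → List ℕ → Prop) (x l : Ordinal.{0}) :
    ∃ y, (¬ ∃ a, y = cst a) ∧ ∀ e, EE A e y ↔ e < l ∧ EE A e x := by
  obtain ⟨y, hy, hy'⟩ := comp_univ A (.E 0 1) (fun _ => x) l
  refine ⟨y, hy, fun e => ?_⟩
  rw [hy', Sat_E]
  simp

theorem Good.pow (h : Good A κ) (l : Ordinal.{0}) (hl : l < κ) : ∃ m < κ, ∀ x < κ, ∃ y < m,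
    (¬ ∃ a, y = cst a) ∧ ∀ e, EE A e y ↔ e < l ∧ EE A e x := by
  have h1 : DL A (fun s w => ∃ m ∈ s.1, ∀ x ∈ s.1, ∃ y ∈ s.1, (y < m ∧ ((¬ ∃ a ∈ s.1, y = cst a) ∧
      ∀ e ∈ s.1, (EE A e y ↔ e < w 0 ∧ EE A e x)))) := by
    refine DL.ex (fun s m w => ∀ x ∈ s.1, ∃ y ∈ s.1, (y < m ∧ ((¬ ∃ a ∈ s.1, y = cst a) ∧
      ∀ e ∈ s.1, (EE A e y ↔ e < w 0 ∧ EE A e x)))) ?_ (fun _ _ => Iff.rfl)
    refine DL.all (fun s x w => ∃ y ∈ s.1, (y < w 0 ∧ ((¬ ∃ a ∈ s.1, y = cst a) ∧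
      ∀ e ∈ s.1, (EE A e y ↔ e < w 1 ∧ EE A e x)))) ?_ (fun _ _ => Iff.rfl)
    refine DL.ex (fun s y w => (y < w 1 ∧ ((¬ ∃ a ∈ s.1, y = cst a) ∧
      ∀ e ∈ s.1, (EE A e y ↔ e < w 2 ∧ EE A e (w 0))))) ?_ (fun _ _ => Iff.rfl)
    refine Df.and (DL_lt 0 2) (Df.and (DL_nc 0) ?_)
    exact DL.all (fun s e w => (EE A e (w 0) ↔ e < w 3 ∧ EE A e (w 1)))
      (Df.iff (DL_E 0 1) (Df.and (DL_lt 0 4) (DL_E 0 2))) (fun _ _ => Iff.rfl)
  obtain ⟨m, hm, hm'⟩ := h.transfer h1 (fun w => by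
    choose f hf using fun x => exists_restr A x (w 0)
    classical
    let g : Set (Set.Iio (w 0)) → Ordinal.{0} := fun S =>
      if hS : ∃ x, {e : Set.Iio (w 0) | EE A e.1 x} = S then f hS.choose else 0
    obtain ⟨m, hm⟩ := exists_bound g
    refine ⟨m, trivial, fun x _ => ?_⟩
    have hS : ∃ x', {e : Set.Iio (w 0) | EE A e.1 x'} = {e : Set.Iio (w 0) | EE A e.1 x} := ⟨x, rfl⟩
    have hg : g {e : Set.Iio (w 0) | EE A e.1 x} = f hS.choose := by
      simp only [g]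
      rw [dif_pos hS]
    refine ⟨f hS.choose, trivial, ?_, fun ⟨a, _, ha⟩ => (hf _).1 ⟨a, ha⟩, fun e _ => ?_⟩
    · rw [← hg]; exact hm _
    · rw [(hf _).2]
      refine and_congr_right fun he => ?_
      have := Set.ext_iff.1 hS.choose_spec ⟨e, he⟩
      exact this) (fun _ => l) (fun _ => hl)
  refine ⟨m, hm, fun x hx => ?_⟩
  obtain ⟨y, hy, hym, hy1, hy2⟩ := hm' x hx
  refine ⟨y, hym, (nc_iff hy).1 hy1, fun e => ?_⟩
  by_cases he : e < κ
  · exact hy2 e he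
  · exact ⟨fun h4 => absurd (lt_trans (EE_lt h4) hy) he, fun h4 => absurd (lt_trans h4.1 hl) he⟩

/-- `m` bounds codes (at least `2`) of all reals in the lower set `s` -/
def Phi (A : ℕ → List ℕ → Prop) (s : LS) (m : Ordinal.{0}) : Prop :=
  ¬ m < ω ∧ ∀ x ∈ s.1, ∃ y ∈ s.1, (y < m ∧ (¬ y = (0 : ℕ) ∧ (¬ y = (1 : ℕ) ∧
    ∀ n ∈ s.1, (n < ω → (EE A n y ↔ EE A n x)))))

theorem DL_Phi (i : ℕ) : DL A (fun s v => Phi A s (v i)) := by
  unfold Phi
  refine Df.and (Df.not (DL_om i)) ?_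
  refine DL.all (fun s x v => ∃ y ∈ s.1, (y < v i ∧ (¬ y = (0 : ℕ) ∧ (¬ y = (1 : ℕ) ∧
    ∀ n ∈ s.1, (n < ω → (EE A n y ↔ EE A n x)))))) ?_ (fun _ _ => Iff.rfl)
  refine DL.ex (fun s y v => (y < v (i + 1) ∧ (¬ y = (0 : ℕ) ∧ (¬ y = (1 : ℕ) ∧
    ∀ n ∈ s.1, (n < ω → (EE A n y ↔ EE A n (v 0))))))) ?_ (fun _ _ => Iff.rfl)
  refine Df.and (DL_lt 0 (i + 2)) (Df.and (Df.not (DL_nat 0 0)) (Df.and (Df.not (DL_nat 1 0)) ?_))
  exact DL.all (fun s n v => (n < ω → (EE A n (v 0) ↔ EE A n (v 1))))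
    (Df.imp (DL_om 0) (Df.iff (DL_E 0 1) (DL_E 0 2))) (fun _ _ => Iff.rfl)

theorem not_EE_cst (A : ℕ → List ℕ → Prop) (e a : Ordinal.{0}) : ¬ EE A e (cst a) := by
  unfold cst
  rw [EE_iff A (lt_of_le_of_lt zero_le (Order.lt_add_one_iff.2 (le_refl a)))]
  rintro ⟨-, -, h⟩
  have : fm 1 = Fm.bot := by
    unfold fm; simp
  rw [this] at h
  exact h

theorem exists_real (A : ℕ → List ℕ → Prop) (x : Ordinal.{0}) : ∃ y : Ordinal.{0},
    ¬ y = (0 : ℕ) ∧ ¬ y = (1 : ℕ) ∧ ∀ n : Ordinal.{0}, n < ω → (EE A n y ↔ EE A n x) := by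
  obtain ⟨y, hy, hy'⟩ := exists_restr A x ω
  by_cases h0 : y = (0 : ℕ)
  · have h2 : ω ≤ cst 1 := by
      unfold cst
      refine om_le_code ?_ ?_ 1
      · norm_num
      · norm_num
    refine ⟨cst 1, ?_, ?_, fun n hn => ?_⟩
    · intro h
      rw [h] at h2
      exact absurd h2 (not_le.2 (natCast_lt_omega0 0))
    · intro h
      rw [h] at h2
      exact absurd h2 (not_le.2 (natCast_lt_omega0 1))
    · have h3 : ¬ EE A n y := by
        intro h
        have := EE_lt h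
        rw [h0] at this
        simp at this
      rw [hy'] at h3
      constructor
      · intro h
        exact absurd h (not_EE_cst A n 1)
      · intro h
        exact absurd ⟨hn, h⟩ h3
  · refine ⟨y, h0, ?_, fun n hn => ?_⟩
    · intro h
      apply hy
      refine ⟨0, ?_⟩
      rw [h, cst, zero_add, code_one]
    · rw [hy']
      exact and_iff_right hn

theorem exists_Phi (A : ℕ → List ℕ → Prop) : ∃ m, Phi A LU m := by
  classical
  choose f hf using exists_real A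
  let g : Set ℕ → Ordinal.{0} := fun S => if hS : ∃ x, zR A x = S then f hS.choose else 0
  obtain ⟨m, hm⟩ := exists_bound g
  refine ⟨max m ω, not_lt.2 (le_max_right _ _), fun x _ => ?_⟩
  have hS : ∃ x', zR A x' = zR A x := ⟨x, rfl⟩
  have hg : g (zR A x) = f hS.choose := by
    simp only [g]
    rw [dif_pos hS]
  refine ⟨f hS.choose, trivial, ?_, (hf _).1, (hf _).2.1, fun n _ hn => ?_⟩
  · rw [← hg]
    exact lt_of_lt_of_le (hm _) (le_max_left _ _)
  · rw [(hf _).2.2 n hn]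
    obtain ⟨k, rfl⟩ := lt_omega0.1 hn
    exact Set.ext_iff.1 hS.choose_spec k

/-- the least bound for codes of reals -/
def Psi (A : ℕ → List ℕ → Prop) (s : LS) (m : Ordinal.{0}) : Prop :=
  Phi A s m ∧ ∀ m' ∈ s.1, (m' < m → ¬ Phi A s m')

theorem DL_Psi (i : ℕ) : DL A (fun s v => Psi A s (v i)) := by
  unfold Psi
  refine Df.and (DL_Phi i) ?_
  exact DL.all (fun s m' v => (m' < v i → ¬ Phi A s m')) (Df.imp (DL_lt 0 (i + 1))
    (Df.not (DL_Phi 0))) (fun _ _ => Iff.rfl)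

theorem Good.exists_mu (h : Good A κ) : ∃ μ < κ, Psi A (LI κ) μ := by
  have h1 : DL A (fun s v => ∃ m ∈ s.1, Psi A s m) :=
    DL.ex (fun s m _ => Psi A s m) (DL_Psi 0) (fun _ _ => Iff.rfl)
  obtain ⟨m, hm, hm'⟩ := h.transfer h1 (fun v => by
    refine ⟨sInf {m | Phi A LU m}, trivial, csInf_mem (exists_Phi A), fun m' _ hm' h' => ?_⟩
    exact notMem_of_lt_csInf hm' (OrderBot.bddBelow _) h') (fun _ => 0) (fun _ => h.pos)
  exact ⟨m, hm, hm'⟩

theorem Psi_unique {m m' : Ordinal.{0}} (hm : m < κ) (hm' : m' < κ) (h : Psi A (LI κ) m)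
    (h' : Psi A (LI κ) m') : m = m' := by
  rcases lt_trichotomy m m' with h1 | h1 | h1
  · exact absurd h.1 (h'.2 m hm h1)
  · exact h1
  · exact absurd h'.1 (h.2 m' hm' h1)

theorem K_mono (hA : Arith A) {t a b n : Ordinal.{0}} (hab : b ≤ a) (h : II A .K [t, b, n]) :
    II A .K [t, a, n] := by
  have h0 := (K_chi' A (lv [t, b, n])).1 h
  have h1 : ω ≤ t ∧ n < ω := by
    unfold chiK at h0
    rw [Sat_and, Sat_and, Sat_neg, Sat_om, Sat_om] at h0
    exact ⟨not_lt.1 h0.1, h0.2.1⟩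
  obtain ⟨k, rfl⟩ := lt_omega0.1 h1.2
  rw [K_iff hA h1.1] at h ⊢
  intro i
  obtain ⟨j, hj⟩ := h i
  refine ⟨j, hj.imp id fun ⟨h2, c, hc, h3⟩ => ⟨h2, c, lt_of_lt_of_le hc hab, h3⟩⟩

theorem Good.stage (h : Good A κ) (hA : Arith A) (hκ : ω ≤ κ) (t : Ordinal.{0}) (ht : t < κ) :
    ∃ a < κ, ∀ b < κ, ∀ n : ℕ, II A .K [t, b, n] → II A .K [t, a, n] := by
  have h1 : DL A (fun s v => ∃ a ∈ s.1, ∀ b ∈ s.1, ∀ n ∈ s.1, (II A .K [v 0, b, n] →
      II A .K [v 0, a, n])) := by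
    refine DL.ex (fun s a v => ∀ b ∈ s.1, ∀ n ∈ s.1, (II A .K [v 0, b, n] →
      II A .K [v 0, a, n])) ?_ (fun _ _ => Iff.rfl)
    refine DL.all (fun s b v => ∀ n ∈ s.1, (II A .K [v 1, b, n] →
      II A .K [v 1, v 0, n])) ?_ (fun _ _ => Iff.rfl)
    exact DL.all (fun s n v => (II A .K [v 2, v 0, n] → II A .K [v 2, v 1, n]))
      (Df.imp (DL_K 3 1 0) (DL_K 3 2 0)) (fun _ _ => Iff.rfl)
  obtain ⟨a, ha, ha'⟩ := h.transfer h1 (fun v => by
    classical
    let g : ℕ → Ordinal.{0} := fun n => if hn : ∃ b, II A .K [v 0, b, n] then hn.choose else 0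
    obtain ⟨m, hm⟩ := exists_bound g
    refine ⟨m, trivial, fun b _ n _ hb => ?_⟩
    have h0 := (K_chi' A (lv [v 0, b, n])).1 hb
    have hn : n < ω := by
      unfold chiK at h0
      rw [Sat_and, Sat_and, Sat_neg, Sat_om, Sat_om] at h0
      exact h0.2.1
    obtain ⟨k, rfl⟩ := lt_omega0.1 hn
    have hk : ∃ b, II A .K [v 0, b, (k : Ordinal.{0})] := ⟨b, hb⟩
    have hg : g k = hk.choose := by
      simp only [g]
      rw [dif_pos hk]
    refine K_mono hA (b := hk.choose) ?_ hk.choose_spec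
    rw [← hg]
    exact (hm k).le) (fun _ => t) (fun _ => ht)
  exact ⟨a, ha, fun b hb n hn => ha' b hb n (lt_of_lt_of_le (natCast_lt_omega0 n) hκ) hn⟩

end

/-- the ground model has all the closure properties -/
theorem Good.grd {A : ℕ → List ℕ → Prop} (hA : Arith A) {κ : Ordinal.{0}} (h : Good A κ) :
    ∃ μ, Grd A κ μ := by
  obtain ⟨μ, hμ, hμ'⟩ := h.exists_mu
  have hω : ω ≤ μ := not_lt.1 hμ'.1.1
  refine ⟨μ, h.countable, hω, hμ, h.code_lt, h.succ_lt, fun x hx => ?_, ?_, h.comp, h.coll, h.pow,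
    h.stage hA (hω.trans hμ.le)⟩
  · obtain ⟨y, -, hy, h0, h1, h2⟩ := hμ'.1.2 x hx
    refine ⟨y, hy, ?_, ?_⟩
    · have h3 : (1 : Ordinal.{0}) ≤ y := by
        rw [Order.one_le_iff_pos]
        exact bot_lt_iff_ne_bot.2 (by simpa using h0)
      have h4 : (1 : Ordinal.{0}) < y := lt_of_le_of_ne h3 (fun h => h1 (by simp [← h]))
      have h5 := Order.add_one_le_of_lt h4
      rwa [one_add_one_eq_two] at h5
    · ext n
      have h3 := natCast_lt_omega0 n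
      exact h2 n (lt_of_lt_of_le h3 (hω.trans hμ.le)) h3
  · refine ((DL_Psi (A := A) 0).pull (fun _ : Unit => LI κ)).congr fun _ v hv => ?_
    exact ⟨fun h1 => Psi_unique (hv 0) hμ h1 hμ', fun h1 => by rw [h1]; exact hμ'⟩

end Pool.Agent.CC
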