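import Mathlib
import Pool.Agent.Lib.MP_bf67b0_lc.Ground
import Pool.Agent.Lib.MP_bf67b0_lc.Force4

/-!
P9a: transitivity and Separation in the symmetric extension.
-/

set_option autoImplicit false

namespace Pool.Agent.CC

open Ordinal Set

section
variable {A : ℕ → List ℕ → Prop} {κ μ : Ordinal.{0}}

theorem ns_val (x : Ordinal.{0}) (h : Set ℕ) : val A μ x h =
    open Classical in
    if hx : ∃ a, x = cst a then (Classical.choose hx).toZFSet
    else ZFSet.range (fun t : {t : Set.Iio x × Set.Iio μ × Set.Iio μ × ℕ //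
        inG (supp A x) (zR A t.2.1.1) ∧ Ct A x t.1.1 t.2.2.1.1 t.2.2.2 ∧
          inC t.2.2.2 (symmDiff h (zR A t.2.1.1))} =>
      val A μ t.1.1.1 (symmDiff (symmDiff h (zR A t.1.2.1.1)) (zR A t.1.2.2.1.1))) := by
  conv_lhs => rw [val, WellFoundedLT.fix_eq]
  rfl

theorem ns_val_cst (a : Ordinal.{0}) (h : Set ℕ) : val A μ (cst a) h = a.toZFSet := by
  have hx : ∃ b, cst a = cst b := ⟨a, rfl⟩
  rw [ns_val, dif_pos hx]
  congr 1
  exact (cst_inj.1 (Classical.choose_spec hx)).symm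

theorem ns_mem_val {x : Ordinal.{0}} (hx : ¬ ∃ a, x = cst a) (h : Set ℕ) (y : ZFSet.{0}) :
    y ∈ val A μ x h ↔ ∃ e < x, ∃ c < μ, ∃ d < μ, ∃ q, inG (supp A x) (zR A c) ∧
      Ct A x e d q ∧ inC q (symmDiff h (zR A c)) ∧
      y = val A μ e (symmDiff (symmDiff h (zR A c)) (zR A d)) := by
  rw [ns_val, dif_neg hx, ZFSet.mem_range]
  constructor
  · rintro ⟨⟨⟨⟨e, he⟩, ⟨c, hc⟩, ⟨d, hd⟩, q⟩, h1, h2, h3⟩, rfl⟩
    exact ⟨e, he, c, hc, d, hd, q, h1, h2, h3, rfl⟩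
  · rintro ⟨e, he, c, hc, d, hd, q, h1, h2, h3, rfl⟩
    exact ⟨⟨⟨⟨e, he⟩, ⟨c, hc⟩, ⟨d, hd⟩, q⟩, h1, h2, h3⟩, rfl⟩

theorem ns_zR_zero : zR A 0 = ∅ := by
  ext n
  simp only [zR, Set.mem_ofPred_eq, Set.mem_empty_iff_false, iff_false]
  intro h
  exact absurd (EE_lt h) (not_lt.2 zero_le)

/-! ### definability over the ground model -/

theorem ns_D0 {P : (ℕ → Ordinal.{0}) → Prop} {Q : LS → (ℕ → Ordinal.{0}) → Prop}
    (h : DL A Q) (hPQ : ∀ v, (∀ k, v k < κ) → (Q (LI κ) v ↔ P v)) : D0 A κ P := by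
  have h1 : D0 A κ (Q (LI κ)) := Df.pull h (fun _ : Unit => LI κ)
  exact Df.congr h1 (fun _ v hv => hPQ v hv)

theorem ns_ar {j : ℕ} {f : ℕ → ℕ} (hj : ∀ l, A j l ↔ ∃ q, l = [q, f q])
    (a b : Ordinal.{0}) : II A (.ar j) [a, b] ↔ ∃ q : ℕ, a = q ∧ b = f q := by
  rw [II_ar]
  constructor
  · rintro ⟨l', hl, hl'⟩
    rw [hj] at hl'
    obtain ⟨q, rfl⟩ := hl'
    simp only [List.map_cons, List.map_nil, List.cons.injEq, and_true] at hl
    exact ⟨q, hl.1, hl.2⟩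
  · rintro ⟨q, rfl, rfl⟩
    exact ⟨[q, f q], rfl, (hj _).2 ⟨q, rfl⟩⟩

/-- the coding of triples is definable -/
theorem ns_Tr (hA : Arith A) :
    D0 A κ (fun v => ∃ n : ℕ, v 2 = n ∧ Tr (v 0) (v 1) n (v 3)) := by
  have h5 := fun a b => ns_ar (f := fun q => 2 * q) hA.a5 a b
  have h6 := fun a b => ns_ar (f := fun q => 2 * q + 1) hA.a6 a b
  have key : ∀ j : ℕ, DL A (fun s v => ∃ l ∈ s.1, l = v 0 + 1 ∧ ∃ i ∈ s.1,
      II A (.ar j) [v 2, i] ∧ II A .code [l, v 1, i, v 3]) := by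
    intro j
    refine DL.ex (fun s l v => l = v 0 + 1 ∧ ∃ i ∈ s.1,
      II A (.ar j) [v 2, i] ∧ II A .code [l, v 1, i, v 3]) (Df.and (Df_succ' A) ?_)
      (fun _ _ => Iff.rfl)
    refine DL.ex (fun s i v => II A (.ar j) [v 3, i] ∧ II A .code [v 0, v 2, i, v 4])
      (Df.and (Df.rel (I := fun _ : LS => II A) (.ar j) [4, 0])
        (Df.rel (I := fun _ : LS => II A) .code [1, 3, 0, 5])) (fun _ _ => Iff.rfl)
  refine ns_D0 (Df.and (Df.not (DL_om 3)) (Df.or (key 5)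
    ((key 6).subst (fun k => if k = 0 then 1 else if k = 1 then 0 else k)))) ?_
  intro v hv
  simp only [if_true, one_ne_zero, if_false, OfNat.ofNat_ne_zero, h5, h6, II_code]
  have e2 : (if (2 : ℕ) = 1 then 0 else 2) = 2 := rfl
  have e3 : (if (3 : ℕ) = 1 then 0 else 3) = 3 := rfl
  rw [e2, e3]
  constructor
  · rintro ⟨h3, ⟨l, -, rfl, i, -, ⟨q, hq, rfl⟩, hlt, n, hn, hc⟩ |
      ⟨l, -, rfl, i, -, ⟨q, hq, rfl⟩, hlt, n, hn, hc⟩⟩
    · have : 2 * q = n := by exact_mod_cast hn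
      subst this
      exact ⟨q, hq, not_lt.1 h3, Or.inl ⟨hlt, hc⟩⟩
    · have : 2 * q + 1 = n := by exact_mod_cast hn
      subst this
      exact ⟨q, hq, not_lt.1 h3, Or.inr ⟨hlt, hc⟩⟩
  · rintro ⟨q, hq, h3, ⟨hlt, hc⟩ | ⟨hlt, hc⟩⟩
    · refine ⟨not_lt.2 h3, Or.inl ⟨v 0 + 1, ?_, rfl, (2 * q : ℕ), ?_, ⟨q, hq, rfl⟩, hlt, _, rfl, hc⟩⟩
      · refine lt_of_le_of_lt (le_code hlt (2 * q) ?_) (hc ▸ hv 3)
        intro h1 h2
        rw [h2, h1] at hc
        rw [h1, Order.lt_one_iff] at hlt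
        rw [hlt, code_one] at hc
        rw [hc] at h3
        exact absurd h3 (not_le.2 (Ordinal.natCast_lt_omega0 0))
      · exact lt_of_le_of_lt (nat_le_code _ _ _) (hc ▸ hv 3)
    · refine ⟨not_lt.2 h3, Or.inr ⟨v 1 + 1, ?_, rfl, (2 * q + 1 : ℕ), ?_, ⟨q, hq, rfl⟩, hlt, _, rfl,
        hc⟩⟩
      · exact lt_of_le_of_lt (le_code hlt (2 * q + 1) (fun _ => by omega)) (hc ▸ hv 3)
      · exact lt_of_le_of_lt (nat_le_code _ _ _) (hc ▸ hv 3)

variable (h : Grd A κ μ)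
include h

/-- sums of reals of the ground model -/
theorem ns_sum {z c : Ordinal.{0}} (hz : z < κ) (hc : c < κ) :
    ∃ w < μ, 2 ≤ w ∧ zR A w = symmDiff (zR A z) (zR A c) := by
  have hD : D0 A κ (fun v => ¬ (EE A (v 0) (v 1) ↔ EE A (v 0) (v 2))) :=
    ns_D0 (Df.not (Df.iff (DL_E 0 1) (DL_E 0 2))) (fun v _ => Iff.rfl)
  obtain ⟨x, hx, -, hx'⟩ := h.comp _ hD (fun k => if k = 1 then z else c)
    (fun k => by split_ifs; exacts [hz, hc]) ω (lt_of_le_of_lt h.om_le h.mu_lt)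
  obtain ⟨y, hy, hy2, hyx⟩ := h.real x hx
  refine ⟨y, hy, hy2, ?_⟩
  rw [hyx]
  ext n
  rw [zR, Set.mem_ofPred_eq, hx']
  simp only [Ordinal.natCast_lt_omega0, true_and, Function.update_self, ne_eq, one_ne_zero,
    not_false_eq_true, Function.update_of_ne, if_true, OfNat.ofNat_ne_zero, Set.mem_symmDiff,
    mem_zR]
  norm_num
  tauto

omit h in
private theorem ns_sdA (a b c : Set ℕ) : symmDiff (symmDiff a b) c = symmDiff a (symmDiff b c) :=
  symmDiff_assoc a b c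

/-- elements of the values of names -/
theorem ns_elem {x z : Ordinal.{0}} (hx : x < κ) (hz : z < μ) {g : Set ℕ} {y : ZFSet.{0}}
    (hy : y ∈ val A μ x (symmDiff g (zR A z))) :
    ∃ e < x, ∃ w < μ, 2 ≤ w ∧ y = val A μ e (symmDiff g (zR A w)) := by
  have hmu := h.mu_lt
  by_cases hx' : ∃ a, x = cst a
  · obtain ⟨a, rfl⟩ := hx'
    rw [ns_val_cst, mem_toZFSet_iff] at hy
    obtain ⟨b, hb, rfl⟩ := hy
    obtain ⟨w, hw, hw2, -⟩ := h.real z (hz.trans hmu)
    exact ⟨cst b, cst_lt.2 hb, w, hw, hw2, (ns_val_cst _ _).symm⟩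
  · rw [ns_mem_val hx'] at hy
    obtain ⟨e, he, c, hc, d, hd, q, -, -, -, rfl⟩ := hy
    obtain ⟨w, hw, -, hw'⟩ := ns_sum h (hz.trans hmu) (hc.trans hmu)
    obtain ⟨w2, hw2, hw3, hw4⟩ := ns_sum h (hw.trans hmu) (hd.trans hmu)
    refine ⟨e, he, w2, hw2, hw3, ?_⟩
    rw [hw4, hw', ns_sdA, ns_sdA, ns_sdA]

/-- the valuation `q, e, d, v 0, v 1, ...` -/
def nsW (q e d : Ordinal.{0}) (v : ℕ → Ordinal.{0}) (k : ℕ) : Ordinal.{0} :=
  if k = 0 then q else if k = 1 then e else if k = 2 then d else v (k - 3)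

/-- names with definable content -/
theorem ns_name (hA : Arith A) {Q : (ℕ → Ordinal.{0}) → Prop} (hQ : D0 A κ Q)
    (v : ℕ → Ordinal.{0}) (hv : ∀ k, v k < κ) {M : Ordinal.{0}} (hM : M < κ) (m : ℕ) :
    ∃ y < κ, (¬ ∃ a, y = cst a) ∧ supp A y = m ∧ (∀ t, EE A t y → t < code (max M μ + 1) 0 0) ∧
      ∀ e d (q : ℕ), Ct A y e d q ↔ e < M ∧ d < μ ∧ 2 ≤ d ∧ Q (nsW q e d v) := by
  have hmu := h.mu_lt
  have hom : ω < κ := lt_of_le_of_lt h.om_le hmu
  -- the defining predicate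
  let P : (ℕ → Ordinal.{0}) → Prop := fun w => w 0 = w 1 ∨ ∃ e ∈ Set.Iio κ, e < w 2 ∧
    ∃ d ∈ Set.Iio κ, (d < w 3 ∧ ¬ d = (0 : ℕ) ∧ ¬ d = (1 : ℕ)) ∧ ∃ q ∈ Set.Iio κ,
      (∃ n : ℕ, q = n ∧ Tr e d n (w 0)) ∧ Q (nsW q e d (fun k => w (k + 4)))
  have hP : D0 A κ P := by
    refine Df.or (Df.eq 0 1) ?_
    refine Df.ex (Q := fun (_ : Unit) (e : Ordinal.{0}) (w : ℕ → Ordinal.{0}) => e < w 2 ∧
      ∃ d ∈ Set.Iio κ, (d < w 3 ∧ ¬ d = (0 : ℕ) ∧ ¬ d = (1 : ℕ)) ∧ ∃ q ∈ Set.Iio κ,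
        (∃ n : ℕ, q = n ∧ Tr e d n (w 0)) ∧ Q (nsW q e d (fun k => w (k + 4)))) ?_
    refine Df.and (ns_D0 (DL_lt 0 3) (fun _ _ => Iff.rfl)) ?_
    refine Df.ex (Q := fun (_ : Unit) (d : Ordinal.{0}) (w : ℕ → Ordinal.{0}) => (d < w 4 ∧ ¬ d = (0 : ℕ) ∧ ¬ d = (1 : ℕ)) ∧
      ∃ q ∈ Set.Iio κ, (∃ n : ℕ, q = n ∧ Tr (w 0) d n (w 1)) ∧
        Q (nsW q (w 0) d (fun k => w (k + 5)))) ?_
    refine Df.and (Df.and (ns_D0 (DL_lt 0 5) (fun _ _ => Iff.rfl)) (Df.and
      (Df.not (ns_D0 (DL_nat 0 0) (fun _ _ => Iff.rfl)))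
      (Df.not (ns_D0 (DL_nat 1 0) (fun _ _ => Iff.rfl))))) ?_
    refine Df.ex (Q := fun (_ : Unit) (q : Ordinal.{0}) (w : ℕ → Ordinal.{0}) => (∃ n : ℕ, q = n ∧ Tr (w 1) (w 0) n (w 2)) ∧
        Q (nsW q (w 1) (w 0) (fun k => w (k + 6)))) ?_
    refine Df.and ?_ ?_
    · exact Df.subst (ns_Tr hA) (fun k => if k = 0 then 2 else if k = 1 then 1 else
        if k = 2 then 0 else 3)
    · refine Df.congr (Df.subst hQ (fun k => if k = 0 then 0 else if k = 1 then 2 else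
        if k = 2 then 1 else k - 3 + 7)) (fun _ w _ => ?_)
      have : (fun k : ℕ => w (if k = 0 then 0 else if k = 1 then 2 else
        if k = 2 then 1 else k - 3 + 7)) =
          nsW (w 0) (w 2) (w 1) (fun k => w (k + 7)) := by
        funext k
        unfold nsW
        split_ifs <;> rfl
      rw [this]
  let V : ℕ → Ordinal.{0} := fun k => if k = 0 then 0 else if k = 1 then m else
    if k = 2 then M else if k = 3 then μ else v (k - 4)
  have hV : ∀ k, V k < κ := by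
    intro k
    simp only [V]
    split_ifs
    exacts [lt_of_le_of_lt zero_le hmu, (natCast_lt_omega0 m).trans hom, hM, hmu, hv _]
  have hML : max M μ < κ := max_lt hM hmu
  have h0L : (0 : Ordinal.{0}) < max M μ + 1 := lt_of_le_of_lt zero_le (Order.lt_add_one_iff.2 le_rfl)
  have hLκ : code (max M μ + 1) 0 0 < κ := h.code_lt _ (h.succ_lt _ hML) _ h0L 0
  obtain ⟨y, hy, hyc, hyE⟩ := h.comp P hP V hV _ hLκ
  have h2L : (2 : Ordinal.{0}) ≤ max M μ + 1 := by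
    have h1 : (2 : Ordinal.{0}) ≤ ω := (natCast_lt_omega0 2).le
    exact h1.trans (h.om_le.trans ((le_max_right _ _).trans (Order.lt_add_one_iff.2 le_rfl).le))
  have hmL : (m : Ordinal.{0}) < code (max M μ + 1) 0 0 :=
    lt_of_lt_of_le (natCast_lt_omega0 m) (om_le_code h2L h0L 0)
  have hPt : ∀ t, P (Function.update V 0 t) ↔ t = m ∨ ∃ e < M, ∃ d < μ, 2 ≤ d ∧ ∃ q : ℕ,
      Tr e d q t ∧ Q (nsW q e d v) := by
    intro t
    have hV4 : (fun k => Function.update V 0 t (k + 4)) = v := by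
      funext k
      simp [V]
    have e1 : Function.update V 0 t 1 = m := by simp [V]
    have e2 : Function.update V 0 t 2 = M := by simp [V]
    have e3 : Function.update V 0 t 3 = μ := by simp [V]
    have e0 : Function.update V 0 t 0 = t := by simp
    simp only [P, hV4, e0, e1, e2, e3]
    refine or_congr Iff.rfl ?_
    constructor
    · rintro ⟨e, -, he, d, -, ⟨hd, hd0, hd1⟩, _, -, ⟨n, rfl, hT⟩, hQ⟩
      refine ⟨e, he, d, hd, ?_, n, hT, hQ⟩
      by_contra hlt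
      push Not at hlt
      have h1 : d < ω := hlt.trans (natCast_lt_omega0 2)
      obtain ⟨k, rfl⟩ := lt_omega0.1 h1
      have hk : k < 2 := by exact_mod_cast hlt
      interval_cases k
      · exact hd0 rfl
      · exact hd1 rfl
    · rintro ⟨e, he, d, hd, hd2, n, hT, hQ⟩
      refine ⟨e, he.trans hM, he, d, hd.trans hmu, ⟨hd, ?_, ?_⟩, n,
        (natCast_lt_omega0 n).trans hom, ⟨n, rfl, hT⟩, hQ⟩
      · rintro rfl
        have : (2 : ℕ) ≤ 0 := by exact_mod_cast hd2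
        omega
      · rintro rfl
        have : (2 : ℕ) ≤ 1 := by exact_mod_cast hd2
        omega
  refine ⟨y, hy, hyc, ?_, fun t ht => ((hyE t).1 ht).1, ?_⟩
  · have : zR A y = {m} := by
      ext n
      rw [mem_zR, hyE, hPt, Set.mem_singleton_iff]
      constructor
      · rintro ⟨-, hn | ⟨e, -, d, -, -, q, hT, -⟩⟩
        · exact_mod_cast hn
        · exact absurd hT.1 (not_le.2 (natCast_lt_omega0 n))
      · rintro rfl
        exact ⟨hmL, Or.inl rfl⟩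
    rw [supp, this]
    exact csInf_singleton m
  · intro e d q
    constructor
    · rintro ⟨-, t, ht, hT⟩
      rw [hyE, hPt] at ht
      rcases ht.2 with rfl | ⟨e', he', d', hd', hd2, q', hT', hQ⟩
      · exact absurd hT.1 (not_le.2 (natCast_lt_omega0 m))
      · obtain ⟨rfl, rfl, rfl⟩ := Tr_inj hT hT'
        exact ⟨he', hd', hd2, hQ⟩
    · rintro ⟨he, hd, hd2, hQ⟩
      have hd0 : d ≠ 0 := by
        rintro rfl
        exact absurd hd2 (not_le.2 (by norm_num))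
      obtain ⟨t, hT, l, s, i, htc, hs, hl⟩ := exists_Tr q (Or.inr hd0 : e ≠ 0 ∨ d ≠ 0)
      refine ⟨hyc, t, ?_, hT⟩
      rw [hyE, hPt]
      refine ⟨?_, Or.inr ⟨e, he, d, hd, hd2, q, hT, hQ⟩⟩
      rw [htc, code_lt_iff hs h0L]
      left
      rw [Order.lt_add_one_iff]
      rcases hl with rfl | rfl
      · exact (Order.add_one_le_of_lt he).trans (le_max_left _ _)
      · exact (Order.add_one_le_of_lt hd).trans (le_max_right _ _)

end

section
variable {A : ℕ → List ℕ → Prop} {κ μ : Ordinal.{0}} (hA : Arith A) (h : Grd A κ μ)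
  {g : Set ℕ} (hg : Gen A κ g)
include hA h hg

theorem NN_trans {x y : ZFSet.{0}} (hx : x ∈ NN A κ μ g) (hy : y ∈ x) : y ∈ NN A κ μ g := by
  obtain ⟨x0, hx0, z, hz, rfl⟩ := hx
  obtain ⟨e, he, w, hw, -, rfl⟩ := ns_elem h hx0 hz hy
  exact ⟨e, he.trans hx0, w, hw, rfl⟩

/-- the names used in the formula -/
def nsU (j : ℕ) (x : ℕ → Ordinal.{0}) (e b : Ordinal.{0}) (k : ℕ) :
    Ordinal.{0} × Ordinal.{0} :=
  if k = 0 then (e, b) else if k = j then (x 0, 0) else (x k, 0)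

omit hg in
private theorem ns_claim (φ : Fm) (x : ℕ → Ordinal.{0}) (hx : ∀ k, x k < κ) (m : ℕ)
    (hm : ∀ k, supp A (x k) ≤ m) {c : Ordinal.{0}} (hc : c < μ) (hcm : inG m (zR A c))
    (e b : Ordinal.{0}) :
    Sat (NI A κ) (NN A κ μ (symmDiff g (zR A c))) (fun k => val A μ (nsU (φ.bnd + 1) x e b k).1
      (symmDiff (symmDiff g (zR A c)) (zR A (nsU (φ.bnd + 1) x e b k).2)))
      (Fm.and (.rel .mem [0, φ.bnd + 1]) φ) ↔
    val A μ e (symmDiff (symmDiff g (zR A c)) (zR A b)) ∈ val A μ (x 0) g ∧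
      Sat (NI A κ) (NN A κ μ g) (Function.update (fun k => val A μ (x k) g) 0
        (val A μ e (symmDiff (symmDiff g (zR A c)) (zR A b)))) φ := by
  have hmu := h.mu_lt
  have hinv : ∀ k, val A μ (x k) (symmDiff g (zR A c)) = val A μ (x k) g := fun k =>
    val_inv hA h (hx k) (hc.trans hmu) (fun i hi => hcm i (lt_of_lt_of_le hi (hm k))) g
  have hz : ∀ s : Set ℕ, symmDiff s (zR A 0) = s := fun s => by
    rw [ns_zR_zero]; exact symmDiff_bot s
  rw [Sat_and, Sat_rel, NN_add hA h (hc.trans hmu)]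
  refine and_congr ?_ ?_
  · simp only [List.map_cons, List.map_nil, nsU, if_true, Nat.add_eq_zero_iff, one_ne_zero,
      and_false, if_false, hz, hinv]
    constructor
    · rintro ⟨a, b', hab, h'⟩
      simp only [List.cons.injEq, and_true] at hab
      rw [hab.1, hab.2]
      exact h'
    · intro h'
      exact ⟨_, _, rfl, h'⟩
  · refine Sat_congr fun k hk => ?_
    by_cases hk0 : k = 0
    · subst hk0
      simp [nsU]
    · have hkj : k ≠ φ.bnd + 1 := by omega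
      rw [Function.update_of_ne hk0]
      simp only [nsU, if_neg hk0, if_neg hkj, hz, hinv]

/-- Separation with control of the name -/
theorem NN_sep_bd (x0 : Ordinal.{0}) (hx0 : x0 < κ) : ∃ l < κ, ∀ (φ : Fm) (x : ℕ → Ordinal.{0}),
    x 0 = x0 → (∀ k, x k < κ) → ∀ m : ℕ, (∀ k, supp A (x k) ≤ m) → ∃ y < κ, supp A y = m ∧
      (¬ ∃ a, y = cst a) ∧ (∀ t, EE A t y → t < l) ∧ ∀ w, w ∈ val A μ y g ↔
        w ∈ val A μ (x 0) g ∧
        Sat (NI A κ) (NN A κ μ g) (Function.update (fun k => val A μ (x k) g) 0 w) φ := by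
  refine ⟨code (max x0 μ + 1) 0 0, h.code_lt _ (h.succ_lt _ (max_lt hx0 h.mu_lt)) _
    (lt_of_le_of_lt zero_le (Order.lt_add_one_iff.2 le_rfl)) 0, ?_⟩
  rintro φ x rfl hx m hm
  have hmu := h.mu_lt
  have h0mu : (0 : Ordinal.{0}) < μ := lt_of_lt_of_le omega0_pos h.om_le
  have h0κ : (0 : Ordinal.{0}) < κ := h0mu.trans hmu
  have hz : ∀ s : Set ℕ, symmDiff s (zR A 0) = s := fun s => by
    rw [ns_zR_zero]; exact symmDiff_bot s
  let j := φ.bnd + 1
  let ψ : Fm := Fm.and (.rel .mem [0, j]) φ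
  let v : ℕ → Ordinal.{0} := fun k => if k = 0 then 0 else if k = j + 1 then x 0 else x (k - 1)
  have hv : ∀ k, v k < κ := by
    intro k
    simp only [v]
    split_ifs
    exacts [h0κ, hx _, hx _]
  -- the predicate `ψ` is forced
  let Q : (ℕ → Ordinal.{0}) → Prop := fun w => ∃ n : ℕ, w 0 = n ∧
    Fc A κ μ ψ n (fun k => (w (if k = 0 then 1 else k + 4), w (if k = 0 then 2 else 3)))
  have hQ : D0 A κ Q := by
    have h1 := Df.subst (Fc_def hA h ψ) (fun i => if i = 0 then 0 else if i = 1 then 1 else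
      if i = 2 then 2 else if i % 2 = 1 then (i - 1) / 2 + 4 else 3)
    refine Df.congr h1 fun _ w _ => ?_
    simp only [Q, if_true]
    refine exists_congr fun n => and_congr Iff.rfl ?_
    have : (fun k : ℕ => (w (if 2 * k + 1 = 0 then 0 else if 2 * k + 1 = 1 then 1 else
        if 2 * k + 1 = 2 then 2 else if (2 * k + 1) % 2 = 1 then (2 * k + 1 - 1) / 2 + 4 else 3),
        w (if 2 * k + 2 = 0 then 0 else if 2 * k + 2 = 1 then 1 else
        if 2 * k + 2 = 2 then 2 else if (2 * k + 2) % 2 = 1 then (2 * k + 2 - 1) / 2 + 4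
          else 3))) =
        fun k => (w (if k = 0 then 1 else k + 4), w (if k = 0 then 2 else 3)) := by
      funext k
      rcases Nat.eq_zero_or_pos k with rfl | hk
      · rfl
      · have h1 : ¬ 2 * k + 1 = 0 := by omega
        have h2 : ¬ 2 * k + 1 = 1 := by omega
        have h3 : ¬ 2 * k + 1 = 2 := by omega
        have h4 : (2 * k + 1) % 2 = 1 := by omega
        have h5 : ¬ 2 * k + 2 = 0 := by omega
        have h6 : ¬ 2 * k + 2 = 1 := by omega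
        have h7 : ¬ 2 * k + 2 = 2 := by omega
        have h8 : ¬ (2 * k + 2) % 2 = 1 := by omega
        have h9 : (2 * k + 1 - 1) / 2 + 4 = k + 4 := by omega
        simp only [if_neg h1, if_neg h2, if_neg h3, if_pos h4, if_neg h5, if_neg h6, if_neg h7,
          if_neg h8, h9, if_neg hk.ne']
    rw [this]
  obtain ⟨y, hy, hyc, hys, hyb, hyC⟩ := ns_name h hA hQ v hv (hx 0) m
  have hQv : ∀ e d (q : ℕ), Q (nsW q e d v) ↔ Fc A κ μ ψ q (nsU j x e d) := by
    intro e d q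
    have hu : (fun k => (nsW q e d v (if k = 0 then 1 else k + 4),
        nsW q e d v (if k = 0 then 2 else 3))) = nsU j x e d := by
      funext k
      rcases Nat.eq_zero_or_pos k with rfl | hk
      · rfl
      · have h1 : nsW q e d v (k + 4) = v (k + 1) := by
          simp only [nsW, Nat.add_eq_zero_iff, OfNat.ofNat_ne_zero, and_false, if_false]
          rw [if_neg (by omega), if_neg (by omega)]
          congr 1
        have h2 : nsW q e d v 3 = 0 := rfl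
        simp only [if_neg hk.ne', h1, h2, nsU, v, Nat.add_eq_zero_iff, one_ne_zero, and_false,
          if_false, Nat.add_right_cancel_iff, Nat.add_sub_cancel]
        split_ifs <;> rfl
    simp only [Q, hu]
    constructor
    · rintro ⟨n, hn, hF⟩
      have h1 : (q : Ordinal.{0}) = n := hn
      have : q = n := by exact_mod_cast h1
      rw [this]
      exact hF
    · intro hF
      exact ⟨q, rfl, hF⟩
  have hUok : ∀ e < κ, ∀ b < μ, ∀ k, (nsU j x e b k).1 < κ ∧ (nsU j x e b k).2 < μ := by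
    intro e he b hb k
    unfold nsU
    split_ifs
    exacts [⟨he, hb⟩, ⟨hx 0, h0mu⟩, ⟨hx k, h0mu⟩]
  refine ⟨y, hy, hys, hyc, hyb, fun w => ?_⟩
  rw [ns_mem_val hyc]
  constructor
  · rintro ⟨e, -, c, hc, d, hd, q, hcm, hCt, hq, rfl⟩
    rw [hyC, hQv] at hCt
    obtain ⟨he, -, -, hF⟩ := hCt
    rw [hys] at hcm
    have hg' : Gen A κ (symmDiff g (zR A c)) := Gen.add hA h hg (hc.trans hmu)
    exact (ns_claim hA h φ x hx m hm hc hcm e d).1
      ((truth hA h hg' ψ _ (hUok e (he.trans (hx 0)) d hd)).2 ⟨q, hq, hF⟩)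
  · rintro ⟨hw, hS⟩
    have hw' : w ∈ val A μ (x 0) (symmDiff g (zR A 0)) := by rw [hz]; exact hw
    obtain ⟨e, he, b, hb, hb2, rfl⟩ := ns_elem h (hx 0) h0mu hw'
    have h0m : inG m (zR A 0) := fun i _ => by rw [ns_zR_zero]; exact Set.notMem_empty i
    have h1 := ns_claim (g := g) hA h φ x hx m hm h0mu h0m e b
    rw [hz] at h1
    obtain ⟨q, hq, hF⟩ := (truth hA h hg ψ _ (hUok e (he.trans (hx 0)) b hb)).1
      (h1.2 ⟨hw, hS⟩)
    have hCt : Ct A y e b q := by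
      rw [hyC, hQv]
      exact ⟨he, hb, hb2, hF⟩
    refine ⟨e, ?_, 0, h0mu, b, hb, q, ?_, hCt, ?_, ?_⟩
    · obtain ⟨-, t, ht, hT⟩ := hCt
      exact (Tr_lt hT).1.trans (EE_lt ht)
    · rw [hys]; exact h0m
    · rw [hz]; exact hq
    · rw [hz]

/-- Separation, with supports: the set has a name whose support is the maximum of the
supports of the parameters -/
theorem NN_sep (φ : Fm) (x : ℕ → Ordinal.{0}) (hx : ∀ k, x k < κ) (m : ℕ)
    (hm : ∀ k, supp A (x k) ≤ m) : ∃ y < κ, supp A y = m ∧ ∀ w, w ∈ val A μ y g ↔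
      w ∈ val A μ (x 0) g ∧
      Sat (NI A κ) (NN A κ μ g) (Function.update (fun k => val A μ (x k) g) 0 w) φ := by
  obtain ⟨l, -, hl⟩ := NN_sep_bd hA h hg (x 0) (hx 0)
  obtain ⟨y, hy, hys, -, -, hyw⟩ := hl φ x rfl hx m hm
  exact ⟨y, hy, hys, hyw⟩

end

end Pool.Agent.CC
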