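import Mathlib
import Pool.Agent.Lib.MP_bf67b0_lc.Defs2
import Pool.Agent.Lib.MP_bf67b0_lc.Clauses
import Pool.Agent.Lib.MP_bf67b0_lc.Coding
import Pool.Agent.Lib.MP_bf67b0_lc.Recur
import Pool.Agent.Lib.MP_bf67b0_lc.NSep

/-!
Pairs, unions, ordinals and ranks in the symmetric extension.
-/

set_option autoImplicit false

namespace Pool.Agent.CC

open Ordinal Set

/-! ### unfolding of names -/

private theorem val_cst0 (A : ℕ → List ℕ → Prop) (μ a : Ordinal.{0}) (h : Set ℕ) :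
    val A μ (cst a) h = a.toZFSet := by
  unfold val
  rw [WellFoundedLT.fix_eq]
  have hx : ∃ b, cst a = cst b := ⟨a, rfl⟩
  rw [dif_pos hx]
  rw [← cst_inj.1 (Classical.choose_spec hx)]

private theorem mem_val0 {A : ℕ → List ℕ → Prop} {μ x : Ordinal.{0}} (hx : ¬ ∃ a, x = cst a)
    (h : Set ℕ) (w : ZFSet.{0}) : w ∈ val A μ x h ↔ ∃ e < x, ∃ c < μ, ∃ d < μ, ∃ q : ℕ,
      inG (supp A x) (zR A c) ∧ Ct A x e d q ∧ inC q (symmDiff h (zR A c)) ∧
        w = val A μ e (symmDiff (symmDiff h (zR A c)) (zR A d)) := by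
  conv_lhs => unfold val
  rw [WellFoundedLT.fix_eq, dif_neg hx, ZFSet.mem_range]
  constructor
  · rintro ⟨⟨⟨e, c, d, q⟩, h1, h2, h3⟩, rfl⟩
    exact ⟨e.1, e.2, c.1, c.2, d.1, d.2, q, h1, h2, h3, rfl⟩
  · rintro ⟨e, he, c, hc, d, hd, q, h1, h2, h3, rfl⟩
    exact ⟨⟨(⟨e, he⟩, ⟨c, hc⟩, ⟨d, hd⟩, q), h1, h2, h3⟩, rfl⟩

private theorem zR_zero (A : ℕ → List ℕ → Prop) : zR A 0 = ∅ := by
  ext n
  simp only [mem_empty_iff_false, iff_false]
  intro hn
  exact absurd (EE_lt (A := A) hn) (not_lt.2 zero_le)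

/-- the empty condition -/
private noncomputable def q0 : ℕ := Encodable.encode ([] : List Bool)

private theorem inC_q0 (g : Set ℕ) : inC q0 g := by
  intro i
  simp [q0, bit, cond]

section
variable {A : ℕ → List ℕ → Prop} {κ μ : Ordinal.{0}}

private theorem D0_succ (h : Grd A κ μ) : D0 A κ (fun v => v 0 = v 1 + 1) := by
  have h1 : D0 A κ (fun v => II A .lt [v 1, v 0] ∧ ∀ n ∈ Set.Iio κ,
      II A .lt [n, v 0] → (II A .lt [n, v 1] ∨ n = v 1)) := by
    refine (Df.rel .lt [1, 0]).and ?_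
    refine Df.all (Q := fun _ n v => II A .lt [n, v 0] → (II A .lt [n, v 1] ∨ n = v 1)) ?_
    exact (Df.rel .lt [0, 1]).imp ((Df.rel .lt [0, 2]).or (Df.eq 0 2))
  refine Df.congr h1 fun _ v hv => ?_
  simp only [II_lt]
  constructor
  · rintro ⟨h2, h3⟩
    refine le_antisymm ?_ (Order.add_one_le_of_lt h2)
    by_contra hlt
    have h4 := h3 (v 1 + 1) ((not_le.1 hlt).trans (hv 0)) (not_le.1 hlt)
    rcases h4 with h4 | h4
    · exact absurd (Order.lt_add_one_iff.2 le_rfl) (not_lt.2 h4.le)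
    · exact absurd (Order.lt_add_one_iff.2 (le_refl (v 1))) (by rw [h4]; exact lt_irrefl _)
  · intro h2
    rw [h2]
    refine ⟨Order.lt_add_one_iff.2 le_rfl, fun n _ hn => ?_⟩
    exact lt_or_eq_of_le (Order.lt_add_one_iff.1 hn)

private theorem D0_Tr (h : Grd A κ μ) (q : ℕ) : D0 A κ (fun v => Tr (v 1) (v 2) q (v 0)) := by
  have key : ∀ i : ℕ, D0 A κ (fun v => ∃ l ∈ Set.Iio κ, ∃ j ∈ Set.Iio κ, l = v 1 + 1 ∧
      II A (.nat i) [j] ∧ II A .code [l, v 2, j, v 0]) := by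
    intro i
    refine Df.ex (Q := fun _ l v => ∃ j ∈ Set.Iio κ, l = v 1 + 1 ∧
      II A (.nat i) [j] ∧ II A .code [l, v 2, j, v 0]) ?_
    refine Df.ex (Q := fun _ j v => v 0 = v 2 + 1 ∧
      II A (.nat i) [j] ∧ II A .code [v 0, v 3, j, v 1]) ?_
    refine Df.and ?_ ((Df.rel (.nat i) [0]).and (Df.rel .code [1, 4, 0, 2]))
    exact (D0_succ h).subst (fun k => if k = 0 then 1 else 3)
  have key' : ∀ i : ℕ, ∀ v : ℕ → Ordinal.{0}, (∀ k, v k < κ) →
      ((∃ l ∈ Set.Iio κ, ∃ j ∈ Set.Iio κ, l = v 1 + 1 ∧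
      II A (.nat i) [j] ∧ II A .code [l, v 2, j, v 0]) ↔
        (v 2 < v 1 + 1 ∧ v 0 = code (v 1 + 1) (v 2) i)) := by
    intro i v hv
    constructor
    · rintro ⟨l, -, j, -, rfl, hj, hc⟩
      rw [II_nat] at hj
      rw [II_code] at hc
      obtain ⟨h1, n, hn, h2⟩ := hc
      have : n = i := by
        have : (n : Ordinal.{0}) = i := by rw [← hn, hj]
        exact_mod_cast this
      rw [this] at h2
      exact ⟨h1, h2⟩
    · rintro ⟨h1, h2⟩
      refine ⟨v 1 + 1, h.succ_lt _ (hv 1), (i : Ordinal.{0}), ?_, rfl, ?_, ?_⟩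
      · exact (natCast_lt_omega0 i).trans (lt_of_le_of_lt h.om_le h.mu_lt)
      · rw [II_nat]
      · rw [II_code]
        exact ⟨h1, i, rfl, h2⟩
  have hd := (key (2 * q + 1)).subst (fun k => if k = 1 then 2 else if k = 2 then 1 else k)
  refine (((Df.rel .om [0]).not).and ((key (2 * q)).or hd)).congr fun _ v hv => ?_
  simp only [List.map_cons, List.map_nil, II_om, not_lt, Tr]
  refine and_congr_right fun _ => or_congr (key' _ v hv) ?_
  exact key' (2 * q + 1) (fun k => v (if k = 1 then 2 else if k = 2 then 1 else k))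
    (fun k => hv _)

/-- existence of names with unconditional content -/
private theorem exists_nm (h : Grd A κ μ) (m : ℕ) {M : Ordinal.{0}} (hM : M < κ)
    {C : Ordinal.{0} → Ordinal.{0} → (ℕ → Ordinal.{0}) → Prop}
    (hC : D0 A κ (fun v => C (v 0) (v 1) (fun k => v (k + 2)))) (p : ℕ → Ordinal.{0})
    (hp : ∀ k, p k < κ) : ∃ y < κ, (¬ ∃ a, y = cst a) ∧ supp A y = m ∧
      ∀ e d q, Ct A y e d q ↔ e < M ∧ d < μ ∧ (e ≠ 0 ∨ d ≠ 0) ∧ q = q0 ∧ C e d p := by
  have hP : D0 A κ (fun v => II A (.nat m) [v 0] ∨ (¬ II A .om [v 0] ∧ ∃ e ∈ Set.Iio κ,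
      ∃ d ∈ Set.Iio κ, Tr e d q0 (v 0) ∧ II A .lt [e, v 1] ∧ II A .lt [d, v 2] ∧
        C e d (fun k => v (k + 3)))) := by
    refine (Df.rel (.nat m) [0]).or ((Df.rel .om [0]).not.and ?_)
    refine Df.ex (Q := fun _ e v => ∃ d ∈ Set.Iio κ, Tr e d q0 (v 0) ∧ II A .lt [e, v 1] ∧
      II A .lt [d, v 2] ∧ C e d (fun k => v (k + 3))) ?_
    refine Df.ex (Q := fun _ d v => Tr (v 0) d q0 (v 1) ∧ II A .lt [v 0, v 2] ∧
      II A .lt [d, v 3] ∧ C (v 0) d (fun k => v (k + 4))) ?_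
    refine Df.and ?_ ((Df.rel .lt [1, 3]).and ((Df.rel .lt [0, 4]).and ?_))
    · exact (D0_Tr h q0).subst (fun k => if k = 0 then 2 else if k = 1 then 1 else 0)
    · refine Df.congr (hC.subst (fun k => if k = 0 then 1 else if k = 1 then 0 else k + 3))
        fun _ v _ => ?_
      simp
  have hmax : max M μ + 1 < κ := h.succ_lt _ (max_lt hM h.mu_lt)
  have hpos : (0 : Ordinal.{0}) < max M μ + 1 := Order.lt_add_one_iff.2 zero_le
  have hL : code (max M μ + 1) 0 0 < κ := h.code_lt _ hmax _ hpos 0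
  obtain ⟨y, hy, hc, hyE⟩ := h.comp _ hP
    (fun k => if k = 1 then M else if k = 2 then μ else if k = 0 then 0 else p (k - 3))
    (fun k => by
      split_ifs
      · exact hM
      · exact h.mu_lt
      · exact lt_of_le_of_lt zero_le hM
      · exact hp _) _ hL
  have hyE' : ∀ t, EE A t y ↔ t < code (max M μ + 1) 0 0 ∧ (t = m ∨ (ω ≤ t ∧ ∃ e < κ, ∃ d < κ,
      Tr e d q0 t ∧ e < M ∧ d < μ ∧ C e d p)) := by
    intro t
    rw [hyE t]
    refine and_congr_right fun _ => ?_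
    have e1 : ∀ (v : ℕ → Ordinal.{0}) (k : ℕ), Function.update v 0 t (k + 1) = v (k + 1) :=
      fun v k => Function.update_of_ne (by omega) _ _
    have e3 : (fun k => Function.update (fun k => if k = 1 then M else if k = 2 then μ else
        if k = 0 then 0 else p (k - 3)) 0 t (k + 3)) = p := by
      funext k
      rw [Function.update_of_ne (by omega)]
      simp
    simp only [II_nat, II_om, not_lt, Function.update_self, II_lt, e3]
    rw [e1 _ 0, e1 _ 1]
    simp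
  refine ⟨y, hy, hc, ?_, ?_⟩
  · unfold supp
    have : zR A y = {m} := by
      ext n
      simp only [zR, mem_ofPred_eq, mem_singleton_iff]
      rw [hyE']
      constructor
      · rintro ⟨-, h1 | ⟨h1, -⟩⟩
        · exact_mod_cast h1
        · exact absurd (natCast_lt_omega0 n) (not_lt.2 h1)
      · rintro rfl
        refine ⟨lt_of_lt_of_le (natCast_lt_omega0 n) (om_le_code ?_ hpos 0), Or.inl rfl⟩
        have h2 : (1 : Ordinal.{0}) ≤ max M μ := by
          refine le_trans ?_ (le_max_right _ _)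
          exact le_trans (by exact_mod_cast (natCast_lt_omega0 1).le) h.om_le
        calc (2 : Ordinal.{0}) = 1 + 1 := one_add_one_eq_two.symm
          _ ≤ max M μ + 1 := add_le_add_left h2 1
    rw [this]
    simp
  · intro e d q
    constructor
    · rintro ⟨-, t, ht, htr⟩
      rw [hyE'] at ht
      obtain ⟨-, h1 | ⟨-, e', he', d', hd', h2, h3, h4, h5⟩⟩ := ht
      · exact absurd htr.1 (not_le.2 (by rw [h1]; exact natCast_lt_omega0 m))
      · obtain ⟨rfl, rfl, rfl⟩ := Tr_inj htr h2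
        refine ⟨h3, h4, ?_, rfl, h5⟩
        by_contra h6
        push Not at h6
        obtain ⟨rfl, rfl⟩ := h6
        obtain ⟨h7, ⟨-, h8⟩ | ⟨-, h8⟩⟩ := htr
        · rw [h8, zero_add, code_one] at h7
          exact absurd (natCast_lt_omega0 _) (not_lt.2 h7)
        · rw [h8, zero_add, code_one] at h7
          exact absurd (natCast_lt_omega0 _) (not_lt.2 h7)
    · rintro ⟨h1, h2, h3, rfl, h5⟩
      obtain ⟨t, ht, l, s, i, htl, hs, hl⟩ := exists_Tr q0 h3
      refine ⟨hc, t, ?_, ht⟩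
      rw [hyE']
      refine ⟨?_, Or.inr ⟨ht.1, e, h1.trans hM, d, h2.trans h.mu_lt, ht, h1, h2, h5⟩⟩
      rw [htl, code_lt_iff hs hpos]
      left
      rcases hl with rfl | rfl
      · exact (Order.add_one_le_of_lt (h1.trans_le (le_max_left _ _))).trans_lt
          (Order.lt_add_one_iff.2 le_rfl)
      · exact (Order.add_one_le_of_lt (h2.trans_le (le_max_right _ _))).trans_lt
          (Order.lt_add_one_iff.2 le_rfl)

/-- sums of ground reals are ground reals -/
private theorem real_add (h : Grd A κ μ) {a b : Ordinal.{0}} (ha : a < κ) (hb : b < κ) :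
    ∃ c < μ, 2 ≤ c ∧ zR A c = symmDiff (zR A a) (zR A b) := by
  have hP : D0 A κ (fun v => (II A .E [v 0, v 1] ↔ ¬ II A .E [v 0, v 2])) :=
    (Df.rel .E [0, 1]).iff ((Df.rel .E [0, 2]).not)
  obtain ⟨x, hx, -, hxE⟩ := h.comp _ hP (fun k => if k = 1 then a else b)
    (fun k => by split_ifs; exacts [ha, hb]) ω (lt_of_le_of_lt h.om_le h.mu_lt)
  obtain ⟨c, hc, h2, hcx⟩ := h.real x hx
  refine ⟨c, hc, h2, ?_⟩
  rw [hcx]
  ext n
  have e1 : ∀ (v : ℕ → Ordinal.{0}) (k : ℕ) (t), Function.update v 0 t (k + 1) = v (k + 1) :=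
    fun v k t => Function.update_of_ne (by omega) _ _
  change EE A n x ↔ _
  rw [hxE]
  simp only [natCast_lt_omega0, true_and, Function.update_self]
  rw [e1 _ 0, e1 _ 1]
  simp only [zero_add, Nat.reduceAdd, OfNat.ofNat_ne_one, if_true, if_false, Set.mem_symmDiff]
  change (EE A n a ↔ ¬ EE A n b) ↔ (EE A n a ∧ ¬ EE A n b) ∨ (EE A n b ∧ ¬ EE A n a)
  tauto

private theorem sd_comm3 (g a b : Set ℕ) :
    symmDiff (symmDiff g a) b = symmDiff (symmDiff g b) a := by
  rw [symmDiff_assoc, symmDiff_comm a b, symmDiff_assoc]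

/-- elements of names are given by smaller names -/
private theorem val_elt (h : Grd A κ μ) {x : Ordinal.{0}} {k : Set ℕ}
    {y : ZFSet.{0}} (hy : y ∈ val A μ x k) :
    ∃ e < x, ∃ z < μ, y = val A μ e (symmDiff k (zR A z)) := by
  have hμ : 0 < μ := lt_of_lt_of_le (by exact_mod_cast natCast_lt_omega0 0) h.om_le
  by_cases hc : ∃ a, x = cst a
  · obtain ⟨a, rfl⟩ := hc
    rw [val_cst0, mem_toZFSet_iff] at hy
    obtain ⟨b, hb, rfl⟩ := hy
    refine ⟨cst b, cst_lt.2 hb, 0, hμ, ?_⟩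
    rw [val_cst0]
  · rw [mem_val0 hc] at hy
    obtain ⟨e, he, c, hc, d, hd, q, -, -, -, rfl⟩ := hy
    obtain ⟨z, hz, -, hz'⟩ := real_add h (hc.trans h.mu_lt) (hd.trans h.mu_lt)
    exact ⟨e, he, z, hz, by rw [hz', symmDiff_assoc]⟩

/-- a name for the set of all values of names below `M` -/
private theorem exists_super (h : Grd A κ μ) {M : Ordinal.{0}} (hM : M < κ) :
    ∃ y < κ, ∀ k, ∀ e < M, ∀ z < κ,
      val A μ e (symmDiff k (zR A z)) ∈ val A μ y k := by
  have hμ : 0 < μ := lt_of_lt_of_le (by exact_mod_cast natCast_lt_omega0 0) h.om_le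
  obtain ⟨y, hy, hc, hs, hct⟩ := exists_nm h 0 hM (C := fun _ _ _ => True) Df.true
    (fun _ => 0) (fun _ => lt_of_le_of_lt zero_le hM)
  refine ⟨y, hy, fun k e he z hz => ?_⟩
  obtain ⟨d, hd, hd2, hdz⟩ := h.real z hz
  have hd0 : d ≠ 0 := by
    rintro rfl
    exact absurd hd2 (not_le.2 (by norm_num))
  have hct' : Ct A y e d q0 := (hct e d q0).2 ⟨he, hd, Or.inr hd0, rfl, trivial⟩
  have hey : e < y := by
    obtain ⟨-, t, ht, htr⟩ := hct'
    exact (Tr_lt htr).1.trans (EE_lt ht)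
  rw [mem_val0 hc]
  refine ⟨e, hey, 0, hμ, d, hd, q0, ?_, hct', inC_q0 _, ?_⟩
  · rw [zR_zero]; intro i _; simp
  · rw [zR_zero, hdz]
    congr 1
    rw [← Set.bot_eq_empty, symmDiff_bot]

variable (hA : Arith A) (h : Grd A κ μ)
include hA h

/-- names of pairs -/
private theorem exists_pair0 {x z x' z' : Ordinal.{0}} (hx : x < κ) (hz : z < κ) (hx' : x' < κ)
    (hz' : z' < κ) : ∃ y < κ, ∀ k, val A μ y k =
      {val A μ x (symmDiff k (zR A z)), val A μ x' (symmDiff k (zR A z'))} := by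
  have hμ : 0 < μ := lt_of_lt_of_le (by exact_mod_cast natCast_lt_omega0 0) h.om_le
  obtain ⟨d, hd, hd2, hdz⟩ := h.real z hz
  obtain ⟨d', hd', hd2', hdz'⟩ := h.real z' hz'
  have hne : ∀ {a : Ordinal.{0}}, 2 ≤ a → a ≠ 0 := by
    rintro a ha rfl
    exact absurd ha (not_le.2 (by norm_num))
  have hM : max x x' + 1 < κ := h.succ_lt _ (max_lt hx hx')
  have hC : D0 A κ (fun v => (fun (e d : Ordinal.{0}) (p : ℕ → Ordinal.{0}) =>
      (e = p 0 ∧ d = p 1) ∨ (e = p 2 ∧ d = p 3)) (v 0) (v 1) (fun k => v (k + 2))) :=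
    ((Df.eq 0 2).and (Df.eq 1 3)).or ((Df.eq 0 4).and (Df.eq 1 5))
  obtain ⟨y, hy, hc, hs, hct⟩ := exists_nm h (max (supp A x) (supp A x')) hM
    (C := fun (e d : Ordinal.{0}) (p : ℕ → Ordinal.{0}) =>
      (e = p 0 ∧ d = p 1) ∨ (e = p 2 ∧ d = p 3)) hC
    (fun k => if k = 0 then x else if k = 1 then d else if k = 2 then x' else d')
    (fun k => by
      split_ifs
      exacts [hx, hd.trans h.mu_lt, hx', hd'.trans h.mu_lt])
  simp only [if_true, one_ne_zero, if_false, OfNat.ofNat_ne_zero, OfNat.ofNat_ne_one] at hct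
  refine ⟨y, hy, fun k => ?_⟩
  ext w
  rw [mem_val0 hc, ZFSet.mem_pair]
  constructor
  · rintro ⟨e, -, c, hc', d₀, hd₀, q, h1, h2, h3, rfl⟩
    rw [hs] at h1
    obtain ⟨-, -, -, -, h4⟩ := (hct e d₀ q).1 h2
    rcases h4 with ⟨rfl, rfl⟩ | ⟨rfl, h4⟩
    · left
      rw [sd_comm3, hdz, val_inv hA h hx (hc'.trans h.mu_lt)]
      exact fun i hi => h1 i (hi.trans_le (le_max_left _ _))
    · right
      have h5 : d₀ = d' := by simpa using h4
      subst h5
      rw [sd_comm3, hdz', val_inv hA h hx' (hc'.trans h.mu_lt)]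
      exact fun i hi => h1 i (hi.trans_le (le_max_right _ _))
  · intro hw
    have key : ∀ e d₀ : Ordinal.{0}, Ct A y e d₀ q0 → d₀ < μ → w = val A μ e
        (symmDiff k (zR A d₀)) → ∃ e < y, ∃ c < μ, ∃ d < μ, ∃ q : ℕ,
      inG (supp A y) (zR A c) ∧ Ct A y e d q ∧ inC q (symmDiff k (zR A c)) ∧
        w = val A μ e (symmDiff (symmDiff k (zR A c)) (zR A d)) := by
      intro e d₀ hct' hd₀ hw'
      have hey : e < y := by
        obtain ⟨-, t, ht, htr⟩ := hct'
        exact (Tr_lt htr).1.trans (EE_lt ht)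
      refine ⟨e, hey, 0, hμ, d₀, hd₀, q0, ?_, hct', inC_q0 _, ?_⟩
      · rw [zR_zero]; intro i _; simp
      · rw [zR_zero, ← Set.bot_eq_empty, symmDiff_bot, hw']
    rcases hw with hw | hw
    · refine key x d ((hct x d q0).2 ⟨?_, hd, Or.inr (hne hd2), rfl, Or.inl ⟨rfl, rfl⟩⟩) hd ?_
      · exact (le_max_left _ _).trans_lt (Order.lt_add_one_iff.2 le_rfl)
      · rw [hdz]; exact hw
    · refine key x' d' ((hct x' d' q0).2 ⟨?_, hd', Or.inr (hne hd2'), rfl, ?_⟩) hd' ?_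
      · exact (le_max_right _ _).trans_lt (Order.lt_add_one_iff.2 le_rfl)
      · right; simp
      · rw [hdz']; exact hw

variable {g : Set ℕ} (hg : Gen A κ g)
include hg

private theorem val_mem_NN {y : Ordinal.{0}} (hy : y < κ) : val A μ y g ∈ NN A κ μ g := by
  have hμ : 0 < μ := lt_of_lt_of_le (by exact_mod_cast natCast_lt_omega0 0) h.om_le
  refine ⟨y, hy, 0, hμ, ?_⟩
  rw [zR_zero, ← Set.bot_eq_empty, symmDiff_bot]

theorem NN_pair (a b : ZFSet.{0}) (ha : a ∈ NN A κ μ g) (hb : b ∈ NN A κ μ g) :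
    ({a, b} : ZFSet.{0}) ∈ NN A κ μ g := by
  obtain ⟨x, hx, z, hz, rfl⟩ := ha
  obtain ⟨x', hx', z', hz', rfl⟩ := hb
  obtain ⟨y, hy, hyv⟩ := exists_pair0 hA h hx (hz.trans h.mu_lt) hx' (hz'.trans h.mu_lt)
  rw [← hyv g]
  exact val_mem_NN hA h hg hy

theorem NN_union (a : ZFSet.{0}) (ha : a ∈ NN A κ μ g) : (ZFSet.sUnion a) ∈ NN A κ μ g := by
  obtain ⟨x, hx, z, hz, rfl⟩ := ha
  obtain ⟨s, hs, hsv⟩ := exists_pair0 hA h hx (hz.trans h.mu_lt) hx (hz.trans h.mu_lt)
  obtain ⟨Y, hY, hYv⟩ := exists_super h hx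
  -- the formula: `v 0` is an element of an element of an element of `v 1`
  obtain ⟨y, hy, -, hyv⟩ := NN_sep hA h hg
    (.ex 2 (.and (.rel .mem [2, 1]) (.ex 3 (.and (.rel .mem [3, 2]) (.rel .mem [0, 3])))))
    (fun k => if k = 0 then Y else s) (fun k => by
      split_ifs
      exacts [hY, hs]) (max (supp A Y) (supp A s)) (fun k => by
      split_ifs
      exacts [le_max_left _ _, le_max_right _ _])
  have hmem : ∀ x y : ZFSet.{0}, NI A κ .mem [x, y] ↔ x ∈ y := by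
    intro x y
    constructor
    · rintro ⟨a, b, h, hab⟩
      simp only [List.cons.injEq, and_true] at h
      rw [h.1, h.2]
      exact hab
    · exact fun h => ⟨x, y, rfl, h⟩
  have : ZFSet.sUnion (val A μ x (symmDiff g (zR A z))) = val A μ y g := by
    ext w
    rw [hyv w, ZFSet.mem_sUnion]
    simp only [if_true, Sat_ex, Sat_and, Sat_rel, List.map_cons, List.map_nil, hmem]
    have e1 : ∀ (v : ℕ → ZFSet.{0}) (i : ℕ) (t : ZFSet.{0}) (j : ℕ), j ≠ i →
        Function.update v i t j = v j := fun v i t j hj => Function.update_of_ne hj _ _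
    simp only [Function.update_self, ne_eq, OfNat.ofNat_ne_zero, not_false_eq_true,
      OfNat.ofNat_ne_one, one_ne_zero, Nat.reduceEqDiff, e1, if_false]
    constructor
    · rintro ⟨u, hu, hwu⟩
      obtain ⟨e, he, c, hc, rfl⟩ := val_elt h hu
      obtain ⟨e', he', c', hc', rfl⟩ := val_elt h hwu
      constructor
      · obtain ⟨c₁, hc₁, -, h1⟩ := real_add h (hz.trans h.mu_lt) (hc.trans h.mu_lt)
        obtain ⟨c₂, hc₂, -, h2⟩ := real_add h (hc₁.trans h.mu_lt) (hc'.trans h.mu_lt)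
        have h3 := hYv g e' (he'.trans he) c₂ (hc₂.trans h.mu_lt)
        rw [h2, h1, ← symmDiff_assoc, ← symmDiff_assoc] at h3
        exact h3
      · refine ⟨_, ⟨x, hx, z, hz, rfl⟩, ?_, _, ?_, hu, hwu⟩
        · rw [hsv]; simp
        · obtain ⟨c₁, hc₁, -, h1⟩ := real_add h (hz.trans h.mu_lt) (hc.trans h.mu_lt)
          refine ⟨e, he.trans hx, c₁, hc₁, ?_⟩
          rw [h1, ← symmDiff_assoc]
    · rintro ⟨-, u, -, hu, u', -, hu', hw⟩
      rw [hsv] at hu
      have : u = val A μ x (symmDiff g (zR A z)) := by simpa using hu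
      subst this
      exact ⟨u', hu', hw⟩
  rw [this]
  exact val_mem_NN hA h hg hy

theorem NN_ord (a : Ordinal.{0}) (ha : a < κ) : toZFSet a ∈ NN A κ μ g := by
  have h1 : cst a < κ := h.code_lt _ (h.succ_lt _ ha) 0 (Order.lt_add_one_iff.2 zero_le) 1
  have h2 := val_mem_NN hA h hg h1
  rwa [val_cst0] at h2

theorem NN_rank (x : ZFSet.{0}) (hx : x ∈ NN A κ μ g) : x.rank < κ := by
  obtain ⟨x, hx, z, -, rfl⟩ := hx
  have key : ∀ x : Ordinal.{0}, ∀ k, (val A μ x k).rank ≤ x := by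
    intro x
    induction x using WellFoundedLT.induction with
    | ind x ih =>
      intro k
      by_cases hc : ∃ a, x = cst a
      · obtain ⟨a, rfl⟩ := hc
        rw [val_cst0, rank_toZFSet]
        exact (lt_cst a).le
      · rw [ZFSet.rank_le_iff]
        intro y hy
        obtain ⟨e, he, z, -, rfl⟩ := val_elt h hy
        exact (ih e he _).trans_lt he
  exact (key x _).trans_lt hx

end

end Pool.Agent.CC
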