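import Mathlib
import Pool.Agent.Lib.MP_bf67b0_lc.Force5
import Pool.Agent.Lib.MP_bf67b0_lc.NSep
import Pool.Agent.Lib.MP_bf67b0_lc.NBasic
import Pool.Agent.Lib.MP_bf67b0_lc.Coding
import Pool.Agent.Lib.MP_bf67b0_lc.Recur

/-!
The reals of the symmetric extension: arithmetical comprehension, with supports of names.
-/

set_option autoImplicit false
set_option linter.unusedSectionVars false

namespace Pool.Agent.CC

open Ordinal Set

namespace ExtR

theorem nz_toZFSet (n : ℕ) : nz n = toZFSet (n : Ordinal.{0}) := by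
  induction n with
  | zero => simp [nz]
  | succ n ih => rw [nz, ih, Nat.cast_succ, toZFSet_add_one]

theorem nz_injective : Function.Injective nz := by
  intro a b h
  rw [nz_toZFSet, nz_toZFSet] at h
  exact_mod_cast toZFSet_injective h

theorem mem_szI {S : Set ℕ} {y : ZFSet.{0}} : y ∈ sz S ↔ ∃ n ∈ S, y = nz n := by
  unfold sz
  rw [ZFSet.mem_range]
  constructor
  · rintro ⟨⟨n, hn⟩, rfl⟩
    exact ⟨n, hn, rfl⟩
  · rintro ⟨n, hn, rfl⟩
    exact ⟨⟨n, hn⟩, rfl⟩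

theorem nz_mem_sz {S : Set ℕ} {n : ℕ} : nz n ∈ sz S ↔ n ∈ S := by
  rw [mem_szI]
  constructor
  · rintro ⟨m, hm, h⟩
    rwa [nz_injective h]
  · intro h
    exact ⟨n, h, rfl⟩

theorem mem_omega {y : ZFSet.{0}} : y ∈ toZFSet ω ↔ ∃ n : ℕ, y = nz n := by
  rw [mem_toZFSet_iff]
  constructor
  · rintro ⟨a, ha, rfl⟩
    obtain ⟨n, rfl⟩ := lt_omega0.1 ha
    exact ⟨n, (nz_toZFSet n).symm⟩
  · rintro ⟨n, rfl⟩
    exact ⟨n, natCast_lt_omega0 n, (nz_toZFSet n).symm⟩

theorem val_cstI (A : ℕ → List ℕ → Prop) (μ a : Ordinal.{0}) (g : Set ℕ) :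
    val A μ (cst a) g = toZFSet a := by
  have hx : ∃ b, cst a = cst b := ⟨a, rfl⟩
  have h1 : Classical.choose hx = a := (cst_inj.1 (Classical.choose_spec hx)).symm
  unfold val
  rw [WellFoundedLT.fix_eq, dif_pos hx, h1]

theorem zR_cst (A : ℕ → List ℕ → Prop) (a : Ordinal.{0}) : zR A (cst a) = ∅ := by
  ext n
  simp only [zR, mem_ofPred_eq, mem_empty_iff_false, iff_false, cst]
  have h0 : (0 : Ordinal.{0}) < a + 1 := lt_of_le_of_lt zero_le (lt_add_one a)
  rw [EE_iff A h0]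
  rintro ⟨-, -, h⟩
  simp [fm, Sat] at h

theorem supp_cst (A : ℕ → List ℕ → Prop) (a : Ordinal.{0}) : supp A (cst a) = 0 := by
  rw [supp, zR_cst]
  exact Nat.sInf_empty

section
variable {A : ℕ → List ℕ → Prop} {κ μ : Ordinal.{0}}

/-- lists of ground ordinals in the extension -/
theorem NI_list {R : Sy} (hR : R ≠ .mem) {l : List ZFSet.{0}} : NI A κ R l ↔
    ∃ l' : List Ordinal.{0}, (∀ a ∈ l', a < κ) ∧ l = l'.map toZFSet ∧ II A R l' := by
  cases R <;> first | exact absurd rfl hR | exact Iff.rfl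

theorem NI_mem {x y : ZFSet.{0}} : NI A κ .mem [x, y] ↔ x ∈ y := by
  simp only [NI]
  constructor
  · rintro ⟨a, b, h, h'⟩
    simp only [List.cons.injEq, and_true] at h
    rw [h.1, h.2]
    exact h'
  · intro h
    exact ⟨x, y, rfl, h⟩

theorem NI_E {a x : Ordinal.{0}} (ha : a < κ) (hx : x < κ) :
    NI A κ .E [toZFSet a, toZFSet x] ↔ EE A a x := by
  rw [NI_list (by simp)]
  constructor
  · rintro ⟨l', -, h, h'⟩
    have h1 : [a, x] = l' := by
      apply List.map_injective_iff.2 toZFSet_injective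
      simpa using h
    rw [← h1] at h'
    exact h'
  · intro h
    exact ⟨[a, x], by simp [ha, hx], rfl, h⟩

theorem NI_zero {y : ZFSet.{0}} (hκ : 0 < κ) : NI A κ (.nat 0) [y] ↔ y = nz 0 := by
  rw [NI_list (by simp)]
  constructor
  · rintro ⟨l', -, h, h'⟩
    match l', h, h' with
    | [a], h, h' =>
      have h2 : a = (0 : ℕ) := h'
      simp only [List.map_cons, List.map_nil, List.cons.injEq, and_true] at h
      rw [h, h2, nz_toZFSet]
  · rintro rfl
    exact ⟨[0], by simpa using hκ, by simp [nz_toZFSet], by exact (Nat.cast_zero).symm⟩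

theorem NI_ar {j : ℕ} (hω : ω ≤ κ) {l : List ZFSet.{0}} : NI A κ (.ar j) l ↔
    ∃ l' : List ℕ, l = l'.map nz ∧ A j l' := by
  rw [NI_list (by simp)]
  constructor
  · rintro ⟨l', -, h, l'', h', hA⟩
    refine ⟨l'', ?_, hA⟩
    rw [h, h', List.map_map]
    apply List.map_congr_left
    intro n _
    exact (nz_toZFSet n).symm
  · rintro ⟨l', h, hA⟩
    refine ⟨l'.map (fun n : ℕ => (n : Ordinal.{0})), ?_, ?_, l', rfl, hA⟩
    · intro a ha
      obtain ⟨n, -, rfl⟩ := List.mem_map.1 ha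
      exact lt_of_lt_of_le (natCast_lt_omega0 n) hω
    · rw [h, List.map_map]
      apply List.map_congr_left
      intro n _
      exact nz_toZFSet n

end

section
variable {A : ℕ → List ℕ → Prop} {κ μ : Ordinal.{0}} (hA : Arith A) (h : Grd A κ μ)
include h

theorem cst_ltI {a : Ordinal.{0}} (ha : a < κ) : cst a < κ :=
  h.code_lt _ (h.succ_lt a ha) _ (lt_of_le_of_lt zero_le (lt_add_one a)) _

theorem om_lt : ω < κ := lt_of_le_of_lt h.om_le h.mu_lt

include hA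
variable {g : Set ℕ} (hg : Gen A κ g)
include hg

theorem nz_mem_NN (n : ℕ) : nz n ∈ NN A κ μ g := by
  rw [nz_toZFSet]
  exact NN_ord hA h hg _ ((natCast_lt_omega0 n).trans (om_lt h))

/-- comprehension for sets of natural numbers -/
theorem sep {P : (ℕ → ZFSet.{0}) → Prop}
    (hP : Df (fun _ : Unit => NI A κ) (fun _ => NN A κ μ g) (fun _ v => P v))
    (x : ℕ → Ordinal.{0}) (hx : ∀ k, x k < κ) (m : ℕ) (hm : ∀ k, supp A (x k) ≤ m) :
    {n : ℕ | P (fun k => if k = 0 then nz n else val A μ (x k) g)} ∈ Rm A κ μ g m := by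
  obtain ⟨φ, hφ⟩ := hP
  have hx' : ∀ k, Function.update x 0 (cst ω) k < κ := by
    intro k
    by_cases hk : k = 0
    · subst hk
      rw [Function.update_self]
      exact cst_ltI h (om_lt h)
    · rw [Function.update_of_ne hk]
      exact hx k
  have hm' : ∀ k, supp A (Function.update x 0 (cst ω) k) ≤ m := by
    intro k
    by_cases hk : k = 0
    · subst hk
      rw [Function.update_self, supp_cst]
      exact Nat.zero_le _
    · rw [Function.update_of_ne hk]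
      exact hm k
  obtain ⟨y, hy, hys, hyv⟩ := NN_sep hA h hg φ _ hx' m hm'
  refine ⟨y, hy, hys.le, ?_⟩
  have h1 : ∀ n : ℕ, Function.update (fun k => val A μ (Function.update x 0 (cst ω) k) g) 0 (nz n) =
      fun k => if k = 0 then nz n else val A μ (x k) g := by
    intro n
    funext k
    by_cases hk : k = 0
    · subst hk
      simp
    · simp [hk]
  have h2 : ∀ n : ℕ, ∀ k, (fun k => if k = 0 then nz n else val A μ (x k) g) k ∈ NN A κ μ g := by
    intro n k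
    by_cases hk : k = 0
    · simp only [hk, if_true]
      exact nz_mem_NN hA h hg n
    · simp only [hk, if_false]
      exact (NN_iff hA h g _).2 ⟨x k, hx k, rfl⟩
  ext w
  rw [hyv, mem_szI, Function.update_self, val_cstI, mem_omega]
  constructor
  · rintro ⟨⟨n, rfl⟩, hn⟩
    refine ⟨n, ?_, rfl⟩
    rw [h1] at hn
    exact (hφ () _ (h2 n)).1 hn
  · rintro ⟨n, hn, rfl⟩
    refine ⟨⟨n, rfl⟩, ?_⟩
    rw [h1]
    exact (hφ () _ (h2 n)).2 hn

end

end ExtR

open ExtR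

section
variable {𝓕 : ℕ → Set ℕ} {A : ℕ → List ℕ → Prop} {κ μ : Ordinal.{0}} (hC : Ctx 𝓕 A κ μ)
  {g : Set ℕ} (hg : Gen A κ g)
include hC

omit hC in
theorem ExtR.Rm_pair {m : ℕ} {S T : Set ℕ} (hS : S ∈ Rm A κ μ g m) (hT : T ∈ Rm A κ μ g m) :
    ∃ x : ℕ → Ordinal.{0}, (∀ k, x k < κ) ∧ (∀ k, supp A (x k) ≤ m) ∧
      val A μ (x 1) g = sz S ∧ val A μ (x 2) g = sz T := by
  obtain ⟨y, hy, hym, hyv⟩ := hS
  obtain ⟨z, hz, hzm, hzv⟩ := hT
  refine ⟨fun k => if k = 1 then y else z, fun k => ?_, fun k => ?_, ?_, ?_⟩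
  · dsimp only
    split_ifs
    exacts [hy, hz]
  · dsimp only
    split_ifs
    exacts [hym, hzm]
  · simpa using hyv
  · simpa using hzv

theorem ExtR.zero_lt : 0 < κ := lt_of_lt_of_le omega0_pos (om_lt hC.grd).le

include hg

theorem R0_sub_Rm (m : ℕ) : R0 A κ ⊆ Rm A κ μ g m := by
  rintro S ⟨z, hz, rfl⟩
  have h1 := sep hC.ar.toArith hC.grd hg (P := fun v => NI A κ .E [v 0, v 1])
    (Df.rel .E [0, 1]) (fun _ => cst z) (fun _ => cst_ltI hC.grd hz) m
    (fun _ => by rw [supp_cst]; exact Nat.zero_le _)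
  have h2 : {n : ℕ | NI A κ .E [(fun k => if k = 0 then nz n else val A μ (cst z) g) 0,
      (fun k => if k = 0 then nz n else val A μ (cst z) g) 1]} = zR A z := by
    ext n
    simp only [if_true, one_ne_zero, if_false, val_cstI, mem_ofPred_eq]
    rw [nz_toZFSet, NI_E ((natCast_lt_omega0 n).trans (om_lt hC.grd)) hz]
    rfl
  rw [← h2]
  exact h1

theorem Rm_ACA (m : ℕ) : ACA (Rm A κ μ g m) where
  univ := by
    have h1 := sep hC.ar.toArith hC.grd hg (P := fun _ => True) Df.true (fun _ => cst 0)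
      (fun _ => cst_ltI hC.grd (ExtR.zero_lt hC)) m
      (fun _ => by rw [supp_cst]; exact Nat.zero_le _)
    simpa using h1
  zero := by
    have h1 := sep hC.ar.toArith hC.grd hg (P := fun v => NI A κ (.nat 0) [v 0])
      (Df.rel (.nat 0) [0]) (fun _ => cst 0) (fun _ => cst_ltI hC.grd (ExtR.zero_lt hC)) m
      (fun _ => by rw [supp_cst]; exact Nat.zero_le _)
    convert h1 using 1
    ext n
    simp only [if_true, mem_ofPred_eq, mem_singleton_iff, NI_zero (ExtR.zero_lt hC)]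
    exact nz_injective.eq_iff.symm
  compl := by
    intro S hS
    obtain ⟨x, hx, hxm, h1, -⟩ := ExtR.Rm_pair hS hS
    have h3 := sep hC.ar.toArith hC.grd hg (P := fun v => ¬ NI A κ .mem [v 0, v 1])
      (Df.rel .mem [0, 1]).not x hx m hxm
    simp only [if_true, one_ne_zero, if_false, h1, NI_mem, nz_mem_sz] at h3
    exact h3
  inter := by
    intro S hS T hT
    obtain ⟨x, hx, hxm, h1, h2⟩ := ExtR.Rm_pair hS hT
    have h3 := sep hC.ar.toArith hC.grd hg
      (P := fun v => NI A κ .mem [v 0, v 1] ∧ NI A κ .mem [v 0, v 2])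
      ((Df.rel .mem [0, 1]).and (Df.rel .mem [0, 2])) x hx m hxm
    simp only [if_true, one_ne_zero, if_false, h1, h2, NI_mem, nz_mem_sz,
      OfNat.ofNat_ne_zero] at h3
    exact h3
  proj := by
    intro S hS
    obtain ⟨x, hx, hxm, h1, -⟩ := ExtR.Rm_pair hS hS
    have h3 := sep hC.ar.toArith hC.grd hg
      (P := fun v => ∃ b ∈ NN A κ μ g, ∃ c ∈ NN A κ μ g,
        NI A κ (.ar 7) [v 0, b, c] ∧ NI A κ .mem [c, v 1])
      (Df.ex (Q := fun _ b v => ∃ c ∈ NN A κ μ g,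
        NI A κ (.ar 7) [v 0, b, c] ∧ NI A κ .mem [c, v 1])
        (Df.ex (Q := fun _ c v => NI A κ (.ar 7) [v 1, v 0, c] ∧ NI A κ .mem [c, v 2])
          ((Df.rel (.ar 7) [2, 1, 0]).and (Df.rel .mem [0, 3])))) x hx m hxm
    simp only [if_true, one_ne_zero, if_false, h1, NI_mem] at h3
    convert h3 using 1
    ext a
    simp only [mem_ofPred_eq, NI_ar (om_lt hC.grd).le, hC.ar.a7]
    constructor
    · rintro ⟨b, hb⟩
      exact ⟨nz b, nz_mem_NN hC.ar.toArith hC.grd hg b, nz (Nat.pair a b),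
        nz_mem_NN hC.ar.toArith hC.grd hg _, ⟨[a, b, Nat.pair a b], rfl, a, b, rfl⟩,
        nz_mem_sz.2 hb⟩
    · rintro ⟨b, -, c, -, ⟨l', h5, a', b', rfl⟩, h6⟩
      simp only [List.map_cons, List.map_nil, List.cons.injEq, and_true] at h5
      obtain ⟨h7, rfl, rfl⟩ := h5
      rw [nz_mem_sz] at h6
      rw [nz_injective h7]
      exact ⟨b', h6⟩
  pre := by
    intro S hS f hf
    obtain ⟨x, hx, hxm, h1, -⟩ := ExtR.Rm_pair hS hS
    obtain ⟨i, hi⟩ := hC.prim f hf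
    have h3 := sep hC.ar.toArith hC.grd hg
      (P := fun v => ∃ b ∈ NN A κ μ g, ∃ c ∈ NN A κ μ g,
        NI A κ (.ar 7) [v 0, b, c] ∧ NI A κ (.ar (12 + i)) [c] ∧ NI A κ .mem [b, v 1])
      (Df.ex (Q := fun _ b v => ∃ c ∈ NN A κ μ g,
        NI A κ (.ar 7) [v 0, b, c] ∧ NI A κ (.ar (12 + i)) [c] ∧ NI A κ .mem [b, v 1])
        (Df.ex (Q := fun _ c v => NI A κ (.ar 7) [v 1, v 0, c] ∧ NI A κ (.ar (12 + i)) [c] ∧
          NI A κ .mem [v 0, v 2])
          ((Df.rel (.ar 7) [2, 1, 0]).and ((Df.rel (.ar (12 + i)) [0]).and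
            (Df.rel .mem [1, 3]))))) x hx m hxm
    simp only [if_true, one_ne_zero, if_false, h1, NI_mem] at h3
    convert h3 using 1
    ext a
    simp only [mem_ofPred_eq, NI_ar (om_lt hC.grd).le, hC.ar.a7, hC.ar.fam, hi]
    constructor
    · intro ha
      exact ⟨nz (f a), nz_mem_NN hC.ar.toArith hC.grd hg _, nz (Nat.pair a (f a)),
        nz_mem_NN hC.ar.toArith hC.grd hg _, ⟨[a, f a, Nat.pair a (f a)], rfl, a, f a, rfl⟩,
        ⟨[Nat.pair a (f a)], rfl, _, rfl, a, rfl⟩, nz_mem_sz.2 ha⟩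
    · rintro ⟨b, -, c, -, ⟨l', h5, a', b', rfl⟩, ⟨l'', h6, n, rfl, a'', rfl⟩, h7⟩
      simp only [List.map_cons, List.map_nil, List.cons.injEq, and_true] at h5 h6
      obtain ⟨h8, rfl, rfl⟩ := h5
      rw [nz_mem_sz] at h7
      have h9 := nz_injective h6
      rw [Nat.pair_eq_pair] at h9
      rw [nz_injective h8, h9.1, ← h9.2]
      exact h7

omit hC hg in
theorem Rm_mono' {m m' : ℕ} (h : m ≤ m') : Rm A κ μ g m ⊆ Rm A κ μ g m' := by
  rintro S ⟨y, hy, hym, hyv⟩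
  exact ⟨y, hy, hym.trans h, hyv⟩

theorem Rm_mono {m m' : ℕ} (h : m ≤ m') : Rm A κ μ g m ⊆ Rm A κ μ g m' := Rm_mono' h

theorem mem_RR_iff (S : Set ℕ) : S ∈ RR A κ μ g ↔ ∃ m, S ∈ Rm A κ μ g m := by
  constructor
  · intro hS
    obtain ⟨x, hx, h⟩ := (NN_iff hC.ar.toArith hC.grd g _).1 hS
    exact ⟨supp A x, x, hx, le_rfl, h.symm⟩
  · rintro ⟨m, y, hy, -, h⟩
    exact (NN_iff hC.ar.toArith hC.grd g _).2 ⟨y, hy, h.symm⟩

theorem RR_ACA : ACA (RR A κ μ g) where
  univ := (mem_RR_iff hC hg _).2 ⟨0, (Rm_ACA hC hg 0).univ⟩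
  zero := (mem_RR_iff hC hg _).2 ⟨0, (Rm_ACA hC hg 0).zero⟩
  compl := by
    intro S hS
    obtain ⟨m, hm⟩ := (mem_RR_iff hC hg _).1 hS
    exact (mem_RR_iff hC hg _).2 ⟨m, (Rm_ACA hC hg m).compl S hm⟩
  inter := by
    intro S hS T hT
    obtain ⟨m, hm⟩ := (mem_RR_iff hC hg _).1 hS
    obtain ⟨m', hm'⟩ := (mem_RR_iff hC hg _).1 hT
    exact (mem_RR_iff hC hg _).2 ⟨max m m', (Rm_ACA hC hg _).inter S
      (Rm_mono hC hg (le_max_left _ _) hm) T (Rm_mono hC hg (le_max_right _ _) hm')⟩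
  proj := by
    intro S hS
    obtain ⟨m, hm⟩ := (mem_RR_iff hC hg _).1 hS
    exact (mem_RR_iff hC hg _).2 ⟨m, (Rm_ACA hC hg m).proj S hm⟩
  pre := by
    intro S hS f hf
    obtain ⟨m, hm⟩ := (mem_RR_iff hC hg _).1 hS
    exact (mem_RR_iff hC hg _).2 ⟨m, (Rm_ACA hC hg m).pre S hm f hf⟩

theorem NN_symmDiff {w : Set ℕ} (hw : w ∈ R0 A κ) :
    NN A κ μ (symmDiff g w) = NN A κ μ g := by
  obtain ⟨z, hz, rfl⟩ := hw
  exact NN_add hC.ar.toArith hC.grd hz g

/-- invariance of names of support at most `m` -/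
theorem val_symmDiff {x : Ordinal.{0}} (hx : x < κ) {m : ℕ} (hm : supp A x ≤ m) {w : Set ℕ}
    (hw : w ∈ R0 A κ) (hmw : inG m w) (k : Set ℕ) :
    val A μ x (symmDiff k w) = val A μ x k := by
  obtain ⟨z, hz, rfl⟩ := hw
  exact val_inv hC.ar.toArith hC.grd hx hz (fun i hi => hmw i (lt_of_lt_of_le hi hm)) k

end

end Pool.Agent.CC
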