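import Mathlib
import Pool.Agent.Lib.MP_bf67b0_lc.Aca
import Pool.Agent.Lib.MP_bf67b0_lc.Force5

/-!
# The reals of the ground model
-/

set_option autoImplicit false

namespace Pool.Agent.CC

open Ordinal Set

section
variable {𝓕 : ℕ → Set ℕ} {A : ℕ → List ℕ → Prop} {κ μ : Ordinal.{0}} (hC : Ctx 𝓕 A κ μ)
include hC

/-- sets of natural numbers definable with parameters are reals of the ground model -/
theorem R0_cmp {P : ℕ → Prop} (hP : DP A κ (Set.Iio κ) (fun v => P (nt (v 0)))) :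
    {n | P n} ∈ R0 A κ := by
  obtain ⟨x, hx, h1⟩ := hC.grd.cmpN hP
  exact ⟨x, hx, h1⟩

theorem R0_ACA : ACA (R0 A κ) := by
  have h := hC.grd
  have hc := h.pc
  have e0 : DN A κ (Set.Iio κ) (fun v => nt (v 0)) := DN.var hc 0
  have e1 : DN A κ (Set.Iio κ) (fun v => nt (v 1)) := DN.var hc 1
  have e2 : DN A κ (Set.Iio κ) (fun v => nt (v 2)) := DN.var hc 2
  refine ⟨?_, ?_, ?_, ?_, ?_, ?_⟩
  · exact R0_cmp hC (P := fun _ => True) (DP.const hc True)
  · exact R0_cmp hC (P := fun n => n = 0) (DP.neq hc e0 (DN.const hc 0))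
  · rintro S ⟨x, hx, rfl⟩
    exact R0_cmp hC (P := fun n => n ∉ zR A x) (DP.fzR hc e0 (DT.const hc hx)).not
  · rintro S ⟨x, hx, rfl⟩ T ⟨y, hy, rfl⟩
    exact R0_cmp hC (P := fun n => n ∈ zR A x ∧ n ∈ zR A y)
      ((DP.fzR hc e0 (DT.const hc hx)).and (DP.fzR hc e0 (DT.const hc hy)))
  · rintro S ⟨x, hx, rfl⟩
    have h1 : DP A κ (Set.Iio κ) (fun v => ∃ b c : ℕ, A 7 [nt (v 0), b, c] ∧ c ∈ zR A x) := by
      refine DP.exN hc (Q := fun b v => ∃ c : ℕ, A 7 [nt (v 0), b, c] ∧ c ∈ zR A x) ?_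
      refine DP.exN hc (Q := fun c v => A 7 [nt (v 1), nt (v 0), c] ∧ c ∈ zR A x) ?_
      exact (DP.ar (A := A) hc 7 [fun v => nt (v 2), fun v => nt (v 1), fun v => nt (v 0)]
        (by simp [e0, e1, e2])).and (DP.fzR hc e0 (DT.const hc hx))
    have h2 := R0_cmp hC (P := fun n => ∃ b c : ℕ, A 7 [n, b, c] ∧ c ∈ zR A x) h1
    convert h2 using 1
    ext a
    show (∃ b, Nat.pair a b ∈ zR A x) ↔ ∃ b c : ℕ, A 7 [a, b, c] ∧ c ∈ zR A x
    constructor
    · rintro ⟨b, hb⟩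
      exact ⟨b, _, (hC.ar.a7 _).2 ⟨a, b, rfl⟩, hb⟩
    · rintro ⟨b, c, h3, h4⟩
      obtain ⟨a', b', h5⟩ := (hC.ar.a7 _).1 h3
      simp only [List.cons.injEq, and_true] at h5
      obtain ⟨rfl, rfl, rfl⟩ := h5
      exact ⟨_, h4⟩
  · rintro S ⟨x, hx, rfl⟩ f hf
    obtain ⟨i, hi⟩ := hC.prim f hf
    have h1 : DP A κ (Set.Iio κ) (fun v => ∃ b c : ℕ, A 7 [nt (v 0), b, c] ∧ A (12 + i) [c] ∧
        b ∈ zR A x) := by
      refine DP.exN hc (Q := fun b v => ∃ c : ℕ, A 7 [nt (v 0), b, c] ∧ A (12 + i) [c] ∧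
        b ∈ zR A x) ?_
      refine DP.exN hc (Q := fun c v => A 7 [nt (v 1), nt (v 0), c] ∧ A (12 + i) [c] ∧
        nt (v 0) ∈ zR A x) ?_
      exact (DP.ar (A := A) hc 7 [fun v => nt (v 2), fun v => nt (v 1), fun v => nt (v 0)]
        (by simp [e0, e1, e2])).and ((DP.ar (A := A) hc (12 + i) [fun v => nt (v 0)]
          (by simp [e0])).and (DP.fzR hc e1 (DT.const hc hx)))
    have h2 := R0_cmp hC (P := fun n => ∃ b c : ℕ, A 7 [n, b, c] ∧ A (12 + i) [c] ∧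
      b ∈ zR A x) h1
    convert h2 using 1
    ext a
    show (f a ∈ zR A x) ↔ ∃ b c : ℕ, A 7 [a, b, c] ∧ A (12 + i) [c] ∧ b ∈ zR A x
    constructor
    · intro hb
      refine ⟨f a, _, (hC.ar.a7 _).2 ⟨a, f a, rfl⟩, ?_, hb⟩
      rw [hC.ar.fam]
      refine ⟨_, rfl, ?_⟩
      rw [hi]
      exact ⟨a, rfl⟩
    · rintro ⟨b, c, h3, h4, h6⟩
      obtain ⟨a', b', h5⟩ := (hC.ar.a7 _).1 h3
      simp only [List.cons.injEq, and_true] at h5
      obtain ⟨rfl, rfl, rfl⟩ := h5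
      rw [hC.ar.fam] at h4
      obtain ⟨n, h7, h8⟩ := h4
      simp only [List.cons.injEq, and_true] at h7
      subst h7
      rw [hi] at h8
      obtain ⟨y, h9⟩ := h8
      obtain ⟨rfl, rfl⟩ := Nat.pair_eq_pair.1 h9
      exact h6

theorem R0_def {P : (ℕ → Ordinal.{0}) → Prop} (hP : D0 A κ P) (v : ℕ → Ordinal.{0})
    (hv : ∀ k, v k < κ) : {n : ℕ | P (Function.update v 0 n)} ∈ R0 A κ := by
  obtain ⟨x, hx, -, h1⟩ := hC.grd.comp P hP v hv ω hC.grd.om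
  refine ⟨x, hx, ?_⟩
  ext n
  show EE A n x ↔ _
  rw [h1]
  exact and_iff_right (natCast_lt_omega0 n)

theorem R0_fam (i : ℕ) : 𝓕 i ∈ R0 A κ := by
  have hc := hC.grd.pc
  have e0 : DN A κ (Set.Iio κ) (fun v => nt (v 0)) := DN.var hc 0
  have h2 := R0_cmp hC (P := fun n => A (12 + i) [n])
    (DP.ar (A := A) hc (12 + i) [fun v => nt (v 0)] (by simp [e0]))
  convert h2 using 1
  ext n
  show n ∈ 𝓕 i ↔ A (12 + i) [n]
  rw [hC.ar.fam]
  constructor
  · intro h; exact ⟨n, rfl, h⟩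
  · rintro ⟨m, h1, h3⟩
    simp only [List.cons.injEq, and_true] at h1
    rwa [h1]

theorem R0_join : {n : ℕ | A n.unpair.1 (Denumerable.ofNat (List ℕ) n.unpair.2)} ∈ R0 A κ := by
  have hc := hC.grd.pc
  have hR := R0_ACA hC
  have e0 : DN A κ (Set.Iio κ) (fun v => nt (v 0)) := DN.var hc 0
  have e1 : DN A κ (Set.Iio κ) (fun v => nt (v 1)) := DN.var hc 1
  have e2 : DN A κ (Set.Iio κ) (fun v => nt (v 2)) := DN.var hc 2
  -- the relation `A 10` as a set of pairs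
  have h1 : DP A κ (Set.Iio κ) (fun v => ∃ b c : ℕ, A 7 [b, c, nt (v 0)] ∧ A 10 [b, c]) := by
    refine DP.exN hc (Q := fun b v => ∃ c : ℕ, A 7 [b, c, nt (v 0)] ∧ A 10 [b, c]) ?_
    refine DP.exN hc (Q := fun c v => A 7 [nt (v 0), c, nt (v 1)] ∧ A 10 [nt (v 0), c]) ?_
    exact (DP.ar (A := A) hc 7 [fun v => nt (v 1), fun v => nt (v 0), fun v => nt (v 2)]
      (by simp [e0, e1, e2])).and (DP.ar (A := A) hc 10 [fun v => nt (v 1), fun v => nt (v 0)]
        (by simp [e0, e1]))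
  have h2 := R0_cmp hC (P := fun n => ∃ b c : ℕ, A 7 [b, c, n] ∧ A 10 [b, c]) h1
  have h10 : ∀ n : ℕ, (∃ b c : ℕ, A 7 [b, c, n] ∧ A 10 [b, c]) ↔
      A 10 [n.unpair.1, n.unpair.2] := by
    intro n
    constructor
    · rintro ⟨b, c, h3, h4⟩
      obtain ⟨b', c', h5⟩ := (hC.ar.a7 _).1 h3
      simp only [List.cons.injEq, and_true] at h5
      obtain ⟨rfl, rfl, rfl⟩ := h5
      rw [Nat.unpair_pair]
      exact h4
    · intro h3
      exact ⟨_, _, (hC.ar.a7 _).2 ⟨n.unpair.1, n.unpair.2, by rw [Nat.pair_unpair]⟩, h3⟩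
  have hJ : AD (R0 A κ) (fun n : ℕ => A 10 [n.unpair.1, n.unpair.2]) := by
    rw [AD_nat]
    convert h2 using 1
    ext n
    exact (h10 n).symm
  have hu : Primrec Nat.unpair := Primrec.unpair
  have h4 : AD (R0 A κ) (fun n : ℕ => (n.unpair.1 ≠ 10 ∧ A 10 [n.unpair.1, n.unpair.2]) ∨
      (n.unpair.1 = 10 ∧ ∃ m : ℕ, Denumerable.ofNat (List ℕ) n.unpair.2 =
        [m.unpair.1, m.unpair.2] ∧ A 10 [m.unpair.1, m.unpair.2])) := by
    have h5 : AD (R0 A κ) (fun n : ℕ => n.unpair.1 = 10) :=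
      AD.of_prim hR (Primrec.eq.comp (Primrec.fst.comp hu) (Primrec.const 10))
    have h6 : AD (R0 A κ) (fun x : ℕ × ℕ => Denumerable.ofNat (List ℕ) x.1.unpair.2 =
        [x.2.unpair.1, x.2.unpair.2]) := by
      refine AD.of_prim hR (Primrec.eq.comp ((Primrec.ofNat (List ℕ)).comp
        (Primrec.snd.comp (hu.comp Primrec.fst))) ?_)
      exact Primrec.list_cons.comp (Primrec.fst.comp (hu.comp Primrec.snd))
        (Primrec.list_cons.comp (Primrec.snd.comp (hu.comp Primrec.snd)) (Primrec.const []))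
    have h7 : AD (R0 A κ) (fun x : ℕ × ℕ => A 10 [x.2.unpair.1, x.2.unpair.2]) :=
      AD.comp hR hJ (Primrec.snd : Primrec (fun x : ℕ × ℕ => x.2))
    exact AD.or hR (AD.and hR (AD.not hR h5) hJ) (AD.and hR h5 (AD.ex hR
      (P := fun (n : ℕ) (m : ℕ) => Denumerable.ofNat (List ℕ) n.unpair.2 =
        [m.unpair.1, m.unpair.2] ∧ A 10 [m.unpair.1, m.unpair.2]) (AD.and hR h6 h7)))
  rw [AD_nat] at h4
  convert h4 using 1
  ext n
  show A n.unpair.1 (Denumerable.ofNat (List ℕ) n.unpair.2) ↔ (_ ∨ _)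
  by_cases hn : n.unpair.1 = 10
  · simp only [hn, ne_eq, not_true, false_and, true_and, false_or]
    constructor
    · intro h5
      obtain ⟨j, c, h6, -, -⟩ := (hC.ar.join _).1 h5
      refine ⟨Nat.pair j c, ?_, ?_⟩
      · rw [Nat.unpair_pair]; exact h6
      · rw [Nat.unpair_pair, ← h6]; exact h5
    · rintro ⟨m, h5, h6⟩
      rw [h5]; exact h6
  · simp only [hn, ne_eq, not_false_iff, true_and, false_and, or_false]
    rw [hC.ar.join]
    constructor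
    · intro h5
      exact ⟨_, _, rfl, hn, h5⟩
    · rintro ⟨j, c, h5, h6, h7⟩
      simp only [List.cons.injEq, and_true] at h5
      obtain ⟨rfl, rfl⟩ := h5
      exact h7

theorem R0_mu {S : Set ℕ} (hS : S ∈ R0 A κ) : ∃ z < μ, zR A z = S := by
  obtain ⟨x, hx, rfl⟩ := hS
  obtain ⟨y, hy, -, h1⟩ := hC.grd.real x hx
  exact ⟨y, hy, h1⟩

omit hC in
theorem GR_cond_encode (s : List Bool) : cond (Encodable.encode s) = s := by
  simp [cond, Encodable.encodek]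

omit hC in
theorem GR_Pre_iff (s : List Bool) (g : Set ℕ) (p : ℕ) (hp : cond p = s) :
    Pre s g ↔ inC p g := by
  simp only [Pre, inC, bit, hp]
  constructor
  · intro h i
    refine ⟨fun h1 => (h i true h1).1 rfl, fun h1 h2 => ?_⟩
    have := (h i false h1).2 h2
    cases this
  · intro h i b hb
    cases b
    · exact ⟨fun h' => (by cases h'), fun h' => absurd h' ((h i).2 hb)⟩
    · exact ⟨fun _ => (h i).1 hb, fun _ => rfl⟩

omit hC in
theorem GR_leC_of_prefix {s t : List Bool} {p q : ℕ} (hp : cond p = s) (hq : cond q = t)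
    (h : s <+: t) : leC q p := by
  obtain ⟨r, rfl⟩ := h
  intro i b hb
  unfold bit at hb ⊢
  rw [hp] at hb
  rw [hq]
  have hi : i < s.length := (List.getElem?_eq_some_iff.1 hb).1
  rw [List.getElem?_append_left hi]
  exact hb

/-- generic reals meet the dense sets of the ground model -/
theorem Gen.meets {g : Set ℕ} (hg : Gen A κ g) {P : List Bool → Prop} (hP : AD (R0 A κ) P)
    (hd : ∀ s, ∃ t, s <+: t ∧ P t) : ∃ t, P t ∧ Pre t g := by
  obtain ⟨x, hx, h1⟩ := hP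
  obtain ⟨q, hq, h2⟩ := hg x hx (fun p => by
    obtain ⟨t, h3, h4⟩ := hd (cond p)
    refine ⟨Encodable.encode t, ?_, GR_leC_of_prefix rfl (GR_cond_encode t) h3⟩
    rw [h1]
    exact ⟨t, Encodable.encodek t, h4⟩)
  rw [h1] at hq
  obtain ⟨t, h3, h4⟩ := hq
  have h5 : cond q = t := by unfold cond; rw [h3]; rfl
  exact ⟨t, h4, (GR_Pre_iff t g q h5).2 h2⟩

theorem exists_gen' (s : List Bool) : ∃ g, Gen A κ g ∧ Pre s g := by
  obtain ⟨g, hg, h1⟩ := exists_gen hC.ar.toArith hC.grd (Encodable.encode s)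
  exact ⟨g, hg, (GR_Pre_iff s g _ (GR_cond_encode s)).2 h1⟩

theorem Gen.sd {g w : Set ℕ} (hg : Gen A κ g) (hw : w ∈ R0 A κ) :
    Gen A κ (symmDiff g w) := by
  obtain ⟨z, hz, rfl⟩ := hw
  exact Gen.add hC.ar.toArith hC.grd hg hz

end

end Pool.Agent.CC
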