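import Mathlib
import Pool.Agent.Lib.MP_bf67b0_lc.Defs2
import Pool.Agent.Lib.MP_bf67b0_lc.Coding
import Pool.Agent.Lib.MP_bf67b0_lc.Ground
import Pool.Agent.Lib.MP_bf67b0_lc.Aca
import Pool.Agent.Lib.MP_bf67b0_lc.GroundReals
import Pool.Agent.Lib.MP_bf67b0_lc.ExtReals
import Pool.Agent.Lib.MP_bf67b0_lc.Force5

/-!
# Codes of the reals of the symmetric extension
-/

set_option autoImplicit false

namespace Pool.Agent.CC

open Ordinal Set

namespace Codes

/-! ### strings -/

/-- code of the initial segment of length `n` of the real `g` -/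
noncomputable def strOf (g : Set ℕ) (n : ℕ) : ℕ :=
  open Classical in Encodable.encode ((List.range n).map (fun i => decide (i ∈ g)))

open Classical in
theorem cond_strOf (g : Set ℕ) (n : ℕ) :
    cond (strOf g n) = (List.range n).map (fun i => decide (i ∈ g)) := by
  simp [cond, strOf]

theorem length_strOf (g : Set ℕ) (n : ℕ) : (cond (strOf g n)).length = n := by
  rw [cond_strOf]; simp

open Classical in
theorem bit_strOf (g : Set ℕ) {n i : ℕ} (hi : i < n) :
    bit (strOf g n) i = some (decide (i ∈ g)) := by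
  rw [bit, cond_strOf]; simp [hi]

theorem bit_none {p i : ℕ} (hi : (cond p).length ≤ i) : bit p i = none := by
  rw [bit]; simpa using hi

theorem inC_strOf (g : Set ℕ) (n : ℕ) : inC (strOf g n) g := by
  classical
  intro i
  by_cases hi : i < n
  · rw [bit_strOf g hi]; simp
  · rw [bit_none (by rw [length_strOf]; omega)]; simp

open Classical in
theorem bit_of_inC {p i : ℕ} {g : Set ℕ} (h : inC p g) (hi : i < (cond p).length) :
    bit p i = some (decide (i ∈ g)) := by
  have h1 : bit p i = some ((cond p)[i]) := by rw [bit]; simp [hi]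
  rw [h1]
  congr 1
  cases hb : (cond p)[i] with
  | true => 
    have := (h i).1 (by rw [h1, hb])
    simp [this]
  | false => 
    have := (h i).2 (by rw [h1, hb])
    simp [this]

theorem mem_cut {m i : ℕ} {g : Set ℕ} : i ∈ cut m g ↔ i ∈ g ∧ i.unpair.1 < m := Iff.rfl

theorem Ev_sub {m : ℕ} {X : Set ℕ} (hX : Inv m X) {g g' : Set ℕ}
    (h : ∀ i, i.unpair.1 < m → (i ∈ g ↔ i ∈ g')) : Ev X g ⊆ Ev X g' := by
  classical
  rintro n ⟨s, hs, hn⟩
  refine ⟨strOf g' (cond s).length, inC_strOf _ _, hX n s _ hn (length_strOf _ _).symm ?_⟩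
  intro i hi
  by_cases hl : i < (cond s).length
  · rw [bit_of_inC hs hl, bit_strOf _ hl, decide_eq_decide.2 (h i hi)]
  · rw [bit_none (not_lt.1 hl), bit_none (by rw [length_strOf]; omega)]

end Codes

open Codes

theorem Inv.mono {m m' : ℕ} (h : m ≤ m') {X : Set ℕ} (hX : Inv m X) : Inv m' X :=
  fun n p q hp hl hb => hX n p q hp hl (fun i hi => hb i (lt_of_lt_of_le hi h))

theorem Ev_congr' {m : ℕ} {X : Set ℕ} (hX : Inv m X) {g g' : Set ℕ}
    (h : ∀ i, i.unpair.1 < m → (i ∈ g ↔ i ∈ g')) : Ev X g = Ev X g' :=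
  Subset.antisymm (Ev_sub hX h) (Ev_sub hX fun i hi => (h i hi).symm)

theorem Ev_congr {m : ℕ} {X : Set ℕ} (hX : Inv m X) {g g' : Set ℕ} (h : cut m g = cut m g') :
    Ev X g = Ev X g' := by
  refine Ev_congr' hX fun i hi => ?_
  have h1 : i ∈ cut m g ↔ i ∈ cut m g' := by rw [h]
  simpa [mem_cut, hi] using h1

theorem Ev_cut {m : ℕ} {X : Set ℕ} (hX : Inv m X) (g : Set ℕ) : Ev X g = Ev X (cut m g) :=
  Ev_congr' hX fun i hi => by simp [mem_cut, hi]

namespace Codes

/-! ### names -/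

section
variable {A : ℕ → List ℕ → Prop} {μ : Ordinal.{0}}

theorem val_cst (a : Ordinal.{0}) (h : Set ℕ) : val A μ (cst a) h = a.toZFSet := by
  unfold val
  rw [WellFoundedLT.fix_eq]
  have hx : ∃ b, cst a = cst b := ⟨a, rfl⟩
  rw [dif_pos hx]
  congr 1
  exact (cst_inj.1 (Classical.choose_spec hx)).symm

theorem mem_val {x : Ordinal.{0}} (hx : ¬ ∃ a, x = cst a) (h : Set ℕ) (y : ZFSet.{0}) :
    y ∈ val A μ x h ↔ ∃ e < x, ∃ c < μ, ∃ d < μ, ∃ q : ℕ, inG (supp A x) (zR A c) ∧
      Ct A x e d q ∧ inC q (symmDiff h (zR A c)) ∧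
      y = val A μ e (symmDiff (symmDiff h (zR A c)) (zR A d)) := by
  conv_lhs => unfold val
  rw [WellFoundedLT.fix_eq, dif_neg hx]
  rw [ZFSet.mem_range]
  constructor
  · rintro ⟨⟨⟨⟨e, he⟩, ⟨c, hc⟩, ⟨d, hd⟩, q⟩, h1, h2, h3⟩, h4⟩
    exact ⟨e, he, c, hc, d, hd, q, h1, h2, h3, h4.symm⟩
  · rintro ⟨e, he, c, hc, d, hd, q, h1, h2, h3, h4⟩
    exact ⟨⟨⟨⟨e, he⟩, ⟨c, hc⟩, ⟨d, hd⟩, q⟩, h1, h2, h3⟩, h4.symm⟩

theorem nz_eq_toZFSet (n : ℕ) : nz n = toZFSet (n : Ordinal.{0}) := by
  induction n with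
  | zero => simp [nz]
  | succ n ih => 
    rw [nz, ih, Nat.cast_succ, toZFSet_add_one]

theorem symmDiff_empty' (k : Set ℕ) : symmDiff k ∅ = k := by
  ext i; simp [mem_symmDiff]

theorem zR_zero : zR A 0 = ∅ := by
  ext n
  refine ⟨fun h => ?_, fun h => absurd h (by simp)⟩
  exact absurd (EE_lt (show EE A n 0 from h)) (by simp)

/-! ### definability -/

/-- finitely many existential quantifiers at once -/
theorem Df_exN {S M : Type*} {I : S → Sy → List M → Prop} {D : S → Set M}
    {P : S → (ℕ → M) → Prop} (h : Df I D P) (n : ℕ) :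
    Df I D (fun s v => ∃ w : ℕ → M, (∀ k, w k ∈ D s) ∧
      P s (fun k => if k < n then w k else v (k - n))) := by
  induction n with
  | zero =>
    refine h.congr fun s v hv => ⟨fun h1 => ⟨v, hv, by simpa using h1⟩, ?_⟩
    rintro ⟨w, -, h1⟩
    simpa using h1
  | succ n ih =>
    have h1 := Df.ex (Q := fun s a v => ∃ w : ℕ → M, (∀ k, w k ∈ D s) ∧
      P s (fun k => if k < n then w k else if k = n then a else v (k - n - 1)))
      (h := ih.congr fun s v _ => by
        have : ∀ w : ℕ → M, (fun k => if k < n then w k else v (k - n)) =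
            (fun k => if k < n then w k else if k = n then v 0 else v (k - n - 1 + 1)) := by
          intro w
          ext k
          split_ifs with h1 h2
          · rfl
          · rw [h2]; simp
          · rw [Nat.sub_add_cancel (by omega)]
        simp only [this])
    refine h1.congr fun s v hv => ⟨?_, ?_⟩
    · rintro ⟨a, ha, w, hw, h2⟩
      refine ⟨Function.update w n a, fun k => ?_, ?_⟩
      · by_cases hk : k = n
        · subst hk; simpa using ha
        · rw [Function.update_of_ne hk]; exact hw k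
      · refine (congrArg (P s) (funext fun k => ?_)).mpr h2
        by_cases h3 : k < n
        · rw [if_pos (by omega), if_pos h3, Function.update_of_ne h3.ne]
        · by_cases h4 : k = n
          · subst h4; simp
          · rw [if_neg (by omega), if_neg h3, if_neg h4]
            congr 1
    · rintro ⟨w, hw, h2⟩
      refine ⟨w n, hw n, w, hw, ?_⟩
      refine (congrArg (P s) (funext fun k => ?_)).mpr h2
      by_cases h3 : k < n
      · rw [if_pos h3, if_pos (by omega)]
      · by_cases h4 : k = n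
        · subst h4; simp
        · rw [if_neg h3, if_neg h4, if_neg (by omega)]
          congr 1

theorem DL.d0 {A : ℕ → List ℕ → Prop} {κ : Ordinal.{0}} {P : LS → (ℕ → Ordinal.{0}) → Prop}
    (h : DL A P) : D0 A κ (P (LI κ)) :=
  Df.restrict (fun _ : Unit => LI κ) h

end

section
variable {𝓕 : ℕ → Set ℕ} {A : ℕ → List ℕ → Prop} {κ μ : Ordinal.{0}}

theorem DL_ev : DL A (fun s v => v 0 = v 1 ∨ ∃ w : ℕ → Ordinal.{0}, (∀ k, w k ∈ s.1) ∧
    (w 6 < ω ∧ w 5 < ω ∧ w 4 = cst (w 6) ∧ w 3 = w 4 + 1 ∧ II A (.ar 5) [w 5, w 2] ∧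
      w 1 = (0 : ℕ) ∧ II A .code [w 3, w 1, w 2, v 0] ∧ II A (.ar 7) [w 6, w 5, w 0] ∧
        EE A (w 0) (v 2))) := by
  refine Df.or (Df.eq 0 1) ?_
  have h : DL A (fun _ u => u 6 < ω ∧ u 5 < ω ∧ u 4 = cst (u 6) ∧ u 3 = u 4 + 1 ∧
      II A (.ar 5) [u 5, u 2] ∧ u 1 = (0 : ℕ) ∧ II A .code [u 3, u 1, u 2, u 7] ∧
      II A (.ar 7) [u 6, u 5, u 0] ∧ EE A (u 0) (u 9)) := by
    refine (DL_om 6).and ((DL_om 5).and (Df.and ?_ (Df.and ?_ (Df.and ?_ (Df.and (DL_nat 0 1)
      (Df.and ?_ (Df.and ?_ (DL_E 0 9))))))))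
    · exact (Df_cst A).subst (fun k => if k = 0 then 4 else 6)
    · exact (Df_succ' A).subst (fun k => if k = 0 then 3 else 4)
    · exact Df.rel (I := fun _ : LS => II A) (.ar 5) [5, 2]
    · exact Df.rel (I := fun _ : LS => II A) .code [3, 1, 2, 7]
    · exact Df.rel (I := fun _ : LS => II A) (.ar 7) [6, 5, 0]
  exact (Df_exN h 7).congr fun s v hv => Iff.rfl

theorem one_le_cst (a : Ordinal.{0}) : 1 ≤ cst a :=
  Order.one_le_iff_pos.2 (lt_of_le_of_lt zero_le (lt_cst a))

theorem Tr_cst_iff {a : Ordinal.{0}} {q : ℕ} {t : Ordinal.{0}} :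
    Tr (cst a) 0 q t ↔ t = code (cst a + 1) 0 (2 * q) := by
  have h1 := one_le_cst a
  constructor
  · rintro ⟨-, h | h⟩
    · exact h.2
    · refine absurd h.1 (not_lt.2 ?_)
      rw [zero_add]
      exact h1
  · rintro rfl
    have h0 : 0 < cst a + 1 := lt_of_le_of_lt zero_le (Order.lt_add_one_iff.2 (le_refl _))
    refine ⟨om_le_code ?_ h0 _, Or.inl ⟨h0, rfl⟩⟩
    rw [← one_add_one_eq_two]
    exact add_one_le_iff'.2 h1

theorem D0_ev (hA : Arith A) (hg : Grd A κ μ) : D0 A κ (fun v => v 0 = v 1 ∨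
    ∃ n q : ℕ, Tr (cst n) 0 q (v 0) ∧ Nat.pair n q ∈ zR A (v 2)) := by
  have hκ : ω < κ := lt_of_le_of_lt hg.om_le hg.mu_lt
  have hnκ : ∀ n : ℕ, (n : Ordinal.{0}) < κ := fun n => (natCast_lt_omega0 n).trans hκ
  refine Df.congr (DL.d0 DL_ev) fun _ v hv => or_congr Iff.rfl ?_
  constructor
  · rintro ⟨w, hw, h6, h5, h4, h3, h2, h1, h, h7, h0⟩
    obtain ⟨n, hn⟩ := lt_omega0.1 h6
    obtain ⟨q, hq⟩ := lt_omega0.1 h5
    rw [hq, ar_graph hA.a5] at h2
    rw [II_code] at h
    obtain ⟨-, j, hj, h⟩ := h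
    rw [h2, Nat.cast_inj] at hj
    rw [h3, h1, h4, hn, ← hj] at h
    rw [hn, hq, II_ar] at h7
    obtain ⟨l, hl, h7⟩ := h7
    rw [hA.a7] at h7
    obtain ⟨a, b, rfl⟩ := h7
    simp only [List.map_cons, List.map_nil, List.cons.injEq, Nat.cast_inj, and_true] at hl
    obtain ⟨rfl, rfl, h8⟩ := hl
    rw [h8] at h0
    exact ⟨n, q, Tr_cst_iff.2 (by simpa using h), h0⟩
  · rintro ⟨n, q, hT, hX⟩
    rw [Tr_cst_iff] at hT
    have hc : cst (n : Ordinal.{0}) < κ := hg.code_lt _ (hg.succ_lt _ (hnκ n)) 0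
      (lt_of_le_of_lt zero_le (Order.lt_add_one_iff.2 (le_refl _))) 1
    refine ⟨fun k => if k = 0 then (Nat.pair n q : ℕ) else if k = 1 then (0 : ℕ) else
      if k = 2 then (2 * q : ℕ) else if k = 3 then cst n + 1 else if k = 4 then cst n else
      if k = 5 then q else n, ?_, ?_⟩
    · intro k
      dsimp only [LI, Set.mem_Iio]
      show ite _ _ _ < κ
      split_ifs
      exacts [hnκ _, hnκ _, hnκ _, hg.succ_lt _ hc, hc, hnκ _, hnκ _]
    · refine ⟨natCast_lt_omega0 _, natCast_lt_omega0 _, rfl, rfl, (ar_graph hA.a5 _ _).2 rfl, rfl,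
        ⟨?_, 2 * q, rfl, ?_⟩, ⟨[n, q, Nat.pair n q], rfl, (hA.a7 _).2 ⟨_, _, rfl⟩⟩, hX⟩
      · simp
      · simpa using hT

theorem mem_sz {S : Set ℕ} {y : ZFSet.{0}} : y ∈ sz S ↔ ∃ n ∈ S, y = nz n := by
  rw [sz, ZFSet.mem_range]
  constructor
  · rintro ⟨⟨n, hn⟩, h⟩
    exact ⟨n, hn, h.symm⟩
  · rintro ⟨n, hn, h⟩
    exact ⟨⟨n, hn⟩, h.symm⟩

theorem nz_injective : Function.Injective nz := by
  intro m n h
  rw [nz_eq_toZFSet, nz_eq_toZFSet] at h
  exact_mod_cast toZFSet_injective h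

theorem mem_sz_nz {S : Set ℕ} {n : ℕ} : nz n ∈ sz S ↔ n ∈ S := by
  rw [mem_sz]
  constructor
  · rintro ⟨k, hk, h⟩
    rwa [nz_injective h]
  · exact fun h => ⟨n, h, rfl⟩

end

end Codes

section
variable {𝓕 : ℕ → Set ℕ} {A : ℕ → List ℕ → Prop} {κ μ : Ordinal.{0}} (hC : Ctx 𝓕 A κ μ)
include hC

/-- names of codes, for all (not necessarily generic) reals -/
theorem exists_evName {m : ℕ} {X : Set ℕ} (hX : X ∈ R0 A κ) (hm : Inv m X) :
    ∃ y < κ, supp A y = m ∧ ∀ k, val A μ y k = sz (Ev X k) := by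
  obtain ⟨x, hx, hxX⟩ := hX
  have hA : Arith A := hC.ar.toArith
  have hg := hC.grd
  have hκ : ω < κ := lt_of_le_of_lt hg.om_le hg.mu_lt
  have hμ0 : (0 : Ordinal.{0}) < μ := lt_of_lt_of_le (by simp) hg.om_le
  have hnκ : ∀ n : ℕ, (n : Ordinal.{0}) < κ := fun n => (natCast_lt_omega0 n).trans hκ
  have hpos : ∀ a : Ordinal.{0}, 0 < a + 1 := fun a =>
    lt_of_le_of_lt zero_le (Order.lt_add_one_iff.2 (le_refl _))
  have hcst : ∀ a < κ, cst a < κ := fun a ha => hg.code_lt _ (hg.succ_lt a ha) 0 (hpos a) 1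
  obtain ⟨y, hy, hync, hye⟩ := hg.comp _ (D0_ev hA hg)
    (fun k => if k = 1 then (m : Ordinal.{0}) else x) (fun k => by
      show (_ : Ordinal.{0}) < κ
      split_ifs
      exacts [hnκ m, hx]) (cst (cst ω)) (hcst _ (hcst _ hκ))
  have hye' : ∀ e, EE A e y ↔ e = m ∨ ∃ n q : ℕ, Tr (cst n) 0 q e ∧ Nat.pair n q ∈ X := by
    intro e
    rw [hye]
    simp only [Function.update_self, ne_eq, one_ne_zero, not_false_eq_true,
      Function.update_of_ne, if_true, OfNat.ofNat_ne_zero, OfNat.ofNat_ne_one, if_false, hxX]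
    constructor
    · exact fun h => h.2
    · intro h
      refine ⟨?_, h⟩
      rcases h with h | ⟨n, q, hT, -⟩
      · rw [h]
        exact ((natCast_lt_omega0 m).trans (lt_cst _)).trans (lt_cst _)
      · rw [Tr_cst_iff.1 hT]
        show code (cst n + 1) 0 (2 * q) < code (cst ω + 1) 0 1
        rw [code_lt_iff (hpos _) (hpos _)]
        left
        exact add_one_lt_iff'.2 (cst_lt.2 (natCast_lt_omega0 n))
  have hz : zR A y = {m} := by
    ext n
    rw [mem_singleton_iff]
    show EE A n y ↔ _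
    rw [hye']
    constructor
    · rintro (h | ⟨n', q, hT, -⟩)
      · exact_mod_cast h
      · exact absurd hT.1 (not_le.2 (natCast_lt_omega0 n))
    · rintro rfl
      exact Or.inl rfl
  have hs : supp A y = m := by rw [supp, hz, csInf_singleton]
  have hCt : ∀ e d q, Ct A y e d q ↔ ∃ n : ℕ, e = cst n ∧ d = 0 ∧ Nat.pair n q ∈ X := by
    intro e d q
    constructor
    · rintro ⟨-, t, ht, hT⟩
      rcases (hye' t).1 ht with rfl | ⟨n, q', hT', h⟩
      · exact absurd hT.1 (not_le.2 (natCast_lt_omega0 m))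
      · obtain ⟨rfl, rfl, rfl⟩ := Tr_inj hT hT'
        exact ⟨n, rfl, rfl, h⟩
    · rintro ⟨n, rfl, rfl, h⟩
      exact ⟨hync, _, (hye' _).2 (Or.inr ⟨n, q, Tr_cst_iff.2 rfl, h⟩), Tr_cst_iff.2 rfl⟩
  refine ⟨y, hy, hs, fun k => ?_⟩
  ext z
  rw [Codes.mem_val hync, mem_sz, hs]
  constructor
  · rintro ⟨e, -, c, -, d, -, q, h1, h2, h3, h4⟩
    obtain ⟨n, rfl, rfl, h⟩ := (hCt _ _ _).1 h2
    rw [val_cst, ← nz_eq_toZFSet] at h4
    refine ⟨n, ?_, h4⟩
    have : n ∈ Ev X (symmDiff k (zR A c)) := ⟨q, h3, h⟩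
    rwa [Ev_congr' hm (g' := k)] at this
    intro i hi
    have := h1 i hi
    simp [mem_symmDiff, this]
  · rintro ⟨n, ⟨s, hs1, hs2⟩, rfl⟩
    have h2 := (hCt (cst n) 0 s).2 ⟨n, rfl, rfl, hs2⟩
    obtain ⟨-, t, ht, hT⟩ := h2
    refine ⟨cst n, (Tr_lt hT).1.trans (EE_lt ht), 0, hμ0, 0, hμ0, s, ?_, ⟨hync, t, ht, hT⟩, ?_, ?_⟩
    · rw [zR_zero]; intro i _; simp
    · rw [zR_zero, symmDiff_empty']; exact hs1
    · rw [val_cst, nz_eq_toZFSet]

omit hC in
theorem Codes.DfN_mem' : DfN A κ μ (fun _ v => v 0 ∈ v 1) := by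
  refine (Df.rel .mem [0, 1]).congr fun s v hv => ?_
  constructor
  · rintro ⟨x, y, h, hxy⟩
    simp only [List.map_cons, List.map_nil, List.cons.injEq, and_true] at h
    rw [h.1, h.2]
    exact hxy
  · exact fun h => ⟨_, _, rfl, h⟩

theorem Codes.finite_R0 {w : Set ℕ} (hw : w.Finite) : w ∈ R0 A κ := by
  have hR := R0_ACA hC
  have : AD (R0 A κ) (fun n => n ∈ w) := by
    induction w, hw using Set.Finite.induction_on with
    | empty => exact (AD.const hR False : AD (R0 A κ) (fun _ : ℕ => False))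
    | insert _ _ ih =>
      rename_i a s _ _
      have h1 : AD (R0 A κ) (fun n : ℕ => n = a) :=
        AD.of_prim hR (Primrec.eq.comp Primrec.id (Primrec.const a))
      exact h1.or hR ih
  exact AD_nat.1 this

/-- codes of names, uniformly for all generic reals -/
theorem exists_Ev {y : Ordinal.{0}} (hy : y < κ) {m : ℕ} (hm : supp A y ≤ m) : ∃ X ∈ R0 A κ,
    Inv m X ∧ ∀ k, Gen A κ k → {n : ℕ | nz n ∈ val A μ y k} = Ev X k := by
  classical
  have hA : Arith A := hC.ar.toArith
  have hg := hC.grd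
  have hκ : ω < κ := lt_of_le_of_lt hg.om_le hg.mu_lt
  set X : Set ℕ := {n : ℕ | ∀ k, Gen A κ k → inC n.unpair.2 k → nz n.unpair.1 ∈ val A μ y k}
    with hX
  have hmem : ∀ n p, Nat.pair n p ∈ X ↔ ∀ k, Gen A κ k → inC p k → nz n ∈ val A μ y k := by
    intro n p
    rw [hX]
    show (∀ k, Gen A κ k → inC (Nat.pair n p).unpair.2 k →
      nz (Nat.pair n p).unpair.1 ∈ val A μ y k) ↔ _
    rw [Nat.unpair_pair]
  refine ⟨X, ?_, ?_, ?_⟩
  · have h1 := force_def hA hg (Codes.DfN_mem' (μ := μ)) (fun _ => y) (fun _ => hy)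
    simp only [Function.update_self, ne_eq, one_ne_zero, not_false_eq_true,
      Function.update_of_ne, ← nz_eq_toZFSet] at h1
    exact h1
  · intro n p q hp hl hb
    rw [hmem] at hp ⊢
    intro k hk hqk
    set w : Set ℕ := {i | i < (cond q).length ∧ bit p i ≠ bit q i} with hw
    have hwf : w ∈ R0 A κ := Codes.finite_R0 hC ((Set.finite_lt_nat _).subset fun i hi => hi.1)
    obtain ⟨z, hz, hzw⟩ := R0_mu hC hwf
    have hzκ : z < κ := hz.trans hg.mu_lt
    have hgen := Gen.add hA hg hk hzκ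
    have hinG : inG (supp A y) (zR A z) := by
      rw [hzw]
      intro i hi hiw
      exact hiw.2 (hb i (lt_of_lt_of_le hi hm))
    rw [← val_inv hA hg hy hzκ hinG]
    refine hp _ hgen ?_
    rw [hzw]
    intro i
    by_cases hi : i < (cond q).length
    · have h1 := bit_of_inC hqk hi
      have h2 : ∃ b, bit p i = some b := by
        rw [bit]
        exact ⟨(cond p)[i], by simp [hl ▸ hi]⟩
      obtain ⟨b, h2⟩ := h2
      have h3 : i ∈ w ↔ b ≠ decide (i ∈ k) := by
        show (i < (cond q).length ∧ bit p i ≠ bit q i) ↔ _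
        rw [h1, h2]
        simp [hi]
      rw [h2, mem_symmDiff]
      by_cases h4 : i ∈ k <;> cases b <;> simp [h3, h4]
    · rw [bit_none (by omega)]; simp
  · intro k hk
    ext n
    constructor
    · intro hn
      have h1 := force hA hg (Codes.DfN_mem' (μ := μ))
        (Function.update (fun _ => y) 0 (cst n)) (fun i => by
          by_cases hi : i = 0
          · subst hi
            rw [Function.update_self]
            exact hg.code_lt _ (hg.succ_lt _ ((natCast_lt_omega0 n).trans hκ)) 0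
              (lt_of_le_of_lt zero_le (Order.lt_add_one_iff.2 (le_refl _))) 1
          · rw [Function.update_of_ne hi]; exact hy) hk
        (by
          simp only [Function.update_self, ne_eq, one_ne_zero, not_false_eq_true,
            Function.update_of_ne, val_cst, ← nz_eq_toZFSet]
          exact hn)
      obtain ⟨p, hp, h⟩ := h1
      refine ⟨p, hp, (hmem _ _).2 fun k' hk' hp' => ?_⟩
      have := h k' hk' hp'
      simpa only [Function.update_self, ne_eq, one_ne_zero, not_false_eq_true,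
            Function.update_of_ne, val_cst, ← nz_eq_toZFSet] using this
    · rintro ⟨s, hs, h⟩
      exact (hmem _ _).1 h k hk hs

theorem mem_Rm_iff {g : Set ℕ} (hg : Gen A κ g) (m : ℕ) (S : Set ℕ) :
    S ∈ Rm A κ μ g m ↔ ∃ X ∈ R0 A κ, Inv m X ∧ S = Ev X g := by
  constructor
  · rintro ⟨y, hy, hm, hv⟩
    obtain ⟨X, hX, hI, h⟩ := exists_Ev hC hy hm
    refine ⟨X, hX, hI, ?_⟩
    rw [← h g hg, hv]
    ext n
    exact mem_sz_nz.symm
  · rintro ⟨X, hX, hI, rfl⟩
    obtain ⟨y, hy, hs, h⟩ := exists_evName hC hX hI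
    exact ⟨y, hy, hs.le, h g⟩

omit hC in
theorem Codes.prim_bit : Primrec₂ bit := by
  have h1 : Primrec (fun p : ℕ => cond p) :=
    Primrec.option_getD.comp (Primrec.decode (α := List Bool)) (Primrec.const [])
  exact Primrec.list_getElem?.comp (h1.comp Primrec.fst) Primrec.snd

omit hC in
theorem Codes.prim_len : Primrec (fun p : ℕ => (cond p).length) := by
  have h1 : Primrec (fun p : ℕ => cond p) :=
    Primrec.option_getD.comp (Primrec.decode (α := List Bool)) (Primrec.const [])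
  exact Primrec.list_length.comp h1

omit hC in
theorem Codes.prim_col : Primrec (fun i : ℕ => i.unpair.1) := Primrec.fst.comp Primrec.unpair

theorem cut_mem {g : Set ℕ} (hg : Gen A κ g) (m : ℕ) : cut m g ∈ Rm A κ μ g m := by
  classical
  rw [mem_Rm_iff hC hg]
  have hR := R0_ACA hC
  have hmem : ∀ n p, Nat.pair n p ∈ {c : ℕ | bit c.unpair.2 c.unpair.1 = some true ∧
      c.unpair.1.unpair.1 < m} ↔ bit p n = some true ∧ n.unpair.1 < m := by
    intro n p
    show (bit (Nat.pair n p).unpair.2 (Nat.pair n p).unpair.1 = some true ∧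
      (Nat.pair n p).unpair.1.unpair.1 < m) ↔ _
    rw [Nat.unpair_pair]
  refine ⟨{c | bit c.unpair.2 c.unpair.1 = some true ∧ c.unpair.1.unpair.1 < m}, ?_, ?_, ?_⟩
  · refine AD_nat.1 (AD.of_prim hR (PrimrecPred.and ?_ ?_))
    · exact Primrec.eq.comp (Codes.prim_bit.comp (Primrec.snd.comp Primrec.unpair)
        (Primrec.fst.comp Primrec.unpair)) (Primrec.const (some true))
    · exact Primrec.nat_lt.comp (Codes.prim_col.comp (Primrec.fst.comp Primrec.unpair))
        (Primrec.const m)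
  · intro n p q hp hl hb
    rw [hmem] at hp ⊢
    rw [← hb n hp.2]
    exact hp
  · ext i
    constructor
    · rintro ⟨h1, h2⟩
      refine ⟨strOf g (i + 1), inC_strOf _ _, (hmem _ _).2 ⟨?_, h2⟩⟩
      rw [bit_strOf _ (Nat.lt_succ_self i)]
      simp [h1]
    · rintro ⟨s, hs, h⟩
      rw [hmem] at h
      exact ⟨(hs i).1 h.1, h.2⟩

/-- substitution of ground reals for the columns beyond `m` -/
theorem exists_subst {m m' : ℕ} (hmm : m ≤ m') {X z : Set ℕ} (hX : X ∈ R0 A κ) (hI : Inv m' X)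
    (hz : z ∈ R0 A κ) : ∃ X' ∈ R0 A κ, Inv m X' ∧
      ∀ g, Ev X' g = Ev X (op m m' false (cut m' g) z) := by
  classical
  have hR := R0_ACA hC
  set X' : Set ℕ := {c : ℕ | ∃ t : ℕ, Nat.pair c.unpair.1 t ∈ X ∧
    (cond t).length = (cond c.unpair.2).length ∧ ∀ i : ℕ, i < (cond t).length →
      (i.unpair.1 < m → bit t i = bit c.unpair.2 i) ∧
      (m ≤ i.unpair.1 → i.unpair.1 < m' → (bit t i = some true ↔ i ∈ z))} with hX'
  have hmem : ∀ n s, Nat.pair n s ∈ X' ↔ ∃ t : ℕ, Nat.pair n t ∈ X ∧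
    (cond t).length = (cond s).length ∧ ∀ i : ℕ, i < (cond t).length →
      (i.unpair.1 < m → bit t i = bit s i) ∧
      (m ≤ i.unpair.1 → i.unpair.1 < m' → (bit t i = some true ↔ i ∈ z)) := by
    intro n s
    show (∃ t : ℕ, Nat.pair (Nat.pair n s).unpair.1 t ∈ X ∧
      (cond t).length = (cond (Nat.pair n s).unpair.2).length ∧ ∀ i : ℕ, i < (cond t).length →
      (i.unpair.1 < m → bit t i = bit (Nat.pair n s).unpair.2 i) ∧
      (m ≤ i.unpair.1 → i.unpair.1 < m' → (bit t i = some true ↔ i ∈ z))) ↔ _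
    rw [Nat.unpair_pair]
  refine ⟨X', ?_, ?_, ?_⟩
  · refine AD_nat.1 (AD.ex hR (AD.and hR ?_ (AD.and hR ?_ (AD.all hR (AD.imp hR ?_
      (AD.and hR (AD.imp hR ?_ ?_) (AD.imp hR ?_ (AD.imp hR ?_ (AD.iff hR ?_ ?_)))))))))
    · exact AD.comp hR (P := fun n => n ∈ X) (AD_nat.2 hX) (f := fun x : ℕ × ℕ =>
        Nat.pair x.1.unpair.1 x.2) (Primrec₂.natPair.comp (Codes.prim_col.comp Primrec.fst)
          Primrec.snd)
    · exact AD.of_prim hR (Primrec.eq.comp (Codes.prim_len.comp Primrec.snd)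
        (Codes.prim_len.comp (Primrec.snd.comp (Primrec.unpair.comp Primrec.fst))))
    · exact AD.of_prim hR (Primrec.nat_lt.comp Primrec.snd
        (Codes.prim_len.comp (Primrec.snd.comp Primrec.fst)))
    · exact AD.of_prim hR (Primrec.nat_lt.comp (Codes.prim_col.comp Primrec.snd)
        (Primrec.const m))
    · exact AD.of_prim hR (Primrec.eq.comp
        (Codes.prim_bit.comp (Primrec.snd.comp Primrec.fst) Primrec.snd)
        (Codes.prim_bit.comp (Primrec.snd.comp (Primrec.unpair.comp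
          (Primrec.fst.comp Primrec.fst))) Primrec.snd))
    · exact AD.of_prim hR (Primrec.nat_le.comp (Primrec.const m)
        (Codes.prim_col.comp Primrec.snd))
    · exact AD.of_prim hR (Primrec.nat_lt.comp (Codes.prim_col.comp Primrec.snd)
        (Primrec.const m'))
    · exact AD.of_prim hR (Primrec.eq.comp
        (Codes.prim_bit.comp (Primrec.snd.comp Primrec.fst) Primrec.snd)
        (Primrec.const (some true)))
    · exact AD.comp hR (P := fun n => n ∈ z) (AD_nat.2 hz) Primrec.snd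
  · intro n p q hp hl hb
    rw [hmem] at hp ⊢
    obtain ⟨t, h1, h2, h3⟩ := hp
    exact ⟨t, h1, h2.trans hl, fun i hi => ⟨fun hm => by
      rw [(h3 i hi).1 hm, hb i hm], (h3 i hi).2⟩⟩
  · intro g
    ext n
    constructor
    · rintro ⟨s, hs, h⟩
      rw [hmem] at h
      obtain ⟨t, h1, h2, h3⟩ := h
      refine ⟨strOf (op m m' false (cut m' g) z) (cond t).length, inC_strOf _ _,
        hI n t _ h1 (length_strOf _ _).symm fun i hi => ?_⟩
      by_cases hl : i < (cond t).length
      · rw [bit_strOf _ hl]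
        obtain ⟨h4, h5⟩ := h3 i hl
        by_cases him : i.unpair.1 < m
        · rw [h4 him, bit_of_inC hs (by omega), Option.some_inj, decide_eq_decide]
          constructor
          · exact fun h => Or.inl ⟨him, h, hi⟩
          · rintro (h | h)
            · exact h.2.1
            · exact absurd h.1 (by omega)
        · have h6 := h5 (not_lt.1 him) hi
          have h7 : i ∈ op m m' false (cut m' g) z ↔ i ∈ z := by
            constructor
            · rintro (h | h)
              · exact absurd h.1 him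
              · have := h.2.2
                simpa using this
            · intro h
              exact Or.inr ⟨not_lt.1 him, hi, by simpa using h⟩
          have h8 : ∃ b, bit t i = some b := ⟨(cond t)[i], by rw [bit]; simp [hl]⟩
          obtain ⟨b, h8⟩ := h8
          rw [h8] at h6 ⊢
          rw [Option.some_inj]
          cases b with
          | true => simp only [true_iff] at h6; simp [h7, h6]
          | false =>
            simp only [Option.some_inj, Bool.false_eq_true, false_iff] at h6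
            simp [h7, h6]
      · rw [bit_none (not_lt.1 hl), bit_none (by rw [length_strOf]; omega)]
    · rintro ⟨t, ht, h⟩
      refine ⟨strOf g (cond t).length, inC_strOf _ _, (hmem _ _).2 ⟨t, h,
        (length_strOf _ _).symm, fun i hi => ?_⟩⟩
      have h1 := bit_of_inC ht hi
      refine ⟨fun him => ?_, fun h2 h3 => ?_⟩
      · rw [h1, bit_strOf _ hi, Option.some_inj, decide_eq_decide]
        constructor
        · rintro (h | h)
          · exact h.2.1
          · exact absurd h.1 (by omega)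
        · exact fun h => Or.inl ⟨him, h, by omega⟩
      · rw [h1, Option.some_inj, decide_eq_true_iff]
        constructor
        · rintro (h | h)
          · exact absurd h.1 (by omega)
          · have := h.2.2
            simpa using this
        · intro h
          exact Or.inr ⟨h2, h3, by simpa using h⟩

end

end Pool.Agent.CC
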