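import Mathlib
import Pool.Agent.Lib.MP_bf67b0_lc.Defs2
import Pool.Agent.Lib.MP_bf67b0_lc.Clauses
import Pool.Agent.Lib.MP_bf67b0_lc.Ground
import Pool.Agent.Lib.MP_bf67b0_lc.Aca
import Pool.Agent.Lib.MP_bf67b0_lc.GroundReals

/-!
Least fixed points of inductive definitions in the ground model, and their stages.
-/

set_option autoImplicit false

namespace Pool.Agent.CC

open Ordinal Set

section
variable {α : Type} [Primcodable α]

/-- the negative part of the operator: instances which hold outright -/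
def rk1 (C : α → Prop) (le : α → α → Prop) (Dec : α → List ℕ → Prop) (n i j : ℕ) : Prop :=
  ∀ x : (α × List ℕ) × (ℕ × α), n = Encodable.encode x.1 → i = Encodable.encode x.2 + 1 →
    C x.2.2 → le x.2.2 x.1.1 → ∃ r : α, j = Encodable.encode r ∧ C r ∧ le r x.2.2 ∧
      Dec r (x.1.2 ++ [x.2.1])

/-- the positive part of the operator -/
def rk2 (C : α → Prop) (le : α → α → Prop) (n i j : ℕ) : Prop :=
  ∃ x : (α × List ℕ) × (ℕ × α), n = Encodable.encode x.1 ∧ i = Encodable.encode x.2 + 1 ∧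
    ∃ r : α, j = Encodable.encode (r, x.1.2 ++ [x.2.1]) ∧ C r ∧ le r x.2.2

/-- the set coding the operator -/
def rkS (C : α → Prop) (le : α → α → Prop) (Dec : α → List ℕ → Prop) : Set ℕ :=
  {c | ∃ y : ℕ × ℕ × ℕ, (c = 2 * Nat.pair (Nat.pair y.1 y.2.1) y.2.2 ∧
      rk1 C le Dec y.1 y.2.1 y.2.2) ∨
    (c = 2 * Nat.pair (Nat.pair y.1 y.2.1) y.2.2 + 1 ∧ rk2 C le y.1 y.2.1 y.2.2)}

theorem mem_rkS1 {C : α → Prop} {le : α → α → Prop} {Dec : α → List ℕ → Prop} (n i j : ℕ) :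
    2 * Nat.pair (Nat.pair n i) j ∈ rkS C le Dec ↔ rk1 C le Dec n i j := by
  constructor
  · rintro ⟨y, h | h⟩
    · have h1 := Nat.eq_of_mul_eq_mul_left (by norm_num) h.1
      rw [Nat.pair_eq_pair, Nat.pair_eq_pair] at h1
      rw [h1.1.1, h1.1.2, h1.2]
      exact h.2
    · omega
  · intro h
    exact ⟨(n, i, j), Or.inl ⟨rfl, h⟩⟩

theorem mem_rkS2 {C : α → Prop} {le : α → α → Prop} {Dec : α → List ℕ → Prop} (n i j : ℕ) :
    2 * Nat.pair (Nat.pair n i) j + 1 ∈ rkS C le Dec ↔ rk2 C le n i j := by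
  constructor
  · rintro ⟨y, h | h⟩
    · omega
    · have h0 : 2 * Nat.pair (Nat.pair n i) j = 2 * Nat.pair (Nat.pair y.1 y.2.1) y.2.2 :=
        Nat.succ_injective h.1
      have h1 := Nat.eq_of_mul_eq_mul_left (by norm_num) h0
      rw [Nat.pair_eq_pair, Nat.pair_eq_pair] at h1
      rw [h1.1.1, h1.1.2, h1.2]
      exact h.2
  · intro h
    exact ⟨(n, i, j), Or.inr ⟨rfl, h⟩⟩

theorem rkS_unbounded {C : α → Prop} {le : α → α → Prop} {Dec : α → List ℕ → Prop} (k : ℕ) :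
    ∃ c ∈ rkS C le Dec, k ≤ c := by
  refine ⟨2 * Nat.pair (Nat.pair 0 0) k, (mem_rkS1 _ _ _).2 fun x _ h => ?_, ?_⟩
  · omega
  · have := Nat.right_le_pair (Nat.pair 0 0) k
    omega

end

section
variable {𝓡 : Set (Set ℕ)} (h𝓡 : ACA 𝓡)
variable {α : Type} [Primcodable α] {C : α → Prop} {le : α → α → Prop} {Dec : α → List ℕ → Prop}
include h𝓡

theorem rk1_AD (hCd : AD 𝓡 C) (hle : AD 𝓡 (fun x : α × α => le x.1 x.2))
    (hDec : AD 𝓡 (fun x : α × List ℕ => Dec x.1 x.2)) :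
    AD 𝓡 (fun y : ℕ × ℕ × ℕ => rk1 C le Dec y.1 y.2.1 y.2.2) := by
  unfold rk1
  refine AD.all h𝓡 (P := fun (y : ℕ × ℕ × ℕ) (x : (α × List ℕ) × (ℕ × α)) =>
    y.1 = Encodable.encode x.1 → y.2.1 = Encodable.encode x.2 + 1 →
    C x.2.2 → le x.2.2 x.1.1 → ∃ r : α, y.2.2 = Encodable.encode r ∧ C r ∧ le r x.2.2 ∧
      Dec r (x.1.2 ++ [x.2.1])) ?_
  refine AD.imp h𝓡 ?_ (AD.imp h𝓡 ?_ (AD.imp h𝓡 ?_ (AD.imp h𝓡 ?_ ?_)))
  · exact AD.of_prim h𝓡 (Primrec.eq.comp (Primrec.fst.comp Primrec.fst)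
      (Primrec.encode.comp (Primrec.fst.comp Primrec.snd)))
  · exact AD.of_prim h𝓡 (Primrec.eq.comp (Primrec.fst.comp (Primrec.snd.comp Primrec.fst))
      (Primrec.succ.comp (Primrec.encode.comp (Primrec.snd.comp Primrec.snd))))
  · exact AD.comp h𝓡 hCd (Primrec.snd.comp (Primrec.snd.comp Primrec.snd))
  · exact AD.comp h𝓡 hle (f := fun z : (ℕ × ℕ × ℕ) × ((α × List ℕ) × (ℕ × α)) =>
      (z.2.2.2, z.2.1.1)) (Primrec.pair (Primrec.snd.comp (Primrec.snd.comp Primrec.snd))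
      (Primrec.fst.comp (Primrec.fst.comp Primrec.snd)))
  · refine AD.ex h𝓡 (P := fun (z : (ℕ × ℕ × ℕ) × ((α × List ℕ) × (ℕ × α))) (r : α) =>
      z.1.2.2 = Encodable.encode r ∧ C r ∧ le r z.2.2.2 ∧ Dec r (z.2.1.2 ++ [z.2.2.1])) ?_
    refine AD.and h𝓡 ?_ (AD.and h𝓡 ?_ (AD.and h𝓡 ?_ ?_))
    · exact AD.of_prim h𝓡 (Primrec.eq.comp
        (Primrec.snd.comp (Primrec.snd.comp (Primrec.fst.comp Primrec.fst)))
        (Primrec.encode.comp Primrec.snd))
    · exact AD.comp h𝓡 hCd Primrec.snd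
    · exact AD.comp h𝓡 hle (f := fun z : ((ℕ × ℕ × ℕ) × ((α × List ℕ) × (ℕ × α))) × α =>
        (z.2, z.1.2.2.2)) (Primrec.pair Primrec.snd
        (Primrec.snd.comp (Primrec.snd.comp (Primrec.snd.comp Primrec.fst))))
    · exact AD.comp h𝓡 hDec (f := fun z : ((ℕ × ℕ × ℕ) × ((α × List ℕ) × (ℕ × α))) × α =>
        (z.2, z.1.2.1.2 ++ [z.1.2.2.1])) (Primrec.pair Primrec.snd
        (Primrec.list_append.comp
          (Primrec.snd.comp (Primrec.fst.comp (Primrec.snd.comp Primrec.fst)))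
          (Primrec.list_cons.comp
            (Primrec.fst.comp (Primrec.snd.comp (Primrec.snd.comp Primrec.fst)))
            (Primrec.const []))))

theorem rk2_AD (hCd : AD 𝓡 C) (hle : AD 𝓡 (fun x : α × α => le x.1 x.2)) :
    AD 𝓡 (fun y : ℕ × ℕ × ℕ => rk2 C le y.1 y.2.1 y.2.2) := by
  unfold rk2
  refine AD.ex h𝓡 (P := fun (y : ℕ × ℕ × ℕ) (x : (α × List ℕ) × (ℕ × α)) =>
    y.1 = Encodable.encode x.1 ∧ y.2.1 = Encodable.encode x.2 + 1 ∧
    ∃ r : α, y.2.2 = Encodable.encode (r, x.1.2 ++ [x.2.1]) ∧ C r ∧ le r x.2.2) ?_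
  refine AD.and h𝓡 ?_ (AD.and h𝓡 ?_ ?_)
  · exact AD.of_prim h𝓡 (Primrec.eq.comp (Primrec.fst.comp Primrec.fst)
      (Primrec.encode.comp (Primrec.fst.comp Primrec.snd)))
  · exact AD.of_prim h𝓡 (Primrec.eq.comp (Primrec.fst.comp (Primrec.snd.comp Primrec.fst))
      (Primrec.succ.comp (Primrec.encode.comp (Primrec.snd.comp Primrec.snd))))
  · refine AD.ex h𝓡 (P := fun (z : (ℕ × ℕ × ℕ) × ((α × List ℕ) × (ℕ × α))) (r : α) =>
      z.1.2.2 = Encodable.encode (r, z.2.1.2 ++ [z.2.2.1]) ∧ C r ∧ le r z.2.2.2) ?_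
    refine AD.and h𝓡 ?_ (AD.and h𝓡 ?_ ?_)
    · exact AD.of_prim h𝓡 (Primrec.eq.comp
        (Primrec.snd.comp (Primrec.snd.comp (Primrec.fst.comp Primrec.fst)))
        (Primrec.encode.comp (Primrec.pair Primrec.snd
        (Primrec.list_append.comp
          (Primrec.snd.comp (Primrec.fst.comp (Primrec.snd.comp Primrec.fst)))
          (Primrec.list_cons.comp
            (Primrec.fst.comp (Primrec.snd.comp (Primrec.snd.comp Primrec.fst)))
            (Primrec.const []))))))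
    · exact AD.comp h𝓡 hCd Primrec.snd
    · exact AD.comp h𝓡 hle (f := fun z : ((ℕ × ℕ × ℕ) × ((α × List ℕ) × (ℕ × α))) × α =>
        (z.2, z.1.2.2.2)) (Primrec.pair Primrec.snd
        (Primrec.snd.comp (Primrec.snd.comp (Primrec.snd.comp Primrec.fst))))

theorem rkS_mem (hCd : AD 𝓡 C) (hle : AD 𝓡 (fun x : α × α => le x.1 x.2))
    (hDec : AD 𝓡 (fun x : α × List ℕ => Dec x.1 x.2)) : rkS C le Dec ∈ 𝓡 := by
  have h1 := rk1_AD h𝓡 hCd hle hDec
  have h2 := rk2_AD h𝓡 hCd hle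
  have hp : Primrec (fun z : ℕ × (ℕ × ℕ × ℕ) => 2 * Nat.pair (Nat.pair z.2.1 z.2.2.1) z.2.2.2) :=
    Primrec.nat_mul.comp (Primrec.const 2) (Primrec₂.natPair.comp
      (Primrec₂.natPair.comp (Primrec.fst.comp Primrec.snd)
        (Primrec.fst.comp (Primrec.snd.comp Primrec.snd)))
      (Primrec.snd.comp (Primrec.snd.comp Primrec.snd)))
  refine AD_nat.1 (AD.ex h𝓡 (P := fun (c : ℕ) (y : ℕ × ℕ × ℕ) =>
    (c = 2 * Nat.pair (Nat.pair y.1 y.2.1) y.2.2 ∧ rk1 C le Dec y.1 y.2.1 y.2.2) ∨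
    (c = 2 * Nat.pair (Nat.pair y.1 y.2.1) y.2.2 + 1 ∧ rk2 C le y.1 y.2.1 y.2.2)) ?_)
  refine AD.or h𝓡 (AD.and h𝓡 ?_ ?_) (AD.and h𝓡 ?_ ?_)
  · exact AD.of_prim h𝓡 (Primrec.eq.comp Primrec.fst hp)
  · exact AD.comp h𝓡 h1 Primrec.snd
  · exact AD.of_prim h𝓡 (Primrec.eq.comp Primrec.fst (Primrec.succ.comp hp))
  · exact AD.comp h𝓡 h2 Primrec.snd

end

section
variable {𝓕 : ℕ → Set ℕ} {A : ℕ → List ℕ → Prop} {κ μ : Ordinal.{0}} (hC : Ctx 𝓕 A κ μ)
include hC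
variable {α : Type} [Primcodable α] {C : α → Prop} {le : α → α → Prop} {Dec : α → List ℕ → Prop}

/-- the least fixed point and its stages -/
theorem exists_rank (hCd : AD (R0 A κ) C) (hle : AD (R0 A κ) (fun x : α × α => le x.1 x.2))
    (hDec : AD (R0 A κ) (fun x : α × List ℕ => Dec x.1 x.2)) :
    ∃ (Kin : α → List ℕ → Prop) (ρ : α → List ℕ → Ordinal.{0}),
      (∀ p σ, ρ p σ < κ) ∧ AD (R0 A κ) (fun x : α × List ℕ => Kin x.1 x.2) ∧
      AD (R0 A κ) (fun x : (α × List ℕ) × (α × List ℕ) => ρ x.1.1 x.1.2 < ρ x.2.1 x.2.2) ∧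
      (∀ p σ, Kin p σ → ∀ i q, C q → le q p → ∃ r, C r ∧ le r q ∧
        (Dec r (σ ++ [i]) ∨ (Kin r (σ ++ [i]) ∧ ρ r (σ ++ [i]) < ρ p σ))) ∧
      (∀ p σ, (∀ i q, C q → le q p → ∃ r, C r ∧ le r q ∧
        (Dec r (σ ++ [i]) ∨ Kin r (σ ++ [i]))) → Kin p σ) := by
  classical
  have h𝓡 := R0_ACA hC
  have hA : Arith A := hC.ar.toArith
  obtain ⟨t, htκ, ht⟩ := rkS_mem h𝓡 hCd hle hDec
  have htω : ω ≤ t := by
    by_contra hc
    push Not at hc
    obtain ⟨k, rfl⟩ := lt_omega0.1 hc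
    obtain ⟨c, hc, hkc⟩ := rkS_unbounded (C := C) (le := le) (Dec := Dec) k
    rw [← ht] at hc
    have h1 : (c : Ordinal.{0}) < k := EE_lt hc
    have h2 : c < k := by exact_mod_cast h1
    omega
  -- the operator
  have hK : ∀ (a : Ordinal.{0}) (p : α) (σ : List ℕ),
      II A .K [t, a, (Encodable.encode (p, σ) : ℕ)] ↔ ∀ i q, C q → le q p → ∃ r, C r ∧ le r q ∧
        (Dec r (σ ++ [i]) ∨ ∃ b < a, II A .K [t, b, (Encodable.encode (r, σ ++ [i]) : ℕ)]) := by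
    intro a p σ
    rw [K_iff hA htω]
    simp only [ht, mem_rkS1, mem_rkS2]
    constructor
    · intro h i q hq hqp
      obtain ⟨j, h1 | ⟨h1, b, hb, h2⟩⟩ := h (Encodable.encode (i, q) + 1)
      · obtain ⟨r, -, hr, hrq, hd⟩ := h1 ((p, σ), (i, q)) rfl rfl hq hqp
        exact ⟨r, hr, hrq, Or.inl hd⟩
      · obtain ⟨x, hx1, hx2, r, rfl, hr, hrq⟩ := h1
        have e1 := Encodable.encode_injective hx1
        have e2 := Encodable.encode_injective (Nat.succ_injective hx2)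
        rw [← e1, ← e2] at h2
        rw [← e2] at hrq
        exact ⟨r, hr, hrq, Or.inr ⟨b, hb, h2⟩⟩
    · intro h i
      by_cases hi : ∃ x : ℕ × α, i = Encodable.encode x + 1 ∧ C x.2 ∧ le x.2 p
      · obtain ⟨⟨i0, q⟩, rfl, hq, hqp⟩ := hi
        obtain ⟨r, hr, hrq, hd | ⟨b, hb, h2⟩⟩ := h i0 q hq hqp
        · refine ⟨Encodable.encode r, Or.inl ?_⟩
          rintro ⟨y, z⟩ hx1 hx2 - -
          have e1 := Encodable.encode_injective hx1
          have e2 := Encodable.encode_injective (Nat.succ_injective hx2)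
          simp only at e1 e2
          subst e1; subst e2
          exact ⟨r, rfl, hr, hrq, hd⟩
        · exact ⟨_, Or.inr ⟨⟨((p, σ), (i0, q)), rfl, rfl, r, rfl, hr, hrq⟩, b, hb, h2⟩⟩
      · refine ⟨0, Or.inl ?_⟩
        rintro ⟨y, z⟩ hx1 hx2 h3 h4
        have e1 := Encodable.encode_injective hx1
        simp only at e1
        subst e1
        exact absurd ⟨z, hx2, h3, h4⟩ hi
  -- the closure ordinal
  obtain ⟨s, hs, hst⟩ := hC.grd.stage t htκ
  have h0κ : (0 : Ordinal.{0}) < κ := hC.good.pos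
  let ρ' : ℕ → Ordinal.{0} := fun n =>
    if II A .K [t, s, (n : Ordinal.{0})] then sInf {b | II A .K [t, b, (n : Ordinal.{0})]} else 0
  have hρκ : ∀ n, ρ' n < κ := by
    intro n
    simp only [ρ']
    split_ifs with h
    · exact lt_of_le_of_lt (csInf_le' h) hs
    · exact h0κ
  have hρmem : ∀ n : ℕ, II A .K [t, s, (n : Ordinal.{0})] →
      II A .K [t, ρ' n, (n : Ordinal.{0})] := by
    intro n h
    simp only [ρ', if_pos h]
    exact csInf_mem (s := {b | II A .K [t, b, (n : Ordinal.{0})]}) ⟨s, h⟩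
  have hρle : ∀ (n : ℕ) (b : Ordinal.{0}), II A .K [t, s, (n : Ordinal.{0})] →
      II A .K [t, b, (n : Ordinal.{0})] → ρ' n ≤ b := by
    intro n b h hb
    have h1 : ρ' n = sInf {b | II A .K [t, b, (n : Ordinal.{0})]} := if_pos h
    rw [h1]
    exact csInf_le' hb
  have hρlt : ∀ n m : ℕ, ρ' n < ρ' m ↔ II A .K [t, s, (m : Ordinal.{0})] ∧ ∃ b < κ,
      ¬ II A .K [t, b, (m : Ordinal.{0})] ∧
        (¬ II A .K [t, s, (n : Ordinal.{0})] ∨ II A .K [t, b, (n : Ordinal.{0})]) := by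
    intro n m
    constructor
    · intro h
      have hm : II A .K [t, s, (m : Ordinal.{0})] := by
        by_contra hc
        simp only [ρ', if_neg hc] at h
        exact not_lt_zero h
      refine ⟨hm, ρ' n, hρκ n, fun h1 => absurd h (not_lt.2 (hρle m _ hm h1)), ?_⟩
      by_cases hn : II A .K [t, s, (n : Ordinal.{0})]
      · exact Or.inr (hρmem n hn)
      · exact Or.inl hn
    · rintro ⟨hm, b, hb, h1, h2⟩
      have h3 : b < ρ' m := by
        by_contra hc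
        push Not at hc
        exact h1 (K_mono hA hc (hρmem m hm))
      refine lt_of_le_of_lt ?_ h3
      by_cases hn : II A .K [t, s, (n : Ordinal.{0})]
      · rcases h2 with h2 | h2
        · exact absurd hn h2
        · exact hρle n b hn h2
      · simp only [ρ', if_neg hn]
        exact zero_le
  refine ⟨fun p σ => II A .K [t, s, (Encodable.encode (p, σ) : ℕ)],
    fun p σ => ρ' (Encodable.encode (p, σ)), fun p σ => hρκ _, ?_, ?_, ?_, ?_⟩
  · have h1 : {n : ℕ | II A .K [t, s, (n : Ordinal.{0})]} ∈ R0 A κ := by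
      have h2 : D0 A κ (fun v => II A .K [v 1, v 2, v 0]) := Df.rel .K [1, 2, 0]
      have h3 := R0_def hC h2 (fun k => if k = 1 then t else s)
        (fun k => by split_ifs; exacts [htκ, hs])
      exact h3
    exact AD.comp h𝓡 (AD_nat.2 h1) (f := fun x : α × List ℕ => Encodable.encode (x.1, x.2))
      (Primrec.encode.comp Primrec.id)
  · have h1 : {c : ℕ | ∃ n m : ℕ, c = Nat.pair n m ∧ ρ' n < ρ' m} ∈ R0 A κ := by
      have h2 : D0 A κ (fun v => ∃ n ∈ Set.Iio κ, ∃ m ∈ Set.Iio κ, II A (.ar 7) [n, m, v 0] ∧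
          (II A .K [v 1, v 2, m] ∧ ∃ b ∈ Set.Iio κ, ¬ II A .K [v 1, b, m] ∧
            (¬ II A .K [v 1, v 2, n] ∨ II A .K [v 1, b, n]))) := by
        refine Df.ex (Q := fun _ n v => ∃ m ∈ Set.Iio κ, II A (.ar 7) [n, m, v 0] ∧
          (II A .K [v 1, v 2, m] ∧ ∃ b ∈ Set.Iio κ, ¬ II A .K [v 1, b, m] ∧
            (¬ II A .K [v 1, v 2, n] ∨ II A .K [v 1, b, n]))) ?_
        refine Df.ex (Q := fun _ m v => II A (.ar 7) [v 0, m, v 1] ∧
          (II A .K [v 2, v 3, m] ∧ ∃ b ∈ Set.Iio κ, ¬ II A .K [v 2, b, m] ∧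
            (¬ II A .K [v 2, v 3, v 0] ∨ II A .K [v 2, b, v 0]))) ?_
        refine Df.and (Df.rel (.ar 7) [1, 0, 2]) (Df.and (Df.rel .K [3, 4, 0]) ?_)
        refine Df.ex (Q := fun _ b v => ¬ II A .K [v 3, b, v 0] ∧
            (¬ II A .K [v 3, v 4, v 1] ∨ II A .K [v 3, b, v 1])) ?_
        exact Df.and (Df.not (Df.rel .K [4, 0, 1])) (Df.or (Df.not (Df.rel .K [4, 5, 2]))
          (Df.rel .K [4, 0, 2]))
      have h3 := R0_def hC h2 (fun k => if k = 1 then t else s)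
        (fun k => by split_ifs; exacts [htκ, hs])
      convert h3 using 1
      ext c
      have hωκ : ω ≤ κ := hC.grd.om_le.trans hC.grd.mu_lt.le
      simp only [Set.mem_ofPred_eq, Function.update_self, Set.mem_Iio, ne_eq, one_ne_zero,
        not_false_eq_true, Function.update_of_ne, if_true, OfNat.ofNat_ne_zero,
        OfNat.ofNat_ne_one, if_false]
      constructor
      · rintro ⟨n, m, rfl, h⟩
        refine ⟨n, lt_of_lt_of_le (natCast_lt_omega0 n) hωκ, m,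
          lt_of_lt_of_le (natCast_lt_omega0 m) hωκ, ?_, (hρlt n m).1 h⟩
        rw [II_ar]
        exact ⟨[n, m, Nat.pair n m], rfl, (hA.a7 _).2 ⟨n, m, rfl⟩⟩
      · rintro ⟨n, -, m, -, h, h'⟩
        rw [II_ar] at h
        obtain ⟨l', hl, hl'⟩ := h
        rw [hA.a7] at hl'
        obtain ⟨a, b, rfl⟩ := hl'
        simp only [List.map_cons, List.map_nil, List.cons.injEq, Nat.cast_inj, and_true] at hl
        obtain ⟨rfl, rfl, rfl⟩ := hl
        exact ⟨a, b, rfl, (hρlt a b).2 h'⟩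
    have h4 : AD (R0 A κ) (fun x : ℕ × ℕ => ρ' x.1 < ρ' x.2) := by
      refine AD_nat.2 h1 |> fun h5 => ?_
      have h6 := AD.comp h𝓡 h5 (f := fun x : ℕ × ℕ => Nat.pair x.1 x.2)
        (Primrec₂.natPair.comp Primrec.fst Primrec.snd)
      convert h6 using 1
      ext x
      constructor
      · intro h
        exact ⟨_, _, rfl, h⟩
      · rintro ⟨n, m, h, h'⟩
        rw [Nat.pair_eq_pair] at h
        rw [h.1, h.2]
        exact h'
    exact AD.comp h𝓡 h4 (f := fun x : (α × List ℕ) × (α × List ℕ) =>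
      (Encodable.encode x.1, Encodable.encode x.2))
      (Primrec.pair (Primrec.encode.comp Primrec.fst) (Primrec.encode.comp Primrec.snd))
  · intro p σ hp i q hq hqp
    have h1 := hρmem _ hp
    rw [hK] at h1
    obtain ⟨r, hr, hrq, hd | ⟨b, hb, h2⟩⟩ := h1 i q hq hqp
    · exact ⟨r, hr, hrq, Or.inl hd⟩
    · have h3 := hst b (lt_trans hb (hρκ _)) _ h2
      exact ⟨r, hr, hrq, Or.inr ⟨h3, lt_of_le_of_lt (hρle _ b h3 h2) hb⟩⟩
  · intro p σ h
    refine hst (s + 1) (hC.grd.succ_lt s hs) _ ?_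
    rw [hK]
    intro i q hq hqp
    obtain ⟨r, hr, hrq, hd⟩ := h i q hq hqp
    exact ⟨r, hr, hrq, hd.imp id fun h1 => ⟨s, Order.lt_add_one_iff.2 le_rfl, h1⟩⟩

end

end Pool.Agent.CC
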