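import Mathlib
import Pool.Agent.Lib.MP_bf67b0_lc.Aca
import Pool.Agent.Lib.MP_bf67b0_lc.GroundReals
import Pool.Agent.Lib.MP_bf67b0_lc.Rank

/-!
Q8b: the abstract dichotomy between ranks and branches.
-/

set_option autoImplicit false

namespace Pool.Agent.CC

open Ordinal Set

section
variable {𝓕 : ℕ → Set ℕ} {A : ℕ → List ℕ → Prop} {κ μ : Ordinal.{0}} (hC : Ctx 𝓕 A κ μ)
include hC
variable {α : Type} [Primcodable α] {C : α → Prop} {le : α → α → Prop} {Dec : α → List ℕ → Prop}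

/-- Q8b: the abstract dichotomy -/
theorem exists_family (hCd : AD (R0 A κ) C) (hle : AD (R0 A κ) (fun x : α × α => le x.1 x.2))
    (hDec : AD (R0 A κ) (fun x : α × List ℕ => Dec x.1 x.2))
    (hrefl : ∀ p, C p → le p p) (htrans : ∀ p q r, le p q → le q r → le p r)
    (hmono : ∀ p q σ, le q p → Dec p σ → Dec q σ) :
    ∃ (Kin : α → List ℕ → Prop) (D : ℕ → α → Prop),
      AD (R0 A κ) (fun x : α × List ℕ => Kin x.1 x.2) ∧
      AD (R0 A κ) (fun x : ℕ × α => D x.1 x.2) ∧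
      (∀ p q σ, le q p → Kin p σ → Kin q σ) ∧
      (∀ n p, C p → ∃ q, C q ∧ le q p ∧ D n q) ∧
      ∀ Φ : α → Prop, (∀ p, Φ p → C p) → (∀ p q, Φ p → Φ q → ∃ r, Φ r ∧ le r p ∧ le r q) →
        (∀ n, ∃ p, Φ p ∧ D n p) →
        (∀ p, Φ p → Kin p [] → ∃ ρ : List ℕ → Ordinal.{0}, (∀ σ, ρ σ < κ) ∧
          ∀ σ i, (∀ τ, τ <+: σ ++ [i] → τ ≠ [] → ∀ r, Φ r → ¬ Dec r τ) →
            ρ (σ ++ [i]) < ρ σ) ∧
        ((∀ p, Φ p → ¬ Kin p []) → ∀ 𝓡, ACA 𝓡 → R0 A κ ⊆ 𝓡 → AD 𝓡 Φ →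
          ∃ f : ℕ → ℕ, gr f ∈ 𝓡 ∧ ∀ n ≥ 1, ∀ r, Φ r → ¬ Dec r (rs f n)) := by
  obtain ⟨Kin, ρ, hρκ, hKin, hρ, hK1, hK2⟩ := exists_rank hC hCd hle hDec
  have h𝓡 := R0_ACA hC
  -- the two kinds of dense sets
  set D1 : (α × List ℕ) × ℕ → α → Prop := fun x r =>
    Kin x.1.1 x.1.2 → (¬ ∃ s, C s ∧ le s x.1.1 ∧ le s r) ∨
      (Dec r (x.1.2 ++ [x.2]) ∨ (Kin r (x.1.2 ++ [x.2]) ∧ ρ r (x.1.2 ++ [x.2]) < ρ x.1.1 x.1.2))
    with hD1
  set D2 : List ℕ → α → Prop := fun σ p =>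
    Kin p σ ∨ ∃ i : ℕ, ∀ r, C r → le r p → ¬ (Dec r (σ ++ [i]) ∨ Kin r (σ ++ [i])) with hD2
  have aD1 : AD (R0 A κ) (fun x : ((α × List ℕ) × ℕ) × α => D1 x.1 x.2) := by
    have pσ : Primrec (fun x : ((α × List ℕ) × ℕ) × α => x.1.1) :=
      Primrec.fst.comp Primrec.fst
    have pi : Primrec (fun x : ((α × List ℕ) × ℕ) × α => x.1.2) :=
      Primrec.snd.comp Primrec.fst
    have pr' : Primrec (fun x : ((α × List ℕ) × ℕ) × α => x.2) := Primrec.snd
    have pσi : Primrec (fun x : ((α × List ℕ) × ℕ) × α => x.1.1.2 ++ [x.1.2]) :=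
      Primrec.list_append.comp (Primrec.snd.comp pσ)
        (Primrec.list_cons.comp pi (Primrec.const []))
    have prσi : Primrec (fun x : ((α × List ℕ) × ℕ) × α => (x.2, x.1.1.2 ++ [x.1.2])) :=
      pr'.pair pσi
    refine AD.imp h𝓡 (AD.comp h𝓡 hKin pσ) (AD.or h𝓡 (AD.not h𝓡 (AD.ex h𝓡 ?_))
      (AD.or h𝓡 (AD.comp h𝓡 hDec prσi) (AD.and h𝓡 (AD.comp h𝓡 hKin prσi)
        (AD.comp h𝓡 hρ (prσi.pair pσ)))))
    refine AD.and h𝓡 (AD.comp h𝓡 hCd Primrec.snd) (AD.and h𝓡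
      (AD.comp h𝓡 hle (f := fun y : (((α × List ℕ) × ℕ) × α) × α => (y.2, y.1.1.1.1)) ?_)
      (AD.comp h𝓡 hle (f := fun y : (((α × List ℕ) × ℕ) × α) × α => (y.2, y.1.2)) ?_))
    · exact Primrec.snd.pair (Primrec.fst.comp (pσ.comp Primrec.fst))
    · exact Primrec.snd.pair (pr'.comp Primrec.fst)
  have aD2 : AD (R0 A κ) (fun x : List ℕ × α => D2 x.1 x.2) := by
    refine AD.or h𝓡 (AD.comp h𝓡 hKin (f := fun x : List ℕ × α => (x.2, x.1)) ?_)
      (AD.ex h𝓡 (AD.all h𝓡 (AD.imp h𝓡 (AD.comp h𝓡 hCd Primrec.snd) (AD.imp h𝓡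
        (AD.comp h𝓡 hle (f := fun y : ((List ℕ × α) × ℕ) × α => (y.2, y.1.1.2)) ?_)
        (AD.not h𝓡 (AD.or h𝓡
          (AD.comp h𝓡 hDec (f := fun y : ((List ℕ × α) × ℕ) × α => (y.2, y.1.1.1 ++ [y.1.2])) ?_)
          (AD.comp h𝓡 hKin
            (f := fun y : ((List ℕ × α) × ℕ) × α => (y.2, y.1.1.1 ++ [y.1.2])) ?_)))))))
    · exact Primrec.snd.pair Primrec.fst
    · exact Primrec.snd.pair (Primrec.snd.comp (Primrec.fst.comp Primrec.fst))
    all_goals
      exact Primrec.snd.pair (Primrec.list_append.comp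
        (Primrec.fst.comp (Primrec.fst.comp Primrec.fst))
        (Primrec.list_cons.comp (Primrec.snd.comp Primrec.fst) (Primrec.const [])))
  set D : ℕ → α → Prop := fun n r =>
    (∀ x : (α × List ℕ) × ℕ, Encodable.decode (α := ((α × List ℕ) × ℕ) ⊕ List ℕ) n =
      some (Sum.inl x) → D1 x r) ∧
    (∀ σ : List ℕ, Encodable.decode (α := ((α × List ℕ) × ℕ) ⊕ List ℕ) n =
      some (Sum.inr σ) → D2 σ r) with hD
  have pdec : Primrec (fun n : ℕ =>
      (Encodable.decode n : Option (((α × List ℕ) × ℕ) ⊕ List ℕ))) := Primrec.decode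
  have aD : AD (R0 A κ) (fun x : ℕ × α => D x.1 x.2) := by
    classical
    refine AD.and h𝓡 (AD.all h𝓡 (AD.imp h𝓡 (AD.of_prim h𝓡 ?_)
      (AD.comp h𝓡 aD1 (f := fun y : (ℕ × α) × ((α × List ℕ) × ℕ) => (y.2, y.1.2)) ?_)))
      (AD.all h𝓡 (AD.imp h𝓡 (AD.of_prim h𝓡 ?_)
      (AD.comp h𝓡 aD2 (f := fun y : (ℕ × α) × List ℕ => (y.2, y.1.2)) ?_)))
    · exact Primrec.eq.comp (pdec.comp (Primrec.fst.comp Primrec.fst))
        (Primrec.option_some.comp (Primrec.sumInl.comp Primrec.snd))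
    · exact Primrec.snd.pair (Primrec.snd.comp Primrec.fst)
    · exact Primrec.eq.comp (pdec.comp (Primrec.fst.comp Primrec.fst))
        (Primrec.option_some.comp (Primrec.sumInr.comp Primrec.snd))
    · exact Primrec.snd.pair (Primrec.snd.comp Primrec.fst)
  have hKmono : ∀ p q σ, le q p → Kin p σ → Kin q σ := by
    intro p q σ hqp hp
    apply hK2
    intro i q' hq' hle'
    obtain ⟨r, hr, hrq, h⟩ := hK1 p σ hp i q' hq' (htrans _ _ _ hle' hqp)
    exact ⟨r, hr, hrq, h.imp id And.left⟩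
  refine ⟨Kin, D, hKin, aD, hKmono, ?_, ?_⟩
  · -- density
    intro n p hp
    rcases hdec : (Encodable.decode (α := ((α × List ℕ) × ℕ) ⊕ List ℕ) n) with _ | x
    · refine ⟨p, hp, hrefl p hp, ?_, ?_⟩
      · intro x hx; rw [hdec] at hx; exact absurd hx (by simp)
      · intro x hx; rw [hdec] at hx; exact absurd hx (by simp)
    rcases x with x | σ
    · -- first kind
      have key : ∃ q, C q ∧ le q p ∧ D1 x q := by
        by_cases hK : Kin x.1.1 x.1.2
        · by_cases hcomp : ∃ s, C s ∧ le s x.1.1 ∧ le s p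
          · obtain ⟨s, hs, hsx, hsp⟩ := hcomp
            obtain ⟨r, hr, hrs, h⟩ := hK1 _ _ hK x.2 s hs hsx
            exact ⟨r, hr, htrans _ _ _ hrs hsp, fun _ => Or.inr h⟩
          · exact ⟨p, hp, hrefl p hp, fun _ => Or.inl hcomp⟩
        · exact ⟨p, hp, hrefl p hp, fun h => absurd h hK⟩
      obtain ⟨q, hq, hqp, hqD⟩ := key
      refine ⟨q, hq, hqp, ?_, ?_⟩
      · intro y hy
        rw [hdec] at hy
        have : x = y := by simpa using hy
        rw [← this]; exact hqD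
      · intro σ hσ
        rw [hdec] at hσ
        exact absurd hσ (by simp)
    · -- second kind
      have key : ∃ q, C q ∧ le q p ∧ D2 σ q := by
        by_cases hK : Kin p σ
        · exact ⟨p, hp, hrefl p hp, Or.inl hK⟩
        · have h := mt (hK2 p σ) hK
          push Not at h
          obtain ⟨i, q, hq, hqp, h⟩ := h
          refine ⟨q, hq, hqp, Or.inr ⟨i, fun r hr hrq hor => ?_⟩⟩
          have h3 := h r hr hrq
          rcases hor with h4 | h4
          · exact h3.1 h4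
          · exact h3.2 h4
      obtain ⟨q, hq, hqp, hqD⟩ := key
      refine ⟨q, hq, hqp, ?_, ?_⟩
      · intro y hy
        rw [hdec] at hy
        exact absurd hy (by simp)
      · intro τ hτ
        rw [hdec] at hτ
        have : σ = τ := by simpa using hτ
        rw [← this]; exact hqD
  · intro Φ hΦC hdir hmeet
    have hmeet1 : ∀ x : (α × List ℕ) × ℕ, ∃ p, Φ p ∧ D1 x p := by
      intro x
      obtain ⟨p, hp, hpD⟩ := hmeet
        (Encodable.encode (Sum.inl x : ((α × List ℕ) × ℕ) ⊕ List ℕ))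
      exact ⟨p, hp, hpD.1 x (Encodable.encodek _)⟩
    have hmeet2 : ∀ σ : List ℕ, ∃ p, Φ p ∧ D2 σ p := by
      intro σ
      obtain ⟨p, hp, hpD⟩ := hmeet
        (Encodable.encode (Sum.inr σ : ((α × List ℕ) × ℕ) ⊕ List ℕ))
      exact ⟨p, hp, hpD.2 σ (Encodable.encodek _)⟩
    refine ⟨?_, ?_⟩
    · -- ranks
      intro p0 hp0 hKp0
      set R : List ℕ → Ordinal.{0} := fun σ => sInf {o | ∃ p, Φ p ∧ Kin p σ ∧ ρ p σ = o} with hR
      have hstep : ∀ σ i, (∃ p, Φ p ∧ Kin p σ) → (∀ r, Φ r → ¬ Dec r (σ ++ [i])) →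
          (∃ p, Φ p ∧ Kin p (σ ++ [i])) ∧ R (σ ++ [i]) < R σ := by
        intro σ i hne hnd
        have hne' : ({o | ∃ p, Φ p ∧ Kin p σ ∧ ρ p σ = o} : Set Ordinal.{0}).Nonempty := by
          obtain ⟨p, hp, hK⟩ := hne
          exact ⟨_, p, hp, hK, rfl⟩
        obtain ⟨p, hp, hK, hpR⟩ := csInf_mem hne'
        obtain ⟨r, hr, hrD⟩ := hmeet1 ((p, σ), i)
        rcases hrD hK with h | h | h
        · obtain ⟨s, hs, hsp, hsr⟩ := hdir p r hp hr
          exact absurd ⟨s, hΦC s hs, hsp, hsr⟩ h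
        · exact absurd h (hnd r hr)
        · refine ⟨⟨r, hr, h.1⟩, ?_⟩
          have h2 : R (σ ++ [i]) ≤ ρ r (σ ++ [i]) := csInf_le' ⟨r, hr, h.1, rfl⟩
          refine lt_of_le_of_lt h2 ?_
          have h3 : R σ = ρ p σ := hpR.symm
          rw [h3]
          exact h.2
      have hex : ∀ σ, (∀ τ, τ <+: σ → τ ≠ [] → ∀ r, Φ r → ¬ Dec r τ) → ∃ p, Φ p ∧ Kin p σ := by
        intro σ
        induction σ using List.reverseRecOn with
        | nil => intro _; exact ⟨p0, hp0, hKp0⟩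
        | append_singleton σ i ih =>
          intro h
          have h1 := ih (fun τ hτ => h τ (hτ.trans (List.prefix_append _ _)))
          exact (hstep σ i h1 (h _ (List.prefix_refl _) (by simp))).1
      refine ⟨R, ?_, ?_⟩
      · intro σ
        rcases Set.eq_empty_or_nonempty
          ({o | ∃ p, Φ p ∧ Kin p σ ∧ ρ p σ = o} : Set Ordinal.{0}) with he | hne
        · have : R σ = 0 := by
            simp only [hR, he]
            exact Ordinal.sInf_empty
          rw [this]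
          exact lt_of_le_of_lt zero_le (hρκ p0 [])
        · obtain ⟨p, _, _, hpR⟩ := csInf_mem hne
          have h3 : R σ = ρ p σ := hpR.symm
          rw [h3]
          exact hρκ p σ
      · intro σ i h
        exact (hstep σ i (hex σ (fun τ hτ => h τ (hτ.trans (List.prefix_append _ _))))
          (h _ (List.prefix_refl _) (by simp))).2
    · -- branches
      intro hnK 𝓡 hACA hsub hΦ
      have up : ∀ {β : Type} [Primcodable β] {P : β → Prop}, AD (R0 A κ) P → AD 𝓡 P :=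
        fun h => hsub h
      set P : List ℕ → Prop := fun σ =>
        (∀ p, Φ p → ¬ Kin p σ) ∧ (¬ σ = [] → ∀ r, Φ r → ¬ Dec r σ) with hP
      have aP : AD 𝓡 P := by
        refine AD.and hACA (AD.all hACA (AD.imp hACA (AD.comp hACA hΦ Primrec.snd)
          (AD.not hACA (AD.comp hACA (up hKin)
            (f := fun x : List ℕ × α => (x.2, x.1)) (Primrec.snd.pair Primrec.fst)))))
          (AD.imp hACA (AD.not hACA (AD.of_prim hACA ?_)) (AD.all hACA (AD.imp hACA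
            (AD.comp hACA hΦ Primrec.snd) (AD.not hACA (AD.comp hACA (up hDec)
            (f := fun x : List ℕ × α => (x.2, x.1)) (Primrec.snd.pair Primrec.fst))))))
        exact Primrec.eq.comp Primrec.id (Primrec.const [])
      have hP0 : P [] := ⟨hnK, fun h => absurd rfl h⟩
      have hPs : ∀ σ, P σ → ∃ i, P (σ ++ [i]) := by
        intro σ hσ
        obtain ⟨p, hp, hpD⟩ := hmeet2 σ
        rcases hpD with h | ⟨i, h⟩
        · exact absurd h (hσ.1 p hp)
        refine ⟨i, fun q hq hK => ?_, fun _ q hq hD' => ?_⟩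
        · obtain ⟨r, hr, hrp, hrq⟩ := hdir p q hp hq
          exact h r (hΦC r hr) hrp (Or.inr (hKmono _ _ _ hrq hK))
        · obtain ⟨r, hr, hrp, hrq⟩ := hdir p q hp hq
          exact h r (hΦC r hr) hrp (Or.inl (hmono _ _ _ hrq hD'))
      obtain ⟨f, hf, hfP⟩ := AD.path hACA aP hP0 hPs
      refine ⟨f, hf, fun n hn r hr => ?_⟩
      refine (hfP n).2 ?_ r hr
      intro h
      have : (rs f n).length = 0 := by rw [h]; rfl
      unfold rs at this
      simp at this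
      omega
end

end Pool.Agent.CC
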