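import Mathlib
import Pool.Agent.Lib.MP_bf67b0_lc.Defs2
import Pool.Agent.Lib.MP_bf67b0_lc.Aca
import Pool.Agent.Lib.MP_bf67b0_lc.GroundReals

/-!
# Pairs of conditions, and sufficiently generic pairs of reals
-/

set_option autoImplicit false

namespace Pool.Agent.CC

open Ordinal Set

/-! ### strings -/

namespace Prs

theorem prefix_iff_getElem? {α : Type*} {s t : List α} :
    s <+: t ↔ ∀ (i : ℕ) (b : α), s[i]? = some b → t[i]? = some b := by
  constructor
  · rintro ⟨r, rfl⟩ i b h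
    have hi : i < s.length := (List.getElem?_eq_some_iff.1 h).1
    rw [List.getElem?_append_left hi]; exact h
  · intro h
    rw [List.prefix_iff_eq_take]
    refine List.ext_getElem? fun i => ?_
    by_cases hi : i < s.length
    · have h1 := h i s[i] (List.getElem?_eq_getElem hi)
      rw [List.getElem?_take_of_lt hi, h1, List.getElem?_eq_getElem hi]
    · rw [List.getElem?_eq_none (not_lt.1 hi), List.getElem?_eq_none]
      simp only [List.length_take]
      exact le_trans (min_le_left _ _) (not_lt.1 hi)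

theorem Pre_iff_lt {s : List Bool} {g : Set ℕ} :
    Pre s g ↔ ∀ i < s.length, (s.getD i false = true ↔ i ∈ g) := by
  constructor
  · intro h i hi
    have := h i s[i] (List.getElem?_eq_getElem hi)
    rwa [List.getD_eq_getElem _ _ hi]
  · intro h i b hb
    obtain ⟨hi, h1⟩ := List.getElem?_eq_some_iff.1 hb
    have := h i hi
    rwa [List.getD_eq_getElem _ _ hi, h1] at this

theorem cond_encode (s : List Bool) : cond (Encodable.encode s) = s := by
  simp [cond, Encodable.encodek]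

end Prs

open Prs

theorem Pre_code (s : List Bool) (g : Set ℕ) : Pre s g ↔ inC (Encodable.encode s) g := by
  simp only [Pre, inC, bit, cond_encode]
  constructor
  · intro h i
    refine ⟨fun h1 => (h i true h1).1 rfl, fun h1 h2 => ?_⟩
    have := (h i false h1).2 h2
    cases this
  · intro h i b hb
    cases b
    · exact ⟨fun h' => (by cases h'), fun h' => absurd h' ((h i).2 hb)⟩
    · exact ⟨fun _ => (h i).1 hb, fun _ => rfl⟩

/-- two initial segments of the same real -/
theorem Prs.Pre_le {s t : List Bool} {g : Set ℕ} (hs : Pre s g) (ht : Pre t g)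
    (h : s.length ≤ t.length) : s <+: t := by
  rw [prefix_iff_getElem?]
  intro i b hb
  obtain ⟨hi, h1⟩ := List.getElem?_eq_some_iff.1 hb
  have hi' := lt_of_lt_of_le hi h
  rw [List.getElem?_eq_getElem hi']
  have h2 := hs i b hb
  have h3 := ht i t[i] (List.getElem?_eq_getElem hi')
  congr 1
  rw [Bool.eq_iff_iff, h3, h2]

theorem Fil.directed {m m' : ℕ} {g g' : Set ℕ} {p q : List Bool × List Bool}
    (hp : Fil m m' g g' p) (hq : Fil m m' g g' q) :
    ∃ r, Fil m m' g g' r ∧ le2 r p ∧ le2 r q := by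
  obtain ⟨⟨hp0, hp1⟩, hp2, hp3⟩ := hp
  obtain ⟨⟨hq0, hq1⟩, hq2, hq3⟩ := hq
  rcases le_total p.1.length q.1.length with h | h
  · exact ⟨q, ⟨⟨hq0, hq1⟩, hq2, hq3⟩, ⟨Pre_le hp2 hq2 h,
      Pre_le hp3 hq3 (by omega)⟩, List.prefix_refl _, List.prefix_refl _⟩
  · exact ⟨p, ⟨⟨hp0, hp1⟩, hp2, hp3⟩, ⟨List.prefix_refl _, List.prefix_refl _⟩,
      Pre_le hq2 hp2 h, Pre_le hq3 hp3 (by omega)⟩

section AD
variable {𝓡 : Set (Set ℕ)} (h𝓡 : ACA 𝓡)
include h𝓡

theorem Prs.AD_prefix {α β : Type} [Primcodable α] [Primcodable β] [DecidableEq β]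
    {f g : α → List β} (hf : Primrec f) (hg : Primrec g) :
    AD 𝓡 (fun a => f a <+: g a) := by
  have h1 : AD 𝓡 (fun x : α × List β => f x.1 ++ x.2 = g x.1) :=
    AD.of_prim h𝓡 (Primrec.eq.comp (Primrec.list_append.comp (hf.comp Primrec.fst) Primrec.snd)
      (hg.comp Primrec.fst))
  exact AD.ex h𝓡 (P := fun a t => f a ++ t = g a) h1

theorem C2_AD (m m' : ℕ) : AD 𝓡 (C2 m m') ∧
    AD 𝓡 (fun x : (List Bool × List Bool) × (List Bool × List Bool) => le2 x.1 x.2) := by
  constructor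
  · have hL : Primrec (fun p : List Bool × List Bool => p.1.length) :=
      Primrec.list_length.comp Primrec.fst
    have h1 : AD 𝓡 (fun p : List Bool × List Bool => p.1.length = p.2.length) :=
      AD.of_prim h𝓡 (Primrec.eq.comp hL (Primrec.list_length.comp Primrec.snd))
    have hi : Primrec (fun x : (List Bool × List Bool) × ℕ => x.2.unpair.1) :=
      Primrec.fst.comp (Primrec.unpair.comp Primrec.snd)
    have g1 : Primrec (fun x : (List Bool × List Bool) × ℕ => x.1.1[x.2]?) :=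
      Primrec.list_getElem?.comp (Primrec.fst.comp Primrec.fst) Primrec.snd
    have g2 : Primrec (fun x : (List Bool × List Bool) × ℕ => x.1.2[x.2]?) :=
      Primrec.list_getElem?.comp (Primrec.snd.comp Primrec.fst) Primrec.snd
    have h2 : AD 𝓡 (fun x : (List Bool × List Bool) × ℕ => x.2 < x.1.1.length →
        ((x.2.unpair.1 < m → x.1.1[x.2]? = x.1.2[x.2]?) ∧
        (m' ≤ x.2.unpair.1 → x.1.1[x.2]? = some false ∧ x.1.2[x.2]? = some false))) := by
      refine AD.imp h𝓡 (AD.of_prim h𝓡 (Primrec.nat_lt.comp Primrec.snd (hL.comp Primrec.fst)))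
        (AD.and h𝓡 (AD.imp h𝓡 (AD.of_prim h𝓡 (Primrec.nat_lt.comp hi (Primrec.const m)))
          (AD.of_prim h𝓡 (Primrec.eq.comp g1 g2)))
        (AD.imp h𝓡 (AD.of_prim h𝓡 (Primrec.nat_le.comp (Primrec.const m') hi))
          (AD.and h𝓡 (AD.of_prim h𝓡 (Primrec.eq.comp g1 (Primrec.const _)))
            (AD.of_prim h𝓡 (Primrec.eq.comp g2 (Primrec.const _))))))
    exact AD.and h𝓡 h1 (AD.all h𝓡 (P := fun (p : List Bool × List Bool) i => i < p.1.length →
        ((i.unpair.1 < m → p.1[i]? = p.2[i]?) ∧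
        (m' ≤ i.unpair.1 → p.1[i]? = some false ∧ p.2[i]? = some false))) h2)
  · exact AD.and h𝓡 (AD_prefix h𝓡 (Primrec.fst.comp Primrec.snd) (Primrec.fst.comp Primrec.fst))
      (AD_prefix h𝓡 (Primrec.snd.comp Primrec.snd) (Primrec.snd.comp Primrec.fst))

theorem Prs.Pre_AD {g : Set ℕ} (hg : g ∈ 𝓡) {α : Type} [Primcodable α] {f : α → List Bool}
    (hf : Primrec f) : AD 𝓡 (fun a => Pre (f a) g) := by
  have h1 : AD 𝓡 (fun x : (α × ℕ) × Bool => (f x.1.1)[x.1.2]? = some x.2) :=
    AD.of_prim h𝓡 (Primrec.eq.comp (Primrec.list_getElem?.comp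
      (hf.comp (Primrec.fst.comp Primrec.fst)) (Primrec.snd.comp Primrec.fst))
      (Primrec.option_some.comp Primrec.snd))
  have h2 : AD 𝓡 (fun x : (α × ℕ) × Bool => x.1.2 ∈ g) :=
    AD.comp h𝓡 (P := fun n : ℕ => n ∈ g) (AD_nat.2 hg) (Primrec.snd.comp Primrec.fst)
  have h3 : AD 𝓡 (fun x : (α × ℕ) × Bool => x.2 = true) :=
    AD.of_prim h𝓡 (Primrec.eq.comp Primrec.snd (Primrec.const true))
  exact AD.all h𝓡 (P := fun a i => ∀ b, (f a)[i]? = some b → (b = true ↔ i ∈ g))
    (AD.all h𝓡 (P := fun (x : α × ℕ) b => (f x.1)[x.2]? = some b → (b = true ↔ x.2 ∈ g))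
      (AD.imp h𝓡 h1 (AD.iff h𝓡 h3 h2)))

theorem Fil_AD (m m' : ℕ) {g g' : Set ℕ} (hg : g ∈ 𝓡)
    (hg' : g' ∈ 𝓡) : AD 𝓡 (Fil m m' g g') :=
  AD.and h𝓡 (C2_AD h𝓡 m m').1 (AD.and h𝓡 (Pre_AD h𝓡 hg Primrec.fst) (Pre_AD h𝓡 hg' Primrec.snd))

end AD

/-! ### strings given by their bits -/

namespace Prs

/-- the string of length `L` with bits `f` -/
def mkS (L : ℕ) (f : ℕ → Bool) : List Bool := (List.range L).map f

/-- the `i`-th bit, `false` if there is none -/
def gb (s : List Bool) (i : ℕ) : Bool := s.getD i false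

theorem mkS_length (L : ℕ) (f : ℕ → Bool) : (mkS L f).length = L := by simp [mkS]

theorem gb_mkS {L : ℕ} (f : ℕ → Bool) {i : ℕ} (h : i < L) : gb (mkS L f) i = f i := by
  simp [gb, mkS, List.getD_eq_getElem?_getD, h]

theorem gb_of_le {s : List Bool} {i : ℕ} (h : s.length ≤ i) : gb s i = false := by
  simp [gb, List.getD_eq_getElem?_getD, List.getElem?_eq_none h]

theorem lt_of_gb {s : List Bool} {i : ℕ} (h : gb s i = true) : i < s.length := by
  by_contra h'
  rw [gb_of_le (not_lt.1 h')] at h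
  cases h

theorem getElem?_eq_gb {s : List Bool} {i : ℕ} (h : i < s.length) : s[i]? = some (gb s i) := by
  rw [gb, List.getD_eq_getElem _ _ h, List.getElem?_eq_getElem h]

theorem prefix_iff_gb {s t : List Bool} :
    s <+: t ↔ s.length ≤ t.length ∧ ∀ i < s.length, gb s i = gb t i := by
  constructor
  · intro h
    refine ⟨h.length_le, fun i hi => ?_⟩
    have h1 := prefix_iff_getElem?.1 h i _ (getElem?_eq_gb hi)
    rw [getElem?_eq_gb (lt_of_lt_of_le hi h.length_le)] at h1
    exact (Option.some.inj h1).symm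
  · rintro ⟨h1, h2⟩
    rw [prefix_iff_getElem?]
    intro i b hb
    obtain ⟨hi, -⟩ := List.getElem?_eq_some_iff.1 hb
    rw [getElem?_eq_gb hi] at hb
    rw [getElem?_eq_gb (lt_of_lt_of_le hi h1), ← h2 i hi, hb]

theorem eq_iff_gb {s t : List Bool} :
    s = t ↔ s.length = t.length ∧ ∀ i < s.length, gb s i = gb t i := by
  constructor
  · rintro rfl; exact ⟨rfl, fun _ _ => rfl⟩
  · rintro ⟨h1, h2⟩
    exact (prefix_iff_gb.2 ⟨h1.le, h2⟩).eq_of_length h1

theorem Pre_iff_gb {s : List Bool} {g : Set ℕ} :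
    Pre s g ↔ ∀ i < s.length, (gb s i = true ↔ i ∈ g) := Pre_iff_lt

theorem C2_iff_gb {m m' : ℕ} {p : List Bool × List Bool} : C2 m m' p ↔
    p.1.length = p.2.length ∧ ∀ i < p.1.length, (i.unpair.1 < m → gb p.1 i = gb p.2 i) ∧
      (m' ≤ i.unpair.1 → gb p.1 i = false ∧ gb p.2 i = false) := by
  refine and_congr_right fun h => forall₂_congr fun i hi => ?_
  rw [getElem?_eq_gb hi, getElem?_eq_gb (h ▸ hi)]
  simp only [Option.some.injEq]

/-- the string cut to the first `m'` columns -/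
def cutS (m' : ℕ) (s : List Bool) : List Bool :=
  mkS s.length (fun i => if i.unpair.1 < m' then gb s i else false)

/-- the operation `op` on strings -/
def opS (m m' : ℕ) (c : Bool) (t z : List Bool) : List Bool :=
  mkS t.length (fun i => if i.unpair.1 < m then gb t i else
    if i.unpair.1 < m' then Bool.xor (c && gb t i) (gb z i) else false)

/-- the solution `z` of `op t z = t'` -/
def solS (m m' : ℕ) (c : Bool) (t t' : List Bool) : List Bool :=
  mkS t.length (fun i => if i.unpair.1 < m then false else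
    if i.unpair.1 < m' then Bool.xor (gb t' i) (c && gb t i) else false)

/-- strings living on the columns between `m` and `m'` -/
def Leg (m m' : ℕ) (z : List Bool) : Prop :=
  ∀ i, gb z i = true → m ≤ i.unpair.1 ∧ i.unpair.1 < m'

theorem Leg_solS (m m' : ℕ) (c : Bool) (t t' : List Bool) : Leg m m' (solS m m' c t t') := by
  intro i hi
  have hl := lt_of_gb hi
  rw [solS, mkS_length] at hl
  rw [solS, gb_mkS _ hl] at hi
  split_ifs at hi with h1 h2
  exact ⟨not_lt.1 h1, h2⟩

theorem opS_solS {m m' : ℕ} (c : Bool) {t t' : List Bool} (h : C2 m m' (t, t')) :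
    opS m m' c t (solS m m' c t t') = t' := by
  obtain ⟨h0, h1⟩ := C2_iff_gb.1 h
  refine eq_iff_gb.2 ⟨by rw [opS, mkS_length]; exact h0, fun i hi => ?_⟩
  rw [opS, mkS_length] at hi
  rw [opS, gb_mkS _ hi, solS, gb_mkS _ hi]
  have h2 := h1 i hi
  dsimp only at h2
  split_ifs with h3 h4
  · exact h2.1 h3
  · cases c <;> cases gb t i <;> cases gb t' i <;> rfl
  · exact (h2.2 (not_lt.1 h4)).2.symm

theorem C2_opS {m m' : ℕ} (hmm : m ≤ m') (c : Bool) {t : List Bool} (ht : cutS m' t = t)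
    (z : List Bool) : C2 m m' (t, opS m m' c t z) := by
  refine C2_iff_gb.2 ⟨by rw [opS, mkS_length], fun i hi => ?_⟩
  dsimp only at hi ⊢
  rw [opS, gb_mkS _ hi]
  refine ⟨fun h => by rw [if_pos h], fun h => ?_⟩
  rw [if_neg (by omega), if_neg (by omega)]
  refine ⟨?_, rfl⟩
  rw [← ht, cutS, gb_mkS _ hi, if_neg (by omega)]

theorem cutS_cutS (m' : ℕ) (s : List Bool) : cutS m' (cutS m' s) = cutS m' s := by
  refine eq_iff_gb.2 ⟨by simp only [cutS, mkS_length], fun i hi => ?_⟩
  simp only [cutS, mkS_length] at hi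
  rw [cutS, gb_mkS _ (by rwa [cutS, mkS_length]), cutS, gb_mkS _ hi]
  split_ifs <;> rfl

theorem cutS_eq_of {m' : ℕ} {s : List Bool}
    (h : ∀ i < s.length, m' ≤ i.unpair.1 → gb s i = false) : cutS m' s = s := by
  refine eq_iff_gb.2 ⟨by rw [cutS, mkS_length], fun i hi => ?_⟩
  rw [cutS, mkS_length] at hi
  rw [cutS, gb_mkS _ hi]
  split_ifs with h1
  · rfl
  · exact (h i hi (not_lt.1 h1)).symm

/-! ### primitive recursiveness -/

theorem mkS_prim {α : Type} [Primcodable α] {L : α → ℕ} {f : α → ℕ → Bool} (hL : Primrec L)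
    (hf : Primrec₂ f) : Primrec (fun a => mkS (L a) (f a)) :=
  Primrec.list_map (Primrec.list_range.comp hL) hf

theorem gb_prim : Primrec₂ gb := Primrec.list_getD false

theorem cutS_prim (m' : ℕ) : Primrec (cutS m') := by
  refine mkS_prim Primrec.list_length ?_
  have hc : Primrec (fun x : List Bool × ℕ => x.2.unpair.1) :=
    Primrec.fst.comp (Primrec.unpair.comp Primrec.snd)
  exact Primrec.ite (Primrec.nat_lt.comp hc (Primrec.const m')) (gb_prim.comp Primrec.fst Primrec.snd)
    (Primrec.const false)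

theorem opS_prim (m m' : ℕ) (c : Bool) : Primrec₂ (opS m m' c) := by
  refine mkS_prim (Primrec.list_length.comp Primrec.fst) ?_
  have hc : Primrec (fun x : (List Bool × List Bool) × ℕ => x.2.unpair.1) :=
    Primrec.fst.comp (Primrec.unpair.comp Primrec.snd)
  have h1 : Primrec (fun x : (List Bool × List Bool) × ℕ => gb x.1.1 x.2) :=
    gb_prim.comp (Primrec.fst.comp Primrec.fst) Primrec.snd
  have h2 : Primrec (fun x : (List Bool × List Bool) × ℕ => gb x.1.2 x.2) :=
    gb_prim.comp (Primrec.snd.comp Primrec.fst) Primrec.snd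
  exact Primrec.ite (Primrec.nat_lt.comp hc (Primrec.const m)) h1
    (Primrec.ite (Primrec.nat_lt.comp hc (Primrec.const m'))
      ((Primrec.dom_bool₂ (fun a b => Bool.xor (c && a) b)).comp h1 h2) (Primrec.const false))

theorem AD_Leg {𝓡 : Set (Set ℕ)} (h𝓡 : ACA 𝓡) (m m' : ℕ) {α : Type} [Primcodable α]
    {f : α → List Bool} (hf : Primrec f) : AD 𝓡 (fun a => Leg m m' (f a)) := by
  have hc : Primrec (fun x : α × ℕ => x.2.unpair.1) :=
    Primrec.fst.comp (Primrec.unpair.comp Primrec.snd)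
  refine AD.all h𝓡 (P := fun a i => gb (f a) i = true → m ≤ i.unpair.1 ∧ i.unpair.1 < m')
    (AD.imp h𝓡 (AD.of_prim h𝓡 (Primrec.eq.comp (gb_prim.comp (hf.comp Primrec.fst) Primrec.snd)
      (Primrec.const true))) (AD.and h𝓡 (AD.of_prim h𝓡 (Primrec.nat_le.comp (Primrec.const m) hc))
        (AD.of_prim h𝓡 (Primrec.nat_lt.comp hc (Primrec.const m')))))

/-- decoding of requirements -/
def rq (k : ℕ) : ℕ × List Bool := (Encodable.decode k : Option (ℕ × List Bool)).getD (0, [])

theorem rq_prim : Primrec rq :=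
  Primrec.option_getD.comp Primrec.decode (Primrec.const _)

/-! ### the construction -/

/-- one step of the construction -/
def Stp (m m' : ℕ) (c : Bool) (D : ℕ → List Bool × List Bool → Prop) (x : ℕ × List Bool)
    (z' : List Bool) : Prop :=
  Leg m m' x.2 → Leg m m' z' ∧ x.2 <+: z' ∧ ∃ t : List Bool, t.length = z'.length ∧
    cutS m' (rq x.1).2 <+: t ∧ cutS m' t = t ∧ D (rq x.1).1 (t, opS m m' c t z')

theorem exists_Stp {m m' : ℕ} (hmm : m ≤ m') (c : Bool) {D : ℕ → List Bool × List Bool → Prop}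
    (hd : ∀ n p, C2 m m' p → ∃ q, C2 m m' q ∧ le2 q p ∧ D n q) (x : ℕ × List Bool) :
    ∃ z', Stp m m' c D x z' := by
  by_cases hx : Leg m m' x.2
  swap
  · exact ⟨[], fun h => absurd h hx⟩
  set s := (rq x.1).2 with hs
  set L := max s.length x.2.length with hL
  set s1 := mkS L (gb (cutS m' s)) with hs1
  set z1 := mkS L (gb x.2) with hz1
  have hs1c : cutS m' s1 = s1 := by
    refine cutS_eq_of fun i hi h => ?_
    rw [hs1, mkS_length] at hi
    rw [hs1, gb_mkS _ hi]
    by_cases hi' : i < (cutS m' s).length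
    · rw [cutS, gb_mkS _ (by rwa [cutS, mkS_length] at hi'), if_neg (by omega)]
    · exact gb_of_le (not_lt.1 hi')
  obtain ⟨⟨t, t'⟩, hq1, hq2, hq3⟩ := hd (rq x.1).1 _ (C2_opS hmm c hs1c z1)
  obtain ⟨hl, hq1'⟩ := C2_iff_gb.1 hq1
  have e1 := prefix_iff_gb.1 hq2.1
  have e2 := prefix_iff_gb.1 hq2.2
  dsimp only at hl hq1' e1 e2
  rw [hs1, mkS_length] at e1
  rw [opS, mkS_length, hs1, mkS_length] at e2
  refine ⟨solS m m' c t t', fun _ => ⟨Leg_solS _ _ _ _ _, ?_, t, ?_, ?_, ?_, ?_⟩⟩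
  · refine prefix_iff_gb.2 ⟨?_, fun i hi => ?_⟩
    · rw [solS, mkS_length]
      exact le_trans (le_max_right _ _) e1.1
    · have hiL : i < L := lt_of_lt_of_le hi (le_max_right _ _)
      have hit : i < t.length := lt_of_lt_of_le hiL e1.1
      rw [solS, gb_mkS _ hit]
      have f1 : gb t i = gb (cutS m' s) i := by rw [← e1.2 i hiL, gb_mkS _ hiL]
      have f2 : gb t' i = if i.unpair.1 < m then gb (cutS m' s) i else
          if i.unpair.1 < m' then Bool.xor (c && gb (cutS m' s) i) (gb x.2 i) else false := by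
        rw [← e2.2 i hiL, gb_mkS _ hiL, gb_mkS _ hiL, hz1, gb_mkS _ hiL]
      rw [f1, f2]
      split_ifs with h3 h4
      · by_contra h
        have := (hx i (by simpa using h)).1
        omega
      · cases c <;> cases gb (cutS m' s) i <;> cases gb x.2 i <;> rfl
      · by_contra h
        have := (hx i (by simpa using h)).2
        omega
  · rw [solS, mkS_length]
  · refine prefix_iff_gb.2 ⟨?_, fun i hi => ?_⟩
    · rw [cutS, mkS_length]
      exact le_trans (le_max_left _ _) e1.1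
    · have hiL : i < L := lt_of_lt_of_le (by rwa [cutS, mkS_length] at hi) (le_max_left _ _)
      rw [← e1.2 i hiL, gb_mkS _ hiL]
  · exact cutS_eq_of fun i hi h => ((hq1' i hi).2 h).1
  · rw [opS_solS c hq1]
    exact hq3

theorem Stp_AD {m m' : ℕ} (c : Bool) {𝓡 : Set (Set ℕ)} (h𝓡 : ACA 𝓡)
    {D : ℕ → List Bool × List Bool → Prop}
    (hD : AD 𝓡 (fun x : ℕ × (List Bool × List Bool) => D x.1 x.2)) :
    AD 𝓡 (fun x : (ℕ × List Bool) × List Bool => Stp m m' c D x.1 x.2) := by
  have h1 : AD 𝓡 (fun x : (ℕ × List Bool) × List Bool => Leg m m' x.1.2) :=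
    AD_Leg h𝓡 m m' (Primrec.snd.comp Primrec.fst)
  have h2 : AD 𝓡 (fun x : (ℕ × List Bool) × List Bool => Leg m m' x.2) :=
    AD_Leg h𝓡 m m' Primrec.snd
  have h3 : AD 𝓡 (fun x : (ℕ × List Bool) × List Bool => x.1.2 <+: x.2) :=
    AD_prefix (α := (ℕ × List Bool) × List Bool) (β := Bool) h𝓡 (Primrec.snd.comp Primrec.fst)
      Primrec.snd
  have r : Primrec (fun x : ((ℕ × List Bool) × List Bool) × List Bool => rq x.1.1.1) :=
    rq_prim.comp (Primrec.fst.comp (Primrec.fst.comp Primrec.fst))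
  have ht : Primrec (fun x : ((ℕ × List Bool) × List Bool) × List Bool => x.2) := Primrec.snd
  have hz : Primrec (fun x : ((ℕ × List Bool) × List Bool) × List Bool => x.1.2) :=
    Primrec.snd.comp Primrec.fst
  have h4 : AD 𝓡 (fun x : ((ℕ × List Bool) × List Bool) × List Bool =>
      x.2.length = x.1.2.length ∧ cutS m' (rq x.1.1.1).2 <+: x.2 ∧ cutS m' x.2 = x.2 ∧
        D (rq x.1.1.1).1 (x.2, opS m m' c x.2 x.1.2)) := by
    refine AD.and h𝓡 (AD.of_prim h𝓡 (Primrec.eq.comp (Primrec.list_length.comp ht)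
      (Primrec.list_length.comp hz))) (AD.and h𝓡 ?_ (AD.and h𝓡 ?_ ?_))
    · exact AD_prefix (α := ((ℕ × List Bool) × List Bool) × List Bool) (β := Bool) h𝓡
        ((cutS_prim m').comp (Primrec.snd.comp r)) ht
    · exact AD.of_prim h𝓡 (Primrec.eq.comp ((cutS_prim m').comp ht) ht)
    · exact AD.comp h𝓡 (P := fun x : ℕ × (List Bool × List Bool) => D x.1 x.2) hD
        (Primrec.pair (Primrec.fst.comp r) (Primrec.pair ht ((opS_prim m m' c).comp ht hz)))
  exact AD.imp h𝓡 h1 (AD.and h𝓡 h2 (AD.and h𝓡 h3 (AD.ex h𝓡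
    (P := fun (x : (ℕ × List Bool) × List Bool) t => t.length = x.2.length ∧
      cutS m' (rq x.1.1).2 <+: t ∧ cutS m' t = t ∧ D (rq x.1.1).1 (t, opS m m' c t x.2)) h4)))

end Prs

section
variable {𝓕 : ℕ → Set ℕ} {A : ℕ → List ℕ → Prop} {κ μ : Ordinal.{0}} (hC : Ctx 𝓕 A κ μ)
include hC

theorem exists_pair {m m' : ℕ} (hmm : m ≤ m') (c : Bool) {D : ℕ → List Bool × List Bool → Prop}
    (hD : AD (R0 A κ) (fun x : ℕ × (List Bool × List Bool) => D x.1 x.2))
    (hd : ∀ n p, C2 m m' p → ∃ q, C2 m m' q ∧ le2 q p ∧ D n q)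
    (p : List Bool × List Bool) (hp : C2 m m' p) :
    ∃ z ∈ R0 A κ, (∀ i ∈ z, m ≤ i.unpair.1 ∧ i.unpair.1 < m') ∧
      (∀ g, Pre p.1 (cut m' g) → Pre p.2 (op m m' c (cut m' g) z)) ∧
      ∀ g, Gen A κ g → ∀ n, ∃ q, Fil m m' (cut m' g) (op m m' c (cut m' g) z) q ∧ D n q := by
  have hR := R0_ACA hC
  obtain ⟨f, hf, hfA⟩ := AD.choose' hR (Stp_AD (m := m) (m' := m') c hR hD) (exists_Stp hmm c hd)
  have hG : AD (R0 A κ) (fun x : (ℕ × List Bool) × List Bool =>
      (fun (k : ℕ) (z : List Bool) => f (k, z)) x.1.1 x.1.2 = x.2) := hfA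
  have hZA := AD.natRec (G := fun (k : ℕ) (z : List Bool) => f (k, z)) hR hG
    (solS m m' c p.1 p.2)
  set Z : ℕ → List Bool := fun k =>
    Nat.rec (solS m m' c p.1 p.2) (fun n y => f (n, y)) k with hZ
  have hZ0 : Z 0 = solS m m' c p.1 p.2 := rfl
  have hZs : ∀ k, Z (k + 1) = f (k, Z k) := fun k => rfl
  have hLeg : ∀ k, Leg m m' (Z k) := by
    intro k
    induction k with
    | zero => exact Leg_solS _ _ _ _ _
    | succ k ih => exact (hf (k, Z k) ih).1
  have hstep : ∀ k, Z k <+: Z (k + 1) := fun k => (hf (k, Z k) (hLeg k)).2.1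
  have hmono : ∀ j k, j ≤ k → Z j <+: Z k := by
    intro j k hjk
    induction k, hjk using Nat.le_induction with
    | base => exact List.prefix_refl _
    | succ k _ ih => exact ih.trans (hstep k)
  set z : Set ℕ := {i | ∃ k, gb (Z k) i = true} with hz
  have hzmem : ∀ k i, i < (Z k).length → (i ∈ z ↔ gb (Z k) i = true) := by
    intro k i hi
    refine ⟨?_, fun h => ⟨k, h⟩⟩
    rintro ⟨j, hj⟩
    rcases le_total j k with h | h
    · rwa [← (prefix_iff_gb.1 (hmono j k h)).2 i (lt_of_gb hj)]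
    · rwa [(prefix_iff_gb.1 (hmono k j h)).2 i hi]
  have hzR : z ∈ R0 A κ := by
    rw [← AD_nat (P := fun i => ∃ k, gb (Z k) i = true)]
    refine AD.ex hR (P := fun i k => gb (Z k) i = true) ?_
    have h1 : AD (R0 A κ) (fun x : ((ℕ × ℕ) × List Bool) => Z x.1.2 = x.2) :=
      AD.comp hR (P := fun x : ℕ × List Bool => Z x.1 = x.2) hZA
        (Primrec.pair (Primrec.snd.comp Primrec.fst) Primrec.snd)
    have h2 : AD (R0 A κ) (fun x : ((ℕ × ℕ) × List Bool) => gb x.2 x.1.1 = true) :=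
      AD.of_prim hR (Primrec.eq.comp (gb_prim.comp Primrec.snd (Primrec.fst.comp Primrec.fst))
        (Primrec.const true))
    exact AD.compfn hR (P := fun (x : ℕ × ℕ) y => gb y x.1 = true)
      (f := fun x : ℕ × ℕ => Z x.2) h2 h1
  have hzL : ∀ i ∈ z, m ≤ i.unpair.1 ∧ i.unpair.1 < m' := fun i ⟨k, hk⟩ => hLeg k i hk
  -- comparison of `opS` and `op`
  have hop : ∀ k (t : List Bool) (g' : Set ℕ), t.length ≤ (Z k).length → Pre t g' →
      Pre (opS m m' c t (Z k)) (op m m' c g' z) := by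
    intro k t g' hl ht
    rw [Pre_iff_gb] at ht ⊢
    intro i hi
    rw [opS, mkS_length] at hi
    have h1 := hzmem k i (lt_of_lt_of_le hi hl)
    have h2 := ht i hi
    rw [opS, gb_mkS _ hi]
    simp only [op, Set.mem_ofPred_eq, h1, ← h2]
    by_cases h3 : i.unpair.1 < m
    · rw [if_pos h3]
      simp only [h3, true_and, not_le.2 h3, false_and, or_false]
    · rw [if_neg h3]
      by_cases h4 : i.unpair.1 < m'
      · rw [if_pos h4]
        simp only [h3, false_and, false_or, not_lt.1 h3, h4, true_and]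
        cases c <;> cases gb t i <;> cases gb (Z k) i <;> simp
      · rw [if_neg h4]
        simp only [h3, h4, false_and, and_false, or_false]
        simp
  refine ⟨z, hzR, hzL, fun g hg => ?_, fun g hg n => ?_⟩
  · have h1 := hop 0 p.1 (cut m' g) (by rw [hZ0, solS, mkS_length]) hg
    rwa [hZ0, opS_solS c hp] at h1
  · -- genericity
    have hPA : AD (R0 A κ) (fun u : List Bool => ∃ k, (cutS m' u).length ≤ (Z k).length ∧
        D n (cutS m' u, opS m m' c (cutS m' u) (Z k))) := by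
      refine AD.ex hR (P := fun (u : List Bool) k => (cutS m' u).length ≤ (Z k).length ∧
        D n (cutS m' u, opS m m' c (cutS m' u) (Z k))) ?_
      have h1 : AD (R0 A κ) (fun x : ((List Bool × ℕ) × List Bool) => Z x.1.2 = x.2) :=
        AD.comp hR (P := fun x : ℕ × List Bool => Z x.1 = x.2) hZA
          (Primrec.pair (Primrec.snd.comp Primrec.fst) Primrec.snd)
      have hu : Primrec (fun x : ((List Bool × ℕ) × List Bool) => cutS m' x.1.1) :=
        (cutS_prim m').comp (Primrec.fst.comp Primrec.fst)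
      have h2 : AD (R0 A κ) (fun x : ((List Bool × ℕ) × List Bool) =>
          (cutS m' x.1.1).length ≤ x.2.length ∧
            D n (cutS m' x.1.1, opS m m' c (cutS m' x.1.1) x.2)) :=
        AD.and hR (AD.of_prim hR (Primrec.nat_le.comp (Primrec.list_length.comp hu)
          (Primrec.list_length.comp Primrec.snd)))
          (AD.comp hR (P := fun x : ℕ × (List Bool × List Bool) => D x.1 x.2) hD
            (Primrec.pair (Primrec.const n) (Primrec.pair hu
              ((opS_prim m m' c).comp hu Primrec.snd))))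
      exact AD.compfn hR (P := fun (x : List Bool × ℕ) y => (cutS m' x.1).length ≤ y.length ∧
            D n (cutS m' x.1, opS m m' c (cutS m' x.1) y))
        (f := fun x : List Bool × ℕ => Z x.2) h2 h1
    obtain ⟨u, ⟨k, hk1, hk2⟩, hu⟩ := Gen.meets hC hg hPA (fun s => by
      set k := Encodable.encode (n, s) with hkdef
      have hrq : rq k = (n, s) := by simp [rq, hkdef]
      obtain ⟨-, -, t, ht1, ht2, ht3, ht4⟩ := hf (k, Z k) (hLeg k)
      rw [← hZs k] at ht1 ht4
      simp only [hrq] at ht2 ht4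
      have ht2' := prefix_iff_gb.1 ht2
      rw [cutS, mkS_length] at ht2'
      set u := mkS t.length (fun i => if i < s.length then gb s i else gb t i) with hu
      have hcu : cutS m' u = t := by
        refine eq_iff_gb.2 ⟨by rw [cutS, mkS_length, hu, mkS_length], fun i hi => ?_⟩
        rw [cutS, mkS_length, hu, mkS_length] at hi
        rw [cutS, gb_mkS _ (by rw [hu, mkS_length]; exact hi), hu, gb_mkS _ hi]
        have e : gb t i = if i.unpair.1 < m' then gb t i else false := by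
          conv_lhs => rw [← ht3, cutS, gb_mkS _ hi]
        by_cases h1 : i.unpair.1 < m'
        · rw [if_pos h1]
          split_ifs with h2
          · rw [← ht2'.2 i h2, gb_mkS _ h2, if_pos h1]
          · rfl
        · rw [if_neg h1, e, if_neg h1]
      refine ⟨u, prefix_iff_gb.2 ⟨?_, fun i hi => ?_⟩, k + 1, ?_, ?_⟩
      · rw [hu, mkS_length]; exact ht2'.1
      · rw [hu, gb_mkS _ (lt_of_lt_of_le hi ht2'.1), if_pos hi]
      · rw [hcu, ht1]
      · rw [hcu]; exact ht4)
    refine ⟨(cutS m' u, opS m m' c (cutS m' u) (Z k)), ⟨C2_opS hmm c (cutS_cutS m' u) _, ?_, ?_⟩,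
      hk2⟩
    · rw [Pre_iff_gb] at hu ⊢
      intro i hi
      dsimp only at hi ⊢
      rw [cutS, mkS_length] at hi
      rw [cutS, gb_mkS _ hi]
      have := hu i hi
      simp only [cut, Set.mem_ofPred_eq, ← this]
      split_ifs with h1 <;> simp [h1]
    · refine hop k _ _ hk1 ?_
      rw [Pre_iff_gb] at hu ⊢
      intro i hi
      rw [cutS, mkS_length] at hi
      rw [cutS, gb_mkS _ hi]
      have := hu i hi
      simp only [cut, Set.mem_ofPred_eq, ← this]
      split_ifs with h1 <;> simp [h1]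

end

end Pool.Agent.CC
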