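import Mathlib
import Pool.Agent.Lib.MP_bf67b0_lc.Coding
import Pool.Agent.Lib.MP_bf67b0_lc.Recur
import Pool.Agent.Lib.MP_bf67b0_lc.NSep
import Pool.Agent.Lib.MP_bf67b0_lc.Names

/-!
Collection and power sets in the symmetric extension.
-/

set_option autoImplicit false

namespace Pool.Agent.CC

open Ordinal Set

/-! ### names -/

section
variable {A : ℕ → List ℕ → Prop} {μ : Ordinal.{0}}

theorem nc_zR_zero : zR A 0 = ∅ := by
  ext n
  simp only [zR, Set.mem_ofPred_eq, Set.mem_empty_iff_false, iff_false]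
  exact fun h => absurd (EE_lt h) (by simp)

theorem nc_symm_zero (h : Set ℕ) : symmDiff h (zR A 0) = h := by
  rw [nc_zR_zero]
  exact symmDiff_bot h

theorem nc_val_cst (a : Ordinal.{0}) (h : Set ℕ) : val A μ (cst a) h = a.toZFSet := by
  rw [val, WellFoundedLT.fix_eq]
  have hx : ∃ b, cst a = cst b := ⟨a, rfl⟩
  rw [dif_pos hx]
  have h1 : cst a = cst (Classical.choose hx) := Classical.choose_spec hx
  rw [← cst_inj.1 h1]

theorem nc_Ct_lt {x e d : Ordinal.{0}} {q : ℕ} (h : Ct A x e d q) : e < x := by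
  obtain ⟨_, t, ht, htr⟩ := h
  exact (Tr_lt htr).1.trans (EE_lt ht)

theorem nc_mem_val {x : Ordinal.{0}} (hx : ¬ ∃ a, x = cst a) {h : Set ℕ} {w : ZFSet.{0}} :
    w ∈ val A μ x h ↔ ∃ e, ∃ c < μ, ∃ d < μ, ∃ q : ℕ, inG (supp A x) (zR A c) ∧ Ct A x e d q ∧
      inC q (symmDiff h (zR A c)) ∧
        w = val A μ e (symmDiff (symmDiff h (zR A c)) (zR A d)) := by
  conv_lhs => rw [val, WellFoundedLT.fix_eq]
  rw [dif_neg hx, ZFSet.mem_range]
  constructor
  · rintro ⟨⟨⟨e, c, d, q⟩, h1, h2, h3⟩, rfl⟩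
    exact ⟨e.1, c.1, c.2, d.1, d.2, q, h1, h2, h3, rfl⟩
  · rintro ⟨e, c, hc, d, hd, q, h1, h2, h3, rfl⟩
    exact ⟨⟨⟨⟨e, nc_Ct_lt h2⟩, ⟨c, hc⟩, ⟨d, hd⟩, q⟩, h1, h2, h3⟩, rfl⟩

/-- the value depends only on the elements of the name -/
theorem nc_val_congr {x y : Ordinal.{0}} (hx : ¬ ∃ a, x = cst a) (hy : ¬ ∃ a, y = cst a)
    (hxy : ∀ t, EE A t x ↔ EE A t y) (h : Set ℕ) : val A μ x h = val A μ y h := by
  have h1 : zR A x = zR A y := by
    ext n; exact hxy n
  have h2 : supp A x = supp A y := by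
    unfold supp; rw [h1]
  have h3 : ∀ e d q, Ct A x e d q ↔ Ct A y e d q := by
    intro e d q
    unfold Ct
    simp only [hx, hy, hxy]
  ext w
  rw [nc_mem_val hx, nc_mem_val hy, h2]
  simp only [h3]

end

section
variable {A : ℕ → List ℕ → Prop} {κ μ : Ordinal.{0}}

theorem nc_mu_pos (h : Grd A κ μ) : 0 < μ := omega0_pos.trans_le h.om_le

theorem nc_symm (h : Grd A κ μ) {c d : Ordinal.{0}} (hc : c < κ) (hd : d < κ) :
    ∃ b < μ, zR A b = symmDiff (zR A c) (zR A d) := by
  have hω : ω < κ := h.om_le.trans_lt h.mu_lt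
  have hP : D0 A κ (fun v => ¬ (EE A (v 0) (v 1) ↔ EE A (v 0) (v 2))) :=
    ((Df.rel .E [0, 1]).iff (Df.rel .E [0, 2])).not
  obtain ⟨x, hx, -, hxe⟩ := h.comp _ hP (fun k => if k = 1 then c else d)
    (fun k => by split_ifs; exacts [hc, hd]) ω hω
  obtain ⟨b, hb, -, hbx⟩ := h.real x hx
  refine ⟨b, hb, ?_⟩
  rw [hbx]
  ext n
  have := hxe n
  simp only [zR, Set.mem_ofPred_eq, this, Set.mem_symmDiff]
  simp only [Function.update_self, ne_eq, one_ne_zero, not_false_eq_true, Function.update_of_ne,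
    OfNat.ofNat_ne_zero, if_true, OfNat.ofNat_ne_one, if_false, natCast_lt_omega0, true_and]
  tauto

/-- elements of the values of names -/
theorem nc_mem_elem (h : Grd A κ μ) {x : Ordinal.{0}} {g : Set ℕ}
    {w : ZFSet.{0}} (hw : w ∈ val A μ x g) :
    ∃ e < x, ∃ d < μ, w = val A μ e (symmDiff g (zR A d)) := by
  by_cases hc : ∃ a, x = cst a
  · obtain ⟨a, rfl⟩ := hc
    rw [nc_val_cst, mem_toZFSet_iff] at hw
    obtain ⟨b, hb, rfl⟩ := hw
    exact ⟨cst b, cst_lt.2 hb, 0, nc_mu_pos h, (nc_val_cst _ _).symm⟩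
  · obtain ⟨e, c, hc', d, hd, q, h1, h2, h3, rfl⟩ := (nc_mem_val hc).1 hw
    obtain ⟨b, hb, hbe⟩ := nc_symm h (hc'.trans h.mu_lt) (hd.trans h.mu_lt)
    refine ⟨e, nc_Ct_lt h2, b, hb, ?_⟩
    rw [hbe, symmDiff_assoc]

theorem nc_inC_nil (g : Set ℕ) : inC (Encodable.encode ([] : List Bool)) g := by
  intro i
  simp [bit, cond]

/-- a name for a large set -/
theorem nc_super (h : Grd A κ μ) {M : Ordinal.{0}} (hM : M < κ) : ∃ y < κ,
    ∀ (g : Set ℕ), ∀ x < M, ∀ z < μ,
      val A μ x (symmDiff g (zR A z)) ∈ val A μ y g := by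
  have hL : max M μ + 1 < κ := h.succ_lt _ (max_lt hM h.mu_lt)
  have hL0 : (0 : Ordinal.{0}) < max M μ + 1 := by simp
  obtain ⟨y, hy, hyc, hye⟩ := h.comp (fun _ => True) Df.true (fun _ => 0)
    (fun _ => (zero_le : (0 : Ordinal.{0}) ≤ μ).trans_lt h.mu_lt) (code (max M μ + 1) 0 0)
    (h.code_lt _ hL _ hL0 0)
  refine ⟨y, hy, fun g x hx z hz => ?_⟩
  obtain ⟨z', hz', h2, hzz⟩ := h.real z (hz.trans h.mu_lt)
  have hz0 : z' ≠ 0 := by
    rintro rfl
    exact absurd h2 (by simp)
  obtain ⟨t, htr, -⟩ := exists_Tr (e := x) (d := z') (Encodable.encode ([] : List Bool))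
    (Or.inr hz0)
  have htl : t < code (max M μ + 1) 0 0 := by
    rcases htr.2 with ⟨h3, rfl⟩ | ⟨h3, rfl⟩
    · rw [code_lt_iff h3 hL0]
      left
      rw [add_one_lt_iff']
      exact hx.trans_le (le_max_left _ _)
    · rw [code_lt_iff h3 hL0]
      left
      rw [add_one_lt_iff']
      exact hz'.trans_le (le_max_right _ _)
  rw [nc_mem_val hyc]
  refine ⟨x, 0, nc_mu_pos h, z', hz', Encodable.encode ([] : List Bool), ?_,
    ⟨hyc, t, (hye t).2 ⟨htl, trivial⟩, htr⟩, nc_inC_nil _, ?_⟩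
  · rw [nc_zR_zero]
    exact fun _ _ h => h.elim
  · rw [nc_symm_zero, hzz]

theorem nc_mem_NN (h : Grd A κ μ) {x : Ordinal.{0}} (hx : x < κ) (g : Set ℕ) :
    val A μ x g ∈ NN A κ μ g :=
  ⟨x, hx, 0, nc_mu_pos h, by rw [nc_symm_zero]⟩

end

/-! ### iterated collection in the ground model -/

section
variable {A : ℕ → List ℕ → Prop} {κ μ : Ordinal.{0}}

theorem nc_update_ren {M : Type*} (j : ℕ) (v : ℕ → M) :
    (fun k => v ((fun k => if k = j then 0 else k + 1) k)) =
      Function.update (fun k => v (k + 1)) j (v 0) := by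
  funext k
  by_cases hk : k = j
  · subst hk; simp
  · simp [hk]

theorem nc_ex {P : (ℕ → Ordinal.{0}) → Prop} (hP : D0 A κ P) (j : ℕ) :
    D0 A κ (fun v => ∃ x < κ, P (Function.update v j x)) := by
  have h1 := Df.ex (I := fun _ : Unit => II A) (D := fun _ => Set.Iio κ)
    (Q := fun _ x v => P (Function.update v j x))
    (Df.congr (Df.subst (P := fun (_ : Unit) => P) hP (fun k => if k = j then 0 else k + 1))
      (fun _ v _ => by rw [nc_update_ren]))
  exact Df.congr h1 fun _ v _ => by simp [Set.mem_Iio]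

theorem nc_ex_lt {P : (ℕ → Ordinal.{0}) → Prop} (hP : D0 A κ P) (j c : ℕ) :
    D0 A κ (fun v => ∃ x < v c, P (Function.update v j x)) := by
  have h1 := Df.ex (I := fun _ : Unit => II A) (D := fun _ => Set.Iio κ)
    (Q := fun _ x v => x < v c ∧ P (Function.update v j x))
    (Df.congr ((Df.rel .lt [0, c + 1]).and
      (Df.subst (P := fun (_ : Unit) => P) hP (fun k => if k = j then 0 else k + 1)))
      (fun _ v _ => by rw [nc_update_ren]; rfl))
  refine Df.congr h1 fun _ v hv => ⟨?_, ?_⟩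
  · rintro ⟨x, _, hx, hPx⟩
    exact ⟨x, hx, hPx⟩
  · rintro ⟨x, hx, hPx⟩
    exact ⟨x, hx.trans (hv c), hx, hPx⟩

theorem nc_all_lt {P : (ℕ → Ordinal.{0}) → Prop} (hP : D0 A κ P) (j c : ℕ) :
    D0 A κ (fun v => ∀ x < v c, P (Function.update v j x)) := by
  have h0 : D0 A κ (fun v => ¬ P v) := Df.not (P := fun (_ : Unit) => P) hP
  have h1 : D0 A κ (fun v => ¬ ∃ x < v c, ¬ P (Function.update v j x)) :=
    Df.not (P := fun (_ : Unit) (v : ℕ → Ordinal.{0}) => ∃ x < v c, ¬ P (Function.update v j x))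
      (nc_ex_lt h0 j c)
  refine Df.congr h1 fun _ v _ => ?_
  push Not
  rfl

/-- total relations: there is always a value of the variable `3` -/
def nc_Tot (κ : Ordinal.{0}) (P : (ℕ → Ordinal.{0}) → Prop) : Prop :=
  ∀ v : ℕ → Ordinal.{0}, (∀ k, v k < κ) → ∃ x < κ, P (Function.update v 3 x)

/-- bounded values of the variable `3` -/
def nc_Nx (P : (ℕ → Ordinal.{0}) → Prop) (i c : ℕ) (v : ℕ → Ordinal.{0}) : Prop :=
  ∀ e < v c, ∃ x < v 3, P (Function.update (Function.update v i e) 3 x)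

theorem nc_Nx_def {P : (ℕ → Ordinal.{0}) → Prop} (hP : D0 A κ P) {i : ℕ} (c : ℕ) (hi : i ≠ 3) :
    D0 A κ (nc_Nx P i c) := by
  have h1 := nc_all_lt (nc_ex_lt hP 3 3) i c
  refine Df.congr h1 fun _ v _ => ?_
  unfold nc_Nx
  simp only [Function.update_of_ne hi.symm]

theorem nc_Nx_tot (h : Grd A κ μ) {P : (ℕ → Ordinal.{0}) → Prop} (hP : D0 A κ P)
    (hT : nc_Tot κ P) {i c : ℕ} (hi : i ≠ 3) (hc : c ≠ 3) : nc_Tot κ (nc_Nx P i c) := by
  intro v hv
  have hP' : D0 A κ (fun v => P (fun k => v (if k = i then 0 else if k = 3 then 1 else k + 2))) :=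
    hP.subst _
  have key : ∀ e x : Ordinal.{0},
      (fun k => (Function.update (Function.update (fun k => v (k - 2)) 0 e) 1 x)
        (if k = i then 0 else if k = 3 then 1 else k + 2)) =
      Function.update (Function.update v i e) 3 x := by
    intro e x
    funext k
    by_cases hk : k = i
    · subst hk
      simp [hi]
    · by_cases hk3 : k = 3
      · subst hk3
        simp [hk]
      · simp [hk, hk3]
  obtain ⟨m, hm, hmx⟩ := h.coll _ hP' (fun k => v (k - 2)) (fun k => hv _) (v c) (hv c) (by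
    intro e he
    obtain ⟨x, hx, hPx⟩ := hT (Function.update v i e) (fun k => by
      by_cases hk : k = i
      · subst hk
        rw [Function.update_self]
        exact he.trans (hv c)
      · rw [Function.update_of_ne hk]
        exact hv k)
    refine ⟨x, hx, ?_⟩
    show P (fun k => _)
    rw [key]
    exact hPx)
  refine ⟨m, hm, ?_⟩
  intro e he
  rw [Function.update_of_ne hc] at he
  obtain ⟨x, hx, hPx⟩ := hmx e he
  rw [Function.update_self]
  refine ⟨x, hx, ?_⟩
  have hPx' : P (fun k => (Function.update (Function.update (fun k => v (k - 2)) 0 e) 1 x)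
        (if k = i then 0 else if k = 3 then 1 else k + 2)) := hPx
  rw [key] at hPx'
  rw [Function.update_comm hi.symm, Function.update_idem]
  exact hPx'

/-- collection for triples -/
theorem nc_coll3 (h : Grd A κ μ) {R : (ℕ → Ordinal.{0}) → Prop} (hR : D0 A κ R)
    (v : ℕ → Ordinal.{0}) (hv : ∀ k, v k < κ) : ∃ m < κ, ∀ p < v 5, ∀ e < v 6, ∀ d < v 7,
      (∃ x < κ, R (Function.update (Function.update (Function.update (Function.update v 0 p)
        1 e) 2 d) 3 x)) →
      ∃ x < m, R (Function.update (Function.update (Function.update (Function.update v 0 p)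
        1 e) 2 d) 3 x) := by
  have hκ : 0 < κ := (zero_le : (0 : Ordinal.{0}) ≤ v 0).trans_lt (hv 0)
  have hR' : D0 A κ (fun v => (∃ x < κ, R (Function.update v 3 x)) → R v) := (nc_ex hR 3).imp hR
  have hT : nc_Tot κ (fun v => (∃ x < κ, R (Function.update v 3 x)) → R v) := by
    intro v _
    by_cases hx : ∃ x < κ, R (Function.update v 3 x)
    · obtain ⟨x, hx, hRx⟩ := hx
      exact ⟨x, hx, fun _ => hRx⟩
    · exact ⟨0, hκ, fun hx' => absurd (by simpa only [Function.update_idem] using hx') hx⟩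
  have h1 := nc_Nx_def hR' 7 (by decide : (2 : ℕ) ≠ 3)
  have t1 := nc_Nx_tot h hR' hT (by decide : (2 : ℕ) ≠ 3) (by decide : (7 : ℕ) ≠ 3)
  have h2 := nc_Nx_def h1 6 (by decide : (1 : ℕ) ≠ 3)
  have t2 := nc_Nx_tot h h1 t1 (by decide : (1 : ℕ) ≠ 3) (by decide : (6 : ℕ) ≠ 3)
  have t3 := nc_Nx_tot h h2 t2 (by decide : (0 : ℕ) ≠ 3) (by decide : (5 : ℕ) ≠ 3)
  obtain ⟨m, hm, hmv⟩ := t3 v hv
  refine ⟨m, hm, fun p hp e he d hd hx => ?_⟩
  obtain ⟨m2, hm2, h5⟩ := hmv p (by simpa using hp)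
  obtain ⟨m1, hm1, h6⟩ := h5 e (by simpa using he)
  obtain ⟨x, hx1, h7⟩ := h6 d (by simpa using hd)
  have e1 : ∀ x : Ordinal.{0}, Function.update (Function.update (Function.update (Function.update
      (Function.update (Function.update (Function.update v 3 m) 0 p) 3 m2) 1 e) 3 m1) 2 d) 3 x =
      Function.update (Function.update (Function.update (Function.update v 0 p) 1 e) 2 d) 3 x := by
    intro x
    funext k
    by_cases h3 : k = 3
    · subst h3; simp
    · simp only [Function.update_apply, h3, if_false]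
  simp only [Function.update_self] at hm2 hm1 hx1
  rw [e1] at h7
  refine ⟨x, ?_, h7 ?_⟩
  · have a1 : x < m1 := by simpa using hx1
    have a2 : m1 < m2 := by simpa using hm1
    have a3 : m2 < m := by simpa using hm2
    exact a1.trans (a2.trans a3)
  · simpa only [Function.update_idem] using hx

end

/-! ### collection and power sets -/

section
variable {A : ℕ → List ℕ → Prop} {κ μ : Ordinal.{0}} (hA : Arith A) (h : Grd A κ μ)
  {g : Set ℕ} (hg : Gen A κ g)
include hA h hg

/-- Collection -/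
theorem NN_coll (φ : Fm) (v : ℕ → ZFSet.{0}) (hv : ∀ k, v k ∈ NN A κ μ g) (a : ZFSet.{0})
    (ha : a ∈ NN A κ μ g)
    (hφ : ∀ y ∈ a, ∃ z ∈ NN A κ μ g, Sat (NI A κ) (NN A κ μ g)
      (Function.update (Function.update v 0 y) 1 z) φ) :
    ∃ b ∈ NN A κ μ g, ∀ y ∈ a, ∃ z ∈ b, Sat (NI A κ) (NN A κ μ g)
      (Function.update (Function.update v 0 y) 1 z) φ := by
  have hω : ω < κ := h.om_le.trans_lt h.mu_lt
  have h0μ := nc_mu_pos h
  have h0κ : 0 < κ := omega0_pos.trans hω
  obtain ⟨x₀, hx₀, rfl⟩ := (NN_iff hA h g a).1 ha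
  choose X hX hvX using fun k => (NN_iff hA h g (v k)).1 (hv k)
  -- the relation `R`
  have hF := Fc_def hA h φ
  have hF' := hF.subst (fun k => if k ≤ 4 then k else k + 10)
  have hR := nc_ex_lt hF' 4 7
  obtain ⟨m, hm, hmx⟩ := nc_coll3 h hR
    (fun k => if k = 5 then ω else if k = 6 then x₀ else if k = 7 then μ else
      if k % 2 = 1 then X ((k - 11) / 2) else 0)
    (fun k => by
      split_ifs
      exacts [hω, hx₀, h.mu_lt, hX _, h0κ])
  -- the names
  set u : Ordinal.{0} → Ordinal.{0} → Ordinal.{0} → Ordinal.{0} → ℕ → Ordinal.{0} × Ordinal.{0} :=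
    fun e d z b k => if k = 0 then (e, d) else if k = 1 then (z, b) else (X k, 0) with hu
  have key : ∀ (p : ℕ) (e d z b : Ordinal.{0}),
      (∃ n : ℕ, (fun k => (Function.update (Function.update (Function.update (Function.update
        (Function.update (fun k : ℕ => if k = 5 then ω else if k = 6 then x₀ else if k = 7 then μ
          else if k % 2 = 1 then X ((k - 11) / 2) else 0) 0 (p : Ordinal.{0})) 1 e) 2 d) 3 z) 4 b)
          ((fun k => if k ≤ 4 then k else k + 10) k)) 0 = (n : Ordinal.{0}) ∧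
        Fc A κ μ φ n (fun k =>
          ((fun k => (Function.update (Function.update (Function.update (Function.update
        (Function.update (fun k : ℕ => if k = 5 then ω else if k = 6 then x₀ else if k = 7 then μ
          else if k % 2 = 1 then X ((k - 11) / 2) else 0) 0 (p : Ordinal.{0})) 1 e) 2 d) 3 z) 4 b)
          ((fun k => if k ≤ 4 then k else k + 10) k)) (2 * k + 1),
          (fun k => (Function.update (Function.update (Function.update (Function.update
        (Function.update (fun k : ℕ => if k = 5 then ω else if k = 6 then x₀ else if k = 7 then μ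
          else if k % 2 = 1 then X ((k - 11) / 2) else 0) 0 (p : Ordinal.{0})) 1 e) 2 d) 3 z) 4 b)
          ((fun k => if k ≤ 4 then k else k + 10) k)) (2 * k + 2)))) ↔
        Fc A κ μ φ p (u e d z b) := by
    intro p e d z b
    have e2 : (fun k =>
          ((fun k => (Function.update (Function.update (Function.update (Function.update
        (Function.update (fun k : ℕ => if k = 5 then ω else if k = 6 then x₀ else if k = 7 then μ
          else if k % 2 = 1 then X ((k - 11) / 2) else 0) 0 (p : Ordinal.{0})) 1 e) 2 d) 3 z) 4 b)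
          ((fun k => if k ≤ 4 then k else k + 10) k)) (2 * k + 1),
          (fun k => (Function.update (Function.update (Function.update (Function.update
        (Function.update (fun k : ℕ => if k = 5 then ω else if k = 6 then x₀ else if k = 7 then μ
          else if k % 2 = 1 then X ((k - 11) / 2) else 0) 0 (p : Ordinal.{0})) 1 e) 2 d) 3 z) 4 b)
          ((fun k => if k ≤ 4 then k else k + 10) k)) (2 * k + 2))) = u e d z b := by
      funext k
      rcases k with _ | _ | k
      · simp [hu]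
      · simp [hu]
      · have a1 : ¬ (2 * (k + 1 + 1) + 1 ≤ 4) := by omega
        have a2 : ¬ (2 * (k + 1 + 1) + 2 ≤ 4) := by omega
        have b1 : (2 * (k + 1 + 1) + 1 + 10) % 2 = 1 := by omega
        have b2 : (2 * (k + 1 + 1) + 1 + 10 - 11) / 2 = k + 1 + 1 := by omega
        have b3 : (2 * (k + 1 + 1) + 2 + 10) % 2 ≠ 1 := by omega
        have c0 : ∀ j : ℕ, j < 8 → 2 * (k + 1 + 1) + 1 + 10 ≠ j := by intro j hj; omega
        have c1 : ∀ j : ℕ, j < 8 → 2 * (k + 1 + 1) + 2 + 10 ≠ j := by intro j hj; omega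
        simp only [hu, a1, a2, if_false, Function.update_apply, c0 0 (by omega), c0 1 (by omega),
          c0 2 (by omega), c0 3 (by omega), c0 4 (by omega), c0 5 (by omega), c0 6 (by omega),
          c0 7 (by omega), c1 0 (by omega), c1 1 (by omega), c1 2 (by omega), c1 3 (by omega),
          c1 4 (by omega), c1 5 (by omega), c1 6 (by omega), c1 7 (by omega), b1, b2, b3, if_true]
        have d1 : k + 1 + 1 ≠ 0 := by omega
        have d2 : k + 1 + 1 ≠ 1 := by omega
        simp only [d1, d2, if_false]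
    rw [e2]
    constructor
    · rintro ⟨n, hn, hF⟩
      have : p = n := by simpa [Function.update_apply] using hn
      rw [this]
      exact hF
    · intro hF
      exact ⟨p, by simp, hF⟩
  have hbd : ∀ (p : ℕ) (e d z : Ordinal.{0}), (∃ b < μ, Fc A κ μ φ p (u e d z b)) ↔
      (fun v : ℕ → Ordinal.{0} => ∃ x < v 7, (fun v : ℕ → Ordinal.{0} => (fun (_ : Unit)
        (v : ℕ → Ordinal.{0}) => ∃ n : ℕ, v 0 = n ∧
          Fc A κ μ φ n (fun k => (v (2 * k + 1), v (2 * k + 2)))) ()
            (fun k => v ((fun k => if k ≤ 4 then k else k + 10) k))) (Function.update v 4 x))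
      (Function.update (Function.update (Function.update (Function.update
        (fun k : ℕ => if k = 5 then ω else if k = 6 then x₀ else if k = 7 then μ
          else if k % 2 = 1 then X ((k - 11) / 2) else 0) 0 (p : Ordinal.{0})) 1 e) 2 d) 3 z) := by
    intro p e d z
    have e7 : (Function.update (Function.update (Function.update (Function.update
        (fun k : ℕ => if k = 5 then ω else if k = 6 then x₀ else if k = 7 then μ
          else if k % 2 = 1 then X ((k - 11) / 2) else 0) 0 (p : Ordinal.{0})) 1 e) 2 d) 3 z) 7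
          = μ := by simp
    show _ ↔ ∃ x < _, _
    rw [e7]
    exact exists_congr fun b => and_congr_right fun _ => (key p e d z b).symm
  obtain ⟨Y, hY, hYs⟩ := nc_super h hm
  refine ⟨val A μ Y g, nc_mem_NN h hY g, fun y hy => ?_⟩
  obtain ⟨z, hz, hs⟩ := hφ y hy
  obtain ⟨e, he, d, hd, rfl⟩ := nc_mem_elem h hy
  obtain ⟨z', hz', rfl⟩ := (NN_iff hA h g z).1 hz
  have hval : ∀ z b : Ordinal.{0},
      (fun k => val A μ (u e d z b k).1 (symmDiff g (zR A (u e d z b k).2))) =
      Function.update (Function.update v 0 (val A μ e (symmDiff g (zR A d)))) 1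
        (val A μ z (symmDiff g (zR A b))) := by
    intro z b
    funext k
    by_cases hk0 : k = 0
    · subst hk0; simp [hu]
    · by_cases hk1 : k = 1
      · subst hk1; simp [hu]
      · simp only [hu, hk0, hk1, if_false, ne_eq, not_false_eq_true, Function.update_of_ne]
        rw [nc_symm_zero]
        exact (hvX k).symm
  have hul : ∀ z < κ, ∀ b < μ, ∀ k, (u e d z b k).1 < κ ∧ (u e d z b k).2 < μ := by
    intro z hz b hb k
    simp only [hu]
    split_ifs
    · exact ⟨he.trans hx₀, hd⟩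
    · exact ⟨hz, hb⟩
    · exact ⟨hX k, h0μ⟩
  have hs' : Sat (NI A κ) (NN A κ μ g)
      (fun k => val A μ (u e d z' 0 k).1 (symmDiff g (zR A (u e d z' 0 k).2))) φ := by
    rw [hval, nc_symm_zero]
    exact hs
  obtain ⟨p, hp, hF⟩ := (truth hA h hg φ _ (hul z' hz' 0 h0μ)).1 hs'
  obtain ⟨z'', hz'', hR''⟩ := hmx p (by simp) e (by simpa using he) d
    (by simpa using hd) ⟨z', hz', (hbd p e d z').1 ⟨0, h0μ, hF⟩⟩
  obtain ⟨b, hb, hF'⟩ := (hbd p e d z'').2 hR''
  refine ⟨_, hYs g z'' hz'' b hb, ?_⟩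
  rw [← hval]
  exact (truth hA h hg φ _ (hul z'' (hz''.trans hm) b hb)).2 ⟨p, hp, hF'⟩

theorem NN_pow (a : ZFSet.{0}) (ha : a ∈ NN A κ μ g) : ∃ b ∈ NN A κ μ g, ∀ y ∈ NN A κ μ g,
    y ⊆ a → y ∈ b := by
  obtain ⟨x₀, hx₀, rfl⟩ := (NN_iff hA h g a).1 ha
  obtain ⟨l, hl, hsep⟩ := NN_sep_bd hA h hg x₀ hx₀
  obtain ⟨m, hm, hpow⟩ := h.pow l hl
  obtain ⟨Y, hY, hYs⟩ := nc_super h hm
  refine ⟨val A μ Y g, nc_mem_NN h hY g, fun y hy hya => ?_⟩
  obtain ⟨x₁, hx₁, rfl⟩ := (NN_iff hA h g y).1 hy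
  obtain ⟨y₁, hy₁, -, hc₁, hb₁, hw⟩ := hsep (.rel .mem [0, 1])
    (fun k => if k = 0 then x₀ else x₁) (by simp)
    (fun k => by split_ifs; exacts [hx₀, hx₁]) (max (supp A x₀) (supp A x₁))
    (fun k => by split_ifs; exacts [le_max_left _ _, le_max_right _ _])
  obtain ⟨y₂, hy₂, hc₂, hb₂⟩ := hpow y₁ hy₁
  have h1 : val A μ y₂ g = val A μ y₁ g := by
    refine nc_val_congr hc₂ hc₁ (fun t => ?_) g
    rw [hb₂ t]
    exact ⟨fun h => h.2, fun h => ⟨hb₁ t h, h⟩⟩
  have h2 : val A μ y₁ g = val A μ x₁ g := by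
    ext w
    rw [hw w]
    have e1 : Sat (NI A κ) (NN A κ μ g)
        (Function.update (fun k => val A μ (if k = 0 then x₀ else x₁) g) 0 w)
        (.rel .mem [0, 1]) ↔ w ∈ val A μ x₁ g := by
      rw [Sat_rel]
      simp only [List.map_cons, List.map_nil, Function.update_self, ne_eq, one_ne_zero,
        not_false_eq_true, Function.update_of_ne, if_false]
      constructor
      · rintro ⟨x, y, hxy, hmem⟩
        simp only [List.cons.injEq, and_true] at hxy
        rw [hxy.1, hxy.2]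
        exact hmem
      · exact fun hmem => ⟨_, _, rfl, hmem⟩
    rw [e1]
    exact ⟨fun h => h.2, fun h => ⟨by simpa using hya h, h⟩⟩
  have h3 := hYs g y₂ hy₂ 0 (nc_mu_pos h)
  rw [nc_symm_zero, h1, h2] at h3
  exact h3

end

end Pool.Agent.CC
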