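import Mathlib
import Pool.Agent.Lib.MP_bf67b0_lc.Defs2
import Pool.Agent.Lib.MP_bf67b0_lc.NSep
import Pool.Agent.Lib.MP_bf67b0_lc.NBasic
import Pool.Agent.Lib.MP_bf67b0_lc.NColl
import Pool.Agent.Lib.MP_bf67b0_lc.Names

/-!
Set theory in the symmetric extension: names for iterated power sets, bounded comprehension, and
basic definability (piece Q6a).
-/

set_option autoImplicit false

namespace Pool.Agent.CC

open Ordinal Set

/-! ### natural numbers, sequences, hereditarily of finite type -/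

theorem nz_eq (n : ℕ) : nz n = toZFSet (n : Ordinal.{0}) := by
  induction n with
  | zero => rw [nz, Nat.cast_zero, toZFSet_zero]
  | succ n ih => rw [nz, Nat.cast_succ, toZFSet_add_one, ih]

theorem nz_inj {m n : ℕ} : nz m = nz n ↔ m = n := by
  rw [nz_eq, nz_eq, toZFSet_injective.eq_iff, Nat.cast_inj]

theorem mem_nz {y : ZFSet.{0}} {n : ℕ} : y ∈ nz n ↔ ∃ k < n, y = nz k := by
  rw [nz_eq, mem_toZFSet_iff]
  constructor
  · rintro ⟨a, ha, rfl⟩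
    obtain ⟨k, rfl⟩ := lt_omega0.1 (ha.trans (natCast_lt_omega0 n))
    exact ⟨k, by exact_mod_cast ha, (nz_eq k).symm⟩
  · rintro ⟨k, hk, rfl⟩
    exact ⟨k, by exact_mod_cast hk, (nz_eq k).symm⟩

theorem mem_seqZ {f : ℕ → ZFSet.{0}} {y : ZFSet.{0}} :
    y ∈ seqZ f ↔ ∃ n, y = ZFSet.pair (nz n) (f n) := by
  rw [seqZ, ZFSet.mem_range]
  exact ⟨fun ⟨n, hn⟩ => ⟨n, hn.symm⟩, fun ⟨n, hn⟩ => ⟨n, hn.symm⟩⟩

theorem pair_mem_seqZ {f : ℕ → ZFSet.{0}} {k : ℕ} {y : ZFSet.{0}} :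
    ZFSet.pair (nz k) y ∈ seqZ f ↔ y = f k := by
  rw [mem_seqZ]
  constructor
  · rintro ⟨n, hn⟩
    obtain ⟨h1, h2⟩ := ZFSet.pair_inj.1 hn
    rw [nz_inj] at h1
    rw [h2, h1]
  · rintro rfl
    exact ⟨k, rfl⟩

theorem seqZ_inj {f f' : ℕ → ZFSet.{0}} : seqZ f = seqZ f' ↔ f = f' := by
  constructor
  · intro h
    funext k
    have h1 : ZFSet.pair (nz k) (f k) ∈ seqZ f := pair_mem_seqZ.2 rfl
    rw [h] at h1
    exact pair_mem_seqZ.1 h1
  · rintro rfl; rfl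

theorem rz_inj {x y : ℕ → ℕ} : rz x = rz y ↔ x = y := by
  rw [rz, rz, seqZ_inj]
  constructor
  · intro h
    funext n
    exact nz_inj.1 (congrFun h n)
  · rintro rfl; rfl

theorem mem_sz {S : Set ℕ} {y : ZFSet.{0}} : y ∈ sz S ↔ ∃ n ∈ S, y = nz n := by
  rw [sz, ZFSet.mem_range]
  exact ⟨fun ⟨n, hn⟩ => ⟨n.1, n.2, hn.symm⟩, fun ⟨n, hn, h⟩ => ⟨⟨n, hn⟩, h.symm⟩⟩

theorem mem_sz_nz {S : Set ℕ} {n : ℕ} : nz n ∈ sz S ↔ n ∈ S := by
  rw [mem_sz]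
  constructor
  · rintro ⟨k, hk, h⟩
    rwa [nz_inj.1 h]
  · intro h
    exact ⟨n, h, rfl⟩

theorem sz_inj {S T : Set ℕ} : sz S = sz T ↔ S = T := by
  constructor
  · intro h
    ext n
    rw [← mem_sz_nz, h, mem_sz_nz]
  · rintro rfl; rfl

theorem mem_setZ {X : Set (ℕ → ℕ)} {y : ZFSet.{0}} : y ∈ setZ X ↔ ∃ x ∈ X, y = rz x := by
  rw [setZ, ZFSet.mem_range]
  exact ⟨fun ⟨n, hn⟩ => ⟨n.1, n.2, hn.symm⟩, fun ⟨n, hn, h⟩ => ⟨⟨n, hn⟩, h.symm⟩⟩

theorem rz_mem_setZ {X : Set (ℕ → ℕ)} {x : ℕ → ℕ} : rz x ∈ setZ X ↔ x ∈ X := by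
  rw [mem_setZ]
  constructor
  · rintro ⟨k, hk, h⟩
    rwa [rz_inj.1 h]
  · intro h
    exact ⟨x, h, rfl⟩

theorem PN_nz (k n : ℕ) : PN k (nz n) := by
  induction k generalizing n with
  | zero => exact ⟨n, rfl⟩
  | succ k ih =>
    intro x hx
    obtain ⟨j, -, rfl⟩ := mem_nz.1 hx
    exact ih j

theorem PN_succ {k : ℕ} {y : ZFSet.{0}} (h : PN k y) : PN (k + 1) y := by
  induction k generalizing y with
  | zero =>
    obtain ⟨n, rfl⟩ := h
    exact PN_nz 1 n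
  | succ k ih => exact fun x hx => ih (h x hx)

theorem PN_mono {k l : ℕ} (hkl : k ≤ l) {y : ZFSet.{0}} (h : PN k y) : PN l y := by
  induction hkl with
  | refl => exact h
  | step _ ih => exact PN_succ ih

theorem PN_pair {k : ℕ} {x y : ZFSet.{0}} (hx : PN k x) (hy : PN k y) :
    PN (k + 2) (ZFSet.pair x y) := by
  intro z hz w hw
  rw [ZFSet.pair, ZFSet.mem_pair] at hz
  rcases hz with rfl | rfl
  · rw [ZFSet.mem_singleton] at hw
    rwa [hw]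
  · rw [ZFSet.mem_pair] at hw
    rcases hw with rfl | rfl
    · exact hx
    · exact hy

theorem PN_seqZ {k : ℕ} {f : ℕ → ZFSet.{0}} (hf : ∀ n, PN k (f n)) : PN (k + 3) (seqZ f) := by
  intro z hz
  obtain ⟨n, rfl⟩ := mem_seqZ.1 hz
  exact PN_pair (PN_nz k n) (hf n)

theorem PN_rz (x : ℕ → ℕ) : PN 3 (rz x) := PN_seqZ (k := 0) fun n => ⟨x n, rfl⟩

theorem PN_seqZ_rz (f : ℕ → ℕ → ℕ) : PN 8 (seqZ (fun n => rz (f n))) :=
  PN_mono (by norm_num) (PN_seqZ (k := 3) fun n => PN_rz (f n))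

theorem PN_setZ (X : Set (ℕ → ℕ)) : PN 4 (setZ X) := by
  intro y hy
  obtain ⟨x, -, rfl⟩ := mem_setZ.1 hy
  exact PN_rz x

theorem PN_seqZ_setZ (X : ℕ → Set (ℕ → ℕ)) : PN 8 (seqZ (fun n => setZ (X n))) :=
  PN_mono (by norm_num) (PN_seqZ (k := 4) fun n => PN_setZ (X n))

/-! ### closure of the symmetric extension -/

section
variable {𝓕 : ℕ → Set ℕ} {A : ℕ → List ℕ → Prop} {κ μ : Ordinal.{0}} (hC : Ctx 𝓕 A κ μ)
include hC

theorem Ctx.arith : Arith A := hC.ar.toArith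

theorem Ctx.nat_lt (n : ℕ) : (n : Ordinal.{0}) < κ :=
  (natCast_lt_omega0 n).trans (hC.grd.om_le.trans_lt hC.grd.mu_lt)

theorem nz_mem {g : Set ℕ} (hg : Gen A κ g) (n : ℕ) : nz n ∈ NN A κ μ g := by
  rw [nz_eq]
  exact NN_ord hC.arith hC.grd hg _ (hC.nat_lt n)

/-- a set containing all the elements of type `n` -/
theorem exists_PN {g : Set ℕ} (hg : Gen A κ g) (n : ℕ) :
    ∃ b ∈ NN A κ μ g, ∀ y ∈ NN A κ μ g, PN n y → y ∈ b := by
  induction n with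
  | zero =>
    refine ⟨toZFSet ω, NN_ord hC.arith hC.grd hg _ (hC.grd.om_le.trans_lt hC.grd.mu_lt),
      fun y _ hy => ?_⟩
    obtain ⟨k, rfl⟩ := hy
    rw [nz_eq, toZFSet_mem_toZFSet_iff]
    exact natCast_lt_omega0 k
  | succ n ih =>
    obtain ⟨b, hb, h1⟩ := ih
    obtain ⟨c, hc, h2⟩ := NN_pow hC.arith hC.grd hg b hb
    exact ⟨c, hc, fun y hy hyn => h2 y hy fun x hx =>
      h1 x (NN_trans hC.arith hC.grd hg hy hx) (hyn x hx)⟩

/-- bounded comprehension -/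
theorem N_comp {g : Set ℕ} (hg : Gen A κ g)
    {P : {h : Set ℕ // Gen A κ h} → (ℕ → ZFSet.{0}) → Prop} (hP : DfN A κ μ P)
    (v : ℕ → ZFSet.{0}) (hv : ∀ k, v k ∈ NN A κ μ g) (n : ℕ)
    (hn : ∀ y ∈ NN A κ μ g, P ⟨g, hg⟩ (Function.update v 0 y) → PN n y) :
    ∃ b ∈ NN A κ μ g, ∀ y, y ∈ b ↔ y ∈ NN A κ μ g ∧ P ⟨g, hg⟩ (Function.update v 0 y) := by
  obtain ⟨φ, hφ⟩ := hP
  obtain ⟨a, ha, h1⟩ := exists_PN hC hg n
  -- names
  obtain ⟨a', ha', haa⟩ := (NN_iff hC.arith hC.grd g a).1 ha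
  have hv' : ∀ k, ∃ x < κ, v k = val A μ x g := fun k => (NN_iff hC.arith hC.grd g _).1 (hv k)
  choose x hx hxv using hv'
  obtain ⟨y, hy, -, hyw⟩ := NN_sep hC.arith hC.grd hg φ
    (fun k => if k = 0 then a' else if k < φ.bnd then x k else a')
    (fun k => by
      split_ifs
      exacts [ha', hx k, ha'])
    (supp A a' + ∑ k ∈ Finset.range φ.bnd, supp A (x k))
    (fun k => by
      split_ifs with h2 h3
      · exact Nat.le_add_right _ _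
      · exact (Finset.single_le_sum (f := fun k => supp A (x k)) (fun _ _ => Nat.zero_le _)
          (Finset.mem_range.2 h3)).trans (Nat.le_add_left _ _)
      · exact Nat.le_add_right _ _)
  refine ⟨val A μ y g, (NN_iff hC.arith hC.grd g _).2 ⟨y, hy, rfl⟩, fun w => ?_⟩
  rw [hyw w]
  simp only [if_true]
  rw [← haa]
  have key : w ∈ NN A κ μ g → (Sat (NI A κ) (NN A κ μ g) (Function.update (fun k => val A μ
      (if k = 0 then a' else if k < φ.bnd then x k else a') g) 0 w) φ ↔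
      P ⟨g, hg⟩ (Function.update v 0 w)) := by
    intro hw
    rw [← hφ ⟨g, hg⟩ (Function.update v 0 w) (fun k => by
      by_cases hk : k = 0
      · subst hk; rwa [Function.update_self]
      · rw [Function.update_of_ne hk]; exact hv k)]
    refine Sat_congr fun k hk => ?_
    by_cases hk0 : k = 0
    · subst hk0; rw [Function.update_self, Function.update_self]
    · rw [Function.update_of_ne hk0, Function.update_of_ne hk0, if_neg hk0, if_pos hk, hxv k]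
  constructor
  · rintro ⟨h2, h3⟩
    have hw := NN_trans hC.arith hC.grd hg ha h2
    exact ⟨hw, (key hw).1 h3⟩
  · rintro ⟨hw, h3⟩
    exact ⟨h1 w hw (hn w hw h3), (key hw).2 h3⟩

theorem pair_mem {g : Set ℕ} (hg : Gen A κ g) {x y : ZFSet.{0}} :
    ZFSet.pair x y ∈ NN A κ μ g ↔ x ∈ NN A κ μ g ∧ y ∈ NN A κ μ g := by
  constructor
  · intro h
    have h1 : ({x, y} : ZFSet.{0}) ∈ NN A κ μ g :=
      NN_trans hC.arith hC.grd hg h (by rw [ZFSet.pair, ZFSet.mem_pair]; exact Or.inr rfl)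
    exact ⟨NN_trans hC.arith hC.grd hg h1 (ZFSet.mem_pair.2 (Or.inl rfl)),
      NN_trans hC.arith hC.grd hg h1 (ZFSet.mem_pair.2 (Or.inr rfl))⟩
  · rintro ⟨hx, hy⟩
    have h1 : ({x} : ZFSet.{0}) ∈ NN A κ μ g := by
      have := NN_pair hC.arith hC.grd hg x x hx hx
      rwa [ZFSet.pair_eq_singleton] at this
    exact NN_pair hC.arith hC.grd hg _ _ h1 (NN_pair hC.arith hC.grd hg x y hx hy)

theorem seqZ_apply_mem {g : Set ℕ} (hg : Gen A κ g) {f : ℕ → ZFSet.{0}}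
    (hf : seqZ f ∈ NN A κ μ g) (k : ℕ) : f k ∈ NN A κ μ g :=
  ((pair_mem hC hg).1 (NN_trans hC.arith hC.grd hg hf (pair_mem_seqZ.2 rfl))).2

/-! ### uniformly definable notions -/

omit hC in
theorem NI_arST {j : ℕ} {l : List ZFSet.{0}} (hκ : ∀ n : ℕ, (n : Ordinal.{0}) < κ) :
    NI A κ (.ar j) l ↔ ∃ l' : List ℕ, l = l'.map nz ∧ A j l' := by
  constructor
  · rintro ⟨l', -, rfl, l'', rfl, h⟩
    refine ⟨l'', ?_, h⟩
    rw [List.map_map]
    exact List.map_congr_left fun n _ => (nz_eq n).symm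
  · rintro ⟨l', rfl, h⟩
    refine ⟨l'.map (fun n : ℕ => (n : Ordinal.{0})), ?_, ?_, l', rfl, h⟩
    · intro a ha
      obtain ⟨n, -, rfl⟩ := List.mem_map.1 ha
      exact hκ n
    · rw [List.map_map]
      exact List.map_congr_left fun n _ => nz_eq n

omit hC in
theorem NI_natST {n : ℕ} {y : ZFSet.{0}} (hκ : ∀ n : ℕ, (n : Ordinal.{0}) < κ) :
    NI A κ (.nat n) [y] ↔ y = nz n := by
  constructor
  · rintro ⟨l', -, hl, h⟩
    rcases l' with _ | ⟨a, _ | ⟨b, l'⟩⟩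
    · simp at hl
    · have h2 : a = n := h
      subst h2
      rw [nz_eq]
      simpa using hl
    · simp at hl
  · rintro rfl
    exact ⟨[(n : Ordinal.{0})], by simpa using hκ n, by simp [nz_eq], rfl⟩

omit hC in
theorem NI_omST {y : ZFSet.{0}} (hκ : ∀ n : ℕ, (n : Ordinal.{0}) < κ) :
    NI A κ .om [y] ↔ ∃ n, y = nz n := by
  constructor
  · rintro ⟨l', -, hl, h⟩
    rcases l' with _ | ⟨a, _ | ⟨b, l'⟩⟩
    · simp at hl
    · have h2 : a < ω := h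
      obtain ⟨n, rfl⟩ := lt_omega0.1 h2
      refine ⟨n, ?_⟩
      rw [nz_eq]
      simpa using hl
    · simp at hl
  · rintro ⟨n, rfl⟩
    exact ⟨[(n : Ordinal.{0})], by simpa using hκ n, by simp [nz_eq], natCast_lt_omega0 n⟩

theorem DfN_nat : DfN A κ μ (fun _ v => ∃ n : ℕ, v 0 = nz n) :=
  Df.congr (Df.rel .om [0]) fun _ _ _ => NI_omST hC.nat_lt

theorem DfN_nz (n : ℕ) : DfN A κ μ (fun _ v => v 0 = nz n) :=
  Df.congr (Df.rel (.nat n) [0]) fun _ _ _ => NI_natST hC.nat_lt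

omit hC in
theorem DfN_mem0 : DfN A κ μ (fun _ v => v 0 ∈ v 1) :=
  Df.congr (Df.rel .mem [0, 1]) fun _ v _ => by
    constructor
    · rintro ⟨x, y, h, hxy⟩
      simp only [List.map_cons, List.map_nil, List.cons.injEq, and_true] at h
      rw [h.1, h.2]
      exact hxy
    · intro h
      exact ⟨v 0, v 1, rfl, h⟩

theorem DfN_mem : DfN A κ μ (fun _ v => v 0 ∈ v 1) := by
  have _ := hC
  exact DfN_mem0

/-- substitution in two variables -/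
theorem DfN_mem' (i j : ℕ) : DfN A κ μ (fun _ v => v i ∈ v j) :=
  (DfN_mem hC).subst (fun k => if k = 0 then i else j)

omit hC in
theorem DfN_eq' (i j : ℕ) : DfN A κ μ (fun _ v => v i = v j) := Df.eq i j

theorem DfN_nat' (i : ℕ) : DfN A κ μ (fun _ v => ∃ n : ℕ, v i = nz n) :=
  (DfN_nat hC).subst (fun _ => i)

theorem DfN_nz' (n i : ℕ) : DfN A κ μ (fun _ v => v i = nz n) :=
  (DfN_nz hC n).subst (fun _ => i)

omit hC in
/-- quantifiers over the symmetric extension -/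
theorem DfN.ex {Q : {h : Set ℕ // Gen A κ h} → ZFSet.{0} → (ℕ → ZFSet.{0}) → Prop}
    (h : DfN A κ μ (fun s v => Q s (v 0) (fun k => v (k + 1)))) :
    DfN A κ μ (fun s v => ∃ a ∈ NN A κ μ s.1, Q s a v) := Df.ex h

omit hC in
/-- quantifiers over the symmetric extension -/
theorem DfN.all {Q : {h : Set ℕ // Gen A κ h} → ZFSet.{0} → (ℕ → ZFSet.{0}) → Prop}
    (h : DfN A κ μ (fun s v => Q s (v 0) (fun k => v (k + 1)))) :
    DfN A κ μ (fun s v => ∀ a ∈ NN A κ μ s.1, Q s a v) := Df.all h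

/-- unordered pairs -/
theorem DfN_upair : DfN A κ μ (fun _ v => v 0 = ({v 1, v 2} : ZFSet.{0})) := by
  have h1 : DfN A κ μ (fun s v => ∀ a ∈ NN A κ μ s.1, (a ∈ v 0 ↔ (a = v 1 ∨ a = v 2))) :=
    DfN.all (Q := fun _ a v => (a ∈ v 0 ↔ (a = v 1 ∨ a = v 2)))
      ((DfN_mem' hC 0 1).iff ((DfN_eq' 0 2).or (DfN_eq' 0 3)))
  refine Df.congr h1 fun s v hv => ?_
  constructor
  · intro h
    ext z
    rw [ZFSet.mem_pair]
    constructor
    · intro hz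
      exact (h z (NN_trans hC.arith hC.grd s.2 (hv 0) hz)).1 hz
    · intro hz
      refine (h z ?_).2 hz
      rcases hz with rfl | rfl
      exacts [hv 1, hv 2]
  · intro h a _
    rw [h, ZFSet.mem_pair]

theorem DfN_upair' (i j k : ℕ) : DfN A κ μ (fun _ v => v i = ({v j, v k} : ZFSet.{0})) :=
  (DfN_upair hC).subst (fun n => if n = 0 then i else if n = 1 then j else k)

theorem DfN_pair : DfN A κ μ (fun _ v => v 0 = ZFSet.pair (v 1) (v 2)) := by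
  have h1 : DfN A κ μ (fun s v => ∃ a ∈ NN A κ μ s.1, ∃ b ∈ NN A κ μ s.1,
      (a = ({v 1, v 1} : ZFSet.{0}) ∧ b = ({v 1, v 2} : ZFSet.{0}) ∧
        v 0 = ({a, b} : ZFSet.{0}))) := by
    refine DfN.ex (Q := fun s a v => ∃ b ∈ NN A κ μ s.1, (a = ({v 1, v 1} : ZFSet.{0}) ∧
      b = ({v 1, v 2} : ZFSet.{0}) ∧ v 0 = ({a, b} : ZFSet.{0}))) ?_
    refine DfN.ex (Q := fun s b v => (v 0 = ({v 2, v 2} : ZFSet.{0}) ∧
      b = ({v 2, v 3} : ZFSet.{0}) ∧ v 1 = ({v 0, b} : ZFSet.{0}))) ?_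
    exact (DfN_upair' hC 1 3 3).and ((DfN_upair' hC 0 3 4).and (DfN_upair' hC 2 1 0))
  refine Df.congr h1 fun s v hv => ?_
  constructor
  · rintro ⟨a, _, b, _, rfl, rfl, h⟩
    rw [h, ZFSet.pair, ZFSet.pair_eq_singleton]
  · intro h
    have h2 : ZFSet.pair (v 1) (v 2) ∈ NN A κ μ s.1 := h ▸ hv 0
    refine ⟨{v 1, v 1}, ?_, {v 1, v 2}, ?_, rfl, rfl, ?_⟩
    · exact NN_pair hC.arith hC.grd s.2 _ _ (hv 1) (hv 1)
    · exact NN_pair hC.arith hC.grd s.2 _ _ (hv 1) (hv 2)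
    · rw [h, ZFSet.pair, ZFSet.pair_eq_singleton]

theorem DfN_pair' (i j k : ℕ) : DfN A κ μ (fun _ v => v i = ZFSet.pair (v j) (v k)) :=
  (DfN_pair hC).subst (fun n => if n = 0 then i else if n = 1 then j else k)

theorem DfN_app : DfN A κ μ (fun _ v => ZFSet.pair (v 0) (v 1) ∈ v 2) := by
  have h1 : DfN A κ μ (fun s v => ∃ a ∈ NN A κ μ s.1,
      (a = ZFSet.pair (v 0) (v 1) ∧ a ∈ v 2)) := by
    refine DfN.ex (Q := fun s a v => (a = ZFSet.pair (v 0) (v 1) ∧ a ∈ v 2)) ?_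
    exact (DfN_pair' hC 0 1 2).and (DfN_mem' hC 0 3)
  refine Df.congr h1 fun s v hv => ?_
  constructor
  · rintro ⟨a, _, rfl, h⟩
    exact h
  · intro h
    exact ⟨_, NN_trans hC.arith hC.grd s.2 (hv 2) h, rfl, h⟩

theorem DfN_app' (i j k : ℕ) : DfN A κ μ (fun _ v => ZFSet.pair (v i) (v j) ∈ v k) :=
  (DfN_app hC).subst (fun n => if n = 0 then i else if n = 1 then j else k)

/-- the pairing function on the natural numbers -/
theorem DfN_natpair : DfN A κ μ (fun _ v => ∃ a b : ℕ, v 0 = nz a ∧ v 1 = nz b ∧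
    v 2 = nz (Nat.pair a b)) := by
  refine Df.congr (Df.rel (.ar 7) [0, 1, 2]) fun _ v _ => ?_
  rw [NI_arST hC.nat_lt]
  constructor
  · rintro ⟨l, hl, h⟩
    obtain ⟨a, b, rfl⟩ := (hC.arith.a7 l).1 h
    simp only [List.map_cons, List.map_nil, List.cons.injEq, and_true] at hl
    exact ⟨a, b, hl⟩
  · rintro ⟨a, b, h1, h2, h3⟩
    exact ⟨[a, b, Nat.pair a b], by simp [h1, h2, h3], (hC.arith.a7 _).2 ⟨a, b, rfl⟩⟩

theorem DfN_natpair' (i j k : ℕ) : DfN A κ μ (fun _ v => ∃ a b : ℕ, v i = nz a ∧ v j = nz b ∧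
    v k = nz (Nat.pair a b)) :=
  (DfN_natpair hC).subst (fun n => if n = 0 then i else if n = 1 then j else k)

/-- primitive recursive functions -/
theorem DfN_prim {f : ℕ → ℕ} (hf : Nat.Primrec f) :
    DfN A κ μ (fun _ v => ∃ a : ℕ, v 0 = nz a ∧ v 1 = nz (f a)) := by
  obtain ⟨i, hi⟩ := hC.prim f hf
  have h1 : DfN A κ μ (fun s v => ∃ c ∈ NN A κ μ s.1, ((∃ a b : ℕ, v 0 = nz a ∧ v 1 = nz b ∧
    c = nz (Nat.pair a b)) ∧ NI A κ (.ar (12 + i)) [c])) := by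
    refine DfN.ex (Q := fun s c v => ((∃ a b : ℕ, v 0 = nz a ∧ v 1 = nz b ∧
      c = nz (Nat.pair a b)) ∧ NI A κ (.ar (12 + i)) [c])) ?_
    exact (DfN_natpair' hC 1 2 0).and (Df.rel (.ar (12 + i)) [0])
  refine Df.congr h1 fun s v hv => ?_
  constructor
  · rintro ⟨c, _, ⟨a, b, h2, h3, rfl⟩, h4⟩
    rw [NI_arST hC.nat_lt] at h4
    obtain ⟨l, hl, h⟩ := h4
    obtain ⟨n, rfl, hn⟩ := (hC.ar.fam i l).1 h
    rw [hi] at hn
    obtain ⟨x, rfl⟩ := hn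
    simp only [List.map_cons, List.map_nil, List.cons.injEq, and_true] at hl
    rw [nz_inj] at hl
    obtain ⟨rfl, rfl⟩ := Nat.pair_eq_pair.1 hl
    exact ⟨_, h2, h3⟩
  · rintro ⟨a, h2, h3⟩
    refine ⟨nz (Nat.pair a (f a)), nz_mem hC s.2 _, ⟨a, f a, h2, h3, rfl⟩, ?_⟩
    rw [NI_arST hC.nat_lt]
    refine ⟨[Nat.pair a (f a)], rfl, (hC.ar.fam i _).2 ⟨_, rfl, ?_⟩⟩
    rw [hi]
    exact ⟨a, rfl⟩

theorem DfN_prim' {f : ℕ → ℕ} (hf : Nat.Primrec f) (i j : ℕ) :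
    DfN A κ μ (fun _ v => ∃ a : ℕ, v i = nz a ∧ v j = nz (f a)) :=
  (DfN_prim hC hf).subst (fun n => if n = 0 then i else j)

theorem DfN_ar {P : ℕ → ℕ → ℕ → Prop}
    (hP : PrimrecPred (fun x : ℕ × ℕ × ℕ => P x.1 x.2.1 x.2.2)) :
    DfN A κ μ (fun _ v => ∃ a b c : ℕ, v 0 = nz a ∧ v 1 = nz b ∧ v 2 = nz c ∧ P a b c) := by
  classical
  -- the characteristic function on codes
  have hf : Nat.Primrec (fun n : ℕ => if P n.unpair.1 n.unpair.2.unpair.1 n.unpair.2.unpair.2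
      then 1 else 0) := by
    rw [← Primrec.nat_iff]
    have h0 : Primrec (fun n : ℕ => ((n.unpair.1, (n.unpair.2.unpair.1, n.unpair.2.unpair.2)) :
        ℕ × ℕ × ℕ)) := by
      have hu : Primrec (fun n : ℕ => n.unpair) := Primrec.unpair
      have h1 : Primrec (fun n : ℕ => n.unpair.1) := Primrec.fst.comp hu
      have h2 : Primrec (fun n : ℕ => n.unpair.2) := Primrec.snd.comp hu
      exact h1.pair ((h1.comp h2).pair (h2.comp h2))
    exact Primrec.ite (hP.comp h0) (Primrec.const 1) (Primrec.const 0)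
  have h1 : DfN A κ μ (fun s v => ∃ d ∈ NN A κ μ s.1, ∃ e ∈ NN A κ μ s.1, ∃ t ∈ NN A κ μ s.1,
      ((∃ b c : ℕ, v 1 = nz b ∧ v 2 = nz c ∧ d = nz (Nat.pair b c)) ∧
       (∃ a b : ℕ, v 0 = nz a ∧ d = nz b ∧ e = nz (Nat.pair a b)) ∧
       t = nz 1 ∧ (∃ a : ℕ, e = nz a ∧ t = nz (if P a.unpair.1 a.unpair.2.unpair.1
        a.unpair.2.unpair.2 then 1 else 0)))) := by
    refine DfN.ex (Q := fun s d v => ∃ e ∈ NN A κ μ s.1, ∃ t ∈ NN A κ μ s.1,
      ((∃ b c : ℕ, v 1 = nz b ∧ v 2 = nz c ∧ d = nz (Nat.pair b c)) ∧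
       (∃ a b : ℕ, v 0 = nz a ∧ d = nz b ∧ e = nz (Nat.pair a b)) ∧
       t = nz 1 ∧ (∃ a : ℕ, e = nz a ∧ t = nz (if P a.unpair.1 a.unpair.2.unpair.1
        a.unpair.2.unpair.2 then 1 else 0)))) ?_
    refine DfN.ex (Q := fun s e v => ∃ t ∈ NN A κ μ s.1,
      ((∃ b c : ℕ, v 2 = nz b ∧ v 3 = nz c ∧ v 0 = nz (Nat.pair b c)) ∧
       (∃ a b : ℕ, v 1 = nz a ∧ v 0 = nz b ∧ e = nz (Nat.pair a b)) ∧
       t = nz 1 ∧ (∃ a : ℕ, e = nz a ∧ t = nz (if P a.unpair.1 a.unpair.2.unpair.1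
        a.unpair.2.unpair.2 then 1 else 0)))) ?_
    refine DfN.ex (Q := fun s t v =>
      ((∃ b c : ℕ, v 3 = nz b ∧ v 4 = nz c ∧ v 1 = nz (Nat.pair b c)) ∧
       (∃ a b : ℕ, v 2 = nz a ∧ v 1 = nz b ∧ v 0 = nz (Nat.pair a b)) ∧
       t = nz 1 ∧ (∃ a : ℕ, v 0 = nz a ∧ t = nz (if P a.unpair.1 a.unpair.2.unpair.1
        a.unpair.2.unpair.2 then 1 else 0)))) ?_
    exact (DfN_natpair' hC 4 5 2).and ((DfN_natpair' hC 3 2 1).and
      ((DfN_nz' hC 1 0).and (DfN_prim' hC hf 1 0)))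
  refine Df.congr h1 fun s v hv => ?_
  constructor
  · rintro ⟨d, _, e, _, t, _, ⟨b, c, hb, hc, rfl⟩, ⟨a, b', ha, hb', rfl⟩, rfl, ⟨a', ha', hc'⟩⟩
    rw [nz_inj] at hb' ha' hc'
    subst hb'
    subst ha'
    simp only [Nat.unpair_pair] at hc'
    refine ⟨a, b, c, ha, hb, hc, ?_⟩
    by_contra hn
    rw [if_neg hn] at hc'
    exact one_ne_zero hc'
  · rintro ⟨a, b, c, ha, hb, hc, h⟩
    refine ⟨_, nz_mem hC s.2 _, _, nz_mem hC s.2 _, _, nz_mem hC s.2 _, ⟨b, c, hb, hc, rfl⟩,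
      ⟨a, _, ha, rfl, rfl⟩, rfl, ⟨_, rfl, ?_⟩⟩
    simp only [Nat.unpair_pair, if_pos h]

end

end Pool.Agent.CC
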