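import Mathlib
import Pool.Agent.Lib.MP_bf67b0_lc.Defs2
import Pool.Agent.Lib.MP_bf67b0_lc.NSep
import Pool.Agent.Lib.MP_bf67b0_lc.SetTheory

/-!
Q6b: uniform definability of reals, of their graphs and of trees in the symmetric extensions.
-/

set_option autoImplicit false

namespace Pool.Agent.CC

open Ordinal Set

namespace ST2

/-! ### semantic characterisations -/

theorem mem_rz {x : ℕ → ℕ} {y : ZFSet.{0}} :
    y ∈ rz x ↔ ∃ n : ℕ, y = ZFSet.pair (nz n) (nz (x n)) := by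
  unfold rz seqZ
  rw [ZFSet.mem_range]
  constructor
  · rintro ⟨n, rfl⟩; exact ⟨n, rfl⟩
  · rintro ⟨n, rfl⟩; exact ⟨n, rfl⟩

theorem pair_mem_rz {x : ℕ → ℕ} {a b : ℕ} :
    ZFSet.pair (nz a) (nz b) ∈ rz x ↔ b = x a := by
  rw [mem_rz]
  constructor
  · rintro ⟨n, h⟩
    rw [ZFSet.pair_inj, nz_inj, nz_inj] at h
    rw [h.2, h.1]
  · rintro rfl
    exact ⟨a, rfl⟩

theorem mem_sz {S : Set ℕ} {y : ZFSet.{0}} : y ∈ sz S ↔ ∃ n ∈ S, y = nz n := by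
  unfold sz
  rw [ZFSet.mem_range]
  constructor
  · rintro ⟨n, rfl⟩; exact ⟨n.1, n.2, rfl⟩
  · rintro ⟨n, hn, rfl⟩; exact ⟨⟨n, hn⟩, rfl⟩

theorem nz_mem_sz {S : Set ℕ} {n : ℕ} : nz n ∈ sz S ↔ n ∈ S := by
  rw [mem_sz]
  constructor
  · rintro ⟨m, hm, h⟩
    rwa [nz_inj.1 h]
  · intro h
    exact ⟨n, h, rfl⟩

/-- the set `y` is a real -/
theorem exists_rz_iff {y : ZFSet.{0}} : (∃ x : ℕ → ℕ, y = rz x) ↔
    (∀ t ∈ y, ∃ a b : ℕ, t = ZFSet.pair (nz a) (nz b)) ∧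
      ∀ a : ℕ, ∃ b : ℕ, ZFSet.pair (nz a) (nz b) ∈ y ∧
        ∀ c : ℕ, ZFSet.pair (nz a) (nz c) ∈ y → nz c = nz b := by
  constructor
  · rintro ⟨x, rfl⟩
    refine ⟨fun t ht => ?_, fun a => ⟨x a, pair_mem_rz.2 rfl, fun c hc => ?_⟩⟩
    · obtain ⟨n, rfl⟩ := mem_rz.1 ht
      exact ⟨n, x n, rfl⟩
    · rw [pair_mem_rz.1 hc]
  · rintro ⟨h1, h2⟩
    choose x hx1 hx2 using h2
    refine ⟨x, ZFSet.ext fun t => ?_⟩
    rw [mem_rz]
    constructor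
    · intro ht
      obtain ⟨a, b, rfl⟩ := h1 t ht
      exact ⟨a, by rw [hx2 a b ht]⟩
    · rintro ⟨n, rfl⟩
      exact hx1 n

/-- the set `y` is a set of natural numbers -/
theorem exists_sz_iff {y : ZFSet.{0}} : (∃ S : Set ℕ, y = sz S) ↔ ∀ t ∈ y, ∃ a : ℕ, t = nz a := by
  constructor
  · rintro ⟨S, rfl⟩ t ht
    obtain ⟨n, -, rfl⟩ := mem_sz.1 ht
    exact ⟨n, rfl⟩
  · intro h
    refine ⟨{n | nz n ∈ y}, ZFSet.ext fun t => ?_⟩
    rw [mem_sz]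
    constructor
    · intro ht
      obtain ⟨a, rfl⟩ := h t ht
      exact ⟨a, ht, rfl⟩
    · rintro ⟨n, hn, rfl⟩
      exact hn

/-- arithmetical relations between sets -/
def ArP (P : ℕ → ℕ → ℕ → Prop) (x y z : ZFSet.{0}) : Prop :=
  ∃ a b c : ℕ, x = nz a ∧ y = nz b ∧ z = nz c ∧ P a b c

theorem ArP_nz {P : ℕ → ℕ → ℕ → Prop} {a b c : ℕ} : ArP P (nz a) (nz b) (nz c) ↔ P a b c := by
  constructor
  · rintro ⟨a', b', c', h1, h2, h3, h⟩
    rwa [nz_inj.1 h1, nz_inj.1 h2, nz_inj.1 h3]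
  · intro h
    exact ⟨a, b, c, rfl, rfl, rfl, h⟩

/-- `c = ⟨a, b⟩` -/
def PPair (a b c : ℕ) : Prop := c = Nat.pair a b
/-- the `i`-th entry of the list coded by `c` is `a` -/
def PEnt (c i a : ℕ) : Prop := (Denumerable.ofNat (List ℕ) c)[i]? = some a
/-- `i = 2 * j` -/
def PDbl (i j _ : ℕ) : Prop := i = 2 * j
/-- `i = 2 * j + 1` -/
def PDbl1 (i j _ : ℕ) : Prop := i = 2 * j + 1

theorem PPair_prim : PrimrecPred (fun x : ℕ × ℕ × ℕ => PPair x.1 x.2.1 x.2.2) :=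
  Primrec.eq.comp (Primrec.snd.comp Primrec.snd)
    (Primrec₂.natPair.comp Primrec.fst (Primrec.fst.comp Primrec.snd))

theorem PEnt_prim : PrimrecPred (fun x : ℕ × ℕ × ℕ => PEnt x.1 x.2.1 x.2.2) :=
  Primrec.eq.comp
    (Primrec.list_getElem?.comp ((Primrec.ofNat (List ℕ)).comp Primrec.fst)
      (Primrec.fst.comp Primrec.snd))
    (Primrec.option_some.comp (Primrec.snd.comp Primrec.snd))

theorem PDbl_prim : PrimrecPred (fun x : ℕ × ℕ × ℕ => PDbl x.1 x.2.1 x.2.2) :=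
  Primrec.eq.comp Primrec.fst
    (Primrec.nat_mul.comp (Primrec.const 2) (Primrec.fst.comp Primrec.snd))

theorem PDbl1_prim : PrimrecPred (fun x : ℕ × ℕ × ℕ => PDbl1 x.1 x.2.1 x.2.2) :=
  Primrec.eq.comp Primrec.fst
    (Primrec.succ.comp (Primrec.nat_mul.comp (Primrec.const 2) (Primrec.fst.comp Primrec.snd)))

theorem encode_ofNat_list (c : ℕ) :
    Encodable.encode (Denumerable.ofNat (List ℕ) c) = c := Denumerable.encode_ofNat c

/-- the set `y` codes a tree -/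
theorem exists_tree_iff {y : ZFSet.{0}} :
    (∃ T : Set (List ℕ), y = sz (Encodable.encode '' T) ∧ IsTree T) ↔
    (∀ t ∈ y, ∃ a : ℕ, t = nz a) ∧ ∀ c d : ℕ,
      (∀ i a : ℕ, ArP PEnt (nz c) (nz i) (nz a) → ArP PEnt (nz d) (nz i) (nz a)) →
        nz d ∈ y → nz c ∈ y := by
  constructor
  · rintro ⟨T, rfl, hT⟩
    refine ⟨fun t ht => ?_, fun c d hcd hd => ?_⟩
    · obtain ⟨n, -, rfl⟩ := mem_sz.1 ht
      exact ⟨n, rfl⟩
    · simp only [ArP_nz] at hcd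
      rw [nz_mem_sz] at hd ⊢
      obtain ⟨t, ht, rfl⟩ := hd
      refine ⟨Denumerable.ofNat (List ℕ) c, ?_, encode_ofNat_list c⟩
      refine hT _ _ ?_ ht
      unfold PEnt at hcd
      rw [Denumerable.ofNat_encode] at hcd
      rw [List.prefix_iff_getElem?]
      intro i hi
      exact hcd i _ (List.getElem?_eq_getElem hi)
  · rintro ⟨h1, h2⟩
    refine ⟨{s | nz (Encodable.encode s) ∈ y}, ZFSet.ext fun t => ?_, ?_⟩
    · rw [mem_sz]
      constructor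
      · intro ht
        obtain ⟨a, rfl⟩ := h1 t ht
        refine ⟨a, ⟨Denumerable.ofNat (List ℕ) a, ?_, encode_ofNat_list a⟩, rfl⟩
        change nz (Encodable.encode (Denumerable.ofNat (List ℕ) a)) ∈ y
        rw [encode_ofNat_list]
        exact ht
      · rintro ⟨n, ⟨s, hs, rfl⟩, rfl⟩
        exact hs
    · intro s t hst ht
      refine h2 _ _ ?_ ht
      intro i a
      rw [ArP_nz, ArP_nz]
      unfold PEnt
      rw [Denumerable.ofNat_encode, Denumerable.ofNat_encode]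
      intro hi
      obtain ⟨r, rfl⟩ := hst
      rw [List.getElem?_append_left]
      · exact hi
      · exact (List.getElem?_eq_some_iff.1 hi).1

theorem rs_getElem? (f : ℕ → ℕ) (n i a : ℕ) : (rs f n)[i]? = some a ↔ i < n ∧ a = f i := by
  unfold rs
  rw [List.getElem?_map, Option.map_eq_some_iff]
  simp only [List.getElem?_eq_some_iff, List.length_range, List.getElem_range]
  constructor
  · rintro ⟨a', ⟨h, rfl⟩, rfl⟩
    exact ⟨h, rfl⟩
  · rintro ⟨h, rfl⟩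
    exact ⟨i, ⟨h, rfl⟩, rfl⟩

theorem eq_rs_of {f : ℕ → ℕ} {s : List ℕ} (h : ∀ i a, s[i]? = some a → a = f i) :
    s = rs f s.length := by
  apply List.ext_getElem?
  intro i
  by_cases hi : i < s.length
  · rw [List.getElem?_eq_getElem hi]
    rw [h i _ (List.getElem?_eq_getElem hi)]
    exact ((rs_getElem? f _ i (f i)).2 ⟨hi, rfl⟩).symm
  · rw [List.getElem?_eq_none (not_lt.1 hi), List.getElem?_eq_none]
    simpa [rs] using hi

/-- the branch of the tree -/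
theorem branch_iff {x y : ℕ → ℕ} {T : Set (List ℕ)} :
    (∀ n, rs (pr x y) n ∈ T) ↔ ∀ c : ℕ, (∀ i a : ℕ, ArP PEnt (nz c) (nz i) (nz a) →
      (∀ j : ℕ, ArP PDbl (nz i) (nz j) (nz j) → ZFSet.pair (nz j) (nz a) ∈ rz x) ∧
      (∀ j : ℕ, ArP PDbl1 (nz i) (nz j) (nz j) → ZFSet.pair (nz j) (nz a) ∈ rz y)) →
      nz c ∈ sz (Encodable.encode '' T) := by
  have key : ∀ i a : ℕ, ((∀ j : ℕ, ArP PDbl (nz i) (nz j) (nz j) →
      ZFSet.pair (nz j) (nz a) ∈ rz x) ∧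
      (∀ j : ℕ, ArP PDbl1 (nz i) (nz j) (nz j) → ZFSet.pair (nz j) (nz a) ∈ rz y)) ↔
      a = pr x y i := by
    intro i a
    simp only [ArP_nz, pair_mem_rz, PDbl, PDbl1, pr]
    rcases Nat.even_or_odd' i with ⟨k, hk | hk⟩
    · subst hk
      rw [if_pos (by omega)]
      have h2 : 2 * k / 2 = k := by omega
      rw [h2]
      constructor
      · rintro ⟨h1, -⟩
        exact h1 k rfl
      · intro h
        refine ⟨fun j hj => ?_, fun j hj => by omega⟩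
        obtain rfl : k = j := by omega
        exact h
    · subst hk
      rw [if_neg (by omega)]
      have h2 : (2 * k + 1) / 2 = k := by omega
      rw [h2]
      constructor
      · rintro ⟨-, h1⟩
        exact h1 k rfl
      · intro h
        refine ⟨fun j hj => by omega, fun j hj => ?_⟩
        obtain rfl : k = j := by omega
        exact h
  simp only [key]
  simp only [ArP_nz, nz_mem_sz]
  constructor
  · intro h c hc
    refine ⟨Denumerable.ofNat (List ℕ) c, ?_, encode_ofNat_list c⟩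
    rw [eq_rs_of hc]
    exact h _
  · intro h n
    obtain ⟨s, hs, hs'⟩ := h (Encodable.encode (rs (pr x y) n)) (by
      intro i a hia
      unfold PEnt at hia
      rw [Denumerable.ofNat_encode] at hia
      exact ((rs_getElem? _ _ _ _).1 hia).2)
    rw [← Encodable.encode_injective hs']
    exact hs

/-! ### definability -/

section
variable {𝓕 : ℕ → Set ℕ} {A : ℕ → List ℕ → Prop} {κ μ : Ordinal.{0}} (hC : Ctx 𝓕 A κ μ)
include hC

theorem DfN_mem' (i j : ℕ) : DfN A κ μ (fun _ v => v i ∈ v j) :=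
  (DfN_mem hC).subst (fun k => match k with | 0 => i | _ => j)

theorem DfN_app' (i j k : ℕ) : DfN A κ μ (fun _ v => ZFSet.pair (v i) (v j) ∈ v k) :=
  (DfN_app hC).subst (fun l => match l with | 0 => i | 1 => j | _ => k)

theorem DfN_pair' (i j k : ℕ) : DfN A κ μ (fun _ v => v i = ZFSet.pair (v j) (v k)) :=
  (DfN_pair hC).subst (fun l => match l with | 0 => i | 1 => j | _ => k)

theorem DfN_ar' {P : ℕ → ℕ → ℕ → Prop}
    (hP : PrimrecPred (fun x : ℕ × ℕ × ℕ => P x.1 x.2.1 x.2.2)) (i j k : ℕ) :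
    DfN A κ μ (fun _ v => ArP P (v i) (v j) (v k)) :=
  (DfN_ar hC hP).subst (fun l => match l with | 0 => i | 1 => j | _ => k)

omit hC in
theorem DfN_eq' (i j : ℕ) : DfN A κ μ (fun _ v => v i = v j) := Df.eq i j

/-- quantifier over natural numbers -/
theorem DfN.allNat {Q : {h : Set ℕ // Gen A κ h} → ZFSet.{0} → (ℕ → ZFSet.{0}) → Prop}
    (h : DfN A κ μ (fun s v => Q s (v 0) (fun k => v (k + 1)))) :
    DfN A κ μ (fun s v => ∀ n : ℕ, Q s (nz n) v) := by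
  have h1 : DfN A κ μ (fun s v => ∀ a ∈ NN A κ μ s.1, (∃ n : ℕ, a = nz n) → Q s a v) :=
    Df.all (Q := fun s a v => (∃ n : ℕ, a = nz n) → Q s a v) ((DfN_nat hC).imp h)
  refine h1.congr fun s v _ => ?_
  constructor
  · intro h n
    exact h _ (nz_mem hC s.2 n) ⟨n, rfl⟩
  · rintro h a _ ⟨n, rfl⟩
    exact h n

theorem DfN.exNat {Q : {h : Set ℕ // Gen A κ h} → ZFSet.{0} → (ℕ → ZFSet.{0}) → Prop}
    (h : DfN A κ μ (fun s v => Q s (v 0) (fun k => v (k + 1)))) :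
    DfN A κ μ (fun s v => ∃ n : ℕ, Q s (nz n) v) := by
  have h1 := (DfN.allNat hC (Q := fun s a v => ¬ Q s a v) h.not).not
  refine h1.congr fun s v _ => ?_
  push Not
  rfl

/-- bounded quantifier -/
theorem DfN.allMem {Q : {h : Set ℕ // Gen A κ h} → ZFSet.{0} → (ℕ → ZFSet.{0}) → Prop} (j : ℕ)
    (h : DfN A κ μ (fun s v => Q s (v 0) (fun k => v (k + 1)))) :
    DfN A κ μ (fun s v => ∀ t ∈ v j, Q s t v) := by
  have h1 : DfN A κ μ (fun s v => ∀ a ∈ NN A κ μ s.1, a ∈ v j → Q s a v) :=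
    Df.all (Q := fun s a v => a ∈ v j → Q s a v) ((DfN_mem' hC 0 (j + 1)).imp h)
  refine h1.congr fun s v hv => ?_
  constructor
  · intro h t ht
    exact h t (NN_trans hC.ar.toArith hC.grd s.2 (hv j) ht) ht
  · intro h t _ ht
    exact h t ht

theorem DfN_isRz (i : ℕ) : DfN A κ μ (fun _ v => ∃ x : ℕ → ℕ, v i = rz x) := by
  have h1 : DfN A κ μ (fun _ v => ∀ t ∈ v i, ∃ a b : ℕ, t = ZFSet.pair (nz a) (nz b)) :=
    DfN.allMem hC (Q := fun _ t _ => ∃ a b : ℕ, t = ZFSet.pair (nz a) (nz b)) i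
      (DfN.exNat hC (Q := fun _ a v => ∃ b : ℕ, v 0 = ZFSet.pair a (nz b))
        (DfN.exNat hC (Q := fun _ b v => v 1 = ZFSet.pair (v 0) b) (DfN_pair' hC 2 1 0)))
  have h2 : DfN A κ μ (fun _ v => ∀ a : ℕ, ∃ b : ℕ, ZFSet.pair (nz a) (nz b) ∈ v i ∧
        ∀ c : ℕ, ZFSet.pair (nz a) (nz c) ∈ v i → nz c = nz b) :=
    DfN.allNat hC (Q := fun _ a v => ∃ b : ℕ, ZFSet.pair a (nz b) ∈ v i ∧
        ∀ c : ℕ, ZFSet.pair a (nz c) ∈ v i → nz c = nz b)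
      (DfN.exNat hC (Q := fun _ b v => ZFSet.pair (v 0) b ∈ v (i + 1) ∧
        ∀ c : ℕ, ZFSet.pair (v 0) (nz c) ∈ v (i + 1) → nz c = b)
        ((DfN_app' hC 1 0 (i + 2)).and
          (DfN.allNat hC (Q := fun _ c v => ZFSet.pair (v 1) c ∈ v (i + 2) → c = v 0)
            ((DfN_app' hC 2 0 (i + 3)).imp (DfN_eq' 0 1)))))
  exact (h1.and h2).congr fun s v _ => exists_rz_iff.symm

theorem DfN_rz_aux : DfN A κ μ (fun _ v => ∃ x : ℕ → ℕ, v 0 = rz x ∧ v 1 = sz (gr x)) := by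
  have h1 : DfN A κ μ (fun _ v => ∀ t ∈ v 1, ∃ c : ℕ, t = nz c) :=
    DfN.allMem hC (Q := fun _ t _ => ∃ c : ℕ, t = nz c) 1 (DfN_nat hC)
  have h2 : DfN A κ μ (fun _ v => ∀ c : ℕ, (nz c ∈ v 1 ↔ ∃ a b : ℕ,
      ArP PPair (nz a) (nz b) (nz c) ∧ ZFSet.pair (nz a) (nz b) ∈ v 0)) :=
    DfN.allNat hC (Q := fun _ c v => (c ∈ v 1 ↔ ∃ a b : ℕ,
      ArP PPair (nz a) (nz b) c ∧ ZFSet.pair (nz a) (nz b) ∈ v 0))
      ((DfN_mem' hC 0 2).iff
        (DfN.exNat hC (Q := fun _ a v => ∃ b : ℕ,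
          ArP PPair a (nz b) (v 0) ∧ ZFSet.pair a (nz b) ∈ v 1)
          (DfN.exNat hC (Q := fun _ b v => ArP PPair (v 0) b (v 1) ∧ ZFSet.pair (v 0) b ∈ v 2)
            ((DfN_ar' hC PPair_prim 1 0 2).and (DfN_app' hC 1 0 3)))))
  refine (((DfN_isRz hC 0).and h1).and h2).congr fun s v _ => ?_
  constructor
  · rintro ⟨⟨⟨x, hx⟩, h1⟩, h2⟩
    refine ⟨x, hx, ?_⟩
    obtain ⟨S, hS⟩ := exists_sz_iff.2 h1
    rw [hS, sz_inj]
    ext c
    have := h2 c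
    rw [hS, hx, nz_mem_sz] at this
    rw [this]
    simp only [ArP_nz, pair_mem_rz, PPair]
    constructor
    · rintro ⟨a, b, h, rfl⟩
      exact ⟨a, h⟩
    · rintro ⟨a, h⟩
      exact ⟨a, x a, h, rfl⟩
  · rintro ⟨x, h0, h1⟩
    rw [h0, h1]
    refine ⟨⟨⟨x, rfl⟩, exists_sz_iff.1 ⟨_, rfl⟩⟩, fun c => ?_⟩
    rw [nz_mem_sz]
    simp only [ArP_nz, pair_mem_rz, PPair]
    constructor
    · rintro ⟨a, h⟩
      exact ⟨a, x a, h, rfl⟩
    · rintro ⟨a, b, h, rfl⟩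
      exact ⟨a, h⟩

theorem DfN_isTree' (l : ℕ) : DfN A κ μ (fun _ v => ∃ (T : Set (List ℕ)),
    v l = sz (Encodable.encode '' T) ∧ IsTree T) := by
  have h1 : DfN A κ μ (fun _ v => ∀ t ∈ v l, ∃ c : ℕ, t = nz c) :=
    DfN.allMem hC (Q := fun _ t _ => ∃ c : ℕ, t = nz c) l (DfN_nat hC)
  have h2 : DfN A κ μ (fun _ v => ∀ c d : ℕ,
      (∀ i a : ℕ, ArP PEnt (nz c) (nz i) (nz a) → ArP PEnt (nz d) (nz i) (nz a)) →
        nz d ∈ v l → nz c ∈ v l) :=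
    DfN.allNat hC (Q := fun _ c v => ∀ d : ℕ,
      (∀ i a : ℕ, ArP PEnt c (nz i) (nz a) → ArP PEnt (nz d) (nz i) (nz a)) →
        nz d ∈ v l → c ∈ v l)
      (DfN.allNat hC (Q := fun _ d v =>
        (∀ i a : ℕ, ArP PEnt (v 0) (nz i) (nz a) → ArP PEnt d (nz i) (nz a)) →
          d ∈ v (l + 1) → v 0 ∈ v (l + 1))
        ((DfN.allNat hC (Q := fun _ i v => ∀ a : ℕ, ArP PEnt (v 1) i (nz a) →
            ArP PEnt (v 0) i (nz a))
          (DfN.allNat hC (Q := fun _ a v => ArP PEnt (v 2) (v 0) a → ArP PEnt (v 1) (v 0) a)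
            ((DfN_ar' hC PEnt_prim 3 1 0).imp (DfN_ar' hC PEnt_prim 2 1 0)))).imp
          ((DfN_mem' hC 0 (l + 2)).imp (DfN_mem' hC 1 (l + 2)))))
  exact (h1.and h2).congr fun s v _ => exists_tree_iff.symm


/-- the `n`-th node of the pair of reals coded by `v 0` and `v 1` belongs to the tree `v 2` -/
theorem DfN_tree_aux : DfN A κ μ (fun _ v => ∃ (x y : ℕ → ℕ) (T : Set (List ℕ)), v 0 = rz x ∧
    v 1 = rz y ∧ v 2 = sz (Encodable.encode '' T) ∧ IsTree T ∧ ∀ n, rs (pr x y) n ∈ T) := by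
  have h2 : DfN A κ μ (fun _ v => ∀ c : ℕ, (∀ i a : ℕ, ArP PEnt (nz c) (nz i) (nz a) →
      (∀ j : ℕ, ArP PDbl (nz i) (nz j) (nz j) → ZFSet.pair (nz j) (nz a) ∈ v 0) ∧
      (∀ j : ℕ, ArP PDbl1 (nz i) (nz j) (nz j) → ZFSet.pair (nz j) (nz a) ∈ v 1)) →
      nz c ∈ v 2) :=
    DfN.allNat hC (Q := fun _ c v => (∀ i a : ℕ, ArP PEnt c (nz i) (nz a) →
      (∀ j : ℕ, ArP PDbl (nz i) (nz j) (nz j) → ZFSet.pair (nz j) (nz a) ∈ v 0) ∧
      (∀ j : ℕ, ArP PDbl1 (nz i) (nz j) (nz j) → ZFSet.pair (nz j) (nz a) ∈ v 1)) →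
      c ∈ v 2)
      ((DfN.allNat hC (Q := fun _ i v => ∀ a : ℕ, ArP PEnt (v 0) i (nz a) →
        (∀ j : ℕ, ArP PDbl i (nz j) (nz j) → ZFSet.pair (nz j) (nz a) ∈ v 1) ∧
        (∀ j : ℕ, ArP PDbl1 i (nz j) (nz j) → ZFSet.pair (nz j) (nz a) ∈ v 2))
        (DfN.allNat hC (Q := fun _ a v => ArP PEnt (v 1) (v 0) a →
          (∀ j : ℕ, ArP PDbl (v 0) (nz j) (nz j) → ZFSet.pair (nz j) a ∈ v 2) ∧
          (∀ j : ℕ, ArP PDbl1 (v 0) (nz j) (nz j) → ZFSet.pair (nz j) a ∈ v 3))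
          ((DfN_ar' hC PEnt_prim 2 1 0).imp
            ((DfN.allNat hC (Q := fun _ j v => ArP PDbl (v 1) j j → ZFSet.pair j (v 0) ∈ v 3)
              ((DfN_ar' hC PDbl_prim 2 0 0).imp (DfN_app' hC 0 1 4))).and
            (DfN.allNat hC (Q := fun _ j v => ArP PDbl1 (v 1) j j → ZFSet.pair j (v 0) ∈ v 4)
              ((DfN_ar' hC PDbl1_prim 2 0 0).imp (DfN_app' hC 0 1 5))))))).imp
        (DfN_mem' hC 0 3))
  refine ((((DfN_isRz hC 0).and (DfN_isRz hC 1)).and (DfN_isTree' hC 2)).and h2).congr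
    fun s v _ => ?_
  constructor
  · rintro ⟨⟨⟨⟨x, hx⟩, ⟨y, hy⟩⟩, ⟨T, hT, hT'⟩⟩, h⟩
    refine ⟨x, y, T, hx, hy, hT, hT', ?_⟩
    rw [hx, hy, hT] at h
    exact branch_iff.2 h
  · rintro ⟨x, y, T, hx, hy, hT, hT', h⟩
    refine ⟨⟨⟨⟨x, hx⟩, ⟨y, hy⟩⟩, ⟨T, hT, hT'⟩⟩, ?_⟩
    rw [hx, hy, hT]
    exact branch_iff.1 h

theorem rz_mem_iff_aux {g : Set ℕ} (hg : Gen A κ g) (x : ℕ → ℕ) :
    rz x ∈ NN A κ μ g ↔ gr x ∈ RR A κ μ g := by
  constructor
  · intro h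
    have hd : DfN A κ μ (fun _ v => ∃ a b : ℕ,
        ArP PPair (nz a) (nz b) (v 0) ∧ ZFSet.pair (nz a) (nz b) ∈ v 1) :=
      DfN.exNat hC (Q := fun _ a v => ∃ b : ℕ,
        ArP PPair a (nz b) (v 0) ∧ ZFSet.pair a (nz b) ∈ v 1)
        (DfN.exNat hC (Q := fun _ b v => ArP PPair (v 0) b (v 1) ∧ ZFSet.pair (v 0) b ∈ v 2)
          ((DfN_ar' hC PPair_prim 1 0 2).and (DfN_app' hC 1 0 3)))
    obtain ⟨b, hb, hb'⟩ := N_comp hC hg hd (fun _ => rz x) (fun _ => h) 0 (by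
      rintro y _ ⟨a, b, ⟨_, _, c, _, _, hc, _⟩, _⟩
      exact ⟨c, by simpa using hc⟩)
    have : b = sz (gr x) := by
      ext y
      rw [hb', mem_sz]
      simp only [Function.update_self, ne_eq, one_ne_zero, not_false_eq_true,
        Function.update_of_ne, pair_mem_rz]
      constructor
      · rintro ⟨_, a, b, h1, rfl⟩
        obtain ⟨_, _, c, h1, h2, rfl, h3⟩ := h1
        rw [← nz_inj.1 h1, ← nz_inj.1 h2] at h3
        exact ⟨c, ⟨a, h3⟩, rfl⟩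
      · rintro ⟨c, ⟨a, hc⟩, rfl⟩
        exact ⟨nz_mem hC hg c, a, x a, ArP_nz.2 hc, rfl⟩
    change sz (gr x) ∈ NN A κ μ g
    rw [← this]
    exact hb
  · intro h
    have hd : DfN A κ μ (fun _ v => ∃ a b c : ℕ,
        v 0 = ZFSet.pair (nz a) (nz b) ∧ ArP PPair (nz a) (nz b) (nz c) ∧ nz c ∈ v 1) :=
      DfN.exNat hC (Q := fun _ a v => ∃ b c : ℕ,
        v 0 = ZFSet.pair a (nz b) ∧ ArP PPair a (nz b) (nz c) ∧ nz c ∈ v 1)
        (DfN.exNat hC (Q := fun _ b v => ∃ c : ℕ,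
          v 1 = ZFSet.pair (v 0) b ∧ ArP PPair (v 0) b (nz c) ∧ nz c ∈ v 2)
          (DfN.exNat hC (Q := fun _ c v =>
            v 2 = ZFSet.pair (v 1) (v 0) ∧ ArP PPair (v 1) (v 0) c ∧ c ∈ v 3)
            ((DfN_pair' hC 3 2 1).and ((DfN_ar' hC PPair_prim 2 1 0).and (DfN_mem' hC 0 4)))))
    obtain ⟨b, hb, hb'⟩ := N_comp hC hg hd (fun _ => sz (gr x)) (fun _ => h) 2 (by
      rintro y _ ⟨a, b, c, h1, _⟩
      simp only [Function.update_self] at h1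
      subst h1
      intro t ht
      rw [ZFSet.pair, ZFSet.mem_pair] at ht
      intro u hu
      rcases ht with rfl | rfl
      · rw [ZFSet.mem_singleton] at hu
        exact ⟨a, hu⟩
      · rw [ZFSet.mem_pair] at hu
        rcases hu with rfl | rfl
        · exact ⟨a, rfl⟩
        · exact ⟨b, rfl⟩)
    have : b = rz x := by
      ext y
      rw [hb', mem_rz]
      simp only [Function.update_self, ne_eq, one_ne_zero, not_false_eq_true,
        Function.update_of_ne, nz_mem_sz, ArP_nz]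
      constructor
      · rintro ⟨_, a, b, c, rfl, h1, ⟨a', h2⟩⟩
        rw [h1, Nat.pair_eq_pair] at h2
        exact ⟨a, by rw [h2.2, h2.1]⟩
      · rintro ⟨a, rfl⟩
        exact ⟨(pair_mem hC hg).2 ⟨nz_mem hC hg _, nz_mem hC hg _⟩, a, x a, _, rfl, rfl,
          ⟨a, rfl⟩⟩
    rw [← this]
    exact hb

end

end ST2

section
variable {𝓕 : ℕ → Set ℕ} {A : ℕ → List ℕ → Prop} {κ μ : Ordinal.{0}} (hC : Ctx 𝓕 A κ μ)
include hC

theorem DfN_rz : DfN A κ μ (fun _ v => ∃ x : ℕ → ℕ, v 0 = rz x ∧ v 1 = sz (gr x)) :=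
  ST2.DfN_rz_aux hC

/-- the `n`-th node of the pair of reals coded by `v 0` and `v 1` belongs to the tree `v 2` -/
theorem DfN_tree : DfN A κ μ (fun _ v => ∃ (x y : ℕ → ℕ) (T : Set (List ℕ)), v 0 = rz x ∧
    v 1 = rz y ∧ v 2 = sz (Encodable.encode '' T) ∧ IsTree T ∧ ∀ n, rs (pr x y) n ∈ T) :=
  ST2.DfN_tree_aux hC

theorem DfN_isTree : DfN A κ μ (fun _ v => ∃ (T : Set (List ℕ)),
    v 0 = sz (Encodable.encode '' T) ∧ IsTree T) := ST2.DfN_isTree' hC 0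

theorem rz_mem_iff {g : Set ℕ} (hg : Gen A κ g) (x : ℕ → ℕ) :
    rz x ∈ NN A κ μ g ↔ gr x ∈ RR A κ μ g := ST2.rz_mem_iff_aux hC hg x

end

end Pool.Agent.CC
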