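import Mathlib
import Pool.Agent.Lib.MP_bf67b0_lc.Aca
import Pool.Agent.Lib.MP_bf67b0_lc.GroundReals
import Pool.Agent.Lib.MP_bf67b0_lc.ExtReals
import Pool.Agent.Lib.MP_bf67b0_lc.Codes
import Pool.Agent.Lib.MP_bf67b0_lc.SetTheory2
import Pool.Agent.Lib.MP_bf67b0_lc.Family
import Pool.Agent.Lib.MP_bf67b0_lc.Pairs

/-!
Q11b: the combinatorial core of countable choice for `Π¹₁`.
-/

set_option autoImplicit false

namespace Pool.Agent.CC

open Ordinal Set

namespace CoreP

/-! ### strings -/

open Classical in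
/-- the initial segment of length `L` of the real `G` -/
noncomputable def ini (G : Set ℕ) (L : ℕ) : List Bool :=
  (List.range L).map (fun i => decide (i ∈ G))

theorem ini_length (G : Set ℕ) (L : ℕ) : (ini G L).length = L := by simp [ini]

theorem ini_get {G : Set ℕ} {L i : ℕ} (h : i < L) : 
    (ini G L)[i]? = some (open Classical in decide (i ∈ G)) := by
  simp [ini, h]

theorem ini_none {G : Set ℕ} {L i : ℕ} (h : L ≤ i) : (ini G L)[i]? = none := by
  simp [ini, h]

theorem Pre_ini (G : Set ℕ) (L : ℕ) : Pre (ini G L) G := by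
  intro i b hb
  rcases lt_or_ge i L with h | h
  · rw [ini_get h] at hb
    have : (open Classical in decide (i ∈ G)) = b := Option.some_injective _ hb
    rw [← this]
    simp
  · rw [ini_none h] at hb
    exact absurd hb (by simp)

theorem eq_ini {s : List Bool} {G : Set ℕ} (h : Pre s G) : s = ini G s.length := by
  apply List.ext_getElem?
  intro i
  rcases lt_or_ge i s.length with hi | hi
  · rw [ini_get hi, List.getElem?_eq_getElem hi]
    have := h i s[i] (List.getElem?_eq_getElem hi)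
    congr 1
    rw [Bool.eq_iff_iff, this]
    simp
  · rw [ini_none hi, List.getElem?_eq_none hi]

theorem ini_prefix {G : Set ℕ} {L L' : ℕ} (h : L ≤ L') : ini G L <+: ini G L' := by
  unfold ini
  apply List.IsPrefix.map
  obtain ⟨k, rfl⟩ := Nat.exists_eq_add_of_le h
  rw [List.range_add]
  exact List.prefix_append _ _

theorem prefix_ini {s : List Bool} {G : Set ℕ} {L : ℕ} (h : Pre s G) (hL : s.length ≤ L) :
    s <+: ini G L := by
  rw [eq_ini h]
  exact ini_prefix hL

theorem get_of_prefix {s t : List Bool} (h : s <+: t) {i : ℕ} {b : Bool} (hb : s[i]? = some b) :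
    t[i]? = some b := by
  obtain ⟨u, rfl⟩ := h
  rw [List.getElem?_append]
  have hi : i < s.length := by
    by_contra hcon
    rw [List.getElem?_eq_none (not_lt.1 hcon)] at hb
    exact absurd hb (by simp)
  rw [if_pos hi, hb]

theorem Pre_prefix {s t : List Bool} {G : Set ℕ} (h : Pre t G) (hst : s <+: t) : Pre s G :=
  fun i b hb => h i b (get_of_prefix hst hb)

theorem cond_encode (s : List Bool) : cond (Encodable.encode s) = s := by
  simp [cond]

theorem mem_Ev {s : List Bool} {G X : Set ℕ} {n : ℕ} (h : Pre s G)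
    (hX : Nat.pair n (Encodable.encode s) ∈ X) : n ∈ Ev X G :=
  ⟨Encodable.encode s, (Pre_code s G).1 h, hX⟩

theorem inv_string {m' : ℕ} {X : Set ℕ} (hX : Inv m' X) {n t : ℕ} {h : Set ℕ}
    (hmem : Nat.pair n t ∈ X) (hin : inC t h) :
    Nat.pair n (Encodable.encode (ini (cut m' h) (cond t).length)) ∈ X := by
  refine hX n t _ hmem (by rw [cond_encode, ini_length]) ?_
  intro i hi
  unfold bit
  rw [cond_encode]
  rcases lt_or_ge i (cond t).length with h1 | h1
  · rw [ini_get h1]
    have hb := List.getElem?_eq_getElem h1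
    rw [hb]
    congr 1
    have h2 := hin i
    unfold bit at h2
    rw [hb] at h2
    cases hv : (cond t)[i] with
    | true =>
      rw [hv] at h2
      have : i ∈ h := h2.1 rfl
      simp [cut, this, hi]
    | false =>
      rw [hv] at h2
      have : i ∉ h := h2.2 rfl
      simp [cut, this]
  · rw [ini_none h1, List.getElem?_eq_none h1]

theorem exists_string {m' : ℕ} {X : Set ℕ} (hX : Inv m' X) {n : ℕ} {h : Set ℕ}
    (hmem : n ∈ Ev X h) : ∃ L, Nat.pair n (Encodable.encode (ini (cut m' h) L)) ∈ X := by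
  obtain ⟨t, ht, htX⟩ := hmem
  exact ⟨_, inv_string hX htX ht⟩

/-- the same for strings modified beyond the columns in question -/
theorem inv_string' {m' : ℕ} {X : Set ℕ} (hX : Inv m' X) {n : ℕ} {t t' : List Bool}
    (hmem : Nat.pair n (Encodable.encode t) ∈ X) (hl : t.length = t'.length)
    (hag : ∀ i : ℕ, i.unpair.1 < m' → t[i]? = t'[i]?) :
    Nat.pair n (Encodable.encode t') ∈ X := by
  refine hX n _ _ hmem (by rw [cond_encode, cond_encode, hl]) ?_
  intro i hi
  unfold bit
  rw [cond_encode, cond_encode]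
  exact hag i hi

theorem C2_ini {m m' : ℕ} {G G' : Set ℕ} (hag : ∀ i : ℕ, i.unpair.1 < m → (i ∈ G ↔ i ∈ G'))
    (hG : ∀ i : ℕ, m' ≤ i.unpair.1 → i ∉ G) (hG' : ∀ i : ℕ, m' ≤ i.unpair.1 → i ∉ G') (L : ℕ) :
    C2 m m' (ini G L, ini G' L) := by
  refine ⟨by simp [ini_length], ?_⟩
  intro i hi
  have hi' : i < L := by simpa [ini_length] using hi
  simp only [ini_get hi']
  constructor
  · intro h
    have := hag i h
    congr 1
    rw [Bool.eq_iff_iff]
    simpa using this
  · intro h
    have h1 := hG i h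
    have h2 := hG' i h
    simp [h1, h2]

theorem cut_vanish {m' : ℕ} {h : Set ℕ} {i : ℕ} (hi : m' ≤ i.unpair.1) : i ∉ cut m' h :=
  fun hc => absurd hc.2 (not_lt.2 hi)

theorem op_vanish {m m' : ℕ} (hmm : m ≤ m') {c : Bool} {G z : Set ℕ} {i : ℕ}
    (hi : m' ≤ i.unpair.1) : i ∉ op m m' c G z := by
  rintro (⟨h, -⟩ | ⟨-, h, -⟩) <;> omega

theorem op_low {m m' : ℕ} {c : Bool} {G z : Set ℕ} {i : ℕ}
    (hi : i.unpair.1 < m) : i ∈ G ↔ i ∈ op m m' c G z := by
  constructor
  · intro h
    exact Or.inl ⟨hi, h⟩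
  · rintro (⟨-, h⟩ | ⟨h, -⟩)
    · exact h
    · omega

theorem op_true {m m' : ℕ} (hmm : m ≤ m') {h z : Set ℕ}
    (hz : ∀ i ∈ z, m ≤ i.unpair.1 ∧ i.unpair.1 < m') :
    op m m' true (cut m' h) z = cut m' (symmDiff h z) := by
  ext i
  by_cases h1 : i.unpair.1 < m
  · have h2 : i ∉ z := fun hc => absurd (hz i hc).1 (not_le.2 h1)
    have h3 : i.unpair.1 < m' := by omega
    simp only [op, cut, Set.mem_ofPred_eq, Set.mem_symmDiff]
    constructor
    · rintro (⟨-, h4⟩ | ⟨h4, -⟩)
      · exact ⟨Or.inl ⟨h4.1, h2⟩, h3⟩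
      · omega
    · rintro ⟨h4 | h4, h5⟩
      · exact Or.inl ⟨h1, h4.1, h3⟩
      · exact absurd h4.1 h2
  · have h1' := not_lt.1 h1
    by_cases h3 : i.unpair.1 < m'
    · simp only [op, cut, Set.mem_ofPred_eq, Set.mem_symmDiff]
      have e1 : (i ∈ h ∧ i.unpair.1 < m') ↔ i ∈ h := ⟨fun h => h.1, fun h => ⟨h, h3⟩⟩
      simp only [h1, h1', h3, true_and, false_and, false_or, and_true]
      by_cases hh : i ∈ h <;> by_cases hzz : i ∈ z <;> simp [hh, hzz]
    · constructor
      · intro hc
        exact absurd hc (op_vanish hmm (not_lt.1 h3))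
      · intro hc
        exact absurd hc.2 h3

theorem Pre_cut {m' : ℕ} {p : List Bool} (hp : p.length ≤ m') {h : Set ℕ} :
    Pre p (cut m' h) ↔ Pre p h := by
  have key : ∀ i b, p[i]? = some b → (i ∈ cut m' h ↔ i ∈ h) := by
    intro i b hb
    have hi : i < p.length := by
      by_contra hcon
      rw [List.getElem?_eq_none (not_lt.1 hcon)] at hb
      exact absurd hb (by simp)
    have : i.unpair.1 ≤ i := Nat.unpair_left_le i
    exact ⟨fun h => h.1, fun h => ⟨h, by omega⟩⟩
  constructor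
  · intro h1 i b hb
    rw [← key i b hb]
    exact h1 i b hb
  · intro h1 i b hb
    rw [key i b hb]
    exact h1 i b hb

theorem C2_start {m m' : ℕ} {p : List Bool} (hp : p.length ≤ m') : C2 m m' (p, p) := by
  refine ⟨rfl, ?_⟩
  intro i hi
  refine ⟨fun _ => rfl, fun h => ?_⟩
  have h1 : i.unpair.1 ≤ i := Nat.unpair_left_le i
  change i < p.length at hi
  omega

theorem le2_refl (p : List Bool × List Bool) : le2 p p := ⟨List.prefix_rfl, List.prefix_rfl⟩

theorem le2_trans {p q r : List Bool × List Bool} (h : le2 p q) (h' : le2 q r) : le2 p r :=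
  ⟨h'.1.trans h.1, h'.2.trans h.2⟩

/-- appending zeros -/
theorem exists_zeros {m m' : ℕ} {r : List Bool × List Bool} (hr : C2 m m' r) (k : ℕ) :
    ∃ q, C2 m m' q ∧ le2 q r ∧ q.1.length = r.1.length + k := by
  refine ⟨(r.1 ++ List.replicate k false, r.2 ++ List.replicate k false), ?_,
    ⟨List.prefix_append _ _, List.prefix_append _ _⟩, by simp⟩
  refine ⟨by simp [hr.1], ?_⟩
  intro i hi
  simp only [List.length_append, List.length_replicate] at hi
  simp only [List.getElem?_append]
  rcases lt_or_ge i r.1.length with h | h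
  · have h' : i < r.2.length := by rw [← hr.1]; exact h
    rw [if_pos h, if_pos h']
    exact hr.2 i h
  · have h' : ¬ i < r.2.length := by rw [← hr.1]; exact not_lt.2 h
    rw [if_neg (not_lt.2 h), if_neg h', ← hr.1]
    refine ⟨fun _ => rfl, fun _ => ?_⟩
    have : i - r.1.length < k := by omega
    simp [this]

/-- extending the second string along a real -/
theorem exists_along {m m' : ℕ} {r : List Bool × List Bool} (hr : C2 m m' r) {G : Set ℕ}
    (hG : ∀ i : ℕ, m' ≤ i.unpair.1 → i ∉ G) (hrG : Pre r.2 G) {L : ℕ} (hL : r.2.length ≤ L) :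
    ∃ q, C2 m m' q ∧ le2 q r ∧ q.2 = ini G L := by
  refine ⟨(r.1 ++ (ini G L).drop r.1.length, ini G L), ?_,
    ⟨List.prefix_append _ _, prefix_ini hrG hL⟩, rfl⟩
  have hlen : (r.1 ++ (ini G L).drop r.1.length).length = L := by
    rw [List.length_append, List.length_drop, ini_length]
    have := hr.1
    omega
  refine ⟨by rw [hlen, ini_length], ?_⟩
  intro i hi
  rw [hlen] at hi
  simp only [List.getElem?_append]
  rcases lt_or_ge i r.1.length with h | h
  · have h' : i < r.2.length := by rw [← hr.1]; exact h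
    rw [if_pos h]
    have h2 : (ini G L)[i]? = r.2[i]? := by
      rw [List.getElem?_eq_getElem h']
      exact get_of_prefix (prefix_ini hrG hL) (List.getElem?_eq_getElem h')
    rw [h2]
    exact hr.2 i h
  · rw [if_neg (not_lt.2 h), List.getElem?_drop]
    have : r.1.length + (i - r.1.length) = i := by omega
    rw [this]
    refine ⟨fun _ => rfl, fun hc => ?_⟩
    rw [ini_get hi]
    have := hG i hc
    simp [this]

/-! ### nodes -/

/-- `d` is the interleaving of the first `n` elements of `τ` and `σ` -/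
def Nd (n : ℕ) (τ σ d : List ℕ) : Prop :=
  d.length = 2 * n ∧ ∀ k, k < 2 * n → d[k]? = if k % 2 = 0 then τ[k / 2]? else σ[k / 2]?

theorem rs_length (x : ℕ → ℕ) (n : ℕ) : (rs x n).length = n := by simp [rs]

theorem rs_get {x : ℕ → ℕ} {n k : ℕ} (h : k < n) : (rs x n)[k]? = some (x k) := by
  simp [rs, h]

theorem rs_none {x : ℕ → ℕ} {n k : ℕ} (h : n ≤ k) : (rs x n)[k]? = none := by
  simp [rs, h]

theorem Nd_rs {x y : ℕ → ℕ} {n N : ℕ} (h : n ≤ N) :
    Nd n (rs x N) (rs y N) (rs (pr x y) (2 * n)) := by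
  refine ⟨rs_length _ _, fun k hk => ?_⟩
  rw [rs_get hk]
  unfold pr
  split_ifs with h1
  · rw [rs_get (by omega)]
  · rw [rs_get (by omega)]

theorem Nd_eq {x y : ℕ → ℕ} {n N : ℕ} (h : n ≤ N) {c : List ℕ} (hc : Nd n (rs x N) (rs y N) c) :
    c = rs (pr x y) (2 * n) := by
  apply List.ext_getElem?
  intro k
  rcases lt_or_ge k (2 * n) with hk | hk
  · rw [hc.2 k hk, (Nd_rs (x := x) (y := y) h).2 k hk]
  · rw [rs_none hk, List.getElem?_eq_none (by rw [hc.1]; exact hk)]

/-- the decided nodes -/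
def DecP (X0 Y0 : Set ℕ) (r : List Bool × List Bool) (σ : List ℕ) : Prop :=
  ∃ τ : List ℕ, τ.length = σ.length ∧
    (∀ l v : ℕ, τ[l]? = some v → ∃ t : List Bool, t <+: r.2 ∧
      Nat.pair (Nat.pair l v) (Encodable.encode t) ∈ X0) ∧
    ∃ n : ℕ, n ≤ σ.length ∧ ∃ c : List ℕ, Nd n τ σ c ∧
      ∀ t : List Bool, r.1 <+: t → ∀ t' : List Bool, t' <+: t →
        Nat.pair (Encodable.encode c) (Encodable.encode t') ∉ Y0

theorem DecP_mono {X0 Y0 : Set ℕ} {p q : List Bool × List Bool} {σ : List ℕ} (h : le2 q p)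
    (hd : DecP X0 Y0 p σ) : DecP X0 Y0 q σ := by
  obtain ⟨τ, h1, h2, n, h3, c, h4, h5⟩ := hd
  refine ⟨τ, h1, fun l v hl => ?_, n, h3, c, h4, fun t ht => h5 t (h.1.trans ht)⟩
  obtain ⟨t, ht, htX⟩ := h2 l v hl
  exact ⟨t, ht.trans h.2, htX⟩

/-! ### arithmetical definability -/

section AD
variable {𝓡 : Set (Set ℕ)} (h𝓡 : ACA 𝓡)
include h𝓡
variable {α : Type} [Primcodable α]

omit h𝓡 in
theorem AD_congr {P Q : α → Prop} (hP : AD 𝓡 P) (h : ∀ a, P a ↔ Q a) : AD 𝓡 Q := by
  have : P = Q := funext fun a => propext (h a)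
  rw [← this]
  exact hP

theorem AD_mem {S : Set ℕ} (hS : S ∈ 𝓡) {f : α → ℕ} (hf : Primrec f) :
    AD 𝓡 (fun a => f a ∈ S) := by
  have : AD 𝓡 (fun n : ℕ => n ∈ S) := AD_nat.2 (by simpa using hS)
  exact AD.comp h𝓡 this hf

theorem AD_prefix {f g : α → List Bool} (hf : Primrec f) (hg : Primrec g) :
    AD 𝓡 (fun a => f a <+: g a) := by
  have h1 := (C2_AD h𝓡 0 0).2
  have h2 : Primrec (fun a : α => (((g a, g a), (f a, f a)) :
      (List Bool × List Bool) × (List Bool × List Bool))) :=
    Primrec.pair (Primrec.pair hg hg) (Primrec.pair hf hf)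
  have h3 := AD.comp h𝓡 h1 h2
  exact AD_congr h3 (fun a => ⟨fun h => h.1, fun h => ⟨h, h⟩⟩)

theorem AD_Nd : AD 𝓡 (fun x : (ℕ × List ℕ) × (List ℕ × List ℕ) => Nd x.1.1 x.1.2 x.2.1 x.2.2) := by
  unfold Nd
  apply AD.and h𝓡
  · apply AD.of_prim h𝓡
    exact Primrec.eq.comp (Primrec.list_length.comp (Primrec.snd.comp Primrec.snd))
      (Primrec.nat_mul.comp (Primrec.const 2) (Primrec.fst.comp Primrec.fst))
  · apply AD.all h𝓡
    apply AD.imp h𝓡
    · apply AD.of_prim h𝓡
      exact Primrec.nat_lt.comp Primrec.snd (Primrec.nat_mul.comp (Primrec.const 2)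
        (Primrec.fst.comp (Primrec.fst.comp Primrec.fst)))
    · apply AD.of_prim h𝓡
      refine Primrec.eq.comp (Primrec.list_getElem?.comp
        (Primrec.snd.comp (Primrec.snd.comp Primrec.fst)) Primrec.snd) ?_
      refine Primrec.ite ?_ ?_ ?_
      · exact Primrec.eq.comp (Primrec.nat_mod.comp Primrec.snd (Primrec.const 2))
          (Primrec.const 0)
      · exact Primrec.list_getElem?.comp (Primrec.snd.comp (Primrec.fst.comp Primrec.fst))
          (Primrec.nat_div.comp Primrec.snd (Primrec.const 2))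
      · exact Primrec.list_getElem?.comp (Primrec.fst.comp (Primrec.snd.comp Primrec.fst))
          (Primrec.nat_div.comp Primrec.snd (Primrec.const 2))

theorem AD_DecP {X0 Y0 : Set ℕ} (hX : X0 ∈ 𝓡) (hY : Y0 ∈ 𝓡) :
    AD 𝓡 (fun x : (List Bool × List Bool) × List ℕ => DecP X0 Y0 x.1 x.2) := by
  unfold DecP
  apply AD.ex h𝓡
  apply AD.and h𝓡
  · apply AD.of_prim h𝓡
    exact Primrec.eq.comp (Primrec.list_length.comp Primrec.snd)
      (Primrec.list_length.comp (Primrec.snd.comp Primrec.fst))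
  apply AD.and h𝓡
  · apply AD.all h𝓡
    apply AD.all h𝓡
    apply AD.imp h𝓡
    · apply AD.of_prim h𝓡
      exact Primrec.eq.comp (Primrec.list_getElem?.comp
        (Primrec.snd.comp (Primrec.fst.comp Primrec.fst)) (Primrec.snd.comp Primrec.fst))
        (Primrec.option_some.comp Primrec.snd)
    · apply AD.ex h𝓡
      apply AD.and h𝓡
      · exact AD_prefix h𝓡 Primrec.snd (Primrec.snd.comp (Primrec.fst.comp (Primrec.fst.comp
          (Primrec.fst.comp (Primrec.fst.comp Primrec.fst)))))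
      · apply AD_mem h𝓡 hX
        exact Primrec₂.natPair.comp (Primrec₂.natPair.comp
          (Primrec.snd.comp (Primrec.fst.comp Primrec.fst)) (Primrec.snd.comp Primrec.fst))
          (Primrec.encode.comp Primrec.snd)
  · apply AD.ex h𝓡
    apply AD.and h𝓡
    · apply AD.of_prim h𝓡
      exact Primrec.nat_le.comp Primrec.snd
        (Primrec.list_length.comp (Primrec.snd.comp (Primrec.fst.comp Primrec.fst)))
    · apply AD.ex h𝓡
      apply AD.and h𝓡
      · have h1 : Primrec (fun x : ((((List Bool × List Bool) × List ℕ) × List ℕ) × ℕ) × List ℕ =>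
            (((x.1.2, x.1.1.2), (x.1.1.1.2, x.2)) : (ℕ × List ℕ) × (List ℕ × List ℕ))) :=
          Primrec.pair (Primrec.pair (Primrec.snd.comp Primrec.fst)
            (Primrec.snd.comp (Primrec.fst.comp Primrec.fst)))
            (Primrec.pair (Primrec.snd.comp (Primrec.fst.comp (Primrec.fst.comp Primrec.fst)))
              Primrec.snd)
        exact AD.comp h𝓡 (AD_Nd h𝓡) h1
      · apply AD.all h𝓡
        apply AD.imp h𝓡
        · exact AD_prefix h𝓡 (Primrec.fst.comp (Primrec.fst.comp (Primrec.fst.comp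
            (Primrec.fst.comp (Primrec.fst.comp Primrec.fst))))) Primrec.snd
        · apply AD.all h𝓡
          apply AD.imp h𝓡
          · exact AD_prefix h𝓡 Primrec.snd (Primrec.snd.comp Primrec.fst)
          · apply AD.not h𝓡
            apply AD_mem h𝓡 hY
            exact Primrec₂.natPair.comp (Primrec.encode.comp
              (Primrec.snd.comp (Primrec.fst.comp Primrec.fst)))
              (Primrec.encode.comp Primrec.snd)

end AD

/-! ### the two parts -/

section main
variable {𝓕 : ℕ → Set ℕ} {A : ℕ → List ℕ → Prop} {κ μ : Ordinal.{0}} (hC : Ctx 𝓕 A κ μ)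
include hC

/-- generic reals decide non-membership in the value of a code -/
theorem decide_not {m' : ℕ} {Y0 : Set ℕ} (hY0 : Y0 ∈ R0 A κ) (hY : Inv m' Y0) {h : Set ℕ}
    (hh : Gen A κ h) {d : ℕ} (hd : d ∉ Ev Y0 h) :
    ∃ L, ∀ t : List Bool, ini (cut m' h) L <+: t → ∀ t' : List Bool, t' <+: t →
      Nat.pair d (Encodable.encode t') ∉ Y0 := by
  have hA := R0_ACA hC
  have hAD : AD (R0 A κ) (fun s : List Bool => (∃ t' : List Bool, t' <+: s ∧
      Nat.pair d (Encodable.encode t') ∈ Y0) ∨ ∀ t : List Bool, s <+: t → ∀ t' : List Bool,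
        t' <+: t → Nat.pair d (Encodable.encode t') ∉ Y0) := by
    apply AD.or hA
    · apply AD.ex hA
      apply AD.and hA
      · exact AD_prefix hA Primrec.snd Primrec.fst
      · apply AD_mem hA hY0
        exact Primrec₂.natPair.comp (Primrec.const d) (Primrec.encode.comp Primrec.snd)
    · apply AD.all hA
      apply AD.imp hA
      · exact AD_prefix hA Primrec.fst Primrec.snd
      · apply AD.all hA
        apply AD.imp hA
        · exact AD_prefix hA Primrec.snd (Primrec.snd.comp Primrec.fst)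
        · apply AD.not hA
          apply AD_mem hA hY0
          exact Primrec₂.natPair.comp (Primrec.const d) (Primrec.encode.comp Primrec.snd)
  obtain ⟨s, hs, hsh⟩ := Gen.meets hC hh hAD (by
    intro s
    by_cases hc : ∃ t : List Bool, s <+: t ∧ ∃ t' : List Bool, t' <+: t ∧
        Nat.pair d (Encodable.encode t') ∈ Y0
    · obtain ⟨t, ht, h1⟩ := hc
      exact ⟨t, ht, Or.inl h1⟩
    · refine ⟨s, List.prefix_rfl, Or.inr ?_⟩
      intro t ht t' ht' hm
      exact hc ⟨t, ht, t', ht', hm⟩)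
  rcases hs with ⟨t', ht', hm⟩ | hs
  · exact absurd (mem_Ev (Pre_prefix hsh ht') hm) hd
  refine ⟨s.length, ?_⟩
  intro t ht t' ht' hm
  -- modify `t` to an extension of `s`
  have hle : s.length ≤ t.length := by
    have := ht.length_le
    rwa [ini_length] at this
  set t2 : List Bool := s ++ t.drop s.length with ht2
  have hag : ∀ i : ℕ, i.unpair.1 < m' → t[i]? = t2[i]? := by
    intro i hi
    rw [ht2, List.getElem?_append]
    split_ifs with h1
    · have h2 : (ini (cut m' h) s.length)[i]? = some (s[i]) := by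
        rw [ini_get h1]
        congr 1
        have := hsh i s[i] (List.getElem?_eq_getElem h1)
        rw [Bool.eq_iff_iff, this]
        exact (@decide_eq_true_iff _ (_)).trans ⟨fun h => h.1, fun h => ⟨h, hi⟩⟩
      rw [get_of_prefix ht h2, List.getElem?_eq_getElem h1]
    · rw [List.getElem?_drop]
      congr 1
      omega
  have hlen : t2.length = t.length := by
    rw [ht2, List.length_append, List.length_drop]
    omega
  refine hs t2 (List.prefix_append _ _) (t2.take t'.length) (List.take_prefix _ _) ?_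
  refine inv_string' hY hm ?_ ?_
  · rw [List.length_take, hlen]
    have := ht'.length_le
    omega
  · intro i hi
    rw [List.getElem?_take]
    split_ifs with h1
    · rw [← hag i hi, List.getElem?_eq_getElem h1]
      exact (get_of_prefix ht' (List.getElem?_eq_getElem h1)).symm
    · exact List.getElem?_eq_none (not_lt.1 h1)

theorem AD_C2 (m m' : ℕ) : AD (R0 A κ) (C2 m m') := (C2_AD (R0_ACA hC) m m').1

theorem AD_le2 : AD (R0 A κ)
    (fun x : (List Bool × List Bool) × (List Bool × List Bool) => le2 x.1 x.2) :=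
  (C2_AD (R0_ACA hC) 0 0).2

/-- part (2): `Kin (·) []` is dense below `(p, p)` -/
theorem kin_dense {m m' : ℕ} (hmm : m ≤ m') {p : List Bool}
    (hp : p.length ≤ m') {X0 Y0 : Set ℕ} (hY0 : Y0 ∈ R0 A κ)
    (hX : Inv m' X0) (hY : Inv m' Y0)
    (h1 : ∀ h, Gen A κ h → Pre p h → ∃ x, Ev X0 h = gr x)
    (h2 : ∀ h, Gen A κ h → Pre p h → ∀ z ∈ R0 A κ, inG m z → Pre p (symmDiff h z) →
          ∀ x, Ev X0 (symmDiff h z) = gr x → ¬ ∃ y ∈ Rl (NN A κ μ h),
            ∀ n, Encodable.encode (rs (pr x y) (2 * n)) ∈ Ev Y0 h)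
    {Kin : List Bool × List Bool → List ℕ → Prop} {D : ℕ → List Bool × List Bool → Prop}
    (hD : AD (R0 A κ) (fun x : ℕ × (List Bool × List Bool) => D x.1 x.2))
    (hmono : ∀ p q σ, le2 q p → Kin p σ → Kin q σ)
    (hd : ∀ n p, C2 m m' p → ∃ q, C2 m m' q ∧ le2 q p ∧ D n q)
    (hfam : ∀ Φ : List Bool × List Bool → Prop, (∀ p, Φ p → C2 m m' p) →
      (∀ p q, Φ p → Φ q → ∃ r, Φ r ∧ le2 r p ∧ le2 r q) → (∀ n, ∃ p, Φ p ∧ D n p) →
      (∀ p, Φ p → ¬ Kin p []) → ∀ 𝓡, ACA 𝓡 → R0 A κ ⊆ 𝓡 → AD 𝓡 Φ →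
          ∃ f : ℕ → ℕ, gr f ∈ 𝓡 ∧ ∀ n ≥ 1, ∀ r, Φ r → ¬ DecP X0 Y0 r (rs f n))
    {q : List Bool × List Bool} (hq : C2 m m' q) (hqp : le2 q (p, p)) :
    ∃ r, C2 m m' r ∧ le2 r q ∧ Kin r [] := by
  by_contra hcon
  push Not at hcon
  obtain ⟨z, hz, hzs, hz1, hz2⟩ := exists_pair hC hmm true hD hd q hq
  obtain ⟨h, hh, hqh⟩ := exists_gen' hC q.1
  -- `q.1` is an initial segment of `cut m' h`
  have hqc : Pre q.1 (cut m' h) := by
    intro i b hb
    have hi : i < q.1.length := by
      by_contra hc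
      rw [List.getElem?_eq_none (not_lt.1 hc)] at hb
      exact absurd hb (by simp)
    by_cases hcol : i.unpair.1 < m'
    · rw [hqh i b hb]
      exact ⟨fun hi => ⟨hi, hcol⟩, fun hi => hi.1⟩
    · have h3 := (hq.2 i hi).2 (not_lt.1 hcol)
      rw [h3.1] at hb
      have : b = false := (Option.some_injective _ hb).symm
      subst this
      simp [cut, hcol]
  have hop : op m m' true (cut m' h) z = cut m' (symmDiff h z) := op_true hmm hzs
  set h' : Set ℕ := symmDiff h z with hh'
  have hgen' : Gen A κ h' := Gen.sd hC hh hz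
  have hq2 : Pre q.2 (cut m' h') := by
    have := hz1 h hqc
    rwa [hop] at this
  have hph : Pre p h := Pre_prefix hqh hqp.1
  have hph' : Pre p h' := (Pre_cut hp).1 (Pre_prefix hq2 hqp.2)
  have hzG : inG m z := fun i hi hiz => absurd (hzs i hiz).1 (not_le.2 hi)
  obtain ⟨x, hx⟩ := h1 h' hgen' hph'
  have hcutR : cut m' h ∈ RR A κ μ h := (mem_RR_iff hC hh _).2 ⟨m', cut_mem hC hh m'⟩
  have hRR := RR_ACA hC hh
  have hsub : R0 A κ ⊆ RR A κ μ h := fun S hS =>
    (mem_RR_iff hC hh S).2 ⟨0, R0_sub_Rm hC hh 0 hS⟩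
  have hopR : op m m' true (cut m' h) z ∈ RR A κ μ h := by
    have hAD : AD (RR A κ μ h) (fun i : ℕ => i ∈ op m m' true (cut m' h) z) := by
      have e : ∀ i : ℕ, ((i.unpair.1 < m ∧ i ∈ cut m' h) ∨ (m ≤ i.unpair.1 ∧
          (i.unpair.1 < m' ∧ (i ∈ cut m' h ↔ ¬ i ∈ z)))) ↔ i ∈ op m m' true (cut m' h) z := by
        intro i
        simp [op]
      refine AD_congr ?_ e
      have hcol : Primrec (fun i : ℕ => i.unpair.1) := Primrec.fst.comp Primrec.unpair
      apply AD.or hRR
      · apply AD.and hRR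
        · exact AD.of_prim hRR (Primrec.nat_lt.comp hcol (Primrec.const m))
        · exact AD_mem hRR hcutR Primrec.id
      · apply AD.and hRR
        · exact AD.of_prim hRR (Primrec.nat_le.comp (Primrec.const m) hcol)
        · apply AD.and hRR
          · exact AD.of_prim hRR (Primrec.nat_lt.comp hcol (Primrec.const m'))
          · apply AD.iff hRR
            · exact AD_mem hRR hcutR Primrec.id
            · apply AD.not hRR
              exact AD_mem hRR (hsub hz) Primrec.id
    have := AD_nat.1 hAD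
    simpa using this
  set Φ : List Bool × List Bool → Prop :=
    Fil m m' (cut m' h) (op m m' true (cut m' h) z) with hΦ
  have hdir : ∀ p q, Φ p → Φ q → ∃ r, Φ r ∧ le2 r p ∧ le2 r q := fun p q hp hq =>
    Fil.directed hp hq
  have hqΦ : Φ q := ⟨hq, hqc, by rw [hop]; exact hq2⟩
  obtain ⟨f, hfR, hf⟩ := hfam Φ (fun p hp => hp.1) hdir (hz2 h hh) (by
    intro r hr hk
    obtain ⟨r', hr', h3, h4⟩ := hdir r q hr hqΦ
    exact hcon r' hr'.1 h4 (hmono r r' [] h3 hk)) (RR A κ μ h) hRR hsub
      (Fil_AD hRR m m' hcutR hopR)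
  refine h2 h hh hph z hz hzG hph' x hx ⟨f, (rz_mem_iff hC hh f).2 hfR, ?_⟩
  intro n0
  by_contra hn0
  obtain ⟨L0, hL0⟩ := decide_not hC hY0 hY hh hn0
  -- witnesses for the first real
  have hwit : ∀ l : ℕ, ∃ L, Nat.pair (Nat.pair l (x l)) (Encodable.encode (ini (cut m' h') L)) ∈
      X0 := by
    intro l
    apply exists_string hX
    rw [hx]
    exact ⟨l, rfl⟩
  choose Lx hLx using hwit
  set n1 : ℕ := max n0 1 with hn1
  set L : ℕ := L0 + ∑ l ∈ Finset.range n1, Lx l with hL
  have hLge : ∀ l < n1, Lx l ≤ L := by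
    intro l hl
    have := Finset.single_le_sum (f := Lx) (fun i _ => Nat.zero_le _) (Finset.mem_range.2 hl)
    omega
  have hr : Φ (ini (cut m' h) L, ini (cut m' h') L) := by
    refine ⟨?_, Pre_ini _ _, ?_⟩
    · apply C2_ini
      · intro i hi
        rw [← hop]
        exact op_low hi
      · intro i hi
        exact cut_vanish hi
      · intro i hi
        exact cut_vanish hi
    · rw [hop]
      exact Pre_ini _ _
  refine hf n1 (le_max_right _ _) _ hr ⟨rs x n1, by rw [rs_length, rs_length], ?_, n0, ?_,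
    rs (pr x f) (2 * n0), Nd_rs (le_max_left _ _), ?_⟩
  · intro l v hlv
    have hl : l < n1 := by
      by_contra hc
      rw [rs_none (not_lt.1 hc)] at hlv
      exact absurd hlv (by simp)
    rw [rs_get hl] at hlv
    have hv : x l = v := Option.some_injective _ hlv
    subst hv
    exact ⟨ini (cut m' h') (Lx l), ini_prefix (hLge l hl), hLx l⟩
  · rw [rs_length]
    exact le_max_left _ _
  · intro t ht t' ht'
    exact hL0 t ((ini_prefix (by omega)).trans ht) t' ht'

end main

end CoreP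

open CoreP in
/-- Q11b: the combinatorial core -/
theorem core_Pi {𝓕 : ℕ → Set ℕ} {A : ℕ → List ℕ → Prop} {κ μ : Ordinal.{0}}
    (hC : Ctx 𝓕 A κ μ)
    {g : Set ℕ} (hg : Gen A κ g) {m m' : ℕ} (hmm : m ≤ m') {p : List Bool}
    (hp : p.length ≤ m') (hpg : Pre p g) {X0 Y0 : Set ℕ} (hX0 : X0 ∈ R0 A κ) (hY0 : Y0 ∈ R0 A κ)
    (hX : Inv m' X0) (hY : Inv m' Y0)
    (h1 : ∀ h, Gen A κ h → Pre p h → ∃ x, Ev X0 h = gr x)
    (h2 : ∀ h, Gen A κ h → Pre p h → ∀ z ∈ R0 A κ, inG m z → Pre p (symmDiff h z) →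
          ∀ x, Ev X0 (symmDiff h z) = gr x → ¬ ∃ y ∈ Rl (NN A κ μ h),
            ∀ n, Encodable.encode (rs (pr x y) (2 * n)) ∈ Ev Y0 h) :
    ∃ z ∈ R0 A κ, ∃ x, Ev X0 (op m m' false (cut m' g) z) = gr x ∧
      ¬ ∃ y : ℕ → ℕ, ∀ n, Encodable.encode (rs (pr x y) (2 * n)) ∈ Ev Y0 g := by
  have hA := R0_ACA hC
  obtain ⟨Kin, D, hKin, hD, hmono, hd, hfam⟩ := exists_family hC (C := C2 m m') (le := le2)
    (Dec := DecP X0 Y0) (AD_C2 hC m m') (AD_le2 hC) (AD_DecP hA hX0 hY0)
    (fun p _ => le2_refl p) (fun p q r => le2_trans) (fun p q σ h => DecP_mono h)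
  have hkin := fun {q : List Bool × List Bool} (hq : C2 m m' q) (hqp : le2 q (p, p)) =>
    kin_dense hC hmm hp hY0 hX hY h1 h2 hD hmono hd
      (fun Φ a b c d => (hfam Φ a b c).2 d) hq hqp
  -- the combined family
  set D' : ℕ → List Bool × List Bool → Prop := fun n r =>
    (n.unpair.1 = 0 → D n.unpair.2 r) ∧
    ((n.unpair.1 = 1 → ((p.length ≤ r.1.length ∧ ¬ le2 r (p, p)) ∨ ∃ j : ℕ, ∃ t : List Bool,
      t <+: r.2 ∧ Nat.pair (Nat.pair n.unpair.2 j) (Encodable.encode t) ∈ X0)) ∧
    (n.unpair.1 = 2 → ((p.length ≤ r.1.length ∧ ¬ le2 r (p, p)) ∨ Kin r []))) with hD'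
  have hlen : AD (R0 A κ) (fun x : ℕ × (List Bool × List Bool) =>
      p.length ≤ x.2.1.length ∧ ¬ le2 x.2 (p, p)) := by
    apply AD.and hA
    · apply AD.of_prim hA
      exact Primrec.nat_le.comp (Primrec.const _)
        (Primrec.list_length.comp (Primrec.fst.comp Primrec.snd))
    · apply AD.not hA
      have h3 : Primrec (fun x : ℕ × (List Bool × List Bool) => (x.2, (p, p))) :=
        Primrec.pair Primrec.snd (Primrec.const (p, p))
      exact AD.comp hA (AD_le2 hC) h3
  have hcase : ∀ k : ℕ, AD (R0 A κ) (fun x : ℕ × (List Bool × List Bool) =>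
      x.1.unpair.1 = k) := by
    intro k
    apply AD.of_prim hA
    exact Primrec.eq.comp (Primrec.fst.comp (Primrec.unpair.comp Primrec.fst)) (Primrec.const k)
  have hD'AD : AD (R0 A κ) (fun x : ℕ × (List Bool × List Bool) => D' x.1 x.2) := by
    apply AD.and hA
    · apply AD.imp hA (hcase 0)
      have h3 : Primrec (fun x : ℕ × (List Bool × List Bool) => (x.1.unpair.2, x.2)) :=
        Primrec.pair (Primrec.snd.comp (Primrec.unpair.comp Primrec.fst)) Primrec.snd
      exact AD.comp hA hD h3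
    · apply AD.and hA
      · apply AD.imp hA (hcase 1)
        apply AD.or hA hlen
        apply AD.ex hA
        apply AD.ex hA
        apply AD.and hA
        · exact AD_prefix hA Primrec.snd
            (Primrec.snd.comp (Primrec.snd.comp (Primrec.fst.comp Primrec.fst)))
        · apply AD_mem hA hX0
          exact Primrec₂.natPair.comp (Primrec₂.natPair.comp
            (Primrec.snd.comp (Primrec.unpair.comp (Primrec.fst.comp
              (Primrec.fst.comp Primrec.fst))))
            (Primrec.snd.comp Primrec.fst)) (Primrec.encode.comp Primrec.snd)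
      · apply AD.imp hA (hcase 2)
        apply AD.or hA hlen
        have h3 : Primrec (fun x : ℕ × (List Bool × List Bool) => (x.2, ([] : List ℕ))) :=
          Primrec.pair Primrec.snd (Primrec.const [])
        exact AD.comp hA hKin h3
  have hD'd : ∀ n r, C2 m m' r → ∃ q, C2 m m' q ∧ le2 q r ∧ D' n q := by
    intro n r hr
    have hn : n.unpair.1 = 0 ∨ n.unpair.1 = 1 ∨ n.unpair.1 = 2 ∨ 3 ≤ n.unpair.1 := by omega
    rcases hn with hn | hn | hn | hn
    · obtain ⟨q, hq1, hq2, hq3⟩ := hd n.unpair.2 r hr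
      exact ⟨q, hq1, hq2, fun _ => hq3, fun h => by omega, fun h => by omega⟩
    · obtain ⟨r1, hr1, hr2, hr3⟩ := exists_zeros hr p.length
      by_cases hc : le2 r1 (p, p)
      · -- take a generic real extending `r1.2`
        obtain ⟨h, hh, hph⟩ := exists_gen' hC r1.2
        obtain ⟨x, hx⟩ := h1 h hh (Pre_prefix hph hc.2)
        have hmem : Nat.pair n.unpair.2 (x n.unpair.2) ∈ Ev X0 h := by
          rw [hx]
          exact ⟨n.unpair.2, rfl⟩
        obtain ⟨L, hL⟩ := exists_string hX hmem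
        have hpc : Pre r1.2 (cut m' h) := by
          intro i b hb
          have hi : i < r1.1.length := by
            by_contra hc
            rw [hr1.1] at hc
            rw [List.getElem?_eq_none (not_lt.1 hc)] at hb
            exact absurd hb (by simp)
          by_cases hcol : i.unpair.1 < m'
          · rw [hph i b hb]
            exact ⟨fun hi => ⟨hi, hcol⟩, fun hi => hi.1⟩
          · have h3 := (hr1.2 i hi).2 (not_lt.1 hcol)
            rw [h3.2] at hb
            have : b = false := (Option.some_injective _ hb).symm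
            subst this
            simp [cut, hcol]
        obtain ⟨q, hq1, hq2, hq3⟩ := exists_along hr1 (G := cut m' h)
          (fun i hi => cut_vanish hi) hpc (L := max L r1.2.length) (le_max_right _ _)
        refine ⟨q, hq1, le2_trans hq2 hr2, fun h => by omega, fun _ => Or.inr
          ⟨x n.unpair.2, ini (cut m' h) L, ?_, hL⟩, fun h => by omega⟩
        rw [hq3]
        exact ini_prefix (le_max_left _ _)
      · refine ⟨r1, hr1, hr2, fun h => by omega, fun _ => Or.inl ⟨by omega, hc⟩,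
          fun h => by omega⟩
    · obtain ⟨r1, hr1, hr2, hr3⟩ := exists_zeros hr p.length
      by_cases hc : le2 r1 (p, p)
      · obtain ⟨q, hq1, hq2, hq3⟩ := hkin hr1 hc
        exact ⟨q, hq1, le2_trans hq2 hr2, fun h => by omega, fun h => by omega,
          fun _ => Or.inr hq3⟩
      · exact ⟨r1, hr1, hr2, fun h => by omega, fun h => by omega,
          fun _ => Or.inl ⟨by omega, hc⟩⟩
    · exact ⟨r, hr, le2_refl r, fun h => by omega, fun h => by omega, fun h => by omega⟩
  obtain ⟨z, hz, hzs, hz1, hz2⟩ := exists_pair hC hmm false hD'AD hD'd (p, p) (C2_start hp)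
  set o : Set ℕ := op m m' false (cut m' g) z with ho
  have hpc : Pre p (cut m' g) := (Pre_cut hp).2 hpg
  have hpo : Pre p o := hz1 g hpc
  set Φ : List Bool × List Bool → Prop := Fil m m' (cut m' g) o with hΦ
  have hdir : ∀ p q, Φ p → Φ q → ∃ r, Φ r ∧ le2 r p ∧ le2 r q := fun p q hp hq =>
    Fil.directed hp hq
  have hpΦ : Φ (p, p) := ⟨C2_start hp, hpc, hpo⟩
  have hcomp : ∀ r, Φ r → ¬ (p.length ≤ r.1.length ∧ ¬ le2 r (p, p)) := by
    rintro r hr ⟨h3, h4⟩
    apply h4
    constructor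
    · change p <+: r.1
      rw [eq_ini hr.2.1]
      exact prefix_ini hpc h3
    · change p <+: r.2
      rw [eq_ini hr.2.2]
      exact prefix_ini hpo (by rw [← hr.1.1]; exact h3)
  have hov : ∀ i : ℕ, m' ≤ i.unpair.1 → i ∉ o := fun i hi => op_vanish hmm hi
  have hcuto : cut m' o = o := by
    ext i
    constructor
    · intro hi
      exact hi.1
    · intro hi
      refine ⟨hi, ?_⟩
      by_contra hc
      exact hov i (not_lt.1 hc) hi
  -- the function `x`
  have hex : ∀ l : ℕ, ∃ j, Nat.pair l j ∈ Ev X0 o := by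
    intro l
    obtain ⟨r, hr, hrD⟩ := hz2 g hg (Nat.pair 1 l)
    have h3 := hrD.2.1 (by simp)
    rcases h3 with h3 | ⟨j, t, ht, hm⟩
    · exact absurd h3 (hcomp r hr)
    · refine ⟨j, ?_⟩
      simp only [Nat.unpair_pair] at hm
      exact mem_Ev (Pre_prefix hr.2.2 ht) hm
  choose x hx using hex
  have huniq : ∀ l j j' : ℕ, Nat.pair l j ∈ Ev X0 o → Nat.pair l j' ∈ Ev X0 o → j = j' := by
    intro l j j' hj hj'
    obtain ⟨L, hL⟩ := exists_string hX hj
    obtain ⟨L', hL'⟩ := exists_string hX hj'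
    rw [hcuto] at hL hL'
    obtain ⟨h, hh, hph⟩ := exists_gen' hC (ini o (L + L' + p.length))
    have hp' : Pre p h := Pre_prefix hph (prefix_ini hpo (by omega))
    obtain ⟨x', hx'⟩ := h1 h hh hp'
    have h3 : Nat.pair l j ∈ Ev X0 h := mem_Ev (Pre_prefix hph (ini_prefix (by omega))) hL
    have h4 : Nat.pair l j' ∈ Ev X0 h := mem_Ev (Pre_prefix hph (ini_prefix (by omega))) hL'
    rw [hx'] at h3 h4
    obtain ⟨a, ha⟩ := h3
    obtain ⟨b, hb⟩ := h4
    rw [Nat.pair_eq_pair] at ha hb
    obtain ⟨rfl, rfl⟩ := ha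
    obtain ⟨rfl, rfl⟩ := hb
    rfl
  have hEv : Ev X0 o = gr x := by
    ext n
    constructor
    · intro hn
      refine ⟨n.unpair.1, ?_⟩
      have h3 : Nat.pair n.unpair.1 n.unpair.2 ∈ Ev X0 o := by rwa [Nat.pair_unpair]
      have h4 := huniq _ _ _ h3 (hx n.unpair.1)
      rw [← h4, Nat.pair_unpair]
    · rintro ⟨l, rfl⟩
      exact hx l
  refine ⟨z, hz, x, hEv, ?_⟩
  rintro ⟨y, hy⟩
  -- the rank
  obtain ⟨r0, hr0, hr0D⟩ := hz2 g hg (Nat.pair 2 0)
  have hr0K : Kin r0 [] := by
    have h3 := hr0D.2.2 (by simp)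
    rcases h3 with h3 | h3
    · exact absurd h3 (hcomp r0 hr0)
    · exact h3
  have hΦD : ∀ n, ∃ p, Φ p ∧ D n p := by
    intro n
    obtain ⟨r, hr, hrD⟩ := hz2 g hg (Nat.pair 0 n)
    have h3 := hrD.1 (by simp)
    simp only [Nat.unpair_pair] at h3
    exact ⟨r, hr, h3⟩
  obtain ⟨ρ, -, hρ⟩ := (hfam Φ (fun p hp => hp.1) hdir hΦD).1 r0 hr0 hr0K
  -- no prefix of `y` is decided
  have hnd : ∀ k : ℕ, ∀ r, Φ r → ¬ DecP X0 Y0 r (rs y k) := by
    rintro k r hr ⟨τ, hτ, hτX, n, hn, d, hnd, hdY⟩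
    rw [rs_length] at hτ hn
    have hτx : τ = rs x k := by
      apply List.ext_getElem?
      intro l
      rcases lt_or_ge l k with hl | hl
      · have hl' : l < τ.length := by omega
        rw [rs_get hl, List.getElem?_eq_getElem hl']
        congr 1
        obtain ⟨t, ht, htX⟩ := hτX l τ[l] (List.getElem?_eq_getElem hl')
        exact huniq l _ _ (mem_Ev (Pre_prefix hr.2.2 ht) htX) (hx l)
      · rw [rs_none hl, List.getElem?_eq_none (by omega)]
    subst hτx
    have hde := Nd_eq hn hnd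
    subst hde
    obtain ⟨L, hL⟩ := exists_string hY (hy n)
    refine hdY (ini (cut m' g) (max L r.1.length)) ?_ (ini (cut m' g) L) ?_ hL
    · exact prefix_ini hr.2.1 (le_max_right _ _)
    · exact ini_prefix (le_max_left _ _)
  have hdesc : ∀ n, ρ (rs y (n + 1)) < ρ (rs y n) := by
    intro n
    have e : rs y (n + 1) = rs y n ++ [y n] := by
      simp [rs, List.range_succ]
    rw [e]
    apply hρ
    intro τ hτ _ r hr
    rw [← e] at hτ
    have : τ = rs y τ.length := by
      apply List.ext_getElem?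
      intro l
      rcases lt_or_ge l τ.length with hl | hl
      · rw [rs_get hl, List.getElem?_eq_getElem hl]
        have h3 : (rs y (n + 1))[l]? = some τ[l] := by
          obtain ⟨u, hu⟩ := hτ
          rw [← hu, List.getElem?_append, if_pos hl, List.getElem?_eq_getElem hl]
        have h4 : l < n + 1 := by
          by_contra hc
          rw [rs_none (not_lt.1 hc)] at h3
          exact absurd h3 (by simp)
        rw [rs_get h4] at h3
        exact h3.symm
      · rw [rs_none hl, List.getElem?_eq_none hl]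
    rw [this]
    exact hnd _ r hr
  obtain ⟨n, hn⟩ := WellFounded.not_rel_apply_succ (r := ((· < ·) : Ordinal.{0} → Ordinal.{0} →
    Prop)) (fun n => ρ (rs y n))
  exact hn (hdesc n)

end Pool.Agent.CC
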