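import Mathlib
import Pool.Agent.Lib.MP_bf67b0_lc.Defs2

/-!
The existence of the arithmetical relations, countability of the symmetric extension, and the
translation of the formulas of set theory.
-/

set_option autoImplicit false

namespace Pool.Agent.CC

open Ordinal Set

/-! ### the arithmetical relations -/

/-- the arithmetical relations except for the join -/
def arZ (𝓕 : ℕ → Set ℕ) : ℕ → List ℕ → Prop
  | 0, l => ∃ p i, l = [p, i] ∧ bit p i = some true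
  | 1, l => ∃ p i, l = [p, i] ∧ bit p i = some false
  | 2, l => ∃ m i, l = [m, i] ∧ i.unpair.1 < m
  | 3, l => ∃ n a b, l = [n, a, b, 2 * Nat.pair (Nat.pair n a) b]
  | 4, l => ∃ n a b, l = [n, a, b, 2 * Nat.pair (Nat.pair n a) b + 1]
  | 5, l => ∃ q, l = [q, 2 * q]
  | 6, l => ∃ q, l = [q, 2 * q + 1]
  | 7, l => ∃ a b, l = [a, b, Nat.pair a b]
  | 8, l => ∃ c i a, l = [c, i, a] ∧ (Denumerable.ofNat (List ℕ) c)[i]? = some a
  | 9, l => ∃ c, l = [c, (Denumerable.ofNat (List ℕ) c).length]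
  | 10, _ => False
  | 11, l => ∃ i, l = [i] ∧ 2 ≤ i ∧ fm i ∈ Sig
  | n + 12, l => ∃ m, l = [m] ∧ m ∈ 𝓕 n

/-- the arithmetical relations -/
def arA (𝓕 : ℕ → Set ℕ) (j : ℕ) (l : List ℕ) : Prop :=
  (j = 10 ∧ ∃ j' c, l = [j', c] ∧ j' ≠ 10 ∧ arZ 𝓕 j' (Denumerable.ofNat (List ℕ) c)) ∨
    (j ≠ 10 ∧ arZ 𝓕 j l)

theorem arA_ne (𝓕 : ℕ → Set ℕ) {j : ℕ} (hj : j ≠ 10) (l : List ℕ) :
    arA 𝓕 j l ↔ arZ 𝓕 j l := by
  constructor
  · rintro (⟨h, _⟩ | ⟨_, h⟩)
    · exact absurd h hj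
    · exact h
  · exact fun h => Or.inr ⟨hj, h⟩

theorem exists_A (𝓕 : ℕ → Set ℕ) : ∃ A, Ar 𝓕 A := by
  refine ⟨arA 𝓕, ⟨⟨?_, ?_, ?_, ?_, ?_, ?_, ?_, ?_, ?_, ?_⟩, ?_, ?_, ?_⟩⟩
  · intro l; exact (arA_ne 𝓕 (by decide) l).trans Iff.rfl
  · intro l; exact (arA_ne 𝓕 (by decide) l).trans Iff.rfl
  · intro l; exact (arA_ne 𝓕 (by decide) l).trans Iff.rfl
  · intro l; exact (arA_ne 𝓕 (by decide) l).trans Iff.rfl
  · intro l; exact (arA_ne 𝓕 (by decide) l).trans Iff.rfl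
  · intro l; exact (arA_ne 𝓕 (by decide) l).trans Iff.rfl
  · intro l; exact (arA_ne 𝓕 (by decide) l).trans Iff.rfl
  · intro l; exact (arA_ne 𝓕 (by decide) l).trans Iff.rfl
  · intro l; exact (arA_ne 𝓕 (by decide) l).trans Iff.rfl
  · intro l; exact (arA_ne 𝓕 (by decide) l).trans Iff.rfl
  · intro l
    constructor
    · rintro (⟨_, j, c, rfl, hj, h⟩ | ⟨h, _⟩)
      · exact ⟨j, c, rfl, hj, (arA_ne 𝓕 hj _).2 h⟩
      · exact absurd rfl h
    · rintro ⟨j, c, rfl, hj, h⟩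
      exact Or.inl ⟨rfl, j, c, rfl, hj, (arA_ne 𝓕 hj _).1 h⟩
  · intro l; exact (arA_ne 𝓕 (by decide) l).trans Iff.rfl
  · intro i l
    rw [Nat.add_comm 12 i]
    exact (arA_ne 𝓕 (by omega) l).trans Iff.rfl

/-- an enumeration containing the graphs of all (partial) recursive functions -/
def prG (n : ℕ) : Set ℕ :=
  {m | ∃ x y, y ∈ (Denumerable.ofNat Nat.Partrec.Code n).eval x ∧ m = Nat.pair x y}

theorem exists_F (𝓖 : ℕ → Set ℕ) : ∃ 𝓕, PrimF 𝓕 ∧ ∀ i, ∃ j, 𝓕 j = 𝓖 i := by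
  refine ⟨fun n => if n % 2 = 0 then prG (n / 2) else 𝓖 (n / 2), ?_, ?_⟩
  · intro f hf
    obtain ⟨c, hc⟩ := Nat.Partrec.Code.exists_code.1 (Nat.Partrec.of_primrec hf)
    refine ⟨2 * Encodable.encode c, ?_⟩
    have h1 : (2 * Encodable.encode c) % 2 = 0 := by omega
    have h2 : (2 * Encodable.encode c) / 2 = Encodable.encode c := by omega
    simp only [h1, h2, if_true]
    ext m
    simp only [prG, Denumerable.ofNat_encode, hc, Set.mem_ofPred_eq]
    constructor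
    · rintro ⟨x, y, hy, rfl⟩
      refine ⟨x, ?_⟩
      have : y = f x := by simpa using hy
      rw [this]
    · rintro ⟨x, rfl⟩
      exact ⟨x, f x, by simp, rfl⟩
  · intro i
    refine ⟨2 * i + 1, ?_⟩
    have h1 : (2 * i + 1) % 2 = 1 := by omega
    have h2 : (2 * i + 1) / 2 = i := by omega
    simp only [h1, h2]
    simp

/-! ### countability -/

theorem NN_countable {A : ℕ → List ℕ → Prop} {κ μ : Ordinal.{0}} (h : Grd A κ μ) (g : Set ℕ) :
    (NN A κ μ g).Countable := by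
  have h1 : (Set.Iio μ).Countable := h.countable.mono (Set.Iio_subset_Iio h.mu_lt.le)
  have h2 := (h.countable.prod h1).image
    (fun p : Ordinal.{0} × Ordinal.{0} => val A μ p.1 (symmDiff g (zR A p.2)))
  refine h2.mono ?_
  rintro y ⟨x, hx, z, hz, rfl⟩
  exact ⟨(x, z), ⟨hx, hz⟩, rfl⟩

/-! ### translation of formulas -/

/-- translation of the formulas of set theory -/
def SFm.tr : SFm → Fm
  | .bot => .bot
  | .eq i j => .eq i j
  | .mem i j => .rel .mem [i, j]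
  | .imp φ ψ => .imp φ.tr ψ.tr
  | .all i φ => .all i φ.tr

theorem NI_mem (A : ℕ → List ℕ → Prop) (κ : Ordinal.{0}) (x y : ZFSet.{0}) :
    NI A κ .mem [x, y] ↔ x ∈ y := by
  constructor
  · rintro ⟨a, b, h, hab⟩
    simp only [List.cons.injEq, and_true] at h
    rw [h.1, h.2]
    exact hab
  · exact fun h => ⟨x, y, rfl, h⟩

theorem Sat_tr (A : ℕ → List ℕ → Prop) (κ : Ordinal.{0}) (N : Set ZFSet.{0}) (φ : SFm)
    (v : ℕ → ZFSet.{0}) : Sat (NI A κ) N v φ.tr ↔ φ.Holds N v := by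
  induction φ generalizing v with
  | bot => exact Iff.rfl
  | eq i j => exact Iff.rfl
  | mem i j => exact NI_mem A κ (v i) (v j)
  | imp φ ψ h1 h2 =>
    simp only [SFm.tr, SFm.Holds, Sat_imp, h1, h2]
  | all i φ ih =>
    simp only [SFm.tr, SFm.Holds, Sat_all, ih]

end Pool.Agent.CC
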