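import Mathlib
import Pool.Agent.Lib.MP_bf67b0_lc.Model0
import Pool.Agent.Lib.MP_bf67b0_lc.NSep
import Pool.Agent.Lib.MP_bf67b0_lc.NColl
import Pool.Agent.Lib.MP_bf67b0_lc.NBasic
import Pool.Agent.Lib.MP_bf67b0_lc.Names

/-!
The symmetric extension is a transitive model of ZF.
-/

set_option autoImplicit false

namespace Pool.Agent.CC

open Ordinal Set

theorem NN_transitive {A : ℕ → List ℕ → Prop} {κ μ : Ordinal.{0}} (hA : Arith A)
    (h : Grd A κ μ) {g : Set ℕ} (hg : Gen A κ g) :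
    ∀ x ∈ NN A κ μ g, ∀ y ∈ x, y ∈ NN A κ μ g :=
  fun _ hx _ hy => NN_trans hA h hg hx hy

/-! ### the axioms -/

section
variable {A : ℕ → List ℕ → Prop} {κ μ : Ordinal.{0}} (hA : Arith A) (h : Grd A κ μ)
  {g : Set ℕ} (hg : Gen A κ g)
include hA h hg

/-- Separation for arbitrary parameters -/
theorem NN_sep_val (φ : Fm) (v : ℕ → ZFSet.{0}) (hv : ∀ k, v k ∈ NN A κ μ g) (a : ZFSet.{0})
    (ha : a ∈ NN A κ μ g) : ∃ b ∈ NN A κ μ g, ∀ w, w ∈ b ↔ w ∈ a ∧
      Sat (NI A κ) (NN A κ μ g) (Function.update v 0 w) φ := by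
  obtain ⟨x₀, hx₀, rfl⟩ := (NN_iff hA h g a).1 ha
  choose X hX hvX using fun k => (NN_iff hA h g (v k)).1 (hv k)
  obtain ⟨y, hy, -, hyv⟩ := NN_sep hA h hg φ
    (fun k => if k = 0 then x₀ else if k < φ.bnd then X k else x₀)
    (fun k => by
      by_cases h0 : k = 0
      · simp only [h0, if_true, hx₀]
      · by_cases h1 : k < φ.bnd
        · simp only [h0, h1, if_false, if_true, hX]
        · simp only [h0, h1, if_false, hx₀])
    (max (supp A x₀) ((Finset.range φ.bnd).sup (fun k => supp A (X k))))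
    (fun k => by
      by_cases h0 : k = 0
      · simp only [h0, if_true, le_max_left]
      · by_cases h1 : k < φ.bnd
        · simp only [h0, h1, if_false, if_true]
          exact le_trans (Finset.le_sup (f := fun k => supp A (X k)) (Finset.mem_range.2 h1))
            (le_max_right _ _)
        · simp only [h0, h1, if_false, le_max_left])
  refine ⟨val A μ y g, (NN_iff hA h g _).2 ⟨y, hy, rfl⟩, fun w => ?_⟩
  rw [hyv w]
  simp only [if_true]
  refine and_congr_right fun _ => Sat_congr fun k hk => ?_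
  by_cases h0 : k = 0
  · subst h0; simp
  · simp only [Function.update_of_ne h0, h0, hk, if_false, if_true]
    exact (hvX k).symm

theorem NN_ZF_aux : ModelZF (NN A κ μ g) := by
  have htr : ∀ {x y : ZFSet.{0}}, x ∈ NN A κ μ g → y ∈ x → y ∈ NN A κ μ g :=
    fun hx hy => NN_trans hA h hg hx hy
  have hω : ω < κ := lt_of_le_of_lt h.om_le h.mu_lt
  have h0κ : (0 : Ordinal.{0}) < κ := omega0_pos.trans hω
  have hsep : ∀ (φ : SFm) (v : ℕ → ZFSet.{0}), (∀ k, v k ∈ NN A κ μ g) → ∀ x ∈ NN A κ μ g,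
      ∃ z ∈ NN A κ μ g, ∀ w, w ∈ z ↔ w ∈ x ∧ φ.Holds (NN A κ μ g) (Function.update v 0 w) := by
    intro φ v hv x hx
    obtain ⟨b, hb, hbw⟩ := NN_sep_val hA h hg φ.tr v hv x hx
    exact ⟨b, hb, fun w => by rw [hbw w, Sat_tr]⟩
  refine ⟨⟨_, NN_ord hA h hg 0 h0κ⟩, ?_, ?_, ?_, ?_, ?_, ?_, ?_, ?_⟩
  · -- extensionality
    intro x hx y hy hxy
    ext z
    constructor
    · exact fun hz => (hxy z (htr hx hz)).1 hz
    · exact fun hz => (hxy z (htr hy hz)).2 hz
  · -- foundation
    rintro x hx ⟨y, -, hy⟩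
    have hne : x ≠ ∅ := by
      rintro rfl
      exact ZFSet.notMem_empty _ hy
    obtain ⟨z, hz, hzx⟩ := ZFSet.regularity x hne
    refine ⟨z, htr hx hz, hz, fun w _ hw => ?_⟩
    have : w ∈ x ∩ z := ZFSet.mem_inter.2 hw
    rw [hzx] at this
    exact ZFSet.notMem_empty _ this
  · -- pairing
    intro x hx y hy
    exact ⟨{x, y}, NN_pair hA h hg x y hx hy, fun w _ => ZFSet.mem_pair⟩
  · -- union
    intro x hx
    refine ⟨ZFSet.sUnion x, NN_union hA h hg x hx, fun w _ => ?_⟩
    rw [ZFSet.mem_sUnion]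
    constructor
    · rintro ⟨y, hy, hw⟩
      exact ⟨y, htr hx hy, hy, hw⟩
    · rintro ⟨y, -, hy, hw⟩
      exact ⟨y, hy, hw⟩
  · -- power
    intro x hx
    obtain ⟨b, hb, hbx⟩ := NN_pow hA h hg x hx
    obtain ⟨z, hz, hzw⟩ := hsep (.all 1 (.imp (.mem 1 0) (.mem 1 2))) (fun _ => x)
      (fun _ => hx) b hb
    refine ⟨z, hz, fun w hw => ?_⟩
    rw [hzw w]
    have key : SFm.Holds (NN A κ μ g) (Function.update (fun _ => x) 0 w)
        (.all 1 (.imp (.mem 1 0) (.mem 1 2))) ↔ ∀ y ∈ NN A κ μ g, y ∈ w → y ∈ x := by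
      simp [SFm.Holds, Function.update]
    rw [key]
    constructor
    · exact fun hh => hh.2
    · intro hh
      exact ⟨hbx w hw (fun y hy => hh y (htr hw hy) hy), hh⟩
  · -- infinity
    refine ⟨toZFSet ω, NN_ord hA h hg ω hω, ?_, ?_⟩
    · refine ⟨toZFSet 0, NN_ord hA h hg 0 h0κ, ?_, fun w _ hw => ?_⟩
      · exact toZFSet_mem_toZFSet_iff.2 omega0_pos
      · rw [toZFSet_zero] at hw
        exact ZFSet.notMem_empty _ hw
    · intro y hy hyω
      obtain ⟨a, ha, rfl⟩ := mem_toZFSet_iff.1 hyω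
      have ha1 : a + 1 < ω := isSuccLimit_omega0.add_one_lt ha
      refine ⟨toZFSet (a + 1), NN_ord hA h hg _ (ha1.trans hω),
        toZFSet_mem_toZFSet_iff.2 ha1, fun w _ => ?_⟩
      rw [toZFSet_add_one, ZFSet.mem_insert_iff]
      exact or_comm
  · -- separation
    intro φ v hv x hx
    obtain ⟨z, hz, hzw⟩ := hsep φ v hv x hx
    exact ⟨z, hz, fun w _ => hzw w⟩
  · -- replacement
    intro φ v hv x hx hfun
    obtain ⟨b, hb, hbx⟩ := NN_coll hA h hg φ.tr v hv x hx (fun y hy => by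
      obtain ⟨z, hz, hzc⟩ := hfun y (htr hx hy) hy
      exact ⟨z, hz, (Sat_tr _ _ _ _ _).2 ((hzc z hz).2 rfl)⟩)
    set n : ℕ := max 2 φ.tr.bnd with hn
    obtain ⟨z, hz, hzw⟩ := NN_sep_val hA h hg
      (.ex n (.and (.rel .mem [n, 1])
        (φ.tr.ren (fun k => if k = 0 then n else if k = 1 then 0 else k))))
      (Function.update v 1 x)
      (fun k => by
        by_cases hk : k = 1
        · subst hk; simpa using hx
        · simpa [Function.update_of_ne hk] using hv k) b hb
    have hn2 : 2 ≤ n := le_max_left _ _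
    have hnb : φ.tr.bnd ≤ n := le_max_right _ _
    refine ⟨z, hz, fun c hc => ?_⟩
    rw [hzw c]
    have key : Sat (NI A κ) (NN A κ μ g) (Function.update (Function.update v 1 x) 0 c)
        (.ex n (.and (.rel .mem [n, 1])
          (φ.tr.ren (fun k => if k = 0 then n else if k = 1 then 0 else k)))) ↔
        ∃ a ∈ NN A κ μ g, a ∈ x ∧
          φ.Holds (NN A κ μ g) (Function.update (Function.update v 0 a) 1 c) := by
      rw [Sat_ex]
      refine exists_congr fun a => and_congr_right fun _ => ?_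
      rw [Sat_and, Sat_rel, Sat_ren, ← Sat_tr A κ]
      have h1n : (1 : ℕ) ≠ n := by omega
      have e1 : List.map (Function.update (Function.update (Function.update v 1 x) 0 c) n a)
          [n, 1] = [a, x] := by
        simp [Function.update_of_ne h1n]
      rw [e1, NI_mem]
      refine and_congr_right fun _ => Sat_congr fun k hk => ?_
      by_cases hk0 : k = 0
      · subst hk0
        simp
      · by_cases hk1 : k = 1
        · subst hk1
          have h0n : (0 : ℕ) ≠ n := by omega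
          simp [Function.update_of_ne h0n]
        · have hkn : k ≠ n := by omega
          simp only [hk0, hk1, if_false, Function.update_of_ne hkn, Function.update_of_ne hk0,
            Function.update_of_ne hk1]
    rw [key]
    constructor
    · exact fun hh => hh.2
    · rintro ⟨a, ha, hax, hac⟩
      refine ⟨?_, a, ha, hax, hac⟩
      obtain ⟨c', hc', hs⟩ := hbx a hax
      obtain ⟨d, hd, hdc⟩ := hfun a ha hax
      have h1 : c' = d := (hdc c' (htr hb hc')).1 ((Sat_tr _ _ _ _ _).1 hs)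
      have h2 : c = d := (hdc c hc).1 hac
      rw [h2, ← h1]
      exact hc'

end

theorem NN_ZF {A : ℕ → List ℕ → Prop} {κ μ : Ordinal.{0}} (hA : Arith A) (h : Grd A κ μ)
    {g : Set ℕ} (hg : Gen A κ g) : ModelZF (NN A κ μ g) := NN_ZF_aux hA h hg

end Pool.Agent.CC
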