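import Pool.Agent.Lib.MP_bf67b0_lc.Aca
import Pool.Agent.Lib.MP_bf67b0_lc.GroundReals
import Pool.Agent.Lib.MP_bf67b0_lc.ExtReals
import Pool.Agent.Lib.MP_bf67b0_lc.Codes
import Pool.Agent.Lib.MP_bf67b0_lc.SetTheory2
import Pool.Agent.Lib.MP_bf67b0_lc.Model

/-!
Q11a: what is forced when a sequence of nonempty `Π¹₁` sets of reals belongs to the symmetric
extension.
-/

set_option autoImplicit false

namespace Pool.Agent.CC

open Ordinal Set

section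
variable {𝓕 : ℕ → Set ℕ} {A : ℕ → List ℕ → Prop} {κ μ : Ordinal.{0}} (hC : Ctx 𝓕 A κ μ)
include hC

/-- the section of a tree is nonempty -/
private def fpTR (a b t : ZFSet.{0}) : Prop := ∃ (x y : ℕ → ℕ) (T : Set (List ℕ)), a = rz x ∧
    b = rz y ∧ t = sz (Encodable.encode '' T) ∧ IsTree T ∧ ∀ n, rs (pr x y) n ∈ T

private def fpRZ (a s : ZFSet.{0}) : Prop := ∃ x : ℕ → ℕ, a = rz x ∧ s = sz (gr x)

private def fpIsR (a : ZFSet.{0}) : Prop := ∃ x : ℕ → ℕ, a = rz x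

omit hC in
private theorem fpTR_iff {x y : ℕ → ℕ} {T : Set (List ℕ)} (hT : IsTree T) :
    fpTR (rz x) (rz y) (sz (Encodable.encode '' T)) ↔ ∀ n, rs (pr x y) n ∈ T := by
  constructor
  · rintro ⟨x', y', T', hx, hy, hT', -, h⟩
    rw [rz_inj] at hx hy
    rw [sz_inj] at hT'
    subst hx hy
    have : T = T' := Encodable.encode_injective.image_injective hT'
    rw [this]; exact h
  · intro h
    exact ⟨x, y, T, rfl, rfl, rfl, hT, h⟩

omit hC in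
private theorem fp_even {x y : ℕ → ℕ} {T : Set (List ℕ)} (hT : IsTree T) :
    (∀ n, Encodable.encode (rs (pr x y) (2 * n)) ∈ Encodable.encode '' T) ↔
      ∀ n, rs (pr x y) n ∈ T := by
  have h1 : ∀ s : List ℕ, Encodable.encode s ∈ Encodable.encode '' T ↔ s ∈ T :=
    fun s => Encodable.encode_injective.mem_set_image
  simp only [h1]
  constructor
  · intro h n
    refine hT _ _ ?_ (h n)
    refine ⟨(List.range' n n).map (pr x y), ?_⟩
    rw [rs, rs, ← List.map_append, List.range_eq_range', List.range_eq_range',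
      two_mul, ← List.range'_append_1]
    simp
  · intro h n
    exact h _

private theorem fpIsR_df : DfN A κ μ (fun _ v => fpIsR (v 0)) := by
  have h1 : DfN A κ μ (fun h v => ∃ c ∈ NN A κ μ h.1, fpRZ (v 0) c) :=
    Df.ex (Q := fun _ c v => fpRZ (v 0) c) ((DfN_rz hC).subst (fun k => if k = 0 then 1 else 0))
  refine h1.congr fun h v hv => ?_
  constructor
  · rintro ⟨c, -, x, hx, -⟩
    exact ⟨x, hx⟩
  · rintro ⟨x, hx⟩
    refine ⟨sz (gr x), ?_, x, hx, rfl⟩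
    have := hv 0
    rw [hx] at this
    exact (rz_mem_iff hC h.2 x).1 this

/-- the predicate which is forced -/
private def fpP (k : ℕ) (h : {h : Set ℕ // Gen A κ h}) (v : ℕ → ZFSet.{0}) : Prop :=
  ∃ w ∈ NN A κ μ h.1, (∃ j ∈ NN A κ μ h.1, j = nz k ∧ ZFSet.pair j w ∈ v 0) ∧
    (∀ w' ∈ NN A κ μ h.1, (∃ j ∈ NN A κ μ h.1, j = nz k ∧ ZFSet.pair j w' ∈ v 0) → w' = w) ∧
    (∃ a ∈ NN A κ μ h.1, a ∈ w ∧ fpRZ a (v 1)) ∧
    (∃ T : Set (List ℕ), v 2 = sz (Encodable.encode '' T) ∧ IsTree T) ∧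
    ∀ a ∈ NN A κ μ h.1, fpIsR a → (a ∈ w ↔ ¬ ∃ b ∈ NN A κ μ h.1, fpTR a b (v 2))

private theorem fpP_df (k : ℕ) : DfN A κ μ (fpP (μ := μ) k) := by
  have happ : DfN A κ μ (fun h v => ∃ j ∈ NN A κ μ h.1, j = nz k ∧ ZFSet.pair j (v 0) ∈ v 1) := by
    refine Df.ex (Q := fun _ j v => j = nz k ∧ ZFSet.pair j (v 0) ∈ v 1) ?_
    exact (DfN_nz hC k).and (DfN_app hC)
  -- variables `w, v 0, v 1, ...`
  refine Df.ex (Q := fun (h : {h : Set ℕ // Gen A κ h}) w v =>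
    (∃ j ∈ NN A κ μ h.1, j = nz k ∧ ZFSet.pair j w ∈ v 0) ∧
    (∀ w' ∈ NN A κ μ h.1, (∃ j ∈ NN A κ μ h.1, j = nz k ∧ ZFSet.pair j w' ∈ v 0) → w' = w) ∧
    (∃ a ∈ NN A κ μ h.1, a ∈ w ∧ fpRZ a (v 1)) ∧
    (∃ T : Set (List ℕ), v 2 = sz (Encodable.encode '' T) ∧ IsTree T) ∧
    ∀ a ∈ NN A κ μ h.1, fpIsR a → (a ∈ w ↔ ¬ ∃ b ∈ NN A κ μ h.1, fpTR a b (v 2))) ?_
  refine happ.and (Df.and ?_ (Df.and ?_ (Df.and ?_ ?_)))
  · -- uniqueness
    refine Df.all (Q := fun (h : {h : Set ℕ // Gen A κ h}) w' v => (∃ j ∈ NN A κ μ h.1, j = nz k ∧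
      ZFSet.pair j w' ∈ v 1) → w' = v 0) ?_
    exact (happ.subst (fun i => if i = 0 then 0 else i + 1)).imp (Df.eq 0 1)
  · refine Df.ex (Q := fun h a v => a ∈ v 0 ∧ fpRZ a (v 2)) ?_
    exact ((DfN_mem hC).subst (fun i => i)).and ((DfN_rz hC).subst (fun i => if i = 0 then 0 else 3))
  · exact (DfN_isTree hC).subst (fun _ => 3)
  · refine Df.all (Q := fun (h : {h : Set ℕ // Gen A κ h}) a v => fpIsR a → (a ∈ v 0 ↔ ¬ ∃ b ∈ NN A κ μ h.1, fpTR a b (v 3))) ?_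
    refine (fpIsR_df hC).imp (((DfN_mem hC).subst (fun i => i)).iff (Df.not ?_))
    refine Df.ex (Q := fun h b v => fpTR (v 0) b (v 4)) ?_
    exact (DfN_tree hC).subst (fun i => if i = 0 then 1 else if i = 1 then 0 else 5)

omit hC in
private theorem fp_Pre (p : ℕ) (g : Set ℕ) : Pre (cond p) g ↔ inC p g := by
  constructor
  · intro h i
    refine ⟨fun hb => ?_, fun hb => ?_⟩
    · exact (h i true hb).1 rfl
    · have := h i false hb
      intro hi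
      exact absurd (this.2 hi) (by simp)
  · intro h i b hb
    cases b
    · have := (h i).2 hb
      simp [this]
    · have := (h i).1 hb
      simp [this]

omit hC in
private theorem fp_gr (x : ℕ → ℕ) (c : ℕ) : c ∈ gr x ↔ c.unpair.2 = x c.unpair.1 := by
  constructor
  · rintro ⟨n, rfl⟩
    simp
  · intro h
    exact ⟨c.unpair.1, by rw [← h, Nat.pair_unpair]⟩

omit hC in
private theorem fp_pr {𝓡 : Set (Set ℕ)} (h𝓡 : ACA 𝓡) {x y : ℕ → ℕ} (hx : gr x ∈ 𝓡)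
    (hy : gr y ∈ 𝓡) : gr (pr x y) ∈ 𝓡 := by
  have h1 : Primrec (fun c : ℕ => c.unpair.1) := Primrec.fst.comp Primrec.unpair
  have h2 : Primrec (fun c : ℕ => c.unpair.2) := Primrec.snd.comp Primrec.unpair
  have hf : Primrec (fun c : ℕ => Nat.pair (c.unpair.1 / 2) c.unpair.2) :=
    Primrec₂.natPair.comp (Primrec.nat_div.comp h1 (Primrec.const 2)) h2
  have hev : AD 𝓡 (fun c : ℕ => c.unpair.1 % 2 = 0) := by
    apply AD.of_prim h𝓡
    exact Primrec.eq.comp (Primrec.nat_mod.comp h1 (Primrec.const 2)) (Primrec.const 0)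
  have hx' : AD 𝓡 (fun c : ℕ => Nat.pair (c.unpair.1 / 2) c.unpair.2 ∈ gr x) :=
    AD.comp h𝓡 (P := fun n : ℕ => n ∈ gr x) (AD_nat.2 hx) hf
  have hy' : AD 𝓡 (fun c : ℕ => Nat.pair (c.unpair.1 / 2) c.unpair.2 ∈ gr y) :=
    AD.comp h𝓡 (P := fun n : ℕ => n ∈ gr y) (AD_nat.2 hy) hf
  have h3 := AD_nat.1 (AD.and h𝓡 (AD.imp h𝓡 hev hx') (AD.imp h𝓡 (AD.not h𝓡 hev) hy'))
  convert h3 using 1
  ext c
  rw [fp_gr, pr]
  simp only [fp_gr, Nat.unpair_pair, Set.mem_ofPred_eq]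
  split_ifs with h
  · simp [h]
  · simp [h]

/-- Q11a: what is forced -/
theorem forced_Pi {g : Set ℕ} (hg : Gen A κ g) (X : ℕ → Set (ℕ → ℕ))
    (hX : ∀ n, X n ∈ PiC (NN A κ μ g) 1) (hne : ∀ n, (X n).Nonempty) {y : Ordinal.{0}}
    (hy : y < κ) {m : ℕ} (hm : supp A y ≤ m) (hval : val A μ y g = seqZ (fun n => setZ (X n)))
    (k : ℕ) : ∃ (p : List Bool) (m' : ℕ), m ≤ m' ∧ p.length ≤ m' ∧ Pre p g ∧
      ∃ X0 ∈ R0 A κ, ∃ Y0 ∈ R0 A κ, Inv m' X0 ∧ Inv m' Y0 ∧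
        (∀ h, Gen A κ h → Pre p h → ∃ x, Ev X0 h = gr x) ∧
        (∀ h, Gen A κ h → Pre p h → ∀ z ∈ R0 A κ, inG m z → Pre p (symmDiff h z) →
          ∀ x, Ev X0 (symmDiff h z) = gr x → ¬ ∃ y ∈ Rl (NN A κ μ h),
            ∀ n, Encodable.encode (rs (pr x y) (2 * n)) ∈ Ev Y0 h) ∧
        (∀ x ∈ Rl (NN A κ μ g), x ∈ X k ↔ ¬ ∃ y ∈ Rl (NN A κ μ g),
            ∀ n, Encodable.encode (rs (pr x y) (2 * n)) ∈ Ev Y0 g) := by
  have hA : Arith A := hC.ar.toArith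
  have hG := hC.grd
  -- the tree and an element
  obtain ⟨Y, ⟨T, hT, hTN, rfl⟩, hXk⟩ := hX k
  obtain ⟨x0, hx0⟩ := hne k
  have hx0R : x0 ∈ Rl (NN A κ μ g) := by rw [hXk] at hx0; exact hx0.1
  -- membership in `X k`
  have hmem : ∀ x ∈ Rl (NN A κ μ g), x ∈ X k ↔ ¬ ∃ y ∈ Rl (NN A κ μ g),
      ∀ n, rs (pr x y) n ∈ T := by
    intro x hx
    rw [hXk]
    constructor
    · rintro ⟨-, h⟩ ⟨y, hy, hyT⟩
      refine h ⟨y, hy, ?_, hyT⟩
      have h1 := (rz_mem_iff hC hg x).1 hx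
      have h2 := (rz_mem_iff hC hg y).1 hy
      exact (rz_mem_iff hC hg _).2 (fp_pr (RR_ACA hC hg) h1 h2)
    · intro h
      refine ⟨hx, ?_⟩
      rintro ⟨y, hy, -, hyT⟩
      exact h ⟨y, hy, hyT⟩
  -- codes
  obtain ⟨m1, hm1⟩ := (mem_RR_iff hC hg (gr x0)).1 ((rz_mem_iff hC hg x0).1 hx0R)
  obtain ⟨m2, hm2⟩ := (mem_RR_iff hC hg (Encodable.encode '' T)).1 hTN
  obtain ⟨X0, hX0, hI0, hE0⟩ := (mem_Rm_iff hC hg m1 _).1 hm1
  obtain ⟨Y0, hY0, hJ0, hF0⟩ := (mem_Rm_iff hC hg m2 _).1 hm2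
  obtain ⟨y1, hy1, -, hv1⟩ := exists_evName hC hX0 hI0
  obtain ⟨y2, hy2, -, hv2⟩ := exists_evName hC hY0 hJ0
  let u : ℕ → Ordinal.{0} := fun i => if i = 0 then y else if i = 1 then y1 else y2
  have hu : ∀ i, u i < κ := by
    intro i
    simp only [u]
    split_ifs
    exacts [hy, hy1, hy2]
  have hPg : fpP (μ := μ) k ⟨g, hg⟩ (fun i => val A μ (u i) g) := by
    have hseq : seqZ (fun n => setZ (X n)) ∈ NN A κ μ g := by
      rw [← hval]
      exact (NN_iff hA hG g _).2 ⟨y, hy, rfl⟩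
    have hw : setZ (X k) ∈ NN A κ μ g := seqZ_apply_mem hC hg hseq k
    have hmemw : ∀ x, rz x ∈ setZ (X k) ↔ x ∈ X k := by
      intro x
      rw [setZ, ZFSet.mem_range]
      constructor
      · rintro ⟨⟨x', hx'⟩, h⟩
        rw [rz_inj] at h
        exact h ▸ hx'
      · intro h
        exact ⟨⟨x, h⟩, rfl⟩
    have hpk : ∀ w', ZFSet.pair (nz k) w' ∈ seqZ (fun n => setZ (X n)) ↔ w' = setZ (X k) := by
      intro w'
      rw [seqZ, ZFSet.mem_range]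
      constructor
      · rintro ⟨n, hn⟩
        have h1 := ZFSet.pair_injective hn
        have h2 : n = k := nz_inj.1 h1.1
        subst h2
        exact h1.2.symm
      · rintro rfl
        exact ⟨k, rfl⟩
    refine ⟨setZ (X k), hw, ⟨nz k, nz_mem hC hg k, rfl, ?_⟩, ?_, ?_, ?_, ?_⟩
    · show _ ∈ val A μ y g
      rw [hval, hpk]
    · rintro w' - ⟨j, -, rfl, hj⟩
      have hj' : ZFSet.pair (nz k) w' ∈ val A μ y g := hj
      rwa [hval, hpk] at hj'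
    · refine ⟨rz x0, hx0R, (hmemw x0).2 hx0, x0, rfl, ?_⟩
      show val A μ y1 g = _
      rw [hv1, hE0]
    · refine ⟨T, ?_, hT⟩
      show val A μ y2 g = _
      rw [hv2, hF0]
    · rintro a ha ⟨x, rfl⟩
      rw [hmemw, hmem x ha]
      refine not_congr ?_
      constructor
      · rintro ⟨y, hy, h⟩
        refine ⟨rz y, hy, ?_⟩
        show fpTR _ _ (val A μ y2 g)
        rw [hv2, ← hF0, fpTR_iff hT]
        exact h
      · rintro ⟨b, hb, h⟩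
        have hb' : fpTR (rz x) b (val A μ y2 g) := h
        obtain ⟨_, y, _, _, hby, _⟩ := id hb'
        subst hby
        rw [hv2, ← hF0, fpTR_iff hT] at hb'
        exact ⟨y, hb, hb'⟩
  obtain ⟨p, hpg, hp⟩ := force hA hG (fpP_df hC k) u hu hg hPg
  refine ⟨cond p, max (max m1 m2) (max m (cond p).length), ?_, ?_, (fp_Pre p g).2 hpg,
    X0, hX0, Y0, hY0, Inv.mono ?_ hI0, Inv.mono ?_ hJ0, ?_, ?_, ?_⟩
  · exact le_trans (le_max_left _ _) (le_max_right _ _)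
  · exact le_trans (le_max_right _ _) (le_max_right _ _)
  · exact le_trans (le_max_left _ _) (le_max_left _ _)
  · exact le_trans (le_max_right _ _) (le_max_left _ _)
  · intro h hh hph
    obtain ⟨w, -, -, -, ⟨a, -, -, x, -, hx⟩, -, -⟩ := hp h hh ((fp_Pre p h).1 hph)
    refine ⟨x, ?_⟩
    have hx' : val A μ y1 h = sz (gr x) := hx
    rw [hv1, sz_inj] at hx'
    exact hx'
  · intro h hh hph z hz hzm hphz x hx
    have hhz : Gen A κ (symmDiff h z) := Gen.sd hC hh hz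
    obtain ⟨w, -, ⟨j, -, rfl, hj⟩, -, ⟨a, -, haw, x', rfl, hx'⟩, -, -⟩ :=
      hp _ hhz ((fp_Pre p _).1 hphz)
    have hx1 : val A μ y1 (symmDiff h z) = sz (gr x') := hx'
    rw [hv1, sz_inj, hx] at hx1
    have hxx : x = x' := by
      funext n
      have h1 : Nat.pair n (x n) ∈ gr x' := by rw [← hx1]; exact ⟨n, rfl⟩
      obtain ⟨n', hn'⟩ := h1
      have := Nat.pair_eq_pair.1 hn'
      rw [this.2, this.1]
    subst hxx
    have hj' : ZFSet.pair (nz k) w ∈ val A μ y (symmDiff h z) := hj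
    rw [val_symmDiff hC hh hy hm hz hzm] at hj'
    obtain ⟨w', hw'N, ⟨_, -, rfl, hj1⟩, huniq, -, ⟨T', hT', hTT'⟩, hlast⟩ :=
      hp h hh ((fp_Pre p h).1 hph)
    have hyN : val A μ y h ∈ NN A κ μ h := (NN_iff hA hG h _).2 ⟨y, hy, rfl⟩
    have hpN : ZFSet.pair (nz k) w ∈ NN A κ μ h := NN_transitive hA hG hh _ hyN _ hj'
    have hwN : w ∈ NN A κ μ h := ((pair_mem hC hh).1 hpN).2
    have hww : w = w' := huniq w hwN ⟨nz k, nz_mem hC hh k, rfl, hj'⟩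
    subst hww
    have hxN : rz x ∈ NN A κ μ h := NN_transitive hA hG hh _ hwN _ haw
    have h1 := (hlast (rz x) hxN ⟨x, rfl⟩).1 haw
    have hT1 : val A μ y2 h = sz (Encodable.encode '' T') := hT'
    rintro ⟨y', hy', hyy⟩
    apply h1
    refine ⟨rz y', hy', ?_⟩
    show fpTR _ _ (val A μ y2 h)
    rw [hT1, fpTR_iff hTT']
    rw [hv2, sz_inj] at hT1
    rw [hT1, fp_even hTT'] at hyy
    exact hyy
  · intro x hx
    rw [hmem x hx, ← hF0]
    simp only [fp_even hT]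

end

end Pool.Agent.CC
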