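import Mathlib
import Pool.Agent.Lib.MP_bf67b0_lc.Defs2
import Pool.Agent.Lib.MP_bf67b0_lc.ForcedPi
import Pool.Agent.Lib.MP_bf67b0_lc.CorePi
import Pool.Agent.Lib.MP_bf67b0_lc.Codes
import Pool.Agent.Lib.MP_bf67b0_lc.SetTheory2
import Pool.Agent.Lib.MP_bf67b0_lc.Pairs
import Pool.Agent.Lib.MP_bf67b0_lc.ExtReals

/-!
Q11c, Q11d: uniform choice of codes of reals, and countable choice for the class `Π¹₁`.
-/

set_option autoImplicit false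

namespace Pool.Agent.CC

open Ordinal Set

/-! ### sets as seen by the symmetric extension -/

section
variable {𝓕 : ℕ → Set ℕ} {A : ℕ → List ℕ → Prop} {κ μ : Ordinal.{0}} (hC : Ctx 𝓕 A κ μ)
include hC

theorem nat_lt_kappa (n : ℕ) : (n : Ordinal.{0}) < κ :=
  lt_of_lt_of_le (Ordinal.natCast_lt_omega0 n) (hC.grd.om_le.trans hC.grd.mu_lt.le)

theorem NI_ar (j : ℕ) (l : List ZFSet.{0}) :
    NI A κ (.ar j) l ↔ ∃ l' : List ℕ, l = l'.map nz ∧ A j l' := by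
  constructor
  · rintro ⟨l', h1, h2, l'', h3, h4⟩
    refine ⟨l'', ?_, h4⟩
    rw [h2, h3, List.map_map]
    refine List.map_congr_left fun n _ => ?_
    simp [nz_eq]
  · rintro ⟨l', h1, h2⟩
    refine ⟨l'.map (fun n : ℕ => (n : Ordinal.{0})), ?_, ?_, l', rfl, h2⟩
    · intro a ha
      obtain ⟨n, -, rfl⟩ := List.mem_map.1 ha
      exact nat_lt_kappa hC n
    · rw [h1, List.map_map]
      refine List.map_congr_left fun n _ => ?_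
      simp [nz_eq]

theorem NI_ar0 (s i : ZFSet.{0}) : NI A κ (.ar 0) [s, i] ↔
    ∃ a b : ℕ, s = nz a ∧ i = nz b ∧ bit a b = some true := by
  rw [NI_ar hC]
  constructor
  · rintro ⟨l, h1, h2⟩
    obtain ⟨p, i, rfl, h⟩ := (hC.ar.a0 l).1 h2
    simp only [List.map_cons, List.map_nil, List.cons.injEq, and_true] at h1
    exact ⟨p, i, h1.1, h1.2, h⟩
  · rintro ⟨a, b, rfl, rfl, h⟩
    exact ⟨[a, b], rfl, (hC.ar.a0 _).2 ⟨a, b, rfl, h⟩⟩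

theorem NI_ar1 (s i : ZFSet.{0}) : NI A κ (.ar 1) [s, i] ↔
    ∃ a b : ℕ, s = nz a ∧ i = nz b ∧ bit a b = some false := by
  rw [NI_ar hC]
  constructor
  · rintro ⟨l, h1, h2⟩
    obtain ⟨p, i, rfl, h⟩ := (hC.ar.a1 l).1 h2
    simp only [List.map_cons, List.map_nil, List.cons.injEq, and_true] at h1
    exact ⟨p, i, h1.1, h1.2, h⟩
  · rintro ⟨a, b, rfl, rfl, h⟩
    exact ⟨[a, b], rfl, (hC.ar.a1 _).2 ⟨a, b, rfl, h⟩⟩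

theorem NI_ar7 (s i t : ZFSet.{0}) : NI A κ (.ar 7) [s, i, t] ↔
    ∃ a b : ℕ, s = nz a ∧ i = nz b ∧ t = nz (Nat.pair a b) := by
  rw [NI_ar hC]
  constructor
  · rintro ⟨l, h1, h2⟩
    obtain ⟨a, b, rfl⟩ := (hC.ar.a7 l).1 h2
    simp only [List.map_cons, List.map_nil, List.cons.injEq, and_true] at h1
    exact ⟨a, b, h1.1, h1.2.1, h1.2.2⟩
  · rintro ⟨a, b, rfl, rfl, rfl⟩
    exact ⟨[a, b, Nat.pair a b], rfl, (hC.ar.a7 _).2 ⟨a, b, rfl⟩⟩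

theorem NI_E (n : ℕ) {ζ : Ordinal.{0}} (hζ : ζ < κ) :
    NI A κ .E [nz n, toZFSet ζ] ↔ n ∈ zR A ζ := by
  constructor
  · rintro ⟨l, h1, h2, h3⟩
    match l, h1, h2, h3 with
    | [a, b], h1, h2, h3 =>
      simp only [List.map_cons, List.map_nil, List.cons.injEq, and_true, nz_eq] at h2
      rw [← toZFSet_injective h2.1, ← toZFSet_injective h2.2] at h3
      exact h3
  · intro h
    exact ⟨[(n : Ordinal.{0}), ζ], by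
      simp only [List.mem_cons, List.not_mem_nil, or_false, forall_eq_or_imp, forall_eq]
      exact ⟨nat_lt_kappa hC n, hζ⟩, by simp [nz_eq], h⟩

/-- `s` is a condition contained in `c` -/
def inCz (A : ℕ → List ℕ → Prop) (κ : Ordinal.{0}) (N : Set ZFSet.{0}) (s c : ZFSet.{0}) : Prop :=
  ∀ i ∈ N, (NI A κ (.ar 0) [s, i] → i ∈ c) ∧ (NI A κ (.ar 1) [s, i] → ¬ i ∈ c)

/-- `d` is the value at `c` of the code of the real coded by `ζ` -/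
def evz (A : ℕ → List ℕ → Prop) (κ : Ordinal.{0}) (N : Set ZFSet.{0}) (ζ c d : ZFSet.{0}) :
    Prop :=
  ∀ n ∈ N, (∃ k : ℕ, n = nz k) → (n ∈ d ↔ ∃ s ∈ N, inCz A κ N s c ∧ ∃ t ∈ N,
    NI A κ (.ar 7) [n, s, t] ∧ NI A κ .E [t, ζ])

/-- the real `b` belongs to the `a`-th set of the sequence `s` and is coded by `ζ` -/
def Tz (A : ℕ → List ℕ → Prop) (κ : Ordinal.{0}) (N : Set ZFSet.{0}) (ζ c a b s : ZFSet.{0}) :
    Prop :=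
  ∃ d ∈ N, (∃ x : ℕ → ℕ, b = rz x ∧ d = sz (gr x)) ∧ evz A κ N ζ c d ∧
    ∃ t ∈ N, ZFSet.pair a t ∈ s ∧ b ∈ t

/-- the choice of the least code -/
def Pz (A : ℕ → List ℕ → Prop) (κ : Ordinal.{0}) (N : Set ZFSet.{0}) (y c M s : ZFSet.{0}) :
    Prop :=
  ∃ a ∈ N, ∃ b ∈ N, ∃ ζ ∈ N, ζ ∈ M ∧ y = ZFSet.pair a b ∧ (∃ k : ℕ, a = nz k) ∧
    Tz A κ N ζ c a b s ∧ ∀ ζ' ∈ N, ζ' ∈ ζ → ¬ ∃ b' ∈ N, Tz A κ N ζ' c a b' s

/-! ### definability -/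

omit hC in
theorem dmem (i j : ℕ) : DfN A κ μ (fun _ v => v i ∈ v j) :=
  (Df.rel .mem [i, j]).congr fun _ v _ => by
    simp [NI]

omit hC in
theorem dinCz : DfN A κ μ (fun h v => inCz A κ (NN A κ μ h.1) (v 0) (v 1)) := by
  refine Df.all (Q := fun _ i v => (NI A κ (.ar 0) [v 0, i] → i ∈ v 1) ∧
    (NI A κ (.ar 1) [v 0, i] → ¬ i ∈ v 1)) ?_
  exact ((Df.rel (.ar 0) [1, 0]).imp (dmem 0 2)).and
    ((Df.rel (.ar 1) [1, 0]).imp (dmem 0 2).not)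

theorem devz : DfN A κ μ (fun h v => evz A κ (NN A κ μ h.1) (v 0) (v 1) (v 2)) := by
  refine Df.all (Q := fun (h : {h : Set ℕ // Gen A κ h}) n v => (∃ k : ℕ, n = nz k) → (n ∈ v 2 ↔ ∃ s ∈ NN A κ μ h.1,
    inCz A κ (NN A κ μ h.1) s (v 1) ∧ ∃ t ∈ NN A κ μ h.1,
    NI A κ (.ar 7) [n, s, t] ∧ NI A κ .E [t, v 0])) ?_
  refine (DfN_nat hC).imp ((dmem 0 3).iff ?_)
  refine Df.ex (Q := fun (h : {h : Set ℕ // Gen A κ h}) s v => inCz A κ (NN A κ μ h.1) s (v 2) ∧ ∃ t ∈ NN A κ μ h.1,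
    NI A κ (.ar 7) [v 0, s, t] ∧ NI A κ .E [t, v 1]) ?_
  refine (dinCz.subst (fun k => if k = 0 then 0 else 3)).and ?_
  refine Df.ex (Q := fun (h : {h : Set ℕ // Gen A κ h}) t v => NI A κ (.ar 7) [v 1, v 0, t] ∧ NI A κ .E [t, v 2]) ?_
  exact (Df.rel (.ar 7) [2, 1, 0]).and (Df.rel .E [0, 3])

theorem dTz : DfN A κ μ (fun h v => Tz A κ (NN A κ μ h.1) (v 0) (v 1) (v 2) (v 3) (v 4)) := by
  refine Df.ex (Q := fun (h : {h : Set ℕ // Gen A κ h}) d v => (∃ x : ℕ → ℕ, v 3 = rz x ∧ d = sz (gr x)) ∧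
    evz A κ (NN A κ μ h.1) (v 0) (v 1) d ∧
    ∃ t ∈ NN A κ μ h.1, ZFSet.pair (v 2) t ∈ v 4 ∧ v 3 ∈ t) ?_
  refine ((DfN_rz hC).subst (fun k => if k = 0 then 4 else 0)).and
    (((devz hC).subst (fun k => if k = 0 then 1 else if k = 1 then 2 else 0)).and ?_)
  refine Df.ex (Q := fun (h : {h : Set ℕ // Gen A κ h}) t v => ZFSet.pair (v 3) t ∈ v 5 ∧ v 4 ∈ t) ?_
  exact ((DfN_app hC).subst (fun k => if k = 0 then 4 else if k = 1 then 0 else 6)).and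
    (dmem 5 0)

theorem dPz : DfN A κ μ (fun h v => Pz A κ (NN A κ μ h.1) (v 0) (v 1) (v 2) (v 3)) := by
  refine Df.ex (Q := fun (h : {h : Set ℕ // Gen A κ h}) a v => ∃ b ∈ NN A κ μ h.1, ∃ ζ ∈ NN A κ μ h.1, ζ ∈ v 2 ∧
    v 0 = ZFSet.pair a b ∧ (∃ k : ℕ, a = nz k) ∧
    Tz A κ (NN A κ μ h.1) ζ (v 1) a b (v 3) ∧ ∀ ζ' ∈ NN A κ μ h.1, ζ' ∈ ζ →
      ¬ ∃ b' ∈ NN A κ μ h.1, Tz A κ (NN A κ μ h.1) ζ' (v 1) a b' (v 3)) ?_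
  refine Df.ex (Q := fun (h : {h : Set ℕ // Gen A κ h}) b v => ∃ ζ ∈ NN A κ μ h.1, ζ ∈ v 3 ∧
    v 1 = ZFSet.pair (v 0) b ∧ (∃ k : ℕ, v 0 = nz k) ∧
    Tz A κ (NN A κ μ h.1) ζ (v 2) (v 0) b (v 4) ∧ ∀ ζ' ∈ NN A κ μ h.1, ζ' ∈ ζ →
      ¬ ∃ b' ∈ NN A κ μ h.1, Tz A κ (NN A κ μ h.1) ζ' (v 2) (v 0) b' (v 4)) ?_
  refine Df.ex (Q := fun (h : {h : Set ℕ // Gen A κ h}) ζ v => ζ ∈ v 4 ∧
    v 2 = ZFSet.pair (v 1) (v 0) ∧ (∃ k : ℕ, v 1 = nz k) ∧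
    Tz A κ (NN A κ μ h.1) ζ (v 3) (v 1) (v 0) (v 5) ∧ ∀ ζ' ∈ NN A κ μ h.1, ζ' ∈ ζ →
      ¬ ∃ b' ∈ NN A κ μ h.1, Tz A κ (NN A κ μ h.1) ζ' (v 3) (v 1) b' (v 5)) ?_
  refine (dmem 0 5).and (((DfN_pair hC).subst
    (fun k => if k = 0 then 3 else if k = 1 then 2 else 1)).and
    (((DfN_nat hC).subst (fun _ => 2)).and (((dTz hC).subst (fun k => if k = 0 then 0 else
      if k = 1 then 4 else if k = 2 then 2 else if k = 3 then 1 else 6)).and ?_)))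
  refine Df.all (Q := fun (h : {h : Set ℕ // Gen A κ h}) ζ' v => ζ' ∈ v 0 →
      ¬ ∃ b' ∈ NN A κ μ h.1, Tz A κ (NN A κ μ h.1) ζ' (v 4) (v 2) b' (v 6)) ?_
  refine (dmem 0 1).imp (Df.not ?_)
  refine Df.ex (Q := fun (h : {h : Set ℕ // Gen A κ h}) b' v => Tz A κ (NN A κ μ h.1) (v 0) (v 5) (v 3) b' (v 7)) ?_
  exact (dTz hC).subst (fun k => if k = 0 then 1 else
      if k = 1 then 6 else if k = 2 then 4 else if k = 3 then 0 else 8)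

/-! ### evaluation -/

theorem inCz_iff {g : Set ℕ} (hg : Gen A κ g) (s : ℕ) (C : Set ℕ) :
    inCz A κ (NN A κ μ g) (nz s) (sz C) ↔ inC s C := by
  constructor
  · intro h i
    refine ⟨fun hi => ?_, fun hi => ?_⟩
    · exact mem_sz_nz.1 ((h (nz i) (nz_mem hC hg i)).1 ((NI_ar0 hC _ _).2 ⟨s, i, rfl, rfl, hi⟩))
    · exact fun hc => (h (nz i) (nz_mem hC hg i)).2
        ((NI_ar1 hC _ _).2 ⟨s, i, rfl, rfl, hi⟩) (mem_sz_nz.2 hc)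
  · intro h i _
    refine ⟨fun hi => ?_, fun hi => ?_⟩
    · obtain ⟨a, b, hs, rfl, hab⟩ := (NI_ar0 hC _ _).1 hi
      rw [nz_inj] at hs
      subst hs
      exact mem_sz_nz.2 ((h b).1 hab)
    · obtain ⟨a, b, hs, rfl, hab⟩ := (NI_ar1 hC _ _).1 hi
      rw [nz_inj] at hs
      subst hs
      exact fun hc => (h b).2 hab (mem_sz_nz.1 hc)

theorem evz_iff {g : Set ℕ} (hg : Gen A κ g) {ζ : Ordinal.{0}} (hζ : ζ < κ) (C S : Set ℕ) :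
    evz A κ (NN A κ μ g) (toZFSet ζ) (sz C) (sz S) ↔ S = Ev (zR A ζ) C := by
  have key : ∀ n : ℕ, (∃ s ∈ NN A κ μ g, inCz A κ (NN A κ μ g) s (sz C) ∧ ∃ t ∈ NN A κ μ g,
      NI A κ (.ar 7) [nz n, s, t] ∧ NI A κ .E [t, toZFSet ζ]) ↔ n ∈ Ev (zR A ζ) C := by
    intro n
    constructor
    · rintro ⟨s, -, h1, t, -, h2, h3⟩
      obtain ⟨a, b, hn, rfl, rfl⟩ := (NI_ar7 hC _ _ _).1 h2
      rw [nz_inj] at hn
      subst hn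
      exact ⟨b, (inCz_iff hC hg b C).1 h1, (NI_E hC _ hζ).1 h3⟩
    · rintro ⟨s, h1, h2⟩
      exact ⟨nz s, nz_mem hC hg s, (inCz_iff hC hg s C).2 h1, nz (Nat.pair n s),
        nz_mem hC hg _, (NI_ar7 hC _ _ _).2 ⟨n, s, rfl, rfl, rfl⟩, (NI_E hC _ hζ).2 h2⟩
  constructor
  · intro h
    ext n
    rw [← key n, ← h (nz n) (nz_mem hC hg n) ⟨n, rfl⟩, mem_sz_nz]
  · rintro rfl n - ⟨k, rfl⟩
    rw [key k, mem_sz_nz]

theorem Tz_iff {g : Set ℕ} (hg : Gen A κ g) {ζ : Ordinal.{0}} (hζ : ζ < κ) (C : Set ℕ) (k : ℕ)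
    (b : ZFSet.{0}) (X : ℕ → Set (ℕ → ℕ)) (hs : seqZ (fun n => setZ (X n)) ∈ NN A κ μ g) :
    Tz A κ (NN A κ μ g) (toZFSet ζ) (sz C) (nz k) b (seqZ (fun n => setZ (X n))) ↔
      ∃ x ∈ X k, b = rz x ∧ gr x = Ev (zR A ζ) C := by
  constructor
  · rintro ⟨d, -, ⟨x, rfl, rfl⟩, h1, t, -, h2, h3⟩
    rw [evz_iff hC hg hζ] at h1
    obtain ⟨n, hn⟩ := mem_seqZ.1 h2
    obtain ⟨hn1, rfl⟩ := ZFSet.pair_inj.1 hn
    rw [nz_inj] at hn1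
    subst hn1
    obtain ⟨x', hx', hxx⟩ := mem_setZ.1 h3
    rw [rz_inj] at hxx
    subst hxx
    exact ⟨x, hx', rfl, h1⟩
  · rintro ⟨x, hx, rfl, h⟩
    have hA := hC.ar.toArith
    have hX : setZ (X k) ∈ NN A κ μ g := seqZ_apply_mem hC hg hs k
    have hxN : rz x ∈ NN A κ μ g := NN_trans hA hC.grd hg hX (mem_setZ.2 ⟨x, hx, rfl⟩)
    refine ⟨sz (gr x), (rz_mem_iff hC hg x).1 hxN, ⟨x, rfl, rfl⟩, (evz_iff hC hg hζ _ _).2 h,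
      setZ (X k), hX, mem_seqZ.2 ⟨k, rfl⟩, mem_setZ.2 ⟨x, hx, rfl⟩⟩

theorem Pz_iff {g : Set ℕ} (hg : Gen A κ g) {M : Ordinal.{0}} (hM : M < κ) (C : Set ℕ)
    (y : ZFSet.{0}) (X : ℕ → Set (ℕ → ℕ)) (hs : seqZ (fun n => setZ (X n)) ∈ NN A κ μ g) :
    Pz A κ (NN A κ μ g) y (sz C) (toZFSet M) (seqZ (fun n => setZ (X n))) ↔
      ∃ (k : ℕ) (x : ℕ → ℕ) (ζ : Ordinal.{0}), ζ < M ∧ y = ZFSet.pair (nz k) (rz x) ∧
        (x ∈ X k ∧ gr x = Ev (zR A ζ) C) ∧ ∀ ζ' < ζ, ¬ ∃ x' ∈ X k, gr x' = Ev (zR A ζ') C := by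
  have hA := hC.ar.toArith
  constructor
  · rintro ⟨a, -, b, -, ζ, -, h1, rfl, ⟨k, rfl⟩, h2, h3⟩
    obtain ⟨ζ, hζ, rfl⟩ := mem_toZFSet_iff.1 h1
    obtain ⟨x, hx, rfl, h4⟩ := (Tz_iff hC hg (hζ.trans hM) C k _ X hs).1 h2
    refine ⟨k, x, ζ, hζ, rfl, ⟨hx, h4⟩, fun ζ' hζ' => ?_⟩
    rintro ⟨x', hx', h5⟩
    refine h3 (toZFSet ζ') (NN_ord hA hC.grd hg _ ((hζ'.trans hζ).trans hM))
      (toZFSet_mem_toZFSet_iff.2 hζ') ⟨rz x', ?_, (Tz_iff hC hg ((hζ'.trans hζ).trans hM)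
        C k _ X hs).2 ⟨x', hx', rfl, h5⟩⟩
    exact NN_trans hA hC.grd hg (seqZ_apply_mem hC hg hs k) (mem_setZ.2 ⟨x', hx', rfl⟩)
  · rintro ⟨k, x, ζ, hζ, rfl, ⟨hx, h1⟩, h2⟩
    refine ⟨nz k, nz_mem hC hg k, rz x, ?_, toZFSet ζ, NN_ord hA hC.grd hg _ (hζ.trans hM),
      toZFSet_mem_toZFSet_iff.2 hζ, rfl, ⟨k, rfl⟩,
      (Tz_iff hC hg (hζ.trans hM) C k _ X hs).2 ⟨x, hx, rfl, h1⟩, ?_⟩
    · exact NN_trans hA hC.grd hg (seqZ_apply_mem hC hg hs k) (mem_setZ.2 ⟨x, hx, rfl⟩)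
    · rintro ζ' - h3 ⟨b', -, h4⟩
      obtain ⟨ζ', hζ', rfl⟩ := mem_toZFSet_iff.1 h3
      obtain ⟨x', hx', -, h5⟩ := (Tz_iff hC hg ((hζ'.trans hζ).trans hM) C k _ X hs).1 h4
      exact h2 ζ' hζ' ⟨x', hx', h5⟩

/-- Q11c: uniform choice of codes -/
theorem choice_of_codes {g : Set ℕ} (hg : Gen A κ g) (X : ℕ → Set (ℕ → ℕ))
    (hs : seqZ (fun n => setZ (X n)) ∈ NN A κ μ g) (m : ℕ)
    (hX : ∀ k, ∃ X' ∈ R0 A κ, Inv m X' ∧ ∃ x ∈ X k, gr x = Ev X' g) :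
    ∃ f : ℕ → ℕ → ℕ, (∀ n, f n ∈ X n) ∧ seqZ (fun n => rz (f n)) ∈ NN A κ μ g := by
  have hA := hC.ar.toArith
  have hgr : ∀ x y : ℕ → ℕ, gr x = gr y → x = y := by
    intro x y hxy
    funext n
    have : Nat.pair n (x n) ∈ gr y := by
      rw [← hxy]; exact ⟨n, rfl⟩
    obtain ⟨m, hm⟩ := this
    obtain ⟨h1, h2⟩ := Nat.pair_eq_pair.1 hm
    rw [h2, h1]
  set C := cut m g with hCdef
  have hex : ∀ k, ∃ ζ : Ordinal.{0}, ζ < μ ∧ ∃ x ∈ X k, gr x = Ev (zR A ζ) C := by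
    intro k
    obtain ⟨X', hX', hI, x, hx, h⟩ := hX k
    obtain ⟨z, hz, rfl⟩ := R0_mu hC hX'
    exact ⟨z, hz, x, hx, by rw [h, Ev_cut hI]⟩
  have hex2 : ∀ k, ∃ ζ : Ordinal.{0}, (ζ < μ ∧ ∃ x ∈ X k, gr x = Ev (zR A ζ) C) ∧
      ∀ ζ' < ζ, ¬ (ζ' < μ ∧ ∃ x ∈ X k, gr x = Ev (zR A ζ') C) := by
    intro k
    have := WellFounded.has_min (wellFounded_lt (α := Ordinal.{0}))
      {ζ | ζ < μ ∧ ∃ x ∈ X k, gr x = Ev (zR A ζ) C} (hex k)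
    obtain ⟨ζ, hζ, h⟩ := this
    exact ⟨ζ, hζ, fun ζ' hζ' h' => h ζ' h' hζ'⟩
  choose ζ hζ hmin using hex2
  choose hζμ f hf hfe using hζ
  have hseqmem : ∀ n, rz (f n) ∈ NN A κ μ g := fun n =>
    NN_trans hA hC.grd hg (seqZ_apply_mem hC hg hs n) (mem_setZ.2 ⟨f n, hf n, rfl⟩)
  refine ⟨f, hf, ?_⟩
  -- the parameters
  set v : ℕ → ZFSet.{0} := fun k => if k = 1 then sz C else if k = 2 then toZFSet μ else
    seqZ (fun n => setZ (X n)) with hv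
  have hvN : ∀ k, v k ∈ NN A κ μ g := by
    intro k
    simp only [hv]
    split_ifs
    · exact (mem_RR_iff hC hg _).2 ⟨m, cut_mem hC hg m⟩
    · exact NN_ord hA hC.grd hg _ hC.grd.mu_lt
    · exact hs
  have hPz : ∀ y, Pz A κ (NN A κ μ g) (Function.update v 0 y 0) (Function.update v 0 y 1)
      (Function.update v 0 y 2) (Function.update v 0 y 3) ↔
      ∃ (k : ℕ) (x : ℕ → ℕ) (ζ : Ordinal.{0}), ζ < μ ∧ y = ZFSet.pair (nz k) (rz x) ∧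
        (x ∈ X k ∧ gr x = Ev (zR A ζ) C) ∧ ∀ ζ' < ζ, ¬ ∃ x' ∈ X k, gr x' = Ev (zR A ζ') C := by
    intro y
    have h0 : Function.update v 0 y 0 = y := by simp
    have h1 : Function.update v 0 y 1 = sz C := by simp [hv]
    have h2 : Function.update v 0 y 2 = toZFSet μ := by simp [hv]
    have h3 : Function.update v 0 y 3 = seqZ (fun n => setZ (X n)) := by simp [hv]
    rw [h0, h1, h2, h3]
    exact Pz_iff hC hg hC.grd.mu_lt C y X hs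
  obtain ⟨b, hb, hbm⟩ := N_comp hC hg (dPz hC) v hvN 7 (by
    intro y _ hy
    obtain ⟨k, x, -, -, rfl, -⟩ := (hPz y).1 hy
    exact PN_seqZ_rz (fun _ => x) _ (mem_seqZ.2 ⟨k, rfl⟩))
  convert hb using 1
  refine ZFSet.ext fun y => ?_
  rw [hbm y, mem_seqZ]
  refine Iff.trans ?_ (and_congr Iff.rfl (hPz y)).symm
  constructor
  · rintro ⟨n, rfl⟩
    refine ⟨(pair_mem hC hg).2 ⟨nz_mem hC hg n, hseqmem n⟩, n, f n, ζ n, hζμ n, rfl,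
      ⟨hf n, hfe n⟩, ?_⟩
    rintro ζ' hζ' h
    exact hmin n ζ' hζ' ⟨hζ'.trans (hζμ n), h⟩
  · rintro ⟨-, k, x, ζ', hζ', rfl, ⟨hx, hxe⟩, hm⟩
    refine ⟨k, ?_⟩
    have : ζ' = ζ k := by
      rcases lt_trichotomy ζ' (ζ k) with h | h | h
      · exact absurd ⟨hζ', x, hx, hxe⟩ (hmin k ζ' h)
      · exact h
      · exact absurd ⟨f k, hf k, hfe k⟩ (hm _ h)
    subst this
    rw [hgr x (f k) (by rw [hxe, hfe])]

/-- Q11d -/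
theorem ACw_Pi {g : Set ℕ} (hg : Gen A κ g) : ACw (NN A κ μ g) (PiC (NN A κ μ g) 1) := by
  intro X hX hne hs
  have hA := hC.ar.toArith
  obtain ⟨y, hy, hval⟩ := (NN_iff hA hC.grd g _).1 hs
  refine choice_of_codes hC hg X hs (supp A y) fun k => ?_
  obtain ⟨p, m', hmm, hp, hpg, X0, hX0, Y0, hY0, hI, hJ, h1, h2, h3⟩ :=
    forced_Pi hC hg X hX hne hy le_rfl hval.symm k
  obtain ⟨z, hz, x, hx, hno⟩ := core_Pi hC hg hmm hp hpg hX0 hY0 hI hJ h1 h2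
  obtain ⟨X', hX', hI', hX'e⟩ := exists_subst hC hmm hX0 hI hz
  refine ⟨X', hX', hI', x, ?_, by rw [hX'e g, hx]⟩
  have hxR : x ∈ Rl (NN A κ μ g) := by
    refine (rz_mem_iff hC hg x).2 ((mem_RR_iff hC hg _).2 ⟨supp A y, ?_⟩)
    exact (mem_Rm_iff hC hg _ _).2 ⟨X', hX', hI', by rw [hX'e g, hx]⟩
  rw [h3 x hxR]
  rintro ⟨y', -, hy'⟩
  exact hno ⟨y', hy'⟩

end

end Pool.Agent.CC
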