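import Mathlib
import Pool.Agent.Lib.MP_bf67b0_lc.Recur

/-!
Condensation: an interpretation on an ordinal which satisfies all the sentences valid in the
constructible universes, with the right order and the right arithmetical relations, is the
interpretation `II A`.
-/

set_option autoImplicit false

namespace Pool.Agent.CC

open Ordinal Set Fm

namespace Cnd

/-! ### satisfaction of the derived connectives -/

section sat

variable {M : Type*} {I : Sy → List M → Prop} {D : Set M} {v : ℕ → M} {φ ψ : Fm}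

theorem sat_bot : Sat I D v Fm.bot ↔ False := Iff.rfl
theorem sat_eq (i j : ℕ) : Sat I D v (Fm.eq i j) ↔ v i = v j := Iff.rfl
theorem sat_rel (R : Sy) (xs : List ℕ) : Sat I D v (Fm.rel R xs) ↔ I R (xs.map v) := Iff.rfl
theorem sat_imp : Sat I D v (Fm.imp φ ψ) ↔ (Sat I D v φ → Sat I D v ψ) := Iff.rfl
theorem sat_all (i : ℕ) :
    Sat I D v (Fm.all i φ) ↔ ∀ a ∈ D, Sat I D (Function.update v i a) φ := Iff.rfl
theorem sat_neg : Sat I D v (Fm.neg φ) ↔ ¬ Sat I D v φ := Iff.rfl
theorem sat_and : Sat I D v (Fm.and φ ψ) ↔ Sat I D v φ ∧ Sat I D v ψ := by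
  unfold Fm.and
  rw [sat_neg, sat_imp, sat_neg]
  tauto
theorem sat_or : Sat I D v (Fm.or φ ψ) ↔ Sat I D v φ ∨ Sat I D v ψ := by
  unfold Fm.or
  rw [sat_imp, sat_neg]
  tauto
theorem sat_iff : Sat I D v (Fm.iff φ ψ) ↔ (Sat I D v φ ↔ Sat I D v ψ) := by
  unfold Fm.iff
  rw [sat_and, sat_imp, sat_imp]
  tauto
theorem sat_ex (i : ℕ) :
    Sat I D v (Fm.ex i φ) ↔ ∃ a ∈ D, Sat I D (Function.update v i a) φ := by
  unfold Fm.ex
  rw [sat_neg, sat_all]
  simp only [sat_neg]
  push Not
  rfl
theorem sat_lt (i j : ℕ) : Sat I D v (Fm.lt i j) ↔ I .lt [v i, v j] := Iff.rfl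
theorem sat_om (i : ℕ) : Sat I D v (Fm.om i) ↔ I .om [v i] := Iff.rfl
theorem sat_E (i j : ℕ) : Sat I D v (Fm.E i j) ↔ I .E [v i, v j] := Iff.rfl
theorem sat_nat (n i : ℕ) : Sat I D v (Fm.nat n i) ↔ I (.nat n) [v i] := Iff.rfl
theorem sat_le (i j : ℕ) : Sat I D v (Fm.le i j) ↔ (I .lt [v i, v j] ∨ v i = v j) := by
  unfold Fm.le
  rw [sat_or, sat_lt, sat_eq]

end sat

/-! ### structures with the right order -/

/-- the universe is a lower set and the symbol for the order has its meaning -/
structure Std (I : Sy → List Ordinal.{0} → Prop) (D : Set Ordinal.{0}) : Prop where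
  lower : ∀ a ∈ D, ∀ b < a, b ∈ D
  lt : ∀ a ∈ D, ∀ b ∈ D, (I .lt [a, b] ↔ a < b)

theorem std_II (A : ℕ → List ℕ → Prop) : Std (II A) univ :=
  ⟨fun _ _ _ _ => mem_univ _, fun _ _ _ _ => Iff.rfl⟩

section std

variable {I : Sy → List Ordinal.{0} → Prop} {D : Set Ordinal.{0}} {v : ℕ → Ordinal.{0}}

theorem Std.sat_lt' (h : Std I D) (hv : ∀ k, v k ∈ D) (i j : ℕ) :
    Sat I D v (Fm.lt i j) ↔ v i < v j := h.lt _ (hv i) _ (hv j)

theorem Std.sat_le' (h : Std I D) (hv : ∀ k, v k ∈ D) (i j : ℕ) :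
    Sat I D v (Fm.le i j) ↔ v i ≤ v j := by
  rw [sat_le, h.lt _ (hv i) _ (hv j), le_iff_lt_or_eq]

theorem upd_mem (hv : ∀ k, v k ∈ D) {a : Ordinal.{0}} (ha : a ∈ D) (i : ℕ) :
    ∀ k, Function.update v i a k ∈ D := by
  intro k
  rw [Function.update_apply]
  split_ifs
  · exact ha
  · exact hv k

theorem Std.sat_succ (h : Std I D) (hv : ∀ k, v k ∈ D) {a l n : ℕ} (h1 : a ≠ n) (h2 : l ≠ n) :
    Sat I D v (fSucc a l n) ↔ v l = v a + 1 := by
  unfold fSucc ball
  rw [sat_and, h.sat_lt' hv, sat_all]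
  constructor
  · rintro ⟨h3, h4⟩
    apply le_antisymm _ (Order.add_one_le_of_lt h3)
    by_contra h5
    push Not at h5
    have hb : v a + 1 ∈ D := h.lower _ (hv l) _ h5
    have h6 := h4 _ hb
    rw [sat_imp, h.sat_lt' (upd_mem hv hb n), h.sat_le' (upd_mem hv hb n),
      Function.update_self, Function.update_of_ne h1, Function.update_of_ne h2] at h6
    exact absurd (h6 h5) (not_le.2 (lt_add_one (v a)))
  · intro h3
    refine ⟨by rw [h3]; exact lt_add_one _, fun b hb => ?_⟩
    rw [sat_imp, h.sat_lt' (upd_mem hv hb n), h.sat_le' (upd_mem hv hb n),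
      Function.update_self, Function.update_of_ne h1, Function.update_of_ne h2, h3]
    exact fun h4 => Order.lt_add_one_iff.1 h4

end std

/-! ### the meaning of the symbols in `II A` -/

section II

variable (A : ℕ → List ℕ → Prop)

theorem II_om (a : Ordinal.{0}) : II A .om [a] ↔ a < ω := Iff.rfl
theorem II_nat (n : ℕ) (a : Ordinal.{0}) : II A (.nat n) [a] ↔ a = n := Iff.rfl
theorem II_E (a b : Ordinal.{0}) : II A .E [a, b] ↔ EE A a b := Iff.rfl
theorem II_code (l s i x : Ordinal.{0}) :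
    II A .code [l, s, i, x] ↔ s < l ∧ ∃ n : ℕ, i = n ∧ x = code l s n := Iff.rfl
theorem II_ar (j : ℕ) (l : List Ordinal.{0}) : II A (.ar j) l ↔
    ∃ l' : List ℕ, l = l'.map (fun n : ℕ => (n : Ordinal.{0})) ∧ A j l' := by
  cases l <;> rfl

/-- the arities of the symbols -/
def arOK : Sy → ℕ → Prop
  | .lt, n => n = 2
  | .om, n => n = 1
  | .E, n => n = 2
  | .code, n => n = 4
  | .nat _, n => n = 1
  | .ar _, _ => True
  | .F, n => n = 6
  | .K, n => n = 3
  | .mem, _ => False

theorem II_arity (R : Sy) (l : List Ordinal.{0}) (h : II A R l) : arOK R l.length := by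
  unfold II IE at h
  cases R with
  | lt =>
    match l, h with
    | [], h => exact h.elim
    | [_], h => exact h.elim
    | [_, _], _ => rfl
    | _ :: _ :: _ :: _, h => exact h.elim
  | om =>
    match l, h with
    | [], h => exact h.elim
    | [_], _ => rfl
    | _ :: _ :: _, h => exact h.elim
  | E =>
    match l, h with
    | [], h => exact h.elim
    | [_], h => exact h.elim
    | [_, _], _ => rfl
    | _ :: _ :: _ :: _, h => exact h.elim
  | code =>
    match l, h with
    | [], h => exact h.elim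
    | [_], h => exact h.elim
    | [_, _], h => exact h.elim
    | [_, _, _], h => exact h.elim
    | [_, _, _, _], _ => rfl
    | _ :: _ :: _ :: _ :: _ :: _, h => exact h.elim
  | nat n =>
    match l, h with
    | [], h => exact h.elim
    | [_], _ => rfl
    | _ :: _ :: _, h => exact h.elim
  | ar j => trivial
  | F =>
    obtain ⟨m, a, b, p, x, y, h1, _⟩ := h
    rw [h1]
    rfl
  | K =>
    obtain ⟨m, a, b, h1, _⟩ := h
    rw [h1]
    rfl
  | mem =>
    match l, h with
    | [], h => exact h.elim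
    | _ :: _, h => exact h.elim

end II


/-! ### formulas fixing the natural numbers -/

section nat

variable {I : Sy → List Ordinal.{0} → Prop} {D : Set Ordinal.{0}} {v : ℕ → Ordinal.{0}}

def f0 : Fm := iff (nat 0 0) (all 1 (neg (lt 1 0)))
def fS (n : ℕ) : Fm := iff (nat (n + 1) 0) (ex 1 (and (nat n 1) (fSucc 1 0 2)))
def fom : Fm := iff (om 0) (all 1 (imp (le 1 0) (or (nat 0 1) (ex 2 (fSucc 2 1 3)))))

theorem f0_eval (h : Std I D) (hv : ∀ k, v k ∈ D) :
    Sat I D v f0 ↔ (I (.nat 0) [v 0] ↔ v 0 = 0) := by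
  unfold f0
  rw [sat_iff, sat_nat, sat_all]
  refine iff_congr Iff.rfl ⟨fun h1 => ?_, fun h1 a ha => ?_⟩
  · by_contra h2
    have h3 : 0 < v 0 := pos_iff_ne_zero.2 h2
    have h4 : (0 : Ordinal.{0}) ∈ D := h.lower _ (hv 0) _ h3
    have h5 := h1 0 h4
    rw [sat_neg, h.sat_lt' (upd_mem hv h4 1), Function.update_self,
      Function.update_of_ne (by decide)] at h5
    exact h5 h3
  · rw [sat_neg, h.sat_lt' (upd_mem hv ha 1), Function.update_self,
      Function.update_of_ne (by decide), h1]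
    exact not_lt_zero

theorem fS_eval (h : Std I D) (hv : ∀ k, v k ∈ D) (n : ℕ) :
    Sat I D v (fS n) ↔ (I (.nat (n + 1)) [v 0] ↔ ∃ a ∈ D, I (.nat n) [a] ∧ v 0 = a + 1) := by
  unfold fS
  rw [sat_iff, sat_nat, sat_ex]
  refine iff_congr Iff.rfl (exists_congr fun a => and_congr_right fun ha => ?_)
  rw [sat_and, sat_nat, h.sat_succ (upd_mem hv ha 1) (by decide) (by decide),
    Function.update_self, Function.update_of_ne (by decide)]

theorem fom_eval (h : Std I D) (hv : ∀ k, v k ∈ D) :
    Sat I D v fom ↔ (I .om [v 0] ↔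
      ∀ a ∈ D, a ≤ v 0 → (I (.nat 0) [a] ∨ ∃ b ∈ D, a = b + 1)) := by
  unfold fom
  rw [sat_iff, sat_om, sat_all]
  refine iff_congr Iff.rfl (forall_congr' fun a => imp_congr_right fun ha => ?_)
  rw [sat_imp, h.sat_le' (upd_mem hv ha 1), sat_or, sat_nat, sat_ex, Function.update_self,
    Function.update_of_ne (by decide)]
  refine imp_congr_right fun _ => or_congr Iff.rfl
    (exists_congr fun b => and_congr_right fun hb => ?_)
  rw [h.sat_succ (upd_mem (upd_mem hv ha 1) hb 2) (by decide) (by decide),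
    Function.update_self, Function.update_of_ne (by decide), Function.update_self]

theorem lt_omega_iff (x : Ordinal.{0}) : x < ω ↔ ∀ a ≤ x, a = 0 ∨ ∃ b, a = b + 1 := by
  constructor
  · intro h a ha
    obtain ⟨n, rfl⟩ := lt_omega0.1 (ha.trans_lt h)
    cases n with
    | zero => left; rfl
    | succ n => right; exact ⟨n, by push_cast; rfl⟩
  · intro h
    by_contra h1
    push Not at h1
    rcases h _ h1 with h2 | ⟨b, h2⟩
    · exact omega0_ne_zero h2
    · have h3 : b < ω := by rw [h2]; exact lt_add_one b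
      have h4 : b + 1 < ω := isSuccLimit_omega0.succ_lt h3
      rw [← h2] at h4
      exact lt_irrefl _ h4

theorem f0_sig : f0 ∈ Sig := fun A _ =>
  (f0_eval (std_II A) (fun _ => mem_univ _)).2 (by rw [II_nat]; simp)

theorem fS_sig (n : ℕ) : fS n ∈ Sig := fun A v => by
  rw [fS_eval (std_II A) (fun _ => mem_univ _), II_nat]
  constructor
  · intro h
    exact ⟨n, mem_univ _, by rw [II_nat], by rw [h]; push_cast; rfl⟩
  · rintro ⟨a, _, h1, h2⟩
    rw [II_nat] at h1
    rw [h2, h1]
    push_cast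
    rfl

theorem fom_sig : fom ∈ Sig := fun A v => by
  rw [fom_eval (std_II A) (fun _ => mem_univ _), II_om, lt_omega_iff]
  simp [II_nat]

end nat

/-- the hypotheses of condensation -/
structure Hyp (A : ℕ → List ℕ → Prop) (β : Ordinal.{0}) (J : Sy → List Ordinal.{0} → Prop) :
    Prop where
  pos : 0 < β
  lt : ∀ a < β, ∀ b < β, (J .lt [a, b] ↔ a < b)
  sig : ∀ φ ∈ Sig, ∀ v, (∀ k, v k < β) → Sat J (Set.Iio β) v φ
  ar : ∀ j, ∀ l : List ℕ, (∀ n ∈ l, (n : Ordinal.{0}) < β) →
      (J (.ar j) (l.map (fun n : ℕ => (n : Ordinal.{0}))) ↔ A j l)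

theorem lv_lt {β : Ordinal.{0}} (hβ : 0 < β) {l : List Ordinal.{0}} (hl : ∀ a ∈ l, a < β) (k : ℕ) :
    lv l k < β := by
  unfold lv
  by_cases h : k < l.length
  · rw [List.getD_eq_getElem _ _ h]
    exact hl _ (List.getElem_mem h)
  · rw [List.getD_eq_default _ _ (not_lt.1 h)]
    exact hβ

theorem map_lv (l : List Ordinal.{0}) : (List.range l.length).map (lv l) = l := by
  apply List.ext_getElem
  · simp
  · intro k h1 h2
    simp [lv, List.getElem?_eq_getElem h2]

section hyp

variable {A : ℕ → List ℕ → Prop} {β : Ordinal.{0}} {J : Sy → List Ordinal.{0} → Prop}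

theorem Hyp.std (h : Hyp A β J) : Std J (Iio β) :=
  ⟨fun _ ha _ hb => lt_trans hb ha, fun a ha b hb => h.lt a ha b hb⟩

theorem Hyp.arity (h : Hyp A β J) {R : Sy} {l : List Ordinal.{0}} (hl : ∀ a ∈ l, a < β)
    (hJ : J R l) : arOK R l.length := by
  by_contra h1
  have h2 : neg (rel R (List.range l.length)) ∈ Sig := by
    intro A' v
    rw [sat_neg, sat_rel]
    intro h3
    have h4 := II_arity A' R _ h3
    rw [List.length_map, List.length_range] at h4
    exact h1 h4
  have h3 := h.sig _ h2 (lv l) (lv_lt h.pos hl)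
  rw [sat_neg, sat_rel, map_lv] at h3
  exact h3 hJ

theorem Hyp.nat (h : Hyp A β J) (n : ℕ) : ∀ a < β, (J (.nat n) [a] ↔ a = n) := by
  induction n with
  | zero =>
    intro a ha
    have h1 := h.sig _ f0_sig (fun _ => a) (fun _ => ha)
    rw [f0_eval h.std (fun _ => ha)] at h1
    simpa using h1
  | succ n ih =>
    intro a ha
    have h1 := h.sig _ (fS_sig n) (fun _ => a) (fun _ => ha)
    rw [fS_eval h.std (fun _ => ha)] at h1
    rw [h1]
    constructor
    · rintro ⟨b, hb, h2, h3⟩
      rw [ih b hb] at h2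
      rw [h3, h2]
      push_cast
      rfl
    · intro h2
      have h3 : (n : Ordinal.{0}) < β := by
        refine lt_of_le_of_lt ?_ ha
        rw [h2]
        exact_mod_cast Nat.le_succ n
      exact ⟨n, h3, (ih _ h3).2 rfl, by rw [h2]; push_cast; rfl⟩

theorem Hyp.om (h : Hyp A β J) (a : Ordinal.{0}) (ha : a < β) : J .om [a] ↔ a < ω := by
  have h1 := h.sig _ fom_sig (fun _ => a) (fun _ => ha)
  rw [fom_eval h.std (fun _ => ha)] at h1
  rw [h1, lt_omega_iff]
  constructor
  · intro h2 b hb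
    have hb' : b < β := lt_of_le_of_lt hb ha
    rcases h2 b hb' hb with h3 | ⟨c, _, h3⟩
    · left
      simpa using (h.nat 0 b hb').1 h3
    · exact Or.inr ⟨c, h3⟩
  · intro h2 b hb' hb
    rcases h2 b hb with h3 | ⟨c, h3⟩
    · left
      exact (h.nat 0 b hb').2 (by simpa using h3)
    · refine Or.inr ⟨c, ?_, h3⟩
      have h4 : c < b := by rw [h3]; exact lt_add_one c
      exact lt_trans h4 hb'

theorem Hyp.ar' (h : Hyp A β J) (j : ℕ) (l : List Ordinal.{0}) (hl : ∀ a ∈ l, a < β) :
    J (.ar j) l ↔ II A (.ar j) l := by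
  rw [II_ar]
  constructor
  · intro hJ
    have h1 : ∀ a ∈ l, a < ω := by
      intro a ha
      obtain ⟨k, hk, rfl⟩ := List.getElem_of_mem ha
      have h2 : imp (rel (.ar j) (List.range l.length)) (Fm.om k) ∈ Sig := by
        intro A' v
        rw [sat_imp, sat_rel, sat_om, II_ar, II_om]
        rintro ⟨l', h3, _⟩
        have h4 : ((List.range l.length).map v)[k]? =
            (l'.map (fun n : ℕ => (n : Ordinal.{0})))[k]? := by rw [h3]
        rw [List.getElem?_map, List.getElem?_map, List.getElem?_range hk] at h4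
        cases h5 : l'[k]? with
        | none => rw [h5] at h4; simp at h4
        | some n =>
          rw [h5] at h4
          simp only [Option.map_some, Option.some.injEq] at h4
          rw [h4]
          exact natCast_lt_omega0 n
      have h3 := h.sig _ h2 (lv l) (lv_lt h.pos hl)
      rw [sat_imp, sat_rel, sat_om, map_lv] at h3
      have h4 := h3 hJ
      rw [h.om _ (lv_lt h.pos hl k)] at h4
      unfold lv at h4
      rwa [List.getD_eq_getElem _ _ hk] at h4
    obtain ⟨l', hl'⟩ : ∃ l' : List ℕ, l = l'.map (fun n : ℕ => (n : Ordinal.{0})) := by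
      clear hJ hl
      induction l with
      | nil => exact ⟨[], rfl⟩
      | cons a l ih =>
        obtain ⟨l', hl'⟩ := ih (fun b hb => h1 b (List.mem_cons_of_mem _ hb))
        obtain ⟨n, hn⟩ := lt_omega0.1 (h1 a List.mem_cons_self)
        exact ⟨n :: l', by rw [List.map_cons, ← hl', hn]⟩
    refine ⟨l', hl', ?_⟩
    rw [hl'] at hJ
    refine (h.ar j l' ?_).1 hJ
    intro n hn
    apply hl
    rw [hl']
    exact List.mem_map_of_mem hn
  · rintro ⟨l', rfl, h1⟩
    refine (h.ar j l' ?_).2 h1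
    intro n hn
    exact hl _ (List.mem_map_of_mem hn)

end hyp


/-! ### codes -/

section code

variable {I : Sy → List Ordinal.{0} → Prop} {D : Set Ordinal.{0}} {v : ℕ → Ordinal.{0}}

def cA : Fm := imp (rel .code [0, 1, 2, 3]) (and (lt 1 0) (om 2))
def cB : Fm := imp (rel .code [0, 1, 2, 3]) (imp (rel .code [0, 1, 2, 4]) (eq 3 4))
def cD : Fm := ex 1 (ex 2 (ex 3 (rel .code [1, 2, 3, 0])))
def cE : Fm := imp (rel .code [0, 1, 2, 3]) (imp (lt 5 4) (imp (om 6)
  (imp (or (lt 4 0) (and (eq 4 0) (or (lt 5 1) (and (eq 5 1) (lt 6 2)))))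
    (ex 7 (and (lt 7 3) (rel .code [4, 5, 6, 7]))))))

theorem cA_eval (h : Std I D) (hv : ∀ k, v k ∈ D) : Sat I D v cA ↔
    (I .code [v 0, v 1, v 2, v 3] → v 1 < v 0 ∧ I .om [v 2]) := by
  unfold cA
  rw [sat_imp, sat_rel, sat_and, h.sat_lt' hv, sat_om]
  rfl

theorem cB_eval : Sat I D v cB ↔
    (I .code [v 0, v 1, v 2, v 3] → I .code [v 0, v 1, v 2, v 4] → v 3 = v 4) := by
  unfold cB
  rw [sat_imp, sat_rel, sat_imp, sat_rel, sat_eq]
  rfl

theorem cD_eval : Sat I D v cD ↔ ∃ l ∈ D, ∃ s ∈ D, ∃ i ∈ D, I .code [l, s, i, v 0] := by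
  unfold cD
  rw [sat_ex]
  refine exists_congr fun l => and_congr_right fun _ => ?_
  rw [sat_ex]
  refine exists_congr fun s => and_congr_right fun _ => ?_
  rw [sat_ex]
  refine exists_congr fun i => and_congr_right fun _ => ?_
  rw [sat_rel]
  simp

theorem cE_eval (h : Std I D) (hv : ∀ k, v k ∈ D) : Sat I D v cE ↔
    (I .code [v 0, v 1, v 2, v 3] → v 5 < v 4 → I .om [v 6] →
      (v 4 < v 0 ∨ (v 4 = v 0 ∧ (v 5 < v 1 ∨ (v 5 = v 1 ∧ v 6 < v 2)))) →
      ∃ x ∈ D, x < v 3 ∧ I .code [v 4, v 5, v 6, x]) := by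
  unfold cE
  rw [sat_imp, sat_rel, sat_imp, h.sat_lt' hv, sat_imp, sat_om, sat_imp, sat_or, sat_and, sat_or,
    sat_and, h.sat_lt' hv, h.sat_lt' hv, h.sat_lt' hv, sat_eq, sat_eq, sat_ex]
  refine imp_congr Iff.rfl (imp_congr Iff.rfl (imp_congr Iff.rfl (imp_congr Iff.rfl
    (exists_congr fun x => and_congr_right fun hx => ?_))))
  rw [sat_and, h.sat_lt' (upd_mem hv hx 7), sat_rel]
  simp

theorem cA_sig : cA ∈ Sig := fun A v => by
  rw [cA_eval (std_II A) (fun _ => mem_univ _), II_code, II_om]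
  rintro ⟨h1, n, h2, _⟩
  exact ⟨h1, by rw [h2]; exact natCast_lt_omega0 n⟩

theorem cB_sig : cB ∈ Sig := fun A v => by
  rw [cB_eval, II_code, II_code]
  rintro ⟨_, n, h2, h3⟩ ⟨_, m, h4, h5⟩
  have h6 : n = m := by
    rw [h2] at h4
    exact_mod_cast h4
  rw [h3, h5, h6]

theorem cD_sig : cD ∈ Sig := fun A v => by
  rw [cD_eval]
  obtain ⟨l, s, i, h1, h2⟩ := exists_code (v 0)
  exact ⟨l, mem_univ _, s, mem_univ _, i, mem_univ _, h1, i, rfl, h2⟩

theorem cE_sig : cE ∈ Sig := fun A v => by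
  rw [cE_eval (std_II A) (fun _ => mem_univ _), II_code, II_om]
  rintro ⟨h1, n, h2, h3⟩ h4 h5 h6
  obtain ⟨m, hm⟩ := lt_omega0.1 h5
  refine ⟨code (v 4) (v 5) m, mem_univ _, ?_, h4, m, hm, rfl⟩
  rw [h3, code_lt_iff h4 h1]
  rw [h2, hm] at h6
  simpa using h6

end code

section hyp

variable {A : ℕ → List ℕ → Prop} {β : Ordinal.{0}} {J : Sy → List Ordinal.{0} → Prop}

theorem Hyp.codeA (h : Hyp A β J) {l s i x : Ordinal.{0}} (hl : l < β) (hs : s < β) (hi : i < β)
    (hx : x < β) (hJ : J .code [l, s, i, x]) : s < l ∧ ∃ n : ℕ, i = n := by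
  have hv := lv_lt h.pos (l := [l, s, i, x]) (by simp [hl, hs, hi, hx])
  have h1 := h.sig _ cA_sig (lv [l, s, i, x]) hv
  rw [cA_eval h.std hv] at h1
  have h2 := h1 hJ
  exact ⟨h2.1, lt_omega0.1 ((h.om i hi).1 h2.2)⟩

theorem Hyp.codeB (h : Hyp A β J) {l s i x y : Ordinal.{0}} (hl : l < β) (hs : s < β) (hi : i < β)
    (hx : x < β) (hy : y < β) (hJ : J .code [l, s, i, x]) (hJ' : J .code [l, s, i, y]) : x = y := by
  have hv := lv_lt h.pos (l := [l, s, i, x, y]) (by simp [hl, hs, hi, hx, hy])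
  have h1 := h.sig _ cB_sig (lv [l, s, i, x, y]) hv
  rw [cB_eval] at h1
  exact h1 hJ hJ'

theorem Hyp.codeD (h : Hyp A β J) {x : Ordinal.{0}} (hx : x < β) :
    ∃ l < β, ∃ s < β, ∃ i < β, J .code [l, s, i, x] := by
  have h1 := h.sig _ cD_sig (fun _ => x) (fun _ => hx)
  rw [cD_eval] at h1
  exact h1

theorem Hyp.codeE (h : Hyp A β J) {l s i x l' s' : Ordinal.{0}} {n n' : ℕ} (hl : l < β)
    (hs : s < β) (hi : i < β) (hin : i = n) (hx : x < β) (hJ : J .code [l, s, i, x])
    (hl' : l' < β) (hs' : s' < β) (hn' : (n' : Ordinal.{0}) < β) (hsl : s' < l')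
    (hlex : l' < l ∨ (l' = l ∧ (s' < s ∨ (s' = s ∧ n' < n)))) :
    ∃ y < x, J .code [l', s', n', y] := by
  have hv := lv_lt h.pos (l := [l, s, i, x, l', s', n']) (by simp [hl, hs, hi, hx, hl', hs', hn'])
  have h1 := h.sig _ cE_sig (lv [l, s, i, x, l', s', n']) hv
  rw [cE_eval h.std hv] at h1
  obtain ⟨y, _, hy, h2⟩ := h1 hJ hsl ((h.om _ hn').2 (natCast_lt_omega0 n')) (by
    have h3 : (n' : Ordinal.{0}) < i ↔ n' < n := by rw [hin]; exact_mod_cast Iff.rfl
    rw [← h3] at hlex
    exact hlex)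
  exact ⟨y, hy, h2⟩

theorem Hyp.code (h : Hyp A β J) : ∀ x < β, ∀ l < β, ∀ s < β, ∀ i < β,
    (J .code [l, s, i, x] ↔ (s < l ∧ ∃ n : ℕ, i = n ∧ x = code l s n)) := by
  intro x
  induction x using WellFoundedLT.induction with
  | ind x ih =>
    intro hx
    have key : ∀ l < β, ∀ s < β, ∀ i < β, J .code [l, s, i, x] →
        (s < l ∧ ∃ n : ℕ, i = n ∧ x = CC.code l s n) := by
      intro l hl s hs i hi hJ
      obtain ⟨h1, n, h2⟩ := h.codeA hl hs hi hx hJ
      refine ⟨h1, n, h2, ?_⟩
      rcases lt_trichotomy x (CC.code l s n) with h3 | h3 | h3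
      · exfalso
        obtain ⟨l', s', n', h4, h5⟩ := exists_code x
        have h6 := h3
        rw [h5, code_lt_iff h4 h1] at h6
        have hl' : l' < β := by
          rcases h6 with h7 | ⟨h7, _⟩
          · exact h7.trans hl
          · rw [h7]; exact hl
        have hn' : (n' : Ordinal.{0}) < β := by
          refine lt_of_le_of_lt ?_ hx
          rw [h5]
          unfold CC.code
          exact le_add_self
        obtain ⟨y, hy, h8⟩ := h.codeE hl hs hi h2 hx hJ hl' (h4.trans hl') hn' h4 h6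
        obtain ⟨_, m, h9, h10⟩ := (ih y hy (hy.trans hx) l' hl' s' (h4.trans hl') n' hn').1 h8
        have h11 : n' = m := by exact_mod_cast h9
        rw [← h11, ← h5] at h10
        exact absurd hy (by rw [h10]; exact lt_irrefl _)
      · exact h3
      · exfalso
        have h4 : J .code [l, s, i, CC.code l s n] :=
          (ih _ h3 (h3.trans hx) l hl s hs i hi).2 ⟨h1, n, h2, rfl⟩
        have h5 := h.codeB hl hs hi hx (h3.trans hx) hJ h4
        exact absurd h3 (by rw [← h5]; exact lt_irrefl _)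
    intro l hl s hs i hi
    refine ⟨key l hl s hs i hi, ?_⟩
    rintro ⟨h1, n, h2, h3⟩
    obtain ⟨l', hl', s', hs', i', hi', h4⟩ := h.codeD hx
    obtain ⟨h5, m, h6, h7⟩ := key l' hl' s' hs' i' hi' h4
    rw [h3] at h7
    obtain ⟨h8, h9, h10⟩ := (code_inj h1 h5).1 h7
    rw [h2, h8, h9, h10, ← h6]
    exact h4

end hyp


/-! ### relativised formulas and the membership relation -/

section rz

variable {I : Sy → List Ordinal.{0} → Prop} {D : Set Ordinal.{0}} {v : ℕ → Ordinal.{0}}

/-- relativisation of the quantifiers to the ordinals below the variable `L` -/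
def rz (L : ℕ) : Fm → Fm
  | .bot => .bot
  | .eq i j => .eq i j
  | .rel R xs => .rel R xs
  | .imp φ ψ => .imp (rz L φ) (rz L ψ)
  | .all i φ => .all i (.imp (Fm.lt i L) (rz L φ))

theorem sat_rz (h : Std I D) {L : ℕ} {φ : Fm} (hφ : φ.bnd ≤ L) :
    ∀ v : ℕ → Ordinal.{0}, (∀ k, v k ∈ D) → (Sat I D v (rz L φ) ↔ Sat I (Iio (v L)) v φ) := by
  induction φ with
  | bot => intro v _; exact Iff.rfl
  | eq i j => intro v _; exact Iff.rfl
  | rel R xs => intro v _; exact Iff.rfl
  | imp φ ψ ih1 ih2 =>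
    intro v hv
    have h1 : max φ.bnd ψ.bnd ≤ L := hφ
    exact imp_congr (ih1 ((le_max_left _ _).trans h1) v hv) (ih2 ((le_max_right _ _).trans h1) v hv)
  | all i φ ih =>
    intro v hv
    have h1 : max (i + 1) φ.bnd ≤ L := hφ
    have h2 : i + 1 ≤ L := (le_max_left _ _).trans h1
    have h3 : L ≠ i := by omega
    show (∀ a ∈ D, Sat I D (Function.update v i a) (.imp (Fm.lt i L) (rz L φ))) ↔
      ∀ a ∈ Iio (v L), Sat I (Iio (v L)) (Function.update v i a) φ
    have h4 : ∀ a ∈ D, (Sat I D (Function.update v i a) (.imp (Fm.lt i L) (rz L φ)) ↔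
        (a < v L → Sat I (Iio (v L)) (Function.update v i a) φ)) := by
      intro a ha
      have h5 := ih ((le_max_right _ _).trans h1) _ (upd_mem hv ha i)
      rw [Function.update_of_ne h3] at h5
      rw [sat_imp, h.sat_lt' (upd_mem hv ha i), h5, Function.update_self,
        Function.update_of_ne h3]
    constructor
    · intro h6 a ha
      have ha' : a ∈ D := h.lower _ (hv L) _ ha
      exact (h4 a ha').1 (h6 a ha') ha
    · intro h6 a ha
      exact (h4 a ha).2 (fun h7 => h6 a h7)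

/-- if the variables `1, ..., n` equal the variable `S` then `ψ` -/
def eqs (S : ℕ) : ℕ → Fm → Fm
  | 0, ψ => ψ
  | k + 1, ψ => imp (eq (k + 1) S) (eqs S k ψ)

theorem sat_eqs (S : ℕ) (ψ : Fm) (n : ℕ) :
    Sat I D v (eqs S n ψ) ↔ ((∀ k, 1 ≤ k → k ≤ n → v k = v S) → Sat I D v ψ) := by
  induction n with
  | zero =>
    constructor
    · intro h _; exact h
    · intro h; exact h (fun k h1 h2 => by omega)
  | succ n ih =>
    show (v (n + 1) = v S → Sat I D v (eqs S n ψ)) ↔ _
    rw [ih]
    constructor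
    · intro h h1
      exact h (h1 (n + 1) (by omega) le_rfl) (fun k h2 h3 => h1 k h2 (by omega))
    · intro h h1 h2
      apply h
      intro k h3 h4
      rcases Nat.lt_or_ge k (n + 1) with h5 | h5
      · exact h2 k h3 (by omega)
      · have h6 : k = n + 1 := by omega
        rw [h6]
        exact h1

/-- the recursion clause of the membership relation for the `i`-th formula -/
noncomputable def gE (i : ℕ) : Fm :=
  eqs ((fm i).bnd + 3) (fm i).bnd (imp
    (rel .code [(fm i).bnd + 1, (fm i).bnd + 3, (fm i).bnd + 4, (fm i).bnd + 2])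
    (imp (nat i ((fm i).bnd + 4)) (iff (E 0 ((fm i).bnd + 2)) (and (lt 0 ((fm i).bnd + 1))
      (and (le ((fm i).bnd + 1) ((fm i).bnd + 2)) (rz ((fm i).bnd + 1) (fm i)))))))

theorem gE_eval (h : Std I D) (hv : ∀ k, v k ∈ D) (i : ℕ) : Sat I D v (gE i) ↔
    ((∀ k, 1 ≤ k → k ≤ (fm i).bnd → v k = v ((fm i).bnd + 3)) →
      I .code [v ((fm i).bnd + 1), v ((fm i).bnd + 3), v ((fm i).bnd + 4), v ((fm i).bnd + 2)] →
      I (.nat i) [v ((fm i).bnd + 4)] → (I .E [v 0, v ((fm i).bnd + 2)] ↔
        (v 0 < v ((fm i).bnd + 1) ∧ v ((fm i).bnd + 1) ≤ v ((fm i).bnd + 2) ∧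
          Sat I (Iio (v ((fm i).bnd + 1))) v (fm i)))) := by
  unfold gE
  rw [sat_eqs, sat_imp, sat_rel, sat_imp, sat_nat, sat_iff, sat_E, sat_and, sat_and,
    h.sat_lt' hv, h.sat_le' hv, sat_rz h (Nat.le_succ _) v hv]
  rfl

theorem gE_sig (i : ℕ) : gE i ∈ Sig := fun A v => by
  rw [gE_eval (std_II A) (fun _ => mem_univ _), II_code, II_nat, II_E]
  rintro h1 ⟨h2, n, h3, h4⟩ h5
  have h6 : n = i := by
    rw [h3] at h5
    exact_mod_cast h5
  subst h6
  rw [h4, EE_iff A h2]
  refine and_congr Iff.rfl (and_congr Iff.rfl (Sat_congr fun k hk => ?_))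
  unfold vv
  split_ifs with h7
  · rw [h7]
  · exact (h1 k (by omega) hk.le).symm

theorem sat_agree {I I' : Sy → List Ordinal.{0} → Prop} {l : Ordinal.{0}}
    (h : ∀ R xs, (∀ a ∈ xs, a < l) → (I R xs ↔ I' R xs)) (φ : Fm) :
    ∀ v, (∀ k, v k < l) → (Sat I (Iio l) v φ ↔ Sat I' (Iio l) v φ) := by
  induction φ with
  | bot => intro v _; exact Iff.rfl
  | eq i j => intro v _; exact Iff.rfl
  | rel R xs =>
    intro v hv
    apply h
    intro a ha
    obtain ⟨k, _, rfl⟩ := List.mem_map.1 ha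
    exact hv k
  | imp φ ψ ih1 ih2 => intro v hv; exact imp_congr (ih1 v hv) (ih2 v hv)
  | all i φ ih =>
    intro v hv
    exact forall_congr' fun a => imp_congr_right fun ha => ih _ (upd_mem (D := Iio l) hv ha i)

end rz

section hyp

variable {A : ℕ → List ℕ → Prop} {β : Ordinal.{0}} {J : Sy → List Ordinal.{0} → Prop}

theorem Hyp.easy (h : Hyp A β J) (R : Sy) (h1 : R ≠ .E) (h2 : R ≠ .F) (h3 : R ≠ .K)
    (xs : List Ordinal.{0}) (hx : ∀ a ∈ xs, a < β) : J R xs ↔ II A R xs := by
  by_cases h4 : arOK R xs.length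
  · cases R with
    | lt =>
      have h5 : xs.length = 2 := h4
      match xs, h5, hx with
      | [a, b], _, hx =>
        exact h.lt a (hx a (by simp)) b (hx b (by simp))
    | om =>
      have h5 : xs.length = 1 := h4
      match xs, h5, hx with
      | [a], _, hx => exact h.om a (hx a (by simp))
    | E => exact absurd rfl h1
    | code =>
      have h5 : xs.length = 4 := h4
      match xs, h5, hx with
      | [l, s, i, x], _, hx =>
        exact h.code x (hx x (by simp)) l (hx l (by simp)) s (hx s (by simp)) i (hx i (by simp))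
    | nat n =>
      have h5 : xs.length = 1 := h4
      match xs, h5, hx with
      | [a], _, hx => exact h.nat n a (hx a (by simp))
    | ar j => exact h.ar' j xs hx
    | F => exact absurd rfl h2
    | K => exact absurd rfl h3
    | mem => exact h4.elim
  · exact ⟨fun h5 => absurd (h.arity hx h5) h4, fun h5 => absurd (II_arity A R xs h5) h4⟩

theorem Hyp.rowE (h : Hyp A β J) {m : Ordinal.{0}} (hm : m ≤ β)
    (ih : ∀ l < m, ∀ R xs, (∀ a ∈ xs, a < l) → (J R xs ↔ II A R xs))
    (e x : Ordinal.{0}) (he : e < m) (hx : x < m) : J .E [e, x] ↔ EE A e x := by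
  have hxβ := hx.trans_le hm
  obtain ⟨l, hl, s, hs, i, hi, hJ⟩ := h.codeD hxβ
  obtain ⟨h1, n, h2, h3⟩ := (h.code x hxβ l hl s hs i hi).1 hJ
  set b := (fm n).bnd with hb
  let v : ℕ → Ordinal.{0} := fun k => if k = 0 then e else if k ≤ b then s else
    if k = b + 1 then l else if k = b + 2 then x else if k = b + 3 then s else i
  have hv : ∀ k, v k < β := by
    intro k
    simp only [v]
    split_ifs
    · exact he.trans_le hm
    · exact hs
    · exact hl
    · exact hxβ
    · exact hs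
    · exact hi
  have v1 : v (b + 1) = l := by simp [v]
  have v2 : v (b + 2) = x := by simp [v]
  have v3 : v (b + 3) = s := by simp [v]
  have v4 : v (b + 4) = i := by simp [v]
  have v0 : v 0 = e := by simp [v]
  have h4 := h.sig _ (gE_sig n) v hv
  rw [gE_eval h.std hv, ← hb, v1, v2, v3, v4, v0] at h4
  have h5 := h4 (by
    intro k hk1 hk2
    simp only [v]
    rw [if_neg (by omega), if_pos hk2]) hJ ((h.nat n i hi).2 h2)
  rw [h5, h3, EE_iff A h1, ← h3]
  refine and_congr_right fun h6 => and_congr_right fun h7 => ?_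
  have h8 : Sat J (Iio l) v (fm n) ↔ Sat J (Iio l) (vv e s) (fm n) := by
    apply Sat_congr
    intro k hk
    simp only [v, vv]
    split_ifs with h9 h10
    · rfl
    · rfl
    · omega
    · omega
    · omega
    · omega
  rw [h8]
  apply sat_agree (ih l (lt_of_le_of_lt h7 hx))
  intro k
  unfold vv
  split_ifs
  · exact h6
  · exact h1

end hyp

/-! ### bounded formulas -/

/-- formulas with bounded quantifiers built from the non recursive symbols and the formula `g`,
in which the variable `c` is not quantified -/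
inductive Bd (c : ℕ) (g : Fm) : Fm → Prop
  | bot : Bd c g .bot
  | eq (i j : ℕ) : Bd c g (.eq i j)
  | rel (R : Sy) (xs : List ℕ) (hF : R ≠ .F) (hK : R ≠ .K) : Bd c g (.rel R xs)
  | guard : Bd c g g
  | imp {φ ψ : Fm} (h1 : Bd c g φ) (h2 : Bd c g ψ) : Bd c g (.imp φ ψ)
  | ball {i j : ℕ} (hj : i ≠ j) (hc : i ≠ c) {φ : Fm} (h : Bd c g φ) : Bd c g (Fm.ball i j φ)
  | balle {i j : ℕ} (hj : i ≠ j) (hc : i ≠ c) {φ : Fm} (h : Bd c g φ) : Bd c g (Fm.balle i j φ)

namespace Bd

variable {c : ℕ} {g φ ψ : Fm}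

theorem neg (h : Bd c g φ) : Bd c g (Fm.neg φ) := .imp h .bot
theorem and (h : Bd c g φ) (h' : Bd c g ψ) : Bd c g (Fm.and φ ψ) := neg (.imp h (neg h'))
theorem or (h : Bd c g φ) (h' : Bd c g ψ) : Bd c g (Fm.or φ ψ) := .imp (neg h) h'
theorem iff (h : Bd c g φ) (h' : Bd c g ψ) : Bd c g (Fm.iff φ ψ) := and (.imp h h') (.imp h' h)
theorem bex {i j : ℕ} (hj : i ≠ j) (hc : i ≠ c) (h : Bd c g φ) : Bd c g (Fm.bex i j φ) :=
  neg (.ball hj hc (neg h))
theorem bexle {i j : ℕ} (hj : i ≠ j) (hc : i ≠ c) (h : Bd c g φ) : Bd c g (Fm.bexle i j φ) :=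
  neg (.balle hj hc (neg h))
theorem lt (i j : ℕ) : Bd c g (Fm.lt i j) := .rel _ _ (by decide) (by decide)
theorem le (i j : ℕ) : Bd c g (Fm.le i j) := or (lt i j) (.eq i j)
theorem om (i : ℕ) : Bd c g (Fm.om i) := .rel _ _ (by decide) (by decide)
theorem E (i j : ℕ) : Bd c g (Fm.E i j) := .rel _ _ (by decide) (by decide)
theorem ar (j : ℕ) (xs : List ℕ) : Bd c g (Fm.ar j xs) := .rel _ _ (by simp) (by simp)
theorem nat (n i : ℕ) : Bd c g (Fm.nat n i) := .rel _ _ (by simp) (by simp)
theorem code (xs : List ℕ) : Bd c g (Fm.rel .code xs) := .rel _ _ (by decide) (by decide)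

theorem succ {a l n : ℕ} (h1 : n ≠ l) (h2 : n ≠ c) : Bd c g (fSucc a l n) :=
  and (lt _ _) (.ball h1 h2 (le _ _))

theorem cst {x a n : ℕ} (h1 : x < n) (h2 : c < n) : Bd c g (fCst x a n) :=
  bexle (by omega) (by omega) (and (succ (by omega) (by omega))
    (bexle (by omega) (by omega) (and (nat _ _) (bexle (by omega) (by omega)
      (and (nat _ _) (code _))))))

theorem tr {e d q t mu n : ℕ} (h1 : t < n) (h2 : mu < n) (h3 : c < n) :
    Bd c g (fTr e d q t mu n) :=
  and (neg (om _)) (or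
    (bexle (by omega) (by omega) (and (succ (by omega) (by omega))
      (bex (by omega) (by omega) (and (ar _ _) (code _)))))
    (bexle (by omega) (by omega) (and (succ (by omega) (by omega))
      (bex (by omega) (by omega) (and (ar _ _) (code _))))))

theorem supp {x m mu n : ℕ} (h1 : m < n) (h2 : mu < n) (h3 : c < n) :
    Bd c g (fSupp x m mu n) :=
  and (om _) (or (and (E _ _) (.ball (by omega) (by omega) (neg (E _ _))))
    (and (nat _ _) (.ball (by omega) (by omega) (.imp (om _) (neg (E _ _))))))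

theorem inG {m e mu n : ℕ} (h2 : mu < n) (h3 : c < n) : Bd c g (fInG m e mu n) :=
  .ball (by omega) (by omega) (.imp (om _) (.imp (ar _ _) (neg (E _ _))))

theorem sum {a b e mu n : ℕ} (h2 : mu < n) (h3 : c < n) : Bd c g (fSum a b e mu n) :=
  .ball (by omega) (by omega) (.imp (om _) (iff (E _ _) (iff (E _ _) (neg (E _ _)))))

theorem leF {r p mu n : ℕ} (h2 : mu < n) (h3 : c < n) : Bd c g (fLe r p mu n) :=
  .ball (by omega) (by omega) (.imp (om _) (and (.imp (ar _ _) (ar _ _))
    (.imp (ar _ _) (ar _ _))))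

theorem leSh {s q a mu n : ℕ} (h2 : mu < n) (h3 : c < n) : Bd c g (fLeSh s q a mu n) :=
  .ball (by omega) (by omega) (.imp (om _) (and
    (.imp (ar _ _) (and (.imp (E _ _) (ar _ _)) (.imp (neg (E _ _)) (ar _ _))))
    (.imp (ar _ _) (and (.imp (E _ _) (ar _ _)) (.imp (neg (E _ _)) (ar _ _))))))

theorem elt {mu x z e b q a n : ℕ} (h1 : mu < n) (h2 : x < n) (h3 : e < n) (h4 : c < n) :
    Bd c g (fElt mu x z e b q a n) :=
  or (bex (by omega) (by omega) (and (cst (by omega) (by omega))
      (bex (by omega) (by omega) (cst (by omega) (by omega)))))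
    (and (.ball (by omega) (by omega) (neg (cst (by omega) (by omega))))
      (bex (by omega) (by omega) (bex (by omega) (by omega) (bex (by omega) (by omega)
        (bex (by omega) (by omega) (and (supp (by omega) (by omega) (by omega))
          (and (inG (by omega) (by omega)) (and (sum (by omega) (by omega))
            (and (sum (by omega) (by omega)) (and (E _ _)
              (tr (by omega) (by omega) (by omega))))))))))))

end Bd

/-- the guarded atom of `chiF` -/
def gF : Fm := imp (lt 6 4) (neg (rel .F [0, 7, 13, 11, 6, 12]))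

/-- the guarded atom of `chiK` -/
def gK : Fm := imp (lt 6 1) (neg (rel .K [0, 6, 4]))

theorem bd_chiF : Bd 4 gF chiF := by
  have hg : Bd 4 gF (and (lt 6 4) (rel .F [0, 7, 13, 11, 6, 12])) := Bd.neg Bd.guard
  exact .and (.neg (.om _)) <| .and (.om _) <| .and
    (.ball (by decide) (by decide) <| .ball (by decide) (by decide) <|
    .ball (by decide) (by decide) <| .ball (by decide) (by decide) <| .imp (.om _) <|
    .imp (.elt (by decide) (by decide) (by decide) (by decide)) <|
    .ball (by decide) (by decide) <| .imp (.om _) <| .imp (.leF (by decide) (by decide)) <|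
    .imp (.leSh (by decide) (by decide)) <| .bex (by decide) (by decide) <| .and (.om _) <|
    .and (.leF (by decide) (by decide)) <| .bex (by decide) (by decide) <|
    .bex (by decide) (by decide) <| .bex (by decide) (by decide) <|
    .bex (by decide) (by decide) <| .and (.om _) <|
    .and (.elt (by decide) (by decide) (by decide) (by decide)) <|
    .and (.leSh (by decide) (by decide)) hg) <|
    .ball (by decide) (by decide) <| .ball (by decide) (by decide) <|
    .ball (by decide) (by decide) <| .ball (by decide) (by decide) <| .imp (.om _) <|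
    .imp (.elt (by decide) (by decide) (by decide) (by decide)) <|
    .ball (by decide) (by decide) <| .imp (.om _) <| .imp (.leF (by decide) (by decide)) <|
    .imp (.leSh (by decide) (by decide)) <| .bex (by decide) (by decide) <| .and (.om _) <|
    .and (.leF (by decide) (by decide)) <| .bex (by decide) (by decide) <|
    .bex (by decide) (by decide) <| .bex (by decide) (by decide) <|
    .bex (by decide) (by decide) <| .and (.om _) <|
    .and (.elt (by decide) (by decide) (by decide) (by decide)) <|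
    .and (.leSh (by decide) (by decide)) hg

theorem bd_chiK : Bd 1 gK chiK := by
  have hg : Bd 1 gK (and (lt 6 1) (rel .K [0, 6, 4])) := Bd.neg Bd.guard
  exact .and (.neg (.om _)) (.and (.om _) (.ball (by decide) (by decide) (.imp (.om _)
    (.bex (by decide) (by decide) (.and (.om _) (.or
      (.bex (by decide) (by decide) (.and (.om _) (.and (.ar _ _) (.E _ _))))
      (.bex (by decide) (by decide) (.and (.om _) (.and (.ar _ _) (.and (.E _ _)
        (.bex (by decide) (by decide) hg)))))))))))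

theorem Bd.transfer {I I' : Sy → List Ordinal.{0} → Prop} {D D' : Set Ordinal.{0}}
    (hI : Std I D) (hI' : Std I' D') {m x : Ordinal.{0}} (hD : ∀ a < m, a ∈ D)
    (hD' : ∀ a < m, a ∈ D') {c : ℕ} {g : Fm}
    (hrel : ∀ R, R ≠ .F → R ≠ .K → ∀ xs, (∀ a ∈ xs, a < m) → (I R xs ↔ I' R xs))
    (hg : ∀ v, (∀ k, v k < m) → v c = x → (Sat I D v g ↔ Sat I' D' v g)) (φ : Fm)
    (hφ : Bd c g φ) : ∀ v, (∀ k, v k < m) → v c = x → (Sat I D v φ ↔ Sat I' D' v φ) := by
  induction hφ with
  | bot => intro v _ _; exact Iff.rfl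
  | eq i j => intro v _ _; exact Iff.rfl
  | rel R xs hF hK =>
    intro v hv _
    apply hrel R hF hK
    intro a ha
    obtain ⟨k, _, rfl⟩ := List.mem_map.1 ha
    exact hv k
  | guard => exact hg
  | imp _ _ ih1 ih2 => intro v hv hc; exact imp_congr (ih1 v hv hc) (ih2 v hv hc)
  | @ball i j hj hc φ _ ih =>
    intro v hv hx
    have h1 : ∀ {I : Sy → List Ordinal.{0} → Prop} {D : Set Ordinal.{0}}, Std I D →
        (∀ a < m, a ∈ D) → (Sat I D v (Fm.ball i j φ) ↔
          ∀ a < v j, Sat I D (Function.update v i a) φ) := by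
      intro I D hI hD
      have hvD : ∀ k, v k ∈ D := fun k => hD _ (hv k)
      unfold Fm.ball
      rw [sat_all]
      constructor
      · intro h2 a ha
        have haD : a ∈ D := hD _ (ha.trans (hv j))
        have h3 := h2 a haD
        rw [sat_imp, hI.sat_lt' (upd_mem hvD haD i), Function.update_self,
          Function.update_of_ne hj.symm] at h3
        exact h3 ha
      · intro h2 a haD
        rw [sat_imp, hI.sat_lt' (upd_mem hvD haD i), Function.update_self,
          Function.update_of_ne hj.symm]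
        exact h2 a
    rw [h1 hI hD, h1 hI' hD']
    refine forall_congr' fun a => imp_congr_right fun ha => ih _ ?_ ?_
    · exact upd_mem (D := Iio m) hv (ha.trans (hv j)) i
    · rw [Function.update_of_ne hc.symm]
      exact hx
  | @balle i j hj hc φ _ ih =>
    intro v hv hx
    have h1 : ∀ {I : Sy → List Ordinal.{0} → Prop} {D : Set Ordinal.{0}}, Std I D →
        (∀ a < m, a ∈ D) → (Sat I D v (Fm.balle i j φ) ↔
          ∀ a ≤ v j, Sat I D (Function.update v i a) φ) := by
      intro I D hI hD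
      have hvD : ∀ k, v k ∈ D := fun k => hD _ (hv k)
      unfold Fm.balle
      rw [sat_all]
      constructor
      · intro h2 a ha
        have haD : a ∈ D := hD _ (lt_of_le_of_lt ha (hv j))
        have h3 := h2 a haD
        rw [sat_imp, hI.sat_le' (upd_mem hvD haD i), Function.update_self,
          Function.update_of_ne hj.symm] at h3
        exact h3 ha
      · intro h2 a haD
        rw [sat_imp, hI.sat_le' (upd_mem hvD haD i), Function.update_self,
          Function.update_of_ne hj.symm]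
        exact h2 a
    rw [h1 hI hD, h1 hI' hD']
    refine forall_congr' fun a => imp_congr_right fun ha => ih _ ?_ ?_
    · exact upd_mem (D := Iio m) hv (lt_of_le_of_lt ha (hv j)) i
    · rw [Function.update_of_ne hc.symm]
      exact hx

section hyp

variable {A : ℕ → List ℕ → Prop} {β : Ordinal.{0}} {J : Sy → List Ordinal.{0} → Prop}

theorem Hyp.rowF (h : Hyp A β J) {m : Ordinal.{0}} (hm : m ≤ β)
    (hrel : ∀ R, R ≠ .F → R ≠ .K → ∀ xs, (∀ a ∈ xs, a < m) → (J R xs ↔ II A R xs)) :
    ∀ x < m, ∀ t < m, ∀ a < m, ∀ b < m, ∀ p < m, ∀ y < m,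
      (J .F [t, a, b, p, x, y] ↔ II A .F [t, a, b, p, x, y]) := by
  intro x
  induction x using WellFoundedLT.induction with
  | ind x ih =>
    intro hx t ht a ha b hb p hp y hy
    have h0 : (0 : Ordinal.{0}) < m := lt_of_le_of_lt zero_le hx
    have hv : ∀ k, lv [t, a, b, p, x, y] k < m :=
      lv_lt h0 (by simp [ht, ha, hb, hp, hx, hy])
    have h1 : iff (rel .F [0, 1, 2, 3, 4, 5]) chiF ∈ Sig := by
      intro A' v
      rw [sat_iff, sat_rel]
      exact F_chi' A' v
    have h2 := h.sig _ h1 (lv [t, a, b, p, x, y]) (fun k => (hv k).trans_le hm)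
    rw [sat_iff, sat_rel] at h2
    have h3 := F_chi' A (lv [t, a, b, p, x, y])
    refine h2.trans (Iff.trans ?_ h3.symm)
    refine Bd.transfer h.std (std_II A) (m := m) (x := x) (fun a ha => ha.trans_le hm)
      (fun _ _ => mem_univ _) hrel ?_ chiF bd_chiF _ hv rfl
    intro v hv hx4
    have hvβ : ∀ k, v k ∈ Iio β := fun k => (hv k).trans_le hm
    unfold gF
    rw [sat_imp, sat_imp, h.std.sat_lt' hvβ, (std_II A).sat_lt' (fun _ => mem_univ _), sat_neg,
      sat_neg, sat_rel, sat_rel]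
    refine imp_congr_right fun h4 => not_congr ?_
    exact ih (v 6) (hx4 ▸ h4) (hv 6) (v 0) (hv 0) (v 7) (hv 7) (v 13) (hv 13) (v 11) (hv 11)
      (v 12) (hv 12)

theorem Hyp.rowK (h : Hyp A β J) {m : Ordinal.{0}} (hm : m ≤ β)
    (hrel : ∀ R, R ≠ .F → R ≠ .K → ∀ xs, (∀ a ∈ xs, a < m) → (J R xs ↔ II A R xs)) :
    ∀ a < m, ∀ t < m, ∀ n < m, (J .K [t, a, n] ↔ II A .K [t, a, n]) := by
  intro a
  induction a using WellFoundedLT.induction with
  | ind a ih =>
    intro ha t ht n hn
    have h0 : (0 : Ordinal.{0}) < m := lt_of_le_of_lt zero_le ha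
    have hv : ∀ k, lv [t, a, n] k < m := lv_lt h0 (by simp [ht, ha, hn])
    have h1 : iff (rel .K [0, 1, 2]) chiK ∈ Sig := by
      intro A' v
      rw [sat_iff, sat_rel]
      exact K_chi' A' v
    have h2 := h.sig _ h1 (lv [t, a, n]) (fun k => (hv k).trans_le hm)
    rw [sat_iff, sat_rel] at h2
    have h3 := K_chi' A (lv [t, a, n])
    refine h2.trans (Iff.trans ?_ h3.symm)
    refine Bd.transfer h.std (std_II A) (m := m) (x := a) (fun a ha => ha.trans_le hm)
      (fun _ _ => mem_univ _) hrel ?_ chiK bd_chiK _ hv rfl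
    intro v hv hx1
    have hvβ : ∀ k, v k ∈ Iio β := fun k => (hv k).trans_le hm
    unfold gK
    rw [sat_imp, sat_imp, h.std.sat_lt' hvβ, (std_II A).sat_lt' (fun _ => mem_univ _), sat_neg,
      sat_neg, sat_rel, sat_rel]
    refine imp_congr_right fun h4 => not_congr ?_
    exact ih (v 6) (hx1 ▸ h4) (hv 6) (v 0) (hv 0) (v 4) (hv 4)

theorem Hyp.main (h : Hyp A β J) : ∀ m ≤ β, ∀ R xs, (∀ a ∈ xs, a < m) →
    (J R xs ↔ II A R xs) := by
  intro m
  induction m using WellFoundedLT.induction with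
  | ind m ih =>
    intro hm
    have ih' : ∀ l < m, ∀ R xs, (∀ a ∈ xs, a < l) → (J R xs ↔ II A R xs) :=
      fun l hl => ih l hl (hl.le.trans hm)
    have hrel : ∀ R, R ≠ .F → R ≠ .K → ∀ xs, (∀ a ∈ xs, a < m) → (J R xs ↔ II A R xs) := by
      intro R hF hK xs hx
      by_cases hE : R = .E
      · subst hE
        by_cases h4 : xs.length = 2
        · match xs, h4, hx with
          | [e, x], _, hx => exact h.rowE hm ih' e x (hx e (by simp)) (hx x (by simp))
        · exact ⟨fun h5 => absurd (h.arity (fun a ha => (hx a ha).trans_le hm) h5) h4,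
            fun h5 => absurd (II_arity A _ xs h5) h4⟩
      · exact h.easy R hE hF hK xs (fun a ha => (hx a ha).trans_le hm)
    intro R xs hx
    by_cases hF : R = .F
    · subst hF
      by_cases h4 : xs.length = 6
      · match xs, h4, hx with
        | [t, a, b, p, x, y], _, hx =>
          exact h.rowF hm hrel x (hx x (by simp)) t (hx t (by simp)) a (hx a (by simp))
            b (hx b (by simp)) p (hx p (by simp)) y (hx y (by simp))
      · exact ⟨fun h5 => absurd (h.arity (fun a ha => (hx a ha).trans_le hm) h5) h4,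
          fun h5 => absurd (II_arity A _ xs h5) h4⟩
    · by_cases hK : R = .K
      · subst hK
        by_cases h4 : xs.length = 3
        · match xs, h4, hx with
          | [t, a, n], _, hx =>
            exact h.rowK hm hrel a (hx a (by simp)) t (hx t (by simp)) n (hx n (by simp))
        · exact ⟨fun h5 => absurd (h.arity (fun a ha => (hx a ha).trans_le hm) h5) h4,
            fun h5 => absurd (II_arity A _ xs h5) h4⟩
      · exact hrel R hF hK xs hx

end hyp

end Cnd

/-- condensation: an interpretation on an ordinal `β > 0` satisfying all the sentences valid in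
the constructible universes, with the right order and the right arithmetical relations -/
theorem condensation (A : ℕ → List ℕ → Prop) (β : Ordinal.{0}) (hβ : 0 < β)
    (J : Sy → List Ordinal.{0} → Prop)
    (hlt : ∀ a < β, ∀ b < β, (J .lt [a, b] ↔ a < b))
    (hsig : ∀ φ ∈ Sig, ∀ v, (∀ k, v k < β) → Sat J (Set.Iio β) v φ)
    (har : ∀ j, ∀ l : List ℕ, (∀ n ∈ l, (n : Ordinal.{0}) < β) →
      (J (.ar j) (l.map (fun n : ℕ => (n : Ordinal.{0}))) ↔ A j l))
    (R : Sy) (l : List Ordinal.{0}) (hl : ∀ a ∈ l, a < β) : J R l ↔ II A R l :=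
  Cnd.Hyp.main ⟨hβ, hlt, hsig, har⟩ β le_rfl R l hl

end Pool.Agent.CC
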