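import Mathlib
import Pool.Agent.Lib.MP_bf67b0_lc.Basics
import Pool.Agent.Lib.MP_bf67b0_lc.Cond

/-!
P6: the Löwenheim-Skolem theorem and the collapse: existence of ground models.
-/

set_option autoImplicit false

namespace Pool.Agent.CC

open Ordinal Set

/-! ### Löwenheim-Skolem -/

section LS
variable {M : Type*} (I : Sy → List M → Prop) (d : M)

/-- the valuation given by a list -/
def lvd (l : List M) (k : ℕ) : M := l.getD k d

open Classical in
/-- Skolem functions -/
noncomputable def skol (p : Fm × ℕ × List M) : M :=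
  if h : ∃ a, ¬ Sat I Set.univ (Function.update (lvd d p.2.2) p.2.1 a) p.1 then
    Classical.choose h else d

/-- the stages of the Skolem skHull -/
def skHullS : ℕ → Set M
  | 0 => {d}
  | n + 1 => skHullS n ∪ {x | ∃ φ i, ∃ l : List M, (∀ a ∈ l, a ∈ skHullS n) ∧ x = skol I d (φ, i, l)}

/-- the Skolem skHull -/
def skHull : Set M := ⋃ n, skHullS I d n

theorem skHullS_countable (n : ℕ) : (skHullS I d n).Countable := by
  induction n with
  | zero => exact Set.countable_singleton d
  | succ n ih =>
    refine ih.union ?_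
    have : Countable (skHullS I d n) := ih.to_subtype
    have h2 : {x | ∃ φ i, ∃ l : List M, (∀ a ∈ l, a ∈ skHullS I d n) ∧ x = skol I d (φ, i, l)} ⊆
        Set.range (fun p : Fm × ℕ × List (skHullS I d n) =>
          skol I d (p.1, p.2.1, p.2.2.map Subtype.val)) := by
      rintro x ⟨φ, i, l, hl, rfl⟩
      obtain ⟨l', rfl⟩ : ∃ l' : List (skHullS I d n), l = l'.map Subtype.val := by
        refine ⟨l.attach.map (fun a => ⟨a.1, hl a.1 a.2⟩), ?_⟩
        rw [List.map_map]
        conv_lhs => rw [← List.attach_map_subtype_val l]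
        rfl
      exact ⟨(φ, i, l'), rfl⟩
    exact (Set.countable_range _).mono h2

theorem skHull_countable : (skHull I d).Countable := Set.countable_iUnion (skHullS_countable I d)

theorem mem_skHull : d ∈ skHull I d := Set.mem_iUnion.2 ⟨0, rfl⟩

theorem skHullS_mono {m n : ℕ} (h : m ≤ n) : skHullS I d m ⊆ skHullS I d n := by
  induction n, h using Nat.le_induction with
  | base => exact subset_rfl
  | succ n _ ih => exact ih.trans Set.subset_union_left

theorem skol_mem {φ : Fm} {i : ℕ} {l : List M} (hl : ∀ a ∈ l, a ∈ skHull I d) :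
    skol I d (φ, i, l) ∈ skHull I d := by
  have : ∃ n, ∀ a ∈ l, a ∈ skHullS I d n := by
    clear φ i
    induction l with
    | nil => exact ⟨0, by simp⟩
    | cons b l ih =>
      obtain ⟨n, hn⟩ := ih (fun a ha => hl a (List.mem_cons_of_mem _ ha))
      obtain ⟨m, hm⟩ := Set.mem_iUnion.1 (hl b (List.mem_cons_self ..))
      refine ⟨max m n, fun a ha => ?_⟩
      rcases List.mem_cons.1 ha with rfl | ha
      · exact skHullS_mono I d (le_max_left _ _) hm
      · exact skHullS_mono I d (le_max_right _ _) (hn a ha)
  obtain ⟨n, hn⟩ := this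
  exact Set.mem_iUnion.2 ⟨n + 1, Or.inr ⟨φ, i, l, hn, rfl⟩⟩

theorem skHull_elem (φ : Fm) (v : ℕ → M) (hv : ∀ k, v k ∈ skHull I d) :
    Sat I (skHull I d) v φ ↔ Sat I Set.univ v φ := by
  induction φ generalizing v with
  | bot => exact Iff.rfl
  | eq i j => exact Iff.rfl
  | rel R xs => exact Iff.rfl
  | imp φ ψ ih1 ih2 =>
    change (_ → _) ↔ (_ → _)
    rw [ih1 v hv, ih2 v hv]
  | all i φ ih =>
    change (∀ a ∈ skHull I d, Sat I (skHull I d) (Function.update v i a) φ) ↔
      (∀ a ∈ Set.univ, Sat I Set.univ (Function.update v i a) φ)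
    have hup : ∀ a ∈ skHull I d, ∀ k, Function.update v i a k ∈ skHull I d := by
      intro a ha k
      by_cases hk : k = i
      · subst hk; simpa using ha
      · simpa [Function.update_of_ne hk] using hv k
    constructor
    · intro h
      by_contra hcon
      push Not at hcon
      obtain ⟨a, -, ha⟩ := hcon
      set l : List M := (List.range φ.bnd).map v with hl
      have hlv : ∀ k < φ.bnd, lvd d l k = v k := by
        intro k hk
        simp [lvd, hl, hk]
      have key : ∀ b, Sat I Set.univ (Function.update (lvd d l) i b) φ ↔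
          Sat I Set.univ (Function.update v i b) φ := by
        intro b
        apply Sat_congr
        intro k hk
        by_cases hki : k = i
        · subst hki; simp
        · rw [Function.update_of_ne hki, Function.update_of_ne hki, hlv k hk]
      have hex : ∃ b, ¬ Sat I Set.univ (Function.update (lvd d l) i b) φ := ⟨a, by rwa [key]⟩
      have hsk : ¬ Sat I Set.univ (Function.update (lvd d l) i (skol I d (φ, i, l))) φ := by
        have : skol I d (φ, i, l) = Classical.choose hex := by
          unfold skol
          rw [dif_pos hex]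
        rw [this]
        exact Classical.choose_spec hex
      have hmem : skol I d (φ, i, l) ∈ skHull I d := by
        apply skol_mem
        intro b hb
        rw [hl, List.mem_map] at hb
        obtain ⟨k, -, rfl⟩ := hb
        exact hv k
      rw [key] at hsk
      exact hsk ((ih _ (hup _ hmem)).1 (h _ hmem))
    · intro h a ha
      exact (ih _ (hup a ha)).2 (h a (Set.mem_univ a))

end LS

/-! ### isomorphisms -/

/-- transfer along a bijection of the universes -/
theorem Sat_iso {M N : Type*} {I : Sy → List M → Prop} {J : Sy → List N → Prop} {D : Set M}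
    {D' : Set N} (g : N → M) (hg : Set.BijOn g D' D)
    (hJ : ∀ R l, (∀ a ∈ l, a ∈ D') → (J R l ↔ I R (l.map g))) (φ : Fm) (v : ℕ → N)
    (hv : ∀ k, v k ∈ D') : Sat J D' v φ ↔ Sat I D (fun k => g (v k)) φ := by
  induction φ generalizing v with
  | bot => exact Iff.rfl
  | eq i j =>
    change v i = v j ↔ g (v i) = g (v j)
    exact ⟨fun h => by rw [h], fun h => hg.injOn (hv i) (hv j) h⟩
  | rel R xs =>
    change J R (xs.map v) ↔ I R (xs.map (fun k => g (v k)))
    rw [hJ R (xs.map v) (by
      intro a ha
      rw [List.mem_map] at ha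
      obtain ⟨k, -, rfl⟩ := ha
      exact hv k), List.map_map]
    rfl
  | imp φ ψ ih1 ih2 =>
    change (_ → _) ↔ (_ → _)
    rw [ih1 v hv, ih2 v hv]
  | all i φ ih =>
    change (∀ a ∈ D', Sat J D' (Function.update v i a) φ) ↔
      (∀ a ∈ D, Sat I D (Function.update (fun k => g (v k)) i a) φ)
    have hup : ∀ a ∈ D', ∀ k, Function.update v i a k ∈ D' := by
      intro a ha k
      by_cases hk : k = i
      · subst hk; simpa using ha
      · simpa [Function.update_of_ne hk] using hv k
    have hfun : ∀ a, (fun k => g (Function.update v i a k)) =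
        Function.update (fun k => g (v k)) i (g a) := by
      intro a
      funext k
      by_cases hk : k = i
      · subst hk; simp
      · simp [Function.update_of_ne hk]
    constructor
    · intro h b hb
      obtain ⟨a, ha, rfl⟩ := hg.surjOn hb
      have := (ih _ (hup a ha)).1 (h a ha)
      rwa [hfun] at this
    · intro h a ha
      rw [ih _ (hup a ha), hfun]
      exact h _ (hg.mapsTo ha)

/-- every countable set of ordinals is order isomorphic to an ordinal -/
theorem exists_collapse (X : Set Ordinal.{0}) (hX : X.Countable) :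
    ∃ (κ : Ordinal.{0}) (g : Ordinal.{0} → Ordinal.{0}), Set.BijOn g (Set.Iio κ) X ∧
      ∀ a < κ, ∀ b < κ, (g a < g b ↔ a < b) := by
  have hc : Countable X := hX.to_subtype
  have hsm : Small.{0} X := Countable.toSmall X
  let e : Shrink.{0} X ≃ X := (@equivShrink X hsm).symm
  let r : Shrink.{0} X → Shrink.{0} X → Prop := fun a b => e a < e b
  let E : r ↪r ((· < ·) : X → X → Prop) := ⟨e.toEmbedding, Iff.rfl⟩
  have : IsWellOrder (Shrink.{0} X) r := E.isWellOrder
  let f := Ordinal.enum r
  refine ⟨Ordinal.type r, fun a => if h : a < Ordinal.type r then (e (f ⟨a, h⟩)).1 else 0,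
    ⟨?_, ?_, ?_⟩, ?_⟩
  · intro a ha
    have ha' : a < Ordinal.type r := ha
    simp only [dif_pos ha']
    exact (e (f ⟨a, ha'⟩)).2
  · intro a ha b hb hab
    have ha' : a < Ordinal.type r := ha
    have hb' : b < Ordinal.type r := hb
    simp only [dif_pos ha', dif_pos hb'] at hab
    have h1 := f.injective (e.injective (Subtype.ext hab))
    exact congrArg Subtype.val h1
  · intro x hx
    refine ⟨(f.symm (e.symm ⟨x, hx⟩)).1, (f.symm (e.symm ⟨x, hx⟩)).2, ?_⟩
    have h2 : (f.symm (e.symm ⟨x, hx⟩)).1 < Ordinal.type r := (f.symm (e.symm ⟨x, hx⟩)).2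
    change (if h : (f.symm (e.symm ⟨x, hx⟩)).1 < Ordinal.type r then
      (e (f ⟨(f.symm (e.symm ⟨x, hx⟩)).1, h⟩)).1 else 0) = x
    rw [dif_pos h2]
    have h3 : f ⟨(f.symm (e.symm ⟨x, hx⟩)).1, h2⟩ = e.symm ⟨x, hx⟩ :=
      f.apply_symm_apply _
    rw [h3, e.apply_symm_apply]
  · intro a ha b hb
    simp only [dif_pos ha, dif_pos hb]
    have := f.map_rel_iff (a := ⟨a, ha⟩) (b := ⟨b, hb⟩)
    exact this

/-- ground models exist, given the condensation theorem -/
theorem exists_good_of (condensation : ∀ (A : ℕ → List ℕ → Prop) (β : Ordinal.{0})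
    (J : Sy → List Ordinal.{0} → Prop), 0 < β →
    (∀ a < β, ∀ b < β, (J .lt [a, b] ↔ a < b)) →
    (∀ φ ∈ Sig, ∀ v, (∀ k, v k < β) → Sat J (Set.Iio β) v φ) →
    (∀ j, ∀ l : List ℕ, (∀ n ∈ l, (n : Ordinal.{0}) < β) →
      (J (.ar j) (l.map (fun n : ℕ => (n : Ordinal.{0}))) ↔ A j l)) →
    ∀ (R : Sy) (l : List Ordinal.{0}), (∀ a ∈ l, a < β) → (J R l ↔ II A R l))
    (A : ℕ → List ℕ → Prop) : ∃ κ, Good A κ := by
  set X : Set Ordinal.{0} := skHull (II A) 0 with hXdef
  obtain ⟨κ, g, hg, hlt⟩ := exists_collapse X (skHull_countable _ _)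
  have hnat : ∀ n : ℕ, (n : Ordinal.{0}) ∈ X := by
    intro n
    have h1 := skHull_elem (II A) (0 : Ordinal.{0}) (.all 0 (.imp (.rel (.nat n) [0]) .bot))
      (fun _ => 0) (fun _ => mem_skHull _ _)
    have h2 : ¬ Sat (II A) Set.univ (fun _ => 0) (.all 0 (.imp (.rel (.nat n) [0]) .bot)) := by
      intro h
      exact h (n : Ordinal.{0}) (Set.mem_univ _) (by
        change (Function.update (fun _ => (0 : Ordinal.{0})) 0 (n : Ordinal.{0})) 0 = n
        simp)
    rw [← h1] at h2
    by_contra hn
    apply h2
    intro a ha hna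
    apply hn
    have : a = (n : Ordinal.{0}) := by
      change (Function.update (fun _ => (0 : Ordinal.{0})) 0 a) 0 = n at hna
      simpa using hna
    rw [← this]
    exact ha
  have hgn : ∀ n : ℕ, (n : Ordinal.{0}) < κ ∧ g n = n := by
    intro n
    induction n using Nat.strong_induction_on with
    | _ n ih =>
      obtain ⟨a, ha, hga⟩ := hg.surjOn (hnat n)
      have ha' : a < κ := ha
      have han : a = n := by
        rcases lt_trichotomy a (n : Ordinal.{0}) with h | h | h
        · obtain ⟨m, rfl⟩ := Ordinal.lt_omega0.1 (h.trans (Ordinal.natCast_lt_omega0 n))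
          have hmn : m < n := by exact_mod_cast h
          rw [(ih m hmn).2] at hga
          exact hga
        · exact h
        · have hnk : (n : Ordinal.{0}) < κ := h.trans ha'
          have h3 : g n < n := by
            have h3' := (hlt _ hnk _ ha').2 h
            rwa [hga] at h3'
          obtain ⟨m, hm⟩ := Ordinal.lt_omega0.1 (h3.trans (Ordinal.natCast_lt_omega0 n))
          rw [hm] at h3
          have hmn : m < n := by exact_mod_cast h3
          have h4 := (ih m hmn).2
          have h5 : (n : Ordinal.{0}) = m := hg.injOn hnk (ih m hmn).1 (hm.trans h4.symm)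
          have h6 : n = m := by exact_mod_cast h5
          omega
      subst han
      exact ⟨ha', hga⟩
  let J : Sy → List Ordinal.{0} → Prop := fun R l => II A R (l.map g)
  have hiso : ∀ (φ : Fm) (v : ℕ → Ordinal.{0}), (∀ k, v k < κ) →
      (Sat J (Set.Iio κ) v φ ↔ Sat (II A) Set.univ (fun k => g (v k)) φ) := by
    intro φ v hv
    rw [Sat_iso (I := II A) (J := J) g hg (fun R l _ => Iff.rfl) φ v hv]
    exact skHull_elem (II A) 0 φ _ (fun k => hg.mapsTo (hv k))
  have hκ : 0 < κ := by simpa using (hgn 0).1
  have hcond := condensation A κ J hκ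
    (fun a ha b hb => hlt a ha b hb)
    (fun φ hφ v hv => (hiso φ v hv).2 (hφ A _))
    (fun j l _ => by
      change (∃ l' : List ℕ, (l.map (fun n : ℕ => (n : Ordinal.{0}))).map g =
        l'.map (fun n : ℕ => (n : Ordinal.{0})) ∧ A j l') ↔ A j l
      have hmap : (l.map (fun n : ℕ => (n : Ordinal.{0}))).map g =
          l.map (fun n : ℕ => (n : Ordinal.{0})) := by
        rw [List.map_map]
        apply List.map_congr_left
        intro n _
        exact (hgn n).2
      rw [hmap]
      constructor
      · rintro ⟨l', h1, h2⟩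
        have : l = l' := (List.map_injective_iff.2 (fun a b h => by exact_mod_cast h)) h1
        rw [this]
        exact h2
      · intro h
        exact ⟨l, rfl, h⟩)
  refine ⟨κ, ⟨?_, ?_, ?_⟩⟩
  · have : Set.InjOn g (Set.Iio κ) := hg.injOn
    have himg : (g '' (Set.Iio κ)).Countable := by
      rw [hg.image_eq]
      exact skHull_countable _ _
    exact Set.countable_of_injective_of_countable_image this himg
  · exact hκ
  · intro φ hφ v hv
    have h1 := (hiso φ v hv).2 (hφ _)
    have h2 := Sat_iso (I := II A) (J := J) (D := Set.Iio κ) (D' := Set.Iio κ) id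
      (Set.bijOn_id _) (fun R l hl => by
        rw [List.map_id]
        exact hcond R l hl) φ v hv
    exact h2.1 h1

/-- ground models exist -/
theorem exists_good (A : ℕ → List ℕ → Prop) : ∃ κ, Good A κ :=
  exists_good_of (fun A β J hβ hlt hsig har R l hl =>
    condensation A β hβ J hlt hsig har R l hl) A

end Pool.Agent.CC
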