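import Mathlib
import Pool.Agent.Lib.MP_bf67b0_lc.Defs2
import Pool.Agent.Lib.MP_bf67b0_lc.Coding
import Pool.Agent.Lib.MP_bf67b0_lc.Recur

/-!
The satisfaction class of a hull: clauses, link with the coded real, and arithmetical
definability over the ground model.
-/

set_option autoImplicit false

namespace Pool.Agent.CC

open Ordinal Set

theorem upd_getD (a : List ℕ) (i b k : ℕ) :
    (upd a i b).getD k 0 = if k = i then b else a.getD k 0 := by
  unfold upd
  by_cases hk : k < max a.length (i + 1)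
  · rw [List.getD_eq_getElem?_getD, List.getElem?_map, List.getElem?_range hk]
    simp [List.getD_eq_getElem?_getD]
  · have h1 : ¬ k = i := by omega
    have h2 : a.length ≤ k := by omega
    rw [List.getD_eq_default _ _ (by simpa using not_lt.1 hk), if_neg h1,
      List.getD_eq_default _ _ h2]

section
variable (A : ℕ → List ℕ → Prop) {m ξ : Ordinal.{0}}

private theorem hull_lt' (hξ : ξ < m) (e : ℕ) : hull A m ξ e < m := by
  unfold hull
  rcases Set.eq_empty_or_nonempty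
    {η | η < m ∧ Sat (II A) (Set.Iio m) (vv η ξ) (fm e)} with h | h
  · rw [h, Ordinal.sInf_empty]
    exact pos_of_gt hξ
  · exact (csInf_mem h).1

private theorem hull_spec' {e : ℕ} {η : Ordinal.{0}} (hη : η < m)
    (hs : Sat (II A) (Set.Iio m) (vv η ξ) (fm e)) :
    Sat (II A) (Set.Iio m) (vv (hull A m ξ e) ξ) (fm e) :=
  (csInf_mem (s := {η | η < m ∧ Sat (II A) (Set.Iio m) (vv η ξ) (fm e)}) ⟨η, hη, hs⟩).2

private theorem hull_upd' (a : List ℕ) (i b : ℕ) : (fun k => hull A m ξ ((upd a i b).getD k 0)) =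
    Function.update (fun k => hull A m ξ (a.getD k 0)) i (hull A m ξ b) := by
  funext k
  rw [upd_getD]
  by_cases h : k = i
  · subst h; simp
  · rw [if_neg h, Function.update_of_ne h]

end

theorem clauses_true {w : ℕ → Fm → List ℕ → ℕ} (hw : IsWit w) (A : ℕ → List ℕ → Prop)
    {m ξ : Ordinal.{0}} (hξ : ξ < m)
    (hm : ∀ φ ∈ Sig, ∀ v, (∀ k, v k < m) → Sat (II A) (Set.Iio m) v φ) :
    Clauses w A (STrue A m ξ) := by
  refine ⟨fun a h => h, fun φ ψ a => Iff.rfl, ?_, ?_, ?_, ?_, ?_, ?_, ?_⟩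
  · intro i φ a b h
    unfold STrue
    rw [hull_upd']
    exact h _ (hull_lt' A hξ b)
  · intro i φ a h
    unfold STrue at h ⊢
    rw [Sat_all] at h
    push Not at h
    obtain ⟨η, hη, hs⟩ := h
    rw [hull_upd', ← hw i φ a A m ξ hξ _ (hull_lt' A hξ _)]
    exact hull_spec' A hη ((hw i φ a A m ξ hξ η hη).2 hs)
  · intro φ hφ a
    exact hm φ hφ _ fun k => hull_lt' A hξ _
  · intro φ a b h h1
    unfold STrue at h1 ⊢
    refine (Sat_congr fun k hk => ?_).1 h1
    have := h k hk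
    simpa [STrue, Sat_eq] using this
  · intro i j a
    simp [STrue, Sat_eq]
  · intro R xs a
    unfold STrue
    rw [Sat_rel, Sat_rel]
    have : xs.map (fun k => hull A m ξ (a.getD k 0)) = (List.range xs.length).map
        (fun k => hull A m ξ ((xs.map (fun k => a.getD k 0)).getD k 0)) := by
      apply List.ext_getElem
      · simp
      · intro n h1 h2
        simp only [List.length_map] at h1
        simp [List.getD_eq_getElem?_getD, List.getElem?_eq_getElem h1]
    rw [this]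
  · intro j l a hl h
    unfold STrue at h ⊢
    rw [Sat_rel]
    have h0 : (List.range l.length).map (fun k => hull A m ξ (a.getD k 0)) =
        l.map (fun n : ℕ => (n : Ordinal.{0})) := by
      apply List.ext_getElem
      · simp
      · intro n h1 h2
        simp only [List.length_map, List.length_range] at h1
        have h3 := h n h1
        rw [Sat_rel] at h3
        simp only [List.map_cons, List.map_nil, List.getD_cons_zero] at h3
        change hull A m ξ (a.getD n 0) = ((l.getD n 0 : ℕ) : Ordinal.{0}) at h3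
        simp only [List.getElem_map, List.getElem_range]
        rw [h3, List.getD_eq_getElem _ _ h1]
    rw [h0]
    change (∃ l' : List ℕ, l.map (fun n : ℕ => (n : Ordinal.{0})) =
      l'.map (fun n : ℕ => (n : Ordinal.{0})) ∧ A j l') ↔ _
    constructor
    · rintro ⟨l', h1, h2⟩
      have : l = l' := List.map_injective_iff.2 (fun x y hxy => by exact_mod_cast hxy) h1
      rwa [this]
    · intro h1
      exact ⟨l, rfl, h1⟩

theorem link_true (A : ℕ → List ℕ → Prop) {m ξ : Ordinal.{0}} (hξ : ξ < m) (hm : ω ≤ m) {e : ℕ}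
    (he : fm e = .eq 0 1) (n : ℕ) : STrue A m ξ (inF n) [e] ↔ n ∈ zR A ξ := by
  have h1 : hull A m ξ e = ξ := by
    have h2 := hull_spec' A (e := e) (η := ξ) (m := m) (ξ := ξ) hξ (by rw [he]; simp [Sat_eq, vv])
    rw [he] at h2
    simpa [Sat_eq, vv] using h2
  unfold STrue inF
  rw [Sat_ex]
  have hn : (n : Ordinal.{0}) < m := lt_of_lt_of_le (natCast_lt_omega0 n) hm
  constructor
  · rintro ⟨a, ha, h2⟩
    rw [Sat_and] at h2
    obtain ⟨h3, h4⟩ := h2
    have h5 : a = (n : Ordinal.{0}) := by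
      simpa [Fm.nat, Sat_rel, II, IE, base] using h3
    have h6 : EE A a (hull A m ξ e) := by
      simpa [Fm.E, Sat_rel, II, IE, base] using h4
    rw [h1, h5] at h6
    exact h6
  · intro h2
    refine ⟨n, hn, ?_⟩
    rw [Sat_and]
    refine ⟨by simp [Fm.nat, Sat_rel, II, IE, base], ?_⟩
    have : EE A n (hull A m ξ e) := by rw [h1]; exact h2
    simpa [Fm.E, Sat_rel, II, IE, base] using this

theorem STrue_R0 {𝓕 : ℕ → Set ℕ} {A : ℕ → List ℕ → Prop} {κ μ : Ordinal.{0}}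
    (hC : Ctx 𝓕 A κ μ) {J : Fm → List ℕ → ℕ} (hJ : IsTra J)
    (hF : ∃ i, 𝓕 i = {n | ∃ φ a, n = Nat.pair (Nat.pair (eF φ) (Encodable.encode a)) (J φ a)})
    {m ξ : Ordinal.{0}} (hm : m < κ) (hξ : ξ < m) :
    {n | ∃ φ a, n = Nat.pair (eF φ) (Encodable.encode a) ∧ STrue A m ξ φ a} ∈ R0 A κ := by
  obtain ⟨i, hi⟩ := hF
  have hω : ω < κ := lt_of_le_of_lt hC.grd.om_le hC.grd.mu_lt
  have hm0 : (0 : Ordinal.{0}) < m := pos_of_gt hξ
  -- the defining predicate: variable 0 is n, 1 is m, 2 is ξ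
  have hP : D0 A κ (fun v => ∃ j ∈ Set.Iio κ, ∃ c ∈ Set.Iio κ, ∃ x ∈ Set.Iio κ,
      ∃ z ∈ Set.Iio κ, II A (.ar 7) [v 0, j, c] ∧ II A (.ar (12 + i)) [c] ∧
        II A .code [v 1, v 2, j, x] ∧ II A (.nat 0) [z] ∧ II A .E [z, x]) := by
    refine Df.ex (Q := fun _ j v => ∃ c ∈ Set.Iio κ, ∃ x ∈ Set.Iio κ,
      ∃ z ∈ Set.Iio κ, II A (.ar 7) [v 0, j, c] ∧ II A (.ar (12 + i)) [c] ∧
        II A .code [v 1, v 2, j, x] ∧ II A (.nat 0) [z] ∧ II A .E [z, x]) ?_
    refine Df.ex (Q := fun _ c v => ∃ x ∈ Set.Iio κ,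
      ∃ z ∈ Set.Iio κ, II A (.ar 7) [v 1, v 0, c] ∧ II A (.ar (12 + i)) [c] ∧
        II A .code [v 2, v 3, v 0, x] ∧ II A (.nat 0) [z] ∧ II A .E [z, x]) ?_
    refine Df.ex (Q := fun _ x v =>
      ∃ z ∈ Set.Iio κ, II A (.ar 7) [v 2, v 1, v 0] ∧ II A (.ar (12 + i)) [v 0] ∧
        II A .code [v 3, v 4, v 1, x] ∧ II A (.nat 0) [z] ∧ II A .E [z, x]) ?_
    refine Df.ex (Q := fun _ z v =>
      II A (.ar 7) [v 3, v 2, v 1] ∧ II A (.ar (12 + i)) [v 1] ∧
        II A .code [v 4, v 5, v 2, v 0] ∧ II A (.nat 0) [z] ∧ II A .E [z, v 0]) ?_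
    exact (Df.rel (.ar 7) [4, 3, 2]).and ((Df.rel (.ar (12 + i)) [2]).and
      ((Df.rel .code [5, 6, 3, 1]).and ((Df.rel (.nat 0) [0]).and (Df.rel .E [0, 1]))))
  obtain ⟨x, hx, -, hxe⟩ := hC.grd.comp _ hP (fun k => if k = 1 then m else if k = 2 then ξ else 0)
    (fun k => by
      split_ifs
      · exact hm
      · exact hξ.trans hm
      · exact hm0.trans hm) ω hω
  refine ⟨x, hx, ?_⟩
  ext n
  change EE A n x ↔ _
  rw [hxe]
  simp only [natCast_lt_omega0, true_and, Function.update_self, Set.mem_ofPred_eq]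
  have hu1 : ∀ (v : ℕ → Ordinal.{0}) (y : Ordinal.{0}), Function.update v 0 y 1 = v 1 :=
    fun v y => Function.update_of_ne (by decide) _ _
  have hu2 : ∀ (v : ℕ → Ordinal.{0}) (y : Ordinal.{0}), Function.update v 0 y 2 = v 2 :=
    fun v y => Function.update_of_ne (by decide) _ _
  simp only [hu1, hu2, if_true]
  have hcast : ∀ l : List ℕ, ∀ j, II A (.ar j) (l.map (fun n : ℕ => (n : Ordinal.{0}))) ↔ A j l := by
    intro l j
    change (∃ l' : List ℕ, l.map (fun n : ℕ => (n : Ordinal.{0})) =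
      l'.map (fun n : ℕ => (n : Ordinal.{0})) ∧ A j l') ↔ _
    constructor
    · rintro ⟨l', h1, h2⟩
      have : l = l' := List.map_injective_iff.2 (fun x y hxy => by exact_mod_cast hxy) h1
      rwa [this]
    · intro h1
      exact ⟨l, rfl, h1⟩
  have harg : ∀ (L : List Ordinal.{0}) (j : ℕ), II A (.ar j) L →
      ∃ l : List ℕ, L = l.map (fun n : ℕ => (n : Ordinal.{0})) ∧ A j l := fun L j h => h
  constructor
  · rintro ⟨j, -, c, -, y, -, z, -, h7, hi', hcode, hz, hE⟩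
    obtain ⟨l, hl, hl'⟩ := harg _ _ h7
    obtain ⟨a0, b0, rfl⟩ := (hC.ar.a7 l).1 hl'
    simp only [List.map_cons, List.map_nil, List.cons.injEq, and_true] at hl
    obtain ⟨h1, h2, h3⟩ := hl
    have h1' : n = a0 := by exact_mod_cast h1
    subst h1'
    obtain ⟨l, hl, hl'⟩ := harg _ _ hi'
    obtain ⟨n', rfl, hn'⟩ := (hC.ar.fam i l).1 hl'
    simp only [List.map_cons, List.map_nil, List.cons.injEq, and_true] at hl
    have h4 : Nat.pair n b0 = n' := by
      have : ((Nat.pair n b0 : ℕ) : Ordinal.{0}) = (n' : Ordinal.{0}) := by rw [← h3, hl]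
      exact_mod_cast this
    rw [hi] at hn'
    obtain ⟨φ, a, hpa⟩ := hn'
    rw [← h4] at hpa
    obtain ⟨h5, h6⟩ := Nat.pair_eq_pair.1 hpa
    refine ⟨φ, a, h5, ?_⟩
    obtain ⟨-, n2, hn2, hy⟩ := (show (ξ < m ∧ ∃ n : ℕ, j = n ∧ y = code m ξ n) from
      hcode)
    have h7 : n2 = J φ a := by
      have : (n2 : Ordinal.{0}) = (b0 : Ordinal.{0}) := by rw [← hn2, h2]
      rw [← h6]
      exact_mod_cast this
    have hz' : z = 0 := by
      have : z = ((0 : ℕ) : Ordinal.{0}) := hz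
      simpa using this
    have hE' : EE A z y := hE
    rw [hz', hy, h7, EE_iff A hξ] at hE'
    exact ((hJ φ a).2 A m ξ hξ).1 hE'.2.2
  · rintro ⟨φ, a, hn, hS⟩
    have hlt : code m ξ (J φ a) < κ := hC.grd.code_lt m hm ξ hξ _
    refine ⟨(J φ a : ℕ), (natCast_lt_omega0 _).trans hω, (Nat.pair n (J φ a) : ℕ),
      (natCast_lt_omega0 _).trans hω, code m ξ (J φ a), hlt, 0, hm0.trans hm, ?_, ?_, ?_, ?_, ?_⟩
    · exact (hcast [n, J φ a, Nat.pair n (J φ a)] 7).2 ((hC.ar.a7 _).2 ⟨_, _, rfl⟩)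
    · refine (hcast [Nat.pair n (J φ a)] (12 + i)).2 ((hC.ar.fam i _).2 ⟨_, rfl, ?_⟩)
      rw [hi]
      exact ⟨φ, a, by rw [hn]⟩
    · change (_ ∧ _)
      refine ⟨by simpa using hξ, J φ a, rfl, by simp⟩
    · change (0 : Ordinal.{0}) = ((0 : ℕ) : Ordinal.{0})
      simp
    · change EE A 0 (code m ξ (J φ a))
      rw [EE_iff A hξ]
      refine ⟨hm0, le_code hξ _ (fun _ => ?_), ((hJ φ a).2 A m ξ hξ).2 hS⟩
      have := (hJ φ a).1
      omega

end Pool.Agent.CC
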