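import Mathlib
import Pool.Agent.Lib.MP_bf67b0_lc.Defs2
import Pool.Agent.Lib.MP_bf67b0_lc.Recur
import Pool.Agent.Lib.MP_bf67b0_lc.Cond

/-!
Q13: a satisfaction class (in the sense of `Clauses`) whose order is well founded is the
satisfaction class of a substructure isomorphic to an initial segment of the constructible
universe.
-/

set_option autoImplicit false

namespace Pool.Agent.CC

open Ordinal Set

namespace HC

theorem getD_upd (a : List ℕ) (i b k : ℕ) :
    (upd a i b).getD k 0 = if k = i then b else a.getD k 0 := by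
  unfold upd
  by_cases hk : k < max a.length (i + 1)
  · rw [List.getD_eq_getElem _ _ (by simpa using hk)]
    simp
  · have h1 : a.length ≤ k := le_trans (le_max_left _ _) (not_lt.1 hk)
    have h2 : k ≠ i := by
      have := le_trans (le_max_right a.length (i + 1)) (not_lt.1 hk)
      omega
    rw [List.getD_eq_default _ _ (by simpa using not_lt.1 hk), if_neg h2,
      List.getD_eq_default _ _ h1]

section
variable {w : ℕ → Fm → List ℕ → ℕ} {A : ℕ → List ℕ → Prop} {S : Fm → List ℕ → Prop}
  (hS : Clauses w A S)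
include hS

theorem s_neg (φ : Fm) (a : List ℕ) : S φ.neg a ↔ ¬ S φ a := by
  unfold Fm.neg
  rw [hS.imp]
  exact ⟨fun h h' => hS.bot a (h h'), fun h h' => absurd h' h⟩

theorem s_and (φ ψ : Fm) (a : List ℕ) : S (φ.and ψ) a ↔ S φ a ∧ S ψ a := by
  unfold Fm.and
  rw [s_neg hS, hS.imp, s_neg hS]
  tauto

theorem s_or (φ ψ : Fm) (a : List ℕ) : S (φ.or ψ) a ↔ S φ a ∨ S ψ a := by
  unfold Fm.or
  rw [hS.imp, s_neg hS]
  tauto

theorem s_lt (i j : ℕ) (a : List ℕ) : S (.lt i j) a ↔ S (.lt 0 1) [a.getD i 0, a.getD j 0] := by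
  have h1 := hS.relc .lt [i, j] a
  simpa [Fm.lt, List.range_succ] using h1

theorem s_all (i : ℕ) (φ : Fm) (a : List ℕ) : S (.all i φ) a ↔ ∀ b, S φ (upd a i b) := by
  constructor
  · intro h b
    exact hS.all1 i φ a b h
  · intro h
    by_contra hc
    exact hS.all2 i φ a hc (h _)

theorem e_refl (a : ℕ) : S (.eq 0 1) [a, a] := by
  have h : (Fm.eq 0 0) ∈ Sig := fun A v => rfl
  have := hS.sig _ h [a]
  rw [hS.eqc] at this
  simpa using this

theorem e_symm {a b : ℕ} (h : S (.eq 0 1) [a, b]) : S (.eq 0 1) [b, a] := by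
  have h1 : (Fm.imp (.eq 0 1) (.eq 1 0)) ∈ Sig := fun A v => by
    intro h2
    exact (Eq.symm h2 : v 1 = v 0)
  have := hS.sig _ h1 [a, b]
  rw [hS.imp, hS.eqc 1 0] at this
  simpa using this h

theorem not_lt_of_e {a b : ℕ} (h : S (.eq 0 1) [a, b]) : ¬ S (.lt 0 1) [a, b] := by
  have h1 : (Fm.imp (.eq 0 1) (.neg (.lt 0 1))) ∈ Sig := fun A v => by
    intro h2 h3
    have h2' : v 0 = v 1 := h2
    have h3' : v 0 < v 1 := h3
    exact absurd h3' (by rw [h2']; exact lt_irrefl _)
  have := hS.sig _ h1 [a, b]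
  rw [hS.imp, s_neg hS] at this
  exact this h

theorem tri_lt (a b : ℕ) : S (.lt 0 1) [a, b] ∨ S (.eq 0 1) [a, b] ∨ S (.lt 0 1) [b, a] := by
  have h1 : (Fm.or (.lt 0 1) (.or (.eq 0 1) (.lt 1 0))) ∈ Sig := fun A v => by
    rw [Sat_or, Sat_or]
    rcases lt_trichotomy (v 0) (v 1) with h | h | h
    · exact Or.inl h
    · exact Or.inr (Or.inl h)
    · exact Or.inr (Or.inr h)
  have := hS.sig _ h1 [a, b]
  rw [s_or hS, s_or hS, s_lt hS 1 0] at this
  simpa using this

theorem lt_cong {a a' b b' : ℕ} (h : S (.eq 0 1) [a, a']) (h' : S (.eq 0 1) [b, b'])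
    (hl : S (.lt 0 1) [a, b]) : S (.lt 0 1) [a', b'] := by
  refine hS.cong (.lt 0 1) [a, b] [a', b'] ?_ hl
  intro k hk
  have hk2 : k < 2 := by simpa [Fm.lt, Fm.bnd] using hk
  interval_cases k
  · simpa using h
  · simpa using h'

end

/-- the order of the satisfaction class -/
def L (S : Fm → List ℕ → Prop) (a b : ℕ) : Prop := S (.lt 0 1) [a, b]

section
variable {w : ℕ → Fm → List ℕ → ℕ} {A : ℕ → List ℕ → Prop} {S : Fm → List ℕ → Prop}
  (hS : Clauses w A S) [hw : IsWellFounded ℕ (L S)]

/-- position of the element `a` -/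
noncomputable def pos (S : Fm → List ℕ → Prop) [IsWellFounded ℕ (L S)] (a : ℕ) : Ordinal.{0} :=
  IsWellFounded.rank (L S) a

theorem pos_lt_of {a b : ℕ} (h : L S a b) : pos S a < pos S b :=
  IsWellFounded.rank_lt_of_rel h

theorem lt_pos {a : ℕ} {γ : Ordinal.{0}} (h : γ < pos S a) : ∃ b, L S b a ∧ γ ≤ pos S b := by
  unfold pos at h
  rw [IsWellFounded.rank_eq] at h
  obtain ⟨b, hb⟩ := Ordinal.lt_iSup_iff.1 h
  exact ⟨b.1, b.2, Order.lt_succ_iff.1 hb⟩

theorem pos_surj {a : ℕ} {γ : Ordinal.{0}} (h : γ ≤ pos S a) : ∃ b, pos S b = γ := by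
  induction a using hw.wf.induction with
  | _ a ih =>
    rcases eq_or_lt_of_le h with h | h
    · exact ⟨a, h.symm⟩
    · obtain ⟨b, hb, hb'⟩ := lt_pos h
      exact ih b hb hb'

include hS in
theorem pos_eq_of {a b : ℕ} (h : S (.eq 0 1) [a, b]) : pos S a = pos S b := by
  apply le_antisymm
  · by_contra hc
    obtain ⟨c, hc1, hc2⟩ := lt_pos (not_le.1 hc)
    exact absurd (pos_lt_of (lt_cong hS (e_refl hS c) h hc1 : L S c b)) (not_lt.2 hc2)
  · by_contra hc
    obtain ⟨c, hc1, hc2⟩ := lt_pos (not_le.1 hc)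
    exact absurd (pos_lt_of (lt_cong hS (e_refl hS c) (e_symm hS h) hc1 : L S c a)) (not_lt.2 hc2)

include hS in
theorem pos_lt_iff {a b : ℕ} : pos S a < pos S b ↔ S (.lt 0 1) [a, b] := by
  refine ⟨fun h => ?_, fun h => pos_lt_of h⟩
  rcases tri_lt hS a b with h1 | h1 | h1
  · exact h1
  · exact absurd h (by rw [pos_eq_of hS h1]; exact lt_irrefl _)
  · exact absurd h (pos_lt_of h1).not_gt

include hS in
theorem pos_eq_iff {a b : ℕ} : pos S a = pos S b ↔ S (.eq 0 1) [a, b] := by
  refine ⟨fun h => ?_, fun h => pos_eq_of hS h⟩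
  rcases tri_lt hS a b with h1 | h1 | h1
  · exact absurd (pos_lt_of h1) (by rw [h]; exact lt_irrefl _)
  · exact h1
  · exact absurd (pos_lt_of h1) (by rw [h]; exact lt_irrefl _)

/-- the height -/
noncomputable def ht (S : Fm → List ℕ → Prop) [IsWellFounded ℕ (L S)] : Ordinal.{0} :=
  ⨆ a : ℕ, Order.succ (pos S a)

theorem pos_lt_ht (a : ℕ) : pos S a < ht S :=
  lt_of_lt_of_le (Order.lt_succ _) (Ordinal.le_iSup (fun a : ℕ => Order.succ (pos S a)) a)

theorem lt_ht {γ : Ordinal.{0}} : γ < ht S ↔ ∃ a, pos S a = γ := by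
  constructor
  · intro h
    obtain ⟨a, ha⟩ := Ordinal.lt_iSup_iff.1 h
    exact pos_surj (Order.lt_succ_iff.1 ha)
  · rintro ⟨a, rfl⟩
    exact pos_lt_ht a

/-- the structure on the ordinals -/
def J (S : Fm → List ℕ → Prop) [IsWellFounded ℕ (L S)] (R : Sy) (l : List Ordinal.{0}) : Prop :=
  ∃ a : List ℕ, l = a.map (pos S) ∧ S (.rel R (List.range a.length)) a

theorem foldr_range_le (n : ℕ) :
    (((List.range n).map (· + 1)).foldr max 0) ≤ n := by
  have : ∀ l : List ℕ, (∀ k ∈ l, k ≤ n) → l.foldr max 0 ≤ n := by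
    intro l
    induction l with
    | nil => simp
    | cons b l ih =>
      intro h
      simp only [List.foldr_cons]
      exact max_le (h b (by simp)) (ih (fun k hk => h k (by simp [hk])))
  apply this
  intro k hk
  simp only [List.mem_map, List.mem_range] at hk
  obtain ⟨a, ha, rfl⟩ := hk
  omega

include hS in
theorem J_map {R : Sy} {a : List ℕ} :
    J S R (a.map (pos S)) ↔ S (.rel R (List.range a.length)) a := by
  constructor
  · rintro ⟨b, hab, hb⟩
    have hlen : a.length = b.length := by simpa using congrArg List.length hab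
    rw [hlen]
    refine hS.cong _ b a ?_ hb
    intro k hk
    have hk' : k < b.length := lt_of_lt_of_le hk (foldr_range_le _)
    have hk'' : k < a.length := by omega
    rw [← pos_eq_iff hS]
    have h2 : (a.map (pos S))[k]? = (b.map (pos S))[k]? := by rw [hab]
    rw [List.getElem?_map, List.getElem?_map, List.getElem?_eq_getElem hk',
      List.getElem?_eq_getElem hk''] at h2
    rw [List.getD_eq_getElem _ _ hk', List.getD_eq_getElem _ _ hk'']
    simpa using h2.symm
  · intro h
    exact ⟨a, rfl, h⟩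

include hS in
theorem truth (φ : Fm) (v : ℕ → Ordinal.{0}) (a : List ℕ)
    (hv : ∀ k < φ.bnd, v k = pos S (a.getD k 0)) : Sat (J S) (Set.Iio (ht S)) v φ ↔ S φ a := by
  induction φ generalizing v a with
  | bot => exact ⟨fun h => h.elim, fun h => hS.bot a h⟩
  | eq i j =>
    rw [Sat_eq, hv i (lt_of_lt_of_le (Nat.lt_succ_self _) (le_max_left _ _)),
      hv j (lt_of_lt_of_le (Nat.lt_succ_self _) (le_max_right _ _)), pos_eq_iff hS, hS.eqc i j]
  | rel R xs =>
    rw [Sat_rel, hS.relc]
    have h1 : xs.map v = (xs.map (fun k => a.getD k 0)).map (pos S) := by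
      rw [List.map_map]
      exact List.map_congr_left fun k hk => hv k (lt_bnd_of_mem hk)
    rw [h1, J_map hS]
    simp
  | imp φ ψ h1 h2 =>
    rw [Sat_imp, hS.imp, h1 v a (fun k hk => hv k (lt_of_lt_of_le hk (le_max_left _ _))),
      h2 v a (fun k hk => hv k (lt_of_lt_of_le hk (le_max_right _ _)))]
  | all i φ ih =>
    rw [Sat_all, s_all hS]
    have key : ∀ b, Sat (J S) (Set.Iio (ht S)) (Function.update v i (pos S b)) φ ↔
        S φ (upd a i b) := by
      intro b
      apply ih
      intro k hk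
      rw [getD_upd]
      by_cases hki : k = i
      · subst hki; simp
      · rw [Function.update_of_ne hki, if_neg hki]
        exact hv k (lt_of_lt_of_le hk (le_max_right _ _))
    constructor
    · intro h b
      exact (key b).1 (h _ (pos_lt_ht b))
    · intro h γ hγ
      obtain ⟨b, rfl⟩ := lt_ht.1 hγ
      exact (key b).2 (h b)

theorem exists_list (v : ℕ → Ordinal.{0}) (hv : ∀ k, v k < ht S) (n : ℕ) :
    ∃ a : List ℕ, ∀ k < n, v k = pos S (a.getD k 0) := by
  choose c hc using fun k => lt_ht.1 (hv k)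
  refine ⟨(List.range n).map c, fun k hk => ?_⟩
  rw [List.getD_eq_getElem _ _ (by simpa using hk)]
  simp [hc]

include hS in
theorem sat_sig (φ : Fm) (hφ : φ ∈ Sig) (v : ℕ → Ordinal.{0}) (hv : ∀ k, v k < ht S) :
    Sat (J S) (Set.Iio (ht S)) v φ := by
  obtain ⟨a, ha⟩ := exists_list v hv φ.bnd
  exact (truth hS φ v a ha).2 (hS.sig φ hφ a)

include hS in
theorem J_lt {x y : Ordinal.{0}} (hx : x < ht S) (hy : y < ht S) : J S .lt [x, y] ↔ x < y := by
  obtain ⟨a, rfl⟩ := lt_ht.1 hx
  obtain ⟨b, rfl⟩ := lt_ht.1 hy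
  have h := J_map hS (R := .lt) (a := [a, b])
  rw [pos_lt_iff hS]
  simpa [Fm.lt, List.range_succ] using h

/-- sentences characterising the natural numbers -/
def natF : ℕ → Fm
  | 0 => .iff (.nat 0 0) (.all 1 (.neg (.lt 1 0)))
  | n + 1 => .iff (.nat (n + 1) 0) (.ex 1 (.and (.nat n 1) (.and (.lt 1 0)
      (.all 2 (.imp (.lt 2 0) (.or (.lt 2 1) (.eq 2 1)))))))

theorem natF_iff {I : Sy → List Ordinal.{0} → Prop} {D : Set Ordinal.{0}} (hD : IsLowerSet D)
    (hlt : ∀ a ∈ D, ∀ b ∈ D, (I .lt [a, b] ↔ a < b)) (v : ℕ → Ordinal.{0}) (hv : v 0 ∈ D) (n : ℕ)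
    (ih : ∀ m, n = m + 1 → ∀ y ∈ D, (I (.nat m) [y] ↔ y = m)) :
    Sat I D v (natF n) ↔ (I (.nat n) [v 0] ↔ v 0 = n) := by
  cases n with
  | zero =>
    simp only [natF, Sat_iff]
    apply iff_congr Iff.rfl
    simp only [Sat_all, Sat_neg, Sat_lt]
    constructor
    · intro h
      by_contra hc
      have h0 : (0 : Ordinal.{0}) < v 0 := by
        refine pos_iff_ne_zero.2 fun h0 => hc ?_
        rw [h0]
        simp
      have h0' : (0 : Ordinal.{0}) ∈ D := hD h0.le hv
      apply h 0 h0'
      simp only [Function.update_self]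
      rw [Function.update_of_ne (by decide)]
      exact (hlt 0 h0' _ hv).2 h0
    · intro h a ha
      simp only [Function.update_self]
      rw [Function.update_of_ne (by decide), hlt a ha _ hv, h]
      simp
  | succ n =>
    simp only [natF, Sat_iff]
    apply iff_congr Iff.rfl
    simp only [Sat_ex, Sat_and, Sat_all, Sat_imp, Sat_or, Sat_lt, Sat_eq, Fm.nat, Sat_rel]
    have ih' := ih n rfl
    constructor
    · rintro ⟨y, hy, h1, h2, h3⟩
      simp only [List.map_cons, List.map_nil, Function.update_self] at h1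
      rw [ih' y hy] at h1
      subst h1
      rw [Function.update_self, Function.update_of_ne (by decide), hlt _ hy _ hv] at h2
      apply le_antisymm
      · by_contra hc
        push Not at hc
        have hs : (((n + 1 : ℕ) : Ordinal.{0})) ∈ D := hD hc.le hv
        have := h3 _ hs
        simp only [Function.update_self] at this
        rw [Function.update_of_ne (by decide), Function.update_of_ne (by decide),
          Function.update_of_ne (by decide), Function.update_self,
          hlt _ hs _ hv, hlt _ hs _ hy] at this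
        rcases this hc with h | h
        · exact absurd h (by simp)
        · have : n + 1 = n := by exact_mod_cast h
          omega
      · have h4 : (n : Ordinal.{0}) + 1 ≤ v 0 := by
          rw [← Order.succ_eq_add_one]
          exact Order.succ_le_of_lt h2
        exact_mod_cast h4
    · intro h
      have hn : (n : Ordinal.{0}) < v 0 := by rw [h]; exact_mod_cast Nat.lt_succ_self n
      have hnD : (n : Ordinal.{0}) ∈ D := hD hn.le hv
      refine ⟨n, hnD, ?_, ?_, ?_⟩
      · simp only [List.map_cons, List.map_nil, Function.update_self]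
        exact (ih' _ hnD).2 rfl
      · rw [Function.update_self, Function.update_of_ne (by decide), hlt _ hnD _ hv]
        exact hn
      · intro a ha
        simp only [Function.update_self]
        rw [Function.update_of_ne (by decide), Function.update_of_ne (by decide),
          Function.update_of_ne (by decide), Function.update_self,
          hlt _ ha _ hv, hlt _ ha _ hnD, h]
        intro h5
        have h6 : a < (n : Ordinal.{0}) + 1 := by exact_mod_cast h5
        rw [← Order.succ_eq_add_one, Order.lt_succ_iff] at h6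
        exact lt_or_eq_of_le h6

theorem natF_Sig (n : ℕ) : natF n ∈ Sig := by
  intro A v
  rw [natF_iff isLowerSet_univ (fun a _ b _ => Iff.rfl) v (Set.mem_univ _) n
    (fun m _ y _ => Iff.rfl)]
  exact Iff.rfl

include hS in
theorem J_nat (n : ℕ) : ∀ x < ht S, (J S (.nat n) [x] ↔ x = n) := by
  induction n with
  | zero =>
    intro x hx
    have h := sat_sig hS _ (natF_Sig 0) (fun _ => x) (fun _ => hx)
    rwa [natF_iff (isLowerSet_Iio _) (fun a ha b hb => J_lt hS ha hb) _ hx 0
      (fun m hm => by omega)] at h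
  | succ n ih =>
    intro x hx
    have h := sat_sig hS _ (natF_Sig (n + 1)) (fun _ => x) (fun _ => hx)
    rwa [natF_iff (isLowerSet_Iio _) (fun a ha b hb => J_lt hS ha hb) _ hx (n + 1)
      (fun m hm y hy => by
        obtain rfl : n = m := by omega
        exact ih y hy)] at h

include hS in
theorem J_ar (j : ℕ) (l : List ℕ) (hl : ∀ n ∈ l, (n : Ordinal.{0}) < ht S) :
    J S (.ar j) (l.map (fun n : ℕ => (n : Ordinal.{0}))) ↔ A j l := by
  classical
  let c : ℕ → ℕ := fun n => if h : ∃ b, pos S b = n then Classical.choose h else 0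
  have hc : ∀ n ∈ l, pos S (c n) = n := by
    intro n hn
    have h := lt_ht.1 (hl n hn)
    simp only [c, dif_pos h]
    exact Classical.choose_spec h
  have hmap : l.map (fun n : ℕ => (n : Ordinal.{0})) = (l.map c).map (pos S) := by
    rw [List.map_map]
    exact List.map_congr_left fun n hn => (hc n hn).symm
  rw [hmap, J_map hS, List.length_map]
  refine hS.lit j l (l.map c) (by simp) ?_
  intro i hi
  rw [List.getD_eq_getElem _ _ hi, List.getD_eq_getElem _ _ (by simpa using hi)]
  have h1 := J_nat hS (l[i]) (pos S (c l[i])) (pos_lt_ht _)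
  rw [hc _ (List.getElem_mem hi)] at h1
  have h2 := J_map hS (R := .nat l[i]) (a := [c l[i]])
  simp only [List.map_cons, List.map_nil] at h2
  rw [hc _ (List.getElem_mem hi)] at h2
  have h3 := h2.1 (h1.2 rfl)
  simpa using h3

end

end HC

open HC in
theorem link_conv {w : ℕ → Fm → List ℕ → ℕ} {A : ℕ → List ℕ → Prop} {κ : Ordinal.{0}}
    (S : Fm → List ℕ → Prop) (hS : Clauses w A S) (ρ : ℕ → Ordinal.{0}) (hρ : ∀ a, ρ a < κ)
    (hlt : ∀ a b, S (.lt 0 1) [a, b] → ρ a < ρ b) (e : ℕ) :
    ∃ ξ < κ, ∀ n, S (inF n) [e] ↔ n ∈ zR A ξ := by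
  have hwf : WellFounded (HC.L S) :=
    Subrelation.wf (fun {a b} h => hlt a b h) (InvImage.wf ρ wellFounded_lt)
  have : IsWellFounded ℕ (HC.L S) := ⟨hwf⟩
  have hpos : ∀ a, HC.pos S a ≤ ρ a := by
    intro a
    induction a using hwf.induction with
    | _ a ih =>
      by_contra hc
      obtain ⟨b, hb, hb'⟩ := lt_pos (not_le.1 hc)
      exact absurd (lt_of_le_of_lt (hb'.trans (ih b hb)) (hlt b a hb)) (lt_irrefl _)
  refine ⟨HC.pos S e, lt_of_le_of_lt (hpos e) (hρ e), fun n => ?_⟩
  have hβ : 0 < ht S := lt_of_le_of_lt (by simp) (pos_lt_ht e)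
  have hcond := condensation A (ht S) hβ (J S) (fun a ha b hb => J_lt hS ha hb)
    (fun φ hφ v hv => sat_sig hS φ hφ v hv) (fun j l hl => J_ar hS j l hl)
  rw [← truth hS (inF n) (fun k => pos S ([e].getD k 0)) [e] (fun k _ => rfl)]
  unfold inF
  simp only [Sat_ex, Sat_and, Fm.nat, Fm.E, Sat_rel, List.map_cons, List.map_nil,
    Function.update_self]
  have h0 : ∀ a : Ordinal.{0}, Function.update (fun k => pos S ([e].getD k 0)) 1 a 0 = pos S e := by
    intro a
    rw [Function.update_of_ne (by decide)]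
    rfl
  simp only [h0]
  have hn : ∀ a < ht S, (J S (.nat n) [a] ∧ J S .E [a, pos S e]) ↔
      (a = (n : Ordinal.{0}) ∧ EE A a (pos S e)) := by
    intro a ha
    rw [hcond (.nat n) [a] (by simpa using ha), hcond .E [a, pos S e] (by
      intro b hb
      simp only [List.mem_cons, List.not_mem_nil, or_false] at hb
      rcases hb with rfl | rfl
      · exact ha
      · exact pos_lt_ht e)]
    exact Iff.rfl
  constructor
  · rintro ⟨a, ha, h1⟩
    obtain ⟨rfl, h2⟩ := (hn a ha).1 h1
    exact h2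
  · intro h
    have h' : EE A n (pos S e) := h
    have hlt' : (n : Ordinal.{0}) < ht S := (EE_lt h').trans (pos_lt_ht e)
    exact ⟨n, hlt', (hn _ hlt').2 ⟨rfl, h'⟩⟩

end Pool.Agent.CC
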