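import Mathlib
import Pool.Agent.Lib.MP_bf67b0_lc.Defs2

/-!
Uniform definability of the elements of a hull: existence of the Skolem functions `IsWit` and of
the translation `IsTra`.
-/

set_option autoImplicit false

namespace Pool.Agent.CC

open Ordinal Set

namespace HDf

/-! ### substitution of definable functions -/

section
variable {S M : Type*} {I : S → Sy → List M → Prop} {D : S → Set M}

theorem Df_sat (φ : Fm) : Df I D (fun s v => Sat (I s) (D s) v φ) :=
  ⟨φ, fun _ _ _ => Iff.rfl⟩

/-- quantification of a named variable -/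
theorem Df_exAt {P : S → (ℕ → M) → Prop} (h : Df I D P) (n : ℕ) :
    Df I D (fun s v => ∃ y ∈ D s, P s (Function.update v n y)) := by
  obtain ⟨φ, hφ⟩ := h
  refine ⟨.ex n φ, fun s v hv => ?_⟩
  rw [Sat_ex]
  refine exists_congr fun y => and_congr_right fun hy => ?_
  refine hφ s _ fun k => ?_
  by_cases hk : k = n
  · subst hk; simpa using hy
  · rw [Function.update_of_ne hk]; exact hv k

/-- substitution of definable functions for the variables of a formula -/
theorem Df_substfn (φ : Fm) (F : ℕ → S → (ℕ → M) → M)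
    (hF : ∀ k, Df I D (fun s v => v 0 = F k s (fun j => v (j + 1))))
    (hD : ∀ k s v, (∀ j, v j ∈ D s) → F k s v ∈ D s) :
    Df I D (fun s v => Sat (I s) (D s) (fun k => F k s v) φ) := by
  have key : ∀ n ≤ φ.bnd, Df I D (fun s v => Sat (I s) (D s)
      (fun k => if k < n then F k s (fun j => v (φ.bnd + j)) else v k) φ) := by
    intro n
    induction n with
    | zero =>
      intro _
      exact (Df_sat φ).congr fun s v _ => by simp
    | succ n ih =>
      intro hn
      have h1 := ih (by omega)
      -- the graph of `F n`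
      have h2 : Df I D (fun s v => v n = F n s (fun j => v (φ.bnd + j))) := by
        have := (hF n).subst (fun k => if k = 0 then n else φ.bnd + (k - 1))
        refine this.congr fun s v _ => ?_
        simp
      have h3 := Df_exAt (h2.and h1) n
      refine h3.congr fun s v hv => ?_
      have e1 : ∀ y : M, (fun j => Function.update v n y (φ.bnd + j)) =
          fun j => v (φ.bnd + j) := by
        intro y
        funext j
        rw [Function.update_of_ne (by omega)]
      simp only [e1, Function.update_self]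
      constructor
      · rintro ⟨y, hy, rfl, h⟩
        refine (Sat_congr fun k _ => ?_).1 h
        by_cases hk : k < n
        · simp [hk, Nat.lt_succ_of_lt hk]
        · by_cases hk' : k = n
          · subst hk'; simp
          · have : ¬ k < n + 1 := by omega
            simp [hk, this, Function.update_of_ne hk']
      · intro h
        refine ⟨_, hD n s _ (fun j => hv _), rfl, ?_⟩
        refine (Sat_congr fun k _ => ?_).1 h
        by_cases hk : k < n
        · simp [hk, Nat.lt_succ_of_lt hk]
        · by_cases hk' : k = n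
          · subst hk'; simp
          · have : ¬ k < n + 1 := by omega
            simp [hk, this, Function.update_of_ne hk']
  have h1 := (key φ.bnd le_rfl).subst (fun k => k - φ.bnd)
  refine h1.congr fun s v _ => ?_
  refine Sat_congr fun k hk => ?_
  simp [hk]

end

/-! ### the hull -/

/-- the family of all structures -/
abbrev HS : Type 1 := (ℕ → List ℕ → Prop) × Ordinal.{0}

/-- the interpretations of the family -/
abbrev HI (s : HS) : Sy → List Ordinal.{0} → Prop := II s.1

/-- the universes of the family -/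
abbrev HD (s : HS) : Set Ordinal.{0} := Set.Iio s.2

theorem fm_surj (φ : Fm) : ∃ n, 2 ≤ n ∧ fm n = φ := by
  obtain ⟨n, hn⟩ := Classical.choose_spec (@exists_surjective_nat Fm ⟨Fm.bot⟩ inferInstance) φ
  refine ⟨n + 2, by omega, ?_⟩
  have : ¬ n + 2 < 2 := by omega
  simp only [fm, this, if_false, Nat.add_sub_cancel]
  exact hn

theorem hull_lt (A : ℕ → List ℕ → Prop) {m ξ : Ordinal.{0}} (hm : 0 < m) (e : ℕ) :
    hull A m ξ e < m := by
  unfold hull
  rcases Set.eq_empty_or_nonempty
    {η | η < m ∧ Sat (II A) (Set.Iio m) (vv η ξ) (fm e)} with h | h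
  · rw [h, Ordinal.sInf_empty]; exact hm
  · exact (csInf_mem h).1

theorem eq_hull_iff (A : ℕ → List ℕ → Prop) {m ξ η : Ordinal.{0}} (hη : η < m) (e : ℕ) :
    η = hull A m ξ e ↔
      (Sat (II A) (Set.Iio m) (vv η ξ) (fm e) ∧
        ∀ a ∈ Set.Iio m, a < η → ¬ Sat (II A) (Set.Iio m) (vv a ξ) (fm e)) ∨
      ((¬ ∃ a ∈ Set.Iio m, Sat (II A) (Set.Iio m) (vv a ξ) (fm e)) ∧ η = 0) := by
  unfold hull
  rcases Set.eq_empty_or_nonempty
    {η | η < m ∧ Sat (II A) (Set.Iio m) (vv η ξ) (fm e)} with h | h
  · rw [h, Ordinal.sInf_empty]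
    have h' : ∀ a < m, ¬ Sat (II A) (Set.Iio m) (vv a ξ) (fm e) := by
      intro a ha hs
      have : a ∈ ({η | η < m ∧ Sat (II A) (Set.Iio m) (vv η ξ) (fm e)} : Set Ordinal.{0}) :=
        ⟨ha, hs⟩
      rw [h] at this
      exact this
    constructor
    · intro h0
      exact Or.inr ⟨fun ⟨a, ha, hs⟩ => h' a ha hs, h0⟩
    · rintro (⟨hs, _⟩ | ⟨_, h0⟩)
      · exact absurd hs (h' _ hη)
      · exact h0
  · have hmem := csInf_mem h
    constructor
    · intro h0
      rw [← h0] at hmem
      refine Or.inl ⟨hmem.2, fun a ha hlt hs => ?_⟩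
      have : sInf {η | η < m ∧ Sat (II A) (Set.Iio m) (vv η ξ) (fm e)} ≤ a :=
        csInf_le' ⟨ha, hs⟩
      rw [← h0] at this
      exact absurd hlt (not_lt.2 this)
    · rintro (⟨hs, hmin⟩ | ⟨hne, _⟩)
      · refine le_antisymm ?_ (csInf_le' ⟨hη, hs⟩)
        by_contra hlt
        exact hmin _ hmem.1 (not_le.1 hlt) hmem.2
      · obtain ⟨a, ha⟩ := h
        exact absurd ⟨a, ha.1, ha.2⟩ hne

theorem Df_fm (e : ℕ) :
    Df HI HD (fun s v => Sat (HI s) (HD s) (vv (v 0) (v 1)) (fm e)) := by
  have := (Df_sat (I := HI) (D := HD) (fm e)).subst (fun k => if k = 0 then 0 else 1)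
  refine this.congr fun s v _ => ?_
  refine Sat_congr fun k _ => ?_
  by_cases hk : k = 0
  · simp [vv, hk]
  · simp [vv, hk]

theorem II_lt' (A : ℕ → List ℕ → Prop) (a b : Ordinal.{0}) : II A .lt [a, b] ↔ a < b := Iff.rfl

theorem II_nat' (A : ℕ → List ℕ → Prop) (n : ℕ) (a : Ordinal.{0}) :
    II A (.nat n) [a] ↔ a = n := Iff.rfl

/-- the graph of the hull function is uniformly definable -/
theorem Df_hull (e : ℕ) : Df HI HD (fun s v => v 0 = hull s.1 s.2 (v 1) e) := by
  have h1 : Df HI HD (fun s v => ∀ a ∈ HD s, a < v 0 →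
      ¬ Sat (HI s) (HD s) (vv a (v 1)) (fm e)) := by
    refine Df.all (Q := fun s a v => a < v 0 → ¬ Sat (HI s) (HD s) (vv a (v 1)) (fm e)) ?_
    refine Df.imp ?_ ?_
    · exact (Df.rel (I := HI) (D := HD) .lt [0, 1]).congr fun s v _ => Iff.rfl
    · have := (Df_fm e).subst (fun k => if k = 0 then 0 else 2)
      exact (this.congr fun s v _ => by simp).not
  have h2 : Df HI HD (fun s v => ∃ a ∈ HD s, Sat (HI s) (HD s) (vv a (v 1)) (fm e)) := by
    refine Df.ex (Q := fun s a v => Sat (HI s) (HD s) (vv a (v 1)) (fm e)) ?_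
    have := (Df_fm e).subst (fun k => if k = 0 then 0 else 2)
    exact this.congr fun s v _ => by simp
  have h3 : Df HI HD (fun s v => v 0 = 0) :=
    (Df.rel (I := HI) (D := HD) (.nat 0) [0]).congr fun s v _ => by
      show v 0 = ((0 : ℕ) : Ordinal.{0}) ↔ _
      simp
  refine (((Df_fm e).and h1).or (h2.not.and h3)).congr fun s v hv => ?_
  exact (eq_hull_iff s.1 (hv 0) e).symm

end HDf

open HDf in
theorem exists_wit : ∃ w, IsWit w := by
  have key : ∀ (i : ℕ) (φ : Fm) (a : List ℕ), ∃ n : ℕ, ∀ (A : ℕ → List ℕ → Prop)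
      (m ξ : Ordinal.{0}), ξ < m → ∀ η < m,
      (Sat (II A) (Set.Iio m) (vv η ξ) (fm n) ↔
        ¬ Sat (II A) (Set.Iio m)
          (Function.update (fun k => hull A m ξ (a.getD k 0)) i η) φ) := by
    intro i φ a
    have h := Df_substfn (I := HI) (D := HD) φ
      (fun k s v => if k = i then v 0 else hull s.1 s.2 (v 1) (a.getD k 0)) ?_ ?_
    · obtain ⟨χ, hχ⟩ := h.not
      obtain ⟨n, _, hn⟩ := fm_surj χ
      refine ⟨n, fun A m ξ hξ η hη => ?_⟩
      rw [hn]
      have := hχ (A, m) (vv η ξ) (fun k => by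
        by_cases hk : k = 0
        · simpa [vv, hk] using hη
        · simpa [vv, hk] using hξ)
      refine this.trans (not_congr (Sat_congr fun k _ => ?_))
      by_cases hk : k = i
      · subst hk; simp [vv]
      · simp [vv, hk]
    · intro k
      by_cases hk : k = i
      · simp only [hk, if_true]
        exact (Df.eq (I := HI) (D := HD) 0 1)
      · simp only [hk, if_false]
        have := (Df_hull (a.getD k 0)).subst (fun j => if j = 0 then 0 else 2)
        exact this.congr fun s v _ => by simp
    · intro k s v hv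
      by_cases hk : k = i
      · simpa [hk] using hv 0
      · simp only [hk, if_false]
        exact hull_lt s.1 (lt_of_le_of_lt zero_le (hv 0)) _
  choose w hw using key
  exact ⟨w, fun i φ a => hw i φ a⟩

open HDf in
theorem exists_tra : ∃ J, IsTra J := by
  have key : ∀ (φ : Fm) (a : List ℕ), ∃ n : ℕ, 2 ≤ n ∧ ∀ (A : ℕ → List ℕ → Prop)
      (m ξ : Ordinal.{0}), ξ < m →
      (Sat (II A) (Set.Iio m) (vv 0 ξ) (fm n) ↔ STrue A m ξ φ a) := by
    intro φ a
    have h := Df_substfn (I := HI) (D := HD) φ
      (fun k s v => hull s.1 s.2 (v 1) (a.getD k 0)) ?_ ?_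
    · obtain ⟨χ, hχ⟩ := h
      obtain ⟨n, hn2, hn⟩ := fm_surj χ
      refine ⟨n, hn2, fun A m ξ hξ => ?_⟩
      rw [hn]
      have := hχ (A, m) (vv 0 ξ) (fun k => by
        by_cases hk : k = 0
        · simpa [vv, hk] using lt_of_le_of_lt zero_le hξ
        · simpa [vv, hk] using hξ)
      refine this.trans (Sat_congr fun k _ => ?_)
      simp [vv]
    · intro k
      have := (Df_hull (a.getD k 0)).subst (fun j => if j = 0 then 0 else 2)
      exact this.congr fun s v _ => by simp
    · intro k s v hv
      exact hull_lt s.1 (lt_of_le_of_lt zero_le (hv 0)) _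
  choose J hJ using key
  exact ⟨J, fun φ a => hJ φ a⟩

end Pool.Agent.CC
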