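import Mathlib
import Pool.Agent.Lib.MP_bf67b0_lc.Defs2
import Pool.Agent.Lib.MP_bf67b0_lc.Ground
import Pool.Agent.Lib.MP_bf67b0_lc.Aca
import Pool.Agent.Lib.MP_bf67b0_lc.GroundReals
import Pool.Agent.Lib.MP_bf67b0_lc.ExtReals
import Pool.Agent.Lib.MP_bf67b0_lc.NSep
import Pool.Agent.Lib.MP_bf67b0_lc.Codes
import Pool.Agent.Lib.MP_bf67b0_lc.SetTheory
import Pool.Agent.Lib.MP_bf67b0_lc.SetTheory2

/-!
Q7: the sets of reals without choice function.
-/

set_option autoImplicit false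

namespace Pool.Agent.CC

open Ordinal Set

namespace NC

/-! ### named-variable closure of definability -/

section
variable {S M : Type*} {I : S → Sy → List M → Prop} {D : S → Set M}

theorem Df.exn {P : S → (ℕ → M) → Prop} (h : Df I D P) (i : ℕ) :
    Df I D (fun s v => ∃ a ∈ D s, P s (Function.update v i a)) := by
  obtain ⟨φ, hφ⟩ := h
  refine ⟨.ex i φ, fun s v hv => ?_⟩
  rw [Sat_ex]
  refine exists_congr fun a => and_congr_right fun ha => hφ s _ fun k => ?_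
  by_cases hk : k = i
  · subst hk; simpa using ha
  · simpa [Function.update_of_ne hk] using hv k

theorem Df.alln {P : S → (ℕ → M) → Prop} (h : Df I D P) (i : ℕ) :
    Df I D (fun s v => ∀ a ∈ D s, P s (Function.update v i a)) := by
  obtain ⟨φ, hφ⟩ := h
  refine ⟨.all i φ, fun s v hv => ?_⟩
  rw [Sat_all]
  refine forall_congr' fun a => imp_congr_right fun ha => hφ s _ fun k => ?_
  by_cases hk : k = i
  · subst hk; simpa using ha
  · simpa [Function.update_of_ne hk] using hv k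
end

section
variable {A : ℕ → List ℕ → Prop} {κ : Ordinal.{0}}

theorem D0_of_DL {P : LS → (ℕ → Ordinal.{0}) → Prop} (h : DL A P) : D0 A κ (P (LI κ)) :=
  Df.pull h (fun _ : Unit => LI κ)

theorem D0_iff {P Q : (ℕ → Ordinal.{0}) → Prop} (h : D0 A κ P) (h' : D0 A κ Q) :
    D0 A κ (fun v => (P v ↔ Q v)) := Df.iff h h'
theorem D0_and {P Q : (ℕ → Ordinal.{0}) → Prop} (h : D0 A κ P) (h' : D0 A κ Q) :
    D0 A κ (fun v => P v ∧ Q v) := Df.and h h'
theorem D0_lt (i j : ℕ) : D0 A κ (fun v => v i < v j) := D0_of_DL (DL_lt i j)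
theorem D0_nat (n i : ℕ) : D0 A κ (fun v => v i = n) := D0_of_DL (DL_nat n i)
theorem D0_om (i : ℕ) : D0 A κ (fun v => v i < ω) := D0_of_DL (DL_om i)
theorem D0_E (i j : ℕ) : D0 A κ (fun v => EE A (v i) (v j)) := D0_of_DL (DL_E i j)
theorem D0_eq (i j : ℕ) : D0 A κ (fun v => v i = v j) := Df.eq i j
theorem D0_rel (R : Sy) (xs : List ℕ) : D0 A κ (fun v => II A R (xs.map v)) :=
  Df.rel (I := fun _ : Unit => II A) R xs
theorem D0_succ (i j : ℕ) : D0 A κ (fun v => v i = v j + 1) :=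
  (D0_of_DL ((Df_succ' A).subst (fun k => if k = 0 then i else j)))
theorem D0_cst (i j : ℕ) : D0 A κ (fun v => v i = cst (v j)) :=
  (D0_of_DL ((Df_cst A).subst (fun k => if k = 0 then i else j)))
theorem D0_nc (i : ℕ) : D0 A κ (fun v => ¬ ∃ a, v i = cst a) :=
  Df.congr (D0_of_DL (DL_nc i)) fun _ v hv => nc_iff (hv i)
theorem D0_exn {P : (ℕ → Ordinal.{0}) → Prop} (h : D0 A κ P) (i : ℕ) :
    D0 A κ (fun v => ∃ a < κ, P (Function.update v i a)) := Df.exn h i
theorem D0_alln {P : (ℕ → Ordinal.{0}) → Prop} (h : D0 A κ P) (i : ℕ) :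
    D0 A κ (fun v => ∀ a < κ, P (Function.update v i a)) := Df.alln h i

end

/-! ### values of names -/

section
variable (A : ℕ → List ℕ → Prop) (μ : Ordinal.{0})

theorem val_cst (a : Ordinal.{0}) (h : Set ℕ) : val A μ (cst a) h = a.toZFSet := by
  have hx : ∃ a', cst a = cst a' := ⟨a, rfl⟩
  rw [val, WellFoundedLT.fix_eq]
  rw [dif_pos hx]
  congr 1
  exact (cst_inj.1 (Classical.choose_spec hx)).symm

theorem mem_val {x : Ordinal.{0}} (hx : ¬ ∃ a, x = cst a) (h : Set ℕ) (y : ZFSet.{0}) :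
    y ∈ val A μ x h ↔ ∃ e < x, ∃ c < μ, ∃ d < μ, ∃ q : ℕ, inG (supp A x) (zR A c) ∧
      Ct A x e d q ∧ inC q (symmDiff h (zR A c)) ∧
      y = val A μ e (symmDiff (symmDiff h (zR A c)) (zR A d)) := by
  have h1 : val A μ x h = ZFSet.range (fun t : {t : Set.Iio x × Set.Iio μ × Set.Iio μ × ℕ //
        inG (supp A x) (zR A t.2.1.1) ∧ Ct A x t.1.1 t.2.2.1.1 t.2.2.2 ∧
          inC t.2.2.2 (symmDiff h (zR A t.2.1.1))} =>
      val A μ t.1.1.1 (symmDiff (symmDiff h (zR A t.1.2.1.1)) (zR A t.1.2.2.1.1))) := by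
    rw [val, WellFoundedLT.fix_eq]
    rw [dif_neg hx]
  rw [h1, ZFSet.mem_range]
  constructor
  · rintro ⟨⟨⟨⟨e, he⟩, ⟨c, hc⟩, ⟨d, hd⟩, q⟩, h2, h3, h4⟩, rfl⟩
    exact ⟨e, he, c, hc, d, hd, q, h2, h3, h4, rfl⟩
  · rintro ⟨e, he, c, hc, d, hd, q, h2, h3, h4, rfl⟩
    exact ⟨⟨⟨⟨e, he⟩, ⟨c, hc⟩, ⟨d, hd⟩, q⟩, h2, h3, h4⟩, rfl⟩

end

/-! ### the names of the columns -/

section
variable {A : ℕ → List ℕ → Prop} {κ μ : Ordinal.{0}}

theorem II_ar (j : ℕ) (l : List Ordinal.{0}) :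
    II A (.ar j) l ↔ ∃ l' : List ℕ, l = l'.map (fun n : ℕ => (n : Ordinal.{0})) ∧ A j l' :=
  Iff.rfl

theorem II_ar7 (hA : Arith A) (x y z : Ordinal.{0}) : II A (.ar 7) [x, y, z] ↔
    ∃ a b : ℕ, x = a ∧ y = b ∧ z = (Nat.pair a b : ℕ) := by
  rw [II_ar]
  constructor
  · rintro ⟨l', h1, h2⟩
    obtain ⟨a, b, rfl⟩ := (hA.a7 _).1 h2
    simp only [List.map_cons, List.map_nil, List.cons.injEq, and_true] at h1
    exact ⟨a, b, h1.1, h1.2.1, h1.2.2⟩
  · rintro ⟨a, b, rfl, rfl, rfl⟩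
    exact ⟨[a, b, Nat.pair a b], by simp, (hA.a7 _).2 ⟨a, b, rfl⟩⟩

theorem II_ar0 (hA : Arith A) (x y : Ordinal.{0}) : II A (.ar 0) [x, y] ↔
    ∃ p i : ℕ, x = p ∧ y = i ∧ bit p i = some true := by
  rw [II_ar]
  constructor
  · rintro ⟨l', h1, h2⟩
    obtain ⟨a, b, rfl, h3⟩ := (hA.a0 _).1 h2
    simp only [List.map_cons, List.map_nil, List.cons.injEq, and_true] at h1
    exact ⟨a, b, h1.1, h1.2, h3⟩
  · rintro ⟨a, b, rfl, rfl, h3⟩
    exact ⟨[a, b], by simp, (hA.a0 _).2 ⟨a, b, rfl, h3⟩⟩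

theorem II_ar5 (hA : Arith A) (x y : Ordinal.{0}) : II A (.ar 5) [x, y] ↔
    ∃ q : ℕ, x = q ∧ y = (2 * q : ℕ) := by
  rw [II_ar]
  constructor
  · rintro ⟨l', h1, h2⟩
    obtain ⟨a, rfl⟩ := (hA.a5 _).1 h2
    simp only [List.map_cons, List.map_nil, List.cons.injEq, and_true] at h1
    exact ⟨a, h1.1, h1.2⟩
  · rintro ⟨a, rfl, rfl⟩
    exact ⟨[a, 2 * a], by simp, (hA.a5 _).2 ⟨a, rfl⟩⟩

theorem II_code (l s i x : Ordinal.{0}) : II A .code [l, s, i, x] ↔
    s < l ∧ ∃ n : ℕ, i = n ∧ x = code l s n := Iff.rfl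

/-- the elements of the name of column `j` -/
def El (j t : Ordinal.{0}) : Prop :=
  t = j + 1 ∨ ∃ n q : ℕ, j = (n.unpair.1 : ℕ) ∧ bit q n = some true ∧
    t = code (cst n + 1) 0 (2 * q)

theorem nat_lt' (h : Grd A κ μ) (n : ℕ) : (n : Ordinal.{0}) < κ :=
  (natCast_lt_omega0 n).trans_le (h.om_le.trans h.mu_lt.le)

theorem cst_lt' (h : Grd A κ μ) (n : ℕ) : cst n < κ := by
  refine h.code_lt _ (h.succ_lt _ (nat_lt' h n)) _ ?_ _
  exact lt_of_le_of_lt zero_le (lt_add_one _)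

theorem D0_El (hA : Arith A) (h : Grd A κ μ) (i j : ℕ) (hi : i < 10) (hj : j < 10) :
    D0 A κ (fun v => El (v i) (v j)) := by
  have hP := (((D0_rel (A := A) (κ := κ) (.ar 7) [i, 11, 10]).and (D0_rel (.ar 0) [12, 10])).and
    ((D0_rel (.ar 5) [12, 13]).and (D0_cst 14 10))).and
    (((D0_succ 15 14).and (D0_nat 0 16)).and (D0_rel .code [15, 16, 13, j]))
  have hP2 := D0_exn (D0_exn (D0_exn (D0_exn (D0_exn (D0_exn (D0_exn hP 16) 15) 14) 13) 12) 11) 10
  have h1 : D0 A κ (fun v => v j = v i + 1) := D0_succ j i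
  refine Df.congr (Df.or h1 hP2) fun _ v hv => ?_
  unfold El
  refine or_congr Iff.rfl ?_
  have e0 : ∀ {k m : ℕ} (w : ℕ → Ordinal.{0}) (a : Ordinal.{0}), k ≠ m →
      Function.update w m a k = w k := fun w a h => Function.update_of_ne h _ _
  have hi' : ∀ m, 10 ≤ m → i ≠ m := by intro m hm; omega
  have hj' : ∀ m, 10 ≤ m → j ≠ m := by intro m hm; omega
  simp only [List.map_cons, List.map_nil, II_ar7 hA, II_ar0 hA, II_ar5 hA, II_code]
  simp only [e0 _ _ (hi' _ (by norm_num : 10 ≤ 10)), e0 _ _ (hi' _ (by norm_num : 10 ≤ 11)),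
    e0 _ _ (hi' _ (by norm_num : 10 ≤ 12)), e0 _ _ (hi' _ (by norm_num : 10 ≤ 13)),
    e0 _ _ (hi' _ (by norm_num : 10 ≤ 14)), e0 _ _ (hi' _ (by norm_num : 10 ≤ 15)),
    e0 _ _ (hi' _ (by norm_num : 10 ≤ 16)), e0 _ _ (hj' _ (by norm_num : 10 ≤ 10)),
    e0 _ _ (hj' _ (by norm_num : 10 ≤ 11)),
    e0 _ _ (hj' _ (by norm_num : 10 ≤ 12)), e0 _ _ (hj' _ (by norm_num : 10 ≤ 13)),
    e0 _ _ (hj' _ (by norm_num : 10 ≤ 14)), e0 _ _ (hj' _ (by norm_num : 10 ≤ 15)),
    e0 _ _ (hj' _ (by norm_num : 10 ≤ 16)), ne_eq, Nat.reduceEqDiff,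
    not_false_eq_true, Function.update_of_ne, Function.update_self]
  constructor
  · rintro ⟨n', -, b', -, q', -, i', -, c', -, l', -, o', -,
      ⟨⟨⟨a, b, h1, rfl, h3⟩, ⟨q, n, rfl, h5, h6⟩⟩, ⟨q2, h7, rfl⟩, rfl⟩, ⟨rfl, rfl⟩, -, m, h8, h9⟩
    have e1 : n = Nat.pair a b := by
      rw [h5] at h3; exact_mod_cast h3
    have e2 : q = q2 := by exact_mod_cast h7
    have e3 : 2 * q2 = m := by exact_mod_cast h8
    subst e1 e2 e3
    refine ⟨Nat.pair a b, q, ?_, h6, ?_⟩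
    · rw [h1]; simp
    · rw [h9, h3]; norm_num
  · rintro ⟨n, q, h1, h2, h3⟩
    refine ⟨n, nat_lt' h n, n.unpair.2, nat_lt' h _, q, nat_lt' h q, (2 * q : ℕ), nat_lt' h _,
      cst n, cst_lt' h n, cst n + 1, h.succ_lt _ (cst_lt' h n), 0, ?_, ?_⟩
    · have := nat_lt' h 0
      simpa using this
    · refine ⟨⟨⟨⟨n.unpair.1, n.unpair.2, h1, rfl, by simp⟩, ⟨q, n, rfl, rfl, h2⟩⟩,
        ⟨q, rfl, rfl⟩, rfl⟩, ⟨rfl, by simp⟩, ?_, 2 * q, rfl, h3⟩
      exact lt_of_le_of_lt zero_le (lt_add_one _)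

theorem El_lt {j : ℕ} {t : Ordinal.{0}} (h : El j t) : t < code (code ω 0 0) 0 0 := by
  have hω : (0 : Ordinal.{0}) < ω := omega0_pos
  have h2ω : (2 : Ordinal.{0}) ≤ ω := by
    have := (natCast_lt_omega0 2).le
    exact_mod_cast this
  have hc1 : ω ≤ code ω 0 0 := om_le_code h2ω hω 0
  rcases h with rfl | ⟨n, q, -, -, rfl⟩
  · have h1 : (j : Ordinal.{0}) + 1 < ω := by
      have := natCast_lt_omega0 (j + 1)
      exact_mod_cast this
    exact h1.trans_le (om_le_code (h2ω.trans hc1) (hω.trans_le hc1) 0)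
  · have h0 : (0 : Ordinal.{0}) < cst n + 1 := lt_of_le_of_lt zero_le (lt_add_one _)
    rw [code_lt_iff h0 (hω.trans_le hc1)]
    left
    have h1 : (0 : Ordinal.{0}) < (n : Ordinal.{0}) + 1 := lt_of_le_of_lt zero_le (lt_add_one _)
    have h2 : cst n < code (n + 1) 0 2 := by
      unfold cst
      rw [code_lt_iff h1 h1]
      right
      exact ⟨rfl, Or.inr ⟨rfl, by norm_num⟩⟩
    have h3 : code ((n : Ordinal.{0}) + 1) 0 2 < code ω 0 0 := by
      rw [code_lt_iff h1 hω]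
      left
      have := natCast_lt_omega0 (n + 1)
      exact_mod_cast this
    exact (Order.add_one_le_of_lt h2).trans_lt h3

theorem om_lt_kappa (h : Grd A κ μ) : ω < κ := h.om_le.trans_lt h.mu_lt

theorem exists_col (hA : Arith A) (h : Grd A κ μ) (j : ℕ) :
    ∃ x < κ, (¬ ∃ a, x = cst a) ∧ ∀ e, EE A e x ↔ El j e := by
  have hω : (0 : Ordinal.{0}) < ω := omega0_pos
  have h2ω : (2 : Ordinal.{0}) ≤ ω := by
    have := (natCast_lt_omega0 2).le
    exact_mod_cast this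
  have hc1 : ω ≤ code ω 0 0 := om_le_code h2ω hω 0
  have hl : code (code ω 0 0) 0 0 < κ :=
    h.code_lt _ (h.code_lt _ (om_lt_kappa h) _ hω _) _ (hω.trans_le hc1) _
  obtain ⟨x, hx, hx1, hx2⟩ := h.comp _ (D0_El hA h 1 0 (by norm_num) (by norm_num))
    (fun _ => (j : Ordinal.{0})) (fun _ => nat_lt' h j) _ hl
  refine ⟨x, hx, hx1, fun e => ?_⟩
  rw [hx2 e]
  simp only [Function.update_self, ne_eq, one_ne_zero, not_false_eq_true, Function.update_of_ne]
  exact ⟨fun h => h.2, fun h => ⟨El_lt h, h⟩⟩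

theorem zR_zero : zR A 0 = ∅ := by
  ext n
  simp only [zR, mem_ofPred_eq, mem_empty_iff_false, iff_false]
  intro h
  exact absurd (EE_lt h) (not_lt.2 zero_le)

theorem inC_zero (h : Set ℕ) : inC 0 h := by
  intro i
  have : bit 0 i = none := by simp [bit, cond]
  simp [this]

theorem bit_encode (s : List Bool) (i : ℕ) : bit (Encodable.encode s) i = s[i]? := by
  simp [bit, cond]

open Classical in
/-- the initial segment of a real -/
noncomputable def ini (h : Set ℕ) (n : ℕ) : List Bool := (List.range n).map (fun i => decide (i ∈ h))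

theorem ini_get (h : Set ℕ) (n i : ℕ) (b : Bool) :
    (ini h n)[i]? = some b ↔ i < n ∧ (b = true ↔ i ∈ h) := by
  classical
  unfold ini
  rw [List.getElem?_map]
  by_cases hi : i < n
  · rw [List.getElem?_range hi]
    simp only [hi, Option.map_some, Option.some.injEq, true_and]
    cases b <;> simp
  · rw [List.getElem?_eq_none (by simpa using hi)]
    simp [hi]

theorem ini_length (h : Set ℕ) (n : ℕ) : (ini h n).length = n := by simp [ini]

theorem Pre_ini (h : Set ℕ) (n : ℕ) : Pre (ini h n) h := fun i b hb => ((ini_get h n i b).1 hb).2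

theorem inC_ini (h : Set ℕ) (n : ℕ) : inC (Encodable.encode (ini h n)) h := by
  intro i
  rw [bit_encode, ini_get, ini_get]
  exact ⟨fun h => h.2.1 rfl, fun h => by simpa using h.2⟩

theorem nz_eq' (n : ℕ) : toZFSet (n : Ordinal.{0}) = nz n := (nz_eq n).symm

/-- the value of the name of a column -/
theorem val_col (hA : Arith A) (hg : Grd A κ μ) {x : Ordinal.{0}} (hx : ¬ ∃ a, x = cst a) {j : ℕ}
    (hE : ∀ e, EE A e x ↔ El j e) (h : Set ℕ) :
    val A μ x h = sz {i | i ∈ h ∧ i.unpair.1 = j} := by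
  have h2 : ∀ c : Ordinal.{0}, (2 : Ordinal.{0}) ≤ cst c + 1 := by
    intro c
    have h0 : (0 : Ordinal.{0}) < cst c := lt_of_le_of_lt zero_le (lt_cst c)
    have h1 : (1 : Ordinal.{0}) ≤ cst c := Order.one_le_iff_pos.2 h0
    have : (1 : Ordinal.{0}) + 1 ≤ cst c + 1 := by gcongr
    rwa [one_add_one_eq_two] at this
  have hωc : ∀ (c : Ordinal.{0}) (q : ℕ), ω ≤ code (cst c + 1) 0 q := fun c q =>
    om_le_code (h2 c) (lt_of_le_of_lt zero_le (lt_add_one _)) q
  have hnat : ∀ n : ℕ, El j (n : Ordinal.{0}) ↔ n = j + 1 := by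
    intro n
    constructor
    · rintro (h | ⟨n', q, -, -, h⟩)
      · exact_mod_cast h
      · exact absurd (hωc n' (2 * q)) (not_le.2 (h ▸ natCast_lt_omega0 n))
    · rintro rfl
      left
      push_cast
      rfl
  have hsupp : supp A x = j + 1 := by
    have : zR A x = {j + 1} := by
      ext n
      simp only [zR, mem_ofPred_eq, mem_singleton_iff]
      rw [hE, hnat]
    rw [supp, this, csInf_singleton]
  have hμ : (0 : Ordinal.{0}) < μ := omega0_pos.trans_le hg.om_le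
  have hTr : ∀ n q : ℕ, Tr (cst n) 0 q (code (cst n + 1) 0 (2 * q)) := fun n q =>
    ⟨hωc _ _, Or.inl ⟨lt_of_le_of_lt zero_le (lt_add_one _), rfl⟩⟩
  ext y
  rw [NC.mem_val A μ hx, sz, ZFSet.mem_range, hsupp]
  constructor
  · rintro ⟨e, -, c, -, d, -, q, hc, ⟨-, t, ht, htr⟩, hq, rfl⟩
    rw [hE] at ht
    rcases ht with rfl | ⟨n, q2, hn, hb, rfl⟩
    · exfalso
      have h3 : ((j : Ordinal.{0}) + 1) < ω := by
        have := natCast_lt_omega0 (j + 1)
        exact_mod_cast this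
      exact absurd htr.1 (not_le.2 h3)
    · obtain ⟨rfl, rfl, rfl⟩ := Tr_inj htr (hTr n q2)
      have hn' : j = n.unpair.1 := by exact_mod_cast hn
      have h4 := (hq n).1 hb
      have h5 : n ∉ zR A c := hc n (by omega)
      refine ⟨⟨n, ?_, hn'.symm⟩, ?_⟩
      · rcases h4 with h4 | h4
        · exact h4.1
        · exact absurd h4.1 h5
      · rw [val_cst, nz_eq']
  · rintro ⟨⟨n, hn, hj⟩, rfl⟩
    refine ⟨cst n, ?_, 0, hμ, 0, hμ, Encodable.encode (ini h (n + 1)), ?_, ?_, ?_, ?_⟩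
    · have h6 : EE A (code (cst n + 1) 0 (2 * 0)) x → cst n < x := fun h7 =>
        (Tr_lt (hTr n 0)).1.trans (EE_lt h7)
      have h7 : EE A (code (cst n + 1) 0 (2 * Encodable.encode (ini h (n + 1)))) x := by
        rw [hE]
        refine Or.inr ⟨n, _, ?_, ?_, rfl⟩
        · exact_mod_cast hj.symm
        · rw [bit_encode, ini_get]
          exact ⟨Nat.lt_succ_self _, by simpa using hn⟩
      exact (Tr_lt (hTr n _)).1.trans (EE_lt h7)
    · rw [zR_zero]; intro i _; simp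
    · refine ⟨hx, _, ?_, hTr n _⟩
      rw [hE]
      refine Or.inr ⟨n, _, ?_, ?_, rfl⟩
      · exact_mod_cast hj.symm
      · rw [bit_encode, ini_get]
        exact ⟨Nat.lt_succ_self _, by simpa using hn⟩
    · rw [zR_zero]
      have : symmDiff h (∅ : Set ℕ) = h := by simp
      rw [this]
      exact inC_ini h _
    · rw [val_cst, nz_eq']

theorem D0_El_9 (hA : Arith A) (h : Grd A κ μ) (j : ℕ) (hj : j < 9) :
    D0 A κ (fun v => El (v j) (v 9)) := D0_El hA h j 9 (by omega) (by norm_num)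

/-- being a name of a column -/
def IsE (A : ℕ → List ℕ → Prop) (κ x j : Ordinal.{0}) : Prop :=
  (¬ ∃ a, x = cst a) ∧ ∀ e < κ, (EE A e x ↔ El j e)

theorem D0_IsE (hA : Arith A) (h : Grd A κ μ) (i j : ℕ) (hi : i < 9) (hj : j < 9) :
    D0 A κ (fun v => IsE A κ (v i) (v j)) := by
  have h0 : D0 A κ (fun v => El (v j) (v 9)) := D0_El_9 hA h j hj
  refine Df.congr (D0_and (D0_nc i) (D0_alln (D0_iff (D0_E 9 i) h0) 9)) fun _ v hv => ?_
  have h1 : ∀ a, Function.update v 9 a i = v i := fun a =>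
    Function.update_of_ne (by omega) _ _
  have h2 : ∀ a, Function.update v 9 a j = v j := fun a =>
    Function.update_of_ne (by omega) _ _
  simp only [h1, h2, Function.update_self]
  rfl

end

end NC

section
variable {𝓕 : ℕ → Set ℕ} {A : ℕ → List ℕ → Prop} {κ μ : Ordinal.{0}} (hC : Ctx 𝓕 A κ μ)
include hC

open NC

theorem exists_B0 : ∃ b < κ, ∀ k y, y ∈ val A μ b k ↔ ∃ j, ∃ w ∈ R0 A κ,
    y = sz {i | i ∈ symmDiff k w ∧ i.unpair.1 = j} := by
  have hA : Arith A := hC.ar.toArith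
  have h := hC.grd
  have hμ : (0 : Ordinal.{0}) < μ := omega0_pos.trans_le h.om_le
  have h0κ : (0 : Ordinal.{0}) < κ := hμ.trans h.mu_lt
  -- all the names of columns below `M`
  obtain ⟨M, hM, hM'⟩ := h.coll _ (D0_IsE hA h 1 0 (by norm_num) (by norm_num)) (fun _ => 0)
    (fun _ => h0κ) ω (om_lt_kappa h) (by
      intro e he
      obtain ⟨j, rfl⟩ := lt_omega0.1 he
      obtain ⟨x, hx, hx1, hx2⟩ := exists_col hA h j
      refine ⟨x, hx, ?_⟩
      simp only [Function.update_self, ne_eq, zero_ne_one, not_false_eq_true,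
        Function.update_of_ne]
      exact ⟨hx1, fun e _ => hx2 e⟩)
  simp only [Function.update_self, ne_eq, zero_ne_one, not_false_eq_true,
    Function.update_of_ne] at hM'
  have hM0 : 0 < M := by
    obtain ⟨x, hx, -⟩ := hM' 0 omega0_pos
    exact lt_of_le_of_lt zero_le hx
  -- the name
  have hP := (((D0_lt (A := A) (κ := κ) 5 1).and (D0_om 6)).and ((D0_IsE hA h 5 6 (by norm_num)
    (by norm_num)).and (D0_succ 7 5))).and ((D0_nat 0 8).and (D0_rel .code [7, 8, 8, 0]))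
  have hP2 := (D0_nat (A := A) (κ := κ) 0 0).or (D0_exn (D0_exn (D0_exn (D0_exn hP 8) 7) 6) 5)
  have hM1 : M + 1 < κ := h.succ_lt _ hM
  have h2M : (2 : Ordinal.{0}) ≤ M + 1 := by
    have h1 : (1 : Ordinal.{0}) ≤ M := Order.one_le_iff_pos.2 hM0
    have : (1 : Ordinal.{0}) + 1 ≤ M + 1 := by gcongr
    rwa [one_add_one_eq_two] at this
  obtain ⟨b, hb, hb1, hb2⟩ := h.comp _ hP2 (fun _ => M) (fun _ => hM) (code (M + 1) 0 0)
    (h.code_lt _ hM1 _ (lt_of_le_of_lt zero_le (lt_add_one _)) _)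
  have hb3 : ∀ t, EE A t b ↔ t = 0 ∨ ∃ e < M, ∃ j : ℕ, IsE A κ e j ∧ t = code (e + 1) 0 0 := by
    intro t
    rw [hb2 t]
    simp only [List.map_cons, List.map_nil, II_code, Function.update_self, ne_eq,
      Nat.reduceEqDiff, not_false_eq_true, Function.update_of_ne, OfNat.ofNat_ne_zero,
      OfNat.ofNat_ne_one, OfNat.zero_ne_ofNat, OfNat.one_ne_ofNat, one_ne_zero]
    constructor
    · rintro ⟨-, h1 | ⟨e, he, j, hj, l, hl, o, ho, ⟨⟨h1, h2⟩, h3, rfl⟩, rfl, h4, n, h5, h6⟩⟩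
      · left; simpa using h1
      · right
        obtain ⟨j, rfl⟩ := lt_omega0.1 h2
        have h7 : n = 0 := by
          have : (n : Ordinal.{0}) = ((0 : ℕ) : Ordinal.{0}) := h5.symm
          exact_mod_cast this
        subst h7
        exact ⟨e, h1, j, h3, by simpa using h6⟩
    · rintro (rfl | ⟨e, he, j, h3, rfl⟩)
      · refine ⟨?_, Or.inl (by simp)⟩
        exact omega0_pos.trans_le (om_le_code h2M (lt_of_le_of_lt zero_le (lt_add_one _)) _)
      · refine ⟨?_, Or.inr ⟨e, he.trans hM, j, nat_lt' h j, e + 1, h.succ_lt _ (he.trans hM), 0,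
          h0κ, ⟨⟨he, natCast_lt_omega0 j⟩, h3, rfl⟩, by simp, ?_, 0, by simp, rfl⟩⟩
        · rw [code_lt_iff (lt_of_le_of_lt zero_le (lt_add_one _))
            (lt_of_le_of_lt zero_le (lt_add_one _))]
          left
          exact add_one_lt_iff'.2 he
        · exact lt_of_le_of_lt zero_le (lt_add_one _)
  have hsupp : supp A b = 0 := by
    have : (0 : ℕ) ∈ zR A b := (hb3 _).2 (Or.inl (by simp))
    exact Nat.eq_zero_of_le_zero (Nat.sInf_le this)
  have hIsE : ∀ {e : Ordinal.{0}} {j : ℕ}, e < κ → IsE A κ e j → ∀ t, EE A t e ↔ El j t := by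
    intro e j he hE t
    by_cases ht : t < κ
    · exact hE.2 t ht
    · constructor
      · intro h1
        exact absurd ((EE_lt h1).trans he) ht
      · intro h1
        have hω : (0 : Ordinal.{0}) < ω := omega0_pos
        have h2ω : (2 : Ordinal.{0}) ≤ ω := by
          have := (natCast_lt_omega0 2).le
          exact_mod_cast this
        have hc1 : ω ≤ code ω 0 0 := om_le_code h2ω hω 0
        have hl : code (code ω 0 0) 0 0 < κ :=
          h.code_lt _ (h.code_lt _ (om_lt_kappa h) _ hω _) _ (hω.trans_le hc1) _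
        exact absurd ((El_lt h1).trans hl) ht
  have hTr : ∀ {e : Ordinal.{0}} {j : ℕ}, e < κ → IsE A κ e j → Tr e 0 0 (code (e + 1) 0 0) := by
    intro e j he hE
    refine ⟨?_, Or.inl ⟨lt_of_le_of_lt zero_le (lt_add_one _), rfl⟩⟩
    have h1 : EE A (j + 1) e := (hIsE he hE _).2 (Or.inl rfl)
    have h2 : (0 : Ordinal.{0}) < e := lt_of_le_of_lt zero_le (EE_lt h1)
    have h3 : (1 : Ordinal.{0}) ≤ e := Order.one_le_iff_pos.2 h2
    have h4 : (1 : Ordinal.{0}) + 1 ≤ e + 1 := by gcongr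
    rw [one_add_one_eq_two] at h4
    exact om_le_code h4 (lt_of_le_of_lt zero_le (lt_add_one _)) _
  refine ⟨b, hb, fun k y => ?_⟩
  rw [NC.mem_val A μ hb1, hsupp]
  constructor
  · rintro ⟨e, -, c, hc, d, -, q, -, ⟨-, t, ht, htr⟩, -, rfl⟩
    rw [hb3] at ht
    rcases ht with rfl | ⟨e', he', j, hE, rfl⟩
    · exact absurd htr.1 (not_le.2 omega0_pos)
    · obtain ⟨rfl, rfl, rfl⟩ := Tr_inj htr (hTr (he'.trans hM) hE)
      refine ⟨j, zR A c, ⟨c, hc.trans h.mu_lt, rfl⟩, ?_⟩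
      rw [val_col hA h hE.1 (hIsE (he'.trans hM) hE), zR_zero]
      have : symmDiff (symmDiff k (zR A c)) (∅ : Set ℕ) = symmDiff k (zR A c) := by simp
      rw [this]
  · rintro ⟨j, w, hw, rfl⟩
    obtain ⟨c, hc, rfl⟩ := R0_mu hC hw
    obtain ⟨e, he, hE⟩ := hM' j (natCast_lt_omega0 j)
    have htE : EE A (code (e + 1) 0 0) b := (hb3 _).2 (Or.inr ⟨e, he, j, hE, rfl⟩)
    refine ⟨e, (Tr_lt (hTr (he.trans hM) hE)).1.trans (EE_lt htE), c, hc, 0, hμ, 0, ?_,
      ⟨hb1, _, htE, hTr (he.trans hM) hE⟩, inC_zero _, ?_⟩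
    · intro i hi
      omega
    · rw [val_col hA h hE.1 (hIsE (he.trans hM) hE), zR_zero]
      have : symmDiff (symmDiff k (zR A c)) (∅ : Set ℕ) = symmDiff k (zR A c) := by simp
      rw [this]


/-! ### genericity -/

omit hC in
theorem NC.exists_ext (s : List Bool) (i : ℕ) (hi : s.length ≤ i) (b : Bool) :
    ∃ t, s <+: t ∧ t[i]? = some b := by
  refine ⟨s ++ (List.replicate (i - s.length) false ++ [b]), List.prefix_append _ _, ?_⟩
  rw [List.getElem?_append_right hi, List.getElem?_append_right (by simp)]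
  simp

omit hC in
theorem NC.AD_get {𝓡 : Set (Set ℕ)} (h𝓡 : ACA 𝓡) (b : Bool) :
    AD 𝓡 (fun x : List Bool × ℕ => x.1[x.2]? = some b) := by
  refine AD.of_prim h𝓡 ?_
  exact Primrec.eq.comp (Primrec.list_getElem?.comp Primrec.fst Primrec.snd)
    (Primrec.const (some b))

omit hC in
theorem NC.AD_prefix {𝓡 : Set (Set ℕ)} (h𝓡 : ACA 𝓡) :
    AD 𝓡 (fun x : List Bool × List Bool => x.1 <+: x.2) := by
  have h1 : AD 𝓡 (fun x : (List Bool × List Bool) × List Bool => x.1.1 ++ x.2 = x.1.2) := by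
    refine AD.of_prim h𝓡 ?_
    exact Primrec.eq.comp (Primrec.list_append.comp (Primrec.fst.comp Primrec.fst) Primrec.snd)
      (Primrec.snd.comp Primrec.fst)
  exact AD.ex h𝓡 (P := fun (x : List Bool × List Bool) (u : List Bool) => x.1 ++ u = x.2) h1

/-- every column of `g + w` is non-empty -/
theorem NC.gen_col {g : Set ℕ} (hg : Gen A κ g) {w : Set ℕ} (hw : w ∈ R0 A κ) (j : ℕ) :
    ∃ i, i.unpair.1 = j ∧ i ∈ symmDiff g w := by
  have hR := R0_ACA hC
  have hwA : AD (R0 A κ) (fun n : ℕ => n ∈ w) := AD_nat.2 hw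
  have hpair : Primrec (fun x : List Bool × ℕ => Nat.pair j x.2) :=
    Primrec₂.natPair.comp (Primrec.const j) Primrec.snd
  have hw2 : AD (R0 A κ) (fun x : List Bool × ℕ => Nat.pair j x.2 ∈ w) := hwA.comp hR hpair
  have hb : ∀ b : Bool, AD (R0 A κ) (fun x : List Bool × ℕ => x.1[Nat.pair j x.2]? = some b) :=
    fun b => (NC.AD_get hR b).comp hR (Primrec.fst.pair hpair)
  have hP : AD (R0 A κ) (fun t : List Bool => ∃ n : ℕ,
      (t[Nat.pair j n]? = some true ∧ Nat.pair j n ∉ w) ∨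
        (t[Nat.pair j n]? = some false ∧ Nat.pair j n ∈ w)) :=
    AD.ex hR (P := fun (t : List Bool) (n : ℕ) =>
      (t[Nat.pair j n]? = some true ∧ Nat.pair j n ∉ w) ∨
        (t[Nat.pair j n]? = some false ∧ Nat.pair j n ∈ w))
      (AD.or hR (AD.and hR (hb true) (AD.not hR hw2)) (AD.and hR (hb false) hw2))
  obtain ⟨t, ⟨n, ht⟩, htg⟩ := Gen.meets hC hg hP (fun s => by
    have hl : s.length ≤ Nat.pair j s.length := Nat.right_le_pair _ _
    by_cases hi : Nat.pair j s.length ∈ w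
    · obtain ⟨t, h1, h2⟩ := NC.exists_ext s _ hl false
      exact ⟨t, h1, s.length, Or.inr ⟨h2, hi⟩⟩
    · obtain ⟨t, h1, h2⟩ := NC.exists_ext s _ hl true
      exact ⟨t, h1, s.length, Or.inl ⟨h2, hi⟩⟩)
  refine ⟨Nat.pair j n, by simp, ?_⟩
  rcases ht with ⟨h1, h2⟩ | ⟨h1, h2⟩
  · exact Or.inl ⟨(htg _ _ h1).1 rfl, h2⟩
  · exact Or.inr ⟨h2, fun h3 => by simpa using (htg _ _ h1).2 h3⟩

/-! ### the sets of reals -/

theorem AA_sub {g : Set ℕ} (hg : Gen A κ g) (k : ℕ) : AA A κ g k ⊆ Rl (NN A κ μ g) := by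
  rintro x ⟨h01, w, hw, hx⟩
  have hR := RR_ACA hC hg
  change rz x ∈ NN A κ μ g
  rw [rz_mem_iff hC hg]
  have hcut : AD (RR A κ μ g) (fun n : ℕ => n ∈ cut (k + 1) g) :=
    AD_nat.2 ((mem_RR_iff hC hg _).2 ⟨_, cut_mem hC hg (k + 1)⟩)
  have hwA : AD (RR A κ μ g) (fun n : ℕ => n ∈ w) :=
    AD_nat.2 ((mem_RR_iff hC hg _).2 ⟨_, R0_sub_Rm hC hg 0 hw⟩)
  have hpair : Primrec (fun c : ℕ => Nat.pair k c.unpair.1) :=
    Primrec₂.natPair.comp (Primrec.const k) (Primrec.fst.comp Primrec.unpair)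
  have h1 : AD (RR A κ μ g) (fun c : ℕ => Nat.pair k c.unpair.1 ∈ cut (k + 1) g) :=
    hcut.comp hR hpair
  have h2 : AD (RR A κ μ g) (fun c : ℕ => Nat.pair k c.unpair.1 ∈ w) := hwA.comp hR hpair
  have h3 : ∀ a : ℕ, AD (RR A κ μ g) (fun c : ℕ => c.unpair.2 = a) := fun a =>
    AD.of_prim hR (Primrec.eq.comp (Primrec.snd.comp Primrec.unpair) (Primrec.const a))
  have h4 := AD.or hR (AD.and hR (AD.or hR (AD.and hR h1 (AD.not hR h2))
    (AD.and hR h2 (AD.not hR h1))) (h3 1)) (AD.and hR (AD.not hR (AD.or hR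
    (AD.and hR h1 (AD.not hR h2)) (AD.and hR h2 (AD.not hR h1)))) (h3 0))
  have h5 := AD_nat.1 h4
  convert h5 using 1
  ext c
  have hkey : (Nat.pair k c.unpair.1 ∈ cut (k + 1) g ∧ Nat.pair k c.unpair.1 ∉ w ∨
      Nat.pair k c.unpair.1 ∈ w ∧ Nat.pair k c.unpair.1 ∉ cut (k + 1) g) ↔
      x c.unpair.1 = 1 := by
    rw [hx]
    have : Nat.pair k c.unpair.1 ∈ cut (k + 1) g ↔ Nat.pair k c.unpair.1 ∈ g := by
      simp [cut]
    rw [this]
    exact Iff.rfl
  simp only [mem_ofPred_eq, hkey]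
  have hc := h01 c.unpair.1
  constructor
  · rintro ⟨n, rfl⟩
    simp only [Nat.unpair_pair] at hc ⊢
    omega
  · intro h
    refine ⟨c.unpair.1, ?_⟩
    have h6 : x c.unpair.1 = c.unpair.2 := by omega
    rw [h6, Nat.pair_unpair]


/-! ### no choice function -/

omit hC in
theorem NC.AD_len {𝓡 : Set (Set ℕ)} (h𝓡 : ACA 𝓡) {X : Set ℕ} (hX : X ∈ 𝓡) :
    AD 𝓡 (fun x : ℕ × List Bool => Nat.pair x.1 (Encodable.encode x.2) ∈ X) := by
  have hXA : AD 𝓡 (fun n : ℕ => n ∈ X) := AD_nat.2 hX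
  exact hXA.comp h𝓡 (Primrec₂.natPair.comp Primrec.fst (Primrec.encode.comp Primrec.snd))

omit hC in
theorem NC.prefix_ini {s : List Bool} {g : Set ℕ} (hs : Pre s g) {L : ℕ} (hL : s.length ≤ L) :
    s <+: NC.ini g L := by
  rw [List.prefix_iff_getElem?]
  intro i hi
  rw [NC.ini_get]
  exact ⟨hi.trans_le hL, hs i _ (List.getElem?_eq_getElem hi)⟩

omit hC in
theorem NC.inC_of_Pre {s : List Bool} {g : Set ℕ} (h : Pre s g) : inC (Encodable.encode s) g := by
  intro i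
  rw [NC.bit_encode]
  exact ⟨fun hb => (h i true hb).1 rfl, fun hb h' => by simpa using (h i false hb).2 h'⟩

omit hC in
theorem NC.Pre_cond {s : ℕ} {g : Set ℕ} (hs : inC s g) : Pre (cond s) g := by
  intro i b hb
  cases b
  · have h1 := (hs i).2 hb
    simpa using h1
  · have h1 := (hs i).1 hb
    simpa using h1

/-- the column `m` of `g + w` is not the value of a code with support `m` -/
theorem NC.not_Ev {g : Set ℕ} (hg : Gen A κ g) {w : Set ℕ} (hw : w ∈ R0 A κ) {m : ℕ} {X : Set ℕ}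
    (hX : X ∈ R0 A κ) (hI : Inv m X) (hS : ∀ n, n ∈ Ev X g ↔ Nat.pair m n ∈ symmDiff g w) :
    False := by
  have hR := R0_ACA hC
  have hwA : AD (R0 A κ) (fun n : ℕ => n ∈ w) := AD_nat.2 hw
  have hpair : Primrec (fun x : List Bool × ℕ => Nat.pair m x.2) :=
    Primrec₂.natPair.comp (Primrec.const m) Primrec.snd
  have hw2 : AD (R0 A κ) (fun x : List Bool × ℕ => Nat.pair m x.2 ∈ w) := hwA.comp hR hpair
  have hb : ∀ b : Bool, AD (R0 A κ) (fun x : List Bool × ℕ => x.1[Nat.pair m x.2]? = some b) :=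
    fun b => (NC.AD_get hR b).comp hR (Primrec.fst.pair hpair)
  have hin : AD (R0 A κ) (fun x : List Bool × ℕ =>
      (x.1[Nat.pair m x.2]? = some true ∧ Nat.pair m x.2 ∉ w) ∨
        (x.1[Nat.pair m x.2]? = some false ∧ Nat.pair m x.2 ∈ w)) :=
    AD.or hR (AD.and hR (hb true) (AD.not hR hw2)) (AD.and hR (hb false) hw2)
  have hout : AD (R0 A κ) (fun x : List Bool × ℕ =>
      (x.1[Nat.pair m x.2]? = some true ∧ Nat.pair m x.2 ∈ w) ∨
        (x.1[Nat.pair m x.2]? = some false ∧ Nat.pair m x.2 ∉ w)) :=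
    AD.or hR (AD.and hR (hb true) hw2) (AD.and hR (hb false) (AD.not hR hw2))
  -- values of the code
  have hX1 : AD (R0 A κ) (fun x : (List Bool × ℕ) × List Bool => x.2 <+: x.1.1 ∧
      Nat.pair x.1.2 (Encodable.encode x.2) ∈ X) :=
    AD.and hR ((NC.AD_prefix hR).comp hR (Primrec.snd.pair (Primrec.fst.comp Primrec.fst)))
      ((NC.AD_len hR hX).comp hR ((Primrec.snd.comp Primrec.fst).pair Primrec.snd))
  have hX2 : AD (R0 A κ) (fun x : List Bool × ℕ => ∃ s, s <+: x.1 ∧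
      Nat.pair x.2 (Encodable.encode s) ∈ X) :=
    AD.ex hR (P := fun (x : List Bool × ℕ) s => s <+: x.1 ∧
      Nat.pair x.2 (Encodable.encode s) ∈ X) hX1
  have hX3 : AD (R0 A κ) (fun x : (List Bool × ℕ) × List Bool => x.1.1 <+: x.2 ∧
      ∃ s, s <+: x.2 ∧ Nat.pair x.1.2 (Encodable.encode s) ∈ X) :=
    AD.and hR ((NC.AD_prefix hR).comp hR ((Primrec.fst.comp Primrec.fst).pair Primrec.snd))
      (hX2.comp hR (Primrec.snd.pair (Primrec.snd.comp Primrec.fst)))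
  have hX4 : AD (R0 A κ) (fun x : List Bool × ℕ => ∃ q, x.1 <+: q ∧
      ∃ s, s <+: q ∧ Nat.pair x.2 (Encodable.encode s) ∈ X) :=
    AD.ex hR (P := fun (x : List Bool × ℕ) q => x.1 <+: q ∧
      ∃ s, s <+: q ∧ Nat.pair x.2 (Encodable.encode s) ∈ X) hX3
  have hP : AD (R0 A κ) (fun t : List Bool => ∃ n : ℕ,
      (((t[Nat.pair m n]? = some true ∧ Nat.pair m n ∈ w) ∨
        (t[Nat.pair m n]? = some false ∧ Nat.pair m n ∉ w)) ∧
          ∃ s, s <+: t ∧ Nat.pair n (Encodable.encode s) ∈ X) ∨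
      (((t[Nat.pair m n]? = some true ∧ Nat.pair m n ∉ w) ∨
        (t[Nat.pair m n]? = some false ∧ Nat.pair m n ∈ w)) ∧
          ¬ ∃ q, t <+: q ∧ ∃ s, s <+: q ∧ Nat.pair n (Encodable.encode s) ∈ X)) :=
    AD.ex hR (P := fun (t : List Bool) (n : ℕ) =>
      (((t[Nat.pair m n]? = some true ∧ Nat.pair m n ∈ w) ∨
        (t[Nat.pair m n]? = some false ∧ Nat.pair m n ∉ w)) ∧
          ∃ s, s <+: t ∧ Nat.pair n (Encodable.encode s) ∈ X) ∨
      (((t[Nat.pair m n]? = some true ∧ Nat.pair m n ∉ w) ∨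
        (t[Nat.pair m n]? = some false ∧ Nat.pair m n ∈ w)) ∧
          ¬ ∃ q, t <+: q ∧ ∃ s, s <+: q ∧ Nat.pair n (Encodable.encode s) ∈ X))
      (AD.or hR (AD.and hR hout hX2) (AD.and hR hin (AD.not hR hX4)))
  obtain ⟨t, ⟨n, ht⟩, htg⟩ := Gen.meets hC hg hP (fun p => by
    have hl : p.length ≤ Nat.pair m p.length := Nat.right_le_pair _ _
    set i := Nat.pair m p.length with hi
    by_cases hq : ∃ q, p <+: q ∧ ∃ s, s <+: q ∧ Nat.pair p.length (Encodable.encode s) ∈ X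
    · obtain ⟨q, hpq, s, hsq, hsX⟩ := hq
      obtain ⟨q', hqq', hq'⟩ : ∃ q', q <+: q' ∧ i < q'.length := by
        refine ⟨q ++ List.replicate (i + 1) false, List.prefix_append _ _, ?_⟩
        simp
        omega
      classical
      refine ⟨q'.set i (decide (i ∈ w)), ?_, p.length, Or.inl ⟨?_, s.set i (decide (i ∈ w)), ?_, ?_⟩⟩
      · rw [List.prefix_iff_getElem?]
        intro k hk
        have h1 := (List.prefix_iff_getElem?.1 (hpq.trans hqq')) k hk
        rw [List.getElem?_set_ne (by omega), h1]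
      · have h1 : (q'.set i (decide (i ∈ w)))[i]? = some (decide (i ∈ w)) := by
          rw [List.getElem?_set_self hq']
        by_cases hiw : i ∈ w
        · left; exact ⟨by rw [h1]; simp [hiw], hiw⟩
        · right; exact ⟨by rw [h1]; simp [hiw], hiw⟩
      · rw [List.prefix_iff_getElem?]
        intro k hk
        rw [List.length_set] at hk
        have h1 := (List.prefix_iff_getElem?.1 (hsq.trans hqq')) k hk
        by_cases hki : k = i
        · subst hki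
          rw [List.getElem?_set_self hq']
          simp
        · rw [List.getElem?_set_ne (Ne.symm hki), h1, List.getElem_set_ne (Ne.symm hki)]
      · refine hI _ _ _ hsX ?_ ?_
        · simp [cond]
        · intro k hk
          rw [NC.bit_encode, NC.bit_encode]
          have : i ≠ k := by
            rintro rfl
            rw [hi, Nat.unpair_pair] at hk
            simp at hk
          rw [List.getElem?_set_ne this]
    · by_cases hiw : i ∈ w
      · obtain ⟨t, h1, h2⟩ := NC.exists_ext p i hl false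
        exact ⟨t, h1, p.length, Or.inr ⟨Or.inr ⟨h2, hiw⟩,
          fun ⟨q, h3, h4⟩ => hq ⟨q, h1.trans h3, h4⟩⟩⟩
      · obtain ⟨t, h1, h2⟩ := NC.exists_ext p i hl true
        exact ⟨t, h1, p.length, Or.inr ⟨Or.inl ⟨h2, hiw⟩,
          fun ⟨q, h3, h4⟩ => hq ⟨q, h1.trans h3, h4⟩⟩⟩)
  rcases ht with ⟨h1, s, hs, hsX⟩ | ⟨h1, h2⟩
  · have h3 : n ∈ Ev X g := by
      refine ⟨Encodable.encode s, NC.inC_of_Pre ?_, hsX⟩
      intro i b hb
      refine htg i b ?_
      obtain ⟨u, rfl⟩ := hs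
      have hlt : i < s.length := (List.getElem?_eq_some_iff.1 hb).1
      rw [List.getElem?_append_left hlt, hb]
    rw [hS n] at h3
    rcases h1 with ⟨h4, h5⟩ | ⟨h4, h5⟩
    · have h6 := (htg _ _ h4).1 rfl
      rcases h3 with h3 | h3
      · exact h3.2 h5
      · exact h3.2 h6
    · have h6 : Nat.pair m n ∉ g := fun h7 => by simpa using (htg _ _ h4).2 h7
      rcases h3 with h3 | h3
      · exact h6 h3.1
      · exact h5 h3.1
  · have h3 : Nat.pair m n ∈ symmDiff g w := by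
      rcases h1 with ⟨h4, h5⟩ | ⟨h4, h5⟩
      · exact Or.inl ⟨(htg _ _ h4).1 rfl, h5⟩
      · exact Or.inr ⟨h5, fun h3 => by simpa using (htg _ _ h4).2 h3⟩
    rw [← hS n] at h3
    obtain ⟨s, hs, hsX⟩ := h3
    have hsX' : Nat.pair n (Encodable.encode (cond s)) ∈ X := by
      refine hI _ _ _ hsX ?_ ?_
      · simp [cond]
      · intro k _
        rw [NC.bit_encode]
        rfl
    exact h2 ⟨NC.ini g (max t.length (cond s).length), NC.prefix_ini htg (le_max_left _ _),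
      cond s, NC.prefix_ini (NC.Pre_cond hs) (le_max_right _ _), hsX'⟩


/-! ### definability in the extensions -/

omit hC in
theorem NC.pair_mem_rz (x : ℕ → ℕ) (a b : ℕ) : ZFSet.pair (nz a) (nz b) ∈ rz x ↔ x a = b := by
  unfold rz seqZ
  rw [ZFSet.mem_range]
  constructor
  · rintro ⟨n, hn⟩
    rw [ZFSet.pair_inj, nz_inj, nz_inj] at hn
    obtain ⟨rfl, h⟩ := hn
    exact h
  · rintro rfl
    exact ⟨a, rfl⟩

omit hC in
theorem NC.nz_mem_sz (S : Set ℕ) (n : ℕ) : nz n ∈ sz S ↔ n ∈ S := by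
  unfold sz
  rw [ZFSet.mem_range]
  constructor
  · rintro ⟨⟨k, hk⟩, h⟩
    rw [nz_inj] at h
    exact h ▸ hk
  · intro h
    exact ⟨⟨n, h⟩, rfl⟩

omit hC in
theorem NC.mem_sz (S : Set ℕ) (y : ZFSet.{0}) : y ∈ sz S ↔ ∃ n ∈ S, y = nz n := by
  unfold sz
  rw [ZFSet.mem_range]
  constructor
  · rintro ⟨⟨k, hk⟩, h⟩
    exact ⟨k, hk, h.symm⟩
  · rintro ⟨n, hn, rfl⟩
    exact ⟨⟨n, hn⟩, rfl⟩

/-- the predicate defining the elements of `AA k` from the set `B` -/
def NC.Q (y B k : ZFSet.{0}) : Prop :=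
  ∃ (x : ℕ → ℕ) (k' : ℕ), y = rz x ∧ k = nz k' ∧ (∀ n, x n ≤ 1) ∧
    sz {i | ∃ n, i = Nat.pair k' n ∧ x n = 1} ∈ B

theorem NC.DfN_Q : DfN A κ μ (fun _ v => NC.Q (v 0) (v 1) (v 2)) := by
  have hA : Arith A := hC.ar.toArith
  have e1 : DfN A κ μ (fun h v => ∃ u ∈ NN A κ μ h.1, ∃ x : ℕ → ℕ, v 0 = rz x ∧ u = sz (gr x)) := by
    have h1 := NC.Df.exn (Df.subst (DfN_rz hC) (fun k => if k = 0 then 0 else 5)) 5
    refine h1.congr fun h v _ => ?_
    simp
  have e2 : DfN A κ μ (fun h v => ∀ a ∈ NN A κ μ h.1, ∀ b ∈ NN A κ μ h.1,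
      ZFSet.pair a b ∈ v 0 → b = nz 0 ∨ b = nz 1) := by
    have h1 := NC.Df.alln (NC.Df.alln (Df.imp (Df.subst (DfN_app hC)
      (fun k => if k = 0 then 5 else if k = 1 then 6 else 0))
      (Df.or (Df.subst (DfN_nz hC 0) (fun _ => 6)) (Df.subst (DfN_nz hC 1) (fun _ => 6)))) 6) 5
    refine h1.congr fun h v _ => ?_
    simp
  have e3 : DfN A κ μ (fun h v => ∃ s ∈ NN A κ μ h.1, s ∈ v 1 ∧ ∀ i ∈ NN A κ μ h.1, (i ∈ s ↔
      ∃ n ∈ NN A κ μ h.1, (∃ a b c : ℕ, v 2 = nz a ∧ n = nz b ∧ i = nz c ∧ c = Nat.pair a b) ∧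
        ∃ o ∈ NN A κ μ h.1, o = nz 1 ∧ ZFSet.pair n o ∈ v 0)) := by
    have hprim : PrimrecPred (fun x : ℕ × ℕ × ℕ => x.2.2 = Nat.pair x.1 x.2.1) :=
      Primrec.eq.comp (Primrec.snd.comp Primrec.snd)
        (Primrec₂.natPair.comp Primrec.fst (Primrec.fst.comp Primrec.snd))
    have h0 := DfN_ar hC (P := fun a b c => c = Nat.pair a b) hprim
    have h1 := NC.Df.exn (Df.and (Df.subst (DfN_mem hC) (fun k => if k = 0 then 5 else 1))
      (NC.Df.alln (Df.iff (Df.subst (DfN_mem hC) (fun k => if k = 0 then 6 else 5))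
        (NC.Df.exn (Df.and (Df.subst h0 (fun k => if k = 0 then 2 else if k = 1 then 7 else 6))
          (NC.Df.exn (Df.and (Df.subst (DfN_nz hC 1) (fun _ => 8))
            (Df.subst (DfN_app hC) (fun k => if k = 0 then 7 else if k = 1 then 8 else 0)))
            8)) 7)) 6)) 5
    refine h1.congr fun h v _ => ?_
    simp
  have e4 : DfN A κ μ (fun h v => ∃ k' : ℕ, v 2 = nz k') :=
    Df.subst (DfN_nat hC) (fun _ => 2)
  have h2 := Df.and (Df.and e1 e2) (Df.and e3 e4)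
  refine h2.congr fun h v hv => ?_
  have hg := h.2
  constructor
  · rintro ⟨⟨⟨u, hu, x, hx, hux⟩, h01⟩, ⟨s, hs, hsB, hs'⟩, ⟨k', hk'⟩⟩
    refine ⟨x, k', hx, hk', ?_, ?_⟩
    · intro n
      have h3 := h01 (nz n) (nz_mem hC hg n) (nz (x n)) (nz_mem hC hg _)
        (by rw [hx, NC.pair_mem_rz])
      rw [nz_inj, nz_inj] at h3
      omega
    · convert hsB using 1
      ext i
      rw [NC.mem_sz]
      constructor
      · rintro ⟨_, ⟨n, rfl, hn⟩, rfl⟩
        rw [hs' _ (nz_mem hC hg _)]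
        refine ⟨nz n, nz_mem hC hg n, ⟨k', n, _, hk', rfl, rfl, rfl⟩, nz 1, nz_mem hC hg 1, rfl, ?_⟩
        rw [hx, NC.pair_mem_rz]
        exact hn
      · intro hi
        have hiN := NN_trans hA hC.grd hg hs hi
        obtain ⟨n, -, ⟨a, b, c, h4, rfl, rfl, rfl⟩, o, -, rfl, h5⟩ := (hs' i hiN).1 hi
        rw [hk', nz_inj] at h4
        subst h4
        rw [hx, NC.pair_mem_rz] at h5
        exact ⟨_, ⟨b, rfl, h5⟩, rfl⟩
  · rintro ⟨x, k', hx, hk', h01, hB⟩
    refine ⟨⟨⟨sz (gr x), ?_, x, hx, rfl⟩, ?_⟩, ⟨_, NN_trans hA hC.grd hg (hv 1) hB, hB, ?_⟩, k', hk'⟩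
    · have h6 := hv 0
      rw [hx, rz_mem_iff hC hg] at h6
      exact h6
    · intro a _ b _ hab
      rw [hx] at hab
      unfold rz seqZ at hab
      rw [ZFSet.mem_range] at hab
      obtain ⟨n, hn⟩ := hab
      rw [ZFSet.pair_inj] at hn
      rw [← hn.2, nz_inj, nz_inj]
      have := h01 n
      omega
    · intro i _
      rw [NC.mem_sz]
      constructor
      · rintro ⟨_, ⟨n, rfl, hn⟩, rfl⟩
        refine ⟨nz n, nz_mem hC hg n, ⟨k', n, _, hk', rfl, rfl, rfl⟩, nz 1, nz_mem hC hg 1, rfl, ?_⟩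
        rw [hx, NC.pair_mem_rz]
        exact hn
      · rintro ⟨n, -, ⟨a, b, c, h4, rfl, rfl, rfl⟩, o, -, rfl, h5⟩
        rw [hk', nz_inj] at h4
        subst h4
        rw [hx, NC.pair_mem_rz] at h5
        exact ⟨_, ⟨b, rfl, h5⟩, rfl⟩

/-- the predicate defines `AA k` -/
theorem NC.Q_iff {b : Ordinal.{0}} (hb : ∀ k y, y ∈ val A μ b k ↔ ∃ j, ∃ w ∈ R0 A κ,
    y = sz {i | i ∈ symmDiff k w ∧ i.unpair.1 = j}) {g : Set ℕ} (hg : Gen A κ g) (k : ℕ)
    (y : ZFSet.{0}) : NC.Q y (val A μ b g) (nz k) ↔ y ∈ setZ (AA A κ g k) := by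
  unfold setZ
  rw [ZFSet.mem_range]
  have key : ∀ x : ℕ → ℕ, ((∀ n, x n ≤ 1) ∧
      sz {i | ∃ n, i = Nat.pair k n ∧ x n = 1} ∈ val A μ b g) ↔ x ∈ AA A κ g k := by
    intro x
    refine and_congr_right fun _ => ?_
    rw [hb]
    constructor
    · rintro ⟨j, w, hw, h1⟩
      rw [sz_inj] at h1
      have h2 : ∀ i, (∃ n, i = Nat.pair k n ∧ x n = 1) ↔ (i ∈ symmDiff g w ∧ i.unpair.1 = j) :=
        fun i => Set.ext_iff.1 h1 i
      obtain ⟨i, hi, hig⟩ := NC.gen_col hC hg hw j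
      obtain ⟨n, rfl, -⟩ := (h2 i).2 ⟨hig, hi⟩
      rw [Nat.unpair_pair] at hi
      simp only at hi
      subst hi
      refine ⟨w, hw, fun n => ?_⟩
      constructor
      · intro h3
        exact ((h2 _).1 ⟨n, rfl, h3⟩).1
      · intro h3
        obtain ⟨n', h4, h5⟩ := (h2 _).2 ⟨h3, by simp⟩
        rw [Nat.pair_eq_pair] at h4
        rw [h4.2]
        exact h5
    · rintro ⟨w, hw, hx⟩
      refine ⟨k, w, hw, ?_⟩
      congr 1
      ext i
      simp only [mem_ofPred_eq]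
      constructor
      · rintro ⟨n, rfl, hn⟩
        exact ⟨(hx n).1 hn, by simp⟩
      · rintro ⟨h1, h2⟩
        refine ⟨i.unpair.2, ?_, ?_⟩
        · rw [← h2, Nat.pair_unpair]
        · rw [hx, ← h2, Nat.pair_unpair]
          exact h1
  constructor
  · rintro ⟨x, k', rfl, hk, h⟩
    rw [nz_inj] at hk
    subst hk
    exact ⟨⟨x, (key x).1 h⟩, rfl⟩
  · rintro ⟨⟨x, hx⟩, rfl⟩
    exact ⟨x, k, rfl, rfl, (key x).2 hx⟩

theorem AA_seq {g : Set ℕ} (hg : Gen A κ g) :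
    seqZ (fun k => setZ (AA A κ g k)) ∈ NN A κ μ g := by
  have hA : Arith A := hC.ar.toArith
  obtain ⟨b, hbκ, hb⟩ := exists_B0 hC
  have hbN : val A μ b g ∈ NN A κ μ g := (NN_iff hA hC.grd g _).2 ⟨b, hbκ, rfl⟩
  -- all the `AA k` belong to the extension
  have h1 : ∀ k, setZ (AA A κ g k) ∈ NN A κ μ g := by
    intro k
    obtain ⟨c, hc, hc'⟩ := N_comp hC hg (NC.DfN_Q hC)
      (fun i => if i = 1 then val A μ b g else nz k)
      (fun i => by by_cases hi : i = 1 <;> simp [hi, hbN, nz_mem hC hg]) 3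
      (by
        rintro y - ⟨x, k', hy, -⟩
        simp only [Function.update_self] at hy
        rw [hy]
        exact PN_rz x)
    have h2 : c = setZ (AA A κ g k) := by
      ext y
      rw [hc', ← NC.Q_iff hC hb hg]
      simp only [Function.update_self, ne_eq, one_ne_zero, not_false_eq_true,
        Function.update_of_ne, OfNat.ofNat_ne_zero, if_true, OfNat.ofNat_ne_one, if_false]
      refine ⟨fun h => h.2, fun h => ⟨?_, h⟩⟩
      rw [NC.Q_iff hC hb hg] at h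
      unfold setZ at h
      rw [ZFSet.mem_range] at h
      obtain ⟨⟨x, hx⟩, rfl⟩ := h
      exact AA_sub hC hg k hx
    rw [← h2]
    exact hc
  -- the sequence
  have hD : DfN A κ μ (fun h v => ∃ k ∈ NN A κ μ h.1, (∃ n : ℕ, k = nz n) ∧
      ∃ s ∈ NN A κ μ h.1, v 0 = ZFSet.pair k s ∧ ∀ y ∈ NN A κ μ h.1, (y ∈ s ↔
        NC.Q y (v 1) k)) := by
    have h2 := NC.Df.exn (Df.and (Df.subst (DfN_nat hC) (fun _ => 10)) (NC.Df.exn (Df.and
      (Df.subst (DfN_pair hC) (fun k => if k = 0 then 0 else if k = 1 then 10 else 11))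
      (NC.Df.alln (Df.iff (Df.subst (DfN_mem hC) (fun k => if k = 0 then 12 else 11))
        (Df.subst (NC.DfN_Q hC) (fun k => if k = 0 then 12 else if k = 1 then 1 else 10)))
        12)) 11)) 10
    refine h2.congr fun h v _ => ?_
    simp
  have hchar : ∀ y ∈ NN A κ μ g, (∃ k ∈ NN A κ μ g, (∃ n : ℕ, k = nz n) ∧
      ∃ s ∈ NN A κ μ g, y = ZFSet.pair k s ∧ ∀ z ∈ NN A κ μ g, (z ∈ s ↔
        NC.Q z (val A μ b g) k)) ↔ y ∈ seqZ (fun k => setZ (AA A κ g k)) := by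
    intro y _
    unfold seqZ
    rw [ZFSet.mem_range]
    constructor
    · rintro ⟨_, -, ⟨n, rfl⟩, s, hs, rfl, h3⟩
      refine ⟨n, ?_⟩
      congr 1
      ext z
      constructor
      · intro hz
        have hzN := NN_trans hA hC.grd hg (h1 n) hz
        rw [h3 z hzN, NC.Q_iff hC hb hg]
        exact hz
      · intro hz
        have hzN := NN_trans hA hC.grd hg hs hz
        rw [← NC.Q_iff hC hb hg]
        exact (h3 z hzN).1 hz
    · rintro ⟨n, rfl⟩
      exact ⟨nz n, nz_mem hC hg n, ⟨n, rfl⟩, _, h1 n, rfl, fun z _ =>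
        (NC.Q_iff hC hb hg n z).symm⟩
  obtain ⟨c, hc, hc'⟩ := N_comp hC hg hD (fun _ => val A μ b g) (fun _ => hbN) 7 (by
    intro y hy h3
    simp only [Function.update_self, ne_eq, one_ne_zero, not_false_eq_true,
        Function.update_of_ne] at h3
    rw [hchar y hy] at h3
    exact PN_seqZ_setZ (fun k => AA A κ g k) y h3)
  have h2 : c = seqZ (fun k => setZ (AA A κ g k)) := by
    ext y
    rw [hc']
    simp only [Function.update_self, ne_eq, one_ne_zero, not_false_eq_true,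
        Function.update_of_ne]
    constructor
    · rintro ⟨h3, h4⟩
      exact (hchar y h3).1 h4
    · intro h3
      have hy : y ∈ NN A κ μ g := by
        unfold seqZ at h3
        rw [ZFSet.mem_range] at h3
        obtain ⟨n, rfl⟩ := h3
        exact (pair_mem hC hg).2 ⟨nz_mem hC hg n, h1 n⟩
      exact ⟨hy, (hchar y hy).2 h3⟩
  rw [← h2]
  exact hc

omit hC in
theorem NC.supp_cst (a : Ordinal.{0}) : supp A (cst a) = 0 := by
  have : zR A (cst a) = ∅ := by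
    ext n
    simp only [zR, mem_ofPred_eq, mem_empty_iff_false, iff_false]
    exact not_EE_cst A _ _
  rw [supp, this, Nat.sInf_empty]

theorem no_choice {g : Set ℕ} (hg : Gen A κ g) : ¬ ∃ f : ℕ → ℕ → ℕ,
    (∀ k, f k ∈ AA A κ g k) ∧ seqZ (fun k => rz (f k)) ∈ NN A κ μ g := by
  rintro ⟨f, hf, hfN⟩
  have hA : Arith A := hC.ar.toArith
  have h := hC.grd
  obtain ⟨y, hy, hyv⟩ := (NN_iff hA h g _).1 hfN
  set m := supp A y with hm
  obtain ⟨h01, w, hw, hx⟩ := hf m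
  -- the name of the set `S`
  have hD : DfN A κ μ (fun h v => ∃ s ∈ NN A κ μ h.1, ZFSet.pair (v 2) s ∈ v 1 ∧
      ZFSet.pair (v 0) (v 3) ∈ s) := by
    have h2 := NC.Df.exn (Df.and (Df.subst (DfN_app hC)
      (fun k => if k = 0 then 2 else if k = 1 then 10 else 1)) (Df.subst (DfN_app hC)
      (fun k => if k = 0 then 0 else if k = 1 then 3 else 10))) 10
    refine h2.congr fun h v _ => ?_
    simp
  obtain ⟨φ, hφ⟩ := hD
  have hωκ := NC.om_lt_kappa h
  have hcst : ∀ a < κ, cst a < κ := fun a ha =>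
    h.code_lt _ (h.succ_lt _ ha) _ (lt_of_le_of_lt zero_le (lt_add_one _)) _
  obtain ⟨y', hy', hs', hv'⟩ := NN_sep hA h hg φ
    (fun k => if k = 0 then cst ω else if k = 1 then y else if k = 2 then cst m else cst (1 : ℕ))
    (fun k => by
      split_ifs
      exacts [hcst _ hωκ, hy, hcst _ (NC.nat_lt' h m), hcst _ (NC.nat_lt' h 1)]) m
    (fun k => by
      by_cases h0 : k = 0
      · simp [h0, NC.supp_cst]
      by_cases h1 : k = 1
      · simp [h1, hm]
      by_cases h2 : k = 2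
      · simp [h2, NC.supp_cst]
      · simp [h0, h1, h2, NC.supp_cst])
  have hS : val A μ y' g = sz {n | f m n = 1} := by
    ext z
    rw [hv' z, NC.mem_sz]
    have e1 : z ∈ val A μ (cst ω) g ↔ ∃ n : ℕ, z = nz n := by
      rw [NC.val_cst, mem_toZFSet_iff]
      constructor
      · rintro ⟨a, ha, rfl⟩
        obtain ⟨n, rfl⟩ := lt_omega0.1 ha
        exact ⟨n, NC.nz_eq' n⟩
      · rintro ⟨n, rfl⟩
        exact ⟨n, natCast_lt_omega0 n, NC.nz_eq' n⟩
    simp only [if_true]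
    rw [e1]
    have hN : ∀ k, (fun k => val A μ (if k = 0 then cst ω else if k = 1 then y else if k = 2 then
        cst m else cst (1 : ℕ)) g) k ∈ NN A κ μ g := by
      intro k
      refine (NN_iff hA h g _).2 ⟨_, ?_, rfl⟩
      split_ifs
      exacts [hcst _ hωκ, hy, hcst _ (NC.nat_lt' h m), hcst _ (NC.nat_lt' h 1)]
    have key : ∀ n : ℕ, Sat (NI A κ) (NN A κ μ g) (Function.update (fun k => val A μ (if k = 0 then
        cst ω else if k = 1 then y else if k = 2 then cst m else cst (1 : ℕ)) g) 0 (nz n)) φ ↔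
        f m n = 1 := by
      intro n
      rw [hφ ⟨g, hg⟩ _ (fun k => by
        by_cases hk : k = 0
        · subst hk; simpa using nz_mem hC hg n
        · simpa [Function.update_of_ne hk] using hN k)]
      simp only [Function.update_self, ne_eq, one_ne_zero, not_false_eq_true,
        Function.update_of_ne, OfNat.ofNat_ne_zero, if_true, OfNat.ofNat_ne_one, if_false,
        Nat.reduceEqDiff]
      rw [← hyv, NC.val_cst, NC.val_cst, NC.nz_eq', NC.nz_eq']
      constructor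
      · rintro ⟨s, -, h1, h2⟩
        unfold seqZ at h1
        rw [ZFSet.mem_range] at h1
        obtain ⟨k, hk⟩ := h1
        rw [ZFSet.pair_inj, nz_inj] at hk
        obtain ⟨rfl, rfl⟩ := hk
        rwa [NC.pair_mem_rz] at h2
      · intro h1
        refine ⟨rz (f m), seqZ_apply_mem hC hg hfN m, ?_, ?_⟩
        · unfold seqZ
          rw [ZFSet.mem_range]
          exact ⟨m, rfl⟩
        · rw [NC.pair_mem_rz]
          exact h1
    constructor
    · rintro ⟨⟨n, rfl⟩, h1⟩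
      exact ⟨n, (key n).1 h1, rfl⟩
    · rintro ⟨n, hn, rfl⟩
      exact ⟨⟨n, rfl⟩, (key n).2 hn⟩
  have hmem : {n | f m n = 1} ∈ Rm A κ μ g m := ⟨y', hy', hs'.le, hS⟩
  obtain ⟨X, hX, hI, hXS⟩ := (mem_Rm_iff hC hg m _).1 hmem
  refine NC.not_Ev hC hg hw hX hI fun n => ?_
  rw [← hXS, ← hx n]
  rfl

end

end Pool.Agent.CC
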