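import Mathlib
import Pool.Agent.Lib.MP_bf67b0_lc.Defs2

set_option autoImplicit false

namespace Pool.Agent.CC

/-- a real `w = pr (pr x u) z` witnessing that `x` is not coded by `u` -/
def Viol (w : ℕ → Fm → List ℕ → ℕ) (e : ℕ) (A : ℕ → List ℕ → Prop) (x u : ℕ → ℕ) : Prop :=
  ¬ (Clauses w A (SU u) ∧ Link (SU u) e x)

end Pool.Agent.CC
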