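import Mathlib
import Pool.Agent.Lib.MP_bf67b0_lc.Aca
import Pool.Agent.Lib.MP_bf67b0_lc.GroundReals
import Pool.Agent.Lib.MP_bf67b0_lc.ExtReals
import Pool.Agent.Lib.MP_bf67b0_lc.Codes
import Pool.Agent.Lib.MP_bf67b0_lc.SetTheory2
import Pool.Agent.Lib.MP_bf67b0_lc.Family
import Pool.Agent.Lib.MP_bf67b0_lc.Pairs

/-!
Countable choice for projective classes, piece Q10: well-foundedness in the symmetric extension
is true well-foundedness (with a rank function into the ordinals of the ground model).
-/

set_option autoImplicit false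

namespace Pool.Agent.CC

open Ordinal Set

namespace W2

theorem cond_encode (s : List Bool) : cond (Encodable.encode s) = s := by
  simp [cond]

theorem bit_encode (s : List Bool) (i : ℕ) : bit (Encodable.encode s) i = s[i]? := by
  simp [bit, cond_encode]

/-- the condition decides that `σ` does not belong to the tree coded by `Y` -/
def Dec1 (Y : Set ℕ) (p : List Bool × List Bool) (σ : List ℕ) : Prop :=
  ∀ t, p.1 <+: t → ∀ t', t' <+: t → Nat.pair (Encodable.encode σ) (Encodable.encode t') ∉ Y

/-- the initial segment of a real -/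
noncomputable def strg (g : Set ℕ) (n : ℕ) : List Bool :=
  open Classical in (List.range n).map (fun i => decide (i ∈ g))

theorem strg_length (g : Set ℕ) (n : ℕ) : (strg g n).length = n := by simp [strg]

theorem strg_get (g : Set ℕ) (n i : ℕ) (h : i < n) :
    open Classical in (strg g n)[i]? = some (decide (i ∈ g)) := by
  simp [strg, h]

theorem Pre_strg (g : Set ℕ) (n : ℕ) : Pre (strg g n) g := by
  classical
  intro i b hb
  have hi : i < n := by
    by_contra hcon
    rw [List.getElem?_eq_none (by rw [strg_length]; omega)] at hb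
    cases hb
  rw [strg_get g n i hi] at hb
  cases hb
  simp

theorem Pre_prefix {s t : List Bool} {g : Set ℕ} (hs : Pre s g) (ht : Pre t g)
    (h : s.length ≤ t.length) : s <+: t := by
  have key : s = t.take s.length := by
    apply List.ext_getElem?
    intro i
    by_cases hi : i < s.length
    · rw [List.getElem?_take_of_lt hi]
      have hit : i < t.length := by omega
      rw [List.getElem?_eq_getElem hi, List.getElem?_eq_getElem hit]
      have h1 := hs i s[i] (List.getElem?_eq_getElem hi)
      have h2 := ht i t[i] (List.getElem?_eq_getElem hit)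
      congr 1
      rw [Bool.eq_iff_iff]
      rw [h1, h2]
    · rw [List.getElem?_eq_none (by omega), List.getElem?_eq_none (by simp; omega)]
  rw [key]
  exact List.take_prefix _ _

theorem Pre_of_prefix {s t : List Bool} {g : Set ℕ} (h : s <+: t) (ht : Pre t g) : Pre s g := by
  intro i b hb
  apply ht i b
  obtain ⟨u, rfl⟩ := h
  have hi : i < s.length := by
    by_contra hcon
    rw [List.getElem?_eq_none (by omega)] at hb
    cases hb
  rw [List.getElem?_append_left hi, hb]

/-- delete the columns from `m` on -/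
def zer (m : ℕ) (t : List Bool) : List Bool :=
  (List.range t.length).map (fun i => decide (i.unpair.1 < m) && t.getD i false)

theorem zer_length (m : ℕ) (t : List Bool) : (zer m t).length = t.length := by simp [zer]

theorem zer_get_lt {m : ℕ} {t : List Bool} {i : ℕ} (h : i.unpair.1 < m) :
    (zer m t)[i]? = t[i]? := by
  by_cases hi : i < t.length
  · simp [zer, hi, h]
  · rw [List.getElem?_eq_none (by rw [zer_length]; omega), List.getElem?_eq_none (by omega)]

theorem zer_get_ge {m : ℕ} {t : List Bool} {i : ℕ} (h : m ≤ i.unpair.1) (hi : i < t.length) :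
    (zer m t)[i]? = some false := by
  simp [zer, hi, Nat.not_lt.2 h]

theorem Pre_zer {m : ℕ} {t : List Bool} {g : Set ℕ} (h : Pre t g) : Pre (zer m t) (cut m g) := by
  intro i b hb
  have hi : i < t.length := by
    by_contra hcon
    rw [List.getElem?_eq_none (by rw [zer_length]; omega)] at hb
    cases hb
  by_cases him : i.unpair.1 < m
  · rw [zer_get_lt him] at hb
    rw [h i b hb]
    simp [cut, him]
  · rw [zer_get_ge (Nat.not_lt.1 him) hi] at hb
    cases hb
    simp [cut, him]

theorem C2_zer (m : ℕ) (t : List Bool) : C2 m m (zer m t, zer m t) := by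
  refine ⟨rfl, fun i hi => ⟨fun _ => rfl, fun h => ?_⟩⟩
  simp only [zer_length] at hi
  exact ⟨zer_get_ge h hi, zer_get_ge h hi⟩

theorem le2_refl (p : List Bool × List Bool) : le2 p p := ⟨List.prefix_refl _, List.prefix_refl _⟩

theorem le2_trans {p q r : List Bool × List Bool} (h : le2 p q) (h' : le2 q r) : le2 p r :=
  ⟨h'.1.trans h.1, h'.2.trans h.2⟩

theorem Dec1_mono {Y : Set ℕ} {p q : List Bool × List Bool} {σ : List ℕ} (h : le2 q p)
    (hp : Dec1 Y p σ) : Dec1 Y q σ :=
  fun t ht t' ht' => hp t (h.1.trans ht) t' ht'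

section AD

variable {𝓡 : Set (Set ℕ)} (h𝓡 : ACA 𝓡)
include h𝓡

theorem AD_prefix : AD 𝓡 (fun x : List Bool × List Bool => x.1 <+: x.2) := by
  have h := AD.comp h𝓡 (C2_AD h𝓡 0 0).2
    (f := fun x : List Bool × List Bool => ((x.2, x.2), (x.1, x.1)))
    (Primrec.pair (Primrec.pair Primrec.snd Primrec.snd) (Primrec.pair Primrec.fst Primrec.fst))
  simpa [le2] using h

theorem AD_pairmem {α : Type} [Primcodable α] {Y : Set ℕ} (hY : Y ∈ 𝓡) {f : α → ℕ}
    (hf : Primrec f) : AD 𝓡 (fun x => f x ∈ Y) := by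
  have h1 : AD 𝓡 (fun n : ℕ => n ∈ Y) := AD_nat.2 hY
  exact AD.comp h𝓡 h1 hf

theorem AD_Dec1 {Y : Set ℕ} (hY : Y ∈ 𝓡) :
    AD 𝓡 (fun x : (List Bool × List Bool) × List ℕ => Dec1 Y x.1 x.2) := by
  unfold Dec1
  refine AD.all h𝓡 (P := fun (x : (List Bool × List Bool) × List ℕ) (t : List Bool) =>
    x.1.1 <+: t → ∀ t', t' <+: t →
      Nat.pair (Encodable.encode x.2) (Encodable.encode t') ∉ Y) ?_
  refine AD.imp h𝓡 ?_ ?_
  · exact AD.comp h𝓡 (AD_prefix h𝓡)
      (f := fun x : ((List Bool × List Bool) × List ℕ) × List Bool => (x.1.1.1, x.2))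
      (Primrec.pair (Primrec.fst.comp (Primrec.fst.comp Primrec.fst)) Primrec.snd)
  · refine AD.all h𝓡 (P := fun (x : ((List Bool × List Bool) × List ℕ) × List Bool)
      (t' : List Bool) => t' <+: x.2 →
        Nat.pair (Encodable.encode x.1.2) (Encodable.encode t') ∉ Y) ?_
    refine AD.imp h𝓡 ?_ (AD.not h𝓡 ?_)
    · exact AD.comp h𝓡 (AD_prefix h𝓡)
        (f := fun x : (((List Bool × List Bool) × List ℕ) × List Bool) × List Bool =>
          (x.2, x.1.2))
        (Primrec.pair Primrec.snd (Primrec.snd.comp Primrec.fst))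
    · refine AD_pairmem h𝓡 hY (f := fun x : (((List Bool × List Bool) × List ℕ) × List Bool) ×
          List Bool => Nat.pair (Encodable.encode x.1.1.2) (Encodable.encode x.2)) ?_
      exact Primrec₂.natPair.comp
        (Primrec.encode.comp (Primrec.snd.comp (Primrec.fst.comp Primrec.fst)))
        (Primrec.encode.comp Primrec.snd)

/-- the conditions deciding whether `n` belongs to `Ev Y` -/
theorem AD_dense {Y : Set ℕ} (hY : Y ∈ 𝓡) (n : ℕ) : AD 𝓡 (fun t : List Bool =>
    (∃ t', t' <+: t ∧ Nat.pair n (Encodable.encode t') ∈ Y) ∨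
    ∀ t2, t <+: t2 → ∀ t', t' <+: t2 → Nat.pair n (Encodable.encode t') ∉ Y) := by
  refine AD.or h𝓡 ?_ ?_
  · refine AD.ex h𝓡 (P := fun (t t' : List Bool) =>
      t' <+: t ∧ Nat.pair n (Encodable.encode t') ∈ Y) ?_
    refine AD.and h𝓡 ?_ ?_
    · exact AD.comp h𝓡 (AD_prefix h𝓡) (f := fun x : List Bool × List Bool => (x.2, x.1))
        (Primrec.pair Primrec.snd Primrec.fst)
    · exact AD_pairmem h𝓡 hY (f := fun x : List Bool × List Bool =>
        Nat.pair n (Encodable.encode x.2))
        (Primrec₂.natPair.comp (Primrec.const n) (Primrec.encode.comp Primrec.snd))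
  · refine AD.all h𝓡 (P := fun (t t2 : List Bool) => t <+: t2 →
      ∀ t', t' <+: t2 → Nat.pair n (Encodable.encode t') ∉ Y) ?_
    refine AD.imp h𝓡 (AD_prefix h𝓡) ?_
    refine AD.all h𝓡 (P := fun (x : List Bool × List Bool) (t' : List Bool) => t' <+: x.2 →
      Nat.pair n (Encodable.encode t') ∉ Y) ?_
    refine AD.imp h𝓡 ?_ (AD.not h𝓡 ?_)
    · exact AD.comp h𝓡 (AD_prefix h𝓡)
        (f := fun x : (List Bool × List Bool) × List Bool => (x.2, x.1.2))
        (Primrec.pair Primrec.snd (Primrec.snd.comp Primrec.fst))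
    · exact AD_pairmem h𝓡 hY (f := fun x : (List Bool × List Bool) × List Bool =>
        Nat.pair n (Encodable.encode x.2))
        (Primrec₂.natPair.comp (Primrec.const n) (Primrec.encode.comp Primrec.snd))

end AD

/-- a code at a generic real only depends on the columns before `m` -/
theorem code_prefix {m : ℕ} {Y : Set ℕ} (hY : Inv m Y) {g : Set ℕ} {n : ℕ} (hn : n ∈ Ev Y g) :
    ∃ k, ∀ N ≥ k, ∃ t', t' <+: strg (cut m g) N ∧ Nat.pair n (Encodable.encode t') ∈ Y := by
  classical
  obtain ⟨s, hs, hns⟩ := hn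
  refine ⟨(cond s).length, fun N hN => ⟨(strg (cut m g) N).take (cond s).length,
    List.take_prefix _ _, ?_⟩⟩
  refine hY n s _ hns ?_ ?_
  · rw [cond_encode, List.length_take, strg_length]; omega
  · intro i him
    rw [bit_encode]
    by_cases hi : i < (cond s).length
    · rw [List.getElem?_take_of_lt hi, strg_get _ _ _ (by omega)]
      have hb : bit s i = some (cond s)[i] := by
        unfold bit
        exact List.getElem?_eq_getElem hi
      rw [hb]
      congr 1
      have h1 := hs i
      rw [hb] at h1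
      cases hc : (cond s)[i] with
      | true =>
        rw [hc] at h1
        simp [cut, h1.1 rfl, him]
      | false =>
        rw [hc] at h1
        have := h1.2 rfl
        simp [cut, this]
    · rw [List.getElem?_eq_none (by simp; omega)]
      unfold bit
      exact List.getElem?_eq_none (by omega)

theorem not_Dec1 {m : ℕ} {Y : Set ℕ} (hY : Inv m Y) {g : Set ℕ} {σ : List ℕ}
    (hn : Encodable.encode σ ∈ Ev Y g) {r : List Bool × List Bool}
    (hr : Pre r.1 (cut m g)) : ¬ Dec1 Y r σ := by
  obtain ⟨k, hk⟩ := code_prefix hY hn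
  obtain ⟨t', ht', hY'⟩ := hk (max k r.1.length) (le_max_left _ _)
  intro hD
  refine hD (strg (cut m g) (max k r.1.length)) ?_ t' ht' hY'
  exact Pre_prefix hr (Pre_strg _ _) (by rw [strg_length]; exact le_max_right _ _)

section

variable {𝓕 : ℕ → Set ℕ} {A : ℕ → List ℕ → Prop} {κ μ : Ordinal.{0}} (hC : Ctx 𝓕 A κ μ)
include hC

theorem dec_of_not_mem {m : ℕ} {Y : Set ℕ} (hYR : Y ∈ R0 A κ) (hY : Inv m Y) {g : Set ℕ}
    (hg : Gen A κ g) {σ : List ℕ} (hn : Encodable.encode σ ∉ Ev Y g) :
    ∃ r, Fil m m (cut m g) (cut m g) r ∧ Dec1 Y r σ := by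
  obtain ⟨t, ht, hpre⟩ := Gen.meets hC hg
    (AD_dense (R0_ACA hC) hYR (Encodable.encode σ)) (fun s => by
      by_cases h : ∃ t2, s <+: t2 ∧ ∃ t', t' <+: t2 ∧
          Nat.pair (Encodable.encode σ) (Encodable.encode t') ∈ Y
      · obtain ⟨t2, h1, h2⟩ := h
        exact ⟨t2, h1, Or.inl h2⟩
      · refine ⟨s, List.prefix_refl _, Or.inr ?_⟩
        intro t2 h2 t' h3 h4
        exact h ⟨t2, h2, t', h3, h4⟩)
  rcases ht with ⟨t', h1, h2⟩ | ht
  · exact absurd ⟨Encodable.encode t', (Pre_code t' g).1 (Pre_of_prefix h1 hpre), h2⟩ hn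
  · refine ⟨(zer m t, zer m t), ⟨C2_zer m t, Pre_zer hpre, Pre_zer hpre⟩, ?_⟩
    intro t2 ht2 t' ht' hmem
    -- replace the first part of `t2` by `t`
    have hlen : t.length ≤ t2.length := by
      have := ht2.length_le
      simpa [zer_length] using this
    set u : List Bool := t ++ t2.drop t.length with hu
    have hulen : u.length = t2.length := by
      rw [hu, List.length_append, List.length_drop]; omega
    have hagree : ∀ i : ℕ, i.unpair.1 < m → u[i]? = t2[i]? := by
      intro i him
      by_cases hi : i < t.length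
      · rw [hu, List.getElem?_append_left hi, ← zer_get_lt him]
        obtain ⟨w, hw⟩ := ht2
        rw [← hw, List.getElem?_append_left (by rw [zer_length]; exact hi)]
      · rw [hu, List.getElem?_append_right (by omega), List.getElem?_drop]
        congr 1; omega
    refine ht u (List.prefix_append _ _) (u.take t'.length) (List.take_prefix _ _) ?_
    refine hY _ (Encodable.encode t') _ hmem ?_ ?_
    · rw [cond_encode, cond_encode, List.length_take]
      have := ht'.length_le
      omega
    · intro i him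
      rw [bit_encode, bit_encode]
      by_cases hi : i < t'.length
      · rw [List.getElem?_take_of_lt hi, hagree i him]
        obtain ⟨w, hw⟩ := ht'
        rw [← hw, List.getElem?_append_left hi]
      · rw [List.getElem?_eq_none (by omega), List.getElem?_eq_none (by simp; omega)]

end

end W2

open W2

section

variable {𝓕 : ℕ → Set ℕ} {A : ℕ → List ℕ → Prop} {κ μ : Ordinal.{0}} (hC : Ctx 𝓕 A κ μ)
include hC

theorem wf_tree {g : Set ℕ} (hg : Gen A κ g) {T : Set (List ℕ)} (hT : IsTree T)
    (hTN : Encodable.encode '' T ∈ RR A κ μ g) :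
    (∃ f ∈ Rl (NN A κ μ g), ∀ n, rs f n ∈ T) ∨ ∃ ρ : List ℕ → Ordinal.{0}, (∀ σ, ρ σ < κ) ∧
      ∀ σ i, σ ++ [i] ∈ T → ρ (σ ++ [i]) < ρ σ := by
  obtain ⟨m, hm⟩ := (mem_RR_iff hC hg _).1 hTN
  obtain ⟨Y, hYR, hY, hYe⟩ := (mem_Rm_iff hC hg m _).1 hm
  have hmemT : ∀ σ, σ ∈ T ↔ Encodable.encode σ ∈ Ev Y g := by
    intro σ
    rw [← hYe]
    constructor
    · intro h; exact ⟨σ, h, rfl⟩
    · rintro ⟨τ, h, he⟩
      rw [← Encodable.encode_injective he]; exact h
  have hACA := R0_ACA hC
  obtain ⟨Kin, D, _, hDAD, _, hDd, hfam⟩ := exists_family hC (C := C2 m m) (le := le2)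
    (Dec := Dec1 Y) (C2_AD hACA m m).1 (C2_AD hACA m m).2 (AD_Dec1 hACA hYR)
    (fun p _ => le2_refl p) (fun p q r h h' => le2_trans h h')
    (fun p q σ h h' => Dec1_mono h h')
  have hp0 : C2 m m (([] : List Bool), ([] : List Bool)) := ⟨rfl, fun i hi => by simp at hi⟩
  obtain ⟨z, _, _, _, hz⟩ := exists_pair hC (le_refl m) true hDAD hDd ([], []) hp0
  have hop : op m m true (cut m g) z = cut m g := by
    ext i
    simp only [op, cut, Set.mem_ofPred_eq]
    constructor
    · rintro (h | h)
      · exact h.2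
      · omega
    · intro h
      exact Or.inl ⟨h.2, h⟩
  have hz' := hz g hg
  rw [hop] at hz'
  obtain ⟨hA, hB⟩ := hfam (Fil m m (cut m g) (cut m g)) (fun p hp => hp.1)
    (fun p q hp hq => Fil.directed hp hq) hz'
  by_cases hK : ∃ p, Fil m m (cut m g) (cut m g) p ∧ Kin p []
  · obtain ⟨p, hp, hKp⟩ := hK
    obtain ⟨ρ, hρ1, hρ2⟩ := hA p hp hKp
    refine Or.inr ⟨ρ, hρ1, fun σ i hσ => hρ2 σ i ?_⟩
    intro τ hτ _ r hr
    have hτT : τ ∈ T := hT τ _ hτ hσ
    exact not_Dec1 hY ((hmemT τ).1 hτT) hr.2.1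
  · left
    have hAD : AD (RR A κ μ g) (Fil m m (cut m g) (cut m g)) := by
      have hc : cut m g ∈ RR A κ μ g := (mem_RR_iff hC hg _).2 ⟨m, cut_mem hC hg m⟩
      exact Fil_AD (RR_ACA hC hg) m m hc hc
    have hsub : R0 A κ ⊆ RR A κ μ g := fun S hS =>
      (mem_RR_iff hC hg _).2 ⟨m, R0_sub_Rm hC hg m hS⟩
    obtain ⟨f, hf, hfd⟩ := hB (fun p hp hKp => hK ⟨p, hp, hKp⟩) (RR A κ μ g) (RR_ACA hC hg)
      hsub hAD
    refine ⟨f, (rz_mem_iff hC hg f).2 hf, ?_⟩
    have h1 : ∀ n ≥ 1, rs f n ∈ T := by
      intro n hn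
      by_contra hcon
      rw [hmemT] at hcon
      obtain ⟨r, hr, hd⟩ := dec_of_not_mem hC hYR hY hg hcon
      exact hfd n hn r hr hd
    intro n
    rcases Nat.eq_zero_or_pos n with h0 | h0
    · subst h0
      exact hT _ (rs f 1) (by simp [rs]) (h1 1 le_rfl)
    · exact h1 n h0

theorem wf_rel {g : Set ℕ} (hg : Gen A κ g) {R : ℕ → ℕ → Prop}
    (hR : {n : ℕ | R n.unpair.1 n.unpair.2} ∈ RR A κ μ g) :
    (∃ f ∈ Rl (NN A κ μ g), ∀ n, R (f (n + 1)) (f n)) ∨ ∃ ρ : ℕ → Ordinal.{0}, (∀ a, ρ a < κ) ∧
      ∀ a b, R a b → ρ a < ρ b := by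
  set T : Set (List ℕ) := {s | ∀ i a b, s[i + 1]? = some a → s[i]? = some b → R a b} with hTdef
  have hT : IsTree T := by
    intro s t hst ht i a b ha hb
    obtain ⟨u, rfl⟩ := hst
    have hi1 : i + 1 < s.length := by
      by_contra hcon
      rw [List.getElem?_eq_none (by omega)] at ha
      cases ha
    exact ht i a b (by rw [List.getElem?_append_left hi1]; exact ha)
      (by rw [List.getElem?_append_left (by omega)]; exact hb)
  have hACA := RR_ACA hC hg
  have hRAD : AD (RR A κ μ g) (fun n : ℕ => R n.unpair.1 n.unpair.2) := AD_nat.2 hR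
  have hTAD : AD (RR A κ μ g) (fun s : List ℕ => s ∈ T) := by
    refine AD.all hACA (P := fun (s : List ℕ) (i : ℕ) =>
      ∀ a b, s[i + 1]? = some a → s[i]? = some b → R a b) ?_
    refine AD.all hACA (P := fun (x : List ℕ × ℕ) (a : ℕ) =>
      ∀ b, x.1[x.2 + 1]? = some a → x.1[x.2]? = some b → R a b) ?_
    refine AD.all hACA (P := fun (x : (List ℕ × ℕ) × ℕ) (b : ℕ) =>
      x.1.1[x.1.2 + 1]? = some x.2 → x.1.1[x.1.2]? = some b → R x.2 b) ?_
    refine AD.imp hACA ?_ (AD.imp hACA ?_ ?_)
    · refine AD.of_prim hACA ?_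
      refine PrimrecRel.comp Primrec.eq ?_ ?_
      · exact Primrec.list_getElem?.comp (Primrec.fst.comp (Primrec.fst.comp Primrec.fst))
          (Primrec.succ.comp (Primrec.snd.comp (Primrec.fst.comp Primrec.fst)))
      · exact Primrec.option_some.comp (Primrec.snd.comp Primrec.fst)
    · refine AD.of_prim hACA ?_
      refine PrimrecRel.comp Primrec.eq ?_ ?_
      · exact Primrec.list_getElem?.comp (Primrec.fst.comp (Primrec.fst.comp Primrec.fst))
          (Primrec.snd.comp (Primrec.fst.comp Primrec.fst))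
      · exact Primrec.option_some.comp Primrec.snd
    · have h := AD.comp hACA hRAD
        (f := fun x : ((List ℕ × ℕ) × ℕ) × ℕ => Nat.pair x.1.2 x.2)
        (Primrec₂.natPair.comp (Primrec.snd.comp Primrec.fst) Primrec.snd)
      simpa using h
  have hTN : Encodable.encode '' T ∈ RR A κ μ g := by
    have : Encodable.encode '' T = {n | ∃ a : List ℕ, Encodable.decode n = some a ∧ a ∈ T} := by
      ext n
      simp only [Set.mem_image, Set.mem_ofPred_eq]
      constructor
      · rintro ⟨s, hs, rfl⟩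
        exact ⟨s, by simp, hs⟩
      · rintro ⟨s, hs, hs'⟩
        refine ⟨s, hs', ?_⟩
        have h1 : Denumerable.ofNat (List ℕ) n = s := by
          have := Denumerable.decode_eq_ofNat (List ℕ) n
          rw [this] at hs
          exact Option.some.inj hs
        rw [← h1, Denumerable.encode_ofNat]
    rw [this]
    exact hTAD
  rcases wf_tree hC hg hT hTN with ⟨f, hf, hfT⟩ | ⟨ρ, hρ1, hρ2⟩
  · refine Or.inl ⟨f, hf, fun n => ?_⟩
    have h := hfT (n + 2) n (f (n + 1)) (f n)
    apply h
    · simp [rs]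
    · simp [rs]
  · right
    have h1T : ∀ b : ℕ, [b] ∈ T := by
      intro b i a c ha hc
      simp at ha
    have hne : ∀ b : ℕ, {x | ∃ σ : List ℕ, σ ++ [b] ∈ T ∧ x = ρ (σ ++ [b])}.Nonempty := by
      intro b
      exact ⟨ρ [b], [], by simpa using h1T b, rfl⟩
    refine ⟨fun b => sInf {x | ∃ σ : List ℕ, σ ++ [b] ∈ T ∧ x = ρ (σ ++ [b])}, fun b => ?_,
      fun a b hab => ?_⟩
    · obtain ⟨σ, _, hx⟩ := csInf_mem (hne b)
      beta_reduce
      rw [hx]
      exact hρ1 _
    · obtain ⟨σ, hσ, hx⟩ := csInf_mem (hne b)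
      beta_reduce
      rw [hx]
      have hσa : σ ++ [b] ++ [a] ∈ T := by
        intro i c d hc hd
        by_cases hi : i + 1 < (σ ++ [b]).length
        · rw [List.getElem?_append_left hi] at hc
          rw [List.getElem?_append_left (by omega)] at hd
          exact hσ i c d hc hd
        · have hi2 : i + 1 = (σ ++ [b]).length := by
            by_contra hcon
            have hlen : (σ ++ [b] ++ [a]).length ≤ i + 1 := by
              rw [List.length_append]
              simp only [List.length_cons, List.length_nil]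
              omega
            rw [List.getElem?_eq_none hlen] at hc
            cases hc
          have hi3 : i = σ.length := by simpa using hi2
          rw [hi2, List.getElem?_append_right (le_refl _)] at hc
          simp only [Nat.sub_self, List.getElem?_cons_zero, Option.some.injEq] at hc
          rw [List.getElem?_append_left (by omega), hi3,
            List.getElem?_append_right (le_refl _)] at hd
          simp only [Nat.sub_self, List.getElem?_cons_zero, Option.some.injEq] at hd
          subst hc; subst hd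
          exact hab
      refine lt_of_le_of_lt (csInf_le' ⟨σ ++ [b], hσa, rfl⟩) (hρ2 _ _ hσa)

end

end Pool.Agent.CC
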