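import Mathlib
import Pool.Agent.Lib.MP_bf67b0_lc.Viol
import Pool.Agent.Lib.MP_bf67b0_lc.GroundReals
import Pool.Agent.Lib.MP_bf67b0_lc.ExtReals
import Pool.Agent.Lib.MP_bf67b0_lc.Codes
import Pool.Agent.Lib.MP_bf67b0_lc.SetTheory2
import Pool.Agent.Lib.MP_bf67b0_lc.Wf2
import Pool.Agent.Lib.MP_bf67b0_lc.Hull
import Pool.Agent.Lib.MP_bf67b0_lc.HullConv
import Pool.Agent.Lib.MP_bf67b0_lc.Elem
import Pool.Agent.Lib.MP_bf67b0_lc.HullDef

/-!
The sets `AA k` without a choice function are boldface `Σ¹₂` in the symmetric extension.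
-/

set_option autoImplicit false

namespace Pool.Agent.CC

open Ordinal Set

/-! ### graphs of reals in an ACA class -/

section
variable {𝓡 : Set (Set ℕ)}

theorem gr_iff {f : ℕ → ℕ} : gr f ∈ 𝓡 ↔ AD 𝓡 (fun x : ℕ × ℕ => f x.1 = x.2) := by
  have h : gr f = {n | ∃ a : ℕ × ℕ, Encodable.decode n = some a ∧ f a.1 = a.2} := by
    ext c
    constructor
    · rintro ⟨n, rfl⟩
      exact ⟨(n, f n), by simp, rfl⟩
    · rintro ⟨⟨n, m⟩, h1, h2⟩
      refine ⟨n, ?_⟩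
      have h3 : Nat.unpair c = (n, m) := by simpa using h1
      have h4 : f n = m := h2
      rw [h4, ← Nat.pair_unpair c, h3]
  rw [h]
  exact Iff.rfl

variable (h𝓡 : ACA 𝓡)
include h𝓡

theorem gr_eval {f : ℕ → ℕ} (hf : gr f ∈ 𝓡) {α : Type} [Primcodable α] {F G : α → ℕ}
    (hF : Primrec F) (hG : Primrec G) : AD 𝓡 (fun a => f (F a) = G a) :=
  AD.comp h𝓡 (gr_iff.1 hf) (hF.pair hG)

theorem gr_pr {x y : ℕ → ℕ} (hx : gr x ∈ 𝓡) (hy : gr y ∈ 𝓡) : gr (pr x y) ∈ 𝓡 := by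
  rw [gr_iff]
  have h2 : Primrec (fun z : ℕ × ℕ => z.1 / 2) :=
    Primrec.nat_div.comp Primrec.fst (Primrec.const 2)
  have he : AD 𝓡 (fun z : ℕ × ℕ => z.1 % 2 = 0) :=
    AD.of_prim h𝓡 (Primrec.eq.comp (Primrec.nat_mod.comp Primrec.fst (Primrec.const 2))
      (Primrec.const 0))
  have h := AD.and h𝓡 (AD.imp h𝓡 he (gr_eval h𝓡 hx h2 Primrec.snd))
    (AD.imp h𝓡 (AD.not h𝓡 he) (gr_eval h𝓡 hy h2 Primrec.snd))
  refine cast ?_ h
  congr 1
  ext ⟨n, m⟩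
  simp only [pr]
  by_cases hn : n % 2 = 0 <;> simp [hn]

theorem gr_cons {f : ℕ → ℕ} (hf : gr f ∈ 𝓡) (c : ℕ) :
    gr (fun n => if n = 0 then c else f (n - 1)) ∈ 𝓡 := by
  rw [gr_iff]
  have h2 : Primrec (fun z : ℕ × ℕ => z.1 - 1) :=
    Primrec.nat_sub.comp Primrec.fst (Primrec.const 1)
  have he : AD 𝓡 (fun z : ℕ × ℕ => z.1 = 0) :=
    AD.of_prim h𝓡 (Primrec.eq.comp Primrec.fst (Primrec.const 0))
  have hc : AD 𝓡 (fun z : ℕ × ℕ => c = z.2) :=
    AD.of_prim h𝓡 (Primrec.eq.comp (Primrec.const c) Primrec.snd)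
  have h := AD.and h𝓡 (AD.imp h𝓡 he hc) (AD.imp h𝓡 (AD.not h𝓡 he) (gr_eval h𝓡 hf h2 Primrec.snd))
  refine cast ?_ h
  congr 1
  ext ⟨n, m⟩
  by_cases hn : n = 0 <;> simp [hn]

theorem gr_const (c : ℕ) : gr (fun _ => c) ∈ 𝓡 := by
  rw [gr_iff]
  exact AD.of_prim h𝓡 (Primrec.eq.comp (Primrec.const c) Primrec.snd)

open Classical in
theorem gr_ind {S : Set ℕ} (hS : S ∈ 𝓡) : gr (fun n => if n ∈ S then 1 else 0) ∈ 𝓡 := by
  rw [gr_iff]
  have he : AD 𝓡 (fun z : ℕ × ℕ => z.1 ∈ S) := AD.comp h𝓡 (AD_nat.2 hS) Primrec.fst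
  have h1 : AD 𝓡 (fun z : ℕ × ℕ => 1 = z.2) :=
    AD.of_prim h𝓡 (Primrec.eq.comp (Primrec.const 1) Primrec.snd)
  have h0 : AD 𝓡 (fun z : ℕ × ℕ => 0 = z.2) :=
    AD.of_prim h𝓡 (Primrec.eq.comp (Primrec.const 0) Primrec.snd)
  have h := AD.and h𝓡 (AD.imp h𝓡 he h1) (AD.imp h𝓡 (AD.not h𝓡 he) h0)
  refine cast ?_ h
  congr 1
  ext ⟨n, m⟩
  by_cases hn : n ∈ S <;> simp [hn]

omit h𝓡 in
theorem mem_of_decode {n : ℕ} {s : List ℕ} :
    (Encodable.decode n : Option (List ℕ)) = some s ↔ n = Encodable.encode s := by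
  constructor
  · intro h
    have h1 : (Encodable.decode n : Option (List ℕ)) = some (Denumerable.ofNat (List ℕ) n) :=
      Denumerable.decode_eq_ofNat _ n
    rw [h1] at h
    have h2 : Denumerable.ofNat (List ℕ) n = s := Option.some.inj h
    rw [← h2, Denumerable.encode_ofNat]
  · rintro rfl
    exact Encodable.encodek s

omit h𝓡 in
theorem AD_tree {T : Set (List ℕ)} :
    AD 𝓡 (fun s : List ℕ => s ∈ T) ↔ Encodable.encode '' T ∈ 𝓡 := by
  have h : Encodable.encode '' T =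
      {n | ∃ a : List ℕ, Encodable.decode n = some a ∧ a ∈ T} := by
    ext n
    constructor
    · rintro ⟨s, hs, rfl⟩
      exact ⟨s, Encodable.encodek s, hs⟩
    · rintro ⟨s, h1, h2⟩
      exact ⟨s, h2, (mem_of_decode.1 h1).symm⟩
  rw [h]
  exact Iff.rfl

end

/-! ### flips -/

/-- exchange of `0` and `1` -/
def fl (b : ℕ) : ℕ := if b = 0 then 1 else if b = 1 then 0 else b

theorem fl_prim : Primrec fl :=
  Primrec.ite (Primrec.eq.comp Primrec.id (Primrec.const 0)) (Primrec.const 1)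
    (Primrec.ite (Primrec.eq.comp Primrec.id (Primrec.const 1)) (Primrec.const 0) Primrec.id)

theorem fl_le {b : ℕ} : fl b ≤ 1 ↔ b ≤ 1 := by
  unfold fl; split_ifs <;> omega

theorem fl_eq_one {b : ℕ} (h : b ≤ 1) : fl b = 1 ↔ ¬ b = 1 := by
  interval_cases b <;> simp [fl]

open Classical in
/-- flip of a real at the positions in `C` -/
noncomputable def flR (C : Set ℕ) (x : ℕ → ℕ) (n : ℕ) : ℕ := if n ∈ C then fl (x n) else x n

open Classical in
/-- flip of a sequence at the positions `4 n` with `n` in `C` -/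
noncomputable def flL (C : Set ℕ) (s : List ℕ) : List ℕ :=
  (List.range s.length).map (fun i => if i % 4 = 0 ∧ i / 4 ∈ C then fl (s.getD i 0) else s.getD i 0)

theorem flR_le {C : Set ℕ} {x : ℕ → ℕ} {n : ℕ} : flR C x n ≤ 1 ↔ x n ≤ 1 := by
  unfold flR; split_ifs
  · exact fl_le
  · exact Iff.rfl

theorem flR_eq_one {C : Set ℕ} {x : ℕ → ℕ} {n : ℕ} (h : x n ≤ 1) :
    flR C x n = 1 ↔ (n ∈ C ↔ ¬ x n = 1) := by
  unfold flR; split_ifs with h1
  · rw [fl_eq_one h]; simp [h1]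
  · simp [h1]

theorem rs_getD (x : ℕ → ℕ) {n i : ℕ} (h : i < n) : (rs x n).getD i 0 = x i := by
  simp [rs, List.getD, List.getElem?_range h]

theorem flL_rs (C : Set ℕ) (x u z : ℕ → ℕ) (n : ℕ) :
    flL C (rs (pr (pr x u) z) n) = rs (pr (pr (flR C x) u) z) n := by
  have hl : (rs (pr (pr x u) z) n).length = n := by simp [rs]
  unfold flL
  rw [hl]
  conv_rhs => rw [rs]
  refine List.map_congr_left fun i hi => ?_
  rw [List.mem_range] at hi
  rw [rs_getD _ hi]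
  unfold pr
  by_cases h2 : i % 2 = 0
  · by_cases h4 : i / 2 % 2 = 0
    · have h5 : i % 4 = 0 := by omega
      have h6 : i / 2 / 2 = i / 4 := by omega
      simp only [h2, h4, flR, if_true]
      rw [h6]
      by_cases hc : i / 4 ∈ C <;> simp [h5, hc]
    · have h5 : ¬ i % 4 = 0 := by omega
      simp only [h2, h4, h5, if_true, if_false, false_and]
  · have h5 : ¬ i % 4 = 0 := by omega
    simp only [h2, h5, if_false, false_and]

theorem flL_prefix (C : Set ℕ) {s t : List ℕ} (h : s <+: t) : flL C s <+: flL C t := by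
  obtain ⟨r, rfl⟩ := h
  unfold flL
  rw [List.length_append, List.range_add, List.map_append]
  refine ⟨_, congrArg₂ _ (List.map_congr_left fun i hi => ?_) rfl⟩
  rw [List.mem_range] at hi
  have h1 : (s ++ r).getD i 0 = s.getD i 0 := by
    simp [List.getD, List.getElem?_append_left hi]
  rw [h1]

theorem flL_eq_iff (C : Set ℕ) (s t : List ℕ) : flL C s = t ↔
    s.length = t.length ∧ ∀ i, i < s.length → ((i % 4 = 0 ∧ i / 4 ∈ C) → t.getD i 0 = fl (s.getD i 0)) ∧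
      (¬ (i % 4 = 0 ∧ i / 4 ∈ C) → t.getD i 0 = s.getD i 0) := by
  classical
  constructor
  · rintro rfl
    refine ⟨by simp [flL], fun i hi => ?_⟩
    have h1 : (flL C s).getD i 0 =
        if i % 4 = 0 ∧ i / 4 ∈ C then fl (s.getD i 0) else s.getD i 0 := by
      simp [flL, List.getD, List.getElem?_range hi]
    rw [h1]
    constructor
    · intro h; rw [if_pos h]
    · intro h; rw [if_neg h]
  · rintro ⟨h1, h2⟩
    refine List.ext_getElem (by simp [flL, h1]) fun i hi hi' => ?_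
    have hi2 : i < s.length := by rw [h1]; exact hi'
    have h3 : t.getD i 0 = t[i] := by simp [List.getD, hi']
    have h4 : (flL C s)[i] = if i % 4 = 0 ∧ i / 4 ∈ C then fl (s.getD i 0) else s.getD i 0 := by
      simp [flL]
    rw [h4, ← h3]
    split_ifs with h5
    · rw [(h2 i hi2).1 h5]
    · rw [(h2 i hi2).2 h5]

theorem AD_flL {𝓡 : Set (Set ℕ)} (h𝓡 : ACA 𝓡) {C : Set ℕ} (hC : C ∈ 𝓡) :
    AD 𝓡 (fun x : List ℕ × List ℕ => flL C x.1 = x.2) := by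
  have h4 : Primrec (fun y : (List ℕ × List ℕ) × ℕ => y.2 / 4) :=
    Primrec.nat_div.comp Primrec.snd (Primrec.const 4)
  have h4' : Primrec (fun y : (List ℕ × List ℕ) × ℕ => y.2 % 4) :=
    Primrec.nat_mod.comp Primrec.snd (Primrec.const 4)
  have hs : Primrec (fun y : (List ℕ × List ℕ) × ℕ => y.1.1.getD y.2 0) :=
    (Primrec.list_getD 0).comp (Primrec.fst.comp Primrec.fst) Primrec.snd
  have ht : Primrec (fun y : (List ℕ × List ℕ) × ℕ => y.1.2.getD y.2 0) :=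
    (Primrec.list_getD 0).comp (Primrec.snd.comp Primrec.fst) Primrec.snd
  have hc : AD 𝓡 (fun y : (List ℕ × List ℕ) × ℕ => y.2 % 4 = 0 ∧ y.2 / 4 ∈ C) :=
    AD.and h𝓡 (AD.of_prim h𝓡 (Primrec.eq.comp h4' (Primrec.const 0)))
      (AD.comp h𝓡 (AD_nat.2 hC) h4)
  have h1 : AD 𝓡 (fun x : List ℕ × List ℕ => x.1.length = x.2.length) :=
    AD.of_prim h𝓡 (Primrec.eq.comp (Primrec.list_length.comp Primrec.fst)
      (Primrec.list_length.comp Primrec.snd))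
  have h2 : AD 𝓡 (fun x : List ℕ × List ℕ => ∀ i, i < x.1.length →
      ((i % 4 = 0 ∧ i / 4 ∈ C) → x.2.getD i 0 = fl (x.1.getD i 0)) ∧
      (¬ (i % 4 = 0 ∧ i / 4 ∈ C) → x.2.getD i 0 = x.1.getD i 0)) := by
    refine AD.all h𝓡 ?_
    refine AD.imp h𝓡 (AD.of_prim h𝓡 (Primrec.nat_lt.comp Primrec.snd
      (Primrec.list_length.comp (Primrec.fst.comp Primrec.fst)))) ?_
    exact AD.and h𝓡 (AD.imp h𝓡 hc (AD.of_prim h𝓡 (Primrec.eq.comp ht (fl_prim.comp hs))))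
      (AD.imp h𝓡 (AD.not h𝓡 hc) (AD.of_prim h𝓡 (Primrec.eq.comp ht hs)))
  refine cast ?_ (AD.and h𝓡 h1 h2)
  congr 1
  ext ⟨s, t⟩
  exact (flL_eq_iff C s t).symm

theorem flL_mem {𝓡 : Set (Set ℕ)} (h𝓡 : ACA 𝓡) {C : Set ℕ} (hC : C ∈ 𝓡) {T : Set (List ℕ)}
    (hT : Encodable.encode '' T ∈ 𝓡) : Encodable.encode '' {s | flL C s ∈ T} ∈ 𝓡 := by
  rw [← AD_tree] at hT ⊢
  have h := AD.compfn h𝓡 (P := fun (_ : List ℕ) t => t ∈ T)
    (AD.comp h𝓡 hT Primrec.snd) (AD_flL h𝓡 hC)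
  exact h

/-! ### the sets without a choice function -/

/-- the column `k` of a real -/
def col (k : ℕ) (g : Set ℕ) : Set ℕ := {n | Nat.pair k n ∈ g}

theorem AA_iff {A : ℕ → List ℕ → Prop} {κ : Ordinal.{0}} (h0 : ACA (R0 A κ)) (g : Set ℕ) (k : ℕ)
    (x : ℕ → ℕ) : x ∈ AA A κ g k ↔
      (∀ n, flR (col k g) x n ≤ 1) ∧ {n | flR (col k g) x n = 1} ∈ R0 A κ := by
  have hp : Primrec (fun n : ℕ => Nat.pair k n) :=
    Primrec₂.natPair.comp (Primrec.const k) Primrec.id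
  have hu : Primrec (fun n : ℕ => n.unpair.2) := Primrec.snd.comp Primrec.unpair
  constructor
  · rintro ⟨h1, w, hw, h2⟩
    refine ⟨fun n => flR_le.2 (h1 n), ?_⟩
    have h3 : {n | flR (col k g) x n = 1} = {n | Nat.pair k n ∈ w} := by
      ext n
      have h4 := h2 n
      rw [Set.mem_symmDiff] at h4
      simp only [Set.mem_ofPred_eq, flR_eq_one (h1 n), col]
      tauto
    rw [h3]
    exact h0.pre w hw _ (Primrec.nat_iff.1 hp)
  · rintro ⟨h1, h2⟩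
    have h1' : ∀ n, x n ≤ 1 := fun n => flR_le.1 (h1 n)
    refine ⟨h1', {i | i.unpair.2 ∈ {n | flR (col k g) x n = 1}},
      h0.pre _ h2 _ (Primrec.nat_iff.1 hu), fun n => ?_⟩
    rw [Set.mem_symmDiff]
    simp only [Set.mem_ofPred_eq, Nat.unpair_pair, flR_eq_one (h1' n), col]
    tauto

theorem col_mem {𝓡 : Set (Set ℕ)} (h𝓡 : ACA 𝓡) {k : ℕ} {g : Set ℕ} (h : cut (k + 1) g ∈ 𝓡) :
    col k g ∈ 𝓡 := by
  have hp : Primrec (fun n : ℕ => Nat.pair k n) :=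
    Primrec₂.natPair.comp (Primrec.const k) Primrec.id
  have h1 : col k g = {n | Nat.pair k n ∈ cut (k + 1) g} := by
    ext n; simp [col, cut]
  rw [h1]
  exact h𝓡.pre _ h _ (Primrec.nat_iff.1 hp)

theorem gr_AA {A : ℕ → List ℕ → Prop} {κ : Ordinal.{0}} {𝓡 : Set (Set ℕ)} (h𝓡 : ACA 𝓡)
    (h0 : R0 A κ ⊆ 𝓡) {g : Set ℕ} {k : ℕ} (hc : col k g ∈ 𝓡) {x : ℕ → ℕ}
    (hx : x ∈ AA A κ g k) : gr x ∈ 𝓡 := by
  classical
  obtain ⟨h1, w, hw, h2⟩ := hx
  have hp : Primrec (fun n : ℕ => Nat.pair k n) :=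
    Primrec₂.natPair.comp (Primrec.const k) Primrec.id
  have h3 : AD 𝓡 (fun n : ℕ => ¬ (n ∈ col k g ↔ Nat.pair k n ∈ w)) :=
    AD.not h𝓡 (AD.iff h𝓡 (AD_nat.2 hc) (AD.comp h𝓡 (AD_nat.2 (h0 hw)) hp))
  have h4 : x = fun n => if n ∈ {n : ℕ | ¬ (n ∈ col k g ↔ Nat.pair k n ∈ w)} then 1 else 0 := by
    funext n
    have h5 := h2 n
    have h6 := h1 n
    rw [Set.mem_symmDiff] at h5
    by_cases h7 : x n = 1
    · rw [if_pos, h7]
      have := h5.1 h7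
      simp only [Set.mem_ofPred_eq, col]
      tauto
    · rw [if_neg]
      · omega
      · simp only [Set.mem_ofPred_eq, col]
        tauto
  rw [h4]
  convert gr_ind h𝓡 (AD_nat.1 h3)

/-- Q14b -/
theorem AA_Sigma {w : ℕ → Fm → List ℕ → ℕ} (hw : IsWit w) {J : Fm → List ℕ → ℕ} (hJ : IsTra J)
    {e : ℕ} (he : fm e = .eq 0 1) {𝓕 : ℕ → Set ℕ} {A : ℕ → List ℕ → Prop} {κ μ : Ordinal.{0}}
    (hC : Ctx 𝓕 A κ μ)
    (hF : ∃ i, 𝓕 i = {n | ∃ φ a, n = Nat.pair (Nat.pair (eF φ) (Encodable.encode a)) (J φ a)})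
    {T : Set (List ℕ)} (hT : IsTree T) (hTR : Encodable.encode '' T ∈ R0 A κ)
    (hT1 : ∀ x u z : ℕ → ℕ, z 0 = 0 → ((∀ n, rs (pr (pr x u) z) n ∈ T) ↔
          ∀ n, SU u (.lt 0 1) [z (n + 2), z (n + 1)]))
    (hT2 : ∀ x u : ℕ → ℕ, (∀ z : ℕ → ℕ, 0 < z 0 → ¬ ∀ n, rs (pr (pr x u) z) n ∈ T) ↔
          ¬ Viol w e A x u)
    (hT3 : ∀ x u z z' : ℕ → ℕ, 0 < z 0 → z 0 = z' 0 → (∀ n, rs (pr (pr x u) z) n ∈ T) →
          ∀ n, rs (pr (pr x u) z') n ∈ T)
    {g : Set ℕ} (hg : Gen A κ g) (k : ℕ) : AA A κ g k ∈ SigmaC (NN A κ μ g) 1 := by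
  classical
  have a0 : ACA (R0 A κ) := R0_ACA hC
  have aR : ACA (RR A κ μ g) := RR_ACA hC hg
  have h0R : R0 A κ ⊆ RR A κ μ g := fun S hS =>
    (mem_RR_iff hC hg S).2 ⟨0, R0_sub_Rm hC hg 0 hS⟩
  have hcol : col k g ∈ RR A κ μ g :=
    col_mem aR ((mem_RR_iff hC hg _).2 ⟨k + 1, cut_mem hC hg (k + 1)⟩)
  have hrz : ∀ x : ℕ → ℕ, x ∈ Rl (NN A κ μ g) ↔ gr x ∈ RR A κ μ g := fun x => rz_mem_iff hC hg x
  set T' : Set (List ℕ) := {s | flL (col k g) s ∈ T} with hT'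
  have hT'R : Encodable.encode '' T' ∈ RR A κ μ g := flL_mem aR hcol (h0R hTR)
  have hT'tree : IsTree T' := fun s t hst ht => hT _ _ (flL_prefix _ hst) ht
  have hrs : ∀ (x u z : ℕ → ℕ) (n : ℕ), rs (pr (pr x u) z) n ∈ T' ↔
      rs (pr (pr (flR (col k g) x) u) z) n ∈ T := by
    intro x u z n
    rw [hT', Set.mem_ofPred_eq, flL_rs]
  refine ⟨_, ⟨_, ⟨T', hT'tree, hT'R, rfl⟩, rfl⟩, ?_⟩
  ext x
  rw [AA_iff a0]
  constructor
  · rintro ⟨h1, h2⟩
    have hxA : x ∈ AA A κ g k := (AA_iff a0 g k x).2 ⟨h1, h2⟩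
    have hxN : gr x ∈ RR A κ μ g := gr_AA aR h0R hcol hxA
    obtain ⟨ξ, hξ, hξx⟩ := h2
    -- a level satisfying all the valid sentences
    have hω : ω < κ := lt_of_le_of_lt hC.grd.om_le hC.grd.mu_lt
    obtain ⟨m, hm, hξm, hmS⟩ := Good.theta hC.good (j := 11)
      (fun l => by
        rw [hC.ar.sig]
        constructor
        · rintro ⟨i, h3, h4, h5⟩; exact ⟨i, h3, h5, h4⟩
        · rintro ⟨i, h3, h4, h5⟩; exact ⟨i, h3, h5, h4⟩) (max ξ ω) (max_lt hξ hω)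
    have hξm' : ξ < m := lt_of_le_of_lt (le_max_left _ _) hξm
    have hωm : ω ≤ m := (lt_of_le_of_lt (le_max_right _ _) hξm).le
    have hcl := clauses_true hw A hξm' hmS
    have hU := STrue_R0 hC hJ hF hm hξm'
    set U : Set ℕ := {n | ∃ φ a, n = Nat.pair (eF φ) (Encodable.encode a) ∧ STrue A m ξ φ a}
      with hUdef
    set u : ℕ → ℕ := fun n => if n ∈ U then 1 else 0 with hu
    have hSU : SU u = STrue A m ξ := by
      funext φ a
      apply propext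
      have h3 : SU u φ a ↔ Nat.pair (eF φ) (Encodable.encode a) ∈ U := by
        simp only [SU, hu]
        by_cases h4 : Nat.pair (eF φ) (Encodable.encode a) ∈ U <;> simp [h4]
      rw [h3]
      constructor
      · rintro ⟨ψ, b, h4, h5⟩
        rw [Nat.pair_eq_pair] at h4
        have h6 : φ = ψ := (@Encodable.encode_injective Fm (Encodable.ofCountable Fm)) h4.1
        have h7 : a = b := Encodable.encode_injective h4.2
        rw [h6, h7]
        exact h5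
      · intro h4
        exact ⟨φ, a, rfl, h4⟩
    have huN : gr u ∈ RR A κ μ g := gr_ind aR (h0R hU)
    refine ⟨(hrz x).2 hxN, u, (hrz u).2 huN, (hrz _).2 (gr_pr aR hxN huN), ?_⟩
    rintro ⟨z, hz, -, hzT⟩
    have hzT' : ∀ n, rs (pr (pr (flR (col k g) x) u) z) n ∈ T := fun n => (hrs x u z n).1 (hzT n)
    rcases Nat.eq_zero_or_pos (z 0) with hz0 | hz0
    · have h3 := (hT1 _ u z hz0).1 hzT'
      rw [hSU] at h3
      have h4 : ∀ n, hull A m ξ (z (n + 2)) < hull A m ξ (z (n + 1)) := by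
        intro n
        exact h3 n
      have h5 : ∀ n, hull A m ξ (z (n + 1 + 1)) < hull A m ξ (z (n + 1)) := h4
      obtain ⟨n, hn⟩ := WellFounded.not_rel_apply_succ (r := ((· < ·) : Ordinal.{0} → Ordinal.{0} → Prop))
        (fun n => hull A m ξ (z (n + 1)))
      exact hn (h5 n)
    · refine (hT2 (flR (col k g) x) u).2 ?_ z hz0 hzT'
      rw [Viol, not_not]
      rw [hSU]
      refine ⟨hcl, fun n => ⟨h1 n, ?_⟩⟩
      rw [link_true A hξm' hωm he n, hξx]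
      exact Iff.rfl
  · rintro ⟨hxN, u, huN, -, hno⟩
    rw [hrz] at hxN huN
    have hno' : ∀ z : ℕ → ℕ, gr z ∈ RR A κ μ g →
        ¬ ∀ n, rs (pr (pr (flR (col k g) x) u) z) n ∈ T := by
      intro z hz hzT
      exact hno ⟨z, (hrz z).2 hz, (hrz _).2 (gr_pr aR (gr_pr aR hxN huN) hz),
        fun n => (hrs x u z n).2 (hzT n)⟩
    have hV : ¬ Viol w e A (flR (col k g) x) u := by
      rw [← hT2]
      intro z hz0 hzT
      exact hno' (fun _ => z 0) (gr_const aR _) (hT3 _ u z _ hz0 rfl hzT)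
    rw [Viol, not_not] at hV
    obtain ⟨hcl, hlink⟩ := hV
    refine ⟨fun n => (hlink n).1, ?_⟩
    have hR : {n : ℕ | SU u (.lt 0 1) [n.unpair.1, n.unpair.2]} ∈ RR A κ μ g := by
      rw [← AD_nat]
      refine gr_eval aR huN (F := fun n : ℕ => Nat.pair (eF (.lt 0 1))
        (Encodable.encode [n.unpair.1, n.unpair.2])) (G := fun _ => 1) ?_ (Primrec.const 1)
      refine Primrec₂.natPair.comp (Primrec.const _) (Primrec.encode.comp ?_)
      exact Primrec.list_cons.comp (Primrec.fst.comp Primrec.unpair)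
        (Primrec.list_cons.comp (Primrec.snd.comp Primrec.unpair) (Primrec.const []))
    rcases wf_rel hC hg (R := fun a b => SU u (.lt 0 1) [a, b]) hR with ⟨f, hf, hfd⟩ | ⟨ρ, hρ, hρd⟩
    · exfalso
      refine hno' (fun n => if n = 0 then 0 else f (n - 1)) (gr_cons aR ((hrz f).1 hf) 0) ?_
      refine (hT1 _ u _ (by simp)).2 fun n => ?_
      exact hfd n
    · obtain ⟨ξ, hξ, hξ'⟩ := link_conv (SU u) hcl ρ hρ hρd e
      refine ⟨ξ, hξ, ?_⟩
      ext n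
      rw [← hξ' n]
      exact (hlink n).2.symm

end Pool.Agent.CC
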