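import Mathlib
import Pool.Agent.Lib.MP_bf67b0_lc.Viol
import Pool.Agent.Lib.MP_bf67b0_lc.GroundReals

/-!
Q14a: the tree of violations of the clauses of a satisfaction class.
-/

set_option autoImplicit false

namespace Pool.Agent.CC

open Ordinal Set

/-! ### finitely supported predicates on reals -/

/-- the predicate depends only on finitely many values -/
def FS (P : (ℕ → ℕ) → Prop) : Prop :=
  ∃ N, ∀ w w' : ℕ → ℕ, (∀ k < N, w k = w' k) → (P w ↔ P w')

theorem FS.const (p : Prop) : FS (fun _ => p) := ⟨0, fun _ _ _ => Iff.rfl⟩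

theorem FS.atom (k c : ℕ) : FS (fun w => w k = c) :=
  ⟨k + 1, fun w w' h => by
    show w k = c ↔ w' k = c
    rw [h k (Nat.lt_succ_self k)]⟩

theorem FS.le (k c : ℕ) : FS (fun w => w k ≤ c) :=
  ⟨k + 1, fun w w' h => by
    show w k ≤ c ↔ w' k ≤ c
    rw [h k (Nat.lt_succ_self k)]⟩

theorem FS.not {P : (ℕ → ℕ) → Prop} (hP : FS P) : FS (fun w => ¬ P w) := by
  obtain ⟨N, h⟩ := hP
  exact ⟨N, fun w w' hw => not_congr (h w w' hw)⟩

theorem FS.imp {P Q : (ℕ → ℕ) → Prop} (hP : FS P) (hQ : FS Q) : FS (fun w => P w → Q w) := by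
  obtain ⟨N, h⟩ := hP
  obtain ⟨M, h'⟩ := hQ
  exact ⟨max N M, fun w w' hw => imp_congr
    (h w w' fun k hk => hw k (lt_of_lt_of_le hk (le_max_left _ _)))
    (h' w w' fun k hk => hw k (lt_of_lt_of_le hk (le_max_right _ _)))⟩

theorem FS.and {P Q : (ℕ → ℕ) → Prop} (hP : FS P) (hQ : FS Q) : FS (fun w => P w ∧ Q w) := by
  obtain ⟨N, h⟩ := hP
  obtain ⟨M, h'⟩ := hQ
  exact ⟨max N M, fun w w' hw => and_congr
    (h w w' fun k hk => hw k (lt_of_lt_of_le hk (le_max_left _ _)))
    (h' w w' fun k hk => hw k (lt_of_lt_of_le hk (le_max_right _ _)))⟩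

theorem FS.iff {P Q : (ℕ → ℕ) → Prop} (hP : FS P) (hQ : FS Q) : FS (fun w => (P w ↔ Q w)) := by
  obtain ⟨N, h⟩ := hP
  obtain ⟨M, h'⟩ := hQ
  exact ⟨max N M, fun w w' hw => iff_congr
    (h w w' fun k hk => hw k (lt_of_lt_of_le hk (le_max_left _ _)))
    (h' w w' fun k hk => hw k (lt_of_lt_of_le hk (le_max_right _ _)))⟩

theorem FS.ball {P : ℕ → (ℕ → ℕ) → Prop} (n : ℕ) (hP : ∀ k, FS (P k)) :
    FS (fun w => ∀ k < n, P k w) := by
  choose N h using hP
  refine ⟨(Finset.range n).sup N, fun w w' hw => forall_congr' fun k => ?_⟩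
  by_cases hk : k < n
  · refine imp_congr Iff.rfl (h k w w' fun i hi => hw i (lt_of_lt_of_le hi ?_))
    exact Finset.le_sup (f := N) (Finset.mem_range.2 hk)
  · exact ⟨fun _ h => absurd h hk, fun _ h => absurd h hk⟩

/-! ### countable conjunctions of finitely supported predicates -/

/-- countable conjunctions of finitely supported predicates, each of which may depend on one
truth value of the relations `A` -/
def Cl (V : (ℕ → List ℕ → Prop) → (ℕ → ℕ) → Prop) : Prop :=
  ∃ (P : ℕ → Prop → (ℕ → ℕ) → Prop) (q : ℕ → ℕ × List ℕ), (∀ d b, FS (P d b)) ∧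
    ∀ A w, V A w ↔ ∀ d, P d (A (q d).1 (q d).2) w

theorem Cl.lit {V : Prop → (ℕ → ℕ) → Prop} (hV : ∀ b, FS (V b)) (j : ℕ) (l : List ℕ) :
    Cl (fun A w => V (A j l) w) :=
  ⟨fun _ b => V b, fun _ => (j, l), fun _ b => hV b, fun _ _ => ⟨fun h _ => h, fun h => h 0⟩⟩

theorem Cl.fs {V : (ℕ → ℕ) → Prop} (hV : FS V) : Cl (fun _ w => V w) :=
  Cl.lit (V := fun _ => V) (fun _ => hV) 0 []

theorem Cl.all {ι : Sort*} [Countable ι] {V : ι → (ℕ → List ℕ → Prop) → (ℕ → ℕ) → Prop}
    (hV : ∀ i, Cl (V i)) : Cl (fun A w => ∀ i, V i A w) := by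
  rcases isEmpty_or_nonempty ι with hι | hι
  · have : (fun (A : ℕ → List ℕ → Prop) (w : ℕ → ℕ) => ∀ i, V i A w) = fun _ _ => True := by
      funext A w
      exact eq_true fun i => (hι.false i).elim
    rw [this]
    exact Cl.fs (FS.const True)
  · choose P q hP h using hV
    obtain ⟨f, hf⟩ := exists_surjective_nat ι
    refine ⟨fun d => P (f d.unpair.1) d.unpair.2, fun d => q (f d.unpair.1) d.unpair.2,
      fun d b => hP _ _ b, fun A w => ⟨fun hw d => (h _ A w).1 (hw _) _, fun hw i => ?_⟩⟩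
    obtain ⟨n, rfl⟩ := hf i
    refine (h _ A w).2 fun d => ?_
    have := hw (Nat.pair n d)
    simpa using this

theorem Cl.and {V V' : (ℕ → List ℕ → Prop) → (ℕ → ℕ) → Prop} (h : Cl V) (h' : Cl V') :
    Cl (fun A w => V A w ∧ V' A w) := by
  have := Cl.all (ι := Bool) (V := fun b => if b then V else V') (fun b => by cases b <;> simpa)
  refine (congrArg Cl ?_).mp this
  funext A w
  simp [and_comm]

/-! ### the clauses -/

theorem fs_SU (φ : Fm) (a : List ℕ) : FS (fun w => SU (fun n => w (2 * n + 1)) φ a) :=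
  FS.atom _ _

theorem clauses_iff {w : ℕ → Fm → List ℕ → ℕ} {A : ℕ → List ℕ → Prop}
    {S : Fm → List ℕ → Prop} : Clauses w A S ↔
    ((∀ a, ¬ S .bot a) ∧ (∀ φ ψ a, S (.imp φ ψ) a ↔ (S φ a → S ψ a)) ∧
    (∀ i φ a b, S (.all i φ) a → S φ (upd a i b)) ∧
    (∀ i φ a, ¬ S (.all i φ) a → ¬ S φ (upd a i (w i φ a))) ∧
    (∀ φ, φ ∈ Sig → ∀ a, S φ a) ∧
    (∀ φ a b, (∀ k < φ.bnd, S (.eq 0 1) [a.getD k 0, b.getD k 0]) → S φ a → S φ b) ∧
    (∀ i j a, S (.eq i j) a ↔ S (.eq 0 1) [a.getD i 0, a.getD j 0]) ∧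
    (∀ R xs a, S (.rel R xs) a ↔
      S (.rel R (List.range xs.length)) (xs.map (fun k => a.getD k 0))) ∧
    (∀ j l a, l.length = a.length →
      (∀ i < l.length, S (.rel (.nat (l.getD i 0)) [0]) [a.getD i 0]) →
        (S (.rel (.ar j) (List.range l.length)) a ↔ A j l))) :=
  ⟨fun h => ⟨h.bot, h.imp, h.all1, h.all2, h.sig, h.cong, h.eqc, h.relc, h.lit⟩,
    fun ⟨h1, h2, h3, h4, h5, h6, h7, h8, h9⟩ => ⟨h1, h2, h3, h4, h5, h6, h7, h8, h9⟩⟩

theorem cl_clauses (wt : ℕ → Fm → List ℕ → ℕ) (e : ℕ) :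
    Cl (fun A w => Clauses wt A (SU fun n => w (2 * n + 1)) ∧
      Link (SU fun n => w (2 * n + 1)) e (fun n => w (2 * n))) := by
  simp only [clauses_iff, Link]
  refine Cl.and (Cl.and ?_ (Cl.and ?_ (Cl.and ?_ (Cl.and ?_ (Cl.and ?_ (Cl.and ?_ (Cl.and ?_
    (Cl.and ?_ ?_)))))))) ?_
  · exact Cl.all fun a => Cl.fs (fs_SU _ _).not
  · exact Cl.all fun φ => Cl.all fun ψ => Cl.all fun a => Cl.fs
      ((fs_SU _ _).iff ((fs_SU _ _).imp (fs_SU _ _)))
  · exact Cl.all fun i => Cl.all fun φ => Cl.all fun a => Cl.all fun b => Cl.fs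
      ((fs_SU _ _).imp (fs_SU _ _))
  · exact Cl.all fun i => Cl.all fun φ => Cl.all fun a => Cl.fs
      ((fs_SU _ _).not.imp (fs_SU _ _).not)
  · exact Cl.all fun φ => Cl.all fun _ => Cl.all fun a => Cl.fs (fs_SU _ _)
  · exact Cl.all fun φ => Cl.all fun a => Cl.all fun b => Cl.fs
      ((FS.ball _ fun k => fs_SU _ _).imp ((fs_SU _ _).imp (fs_SU _ _)))
  · exact Cl.all fun i => Cl.all fun j => Cl.all fun a => Cl.fs ((fs_SU _ _).iff (fs_SU _ _))
  · exact Cl.all fun R => Cl.all fun xs => Cl.all fun a => Cl.fs ((fs_SU _ _).iff (fs_SU _ _))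
  · exact Cl.all fun j => Cl.all fun l => Cl.all fun a => Cl.all fun _ =>
      Cl.lit (V := fun b w => (∀ i < l.length, SU (fun n => w (2 * n + 1))
        (.rel (.nat (l.getD i 0)) [0]) [a.getD i 0]) →
          (SU (fun n => w (2 * n + 1)) (.rel (.ar j) (List.range l.length)) a ↔ b))
        (fun b => (FS.ball _ fun k => fs_SU _ _).imp ((fs_SU _ _).iff (FS.const b))) j l
  · exact Cl.all fun n => Cl.fs ((FS.le _ _).and ((FS.atom _ _).iff (fs_SU _ _)))

/-! ### the tree -/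


theorem ACA.union {𝓡 : Set (Set ℕ)} (h : ACA 𝓡) {S T : Set ℕ} (hS : S ∈ 𝓡) (hT : T ∈ 𝓡) :
    S ∪ T ∈ 𝓡 := by
  have := h.compl _ (h.inter _ (h.compl _ hS) _ (h.compl _ hT))
  rwa [Set.compl_inter, compl_compl, compl_compl] at this

/-- the initial part of the condition on a node, for which there is nothing to violate -/
def Node0 (s : List ℕ) : Prop :=
  s.length ≤ 1 ∨ (s.getD 1 0 = 0 ∧ ∀ n k, k = Nat.pair (eF (.lt 0 1))
    (Encodable.encode [s.getD (2 * (n + 2) + 1) 0, s.getD (2 * (n + 1) + 1) 0]) →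
      2 * (n + 2) + 1 < s.length → 2 * (2 * k + 1) < s.length → s.getD (2 * (2 * k + 1)) 0 = 1)

/-- the violation `d` is still possible -/
def NodeS (N : ℕ) (P : (ℕ → ℕ) → Prop) (d : ℕ) (s : List ℕ) : Prop :=
  1 < s.length ∧ s.getD 1 0 = d + 1 ∧ (N < s.length → P (fun k => s.getD (2 * k) 0))

theorem getD_of_prefix {s t : List ℕ} (h : s <+: t) {i : ℕ} (hi : i < s.length) :
    s.getD i 0 = t.getD i 0 := by
  obtain ⟨r, rfl⟩ := h
  rw [List.getD_append _ _ _ _ hi]

theorem rs_getD (x : ℕ → ℕ) {n i : ℕ} (hi : i < n) : (rs x n).getD i 0 = x i := by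
  simp [rs, List.getD, hi]

theorem rs_length (x : ℕ → ℕ) (n : ℕ) : (rs x n).length = n := by simp [rs]

theorem Node0.mono {s t : List ℕ} (h : s <+: t) (ht : Node0 t) : Node0 s := by
  by_cases h1 : s.length ≤ 1
  · exact Or.inl h1
  push Not at h1
  have hl := h.length_le
  rcases ht with ht | ⟨ht, ht'⟩
  · omega
  · refine Or.inr ⟨by rw [getD_of_prefix h h1, ht], fun n k hk hn hk' => ?_⟩
    rw [getD_of_prefix h hk']
    rw [getD_of_prefix h hn, getD_of_prefix h (by omega)] at hk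
    exact ht' n k hk (by omega) (by omega)

theorem NodeS.mono {N : ℕ} {P : (ℕ → ℕ) → Prop}
    (hP : ∀ w w' : ℕ → ℕ, (∀ k, 2 * k < N → w k = w' k) → (P w ↔ P w')) {d : ℕ} {s t : List ℕ}
    (h : s <+: t) (hs : 1 < s.length) (ht : NodeS N P d t) : NodeS N P d s := by
  obtain ⟨h1, h2, h3⟩ := ht
  have hl := h.length_le
  refine ⟨hs, by rw [getD_of_prefix h hs, h2], fun hN => ?_⟩
  refine (hP _ _ fun k hk => ?_).1 (h3 (by omega))
  exact (getD_of_prefix h (by omega)).symm

theorem node0_branch {w z : ℕ → ℕ} (hz : z 0 = 0) : (∀ n, Node0 (rs (pr w z) n)) ↔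
    ∀ n, w (2 * (Nat.pair (eF (.lt 0 1)) (Encodable.encode [z (n + 2), z (n + 1)])) + 1) = 1 := by
  have hpe : ∀ i, pr w z (2 * i) = w i := fun i => by simp [pr]
  have hpo : ∀ i, pr w z (2 * i + 1) = z i := fun i => by
    simp only [pr]
    rw [if_neg (by omega)]
    congr 1
    omega
  constructor
  · intro h n
    set k := Nat.pair (eF (.lt 0 1)) (Encodable.encode [z (n + 2), z (n + 1)]) with hk
    have := h (2 * (2 * k + 1) + 2 * (n + 2) + 2)
    rcases this with this | ⟨-, this⟩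
    · rw [rs_length] at this; omega
    · have := this n k ?_ (by rw [rs_length]; omega) (by rw [rs_length]; omega)
      · rw [rs_getD _ (by omega), hpe] at this
        exact this
      · rw [rs_getD _ (by omega), rs_getD _ (by omega), hpo, hpo]
  · intro h n
    by_cases hn : n ≤ 1
    · exact Or.inl (by rwa [rs_length])
    push Not at hn
    refine Or.inr ⟨?_, fun i k hk hi hk' => ?_⟩
    · rw [rs_getD _ hn]
      have := hpo 0
      simp only [mul_zero, zero_add] at this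
      rw [this, hz]
    · rw [rs_length] at hi hk'
      rw [rs_getD _ hk', hpe]
      rw [rs_getD _ hi, rs_getD _ (by omega), hpo, hpo] at hk
      rw [hk]
      exact h i

theorem nodeS_branch {N : ℕ} {P : (ℕ → ℕ) → Prop}
    (hP : ∀ w w' : ℕ → ℕ, (∀ k, 2 * k < N → w k = w' k) → (P w ↔ P w')) {w z : ℕ → ℕ} {d : ℕ} :
    (∀ n, 1 < n → NodeS N P d (rs (pr w z) n)) ↔ (z 0 = d + 1 ∧ P w) := by
  have hpe : ∀ i, pr w z (2 * i) = w i := fun i => by simp [pr]
  have hp1 : pr w z 1 = z 0 := by simp [pr]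
  constructor
  · intro h
    obtain ⟨h1, h2, h3⟩ := h (N + 2) (by omega)
    rw [rs_getD _ (by omega), hp1] at h2
    refine ⟨h2, (hP _ _ fun k hk => ?_).1 (h3 (by rw [rs_length]; omega))⟩
    rw [rs_getD _ (by omega), hpe]
  · rintro ⟨h1, h2⟩ n hn
    refine ⟨by rwa [rs_length], by rw [rs_getD _ hn, hp1, h1], fun hN => ?_⟩
    rw [rs_length] at hN
    refine (hP _ _ fun k hk => ?_).1 h2
    rw [rs_getD _ (by omega), hpe]

theorem exists_tree {w : ℕ → Fm → List ℕ → ℕ} (e : ℕ) : ∃ 𝓖 : ℕ → Set ℕ,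
    ∀ (𝓕 : ℕ → Set ℕ) (A : ℕ → List ℕ → Prop) (κ μ : Ordinal.{0}), Ctx 𝓕 A κ μ →
      (∀ i, ∃ j, 𝓕 j = 𝓖 i) → ∃ T : Set (List ℕ), IsTree T ∧ Encodable.encode '' T ∈ R0 A κ ∧
        (∀ x u z : ℕ → ℕ, z 0 = 0 → ((∀ n, rs (pr (pr x u) z) n ∈ T) ↔
          ∀ n, SU u (.lt 0 1) [z (n + 2), z (n + 1)])) ∧
        (∀ x u : ℕ → ℕ, (∀ z : ℕ → ℕ, 0 < z 0 → ¬ ∀ n, rs (pr (pr x u) z) n ∈ T) ↔
          ¬ Viol w e A x u) ∧
        (∀ x u z z' : ℕ → ℕ, 0 < z 0 → z 0 = z' 0 → (∀ n, rs (pr (pr x u) z) n ∈ T) →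
          ∀ n, rs (pr (pr x u) z') n ∈ T) := by
  obtain ⟨P, q, hP, hV⟩ := cl_clauses w e
  choose N0 hN0 using hP
  -- support of the `d`-th instance
  set N : ℕ → ℕ := fun d => 2 * (N0 d True + N0 d False) + 1 with hN
  have hPN : ∀ (d : ℕ) (b : Prop) (w w' : ℕ → ℕ), (∀ k, 2 * k < N d → w k = w' k) →
      ((¬ P d b w) ↔ ¬ P d b w') := by
    intro d b w w' h
    refine not_congr ?_
    by_cases hb : b
    · rw [eq_true hb]
      exact hN0 d True w w' fun k hk => h k (by simp only [hN]; omega)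
    · rw [eq_false hb]
      exact hN0 d False w w' fun k hk => h k (by simp only [hN]; omega)
  refine ⟨fun i => if i = 0 then Encodable.encode '' {s | Node0 s} else if i = 1 then
    {c | NodeS (N c.unpair.1) (fun w => ¬ P c.unpair.1 True w) c.unpair.1
      (Denumerable.ofNat (List ℕ) c.unpair.2)} else if i = 2 then
    {c | NodeS (N c.unpair.1) (fun w => ¬ P c.unpair.1 False w) c.unpair.1
      (Denumerable.ofNat (List ℕ) c.unpair.2)} else
    {c | c.unpair.2 = Nat.pair (q c.unpair.1).1 (Encodable.encode (q c.unpair.1).2)}, ?_⟩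
  intro 𝓕 A κ μ hC h𝓖
  have hA := R0_ACA hC
  have hG : ∀ i, (fun i => if i = 0 then Encodable.encode '' {s | Node0 s} else if i = 1 then
    {c | NodeS (N c.unpair.1) (fun w => ¬ P c.unpair.1 True w) c.unpair.1
      (Denumerable.ofNat (List ℕ) c.unpair.2)} else if i = 2 then
    {c | NodeS (N c.unpair.1) (fun w => ¬ P c.unpair.1 False w) c.unpair.1
      (Denumerable.ofNat (List ℕ) c.unpair.2)} else
    {c | c.unpair.2 = Nat.pair (q c.unpair.1).1 (Encodable.encode (q c.unpair.1).2)}) i ∈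
      R0 A κ := by
    intro i
    obtain ⟨j, hj⟩ := h𝓖 i
    rw [← hj]
    exact R0_fam hC j
  have hG0 := hG 0
  have hG1 := hG 1
  have hG2 := hG 2
  have hG3 := hG 3
  simp only [if_true, one_ne_zero, if_false, OfNat.ofNat_ne_zero, OfNat.ofNat_ne_one,
    Nat.reduceEqDiff] at hG0 hG1 hG2 hG3
  -- the tree
  set T : Set (List ℕ) := {s | Node0 s ∨
    ∃ d, NodeS (N d) (fun w => ¬ P d (A (q d).1 (q d).2) w) d s} with hT
  have hTb : ∀ W : ℕ → ℕ, ∀ z : ℕ → ℕ, 0 < z 0 → ((∀ n, rs (pr W z) n ∈ T) ↔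
      ¬ P (z 0 - 1) (A (q (z 0 - 1)).1 (q (z 0 - 1)).2) W) := by
    intro W z hz
    have hp1 : pr W z 1 = z 0 := by simp [pr]
    have key := nodeS_branch (w := W) (z := z) (d := z 0 - 1)
      (hPN (z 0 - 1) (A (q (z 0 - 1)).1 (q (z 0 - 1)).2))
    constructor
    · intro h
      refine (key.1 fun n hn => ?_).2
      rcases h n with h | ⟨d, h⟩
      · rcases h with h | h
        · rw [rs_length] at h; omega
        · have := h.1
          rw [rs_getD _ hn, hp1] at this
          omega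
      · have hd := h.2.1
        rw [rs_getD _ hn, hp1] at hd
        have : z 0 - 1 = d := by omega
        rw [this]
        exact h
    · intro h n
      by_cases hn : 1 < n
      · exact Or.inr ⟨_, key.2 ⟨by omega, h⟩ n hn⟩
      · exact Or.inl (Or.inl (by rw [rs_length]; omega))
  refine ⟨T, ?_, ?_, ?_, ?_, ?_⟩
  · -- `T` is a tree
    intro s t hst ht
    by_cases hs : 1 < s.length
    · rcases ht with ht | ⟨d, ht⟩
      · exact Or.inl (ht.mono hst)
      · exact Or.inr ⟨d, ht.mono (hPN d _) hst hs⟩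
    · exact Or.inl (Or.inl (by omega))
  · -- `T` belongs to the ground model
    have hJ := R0_join hC
    -- the set of pairs `(d, m)` with `m` the code of the relation of `d`
    set J : Set ℕ := {n : ℕ | A n.unpair.1 (Denumerable.ofNat (List ℕ) n.unpair.2)} with hJdef
    have hsnd : Nat.Primrec (fun n : ℕ => n.unpair.2) := Nat.Primrec.right
    have hfst : Nat.Primrec (fun n : ℕ => n.unpair.1) := Nat.Primrec.left
    have h1 := hA.proj _ (hA.inter _ hG3 _ (hA.pre _ hJ _ hsnd))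
    have hB : {a : ℕ | A (q a).1 (q a).2} ∈ R0 A κ := by
      convert h1 using 1
      ext a
      simp only [Set.mem_ofPred_eq, Set.mem_inter_iff, Nat.unpair_pair, hJdef]
      constructor
      · intro h
        exact ⟨_, rfl, by simpa using h⟩
      · rintro ⟨b, rfl, h⟩
        simpa using h
    have h2 := hA.proj _ (hA.pre _ (hA.inter _ hG1 _ (hA.pre _ hB _ hfst)) _ Nat.Primrec.swap)
    have h3 := hA.proj _ (hA.pre _ (hA.inter _ hG2 _
      (hA.compl _ (hA.pre _ hB _ hfst))) _ Nat.Primrec.swap)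
    convert hA.union hG0 (hA.union h2 h3) using 1
    ext c
    obtain ⟨s, rfl⟩ : ∃ s : List ℕ, Encodable.encode s = c :=
      ⟨Denumerable.ofNat (List ℕ) c, by simp⟩
    have hinj : ∀ U : Set (List ℕ), Encodable.encode s ∈ Encodable.encode '' U ↔ s ∈ U :=
      fun U => Encodable.encode_injective.mem_set_image
    rw [Set.mem_union, Set.mem_union, hinj, hinj]
    simp only [Set.mem_ofPred_eq, Set.mem_inter_iff, Set.mem_compl_iff, Nat.unpair_pair,
      Nat.unpaired, Function.swap, hT, Denumerable.ofNat_encode]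
    refine or_congr Iff.rfl ?_
    rw [← exists_or]
    refine exists_congr fun d => ?_
    by_cases hd : A (q d).1 (q d).2
    · simp [hd]
    · simp [eq_false hd]
  · -- descending sequences
    intro x u z hz
    have hb := node0_branch (w := pr x u) hz
    have hp1 : pr (pr x u) z 1 = z 0 := by simp [pr]
    have hpu : ∀ k, pr x u (2 * k + 1) = u k := fun k => by
      simp only [pr]
      rw [if_neg (by omega)]
      congr 1
      omega
    simp only [hpu] at hb
    rw [show (∀ n, SU u (.lt 0 1) [z (n + 2), z (n + 1)]) ↔ ∀ n, u (Nat.pair (eF (.lt 0 1))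
      (Encodable.encode [z (n + 2), z (n + 1)])) = 1 from Iff.rfl, ← hb]
    refine forall_congr' fun n => ⟨fun h => ?_, fun h => Or.inl h⟩
    rcases h with h | ⟨d, h⟩
    · exact h
    · have h1 := h.1
      have h2 := h.2.1
      rw [rs_length] at h1
      rw [rs_getD _ h1, hp1, hz] at h2
      omega
  · -- violations
    intro x u
    have hx : (fun n => pr x u (2 * n)) = x := by
      funext n; simp [pr]
    have hu : (fun n => pr x u (2 * n + 1)) = u := by
      funext n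
      simp only [pr]
      rw [if_neg (by omega)]
      congr 1
      omega
    have hv := hV A (pr x u)
    simp only [hx, hu] at hv
    rw [Viol, not_not, hv]
    constructor
    · intro h d
      by_contra hd
      refine h (fun _ => d + 1) (by simp) ((hTb (pr x u) (fun _ => d + 1) (by simp)).2 ?_)
      simpa using hd
    · intro h z hz hz'
      exact (hTb (pr x u) z hz).1 hz' (h _)
  · -- violations do not depend on the further values
    intro x u z z' hz hzz h
    have := (hTb (pr x u) z hz).1 h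
    refine (hTb (pr x u) z' (by omega)).2 ?_
    rw [← hzz]
    exact this

end Pool.Agent.CC
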