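import Mathlib
import Pool.Agent.Lib.MP_bf67b0_lc.Defs2
import Pool.Agent.Lib.MP_bf67b0_lc.Collapse
import Pool.Agent.Lib.MP_bf67b0_lc.Ground
import Pool.Agent.Lib.MP_bf67b0_lc.GroundReals
import Pool.Agent.Lib.MP_bf67b0_lc.HullDef
import Pool.Agent.Lib.MP_bf67b0_lc.Tree
import Pool.Agent.Lib.MP_bf67b0_lc.Sigma
import Pool.Agent.Lib.MP_bf67b0_lc.NoChoice
import Pool.Agent.Lib.MP_bf67b0_lc.Choice
import Pool.Agent.Lib.MP_bf67b0_lc.Model0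
import Pool.Agent.Lib.MP_bf67b0_lc.Model

/-!
# The model without uniform countable choice: assembly
-/

set_option autoImplicit false

namespace Pool.Agent.CC

open Ordinal Set

/-! ### assembly -/

theorem exists_fm (φ : Fm) : ∃ i, 2 ≤ i ∧ fm i = φ := by
  obtain ⟨n, hn⟩ := Classical.choose_spec (@exists_surjective_nat Fm ⟨Fm.bot⟩ inferInstance) φ
  refine ⟨n + 2, by omega, ?_⟩
  have : ¬ n + 2 < 2 := by omega
  simp only [fm, this, if_false, Nat.add_sub_cancel]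
  exact hn

theorem AA_nonempty {𝓕 : ℕ → Set ℕ} {A : ℕ → List ℕ → Prop} {κ μ : Ordinal.{0}}
    (hC : Ctx 𝓕 A κ μ) (g : Set ℕ) (k : ℕ) : (AA A κ g k).Nonempty := by
  classical
  have h0 : (∅ : Set ℕ) ∈ R0 A κ := by
    have := (R0_ACA hC).compl _ (R0_ACA hC).univ
    simpa using this
  refine ⟨fun n => if Nat.pair k n ∈ g then 1 else 0, fun n => ?_, ∅, h0, fun n => ?_⟩
  · dsimp only; split_ifs <;> omega
  · rw [symmDiff_bot (a := g) |> fun h => (show symmDiff g ∅ = g from h)]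
    by_cases h : Nat.pair k n ∈ g <;> simp [h]

theorem main : ∃ n : ℕ, 1 ≤ n ∧ ∃ N : Set ZFSet.{0}, N.Countable ∧ (∀ x ∈ N, ∀ y ∈ x, y ∈ N) ∧
    ModelZF N ∧ ACw N (PiC N n) ∧ ¬ ACw N (SigmaC N n) := by
  obtain ⟨w, hw⟩ := exists_wit
  obtain ⟨J, hJ⟩ := exists_tra
  obtain ⟨e, -, he⟩ := exists_fm (.eq 0 1)
  obtain ⟨𝓖, h𝓖⟩ := exists_tree (w := w) e
  obtain ⟨𝓕, hprim, hF⟩ := exists_F (fun i => Nat.casesOn i
    {n | ∃ φ a, n = Nat.pair (Nat.pair (eF φ) (Encodable.encode a)) (J φ a)} 𝓖)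
  obtain ⟨A, hA⟩ := exists_A 𝓕
  obtain ⟨κ, hκ⟩ := exists_good A
  obtain ⟨μ, hμ⟩ := hκ.grd hA.toArith
  have hC : Ctx 𝓕 A κ μ := ⟨hprim, hA, hκ, hμ⟩
  obtain ⟨T, hT, hTR, hT1, hT2, hT3⟩ := h𝓖 𝓕 A κ μ hC (fun i => hF (i + 1))
  obtain ⟨g, hg, -⟩ := exists_gen' hC []
  refine ⟨1, le_rfl, NN A κ μ g, NN_countable hμ g, NN_transitive hA.toArith hμ hg,
    NN_ZF hA.toArith hμ hg, ACw_Pi hC hg, fun h => ?_⟩
  exact no_choice hC hg (h (AA A κ g)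
    (fun k => AA_Sigma hw hJ he hC (hF 0) hT hTR hT1 hT2 hT3 hg k)
    (fun k => AA_nonempty hC g k) (AA_seq hC hg))

end Pool.Agent.CC
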